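import Mathlib

set_option autoImplicit false
set_option linter.style.haveILetI false

open MeasureTheory Filter Topology
open scoped ComplexConjugate ENNReal

namespace Pool.Agent.H26.BG

/-- normalised area measure on the unit disc -/
noncomputable def dA : Measure ℂ := (ENNReal.ofReal Real.pi⁻¹) • (volume.restrict (Metric.ball (0 : ℂ) 1))

instance : IsFiniteMeasure dA := by
  unfold dA
  have : IsFiniteMeasure (volume.restrict (Metric.ball (0 : ℂ) 1)) := by
    refine ⟨?_⟩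
    rw [Measure.restrict_apply_univ]
    exact measure_ball_lt_top
  exact Measure.smul_finite _ ENNReal.ofReal_ne_top

theorem dA_ae : ∀ᵐ z ∂dA, z ∈ Metric.ball (0 : ℂ) 1 := by
  unfold dA
  apply Measure.ae_smul_measure
  exact ae_restrict_mem Metric.isOpen_ball.measurableSet

/-- multiplication by a unit complex number -/
noncomputable def mulE (c : ℂ) (hc : ‖c‖ = 1) : ℂ ≃ᵐ ℂ :=
  (Homeomorph.mulLeft₀ c (by rintro rfl; simp at hc)).toMeasurableEquiv

theorem mulE_apply (c : ℂ) (hc : ‖c‖ = 1) (z : ℂ) : mulE c hc z = c * z := rfl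

theorem dA_rot (c : ℂ) (hc : ‖c‖ = 1) : Measure.map (mulE c hc) dA = dA := by
  have h1 : MeasurePreserving (mulE c hc) volume volume := by
    let a : Circle := ⟨c, by simpa [Submonoid.unitSphere] using hc⟩
    have := (rotation a).measurePreserving
    exact this
  have h2 : (mulE c hc) ⁻¹' (Metric.ball (0 : ℂ) 1) = Metric.ball (0 : ℂ) 1 := by
    ext z
    simp [mulE_apply, hc]
  have h3 := h1.restrict_preimage (s := Metric.ball (0 : ℂ) 1) Metric.isOpen_ball.measurableSet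
  rw [h2] at h3
  unfold dA
  rw [Measure.map_smul, h3.map_eq]

theorem rot_integral (c : ℂ) (hc : ‖c‖ = 1) (g : ℂ → ℂ) : ∫ z, g (c * z) ∂dA = ∫ z, g z ∂dA := by
  conv_rhs => rw [← dA_rot c hc]
  rw [(mulE c hc).measurableEmbedding.integral_map]
  rfl

/-- orthogonality -/
theorem orth (G : ℂ → ℂ) (hG : ∀ c z : ℂ, ‖c‖ = 1 → G (c * z) = G z) (m n : ℕ) (hmn : m ≠ n) :
    ∫ z, G z * (z ^ m * (conj z) ^ n) ∂dA = 0 := by
  set θ : ℝ := Real.pi / ((m : ℝ) - n) with hθ
  have hmn' : (m : ℝ) - n ≠ 0 := by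
    rw [sub_ne_zero]; exact_mod_cast hmn
  set c : ℂ := Complex.exp (θ * Complex.I) with hc
  have hcn : ‖c‖ = 1 := Complex.norm_exp_ofReal_mul_I θ
  have h1 := rot_integral c hcn (fun z => G z * (z ^ m * (conj z) ^ n))
  have hcc : c ^ m * (conj c) ^ n = -1 := by
    have e1 : conj c = Complex.exp (-(θ * Complex.I)) := by
      rw [hc, ← Complex.exp_conj]
      congr 1
      simp
    rw [e1, hc, ← Complex.exp_nat_mul, ← Complex.exp_nat_mul, ← Complex.exp_add]
    have e2 : (m : ℂ) * (θ * Complex.I) + n * -(θ * Complex.I) = Real.pi * Complex.I := by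
      have : ((m : ℝ) - n) * θ = Real.pi := by rw [hθ]; field_simp
      rw [← this]; push_cast; ring
    rw [e2, Complex.exp_pi_mul_I]
  have h2 : (fun z => G (c * z) * ((c * z) ^ m * (conj (c * z)) ^ n)) =
      fun z => -(G z * (z ^ m * (conj z) ^ n)) := by
    funext z
    rw [hG c z hcn, map_mul, mul_pow, mul_pow]
    calc G z * (c ^ m * z ^ m * ((conj c) ^ n * (conj z) ^ n))
        = (c ^ m * (conj c) ^ n) * (G z * (z ^ m * (conj z) ^ n)) := by ring
      _ = _ := by rw [hcc]; ring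
  rw [h2, integral_neg] at h1
  have h3 : (2 : ℂ) * ∫ z, G z * (z ^ m * (conj z) ^ n) ∂dA = 0 := by
    linear_combination (-1 : ℂ) * h1
  simpa using h3

/-- distribution of `|z|^2` -/
theorem push : Measure.map (fun z : ℂ => ‖z‖ ^ 2) dA = volume.restrict (Set.Ioc (0 : ℝ) 1) := by
  have hm : Measurable (fun z : ℂ => ‖z‖ ^ 2) := by fun_prop
  have : IsFiniteMeasure (Measure.map (fun z : ℂ => ‖z‖ ^ 2) dA) := inferInstance
  apply Measure.ext_of_Iic
  intro t
  rw [Measure.map_apply hm measurableSet_Iic, Measure.restrict_apply measurableSet_Iic]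
  unfold dA
  rw [Measure.smul_apply, Measure.restrict_apply (hm measurableSet_Iic), smul_eq_mul]
  rcases lt_or_ge t 0 with ht | ht
  · have e1 : (fun z : ℂ => ‖z‖ ^ 2) ⁻¹' Set.Iic t ∩ Metric.ball 0 1 = ∅ := by
      ext z
      simp only [Set.mem_inter_iff, Set.mem_preimage, Set.mem_Iic, Set.mem_empty_iff_false, iff_false, not_and]
      intro h
      have := sq_nonneg ‖z‖
      linarith
    have e2 : Set.Iic t ∩ Set.Ioc (0 : ℝ) 1 = ∅ := by
      ext x
      simp only [Set.mem_inter_iff, Set.mem_Iic, Set.mem_Ioc, Set.mem_empty_iff_false, iff_false]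
      rintro ⟨h1, h2, -⟩
      linarith
    rw [e1, e2]; simp
  rcases lt_or_ge t 1 with ht1 | ht1
  · have e1 : (fun z : ℂ => ‖z‖ ^ 2) ⁻¹' Set.Iic t ∩ Metric.ball 0 1 = Metric.closedBall 0 (√t) := by
      ext z
      simp only [Set.mem_inter_iff, Set.mem_preimage, Set.mem_Iic, mem_ball_zero_iff, mem_closedBall_zero_iff]
      constructor
      · rintro ⟨h, -⟩
        exact Real.le_sqrt_of_sq_le h
      · intro h
        have h1 : ‖z‖ ^ 2 ≤ t := by
          calc ‖z‖ ^ 2 ≤ (√t) ^ 2 := by gcongr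
            _ = t := Real.sq_sqrt ht
        refine ⟨h1, ?_⟩
        by_contra hcon
        push Not at hcon
        nlinarith
    have e2 : Set.Iic t ∩ Set.Ioc (0 : ℝ) 1 = Set.Ioc 0 t := by
      ext x
      simp only [Set.mem_inter_iff, Set.mem_Iic, Set.mem_Ioc]
      constructor
      · rintro ⟨h1, h2, -⟩; exact ⟨h2, h1⟩
      · rintro ⟨h1, h2⟩; exact ⟨h2, h1, by linarith⟩
    rw [e1, e2, Complex.volume_closedBall, Real.volume_Ioc, sub_zero]
    have e3 : ((NNReal.pi : NNReal) : ℝ≥0∞) = ENNReal.ofReal Real.pi := by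
      rw [← NNReal.coe_real_pi, ENNReal.ofReal_coe_nnreal]
    rw [e3, ← ENNReal.ofReal_pow (Real.sqrt_nonneg t), Real.sq_sqrt ht, ← ENNReal.ofReal_mul ht,
      ← ENNReal.ofReal_mul (by positivity)]
    congr 1
    field_simp
  · have e1 : (fun z : ℂ => ‖z‖ ^ 2) ⁻¹' Set.Iic t ∩ Metric.ball 0 1 = Metric.ball 0 1 := by
      ext z
      simp only [Set.mem_inter_iff, Set.mem_preimage, Set.mem_Iic, mem_ball_zero_iff]
      constructor
      · rintro ⟨-, h⟩; exact h
      · intro h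
        refine ⟨?_, h⟩
        have := norm_nonneg z
        nlinarith
    have e2 : Set.Iic t ∩ Set.Ioc (0 : ℝ) 1 = Set.Ioc 0 1 := by
      ext x
      simp only [Set.mem_inter_iff, Set.mem_Iic, Set.mem_Ioc]
      constructor
      · rintro ⟨h1, h2⟩; exact h2
      · rintro ⟨h1, h2⟩; exact ⟨by linarith, h1, h2⟩
    rw [e1, e2, Complex.volume_ball, Real.volume_Ioc, sub_zero]
    have e3 : ((NNReal.pi : NNReal) : ℝ≥0∞) = ENNReal.ofReal Real.pi := by
      rw [← NNReal.coe_real_pi, ENNReal.ofReal_coe_nnreal]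
    rw [e3]
    simp only [ENNReal.ofReal_one, one_pow, one_mul]
    rw [← ENNReal.ofReal_mul (by positivity)]
    rw [inv_mul_cancel₀ Real.pi_ne_zero, ENNReal.ofReal_one]

theorem radial_integral (g : ℝ → ℝ) (hg : Measurable g) :
    ∫ z : ℂ, g (‖z‖ ^ 2) ∂dA = ∫ u in Set.Ioc (0 : ℝ) 1, g u := by
  rw [← push, integral_map (by fun_prop) hg.aestronglyMeasurable]

theorem radial_lintegral (g : ℝ → ℝ≥0∞) (hg : Measurable g) :
    ∫⁻ z : ℂ, g (‖z‖ ^ 2) ∂dA = ∫⁻ u in Set.Ioc (0 : ℝ) 1, g u := by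
  rw [← push, lintegral_map hg (by fun_prop)]

theorem intB (g : ℂ → ℂ) (hg : Measurable g) (C : ℝ) (hC : ∀ z ∈ Metric.ball (0 : ℂ) 1, ‖g z‖ ≤ C) :
    Integrable g dA := by
  refine Integrable.of_bound hg.aestronglyMeasurable C ?_
  filter_upwards [dA_ae] with z hz
  exact hC z hz

/-- polynomial energy -/
theorem energy (G : ℂ → ℝ) (hGm : Measurable G) (hG : ∀ c z : ℂ, ‖c‖ = 1 → G (c * z) = G z) (B : ℝ)
    (hB : ∀ z ∈ Metric.ball (0 : ℂ) 1, |G z| ≤ B) (a : ℕ → ℂ) (N : ℕ) :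
    ∫ z, ((G z : ℝ) : ℂ) * ((∑ n ∈ Finset.range N, a n * z ^ n) * conj (∑ n ∈ Finset.range N, a n * z ^ n)) ∂dA =
      ((∑ n ∈ Finset.range N, ‖a n‖ ^ 2 * ∫ z, G z * (‖z‖ ^ 2) ^ n ∂dA : ℝ) : ℂ) := by
  have hint : ∀ m n : ℕ, Integrable (fun z : ℂ => ((G z : ℝ) : ℂ) * (z ^ m * (conj z) ^ n)) dA := by
    intro m n
    apply intB _ (by fun_prop) B
    intro z hz
    have h3 : ‖G z‖ ≤ B := hB z hz
    rw [mem_ball_zero_iff] at hz
    rw [norm_mul, norm_mul, norm_pow, norm_pow, RCLike.norm_conj, Complex.norm_real]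
    have h1 : ‖z‖ ^ m ≤ 1 := pow_le_one₀ (norm_nonneg _) hz.le
    have h2 : ‖z‖ ^ n ≤ 1 := pow_le_one₀ (norm_nonneg _) hz.le
    have h4 : 0 ≤ ‖z‖ ^ m * ‖z‖ ^ n := by positivity
    have h5 : ‖z‖ ^ m * ‖z‖ ^ n ≤ 1 := mul_le_one₀ h1 (by positivity) h2
    calc ‖G z‖ * (‖z‖ ^ m * ‖z‖ ^ n) ≤ ‖G z‖ * 1 := by gcongr
      _ ≤ B := by rw [mul_one]; exact h3
  have e1 : (fun z : ℂ => ((G z : ℝ) : ℂ) * ((∑ n ∈ Finset.range N, a n * z ^ n) *
      conj (∑ n ∈ Finset.range N, a n * z ^ n))) =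
      fun z => ∑ m ∈ Finset.range N, ∑ n ∈ Finset.range N,
        (a m * conj (a n)) * (((G z : ℝ) : ℂ) * (z ^ m * (conj z) ^ n)) := by
    funext z
    rw [map_sum, Finset.sum_mul_sum, Finset.mul_sum]
    apply Finset.sum_congr rfl
    intro m _
    rw [Finset.mul_sum]
    apply Finset.sum_congr rfl
    intro n _
    rw [map_mul, map_pow]
    ring
  rw [e1, integral_finsetSum _ (fun m _ => integrable_finsetSum _ (fun n _ => (hint m n).const_mul _))]
  push_cast
  apply Finset.sum_congr rfl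
  intro m hm
  rw [integral_finsetSum _ (fun n _ => (hint m n).const_mul _), Finset.sum_eq_single m]
  · rw [integral_const_mul]
    have e2 : a m * conj (a m) = ((‖a m‖ ^ 2 : ℝ) : ℂ) := by
      rw [Complex.mul_conj, Complex.normSq_eq_norm_sq]
    rw [e2]
    push_cast
    congr 1
    rw [← integral_complex_ofReal]
    apply integral_congr_ae
    refine Eventually.of_forall (fun z => ?_)
    simp only
    rw [← mul_pow, Complex.mul_conj, Complex.normSq_eq_norm_sq]
    push_cast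
    ring
  · intro n _ hn
    rw [integral_const_mul, orth (fun z => ((G z : ℝ) : ℂ)) (fun c z hc => by rw [hG c z hc]) m n hn.symm, mul_zero]
  · intro h; exact absurd hm h

end Pool.Agent.H26.BG
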