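import Mathlib
import Pool.Agent.H26.BG1

set_option autoImplicit false
set_option linter.style.haveILetI false

open MeasureTheory Filter Topology
open scoped ComplexConjugate ENNReal

namespace Pool.Agent.H26.BG

noncomputable def L (u : ℝ) : ℝ := 1 - Real.log (1 - u)
noncomputable def F (u : ℝ) : ℝ := (√(L u))⁻¹
noncomputable def S (u : ℝ) : ℝ := (1 - u)⁻¹ / (2 * √(L u)) / (√(L u)) ^ 2

theorem L_ge (u : ℝ) (h0 : 0 ≤ u) (h1 : u < 1) : 1 ≤ L u := by
  unfold L
  have := Real.log_nonpos (show 0 ≤ 1 - u by linarith) (by linarith)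
  linarith

theorem S_pos (u : ℝ) (h0 : 0 ≤ u) (h1 : u < 1) : 0 < S u := by
  unfold S
  have h2 := L_ge u h0 h1
  have h3 : 0 < √(L u) := Real.sqrt_pos.mpr (by linarith)
  have h4 : 0 < 1 - u := by linarith
  positivity

theorem F_pos (u : ℝ) (h0 : 0 ≤ u) (h1 : u < 1) : 0 < F u := by
  unfold F
  have h2 := L_ge u h0 h1
  have h3 : 0 < √(L u) := Real.sqrt_pos.mpr (by linarith)
  positivity

theorem F_zero : F 0 = 1 := by simp [F, L]

theorem L_deriv (u : ℝ) (h1 : u < 1) : HasDerivAt L (1 - u)⁻¹ u := by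
  unfold L
  have h2 : HasDerivAt (fun u : ℝ => 1 - u) (-1) u := by
    simpa using (hasDerivAt_id u).const_sub 1
  have h3 := h2.log (by linarith)
  have h4 := h3.const_sub 1
  refine h4.congr_deriv ?_
  rw [neg_div, neg_neg, one_div]

theorem F_deriv (u : ℝ) (h0 : 0 ≤ u) (h1 : u < 1) : HasDerivAt F (-S u) u := by
  have h2 := L_ge u h0 h1
  have h3 := (L_deriv u h1).sqrt (by linarith)
  have h4 : √(L u) ≠ 0 := (Real.sqrt_pos.mpr (by linarith)).ne'
  have h5 := h3.inv h4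
  refine h5.congr_deriv ?_
  unfold S
  ring

theorem S_cont (b : ℝ) (hb : b < 1) : ContinuousOn S (Set.Icc 0 b) := by
  intro u hu
  have hu1 : u < 1 := lt_of_le_of_lt hu.2 hb
  have h2 := L_ge u hu.1 hu1
  have h3 : ContinuousAt L u := (L_deriv u hu1).continuousAt
  have h4 : √(L u) ≠ 0 := (Real.sqrt_pos.mpr (by linarith)).ne'
  apply ContinuousAt.continuousWithinAt
  unfold S
  have h5 : ContinuousAt (fun u => √(L u)) u := h3.sqrt
  have h6 : ContinuousAt (fun u : ℝ => (1 - u)⁻¹) u := by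
    apply ContinuousAt.inv₀ (by fun_prop)
    linarith
  exact (h6.div (continuousAt_const.mul h5) (mul_ne_zero two_ne_zero h4)).div (h5.pow 2) (pow_ne_zero 2 h4)

theorem S_int (a b : ℝ) (ha : 0 ≤ a) (hab : a ≤ b) (hb : b < 1) : ∫ u in a..b, S u = F a - F b := by
  have h1 : ∀ u ∈ Set.uIcc a b, HasDerivAt (fun u => - F u) (S u) u := by
    intro u hu
    rw [Set.uIcc_of_le hab] at hu
    have := (F_deriv u (ha.trans hu.1) (lt_of_le_of_lt hu.2 hb)).neg
    rw [neg_neg] at this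
    exact this
  have h2 : IntervalIntegrable S volume a b := by
    apply ContinuousOn.intervalIntegrable
    rw [Set.uIcc_of_le hab]
    exact (S_cont b hb).mono (Set.Icc_subset_Icc_left ha)
  rw [intervalIntegral.integral_eq_sub_of_hasDerivAt h1 h2]
  ring

theorem S_meas : Measurable S := by unfold S L; fun_prop

/-- truncated density in the variable `u = |z|^2` -/
noncomputable def g (R : ℝ) (u : ℝ) : ℝ := Set.indicator (Set.Iic (R ^ 2)) S u

/-- truncated weight -/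
noncomputable def GR (R : ℝ) (z : ℂ) : ℝ := g R (‖z‖ ^ 2)

theorem g_meas (R : ℝ) : Measurable (g R) := S_meas.indicator measurableSet_Iic

theorem GR_meas (R : ℝ) : Measurable (GR R) := (g_meas R).comp (by fun_prop)

theorem GR_rot (R : ℝ) (c z : ℂ) (hc : ‖c‖ = 1) : GR R (c * z) = GR R z := by
  unfold GR; rw [norm_mul, hc, one_mul]

variable (R : ℝ) (hR0 : 0 ≤ R) (hR : R < 1)

include hR0 hR

theorem R2 : R ^ 2 < 1 := by nlinarith

theorem g_nonneg (u : ℝ) (hu : 0 ≤ u) : 0 ≤ g R u := by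
  unfold g
  rw [Set.indicator_apply]
  split_ifs with h
  · exact (S_pos u hu (lt_of_le_of_lt h (R2 R hR0 hR))).le
  · exact le_rfl

theorem GR_nonneg (z : ℂ) : 0 ≤ GR R z := g_nonneg R hR0 hR _ (by positivity)

theorem g_bdd : ∃ B, ∀ u, 0 ≤ u → |g R u| ≤ B := by
  obtain ⟨B, hB⟩ := (isCompact_Icc (a := (0 : ℝ)) (b := R ^ 2)).exists_bound_of_continuousOn (S_cont _ (R2 R hR0 hR))
  refine ⟨max B 0, fun u hu => ?_⟩
  unfold g
  rw [Set.indicator_apply]
  split_ifs with h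
  · exact (hB u ⟨hu, h⟩).trans (le_max_left _ _)
  · simp

theorem g_mass : ∫ u in Set.Ioc (0 : ℝ) 1, g R u = 1 - F (R ^ 2) := by
  have h2 := R2 R hR0 hR
  unfold g
  rw [setIntegral_indicator measurableSet_Iic]
  have : Set.Ioc (0 : ℝ) 1 ∩ Set.Iic (R ^ 2) = Set.Ioc 0 (R ^ 2) := by
    ext x; simp only [Set.mem_inter_iff, Set.mem_Ioc, Set.mem_Iic]
    constructor
    · rintro ⟨⟨h1, -⟩, h3⟩; exact ⟨h1, h3⟩
    · rintro ⟨h1, h3⟩; exact ⟨⟨h1, by linarith⟩, h3⟩
  rw [this, ← intervalIntegral.integral_of_le (by positivity), S_int 0 (R ^ 2) le_rfl (by positivity) h2, F_zero]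

theorem GR_bdd : ∃ B, ∀ z, |GR R z| ≤ B := by
  obtain ⟨B, hB⟩ := g_bdd R hR0 hR
  exact ⟨B, fun z => hB _ (by positivity)⟩

theorem GR_mass : ∫ z, GR R z ∂dA ≤ 1 := by
  unfold GR
  rw [radial_integral (g R) (g_meas R), g_mass R hR0 hR]
  have := F_pos (R ^ 2) (by positivity) (R2 R hR0 hR)
  linarith

theorem GR_int : Integrable (GR R) dA := by
  obtain ⟨B, hB⟩ := GR_bdd R hR0 hR
  exact Integrable.of_bound (GR_meas R).aestronglyMeasurable B (Eventually.of_forall hB)

theorem GR_pow (n : ℕ) : ∫ z, GR R z * (‖z‖ ^ 2) ^ n ∂dA ≤ 1 := by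
  refine le_trans ?_ (GR_mass R hR0 hR)
  apply integral_mono_of_nonneg
  · exact Eventually.of_forall (fun z => mul_nonneg (GR_nonneg R hR0 hR z) (by positivity))
  · exact GR_int R hR0 hR
  · filter_upwards [dA_ae] with z hz
    rw [mem_ball_zero_iff] at hz
    have h1 : (‖z‖ ^ 2) ^ n ≤ 1 := pow_le_one₀ (by positivity) (by nlinarith [norm_nonneg z])
    calc GR R z * (‖z‖ ^ 2) ^ n ≤ GR R z * 1 := by
          gcongr
          exact GR_nonneg R hR0 hR z
      _ = GR R z := mul_one _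

variable (f : ℂ → ℂ) (hf : Measurable f) (C : ℝ) (hC : ∀ z, ‖f z‖ ≤ C)

/-- coefficients -/
noncomputable def co (R : ℝ) (f : ℂ → ℂ) (n : ℕ) : ℂ := ∫ z, ((GR R z : ℝ) : ℂ) * f z * (conj z) ^ n ∂dA

include hf hC

theorem bessel (N : ℕ) : ∑ n ∈ Finset.range N, ‖co R f n‖ ^ 2 ≤ ∫ z, GR R z * ‖f z‖ ^ 2 ∂dA := by
  obtain ⟨B, hB⟩ := GR_bdd R hR0 hR
  have hB0 : 0 ≤ B := (abs_nonneg _).trans (hB 0)
  have hC0 : 0 ≤ C := (norm_nonneg _).trans (hC 0)
  have hGm := GR_meas R
  set c := co R f with hc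
  set h : ℂ → ℂ := fun z => ∑ n ∈ Finset.range N, c n * z ^ n with hh
  have hhm : Measurable h := by fun_prop
  have hhb : ∃ D, ∀ z ∈ Metric.ball (0 : ℂ) 1, ‖h z‖ ≤ D := by
    refine ⟨∑ n ∈ Finset.range N, ‖c n‖, fun z hz => ?_⟩
    rw [mem_ball_zero_iff] at hz
    refine (norm_sum_le _ _).trans (Finset.sum_le_sum (fun n _ => ?_))
    rw [norm_mul, norm_pow]
    calc ‖c n‖ * ‖z‖ ^ n ≤ ‖c n‖ * 1 := by
          gcongr
          exact pow_le_one₀ (norm_nonneg _) hz.le
      _ = ‖c n‖ := mul_one _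
  obtain ⟨D, hD⟩ := hhb
  have hD0 : 0 ≤ D := (norm_nonneg _).trans (hD 0 (by simp))
  -- three integrals
  have i1 : Integrable (fun z => GR R z * ‖f z‖ ^ 2) dA := by
    refine Integrable.of_bound (by fun_prop) (B * C ^ 2) (Eventually.of_forall (fun z => ?_))
    rw [norm_mul, norm_pow, norm_norm]
    have := hC z
    have h2 : ‖GR R z‖ ≤ B := hB z
    gcongr
  have i2 : Integrable (fun z => ((GR R z : ℝ) : ℂ) * (f z * conj (h z))) dA := by
    apply intB _ (by fun_prop) (B * (C * D))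
    intro z hz
    rw [norm_mul, norm_mul, RCLike.norm_conj, Complex.norm_real]
    have := hC z
    have h2 : ‖GR R z‖ ≤ B := hB z
    have h3 := hD z hz
    gcongr
  have i3 : Integrable (fun z => GR R z * ‖h z‖ ^ 2) dA := by
    refine Integrable.of_bound (by fun_prop) (B * D ^ 2) ?_
    filter_upwards [dA_ae] with z hz
    rw [norm_mul, norm_pow, norm_norm]
    have h2 : ‖GR R z‖ ≤ B := hB z
    have h3 := hD z hz
    gcongr
  have e2 : ∫ z, ((GR R z : ℝ) : ℂ) * (f z * conj (h z)) ∂dA = ((∑ n ∈ Finset.range N, ‖c n‖ ^ 2 : ℝ) : ℂ) := by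
    have e3 : (fun z => ((GR R z : ℝ) : ℂ) * (f z * conj (h z))) = fun z => ∑ n ∈ Finset.range N,
        conj (c n) * (((GR R z : ℝ) : ℂ) * f z * (conj z) ^ n) := by
      funext z
      simp only [hh, map_sum, map_mul, map_pow, Finset.mul_sum]
      apply Finset.sum_congr rfl
      intro n _
      ring
    rw [e3, integral_finsetSum]
    · push_cast
      apply Finset.sum_congr rfl
      intro n _
      rw [integral_const_mul]
      show conj (c n) * co R f n = _
      rw [← hc, mul_comm, Complex.mul_conj, Complex.normSq_eq_norm_sq]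
      push_cast; ring
    · intro n _
      apply Integrable.const_mul
      apply intB _ (by fun_prop) (B * C)
      intro z hz
      rw [mem_ball_zero_iff] at hz
      rw [norm_mul, norm_mul, norm_pow, RCLike.norm_conj, Complex.norm_real]
      have := hC z
      have h2 : ‖GR R z‖ ≤ B := hB z
      calc ‖GR R z‖ * ‖f z‖ * ‖z‖ ^ n ≤ B * C * 1 := by
            gcongr
            exact pow_le_one₀ (norm_nonneg _) hz.le
        _ = B * C := mul_one _
  have e4 : ∫ z, GR R z * ‖h z‖ ^ 2 ∂dA ≤ ∑ n ∈ Finset.range N, ‖c n‖ ^ 2 := by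
    have e5 := energy (GR R) hGm (GR_rot R) B (fun z _ => hB z) c N
    have e6 : ∫ z, ((GR R z : ℝ) : ℂ) * ((∑ n ∈ Finset.range N, c n * z ^ n) * conj (∑ n ∈ Finset.range N, c n * z ^ n)) ∂dA
        = ((∫ z, GR R z * ‖h z‖ ^ 2 ∂dA : ℝ) : ℂ) := by
      rw [← integral_complex_ofReal]
      apply integral_congr_ae
      refine Eventually.of_forall (fun z => ?_)
      simp only
      rw [Complex.mul_conj, Complex.normSq_eq_norm_sq]
      push_cast
      rfl
    rw [e6] at e5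
    have e7 := Complex.ofReal_injective e5
    rw [e7]
    apply Finset.sum_le_sum
    intro n _
    calc ‖c n‖ ^ 2 * ∫ z, GR R z * (‖z‖ ^ 2) ^ n ∂dA ≤ ‖c n‖ ^ 2 * 1 := by
          gcongr
          exact GR_pow R hR0 hR n
      _ = _ := mul_one _
  have e8 : 0 ≤ ∫ z, GR R z * ‖f z - h z‖ ^ 2 ∂dA :=
    integral_nonneg (fun z => mul_nonneg (GR_nonneg R hR0 hR z) (by positivity))
  have e9 : ∫ z, GR R z * ‖f z - h z‖ ^ 2 ∂dA = ∫ z, GR R z * ‖f z‖ ^ 2 ∂dA -
      2 * (∫ z, ((GR R z : ℝ) : ℂ) * (f z * conj (h z)) ∂dA).re + ∫ z, GR R z * ‖h z‖ ^ 2 ∂dA := by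
    have e10 : (∫ z, ((GR R z : ℝ) : ℂ) * (f z * conj (h z)) ∂dA).re =
        ∫ z, (((GR R z : ℝ) : ℂ) * (f z * conj (h z))).re ∂dA := by
      exact (integral_re i2).symm
    have i2r : Integrable (fun z => (((GR R z : ℝ) : ℂ) * (f z * conj (h z))).re) dA := i2.re
    have i2s : Integrable (fun z => 2 * (((GR R z : ℝ) : ℂ) * (f z * conj (h z))).re) dA := i2r.const_mul 2
    have i12 : Integrable (fun z => GR R z * ‖f z‖ ^ 2 - 2 * (((GR R z : ℝ) : ℂ) * (f z * conj (h z))).re) dA :=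
      i1.sub i2s
    rw [e10, ← integral_const_mul, ← integral_sub i1 i2s, ← integral_add i12 i3]
    apply integral_congr_ae
    refine Eventually.of_forall (fun z => ?_)
    simp only
    rw [Complex.re_ofReal_mul, ← Complex.normSq_eq_norm_sq, ← Complex.normSq_eq_norm_sq, ← Complex.normSq_eq_norm_sq,
      Complex.normSq_sub]
    ring
  rw [e2, Complex.ofReal_re] at e9
  linarith

end Pool.Agent.H26.BG
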