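import Mathlib
import Pool.Agent.H26.BG2

set_option autoImplicit false
set_option linter.style.haveILetI false

open MeasureTheory Filter Topology
open scoped ComplexConjugate ENNReal NNReal

namespace Pool.Agent.H26.BG

/-- Bergman projection -/
noncomputable def PB (f : ℂ → ℂ) (z : ℂ) : ℂ := ∫ ζ, f ζ / (1 - z * conj ζ) ^ 2 ∂dA
/-- maximal Bergman projection -/
noncomputable def PBmax (f : ℂ → ℂ) (z : ℂ) : ℂ := ∫ ζ, f ζ / ((‖1 - z * conj ζ‖ ^ 2 : ℝ) : ℂ) ∂dA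

/-- the weight `w` -/
noncomputable def w (z : ℂ) : ℝ := 1 - ‖z‖ ^ 2
/-- the weight `σ` -/
noncomputable def sg (z : ℂ) : ℝ := S (‖z‖ ^ 2)

theorem sg_meas : Measurable sg := S_meas.comp (by fun_prop)

variable (R : ℝ) (hR0 : 0 ≤ R) (hR : R < 1)
variable (f : ℂ → ℂ) (hf : Measurable f) (C : ℝ) (hC : ∀ z, ‖f z‖ ≤ C)
  (hsupp : ∀ z, f z ≠ 0 → ‖z‖ ≤ R)

include hsupp in
theorem sg_eq (z : ℂ) : ((sg z : ℝ) : ℂ) * f z = ((GR R z : ℝ) : ℂ) * f z := by
  by_cases h : f z = 0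
  · rw [h, mul_zero, mul_zero]
  · have h1 := hsupp z h
    congr 2
    unfold sg GR g
    rw [Set.indicator_of_mem]
    rw [Set.mem_Iic]
    gcongr

theorem one_series (x : ℂ) (hx : ‖x‖ < 1) : HasSum (fun n : ℕ => ((n : ℂ) + 1) * x ^ n) (1 / (1 - x) ^ 2) := by
  have := hasSum_choose_mul_geometric_of_norm_lt_one 1 hx
  simp only [Nat.choose_one_right] at this
  have e : (fun n : ℕ => ((n : ℂ) + 1) * x ^ n) = fun n : ℕ => ((n + 1 : ℕ) : ℂ) * x ^ n := by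
    funext n; push_cast; ring
  rw [e]
  exact this

theorem real_summable (r : ℝ) (h0 : 0 ≤ r) (hr : r < 1) : Summable (fun n : ℕ => ((n : ℝ) + 1) * r ^ n) := by
  have := (hasSum_choose_mul_geometric_of_norm_lt_one 1 (show ‖r‖ < 1 by rwa [Real.norm_of_nonneg h0])).summable
  simp only [Nat.choose_one_right] at this
  refine this.congr (fun n => ?_)
  push_cast; ring

theorem dA_mass : dA.real Set.univ = 1 := by
  have := radial_integral (fun _ => 1) measurable_const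
  simpa using this

include hR0 hR hf hC hsupp in
theorem PB_series (z : ℂ) (hz : ‖z‖ < 1) :
    HasSum (fun n : ℕ => (((n : ℂ) + 1) * co R f n) * z ^ n) (PB (fun ζ => ((sg ζ : ℝ) : ℂ) * f ζ) z) := by
  obtain ⟨B, hB⟩ := GR_bdd R hR0 hR
  have hB0 : 0 ≤ B := (abs_nonneg _).trans (hB 0)
  have hC0 : 0 ≤ C := (norm_nonneg _).trans (hC 0)
  have hGm := GR_meas R
  let Fn : ℕ → ℂ → ℂ := fun n ζ => ((GR R ζ : ℝ) : ℂ) * f ζ * (((n : ℂ) + 1) * (z * conj ζ) ^ n)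
  have hb : ∀ n, ∀ ζ ∈ Metric.ball (0 : ℂ) 1, ‖Fn n ζ‖ ≤ B * C * (((n : ℝ) + 1) * ‖z‖ ^ n) := by
    intro n ζ hζ
    rw [mem_ball_zero_iff] at hζ
    simp only [Fn]
    rw [norm_mul, norm_mul, norm_mul, norm_pow, norm_mul, RCLike.norm_conj, Complex.norm_real]
    have h1 := hC ζ
    have h2 : ‖GR R ζ‖ ≤ B := hB ζ
    have h3 : ‖(n : ℂ) + 1‖ = (n : ℝ) + 1 := by
      have : (n : ℂ) + 1 = (((n : ℝ) + 1 : ℝ) : ℂ) := by push_cast; ring
      rw [this, Complex.norm_real, Real.norm_of_nonneg (by positivity)]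
    rw [h3]
    have h4 : ‖z‖ * ‖ζ‖ ≤ ‖z‖ := mul_le_of_le_one_right (norm_nonneg _) hζ.le
    gcongr
  have hint : ∀ n, Integrable (Fn n) dA := by
    intro n
    apply intB _ (by fun_prop) _ (hb n)
  have hsum : Summable (fun n => ∫ ζ, ‖Fn n ζ‖ ∂dA) := by
    refine Summable.of_nonneg_of_le (fun n => integral_nonneg (fun _ => norm_nonneg _)) (fun n => ?_)
      ((real_summable ‖z‖ (norm_nonneg _) hz).mul_left (B * C))
    have h1 : ∫ ζ, ‖Fn n ζ‖ ∂dA ≤ ∫ _ζ, B * C * (((n : ℝ) + 1) * ‖z‖ ^ n) ∂dA := by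
      apply integral_mono_ae (hint n).norm (integrable_const _)
      filter_upwards [dA_ae] with ζ hζ
      exact hb n ζ hζ
    rwa [integral_const, dA_mass, one_smul] at h1
  have key := hasSum_integral_of_summable_integral_norm hint hsum
  have e1 : (∫ ζ, ∑' n, Fn n ζ ∂dA) = PB (fun ζ => ((sg ζ : ℝ) : ℂ) * f ζ) z := by
    unfold PB
    apply integral_congr_ae
    filter_upwards [dA_ae] with ζ hζ
    rw [mem_ball_zero_iff] at hζ
    rw [sg_eq R f hsupp ζ]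
    have h1 : ‖z * conj ζ‖ < 1 := by
      rw [norm_mul, RCLike.norm_conj]
      exact lt_of_le_of_lt (mul_le_of_le_one_right (norm_nonneg _) hζ.le) hz
    have h2 := ((one_series (z * conj ζ) h1).mul_left (((GR R ζ : ℝ) : ℂ) * f ζ)).tsum_eq
    rw [show (∑' n, Fn n ζ) = ∑' n : ℕ, ((GR R ζ : ℝ) : ℂ) * f ζ * (((n : ℂ) + 1) * (z * conj ζ) ^ n) from rfl, h2]
    ring
  rw [e1] at key
  have e2 : (fun n : ℕ => (((n : ℂ) + 1) * co R f n) * z ^ n) = fun n => ∫ ζ, Fn n ζ ∂dA := by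
    funext n
    show _ = ∫ ζ, ((GR R ζ : ℝ) : ℂ) * f ζ * (((n : ℂ) + 1) * (z * conj ζ) ^ n) ∂dA
    rw [co, ← integral_const_mul, ← integral_mul_const]
    apply integral_congr_ae
    refine Eventually.of_forall (fun ζ => ?_)
    simp only
    rw [mul_pow]; ring
  rw [e2]
  exact key

theorem w_pow (n : ℕ) : ∫ z, w z * (‖z‖ ^ 2) ^ n ∂dA = 1 / (((n : ℝ) + 1) * ((n : ℝ) + 2)) := by
  have h1 := radial_integral (fun u => (1 - u) * u ^ n) (by fun_prop)
  unfold w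
  rw [h1, ← intervalIntegral.integral_of_le (by norm_num)]
  have h2 : (fun u : ℝ => (1 - u) * u ^ n) = fun u => u ^ n - u ^ (n + 1) := by funext u; ring
  rw [h2]
  rw [intervalIntegral.integral_sub (by simp) (by simp), integral_pow, integral_pow]
  simp
  field_simp
  ring

include hR0 hR hf hC in
theorem SN_bound (N : ℕ) :
    ∫⁻ z, ‖∑ n ∈ Finset.range N, (((n : ℂ) + 1) * co R f n) * z ^ n‖ₑ ^ 2 * ENNReal.ofReal (w z) ∂dA ≤
      ENNReal.ofReal (∫ z, GR R z * ‖f z‖ ^ 2 ∂dA) := by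
  set a : ℕ → ℂ := fun n => ((n : ℂ) + 1) * co R f n with ha
  set h : ℂ → ℂ := fun z => ∑ n ∈ Finset.range N, a n * z ^ n with hh
  have hwm : Measurable w := by unfold w; fun_prop
  have hhm : Measurable h := by fun_prop
  have hhb : ∃ D, ∀ z ∈ Metric.ball (0 : ℂ) 1, ‖h z‖ ≤ D := by
    refine ⟨∑ n ∈ Finset.range N, ‖a n‖, fun z hz => ?_⟩
    rw [mem_ball_zero_iff] at hz
    refine (norm_sum_le _ _).trans (Finset.sum_le_sum (fun n _ => ?_))
    rw [norm_mul, norm_pow]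
    calc ‖a n‖ * ‖z‖ ^ n ≤ ‖a n‖ * 1 := by
          gcongr
          exact pow_le_one₀ (norm_nonneg _) hz.le
      _ = ‖a n‖ := mul_one _
  obtain ⟨D, hD⟩ := hhb
  have hwb : ∀ z ∈ Metric.ball (0 : ℂ) 1, |w z| ≤ 1 := by
    intro z hz
    rw [mem_ball_zero_iff] at hz
    unfold w
    rw [abs_le]
    constructor <;> nlinarith [norm_nonneg z, sq_nonneg ‖z‖]
  have hw0 : ∀ᵐ z ∂dA, 0 ≤ w z := by
    filter_upwards [dA_ae] with z hz
    rw [mem_ball_zero_iff] at hz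
    unfold w
    nlinarith [norm_nonneg z]
  have e1 : ∫⁻ z, ‖h z‖ₑ ^ 2 * ENNReal.ofReal (w z) ∂dA = ENNReal.ofReal (∫ z, w z * ‖h z‖ ^ 2 ∂dA) := by
    rw [ofReal_integral_eq_lintegral_ofReal]
    · apply lintegral_congr_ae
      filter_upwards [hw0] with z hz
      rw [ENNReal.ofReal_mul hz, mul_comm, ENNReal.ofReal_pow (norm_nonneg _), ofReal_norm]
    · refine Integrable.of_bound (by fun_prop) (1 * D ^ 2) ?_
      filter_upwards [dA_ae] with z hz
      rw [norm_mul, norm_pow, norm_norm]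
      have h2 : ‖w z‖ ≤ 1 := hwb z hz
      have h3 := hD z hz
      gcongr
    · filter_upwards [hw0] with z hz
      positivity
  have e2 : ∫ z, w z * ‖h z‖ ^ 2 ∂dA = ∑ n ∈ Finset.range N, ‖a n‖ ^ 2 * (1 / (((n : ℝ) + 1) * ((n : ℝ) + 2))) := by
    have e5 := energy w hwm (fun c z hc => by unfold w; rw [norm_mul, hc, one_mul]) 1 hwb a N
    have e6 : ∫ z, ((w z : ℝ) : ℂ) * ((∑ n ∈ Finset.range N, a n * z ^ n) * conj (∑ n ∈ Finset.range N, a n * z ^ n)) ∂dA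
        = ((∫ z, w z * ‖h z‖ ^ 2 ∂dA : ℝ) : ℂ) := by
      rw [← integral_complex_ofReal]
      apply integral_congr_ae
      refine Eventually.of_forall (fun z => ?_)
      simp only
      rw [Complex.mul_conj, Complex.normSq_eq_norm_sq]
      push_cast
      rfl
    rw [e6] at e5
    have e7 := Complex.ofReal_injective e5
    rw [e7]
    simp_rw [w_pow]
  show ∫⁻ z, ‖h z‖ₑ ^ 2 * ENNReal.ofReal (w z) ∂dA ≤ _
  rw [e1]
  apply ENNReal.ofReal_le_ofReal
  rw [e2]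
  refine le_trans ?_ (bessel R hR0 hR f hf C hC N)
  apply Finset.sum_le_sum
  intro n _
  have h3 : ‖a n‖ = ((n : ℝ) + 1) * ‖co R f n‖ := by
    rw [ha]
    simp only
    rw [norm_mul]
    congr 1
    have : (n : ℂ) + 1 = (((n : ℝ) + 1 : ℝ) : ℂ) := by push_cast; ring
    rw [this, Complex.norm_real, Real.norm_of_nonneg (by positivity)]
  rw [h3, mul_pow]
  have hn : (0 : ℝ) ≤ n := Nat.cast_nonneg n
  have h4 : ((n : ℝ) + 1) ^ 2 * (1 / (((n : ℝ) + 1) * ((n : ℝ) + 2))) ≤ 1 := by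
    rw [mul_one_div, div_le_one (by positivity)]
    nlinarith
  calc ((n : ℝ) + 1) ^ 2 * ‖co R f n‖ ^ 2 * (1 / (((n : ℝ) + 1) * ((n : ℝ) + 2)))
      = ‖co R f n‖ ^ 2 * (((n : ℝ) + 1) ^ 2 * (1 / (((n : ℝ) + 1) * ((n : ℝ) + 2)))) := by ring
    _ ≤ ‖co R f n‖ ^ 2 * 1 := by gcongr
    _ = _ := mul_one _

include hR0 hR hf hC hsupp in
theorem PB_bound :
    ∫⁻ z, ‖PB (fun ζ => ((sg ζ : ℝ) : ℂ) * f ζ) z‖ₑ ^ 2 * ENNReal.ofReal (w z) ∂dA ≤
      ∫⁻ z, ‖f z‖ₑ ^ 2 * ENNReal.ofReal (sg z) ∂dA := by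
  have hwm : Measurable w := by unfold w; fun_prop
  have hGm := GR_meas R
  obtain ⟨B, hB⟩ := GR_bdd R hR0 hR
  have hrhs : ENNReal.ofReal (∫ z, GR R z * ‖f z‖ ^ 2 ∂dA) = ∫⁻ z, ‖f z‖ₑ ^ 2 * ENNReal.ofReal (sg z) ∂dA := by
    rw [ofReal_integral_eq_lintegral_ofReal]
    · apply lintegral_congr_ae
      filter_upwards with z
      rw [ENNReal.ofReal_mul (GR_nonneg R hR0 hR z), mul_comm, ENNReal.ofReal_pow (norm_nonneg _), ofReal_norm]
      by_cases h : f z = 0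
      · rw [h]; simp
      · congr 2
        unfold sg GR g
        rw [Set.indicator_of_mem]
        rw [Set.mem_Iic]
        have := hsupp z h
        gcongr
    · refine Integrable.of_bound (by fun_prop) (B * C ^ 2) (Eventually.of_forall (fun z => ?_))
      rw [norm_mul, norm_pow, norm_norm]
      have := hC z
      have h2 : ‖GR R z‖ ≤ B := hB z
      have hB0 : 0 ≤ B := (norm_nonneg _).trans h2
      gcongr
    · refine Eventually.of_forall (fun z => ?_)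
      exact mul_nonneg (GR_nonneg R hR0 hR z) (by positivity)
  rw [← hrhs]
  set u : ℕ → ℂ → ℝ≥0∞ := fun N z =>
    ‖∑ n ∈ Finset.range N, (((n : ℂ) + 1) * co R f n) * z ^ n‖ₑ ^ 2 * ENNReal.ofReal (w z) with hu
  have h1 : ∀ᵐ z ∂dA, ‖PB (fun ζ => ((sg ζ : ℝ) : ℂ) * f ζ) z‖ₑ ^ 2 * ENNReal.ofReal (w z) =
      liminf (fun N => u N z) atTop := by
    filter_upwards [dA_ae] with z hz
    rw [mem_ball_zero_iff] at hz
    have h2 := (PB_series R hR0 hR f hf C hC hsupp z hz).tendsto_sum_nat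
    have h3 : Tendsto (fun N => u N z) atTop
        (𝓝 (‖PB (fun ζ => ((sg ζ : ℝ) : ℂ) * f ζ) z‖ₑ ^ 2 * ENNReal.ofReal (w z))) := by
      apply ENNReal.Tendsto.mul_const
      · exact (ENNReal.continuous_pow 2).continuousAt.tendsto.comp h2.enorm
      · right; exact ENNReal.ofReal_ne_top
    exact h3.liminf_eq.symm
  rw [lintegral_congr_ae h1]
  refine (lintegral_liminf_le (fun N => ?_)).trans ?_
  · simp only [hu]; fun_prop
  · refine (liminf_le_liminf (v := fun _ => ENNReal.ofReal (∫ z, GR R z * ‖f z‖ ^ 2 ∂dA)) ?_).trans ?_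
    · exact Eventually.of_forall (fun N => SN_bound R hR0 hR f hf C hC N)
    · simp

end Pool.Agent.H26.BG
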