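import Mathlib
import Pool.Agent.H26.BG3

set_option autoImplicit false
set_option linter.style.haveILetI false

open MeasureTheory Filter Topology
open scoped ComplexConjugate ENNReal NNReal

namespace Pool.Agent.H26.BG

theorem one_sub_ne (x : ℂ) (hx : ‖x‖ < 1) : 1 - x ≠ 0 := by
  intro h
  have : x = 1 := by linear_combination -h
  rw [this] at hx; simp at hx

theorem kernel_id (x : ℂ) (hx : ‖x‖ < 1) :
    1 / ‖1 - x‖ ^ 2 = (1 / (1 - ‖x‖ ^ 2)) * (1 + 2 * (x / (1 - x)).re) := by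
  have h1 := one_sub_ne x hx
  have h0 : 0 < ‖1 - x‖ ^ 2 := by positivity
  have h3 : ‖1 - x‖ ^ 2 = 1 - 2 * x.re + ‖x‖ ^ 2 := by
    rw [← Complex.normSq_eq_norm_sq, ← Complex.normSq_eq_norm_sq, Complex.normSq_sub]
    simp
    ring
  have h2 : (x / (1 - x)).re = (x.re - ‖x‖ ^ 2) / ‖1 - x‖ ^ 2 := by
    rw [Complex.div_re, Complex.normSq_eq_norm_sq, ← add_div]
    congr 1
    rw [← Complex.normSq_eq_norm_sq x, Complex.normSq_apply]
    simp
    ring
  have h4 : 0 < 1 - ‖x‖ ^ 2 := by nlinarith [norm_nonneg x]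
  rw [h2]
  rw [div_eq_iff h0.ne']
  field_simp
  rw [h3]
  ring

theorem zero_int (H : ℂ → ℝ) (hHm : Measurable H) (hH : ∀ c z : ℂ, ‖c‖ = 1 → H (c * z) = H z) (B : ℝ)
    (hB : ∀ z ∈ Metric.ball (0 : ℂ) 1, |H z| ≤ B) (z : ℂ) (hz : ‖z‖ < 1) :
    ∫ ζ, ((H ζ : ℝ) : ℂ) * ((z * conj ζ) / (1 - z * conj ζ)) ∂dA = 0 := by
  have hB0 : 0 ≤ B := (abs_nonneg _).trans (hB 0 (by simp))
  let Fn : ℕ → ℂ → ℂ := fun n ζ => ((H ζ : ℝ) : ℂ) * (z * conj ζ) ^ (n + 1)
  have hb : ∀ n, ∀ ζ ∈ Metric.ball (0 : ℂ) 1, ‖Fn n ζ‖ ≤ B * ‖z‖ ^ (n + 1) := by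
    intro n ζ hζ
    have h2 : ‖H ζ‖ ≤ B := hB ζ hζ
    rw [mem_ball_zero_iff] at hζ
    simp only [Fn]
    rw [norm_mul, norm_pow, norm_mul, RCLike.norm_conj, Complex.norm_real]
    have h4 : ‖z‖ * ‖ζ‖ ≤ ‖z‖ := mul_le_of_le_one_right (norm_nonneg _) hζ.le
    gcongr
  have hint : ∀ n, Integrable (Fn n) dA := by
    intro n
    apply intB _ (by fun_prop) _ (hb n)
  have hsum : Summable (fun n => ∫ ζ, ‖Fn n ζ‖ ∂dA) := by
    refine Summable.of_nonneg_of_le (fun n => integral_nonneg (fun _ => norm_nonneg _)) (fun n => ?_)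
      ((show Summable (fun n : ℕ => ‖z‖ ^ (n + 1)) from
        ((summable_geometric_of_lt_one (norm_nonneg z) hz).mul_left ‖z‖).congr
        (fun n => by rw [pow_succ]; ring)).mul_left B)
    have h1 : ∫ ζ, ‖Fn n ζ‖ ∂dA ≤ ∫ _ζ, B * ‖z‖ ^ (n + 1) ∂dA := by
      apply integral_mono_ae (hint n).norm (integrable_const _)
      filter_upwards [dA_ae] with ζ hζ
      exact hb n ζ hζ
    rwa [integral_const, dA_mass, one_smul] at h1
  have key := hasSum_integral_of_summable_integral_norm hint hsum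
  have e1 : (∫ ζ, ∑' n, Fn n ζ ∂dA) = ∫ ζ, ((H ζ : ℝ) : ℂ) * ((z * conj ζ) / (1 - z * conj ζ)) ∂dA := by
    apply integral_congr_ae
    filter_upwards [dA_ae] with ζ hζ
    rw [mem_ball_zero_iff] at hζ
    have h1 : ‖z * conj ζ‖ < 1 := by
      rw [norm_mul, RCLike.norm_conj]
      exact lt_of_le_of_lt (mul_le_of_le_one_right (norm_nonneg _) hζ.le) hz
    have h2 := ((hasSum_geometric_of_norm_lt_one h1).mul_left (((H ζ : ℝ) : ℂ) * (z * conj ζ))).tsum_eq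
    have h3 : (∑' n, Fn n ζ) = ∑' n : ℕ, ((H ζ : ℝ) : ℂ) * (z * conj ζ) * (z * conj ζ) ^ n := by
      apply tsum_congr
      intro n
      simp only [Fn]
      rw [pow_succ]; ring
    rw [h3, h2]
    rw [div_eq_mul_inv]; ring
  have e2 : ∀ n, ∫ ζ, Fn n ζ ∂dA = 0 := by
    intro n
    have := orth (fun ζ => ((H ζ : ℝ) : ℂ)) (fun c z hc => by rw [hH c z hc]) 0 (n + 1) (by omega)
    have h3 : (fun ζ => Fn n ζ) = fun ζ => z ^ (n + 1) * (((H ζ : ℝ) : ℂ) * (ζ ^ 0 * (conj ζ) ^ (n + 1))) := by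
      funext ζ
      simp only [Fn]
      rw [mul_pow, pow_zero, one_mul]; ring
    rw [h3, integral_const_mul, this, mul_zero]
  rw [e1] at key
  simp only [e2] at key
  exact key.unique hasSum_zero

variable (R : ℝ) (hR0 : 0 ≤ R) (hR : R < 1)

/-- test function -/
noncomputable def fR (R : ℝ) (z : ℂ) : ℂ := Set.indicator (Metric.closedBall (0 : ℂ) R) (fun _ => (1 : ℂ)) z

include hR0 in
theorem sg_fR (z : ℂ) : ((sg z : ℝ) : ℂ) * fR R z = ((GR R z : ℝ) : ℂ) := by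
  unfold fR
  by_cases h : ‖z‖ ≤ R
  · rw [Set.indicator_of_mem (by rwa [mem_closedBall_zero_iff]), mul_one]
    congr 1
    unfold sg GR g
    rw [Set.indicator_of_mem]
    rw [Set.mem_Iic]
    gcongr
  · rw [Set.indicator_of_notMem (by rwa [mem_closedBall_zero_iff]), mul_zero]
    unfold GR g
    rw [Set.indicator_of_notMem]
    · simp
    · rw [Set.mem_Iic]
      push Not at h ⊢
      gcongr

include hR0 hR in
theorem PBmax_eq (z : ℂ) (hz : ‖z‖ < 1) :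
    PBmax (fun ζ => ((sg ζ : ℝ) : ℂ) * fR R ζ) z =
      ((∫ ζ, GR R ζ / (1 - ‖z‖ ^ 2 * ‖ζ‖ ^ 2) ∂dA : ℝ) : ℂ) := by
  obtain ⟨B, hB⟩ := GR_bdd R hR0 hR
  have hB0 : 0 ≤ B := (abs_nonneg _).trans (hB 0)
  have hGm := GR_meas R
  have hz2 : 0 < 1 - ‖z‖ ^ 2 := by nlinarith [norm_nonneg z]
  set H : ℂ → ℝ := fun ζ => GR R ζ / (1 - ‖z‖ ^ 2 * ‖ζ‖ ^ 2) with hH
  have hHm : Measurable H := by fun_prop
  have hden : ∀ ζ ∈ Metric.ball (0 : ℂ) 1, 1 - ‖z‖ ^ 2 ≤ 1 - ‖z‖ ^ 2 * ‖ζ‖ ^ 2 := by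
    intro ζ hζ
    rw [mem_ball_zero_iff] at hζ
    have : ‖ζ‖ ^ 2 ≤ 1 := by nlinarith [norm_nonneg ζ]
    have : ‖z‖ ^ 2 * ‖ζ‖ ^ 2 ≤ ‖z‖ ^ 2 := mul_le_of_le_one_right (by positivity) this
    linarith
  have hHb : ∀ ζ ∈ Metric.ball (0 : ℂ) 1, |H ζ| ≤ B / (1 - ‖z‖ ^ 2) := by
    intro ζ hζ
    have h1 := hden ζ hζ
    simp only [hH]
    rw [abs_div, abs_of_pos (show 0 < 1 - ‖z‖ ^ 2 * ‖ζ‖ ^ 2 by linarith)]
    have := hB ζ
    gcongr
  have hHr : ∀ c ζ : ℂ, ‖c‖ = 1 → H (c * ζ) = H ζ := by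
    intro c ζ hc
    simp only [hH]
    rw [GR_rot R c ζ hc, norm_mul, hc, one_mul]
  have hzero := zero_int H hHm hHr _ hHb z hz
  have hzc : ∀ ζ ∈ Metric.ball (0 : ℂ) 1, ‖z * conj ζ‖ < 1 := by
    intro ζ hζ
    rw [mem_ball_zero_iff] at hζ
    rw [norm_mul, RCLike.norm_conj]
    exact lt_of_le_of_lt (mul_le_of_le_one_right (norm_nonneg _) hζ.le) hz
  have e1 : PBmax (fun ζ => ((sg ζ : ℝ) : ℂ) * fR R ζ) z =
      ∫ ζ, ((H ζ * (1 + 2 * ((z * conj ζ) / (1 - z * conj ζ)).re) : ℝ) : ℂ) ∂dA := by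
    unfold PBmax
    apply integral_congr_ae
    filter_upwards [dA_ae] with ζ hζ
    rw [sg_fR R hR0, ← Complex.ofReal_div]
    congr 1
    have h5 := kernel_id (z * conj ζ) (hzc ζ hζ)
    rw [div_eq_mul_one_div, h5, norm_mul, RCLike.norm_conj, mul_pow]
    simp only [hH]
    ring
  have hi1 : Integrable H dA := by
    refine Integrable.of_bound hHm.aestronglyMeasurable (B / (1 - ‖z‖ ^ 2)) ?_
    filter_upwards [dA_ae] with ζ hζ
    exact hHb ζ hζ
  have hi2 : Integrable (fun ζ => ((H ζ : ℝ) : ℂ) * ((z * conj ζ) / (1 - z * conj ζ))) dA := by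
    apply intB _ (by fun_prop) (B / (1 - ‖z‖ ^ 2) * (1 / (1 - ‖z‖)))
    intro ζ hζ
    have h1 := hHb ζ hζ
    have h2 := hzc ζ hζ
    rw [norm_mul, norm_div, Complex.norm_real]
    have h3 : 1 - ‖z‖ ≤ ‖1 - z * conj ζ‖ := by
      have := norm_sub_norm_le (1 : ℂ) (z * conj ζ)
      rw [norm_one] at this
      have h4 : ‖z * conj ζ‖ ≤ ‖z‖ := by
        rw [mem_ball_zero_iff] at hζ
        rw [norm_mul, RCLike.norm_conj]
        exact mul_le_of_le_one_right (norm_nonneg _) hζ.le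
      linarith
    have h5 : 0 < 1 - ‖z‖ := by linarith
    have h6 : ‖H ζ‖ ≤ B / (1 - ‖z‖ ^ 2) := h1
    gcongr
  have hi3 : Integrable (fun ζ => 2 * (((H ζ : ℝ) : ℂ) * ((z * conj ζ) / (1 - z * conj ζ))).re) dA :=
    hi2.re.const_mul 2
  rw [e1, integral_complex_ofReal]
  congr 1
  have e2 : (fun ζ => H ζ * (1 + 2 * ((z * conj ζ) / (1 - z * conj ζ)).re)) =
      fun ζ => H ζ + 2 * (((H ζ : ℝ) : ℂ) * ((z * conj ζ) / (1 - z * conj ζ))).re := by
    funext ζ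
    rw [Complex.re_ofReal_mul]; ring
  rw [e2, integral_add hi1 hi3, integral_const_mul]
  have e3 : ∫ ζ, (((H ζ : ℝ) : ℂ) * ((z * conj ζ) / (1 - z * conj ζ))).re ∂dA =
      (∫ ζ, ((H ζ : ℝ) : ℂ) * ((z * conj ζ) / (1 - z * conj ζ)) ∂dA).re := integral_re hi2
  rw [e3, hzero]
  simp

include hR0 hR in
theorem H_lower (u : ℝ) (hu0 : 0 ≤ u) (huR : u ≤ R ^ 2) :
    (F u - F (R ^ 2)) / (1 - u ^ 2) ≤ ∫ v in Set.Ioc (0 : ℝ) 1, g R v / (1 - u * v) := by
  have hR2 := R2 R hR0 hR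
  obtain ⟨B, hB⟩ := g_bdd R hR0 hR
  have hB0 : 0 ≤ B := (abs_nonneg _).trans (hB 0 le_rfl)
  have hgm := g_meas R
  have hu1 : u < 1 := by linarith
  have hint : IntegrableOn (fun v => g R v / (1 - u * v)) (Set.Ioc (0 : ℝ) 1) := by
    have hm : Measurable (fun v => g R v / (1 - u * v)) := by fun_prop
    refine Integrable.of_bound hm.aestronglyMeasurable (B / (1 - u)) ?_
    filter_upwards [ae_restrict_mem measurableSet_Ioc] with v hv
    rw [norm_div]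
    have h1 : ‖g R v‖ ≤ B := hB v hv.1.le
    have h2 : 1 - u ≤ 1 - u * v := by nlinarith [hv.2]
    have h3 : 0 < 1 - u := by linarith
    rw [Real.norm_of_nonneg (show 0 ≤ 1 - u * v by linarith)]
    gcongr
  have h1 : ∫ v in Set.Ioc u (R ^ 2), g R v / (1 - u * v) ≤ ∫ v in Set.Ioc (0 : ℝ) 1, g R v / (1 - u * v) := by
    apply setIntegral_mono_set hint
    · filter_upwards [ae_restrict_mem measurableSet_Ioc] with v hv
      apply div_nonneg (g_nonneg R hR0 hR v hv.1.le)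
      nlinarith [hv.2]
    · apply Eventually.of_forall
      intro v hv
      exact ⟨lt_of_le_of_lt hu0 hv.1, hv.2.trans hR2.le⟩
  refine le_trans ?_ h1
  have h2 : ∫ v in Set.Ioc u (R ^ 2), S v / (1 - u ^ 2) = (F u - F (R ^ 2)) / (1 - u ^ 2) := by
    rw [← intervalIntegral.integral_of_le huR, intervalIntegral.integral_div, S_int u (R ^ 2) hu0 huR hR2]
  rw [← h2]
  apply setIntegral_mono_on
  · have : IntegrableOn S (Set.Icc u (R ^ 2)) := by
      apply ContinuousOn.integrableOn_Icc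
      exact (S_cont _ hR2).mono (Set.Icc_subset_Icc_left hu0)
    exact (this.mono_set Set.Ioc_subset_Icc_self).div_const _
  · exact hint.mono_set (fun v hv => ⟨lt_of_le_of_lt hu0 hv.1, hv.2.trans hR2.le⟩)
  · exact measurableSet_Ioc
  · intro v hv
    have e : g R v = S v := by
      unfold g; rw [Set.indicator_of_mem]; exact hv.2
    rw [e]
    have hv0 : 0 ≤ v := hu0.trans hv.1.le
    have h5 := (S_pos v hv0 (lt_of_le_of_lt hv.2 hR2)).le
    have h6 : 0 < 1 - u * v := by nlinarith [hv.2]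
    have h7 : 1 - u * v ≤ 1 - u ^ 2 := by nlinarith [hv.1]
    gcongr

theorem L_mono (a b : ℝ) (hab : a ≤ b) (hb : b < 1) : L a ≤ L b := by
  unfold L
  have := Real.log_le_log (show 0 < 1 - b by linarith) (show 1 - b ≤ 1 - a by linarith)
  linarith

theorem L_cont (b : ℝ) (hb : b < 1) : ContinuousOn L (Set.Icc 0 b) := by
  intro u hu
  exact (L_deriv u (lt_of_le_of_lt hu.2 hb)).continuousAt.continuousWithinAt

/-- `∫_0^U 1/(L(u)(1-u)) du = log L(U)` -/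
theorem log_int (U : ℝ) (hU0 : 0 ≤ U) (hU : U < 1) :
    ∫ u in (0 : ℝ)..U, (1 - u)⁻¹ / L u = Real.log (L U) := by
  have h1 : ∀ u ∈ Set.uIcc 0 U, HasDerivAt (fun u => Real.log (L u)) ((1 - u)⁻¹ / L u) u := by
    intro u hu
    rw [Set.uIcc_of_le hU0] at hu
    have h1 : u < 1 := lt_of_le_of_lt hu.2 hU
    have h2 := L_ge u hu.1 h1
    exact (L_deriv u h1).log (by linarith)
  have h2 : IntervalIntegrable (fun u => (1 - u)⁻¹ / L u) volume 0 U := by
    apply ContinuousOn.intervalIntegrable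
    rw [Set.uIcc_of_le hU0]
    apply ContinuousOn.div
    · apply ContinuousOn.inv₀ (by fun_prop)
      intro u hu
      have h1 : u < 1 := lt_of_le_of_lt hu.2 hU
      linarith
    · exact L_cont U hU
    · intro u hu
      have := L_ge u hu.1 (lt_of_le_of_lt hu.2 hU)
      linarith
  rw [intervalIntegral.integral_eq_sub_of_hasDerivAt h1 h2]
  have : L 0 = 1 := by simp [L]
  rw [this, Real.log_one, sub_zero]

include hR0 hR in
/-- pointwise lower bound -/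
theorem point_lower (U : ℝ) (hU0 : 0 ≤ U) (hUR : U ≤ R ^ 2) (hL : L (R ^ 2) = 4 * L U) (z : ℂ) (hz : ‖z‖ ^ 2 ≤ U) :
    ENNReal.ofReal ((1 - ‖z‖ ^ 2)⁻¹ / L (‖z‖ ^ 2) / 16) ≤
      ‖PBmax (fun ζ => ((sg ζ : ℝ) : ℂ) * fR R ζ) z‖ₑ ^ 2 * ENNReal.ofReal (w z) := by
  have hR2 := R2 R hR0 hR
  have hU1 : U < 1 := by linarith
  set u := ‖z‖ ^ 2 with hu
  have hu0 : 0 ≤ u := by positivity
  have hu1 : u < 1 := by linarith
  have hz1 : ‖z‖ < 1 := by
    by_contra hcon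
    push Not at hcon
    nlinarith
  rw [PBmax_eq R hR0 hR z hz1]
  have e1 : ∫ ζ, GR R ζ / (1 - ‖z‖ ^ 2 * ‖ζ‖ ^ 2) ∂dA = ∫ v in Set.Ioc (0 : ℝ) 1, g R v / (1 - u * v) := by
    have hgm := g_meas R
    exact radial_integral (fun v => g R v / (1 - u * v)) (by fun_prop)
  have h1 := H_lower R hR0 hR u hu0 (hz.trans hUR)
  rw [← e1] at h1
  set I := ∫ ζ, GR R ζ / (1 - ‖z‖ ^ 2 * ‖ζ‖ ^ 2) ∂dA with hI
  have hLU := L_ge U hU0 hU1
  have hLu := L_ge u hu0 hu1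
  have hLuU := L_mono u U hz hU1
  have h2 : F (R ^ 2) ≤ F u / 2 := by
    unfold F
    rw [hL]
    rw [show (4 : ℝ) * L U = 2 ^ 2 * L U by norm_num, Real.sqrt_mul (by norm_num), Real.sqrt_sq (by norm_num), mul_inv]
    have : (√(L U))⁻¹ ≤ (√(L u))⁻¹ := by
      have : 0 < √(L u) := Real.sqrt_pos.mpr (by linarith)
      gcongr
    linarith
  have h3 : F u / (4 * (1 - u)) ≤ I := by
    refine le_trans ?_ h1
    have h4 : 0 < 1 - u := by linarith
    have h5 : 0 < F u := F_pos u hu0 hu1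
    have h6 : 1 - u ^ 2 ≤ 2 * (1 - u) := by nlinarith
    have h7 : 0 < 1 - u ^ 2 := by nlinarith
    calc F u / (4 * (1 - u)) = (F u / 2) / (2 * (1 - u)) := by field_simp; norm_num
      _ ≤ (F u / 2) / (1 - u ^ 2) := by gcongr
      _ ≤ (F u - F (R ^ 2)) / (1 - u ^ 2) := by
          gcongr
          linarith
  have h4 : 0 < 1 - u := by linarith
  have h5 : 0 < F u := F_pos u hu0 hu1
  have h6 : 0 ≤ F u / (4 * (1 - u)) := by positivity
  have hI0 : 0 ≤ I := h6.trans h3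
  have e2 : ‖((I : ℝ) : ℂ)‖ₑ ^ 2 * ENNReal.ofReal (w z) = ENNReal.ofReal (I ^ 2 * (1 - u)) := by
    rw [← ofReal_norm, Complex.norm_real, Real.norm_of_nonneg hI0, ← ENNReal.ofReal_pow hI0,
      ← ENNReal.ofReal_mul (by positivity)]
    rfl
  rw [e2]
  apply ENNReal.ofReal_le_ofReal
  have e3 : F u ^ 2 = (L u)⁻¹ := by
    unfold F
    rw [inv_pow, Real.sq_sqrt (by linarith)]
  calc (1 - u)⁻¹ / L u / 16 = (F u / (4 * (1 - u))) ^ 2 * (1 - u) := by
        rw [div_pow, e3]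
        field_simp
        norm_num
    _ ≤ I ^ 2 * (1 - u) := by gcongr

include hR0 hR in
theorem total_lower (U : ℝ) (hU0 : 0 ≤ U) (hUR : U ≤ R ^ 2) (hL : L (R ^ 2) = 4 * L U) :
    ENNReal.ofReal (Real.log (L U) / 16) ≤
      ∫⁻ z, ‖PBmax (fun ζ => ((sg ζ : ℝ) : ℂ) * fR R ζ) z‖ₑ ^ 2 * ENNReal.ofReal (w z) ∂dA := by
  have hR2 := R2 R hR0 hR
  have hU1 : U < 1 := by linarith
  have hLm : Measurable L := by unfold L; fun_prop
  set q : ℝ → ℝ≥0∞ := fun u => Set.indicator (Set.Iic U) (fun u => ENNReal.ofReal ((1 - u)⁻¹ / L u / 16)) u with hq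
  have hqm : Measurable q := by
    apply Measurable.indicator _ measurableSet_Iic
    fun_prop
  have h1 : ∫⁻ z, q (‖z‖ ^ 2) ∂dA ≤
      ∫⁻ z, ‖PBmax (fun ζ => ((sg ζ : ℝ) : ℂ) * fR R ζ) z‖ₑ ^ 2 * ENNReal.ofReal (w z) ∂dA := by
    apply lintegral_mono
    intro z
    simp only [hq]
    rw [Set.indicator_apply]
    split_ifs with h
    · exact point_lower R hR0 hR U hU0 hUR hL z h
    · exact zero_le
  refine le_trans ?_ h1
  rw [radial_lintegral q hqm]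
  have h2 : ∫⁻ u in Set.Ioc (0 : ℝ) 1, q u = ∫⁻ u in Set.Ioc (0 : ℝ) U, ENNReal.ofReal ((1 - u)⁻¹ / L u / 16) := by
    simp only [hq]
    rw [lintegral_indicator measurableSet_Iic, Measure.restrict_restrict measurableSet_Iic]
    congr 2
    ext x; simp only [Set.mem_inter_iff, Set.mem_Ioc, Set.mem_Iic]
    constructor
    · rintro ⟨h1, h2, -⟩; exact ⟨h2, h1⟩
    · rintro ⟨h1, h3⟩; exact ⟨h3, h1, by linarith⟩
  rw [h2]
  have hc : ContinuousOn (fun u : ℝ => (1 - u)⁻¹ / L u / 16) (Set.Icc 0 U) := by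
    apply ContinuousOn.div_const
    apply ContinuousOn.div
    · apply ContinuousOn.inv₀ (by fun_prop)
      intro u hu
      have h1 : u < 1 := lt_of_le_of_lt hu.2 hU1
      linarith
    · exact L_cont U hU1
    · intro u hu
      have := L_ge u hu.1 (lt_of_le_of_lt hu.2 hU1)
      linarith
  rw [← ofReal_integral_eq_lintegral_ofReal]
  · apply ENNReal.ofReal_le_ofReal
    rw [← intervalIntegral.integral_of_le hU0, intervalIntegral.integral_div, log_int U hU0 hU1]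
  · exact (hc.integrableOn_Icc).mono_set Set.Ioc_subset_Icc_self
  · filter_upwards [ae_restrict_mem measurableSet_Ioc] with u hu
    have h3 : u < 1 := lt_of_le_of_lt hu.2 hU1
    have h4 := L_ge u hu.1.le h3
    have h5 : 0 < 1 - u := by linarith
    show 0 ≤ (1 - u)⁻¹ / L u / 16
    positivity

include hR0 hR in
theorem mass_upper : ∫⁻ z, ‖fR R z‖ₑ ^ 2 * ENNReal.ofReal (sg z) ∂dA ≤ 1 := by
  have e1 : (fun z => ‖fR R z‖ₑ ^ 2 * ENNReal.ofReal (sg z)) = fun z => ENNReal.ofReal (GR R z) := by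
    funext z
    unfold fR
    by_cases h : ‖z‖ ≤ R
    · rw [Set.indicator_of_mem (by rwa [mem_closedBall_zero_iff])]
      simp only [enorm_one, one_pow, one_mul]
      congr 1
      unfold sg GR g
      rw [Set.indicator_of_mem]
      rw [Set.mem_Iic]
      gcongr
    · rw [Set.indicator_of_notMem (by rwa [mem_closedBall_zero_iff])]
      unfold GR g
      rw [Set.indicator_of_notMem]
      · simp
      · rw [Set.mem_Iic]
        push Not at h ⊢
        gcongr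
  rw [e1, ← ofReal_integral_eq_lintegral_ofReal (GR_int R hR0 hR) (Eventually.of_forall (fun z => GR_nonneg R hR0 hR z))]
  have := GR_mass R hR0 hR
  calc ENNReal.ofReal (∫ z, GR R z ∂dA) ≤ ENNReal.ofReal 1 := ENNReal.ofReal_le_ofReal this
    _ = 1 := ENNReal.ofReal_one

/-- for every constant there is a radius at which the maximal projection bound fails -/
theorem fails (C : ℝ≥0) : ∃ R : ℝ, 0 ≤ R ∧ R < 1 ∧
    ¬ (∫⁻ z, ‖PBmax (fun ζ => ((sg ζ : ℝ) : ℂ) * fR R ζ) z‖ₑ ^ 2 * ENNReal.ofReal (w z) ∂dA ≤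
      (C : ℝ≥0∞) * ∫⁻ z, ‖fR R z‖ₑ ^ 2 * ENNReal.ofReal (sg z) ∂dA) := by
  set E : ℝ := Real.exp (16 * (C : ℝ) + 16) with hE
  have hC0 : (0 : ℝ) ≤ C := C.2
  have hE1 : 1 ≤ E := Real.one_le_exp (by positivity)
  set U : ℝ := 1 - Real.exp (1 - E) with hU
  set V : ℝ := 1 - Real.exp (1 - 4 * E) with hV
  have hU0 : 0 ≤ U := by
    have : Real.exp (1 - E) ≤ 1 := Real.exp_le_one_iff.mpr (by linarith)
    linarith
  have hUV : U ≤ V := by
    have : Real.exp (1 - 4 * E) ≤ Real.exp (1 - E) := Real.exp_le_exp.mpr (by linarith)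
    linarith
  have hV1 : V < 1 := by
    have := Real.exp_pos (1 - 4 * E)
    linarith
  have hV0 : 0 ≤ V := hU0.trans hUV
  have hLU : L U = E := by
    unfold L
    rw [hU, show 1 - (1 - Real.exp (1 - E)) = Real.exp (1 - E) by ring, Real.log_exp]
    ring
  have hLV : L V = 4 * E := by
    unfold L
    rw [hV, show 1 - (1 - Real.exp (1 - 4 * E)) = Real.exp (1 - 4 * E) by ring, Real.log_exp]
    ring
  have hR0 : 0 ≤ √V := Real.sqrt_nonneg _
  have hR2 : (√V) ^ 2 = V := Real.sq_sqrt hV0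
  have hR1 : √V < 1 := by
    rw [Real.sqrt_lt' one_pos]; linarith
  refine ⟨√V, hR0, hR1, ?_⟩
  intro hcon
  have h1 := total_lower (√V) hR0 hR1 U hU0 (by rw [hR2]; exact hUV) (by rw [hR2, hLV, hLU])
  have h2 := mass_upper (√V) hR0 hR1
  have h3 : ENNReal.ofReal (Real.log (L U) / 16) ≤ C := by
    refine h1.trans (hcon.trans ?_)
    calc (C : ℝ≥0∞) * ∫⁻ z, ‖fR (√V) z‖ₑ ^ 2 * ENNReal.ofReal (sg z) ∂dA ≤ C * 1 := by gcongr
      _ = C := mul_one _
  rw [hLU, hE, Real.log_exp] at h3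
  have h4 : ENNReal.ofReal ((16 * (C : ℝ) + 16) / 16) ≤ ENNReal.ofReal (C : ℝ) := by
    rw [ENNReal.ofReal_coe_nnreal]; exact h3
  rw [ENNReal.ofReal_le_ofReal_iff hC0] at h4
  linarith

end Pool.Agent.H26.BG
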