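import Mathlib

set_option autoImplicit false
set_option linter.style.haveILetI false

namespace Pool.Agent.H26.FG

open FreeGroup

/-- letters -/
abbrev Lt (r : ℕ) : Type := Fin r × Bool

/-- inverse letter -/
def li {r : ℕ} (c : Lt r) : Lt r := (c.1, !c.2)

variable {r : ℕ}

theorem li_li (c : Lt r) : li (li c) = c := by simp [li]

theorem li_inj {c d : Lt r} (h : li c = li d) : c = d := by rw [← li_li c, h, li_li]

theorem mk_li (c : Lt r) : mk [li c] = (mk [c])⁻¹ := by
  rw [inv_mk]; rfl

theorem red_pair (c d : Lt r) : (c.1 = d.1 → c.2 = d.2) ↔ d ≠ li c := by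
  obtain ⟨c1, c2⟩ := c
  obtain ⟨d1, d2⟩ := d
  simp only [li, ne_eq, Prod.mk.injEq, not_and]
  constructor
  · rintro h rfl h2
    have := h rfl
    subst this
    revert h2; cases c2 <;> decide
  · rintro h rfl
    have := h rfl
    revert this; cases c2 <;> cases d2 <;> decide

/-- Lemma A -/
theorem lemA (u : List (Lt r)) (c : Lt r) (hu : IsReduced (u ++ [c])) (y : FreeGroup (Fin r))
    (hy : y.toWord.head? ≠ some (li c)) :
    (mk (u ++ [c]) * y).toWord = (u ++ [c]) ++ y.toWord := by
  conv_lhs => rw [← mk_toWord (x := y)]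
  rw [mul_mk, toWord_mk]
  apply IsReduced.reduce_eq
  have hy2 := isReduced_toWord (x := y)
  cases hw : y.toWord with
  | nil => rw [List.append_nil]; exact hu
  | cons d t =>
    rw [hw] at hy hy2
    apply IsReduced.append_overlap hu _ (by simp)
    rw [List.singleton_append, isReduced_cons_cons]
    refine ⟨(red_pair c d).mpr ?_, hy2⟩
    simpa using hy

/-- Lemma B -/
theorem lemB (q : List (Lt r)) (d : Lt r) (hQ : IsReduced (q ++ [d])) (z : FreeGroup (Fin r))
    (hz : ¬ (q ++ [d]) <+: z.toWord) : ((mk q)⁻¹ * z).toWord.head? ≠ some d := by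
  intro h
  apply hz
  obtain ⟨t, ht⟩ : ∃ t, ((mk q)⁻¹ * z).toWord = d :: t := by
    cases hw : ((mk q)⁻¹ * z).toWord with
    | nil => rw [hw] at h; simp at h
    | cons e t => rw [hw] at h; simp at h; exact ⟨t, by rw [h]⟩
  have h1 : z = mk (q ++ [d] ++ t) := by
    have h2 : (mk q)⁻¹ * z = mk (d :: t) := by rw [← ht, mk_toWord]
    have h3 : z = mk q * mk (d :: t) := by rw [← h2, mul_inv_cancel_left]
    rw [h3, mul_mk]; simp
  have h4 : IsReduced (q ++ [d] ++ t) := by
    apply IsReduced.append_overlap hQ _ (by simp)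
    have := isReduced_toWord (x := (mk q)⁻¹ * z)
    rw [ht] at this
    exact this
  rw [h1, toWord_mk, h4.reduce_eq]
  exact ⟨t, rfl⟩

theorem schottky {ι : Type} [Nontrivial ι] (p q : ι → List (Lt r)) (s : ι → Lt r)
    (hP : ∀ i, IsReduced (p i ++ [s i])) (hQ : ∀ i, IsReduced (q i ++ [li (s i)]))
    (hPP : ∀ i j z, (p i ++ [s i]) <+: z → (p j ++ [s j]) <+: z → i = j)
    (hQQ : ∀ i j z, (q i ++ [li (s i)]) <+: z → (q j ++ [li (s j)]) <+: z → i = j)
    (hPQ : ∀ i j z, (p i ++ [s i]) <+: z → ¬ (q j ++ [li (s j)]) <+: z) :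
    Function.Injective (FreeGroup.lift (fun i => mk (p i ++ [s i]) * (mk (q i))⁻¹)) := by
  apply FreeGroup.injective_lift_of_ping_pong (α := FreeGroup (Fin r)) _
    (fun i => {z | (p i ++ [s i]) <+: z.toWord}) (fun i => {z | (q i ++ [li (s i)]) <+: z.toWord})
  · intro i
    refine ⟨mk (p i ++ [s i]), ?_⟩
    show _ <+: _
    rw [toWord_mk, (hP i).reduce_eq]
  · intro i j hij
    rw [Function.onFun, Set.disjoint_left]
    intro z h1 h2
    exact hij (hPP i j _ h1 h2)
  · intro i j hij
    rw [Function.onFun, Set.disjoint_left]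
    intro z h1 h2
    exact hij (hQQ i j _ h1 h2)
  · intro i j
    rw [Set.disjoint_left]
    intro z h1 h2
    exact hPQ i j _ h1 h2
  · intro i
    rintro _ ⟨z, hz, rfl⟩
    have hz' : ¬ (q i ++ [li (s i)]) <+: z.toWord := hz
    show _ <+: (_ : List _)
    simp only [smul_eq_mul]
    rw [mul_assoc, lemA _ _ (hP i) _ (lemB _ _ (hQ i) z hz')]
    exact List.prefix_append _ _
  · intro i
    rintro _ ⟨z, hz, rfl⟩
    have hz' : ¬ (p i ++ [s i]) <+: z.toWord := hz
    show _ <+: (_ : List _)
    simp only [smul_eq_mul, Pi.inv_apply]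
    have e : (mk (p i ++ [s i]) * (mk (q i))⁻¹)⁻¹ * z = mk (q i ++ [li (s i)]) * ((mk (p i))⁻¹ * z) := by
      rw [← mul_mk, ← mul_mk, mk_li]; group
    rw [e, lemA _ _ (hQ i) _ (by rw [li_li]; exact lemB _ _ (hP i) z hz')]
    exact List.prefix_append _ _

theorem card_ne (c : Lt r) : Fintype.card {d : Lt r // d ≠ c} = 2 * r - 1 := by
  classical
  rw [Fintype.card_subtype_compl, Fintype.card_subtype_eq]
  simp [mul_comm]

/-- continuation letters -/
noncomputable def nx (c : Lt r) : Fin (2 * r - 1) ≃ {d : Lt r // d ≠ li c} :=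
  (Fintype.equivFinOfCardEq (card_ne (li c))).symm

/-- reversed words from codes -/
noncomputable def V : Lt r → List (Fin (2 * r - 1)) → List (Lt r)
  | c, [] => [c]
  | c, k :: f => c :: V (nx c k).1 f

theorem V_len (f : List (Fin (2 * r - 1))) : ∀ c : Lt r, (V c f).length = f.length + 1 := by
  induction f with
  | nil => intro c; rfl
  | cons k f ih => intro c; simp [V, ih]

theorem V_tail (f : List (Fin (2 * r - 1))) (c : Lt r) : V c f = c :: (V c f).tail := by
  cases f <;> rfl

theorem V_red (f : List (Fin (2 * r - 1))) : ∀ c : Lt r, IsReduced (V c f) := by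
  induction f with
  | nil => intro c; simp [V]
  | cons k f ih =>
    intro c
    have h := ih (nx c k).1
    rw [V, V_tail f, isReduced_cons_cons, ← V_tail f]
    exact ⟨(red_pair _ _).mpr (nx c k).2, h⟩

theorem V_inj (f : List (Fin (2 * r - 1))) : ∀ (f' : List (Fin (2 * r - 1))) (c c' : Lt r),
    V c f = V c' f' → c = c' ∧ f = f' := by
  induction f with
  | nil =>
    intro f' c c' h
    cases f' with
    | nil => simpa [V] using h
    | cons k f' =>
      have := congrArg List.length h
      rw [V_len, V_len] at this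
      simp at this
  | cons k f ih =>
    intro f' c c' h
    cases f' with
    | nil =>
      have := congrArg List.length h
      rw [V_len, V_len] at this
      simp at this
    | cons k' f' =>
      simp only [V, List.cons.injEq] at h
      obtain ⟨h1, h2⟩ := h
      subst h1
      obtain ⟨h3, h4⟩ := ih f' _ _ h2
      have h5 := (nx c).injective (Subtype.ext h3)
      exact ⟨rfl, by rw [h4, h5]⟩

theorem red_reverse (l : List (Lt r)) (h : IsReduced l) : IsReduced l.reverse := by
  unfold FreeGroup.IsReduced at *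
  rw [List.isChain_reverse]
  apply h.imp
  intro a b hab h1
  exact (hab h1.symm).symm

/-- the word -/
noncomputable def Wd (c : Lt r) (f : List (Fin (2 * r - 1))) : List (Lt r) := (V c f).reverse
/-- the word without its last letter -/
noncomputable def Wp (c : Lt r) (f : List (Fin (2 * r - 1))) : List (Lt r) := (V c f).tail.reverse

theorem Wd_eq (c : Lt r) (f : List (Fin (2 * r - 1))) : Wp c f ++ [c] = Wd c f := by
  unfold Wd Wp
  conv_rhs => rw [V_tail]
  rw [List.reverse_cons]

theorem Wd_red (c : Lt r) (f : List (Fin (2 * r - 1))) : IsReduced (Wd c f) := red_reverse _ (V_red f c)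

theorem Wd_len (c : Lt r) (f : List (Fin (2 * r - 1))) : (Wd c f).length = f.length + 1 := by
  unfold Wd; rw [List.length_reverse, V_len]

theorem Wp_len (c : Lt r) (f : List (Fin (2 * r - 1))) : (Wp c f).length = f.length := by
  unfold Wp; rw [List.length_reverse, List.length_tail, V_len]; simp

theorem Wd_inj {c c' : Lt r} {f f' : List (Fin (2 * r - 1))} (h : Wd c f = Wd c' f') : c = c' ∧ f = f' :=
  V_inj f f' c c' (List.reverse_injective h)

theorem pre_eq {u v z : List (Lt r)} (h1 : u <+: z) (h2 : v <+: z) (h : u.length = v.length) : u = v := by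
  have h3 := List.prefix_of_prefix_length_le h1 h2 h.le
  exact h3.eq_of_length h

/-- odd construction -/
theorem odd_low (hr : 2 ≤ r) (m : ℕ) :
    ∃ (ι : Type) (_ : Fintype ι) (a : ι → FreeGroup (Fin r)),
      Fintype.card ι = r * (2 * r - 1) ^ m ∧ (∀ i, (a i).norm ≤ 2 * m + 1) ∧
      Function.Injective (FreeGroup.lift a) := by
  let ι : Type := Fin r × List.Vector (Fin (2 * r - 1)) m
  haveI : Nontrivial ι := by
    haveI : NeZero r := ⟨by omega⟩
    haveI : Nontrivial (Fin r) := Fin.nontrivial_iff_two_le.mpr hr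
    haveI : Nonempty (List.Vector (Fin (2 * r - 1)) m) :=
      ⟨List.Vector.replicate m ⟨0, by omega⟩⟩
    infer_instance
  refine ⟨ι, inferInstance,
    fun i => mk (Wp (i.1, true) i.2.1 ++ [(i.1, true)]) * (mk (Wp (i.1, false) i.2.1))⁻¹, ?_, ?_, ?_⟩
  · simp [ι]
  · intro i
    refine (FreeGroup.norm_mul_le _ _).trans ?_
    rw [norm_inv_eq]
    have h1 := norm_mk_le (L₁ := Wp (i.1, true) i.2.1 ++ [(i.1, true)])
    have h2 := norm_mk_le (L₁ := Wp (i.1, false) i.2.1)
    rw [List.length_append, Wp_len, i.2.2, List.length_singleton] at h1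
    rw [Wp_len, i.2.2] at h2
    omega
  · have e : ∀ i : ι, Wp (i.1, false) i.2.1 ++ [li (i.1, true)] = Wd (i.1, false) i.2.1 := fun i => Wd_eq _ _
    apply schottky (fun i : ι => Wp (i.1, true) i.2.1) (fun i : ι => Wp (i.1, false) i.2.1)
      (fun i : ι => (i.1, true))
    · intro i; rw [Wd_eq]; exact Wd_red _ _
    · intro i; rw [e]; exact Wd_red _ _
    · intro i j z h1 h2
      rw [Wd_eq] at h1 h2
      have h3 := pre_eq h1 h2 (by rw [Wd_len, Wd_len, i.2.2, j.2.2])
      obtain ⟨h4, h5⟩ := Wd_inj h3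
      exact Prod.ext (Prod.mk.inj h4).1 (Subtype.ext h5)
    · intro i j z h1 h2
      rw [e] at h1 h2
      have h3 := pre_eq h1 h2 (by rw [Wd_len, Wd_len, i.2.2, j.2.2])
      obtain ⟨h4, h5⟩ := Wd_inj h3
      exact Prod.ext (Prod.mk.inj h4).1 (Subtype.ext h5)
    · intro i j z h1 h2
      rw [Wd_eq] at h1
      rw [e] at h2
      have h3 := pre_eq h1 h2 (by rw [Wd_len, Wd_len, i.2.2, j.2.2])
      obtain ⟨h4, -⟩ := Wd_inj h3
      have := congrArg Prod.snd h4
      simp at this

/-- even construction -/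
theorem even_low (hr : 2 ≤ r) (m : ℕ) :
    ∃ (ι : Type) (_ : Fintype ι) (a : ι → FreeGroup (Fin r)),
      Fintype.card ι = (2 * r - 1) ^ (m + 1) ∧ (∀ i, (a i).norm ≤ 2 * (m + 1)) ∧
      Function.Injective (FreeGroup.lift a) := by
  have hr0 : 0 < r := by omega
  let α : Lt r := (⟨0, hr0⟩, true)
  let ι : Type := {d : Lt r // d ≠ α} × List.Vector (Fin (2 * r - 1)) m
  haveI : Nontrivial ι := by
    haveI : Nontrivial {d : Lt r // d ≠ α} := by
      rw [← Fintype.one_lt_card_iff_nontrivial, card_ne]; omega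
    haveI : Nonempty (List.Vector (Fin (2 * r - 1)) m) :=
      ⟨List.Vector.replicate m ⟨0, by omega⟩⟩
    infer_instance
  refine ⟨ι, inferInstance,
    fun i => mk (Wp i.1.1 i.2.1 ++ [i.1.1]) * (mk (Wd α i.2.1))⁻¹, ?_, ?_, ?_⟩
  · rw [Fintype.card_prod, card_ne, card_vector, Fintype.card_fin, pow_succ]
    ring
  · intro i
    refine (FreeGroup.norm_mul_le _ _).trans ?_
    rw [norm_inv_eq]
    have h1 := norm_mk_le (L₁ := Wp i.1.1 i.2.1 ++ [i.1.1])
    have h2 := norm_mk_le (L₁ := Wd α i.2.1)
    rw [List.length_append, Wp_len, i.2.2, List.length_singleton] at h1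
    rw [Wd_len, i.2.2] at h2
    omega
  · apply schottky (fun i : ι => Wp i.1.1 i.2.1) (fun i : ι => Wd α i.2.1) (fun i : ι => i.1.1)
    · intro i; rw [Wd_eq]; exact Wd_red _ _
    · intro i
      rw [← Wd_eq]
      apply IsReduced.append_overlap _ _ (by simp)
      · rw [Wd_eq]; exact Wd_red _ _
      · rw [List.singleton_append, isReduced_cons_cons, red_pair]
        refine ⟨fun h => i.1.2 (li_inj h), by simp⟩
    · intro i j z h1 h2
      rw [Wd_eq] at h1 h2
      have h3 := pre_eq h1 h2 (by rw [Wd_len, Wd_len, i.2.2, j.2.2])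
      obtain ⟨h4, h5⟩ := Wd_inj h3
      exact Prod.ext (Subtype.ext h4) (Subtype.ext h5)
    · intro i j z h1 h2
      have h3 := pre_eq h1 h2 (by
        rw [List.length_append, List.length_append, Wd_len, Wd_len, i.2.2, j.2.2]; rfl)
      obtain ⟨h4, h5⟩ := List.append_inj' h3 rfl
      obtain ⟨-, h6⟩ := Wd_inj h4
      have h7 : li i.1.1 = li j.1.1 := by simpa using h5
      exact Prod.ext (Subtype.ext (li_inj h7)) (Subtype.ext h6)
    · intro i j z h1 h2
      rw [Wd_eq] at h1
      have h2' : Wd α j.2.1 <+: z := (List.prefix_append _ _).trans h2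
      have h3 := pre_eq h1 h2' (by rw [Wd_len, Wd_len, i.2.2, j.2.2])
      obtain ⟨h4, -⟩ := Wd_inj h3
      exact i.1.2 h4

theorem triv_low (hr : 1 ≤ r) (n : ℕ) (hn : 1 ≤ n) (h1 : r = 1) :
    ∃ (ι : Type) (_ : Fintype ι) (a : ι → FreeGroup (Fin r)),
      Fintype.card ι = 1 ∧ (∀ i, (a i).norm ≤ n) ∧
      Function.Injective (FreeGroup.lift a) := by
  subst h1
  refine ⟨Unit, inferInstance, fun _ => FreeGroup.of 0, by simp, by intro i; rw [norm_of]; exact hn, ?_⟩
  have : FreeGroup.lift (fun _ : Unit => (FreeGroup.of 0 : FreeGroup (Fin 1))) =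
      FreeGroup.map (fun _ : Unit => (0 : Fin 1)) := by
    ext; simp
  rw [this]
  apply FreeGroup.map_injective
  intro a b _
  rfl

theorem to_set {ι : Type} [Fintype ι] (a : ι → FreeGroup (Fin r)) (h : Function.Injective (FreeGroup.lift a)) :
    (Set.range a).ncard = Fintype.card ι ∧
    Function.Injective (FreeGroup.lift (fun x : Set.range a => (x : FreeGroup (Fin r)))) := by
  have hinj : Function.Injective a := by
    intro i j hij
    apply FreeGroup.of_injective
    apply h
    rw [lift_apply_of, lift_apply_of]; exact hij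
  constructor
  · rw [← Set.image_univ, Set.ncard_image_of_injective _ hinj, Set.ncard_univ, Nat.card_eq_fintype_card]
  · let e := Equiv.ofInjective a hinj
    have h1 : FreeGroup.lift (fun x : Set.range a => (x : FreeGroup (Fin r))) =
        (FreeGroup.lift a).comp (FreeGroup.map e.symm) := by
      ext x
      simp only [lift_apply_of, MonoidHom.comp_apply, map.of]
      exact (Equiv.apply_ofInjective_symm hinj x).symm
    rw [h1, MonoidHom.coe_comp]
    exact h.comp (FreeGroup.map_injective e.symm.injective)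

end Pool.Agent.H26.FG
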