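import Mathlib
import Pool.Agent.H26.FGLow

set_option autoImplicit false
set_option linter.style.haveILetI false

namespace Pool.Agent.H26.FG

open FreeGroup

theorem red_pair' {β : Type} (c d : β × Bool) : (c.1 = d.1 → c.2 = d.2) ↔ d ≠ (c.1, !c.2) := by
  obtain ⟨c1, c2⟩ := c
  obtain ⟨d1, d2⟩ := d
  simp only [ne_eq, Prod.mk.injEq, not_and]
  constructor
  · rintro h rfl h2
    have := h rfl
    subst this
    revert h2; cases c2 <;> decide
  · rintro h rfl
    have := h rfl
    revert this; cases c2 <;> cases d2 <;> decide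

theorem mul_last {β : Type} [DecidableEq β] (y : FreeGroup β) (c : β × Bool)
    (h : y.toWord.getLast? ≠ some (c.1, !c.2)) : (y * mk [c]).toWord = y.toWord ++ [c] := by
  conv_lhs => rw [← mk_toWord (x := y)]
  rw [mul_mk, toWord_mk]
  apply IsReduced.reduce_eq
  have hy2 := isReduced_toWord (x := y)
  rcases List.eq_nil_or_concat y.toWord with hw | ⟨t, d, hw⟩
  · rw [hw]; simp
  · rw [List.concat_eq_append] at hw
    rw [hw] at h hy2 ⊢
    apply IsReduced.append_overlap hy2 _ (by simp)
    rw [List.singleton_append, isReduced_cons_cons]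
    refine ⟨(red_pair' d c).mpr ?_, by simp⟩
    rw [List.getLast?_concat] at h
    rintro rfl
    apply h
    simp

theorem forest {ι F : Type} [Fintype ι] [DecidableEq ι] [Group F] [DecidableEq F] (a : ι → F)
    (ha : Function.Injective (FreeGroup.lift a)) (S : Finset F) :
    ∑ i, (S.filter (fun g => g * a i ∈ S)).card ≤ S.card := by
  classical
  set φ := FreeGroup.lift a with hφ
  set H := φ.range with hH
  have hmem : ∀ i, a i ∈ H := fun i => ⟨FreeGroup.of i, by rw [hφ, lift_apply_of]⟩
  have hk0 : ∀ g : F, ∃ y, φ y = ((QuotientGroup.mk g : F ⧸ H).out)⁻¹ * g := by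
    intro g
    have h1 : (QuotientGroup.mk ((QuotientGroup.mk g : F ⧸ H).out) : F ⧸ H) = QuotientGroup.mk g :=
      Quotient.out_eq' _
    rw [QuotientGroup.eq] at h1
    exact h1
  choose k hk using hk0
  have hk2 : ∀ g i, k (g * a i) = k g * FreeGroup.of i := by
    intro g i
    apply ha
    rw [_root_.map_mul, hk, hk]
    have h1 : (QuotientGroup.mk (g * a i) : F ⧸ H) = QuotientGroup.mk g := by
      symm
      rw [QuotientGroup.eq, inv_mul_cancel_left]
      exact hmem i
    rw [h1, hφ, lift_apply_of, mul_assoc]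
  let Φ : (Σ _ : ι, F) → F := fun x =>
    if (k x.2).toWord.getLast? = some (x.1, false) then x.2 else x.2 * a x.1
  have hΦA : ∀ x : (Σ _ : ι, F), (k x.2).toWord.getLast? = some (x.1, false) → Φ x = x.2 :=
    fun x h => if_pos h
  have hΦB : ∀ x : (Σ _ : ι, F), ¬ (k x.2).toWord.getLast? = some (x.1, false) →
      Φ x = x.2 * a x.1 := fun x h => if_neg h
  have hlB : ∀ x : (Σ _ : ι, F), ¬ (k x.2).toWord.getLast? = some (x.1, false) →
      (k (Φ x)).toWord.getLast? = some (x.1, true) := by
    intro x h
    rw [hΦB x h, hk2]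
    have := mul_last (k x.2) (x.1, true) (by simpa using h)
    have e : FreeGroup.of x.1 = mk [(x.1, true)] := rfl
    rw [e, this, List.getLast?_concat]
  have hlA : ∀ x : (Σ _ : ι, F), (k x.2).toWord.getLast? = some (x.1, false) →
      (k (Φ x)).toWord.getLast? = some (x.1, false) := by
    intro x h
    rw [hΦA x h, h]
  rw [← Finset.card_sigma]
  apply Finset.card_le_card_of_injOn Φ
  · rintro x hx
    rw [Finset.mem_coe, Finset.mem_sigma, Finset.mem_filter] at hx
    by_cases h : (k x.2).toWord.getLast? = some (x.1, false)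
    · rw [hΦA x h]; exact hx.2.1
    · rw [hΦB x h]; exact hx.2.2
  · intro x _ y _ hxy
    by_cases h1 : (k x.2).toWord.getLast? = some (x.1, false)
    · by_cases h2 : (k y.2).toWord.getLast? = some (y.1, false)
      · have e1 := hlA x h1
        rw [hxy, hlA y h2] at e1
        rw [hΦA x h1, hΦA y h2] at hxy
        simp only [Option.some.injEq, Prod.mk.injEq, and_true] at e1
        cases x; cases y
        simp only at hxy e1
        subst hxy; subst e1; rfl
      · have e1 := hlA x h1
        rw [hxy, hlB y h2] at e1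
        simp at e1
    · by_cases h2 : (k y.2).toWord.getLast? = some (y.1, false)
      · have e1 := hlB x h1
        rw [hxy, hlA y h2] at e1
        simp at e1
      · have e1 := hlB x h1
        rw [hxy, hlB y h2] at e1
        rw [hΦB x h1, hΦB y h2] at hxy
        simp only [Option.some.injEq, Prod.mk.injEq, and_true] at e1
        cases x; cases y
        simp only at hxy e1
        subst e1
        have := mul_right_cancel hxy
        subst this; rfl

variable {r : ℕ}

theorem ball_finite (k : ℕ) : {g : FreeGroup (Fin r) | g.norm ≤ k}.Finite := by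
  have h := List.finite_length_le (Fin r × Bool) k
  have := h.preimage (f := (toWord : FreeGroup (Fin r) → _)) toWord_injective.injOn
  exact this

/-- balls -/
noncomputable def B (r k : ℕ) : Finset (FreeGroup (Fin r)) := (ball_finite k).toFinset

theorem mem_B {k : ℕ} {g : FreeGroup (Fin r)} : g ∈ B r k ↔ g.norm ≤ k := by
  simp [B]

theorem C1 (m R : ℕ) (x : FreeGroup (Fin r)) (hx : x.norm ≤ 2 * m) :
    (B r R).card ≤ ((B r (R + m)).filter (fun g => g * x ∈ B r (R + m))).card := by
  obtain ⟨u, v, hxx, h1, h2⟩ : ∃ u v : FreeGroup (Fin r), x = u * v ∧ u.norm ≤ m ∧ v.norm ≤ m := by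
    refine ⟨mk (x.toWord.take m), mk (x.toWord.drop m), ?_, norm_mk_le.trans (by simp), ?_⟩
    · rw [mul_mk, List.take_append_drop, mk_toWord]
    · refine norm_mk_le.trans ?_
      rw [List.length_drop]
      have : x.toWord.length ≤ 2 * m := hx
      omega
  apply Finset.card_le_card_of_injOn (fun h => h * u⁻¹)
  · intro h hh
    rw [Finset.mem_coe, mem_B] at hh
    rw [Finset.mem_coe, Finset.mem_filter, mem_B, mem_B]
    constructor
    · refine (FreeGroup.norm_mul_le _ _).trans ?_
      rw [norm_inv_eq]; omega
    · have e : h * u⁻¹ * x = h * v := by rw [hxx]; group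
      rw [e]
      refine (FreeGroup.norm_mul_le _ _).trans ?_
      omega
  · intro a _ b _ hab
    exact mul_right_cancel hab

/-- edges labelled by a letter -/
noncomputable def E (r : ℕ) (s : Fin r × Bool) (R : ℕ) : Finset (FreeGroup (Fin r)) :=
  (B r R).filter (fun g => g * mk [s] ∈ B r R)

theorem C2 (hr : 1 ≤ r) (m R : ℕ) (x : FreeGroup (Fin r)) (hx : x.norm ≤ 2 * m + 1) :
    ∃ s, (E r s R).card ≤ ((B r (R + m)).filter (fun g => g * x ∈ B r (R + m))).card := by
  by_cases hx2 : x.norm ≤ 2 * m
  · refine ⟨(⟨0, by omega⟩, true), ?_⟩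
    exact (Finset.card_le_card (Finset.filter_subset _ _)).trans (C1 m R x hx2)
  · have hlen : x.toWord.length = 2 * m + 1 := by
      have : x.toWord.length = x.norm := rfl
      omega
    have hm : m < x.toWord.length := by omega
    obtain ⟨u, v, s, hxx, h1, h2⟩ : ∃ (u v : FreeGroup (Fin r)) (s : Fin r × Bool),
        x = u * mk [s] * v ∧ u.norm ≤ m ∧ v.norm ≤ m := by
      refine ⟨mk (x.toWord.take m), mk (x.toWord.drop (m + 1)), x.toWord[m], ?_,
        norm_mk_le.trans (by simp), ?_⟩
      · rw [mul_mk, mul_mk, List.append_assoc, List.singleton_append, ← List.drop_eq_getElem_cons hm,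
          List.take_append_drop, mk_toWord]
      · refine norm_mk_le.trans ?_
        rw [List.length_drop]
        omega
    refine ⟨s, ?_⟩
    apply Finset.card_le_card_of_injOn (fun h => h * u⁻¹)
    · intro h hh
      rw [Finset.mem_coe, E, Finset.mem_filter, mem_B, mem_B] at hh
      rw [Finset.mem_coe, Finset.mem_filter, mem_B, mem_B]
      constructor
      · refine (FreeGroup.norm_mul_le _ _).trans ?_
        rw [norm_inv_eq]; omega
      · have e : h * u⁻¹ * x = (h * mk [s]) * v := by rw [hxx]; group
        rw [e]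
        refine (FreeGroup.norm_mul_le _ _).trans ?_
        omega
    · intro a _ b _ hab
      exact mul_right_cancel hab

theorem E_flip (s : Fin r × Bool) (R : ℕ) : (E r s R).card ≤ (E r (li s) R).card := by
  apply Finset.card_le_card_of_injOn (fun h => h * mk [s])
  · intro h hh
    rw [Finset.mem_coe, E, Finset.mem_filter] at hh
    rw [Finset.mem_coe, E, Finset.mem_filter]
    refine ⟨hh.2, ?_⟩
    rw [mk_li, mul_inv_cancel_right]
    exact hh.1
  · intro a _ b _ hab
    exact mul_right_cancel hab

theorem E_perm (i j : Fin r) (b : Bool) (R : ℕ) : (E r (i, b) R).card ≤ (E r (j, b) R).card := by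
  have hnorm : ∀ g : FreeGroup (Fin r), (FreeGroup.map (Equiv.swap i j) g).norm ≤ g.norm := by
    intro g
    have : FreeGroup.map (Equiv.swap i j) g = mk (g.toWord.map fun x => (Equiv.swap i j x.1, x.2)) := by
      conv_lhs => rw [← mk_toWord (x := g)]
      rw [map.mk]
    rw [this]
    refine norm_mk_le.trans ?_
    rw [List.length_map]; rfl
  apply Finset.card_le_card_of_injOn (fun h => FreeGroup.map (Equiv.swap i j) h)
  · intro h hh
    rw [Finset.mem_coe, E, Finset.mem_filter, mem_B, mem_B] at hh
    rw [Finset.mem_coe, E, Finset.mem_filter, mem_B, mem_B]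
    refine ⟨(hnorm h).trans hh.1, ?_⟩
    have e : FreeGroup.map (Equiv.swap i j) h * mk [(j, b)] = FreeGroup.map (Equiv.swap i j) (h * mk [(i, b)]) := by
      rw [_root_.map_mul, map.mk]; simp
    rw [e]
    exact (hnorm _).trans hh.2
  · exact (FreeGroup.map_injective (Equiv.swap i j).injective).injOn

theorem E_any (s t : Fin r × Bool) (R : ℕ) : (E r s R).card ≤ (E r t R).card := by
  obtain ⟨i, b⟩ := s
  obtain ⟨j, c⟩ := t
  by_cases h : b = c
  · subst h; exact E_perm i j b R
  · have hc : c = !b := by revert h; cases b <;> cases c <;> decide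
    subst hc
    exact (E_flip (i, b) R).trans (E_perm i j (!b) R)

theorem E_sum (R : ℕ) : (B r R).card ≤ 1 + ∑ i : Fin r, (E r (i, true) R).card := by
  classical
  have h0 : (B r R).card ≤ ((B r R).erase 1).card + 1 := by
    have := Finset.pred_card_le_card_erase (s := B r R) (a := 1)
    omega
  have h1 : ((B r R).erase 1).card ≤ ∑ i : Fin r, (E r (i, true) R).card := by
    rw [← Finset.card_sigma]
    let Φ : (Σ _ : Fin r, FreeGroup (Fin r)) → FreeGroup (Fin r) := fun x =>
      if x.2.toWord.getLast? = some (x.1, false) then x.2 else x.2 * mk [(x.1, true)]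
    apply Finset.card_le_card_of_surjOn Φ
    intro f hf
    rw [Finset.mem_coe, Finset.mem_erase, mem_B] at hf
    obtain ⟨hf1, hf2⟩ := hf
    have hw0 : f.toWord ≠ [] := fun h => hf1 (toWord_eq_nil_iff.mp h)
    rcases List.eq_nil_or_concat f.toWord with hw | ⟨t, ⟨i, b⟩, hw⟩
    · exact absurd hw hw0
    rw [List.concat_eq_append] at hw
    have hlen : t.length + 1 ≤ R := by
      have : f.toWord.length = f.norm := rfl
      rw [hw, List.length_append, List.length_singleton] at this
      omega
    have hft : f = mk t * mk [(i, b)] := by rw [mul_mk, ← hw, mk_toWord]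
    cases b with
    | false =>
      refine ⟨⟨i, f⟩, ?_, ?_⟩
      · rw [Finset.mem_coe, Finset.mem_sigma, E, Finset.mem_filter, mem_B, mem_B]
        refine ⟨Finset.mem_univ _, hf2, ?_⟩
        have e : f * mk [(i, true)] = mk t := by
          rw [hft, mul_assoc, mul_mk]
          have : (mk ([(i, false)] ++ [(i, true)]) : FreeGroup (Fin r)) = 1 := by
            rw [← mul_mk]
            have h2 : (mk [(i, false)] : FreeGroup (Fin r)) = (mk [(i, true)])⁻¹ := by
              rw [inv_mk]; rfl
            rw [h2, inv_mul_cancel]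
          rw [this, mul_one]
        show (f * mk [(i, true)]).norm ≤ R
        rw [e]
        exact norm_mk_le.trans (by omega)
      · show Φ ⟨i, f⟩ = f
        simp only [Φ]
        rw [if_pos]
        rw [hw, List.getLast?_concat]
    | true =>
      have hred := isReduced_toWord (x := f)
      rw [hw] at hred
      have htred : IsReduced t := List.IsChain.left_of_append hred
      refine ⟨⟨i, mk t⟩, ?_, ?_⟩
      · rw [Finset.mem_coe, Finset.mem_sigma, E, Finset.mem_filter, mem_B, mem_B]
        refine ⟨Finset.mem_univ _, norm_mk_le.trans (by omega), ?_⟩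
        show (mk t * mk [(i, true)]).norm ≤ R
        rw [← hft]
        exact hf2
      · show Φ ⟨i, mk t⟩ = f
        simp only [Φ]
        rw [if_neg, ← hft]
        rw [toWord_mk, htred.reduce_eq]
        intro hlast
        rcases List.eq_nil_or_concat t with ht | ⟨t', d, ht⟩
        · rw [ht] at hlast; simp at hlast
        · rw [List.concat_eq_append] at ht
          rw [ht, List.getLast?_concat] at hlast
          have hd : d = (i, false) := by simpa using hlast
          rw [ht, hd, List.append_assoc] at hred
          have h3 : IsReduced ([(i, false)] ++ [(i, true)]) :=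
            List.IsChain.right_of_append hred
          rw [List.singleton_append, isReduced_cons_cons] at h3
          have := h3.1 rfl
          simp at this
  omega

theorem growth (hr : 1 ≤ r) (k : ℕ) : (B r (k + 1)).card ≤ (2 * r - 1) * (B r k).card + 2 := by
  classical
  let α : Fin r × Bool := (⟨0, by omega⟩, true)
  let bad : FreeGroup (Fin r) → FreeGroup (Fin r) × (Fin r × Bool) :=
    fun h => (h, li (h.toWord.getLast?.getD α))
  have hbad : Function.Injective bad := fun a b h => congrArg Prod.fst h
  let D := (B r k ×ˢ (Finset.univ : Finset (Fin r × Bool))) \ ((B r k).erase 1).image bad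
  have hone : (1 : FreeGroup (Fin r)) ∈ B r k := by rw [mem_B]; simp
  have hone' : (1 : FreeGroup (Fin r)) ∈ B r (k + 1) := by rw [mem_B]; simp
  have hD : D.card + ((B r k).card - 1) = (B r k).card * (2 * r) := by
    have hsub : ((B r k).erase 1).image bad ⊆ B r k ×ˢ (Finset.univ : Finset (Fin r × Bool)) := by
      intro x hx
      rw [Finset.mem_image] at hx
      obtain ⟨h, hh, rfl⟩ := hx
      rw [Finset.mem_product]
      exact ⟨(Finset.mem_erase.mp hh).2, Finset.mem_univ _⟩
    have h1 := Finset.card_sdiff_add_card_eq_card hsub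
    rw [Finset.card_image_of_injective _ hbad, Finset.card_erase_of_mem hone, Finset.card_product] at h1
    have h2 : (Finset.univ : Finset (Fin r × Bool)).card = 2 * r := by
      rw [Finset.card_univ, Fintype.card_prod, Fintype.card_fin, Fintype.card_bool]; ring
    rw [h2] at h1
    exact h1
  have hsurj : ((B r (k + 1)).erase 1).card ≤ D.card := by
    apply Finset.card_le_card_of_surjOn (fun x : FreeGroup (Fin r) × (Fin r × Bool) => x.1 * mk [x.2])
    intro f hf
    rw [Finset.mem_coe, Finset.mem_erase, mem_B] at hf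
    obtain ⟨hf1, hf2⟩ := hf
    have hw0 : f.toWord ≠ [] := fun h => hf1 (toWord_eq_nil_iff.mp h)
    rcases List.eq_nil_or_concat f.toWord with hw | ⟨t, c, hw⟩
    · exact absurd hw hw0
    rw [List.concat_eq_append] at hw
    have hlen : t.length ≤ k := by
      have : f.toWord.length = f.norm := rfl
      rw [hw, List.length_append, List.length_singleton] at this
      omega
    have hft : f = mk t * mk [c] := by rw [mul_mk, ← hw, mk_toWord]
    have hred := isReduced_toWord (x := f)
    rw [hw] at hred
    have htred : IsReduced t := List.IsChain.left_of_append hred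
    refine ⟨(mk t, c), ?_, hft.symm⟩
    rw [Finset.mem_coe, Finset.mem_sdiff, Finset.mem_product, mem_B]
    refine ⟨⟨norm_mk_le.trans hlen, Finset.mem_univ _⟩, ?_⟩
    rw [Finset.mem_image]
    rintro ⟨h, hh, he⟩
    simp only [bad, Prod.mk.injEq] at he
    obtain ⟨he1, he2⟩ := he
    rw [he1, toWord_mk, htred.reduce_eq] at he2
    rcases List.eq_nil_or_concat t with ht | ⟨t', d, ht⟩
    · rw [Finset.mem_erase, he1, ht] at hh
      exact hh.1 rfl
    · rw [List.concat_eq_append] at ht
      rw [ht, List.getLast?_concat, Option.getD_some] at he2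
      rw [ht, List.append_assoc] at hred
      have h3 : IsReduced ([d] ++ [c]) := List.IsChain.right_of_append hred
      rw [List.singleton_append, isReduced_cons_cons, red_pair] at h3
      exact h3.1 he2.symm
  rw [Finset.card_erase_of_mem hone'] at hsurj
  have hpos : 1 ≤ (B r k).card := Finset.card_pos.mpr ⟨1, hone⟩
  obtain ⟨b, hb⟩ : ∃ b, (B r k).card = b + 1 := ⟨(B r k).card - 1, by omega⟩
  obtain ⟨q, hq⟩ : ∃ q, r = q + 1 := ⟨r - 1, by omega⟩
  rw [hb] at hD ⊢
  have e1 : 2 * r - 1 = 2 * q + 1 := by omega
  rw [e1]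
  have e2 : (b + 1) * (2 * r) = (2 * q + 1) * (b + 1) + (b + 1) := by rw [hq]; ring
  rw [e2] at hD
  omega

theorem growth_m (hr : 1 ≤ r) (m : ℕ) : ∃ C : ℕ, ∀ k, (B r (k + m)).card ≤ (2 * r - 1) ^ m * (B r k).card + C := by
  induction m with
  | zero => exact ⟨0, fun k => by simp⟩
  | succ m ih =>
    obtain ⟨C, hC⟩ := ih
    refine ⟨(2 * r - 1) * C + 2, fun k => ?_⟩
    have h1 := growth hr (k + m)
    have h2 := hC k
    calc (B r (k + (m + 1))).card = (B r (k + m + 1)).card := by rw [add_assoc]
      _ ≤ (2 * r - 1) * (B r (k + m)).card + 2 := h1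
      _ ≤ (2 * r - 1) * ((2 * r - 1) ^ m * (B r k).card + C) + 2 := by gcongr
      _ = _ := by ring

theorem unbdd (hr : 1 ≤ r) (R : ℕ) : R + 1 ≤ (B r R).card := by
  have : (Finset.range (R + 1)).card ≤ (B r R).card := by
    apply Finset.card_le_card_of_injOn (fun n => (FreeGroup.of (⟨0, by omega⟩ : Fin r)) ^ n)
    · intro n hn
      rw [Finset.mem_coe, Finset.mem_range] at hn
      rw [Finset.mem_coe, mem_B, norm_of_pow]
      omega
    · intro a _ b _ hab
      have := congrArg FreeGroup.norm hab
      rwa [norm_of_pow, norm_of_pow] at this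
  rwa [Finset.card_range] at this

theorem even_up (hr : 1 ≤ r) (m : ℕ) {ι : Type} [Fintype ι] (a : ι → FreeGroup (Fin r))
    (hn : ∀ i, (a i).norm ≤ 2 * m) (ha : Function.Injective (FreeGroup.lift a)) :
    Fintype.card ι ≤ (2 * r - 1) ^ m := by
  classical
  by_contra hcon
  obtain ⟨C, hC⟩ := growth_m hr m
  have h1 := forest a ha (B r (C + m))
  have h2 : Fintype.card ι * (B r C).card ≤ ∑ i, ((B r (C + m)).filter (fun g => g * a i ∈ B r (C + m))).card := by
    rw [← Finset.card_univ, ← smul_eq_mul]
    apply Finset.card_nsmul_le_sum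
    intro i _
    exact C1 m C (a i) (hn i)
  have h3 := hC C
  have h4 := unbdd hr C
  have h5 : (2 * r - 1) ^ m + 1 ≤ Fintype.card ι := by omega
  have h6 : ((2 * r - 1) ^ m + 1) * (B r C).card ≤ Fintype.card ι * (B r C).card := by gcongr
  have h7 : ((2 * r - 1) ^ m + 1) * (B r C).card = (2 * r - 1) ^ m * (B r C).card + (B r C).card := by ring
  omega

theorem odd_up (hr : 1 ≤ r) (m : ℕ) {ι : Type} [Fintype ι] (a : ι → FreeGroup (Fin r))
    (hn : ∀ i, (a i).norm ≤ 2 * m + 1) (ha : Function.Injective (FreeGroup.lift a)) :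
    Fintype.card ι ≤ r * (2 * r - 1) ^ m := by
  classical
  by_contra hcon
  obtain ⟨C, hC⟩ := growth_m hr m
  set P := (2 * r - 1) ^ m with hP
  set R := r * (P + C + 1) with hR
  let α : Fin r × Bool := (⟨0, by omega⟩, true)
  have h1 := forest a ha (B r (R + m))
  have h2 : Fintype.card ι * (E r α R).card ≤ ∑ i, ((B r (R + m)).filter (fun g => g * a i ∈ B r (R + m))).card := by
    rw [← Finset.card_univ, ← smul_eq_mul]
    apply Finset.card_nsmul_le_sum
    intro i _
    obtain ⟨s, hs⟩ := C2 hr m R (a i) (hn i)
    exact (E_any α s R).trans hs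
  have h3 := hC R
  have h4 := unbdd hr R
  have h5 : (B r R).card ≤ 1 + r * (E r α R).card := by
    have h6 := E_sum (r := r) R
    have h7 : ∑ i : Fin r, (E r (i, true) R).card ≤ ∑ _i : Fin r, (E r α R).card :=
      Finset.sum_le_sum (fun i _ => E_any _ _ R)
    rw [Finset.sum_const, Finset.card_univ, Fintype.card_fin, smul_eq_mul] at h7
    omega
  set M := (E r α R).card with hM
  have h8 : r * P + 1 ≤ Fintype.card ι := by omega
  have h9 : (r * P + 1) * M ≤ P * (B r R).card + C := by
    calc (r * P + 1) * M ≤ Fintype.card ι * M := by gcongr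
      _ ≤ _ := h2
      _ ≤ _ := h1
      _ ≤ _ := h3
  have h10 : P * (B r R).card ≤ P * (1 + r * M) := by gcongr
  have h11 : M ≤ P + C := by nlinarith
  have h12 : r * M ≤ r * (P + C) := by gcongr
  have h13 : R = r * (P + C) + r := by rw [hR]; ring
  omega

end Pool.Agent.H26.FG
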