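import Mathlib

set_option autoImplicit false
set_option linter.style.haveILetI false

open MeasureTheory Filter Topology
open scoped ComplexConjugate ENNReal

namespace Pool.Agent.H26.FK

/-- The Gaussian measure on `ℂⁿ`, with density `exp (-|z|²)` with respect to Lebesgue measure. -/
noncomputable def mu (n : ℕ) : Measure (Fin n → ℂ) :=
  volume.withDensity (fun z => ENNReal.ofReal (Real.exp (-∑ i, ‖z i‖ ^ 2)))

/-- The span of the elements of `L²(μ)` that are (classes of) entire functions on `ℂⁿ`. -/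
noncomputable def entireL2 (n : ℕ) : Submodule ℂ (Lp ℂ 2 (mu n)) :=
  Submodule.span ℂ {f : Lp ℂ 2 (mu n) | ∃ F : (Fin n → ℂ) → ℂ, AnalyticOnNhd ℂ F Set.univ ∧ f =ᵐ[mu n] F}

/-- The Bargmann-Segal space `H²(μ)`: the closed subspace of `L²(μ)` formed by the entire functions. -/
noncomputable def BS (n : ℕ) : Submodule ℂ (Lp ℂ 2 (mu n)) := (entireL2 n).topologicalClosure

instance (n : ℕ) : (BS n).HasOrthogonalProjection := by
  haveI : CompleteSpace (BS n) := (entireL2 n).isClosed_topologicalClosure.completeSpace_coe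
  infer_instance

instance (n : ℕ) : CompleteSpace (BS n) := (entireL2 n).isClosed_topologicalClosure.completeSpace_coe

/-- The graph of the Toeplitz operator `T_φ f = P(φ f)`, with domain the `f ∈ H²(μ)` for which
`φ f ∈ L²(μ)`; here `P` is the orthogonal projection of `L²(μ)` onto `H²(μ)`. -/
def toeplitzGraph (n : ℕ) (φ : (Fin n → ℂ) → ℂ) : Set (BS n × BS n) :=
  {p | ∃ h : Lp ℂ 2 (mu n), (h =ᵐ[mu n] fun z => φ z * (p.1 : Lp ℂ 2 (mu n)) z) ∧
    p.2 = (BS n).orthogonalProjectionOnto h}

/-- The closure of `T_φ` has compact resolvent: for some `lam`, `lam - closure T_φ` has a bounded compact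
two-sided inverse `R` (a pair `(f, g)` lies in the closure of the graph iff `g` is the value at `f` of the closure). -/
def HasCompactResolvent (n : ℕ) (φ : (Fin n → ℂ) → ℂ) : Prop :=
  ∃ (lam : ℂ) (R : BS n →L[ℂ] BS n), IsCompactOperator R ∧
    (∀ f : BS n, (R f, lam • R f - f) ∈ closure (toeplitzGraph n φ)) ∧
    ∀ f g : BS n, (f, g) ∈ closure (toeplitzGraph n φ) → R (lam • f - g) = f

/-- The function `z ↦ p(z, z̄)` attached to a polynomial `p` in the variables `z_i, z̄_i`. -/
noncomputable def ev {n : ℕ} (p : MvPolynomial (Fin n ⊕ Fin n) ℂ) (z : Fin n → ℂ) : ℂ :=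
  MvPolynomial.eval (Sum.elim z (fun i => conj (z i))) p

end Pool.Agent.H26.FK
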