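import Mathlib
import Pool.Agent.H26.FK0

set_option autoImplicit false
set_option linter.style.haveILetI false

open MeasureTheory Filter Topology
open scoped ComplexConjugate ENNReal

namespace Pool.Agent.H26.FK

theorem mom (m : ℕ) : ∫ w : ℂ, ‖w‖ ^ m * Real.exp (-‖w‖ ^ 2) = Real.pi * Real.Gamma ((m + 2) / 2) := by
  have h := Complex.integral_rpow_mul_exp_neg_rpow (p := 2) (q := m) (by norm_num) (by
    have : (0 : ℝ) ≤ m := Nat.cast_nonneg m
    linarith)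
  have e : (2 * Real.pi / 2 : ℝ) = Real.pi := by ring
  rw [e] at h
  rw [← h]
  congr 1
  funext w
  rw [Real.rpow_natCast, Real.rpow_two]

theorem mom_int (m : ℕ) : Integrable (fun w : ℂ => ‖w‖ ^ m * Real.exp (-‖w‖ ^ 2)) := by
  by_contra h
  have h1 := mom m
  rw [integral_undef h] at h1
  have h2 : 0 < Real.pi * Real.Gamma ((m + 2) / 2) := by
    apply mul_pos Real.pi_pos
    apply Real.Gamma_pos_of_pos
    positivity
  linarith

theorem mom_even (n : ℕ) : ∫ w : ℂ, ‖w‖ ^ (2 * n) * Real.exp (-‖w‖ ^ 2) = Real.pi * n.factorial := by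
  rw [mom]
  congr 1
  have : (((2 * n : ℕ) : ℝ) + 2) / 2 = n + 1 := by push_cast; ring
  rw [this, Real.Gamma_nat_eq_factorial]

/-- rotation invariance in one variable -/
theorem rot_int (f : ℂ → ℂ) (u : Circle) : ∫ w : ℂ, f (u * w) = ∫ w : ℂ, f w := by
  have h := (LinearIsometryEquiv.measurePreserving (rotation u))
  have := h.integral_comp' (f := (rotation u).toHomeomorph.toMeasurableEquiv) f
  exact this

theorem offdiag (m n : ℕ) (hmn : m ≠ n) (ρ : ℝ → ℂ) :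
    ∫ w : ℂ, conj w ^ m * w ^ n * ρ ‖w‖ = 0 := by
  -- choose a rotation
  obtain ⟨u, hu⟩ : ∃ u : Circle, conj (u : ℂ) ^ m * (u : ℂ) ^ n ≠ 1 := by
    have hne : ((n : ℤ) - m : ℤ) ≠ 0 := by omega
    refine ⟨Circle.exp (Real.pi / ((n : ℝ) - m)), ?_⟩
    have hne' : ((n : ℝ) - m) ≠ 0 := by
      intro h
      apply hmn
      have : (n : ℝ) = m := by linarith
      exact_mod_cast this.symm
    rw [Circle.coe_exp, ← Complex.exp_conj, ← Complex.exp_nat_mul, ← Complex.exp_nat_mul, ← Complex.exp_add]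
    have e : (m : ℂ) * conj (((Real.pi / ((n : ℝ) - m) : ℝ) : ℂ) * Complex.I) +
        n * (((Real.pi / ((n : ℝ) - m) : ℝ) : ℂ) * Complex.I) = Real.pi * Complex.I := by
      rw [map_mul, Complex.conj_ofReal, Complex.conj_I]
      have hc : ((n : ℂ) - m) ≠ 0 := by
        have : (((n : ℝ) - m : ℝ) : ℂ) ≠ 0 := by exact_mod_cast hne'
        push_cast at this
        exact this
      push_cast
      field_simp
      ring
    rw [e, Complex.exp_pi_mul_I]
    norm_num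
  have h1 := rot_int (fun w => conj w ^ m * w ^ n * ρ ‖w‖) u
  have h2 : (fun w : ℂ => conj ((u : ℂ) * w) ^ m * ((u : ℂ) * w) ^ n * ρ ‖(u : ℂ) * w‖) =
      fun w => (conj (u : ℂ) ^ m * (u : ℂ) ^ n) * (conj w ^ m * w ^ n * ρ ‖w‖) := by
    funext w
    rw [map_mul, mul_pow, mul_pow, norm_mul, Circle.norm_coe, one_mul]
    ring
  rw [h2, integral_const_mul] at h1
  have h3 : (conj (u : ℂ) ^ m * (u : ℂ) ^ n - 1) * ∫ w : ℂ, conj w ^ m * w ^ n * ρ ‖w‖ = 0 := by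
    linear_combination h1
  rcases mul_eq_zero.mp h3 with h | h
  · exact absurd (sub_eq_zero.mp h) hu
  · exact h

/-- one-variable model function -/
noncomputable def f1 (a : ℕ) (s t : ℝ) (w : ℂ) : ℂ := w ^ a * ((s + t * ‖w‖ ^ 2 : ℝ) : ℂ)

theorem f1_sq (a : ℕ) (s t : ℝ) (w : ℂ) : ‖f1 a s t w‖ ^ 2 * Real.exp (-‖w‖ ^ 2) =
    s ^ 2 * (‖w‖ ^ (2 * a) * Real.exp (-‖w‖ ^ 2)) + 2 * s * t * (‖w‖ ^ (2 * (a + 1)) * Real.exp (-‖w‖ ^ 2)) +
      t ^ 2 * (‖w‖ ^ (2 * (a + 2)) * Real.exp (-‖w‖ ^ 2)) := by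
  unfold f1
  rw [norm_mul, norm_pow, Complex.norm_real, mul_pow, Real.norm_eq_abs, sq_abs]
  ring

theorem f1_int (a : ℕ) (s t : ℝ) : Integrable (fun w : ℂ => ‖f1 a s t w‖ ^ 2 * Real.exp (-‖w‖ ^ 2)) := by
  simp_rw [f1_sq]
  exact (((mom_int _).const_mul _).add ((mom_int _).const_mul _)).add ((mom_int _).const_mul _)

theorem f1_inner (c a : ℕ) (s t : ℝ) :
    ∫ w : ℂ, (conj (w ^ c) * f1 a s t w) * (Real.exp (-‖w‖ ^ 2) : ℂ) =
      if c = a then ((Real.pi * (s * a.factorial + t * (a + 1).factorial) : ℝ) : ℂ) else 0 := by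
  split_ifs with h
  · subst h
    have e : ∀ w : ℂ, (conj (w ^ c) * f1 c s t w) * (Real.exp (-‖w‖ ^ 2) : ℂ) =
        ((s * (‖w‖ ^ (2 * c) * Real.exp (-‖w‖ ^ 2)) + t * (‖w‖ ^ (2 * (c + 1)) * Real.exp (-‖w‖ ^ 2)) : ℝ) : ℂ) := by
      intro w
      unfold f1
      have e1 : conj (w ^ c) * w ^ c = ((‖w‖ ^ (2 * c) : ℝ) : ℂ) := by
        rw [mul_comm, Complex.mul_conj, Complex.normSq_eq_norm_sq, norm_pow]
        congr 1
        ring
      rw [← mul_assoc, e1]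
      push_cast
      ring
    simp_rw [e]
    rw [integral_complex_ofReal, integral_add ((mom_int _).const_mul _) ((mom_int _).const_mul _),
      integral_const_mul, integral_const_mul, mom_even, mom_even]
    congr 1
    ring
  · have k := offdiag c a h (fun r => (((s + t * r ^ 2) * Real.exp (-r ^ 2) : ℝ) : ℂ))
    rw [← k]
    congr 1
    funext w
    unfold f1
    rw [map_pow]
    push_cast
    ring

theorem dens_meas (n : ℕ) : Measurable (fun z : Fin n → ℂ => ENNReal.ofReal (Real.exp (-∑ i, ‖z i‖ ^ 2))) := by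
  fun_prop

/-- integral of a product function -/
theorem mu_int (g0 g1 : ℂ → ℂ) : ∫ z : Fin 2 → ℂ, g0 (z 0) * g1 (z 1) ∂(mu 2) =
    (∫ w : ℂ, g0 w * (Real.exp (-‖w‖ ^ 2) : ℂ)) * ∫ w : ℂ, g1 w * (Real.exp (-‖w‖ ^ 2) : ℂ) := by
  unfold mu
  rw [integral_withDensity_eq_integral_toReal_smul (dens_meas 2) (ae_of_all _ (fun _ => ENNReal.ofReal_lt_top))]
  have h := integral_fintype_prod_volume_eq_prod (𝕜 := ℂ) (ι := Fin 2) (E := fun _ => ℂ)
    (![fun w => g0 w * (Real.exp (-‖w‖ ^ 2) : ℂ), fun w => g1 w * (Real.exp (-‖w‖ ^ 2) : ℂ)])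
  simp only [Fin.prod_univ_two, Matrix.cons_val_zero, Matrix.cons_val_one] at h
  rw [← h]
  congr 1
  funext z
  rw [ENNReal.toReal_ofReal (Real.exp_pos _).le, Fin.sum_univ_two, neg_add, Real.exp_add, Complex.real_smul]
  push_cast
  ring

theorem mu_memLp (g0 g1 : ℂ → ℂ) (h0 : Continuous g0) (h1 : Continuous g1)
    (i0 : Integrable (fun w : ℂ => ‖g0 w‖ ^ 2 * Real.exp (-‖w‖ ^ 2)))
    (i1 : Integrable (fun w : ℂ => ‖g1 w‖ ^ 2 * Real.exp (-‖w‖ ^ 2))) :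
    MemLp (fun z : Fin 2 → ℂ => g0 (z 0) * g1 (z 1)) 2 (mu 2) := by
  have hc : Continuous (fun z : Fin 2 → ℂ => g0 (z 0) * g1 (z 1)) := by fun_prop
  rw [memLp_two_iff_integrable_sq_norm hc.aestronglyMeasurable]
  unfold mu
  rw [integrable_withDensity_iff_integrable_smul' (dens_meas 2) (ae_of_all _ (fun _ => ENNReal.ofReal_lt_top))]
  have h := Integrable.fintype_prod (𝕜 := ℝ) (ι := Fin 2) (E := ℂ) (μ := fun _ => volume)
    (f := ![fun w => ‖g0 w‖ ^ 2 * Real.exp (-‖w‖ ^ 2), fun w => ‖g1 w‖ ^ 2 * Real.exp (-‖w‖ ^ 2)])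
    (by intro i; fin_cases i <;> assumption)
  simp only [Fin.prod_univ_two, Matrix.cons_val_zero, Matrix.cons_val_one] at h
  refine h.congr (ae_of_all _ (fun z => ?_))
  simp only
  rw [ENNReal.toReal_ofReal (Real.exp_pos _).le, Fin.sum_univ_two, neg_add, Real.exp_add, smul_eq_mul,
    norm_mul, mul_pow]
  ring

theorem f1_cont (a : ℕ) (s t : ℝ) : Continuous (f1 a s t) := by
  unfold f1
  fun_prop

/-- two-variable model functions -/
theorem E_mem (a b : ℕ) (s t s' t' : ℝ) :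
    MemLp (fun z : Fin 2 → ℂ => f1 a s t (z 0) * f1 b s' t' (z 1)) 2 (mu 2) :=
  mu_memLp _ _ (f1_cont _ _ _) (f1_cont _ _ _) (f1_int _ _ _) (f1_int _ _ _)

noncomputable def EE (a b : ℕ) (s t s' t' : ℝ) : Lp ℂ 2 (mu 2) := (E_mem a b s t s' t').toLp _

/-- monomials -/
noncomputable def mon (α : ℕ × ℕ) : Lp ℂ 2 (mu 2) := EE α.1 α.2 1 0 1 0

theorem f1_one (a : ℕ) (w : ℂ) : f1 a 1 0 w = w ^ a := by
  unfold f1
  simp

theorem mon_ae (α : ℕ × ℕ) : mon α =ᵐ[mu 2] fun z => z 0 ^ α.1 * z 1 ^ α.2 := by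
  refine (E_mem α.1 α.2 1 0 1 0).coeFn_toLp.trans (ae_of_all _ (fun z => ?_))
  simp only [f1_one]

theorem mon_inner (β : ℕ × ℕ) (a b : ℕ) (s t s' t' : ℝ) :
    inner ℂ (mon β) (EE a b s t s' t') = if β = (a, b) then
      (((Real.pi * (s * a.factorial + t * (a + 1).factorial)) * (Real.pi * (s' * b.factorial + t' * (b + 1).factorial)) : ℝ) : ℂ)
      else 0 := by
  rw [L2.inner_def]
  have e : ∫ z, inner ℂ (mon β z) (EE a b s t s' t' z) ∂(mu 2) =
      ∫ z : Fin 2 → ℂ, (conj (z 0 ^ β.1) * f1 a s t (z 0)) * (conj (z 1 ^ β.2) * f1 b s' t' (z 1)) ∂(mu 2) := by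
    apply integral_congr_ae
    filter_upwards [mon_ae β, (E_mem a b s t s' t').coeFn_toLp] with z h1 h2
    rw [h1]
    have h3 : EE a b s t s' t' z = f1 a s t (z 0) * f1 b s' t' (z 1) := h2
    rw [h3, RCLike.inner_apply, map_mul]
    ring
  rw [e, mu_int (fun w => conj (w ^ β.1) * f1 a s t w) (fun w => conj (w ^ β.2) * f1 b s' t' w), f1_inner, f1_inner]
  obtain ⟨c, d⟩ := β
  simp only [Prod.mk.injEq]
  by_cases h1 : c = a
  · by_cases h2 : d = b
    · simp [h1, h2]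
    · simp [h2]
  · simp [h1]

theorem mon_mon (α β : ℕ × ℕ) : inner ℂ (mon α) (mon β) = if α = β then
    ((Real.pi * α.1.factorial * (Real.pi * α.2.factorial) : ℝ) : ℂ) else 0 := by
  unfold mon
  rw [← mon, mon_inner]
  split_ifs with h
  · obtain ⟨a, b⟩ := β
    rw [h]
    simp
  · rfl

theorem mon_mem (α : ℕ × ℕ) : mon α ∈ entireL2 2 := by
  refine Submodule.subset_span ⟨fun z => z 0 ^ α.1 * z 1 ^ α.2, ?_, mon_ae α⟩
  intro z _
  have h0 : AnalyticAt ℂ (fun z : Fin 2 → ℂ => z 0) z := (ContinuousLinearMap.proj (R := ℂ) (φ := fun _ : Fin 2 => ℂ) 0).analyticAt z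
  have h1 : AnalyticAt ℂ (fun z : Fin 2 → ℂ => z 1) z := (ContinuousLinearMap.proj (R := ℂ) (φ := fun _ : Fin 2 => ℂ) 1).analyticAt z
  exact (h0.pow _).mul (h1.pow _)

theorem mon_BS (α : ℕ × ℕ) : mon α ∈ BS 2 := (entireL2 2).le_topologicalClosure (mon_mem α)

end Pool.Agent.H26.FK
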