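import Mathlib

set_option autoImplicit false
set_option linter.style.haveILetI false

open Filter Topology
open scoped ComplexConjugate InnerProductSpace

namespace Pool.Agent.H26.FK

variable {H : Type*} [NormedAddCommGroup H] [InnerProductSpace ℂ H] [CompleteSpace H] {ι : Type*}

noncomputable def rk (v : H) (c : ℂ) : H →L[ℂ] H := c • (innerSL ℂ v).smulRight v

theorem rk_apply (v : H) (c : ℂ) (g : H) : rk v c g = (c * inner ℂ v g) • v := by
  simp [rk, smul_smul]

theorem rk_compact (v : H) (c : ℂ) : IsCompactOperator (rk v c) := by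
  have h1 : IsCompactOperator (innerSL ℂ v : H →L[ℂ] ℂ) :=
    isCompactOperator_of_locallyCompactSpace_dom (innerSL ℂ v)
  have h2 := h1.clm_comp (c • ContinuousLinearMap.toSpanSingleton ℂ v)
  have e : (⇑(rk v c) : H → H) = ⇑(c • ContinuousLinearMap.toSpanSingleton ℂ v) ∘ ⇑(innerSL ℂ v : H →L[ℂ] ℂ) := by
    funext g
    rw [rk_apply]
    simp [smul_smul]
  rw [e]
  exact h2

theorem rk_sum_le {v : ι → H} (hv : Orthonormal ℂ v) (c : ι → ℂ) (t : Finset ι) (M : ℝ) (hM : 0 ≤ M)
    (hc : ∀ i ∈ t, ‖c i‖ ≤ M) : ‖∑ i ∈ t, rk (v i) (c i)‖ ≤ M := by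
  apply ContinuousLinearMap.opNorm_le_bound _ hM
  intro g
  rw [ContinuousLinearMap.sum_apply]
  simp_rw [rk_apply]
  have h1 := hv.inner_sum (fun i => c i * inner ℂ (v i) g) (fun i => c i * inner ℂ (v i) g) t
  have h2 : ‖∑ i ∈ t, (c i * inner ℂ (v i) g) • v i‖ ^ 2 = ∑ i ∈ t, ‖c i * inner ℂ (v i) g‖ ^ 2 := by
    have h3 := inner_self_eq_norm_sq_to_K (𝕜 := ℂ) (∑ i ∈ t, (c i * inner ℂ (v i) g) • v i)
    rw [h1] at h3
    have h5 : ∀ a : ℂ, conj a * a = ((‖a‖ ^ 2 : ℝ) : ℂ) := by
      intro a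
      rw [mul_comm, Complex.mul_conj, Complex.normSq_eq_norm_sq]
    simp_rw [h5] at h3
    have h6 : ((∑ i ∈ t, ‖c i * inner ℂ (v i) g‖ ^ 2 : ℝ) : ℂ) =
        ((‖∑ i ∈ t, (c i * inner ℂ (v i) g) • v i‖ ^ 2 : ℝ) : ℂ) := by
      push_cast
      push_cast at h3
      exact h3
    exact (Complex.ofReal_injective h6).symm
  have h4 : ‖∑ i ∈ t, (c i * inner ℂ (v i) g) • v i‖ ^ 2 ≤ (M * ‖g‖) ^ 2 := by
    rw [h2, mul_pow]
    calc ∑ i ∈ t, ‖c i * inner ℂ (v i) g‖ ^ 2 ≤ ∑ i ∈ t, M ^ 2 * ‖inner ℂ (v i) g‖ ^ 2 := by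
          apply Finset.sum_le_sum
          intro i hi
          rw [norm_mul, mul_pow]
          have := hc i hi
          gcongr
      _ = M ^ 2 * ∑ i ∈ t, ‖inner ℂ (v i) g‖ ^ 2 := by rw [Finset.mul_sum]
      _ ≤ M ^ 2 * ‖g‖ ^ 2 := by
          have := hv.sum_inner_products_le (x := g) (s := t)
          gcongr
  exact (sq_le_sq₀ (norm_nonneg _) (by positivity)).mp h4

theorem diag_exists {v : ι → H} (hv : Orthonormal ℂ v) (c : ι → ℂ) (hc : Tendsto (fun i => ‖c i‖) cofinite (𝓝 0)) :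
    ∃ R : H →L[ℂ] H, IsCompactOperator R ∧ ∀ g, HasSum (fun i => (c i * inner ℂ (v i) g) • v i) (R g) := by
  have hs : Summable (fun i => rk (v i) (c i)) := by
    rw [summable_iff_vanishing_norm]
    intro ε hε
    have h1 : ∀ᶠ i in cofinite, ‖c i‖ < ε / 2 := hc.eventually (gt_mem_nhds (by linarith))
    rw [eventually_cofinite] at h1
    refine ⟨h1.toFinset, fun t ht => ?_⟩
    have := rk_sum_le hv c t (ε / 2) (by linarith) (fun i hi => by
      by_contra hcon
      have h2 : i ∈ h1.toFinset := by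
        rw [Set.Finite.mem_toFinset]
        intro h3
        exact hcon h3.le
      exact (Finset.disjoint_left.mp ht hi) h2)
    linarith
  refine ⟨∑' i, rk (v i) (c i), ?_, ?_⟩
  · apply isCompactOperator_of_tendsto hs.hasSum
    apply Filter.Eventually.of_forall
    intro s
    induction s using Finset.cons_induction with
    | empty => simpa using isCompactOperator_zero
    | cons a s ha ih =>
      rw [Finset.sum_cons]
      exact (rk_compact _ _).add ih
  · intro g
    have := hs.hasSum.mapL (ContinuousLinearMap.apply ℂ H g)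
    simp only [ContinuousLinearMap.apply_apply, rk_apply] at this
    exact this

theorem weak_eq {m : ι → H} (hd : ⊤ ≤ (Submodule.span ℂ (Set.range m)).topologicalClosure) {x y : H}
    (h : ∀ i, inner ℂ (m i) x = inner ℂ (m i) y) : x = y := by
  have h1 : (Submodule.span ℂ (Set.range m)).topologicalClosure ≤ (ℂ ∙ (x - y))ᗮ := by
    apply Submodule.topologicalClosure_minimal _ _ (Submodule.isClosed_orthogonal _)
    rw [Submodule.span_le]
    rintro _ ⟨i, rfl⟩
    rw [SetLike.mem_coe, Submodule.mem_orthogonal_singleton_iff_inner_left, inner_sub_right, h i, sub_self]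
  have h2 : (x - y) ∈ (ℂ ∙ (x - y))ᗮ := h1 (hd Submodule.mem_top)
  rw [Submodule.mem_orthogonal_singleton_iff_inner_right] at h2
  exact sub_eq_zero.mp (inner_self_eq_zero.mp h2)

theorem cr_pos (S : Submodule ℂ (H × H)) (m : ι → H) (hor : ∀ i j, i ≠ j → inner ℂ (m i) (m j) = 0)
    (hne : ∀ i, m i ≠ 0) (hd : ⊤ ≤ (Submodule.span ℂ (Set.range m)).topologicalClosure)
    (lam : ι → ℂ) (hlam0 : ∀ i, lam i ≠ 0) (hlam : Tendsto (fun i => ‖(lam i)⁻¹‖) cofinite (𝓝 0))
    (h1 : ∀ i, (m i, lam i • m i) ∈ S)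
    (h2 : ∀ f g, (f, g) ∈ S → ∀ i, inner ℂ (m i) g = lam i * inner ℂ (m i) f) :
    ∃ R : H →L[ℂ] H, IsCompactOperator R ∧ (∀ f, (R f, (0 : ℂ) • R f - f) ∈ closure (S : Set (H × H))) ∧
      ∀ f g, (f, g) ∈ closure (S : Set (H × H)) → R ((0 : ℂ) • f - g) = f := by
  set v : ι → H := fun i => ((‖m i‖⁻¹ : ℝ) : ℂ) • m i with hv
  have hn : ∀ i, ‖m i‖ ≠ 0 := fun i => norm_ne_zero_iff.mpr (hne i)
  have hvo : Orthonormal ℂ v := by
    constructor
    · intro i
      simp only [hv]
      rw [norm_smul, Complex.norm_real, norm_inv, norm_norm, inv_mul_cancel₀ (hn i)]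
    · intro i j hij
      simp only [hv]
      rw [inner_smul_left, inner_smul_right, hor i j hij, mul_zero, mul_zero]
  obtain ⟨R, hRc, hR⟩ := diag_exists hvo (fun i => (lam i)⁻¹) hlam
  have hA : ∀ g j, inner ℂ (m j) (R g) = (lam j)⁻¹ * inner ℂ (m j) g := by
    intro g j
    have k := (hR g).mapL (innerSL ℂ (m j))
    simp only [innerSL_apply_apply] at k
    have k2 : ∀ i, i ≠ j → inner ℂ (m j) (((lam i)⁻¹ * inner ℂ (v i) g) • v i) = 0 := by
      intro i hij
      simp only [hv]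
      rw [inner_smul_right, inner_smul_right, hor j i hij.symm, mul_zero, mul_zero]
    have k3 := k.unique (hasSum_single j k2)
    rw [k3]
    simp only [hv]
    have e5 : inner ℂ (m j) (m j) = ((‖m j‖ : ℝ) : ℂ) ^ 2 := inner_self_eq_norm_sq_to_K _
    rw [inner_smul_right, inner_smul_right, inner_smul_left, e5, Complex.conj_ofReal]
    have : ((‖m j‖ : ℝ) : ℂ) ≠ 0 := by exact_mod_cast hn j
    push_cast
    field_simp
  have hB : ∀ j, R (m j) = (lam j)⁻¹ • m j := by
    intro j
    apply weak_eq hd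
    intro i
    rw [hA, inner_smul_right]
    by_cases hij : i = j
    · rw [hij]
    · rw [hor i j hij, mul_zero, mul_zero]
  refine ⟨-R, hRc.neg, ?_, ?_⟩
  · intro f
    have k : ∀ h : H, (R h, h) ∈ S.topologicalClosure := by
      have k1 : (Submodule.span ℂ (Set.range m)).topologicalClosure ≤
          S.topologicalClosure.comap ((R.prod (ContinuousLinearMap.id ℂ H)) : H →ₗ[ℂ] H × H) := by
        apply Submodule.topologicalClosure_minimal
        · rw [Submodule.span_le]
          rintro _ ⟨i, rfl⟩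
          show (R (m i), m i) ∈ S.topologicalClosure
          apply S.le_topologicalClosure
          have k2 := S.smul_mem ((lam i)⁻¹) (h1 i)
          rw [Prod.smul_mk, smul_smul, inv_mul_cancel₀ (hlam0 i), one_smul] at k2
          rw [hB]
          exact k2
        · exact (S.isClosed_topologicalClosure).preimage (R.prod (ContinuousLinearMap.id ℂ H)).continuous
      intro h
      exact k1 (hd (Submodule.mem_top (x := h)))
    have k3 := S.topologicalClosure.neg_mem (k f)
    have e : ((-R) f, (0 : ℂ) • (-R) f - f) = -(R f, f) := by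
      rw [Prod.neg_mk, zero_smul, zero_sub]
      rfl
    rw [e]
    exact k3
  · intro f g hfg
    have hcl : IsClosed {p : H × H | R p.2 = p.1} :=
      isClosed_eq (R.continuous.comp continuous_snd) continuous_fst
    have hsub : (S : Set (H × H)) ⊆ {p : H × H | R p.2 = p.1} := by
      rintro ⟨f', g'⟩ hp
      show R g' = f'
      apply weak_eq hd
      intro i
      rw [hA, h2 f' g' hp i, ← mul_assoc, inv_mul_cancel₀ (hlam0 i), one_mul]
    have k : R g = f := closure_minimal hsub hcl hfg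
    rw [zero_smul, zero_sub, ContinuousLinearMap.neg_apply, map_neg, neg_neg, k]

theorem cr_neg (G : Set (H × H)) (m : ℕ → H) (hor : ∀ i j, i ≠ j → inner ℂ (m i) (m j) = 0)
    (hne : ∀ i, m i ≠ 0) (h0 : ∀ a, (m a, (0 : H)) ∈ G) (lam : ℂ) (R : H →L[ℂ] H) (hR : IsCompactOperator R)
    (hinv : ∀ f g, (f, g) ∈ closure G → R (lam • f - g) = f) : False := by
  set v : ℕ → H := fun i => ((‖m i‖⁻¹ : ℝ) : ℂ) • m i with hv
  have hn : ∀ i, ‖m i‖ ≠ 0 := fun i => norm_ne_zero_iff.mpr (hne i)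
  have hvo : Orthonormal ℂ v := by
    constructor
    · intro i
      simp only [hv]
      rw [norm_smul, Complex.norm_real, norm_inv, norm_norm, inv_mul_cancel₀ (hn i)]
    · intro i j hij
      simp only [hv]
      rw [inner_smul_left, inner_smul_right, hor i j hij, mul_zero, mul_zero]
  have hfix : ∀ a, R (lam • v a) = v a := by
    intro a
    have k := hinv (m a) 0 (subset_closure (h0 a))
    rw [sub_zero] at k
    simp only [hv]
    rw [smul_comm, map_smul, k]
  obtain ⟨K, hK, hKsub⟩ := hR.image_closedBall_subset_compact (𝕜₁ := ℂ) (f := (R : H →ₗ[ℂ] H)) ‖lam‖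
  have hvK : ∀ a, v a ∈ K := by
    intro a
    apply hKsub
    refine ⟨lam • v a, ?_, hfix a⟩
    rw [mem_closedBall_zero_iff, norm_smul, hvo.1 a, mul_one]
  obtain ⟨x, _, φ, hφ, hlim⟩ := hK.tendsto_subseq hvK
  have h1 : Tendsto (fun n => v (φ (n + 1)) - v (φ n)) atTop (𝓝 (x - x)) :=
    (hlim.comp (tendsto_add_atTop_nat 1)).sub hlim
  rw [sub_self] at h1
  have h2 := (h1.norm).pow 2
  have h3 : ∀ n, ‖v (φ (n + 1)) - v (φ n)‖ ^ 2 = 2 := by
    intro n
    have hne' : φ (n + 1) ≠ φ n := (hφ (Nat.lt_succ_self n)).ne'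
    rw [norm_sub_sq (𝕜 := ℂ), hvo.2 hne', hvo.1, hvo.1]
    norm_num
  simp only [h3] at h2
  have h4 := tendsto_nhds_unique h2 tendsto_const_nhds
  norm_num at h4

end Pool.Agent.H26.FK
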