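import Mathlib
import Pool.Agent.H26.FK1

set_option autoImplicit false
set_option linter.style.haveILetI false

open MeasureTheory Filter Topology
open scoped ComplexConjugate ENNReal

namespace Pool.Agent.H26.FK

theorem parseval_gen {H : Type*} [NormedAddCommGroup H] [InnerProductSpace ℂ H] {v : ℕ → H} (hv : Orthonormal ℂ v)
    {c : ℕ → ℂ} {u : H} (h : HasSum (fun k => c k • v k) u) : HasSum (fun k => ‖c k‖ ^ 2) (‖u‖ ^ 2) := by
  have h1 : ∀ j, inner ℂ (v j) u = c j := by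
    intro j
    have k := h.mapL (innerSL ℂ (v j))
    simp only [innerSL_apply_apply] at k
    have k2 : ∀ i, i ≠ j → inner ℂ (v j) (c i • v i) = 0 := by
      intro i hij
      rw [inner_smul_right, hv.2 hij.symm, mul_zero]
    have k3 := k.unique (hasSum_single j k2)
    rw [k3, inner_smul_right, inner_self_eq_norm_sq_to_K, hv.1 j]
    simp
  have k := h.mapL (innerSL ℂ u)
  simp only [innerSL_apply_apply] at k
  have h2 : ∀ i, inner ℂ u (c i • v i) = ((‖c i‖ ^ 2 : ℝ) : ℂ) := by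
    intro i
    rw [inner_smul_right, ← inner_conj_symm, h1, Complex.mul_conj, Complex.normSq_eq_norm_sq]
  simp_rw [h2] at k
  have h3 : inner ℂ u u = ((‖u‖ ^ 2 : ℝ) : ℂ) := by
    rw [inner_self_eq_norm_sq_to_K]
    push_cast
    rfl
  rw [h3] at k
  exact Complex.hasSum_ofReal.mp k

/-- the circle-valued coordinate on `AddCircle 1` -/
noncomputable def UU (x : AddCircle (1 : ℝ)) : Circle := AddCircle.toCircle x

theorem fourier_eq (k : ℕ) (x : AddCircle (1 : ℝ)) : fourier (k : ℤ) x = ((UU x : Circle) : ℂ) ^ k := by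
  rw [fourier_apply, natCast_zsmul, AddCircle.toCircle_nsmul]
  rfl

theorem UU_cont : Continuous UU := AddCircle.continuous_toCircle

theorem circle_parseval (N : ℕ) (c : ℕ → ℂ) (hc : Summable (fun k => ‖c k‖)) (f : AddCircle (1 : ℝ) → ℂ)
    (hf : ∀ x, HasSum (fun k => ((UU x : Circle) : ℂ) ^ (k + N) * c k) (f x)) :
    ∫⁻ x, ‖f x‖ₑ ^ 2 ∂(AddCircle.haarAddCircle) = ∑' k, ‖c k‖ₑ ^ 2 := by
  have hs : Summable (fun k : ℕ => c k • (fourier ((k + N : ℕ) : ℤ) : C(AddCircle (1 : ℝ), ℂ))) := by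
    apply Summable.of_norm_bounded hc
    intro k
    rw [norm_smul, fourier_norm, mul_one]
  set u : C(AddCircle (1 : ℝ), ℂ) := ∑' k : ℕ, c k • (fourier ((k + N : ℕ) : ℤ)) with hu
  have hux : ∀ x, u x = f x := by
    intro x
    have k1 := (ContinuousMap.hasSum_apply hs.hasSum x)
    have k2 : HasSum (fun k => ((UU x : Circle) : ℂ) ^ (k + N) * c k) (u x) := by
      refine k1.congr_fun ?_
      intro k
      rw [ContinuousMap.smul_apply, fourier_eq, smul_eq_mul, mul_comm]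
    exact k2.unique (hf x)
  have hL : HasSum (fun k : ℕ => c k • (fourierLp (T := (1 : ℝ)) 2 ((k + N : ℕ) : ℤ)))
      (ContinuousMap.toLp 2 AddCircle.haarAddCircle ℂ u) := by
    have := hs.hasSum.mapL (ContinuousMap.toLp 2 AddCircle.haarAddCircle ℂ)
    simp only [map_smul] at this
    exact this
  have hor : Orthonormal ℂ (fun k : ℕ => fourierLp (T := (1 : ℝ)) 2 ((k + N : ℕ) : ℤ)) := by
    apply (orthonormal_fourier (T := (1 : ℝ))).comp (fun k : ℕ => ((k + N : ℕ) : ℤ))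
    intro a b hab
    simp only [Nat.cast_inj] at hab
    omega
  have hP := parseval_gen hor hL
  have hn : ((‖ContinuousMap.toLp 2 AddCircle.haarAddCircle ℂ u‖ ^ 2 : ℝ) : ℂ) =
      ((∫ x, ‖f x‖ ^ 2 ∂(AddCircle.haarAddCircle) : ℝ) : ℂ) := by
    have k1 := ContinuousMap.inner_toLp (𝕜 := ℂ) (AddCircle.haarAddCircle (T := (1 : ℝ))) u u
    rw [inner_self_eq_norm_sq_to_K] at k1
    have k2 : ∀ x, u x * conj (u x) = ((‖f x‖ ^ 2 : ℝ) : ℂ) := by
      intro x
      rw [hux, Complex.mul_conj, Complex.normSq_eq_norm_sq]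
    simp_rw [k2] at k1
    rw [integral_complex_ofReal] at k1
    rw [← k1]
    push_cast
    rfl
  have hn2 := Complex.ofReal_injective hn
  rw [hn2] at hP
  have hfc : Continuous f := by
    have : f = u := funext (fun x => (hux x).symm)
    rw [this]; exact u.continuous
  have hfi : Integrable (fun x => ‖f x‖ ^ 2) (AddCircle.haarAddCircle (T := (1 : ℝ))) :=
    (hfc.norm.pow 2).integrable_of_hasCompactSupport (HasCompactSupport.of_compactSpace _)
  have e1 : ∫⁻ x, ‖f x‖ₑ ^ 2 ∂(AddCircle.haarAddCircle) =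
      ENNReal.ofReal (∫ x, ‖f x‖ ^ 2 ∂(AddCircle.haarAddCircle (T := (1 : ℝ)))) := by
    rw [ofReal_integral_eq_lintegral_ofReal hfi (ae_of_all _ (fun x => by positivity))]
    apply lintegral_congr
    intro x
    rw [ENNReal.ofReal_pow (norm_nonneg _), ofReal_norm]
  rw [e1, ← hP.tsum_eq, ENNReal.ofReal_tsum_of_nonneg (fun k => by positivity) hP.summable]
  congr 1
  funext k
  rw [ENNReal.ofReal_pow (norm_nonneg _), ofReal_norm]

theorem mu_rot (u : Circle) (g : (Fin 2 → ℂ) → ℝ≥0∞) (hg : Measurable g) :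
    ∫⁻ z, g ((u : ℂ) • z) ∂(mu 2) = ∫⁻ z, g z ∂(mu 2) := by
  have hg2 : Measurable (fun z : Fin 2 → ℂ => g ((u : ℂ) • z)) :=
    hg.comp ((continuous_const_smul (u : ℂ)).measurable)
  unfold mu
  rw [lintegral_withDensity_eq_lintegral_mul _ (dens_meas 2) hg2,
    lintegral_withDensity_eq_lintegral_mul _ (dens_meas 2) hg]
  have hmp : MeasurePreserving (fun z : Fin 2 → ℂ => fun i => (rotation u) (z i)) :=
    volume_preserving_pi (fun _ => LinearIsometryEquiv.measurePreserving (rotation u))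
  have h1 := hmp.lintegral_comp (f := fun z => ENNReal.ofReal (Real.exp (-∑ i, ‖z i‖ ^ 2)) * g z)
    ((dens_meas 2).mul hg)
  simp only [Pi.mul_apply]
  rw [← h1]
  apply lintegral_congr
  intro z
  have e : (fun i => (rotation u) (z i)) = (u : ℂ) • z := by
    funext i
    rfl
  rw [e]
  simp only [Pi.smul_apply, smul_eq_mul, norm_mul, Circle.norm_coe, one_mul]

instance : SFinite (mu 2) := by unfold mu; infer_instance

theorem mu_parseval (N : ℕ) (G : (Fin 2 → ℂ) → ℂ) (A : ℕ → (Fin 2 → ℂ) → ℂ) (hG : Continuous G)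
    (hA : ∀ k, Continuous (A k)) (hs : ∀ z (u : Circle), HasSum (fun k => (u : ℂ) ^ (k + N) * A k z) (G ((u : ℂ) • z))) :
    ∫⁻ z, ‖G z‖ₑ ^ 2 ∂(mu 2) = ∑' k, ∫⁻ z, ‖A k z‖ₑ ^ 2 ∂(mu 2) := by
  have h1 : ∀ z, Summable (fun k => ‖A k z‖) := by
    intro z
    have := (hs z 1).summable.norm
    simpa using this
  have h2 : ∀ z, ∫⁻ x, ‖G ((UU x : ℂ) • z)‖ₑ ^ 2 ∂(AddCircle.haarAddCircle) = ∑' k, ‖A k z‖ₑ ^ 2 := by
    intro z
    exact circle_parseval N (fun k => A k z) (h1 z) _ (fun x => hs z (UU x))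
  have hm : Measurable (fun p : AddCircle (1 : ℝ) × (Fin 2 → ℂ) => ‖G ((UU p.1 : ℂ) • p.2)‖ₑ ^ 2) := by
    apply Continuous.measurable
    have : Continuous (fun p : AddCircle (1 : ℝ) × (Fin 2 → ℂ) => G ((UU p.1 : ℂ) • p.2)) := by
      apply hG.comp
      have hU : Continuous (fun p : AddCircle (1 : ℝ) × (Fin 2 → ℂ) => (UU p.1 : ℂ)) :=
        by
        have h5 : Continuous (fun x : AddCircle (1 : ℝ) => (UU x : ℂ)) := by
          have := (fourier (T := (1 : ℝ)) ((1 : ℕ) : ℤ)).continuous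
          refine this.congr (fun x => ?_)
          rw [fourier_eq, pow_one]
        exact h5.comp continuous_fst
      exact hU.smul continuous_snd
    exact (ENNReal.continuous_pow 2).comp (continuous_enorm.comp this)
  calc ∫⁻ z, ‖G z‖ₑ ^ 2 ∂(mu 2) = ∫⁻ x : AddCircle (1 : ℝ), ∫⁻ z, ‖G z‖ₑ ^ 2 ∂(mu 2) ∂(AddCircle.haarAddCircle) := by
        rw [lintegral_const, measure_univ, mul_one]
    _ = ∫⁻ x : AddCircle (1 : ℝ), ∫⁻ z, ‖G ((UU x : ℂ) • z)‖ₑ ^ 2 ∂(mu 2) ∂(AddCircle.haarAddCircle) := by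
        apply lintegral_congr
        intro x
        exact (mu_rot (UU x) (fun z => ‖G z‖ₑ ^ 2) (hG.measurable.enorm.pow_const 2)).symm
    _ = ∫⁻ z, ∫⁻ x : AddCircle (1 : ℝ), ‖G ((UU x : ℂ) • z)‖ₑ ^ 2 ∂(AddCircle.haarAddCircle) ∂(mu 2) :=
        lintegral_lintegral_swap hm.aemeasurable
    _ = ∫⁻ z, ∑' k, ‖A k z‖ₑ ^ 2 ∂(mu 2) := by simp_rw [h2]
    _ = ∑' k, ∫⁻ z, ‖A k z‖ₑ ^ 2 ∂(mu 2) :=
        lintegral_tsum (fun k => ((hA k).measurable.enorm.pow_const 2).aemeasurable)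

/-- homogeneous expansion of an entire function -/
theorem homog (F : (Fin 2 → ℂ) → ℂ) (hF : AnalyticOnNhd ℂ F Set.univ) :
    ∃ p : FormalMultilinearSeries ℂ (Fin 2 → ℂ) ℂ, ∀ (z : Fin 2 → ℂ) (t : ℂ),
      HasSum (fun k => t ^ k * p k (fun _ => z)) (F (t • z)) := by
  obtain ⟨p, hp⟩ := hF 0 (Set.mem_univ _)
  refine ⟨p, fun z t => ?_⟩
  set l : ℂ →L[ℂ] (Fin 2 → ℂ) := ContinuousLinearMap.toSpanSingleton ℂ z with hl
  have hg : Differentiable ℂ (F ∘ l) := by
    have h1 : Differentiable ℂ F := fun x => (hF x (Set.mem_univ _)).differentiableAt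
    exact h1.comp l.differentiable
  have h1 := hg.hasFPowerSeriesOnBall 0 (R := 1) one_pos
  have h2 : HasFPowerSeriesAt (F ∘ l) (p.compContinuousLinearMap l) 0 := by
    apply HasFPowerSeriesAt.compContinuousLinearMap
    rw [map_zero]
    exact hp
  have h3 := h1.hasFPowerSeriesAt.eq_formalMultilinearSeries h2
  rw [h3] at h1
  have h4 := h1.hasSum (y := t) (by simp)
  rw [zero_add] at h4
  have e : (F ∘ l) t = F (t • z) := by
    rw [Function.comp_apply, hl, ContinuousLinearMap.toSpanSingleton_apply]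
  rw [e] at h4
  refine h4.congr_fun ?_
  intro k
  rw [FormalMultilinearSeries.compContinuousLinearMap_apply]
  have e2 : (⇑l ∘ fun _ : Fin k => t) = fun i : Fin k => t • z := by
    funext i
    rw [Function.comp_apply, hl, ContinuousLinearMap.toSpanSingleton_apply]
  rw [e2, ContinuousMultilinearMap.map_smul_univ, Finset.prod_const, Finset.card_univ, Fintype.card_fin, smul_eq_mul]

/-- functions represented in the span of the monomials -/
noncomputable def PW : Submodule ℂ ((Fin 2 → ℂ) → ℂ) where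
  carrier := {Q | ∃ q ∈ Submodule.span ℂ (Set.range mon), q =ᵐ[mu 2] Q}
  add_mem' := by
    rintro Q Q' ⟨q, hq, hqQ⟩ ⟨q', hq', hqQ'⟩
    exact ⟨q + q', add_mem hq hq', (Lp.coeFn_add q q').trans (hqQ.add hqQ')⟩
  zero_mem' := ⟨0, zero_mem _, Lp.coeFn_zero ℂ 2 (mu 2)⟩
  smul_mem' := by
    rintro c Q ⟨q, hq, hqQ⟩
    exact ⟨c • q, Submodule.smul_mem _ c hq, (Lp.coeFn_smul c q).trans (hqQ.const_smul c)⟩

theorem mono_PW (a b : ℕ) : (fun z : Fin 2 → ℂ => z 0 ^ a * z 1 ^ b) ∈ PW :=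
  ⟨mon (a, b), Submodule.subset_span ⟨_, rfl⟩, mon_ae (a, b)⟩

theorem prod_mono (n : ℕ) : ∀ r : Fin n → Fin 2, ∃ a b : ℕ, ∀ z : Fin 2 → ℂ, ∏ i, z (r i) = z 0 ^ a * z 1 ^ b := by
  induction n with
  | zero => exact fun r => ⟨0, 0, fun z => by simp⟩
  | succ n ih =>
    intro r
    obtain ⟨a, b, h⟩ := ih (fun i => r i.succ)
    have h01 : r 0 = 0 ∨ r 0 = 1 := by
      generalize r 0 = x
      fin_cases x <;> simp
    rcases h01 with h0 | h0
    · refine ⟨a + 1, b, fun z => ?_⟩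
      rw [Fin.prod_univ_succ, h, h0]; ring
    · refine ⟨a, b + 1, fun z => ?_⟩
      rw [Fin.prod_univ_succ, h, h0]; ring

theorem hom_PW (p : FormalMultilinearSeries ℂ (Fin 2 → ℂ) ℂ) (k : ℕ) : (fun z : Fin 2 → ℂ => p k (fun _ => z)) ∈ PW := by
  have e : (fun z : Fin 2 → ℂ => p k (fun _ => z)) =
      ∑ r : Fin k → Fin 2, (p k (fun i => Pi.single (r i) (1 : ℂ))) • (fun z : Fin 2 → ℂ => ∏ i, z (r i)) := by
    funext z
    have h1 : (fun _ : Fin k => z) = fun _ : Fin k => ∑ j : Fin 2, z j • (Pi.single j (1 : ℂ) : Fin 2 → ℂ) := by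
      funext _
      exact pi_eq_sum_univ' z
    rw [h1, ContinuousMultilinearMap.map_sum]
    rw [Finset.sum_apply]
    apply Finset.sum_congr rfl
    intro r _
    rw [ContinuousMultilinearMap.map_smul_univ, Pi.smul_apply, smul_eq_mul, smul_eq_mul, mul_comm]
  rw [e]
  apply Submodule.sum_mem
  intro r _
  apply Submodule.smul_mem
  obtain ⟨a, b, h⟩ := prod_mono k r
  have : (fun z : Fin 2 → ℂ => ∏ i, z (r i)) = fun z => z 0 ^ a * z 1 ^ b := funext h
  rw [this]
  exact mono_PW a b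

theorem dense_entire : entireL2 2 ≤ (Submodule.span ℂ (Set.range mon)).topologicalClosure := by
  unfold entireL2
  rw [Submodule.span_le]
  rintro f ⟨F, hF, hfF⟩
  obtain ⟨p, hp⟩ := homog F hF
  set A : ℕ → (Fin 2 → ℂ) → ℂ := fun k z => p k (fun _ => z) with hA
  have hAc : ∀ k, Continuous (A k) := by
    intro k
    exact (p k).cont.comp (continuous_pi (fun _ => continuous_id))
  have hFc : Continuous F := by
    rw [← continuousOn_univ]
    exact hF.continuousOn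
  -- remainders
  set G : ℕ → (Fin 2 → ℂ) → ℂ := fun N z => F z - ∑ i ∈ Finset.range N, A i z with hG
  have hGc : ∀ N, Continuous (G N) := by
    intro N
    exact hFc.sub (continuous_finset_sum _ (fun i _ => hAc i))
  have hhom : ∀ k (t : ℂ) z, A k (t • z) = t ^ k * A k z := by
    intro k t z
    simp only [hA]
    rw [ContinuousMultilinearMap.map_smul_univ, Finset.prod_const, Finset.card_univ, Fintype.card_fin, smul_eq_mul]
  have hGs : ∀ N z (u : Circle), HasSum (fun k => (u : ℂ) ^ (k + N) * A (k + N) z) (G N ((u : ℂ) • z)) := by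
    intro N z u
    have k1 := (hasSum_nat_add_iff' N).mpr (hp z (u : ℂ))
    have e : G N ((u : ℂ) • z) = F ((u : ℂ) • z) - ∑ i ∈ Finset.range N, (u : ℂ) ^ i * p i (fun _ => z) := by
      simp only [hG]
      congr 1
      apply Finset.sum_congr rfl
      intro i _
      rw [hhom]
    rw [e]
    exact k1
  have hpar : ∀ N, ∫⁻ z, ‖G N z‖ₑ ^ 2 ∂(mu 2) = ∑' k, ∫⁻ z, ‖A (k + N) z‖ₑ ^ 2 ∂(mu 2) := by
    intro N
    exact mu_parseval N (G N) (fun k => A (k + N)) (hGc N) (fun k => hAc _) (hGs N)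
  have hfin : ∑' k, ∫⁻ z, ‖A k z‖ₑ ^ 2 ∂(mu 2) ≠ ∞ := by
    have k1 := hpar 0
    simp only [hG, Finset.range_zero, Finset.sum_empty, sub_zero, add_zero] at k1
    rw [← k1]
    have hm : MemLp F 2 (mu 2) := (memLp_congr_ae hfF).mp (Lp.memLp f)
    have h2 := hm.eLpNorm_lt_top
    rw [eLpNorm_eq_lintegral_rpow_enorm_toReal (by norm_num) (by norm_num)] at h2
    have h3 : ∫⁻ z, ‖F z‖ₑ ^ (2 : ℝ≥0∞).toReal ∂(mu 2) < ∞ := by
      by_contra hcon
      rw [not_lt, top_le_iff] at hcon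
      rw [hcon] at h2
      norm_num at h2
    have e : ∫⁻ z, ‖F z‖ₑ ^ (2 : ℝ≥0∞).toReal ∂(mu 2) = ∫⁻ z, ‖F z‖ₑ ^ 2 ∂(mu 2) := by
      apply lintegral_congr
      intro z
      rw [ENNReal.toReal_ofNat, ENNReal.rpow_two]
    rw [e] at h3
    exact h3.ne
  have hlim : Tendsto (fun N => ∫⁻ z, ‖G N z‖ₑ ^ 2 ∂(mu 2)) atTop (𝓝 0) := by
    simp_rw [hpar]
    exact ENNReal.tendsto_sum_nat_add _ hfin
  -- approximants
  have hS : ∀ N, (∑ i ∈ Finset.range N, A i) ∈ PW := fun N => Submodule.sum_mem _ (fun i _ => hom_PW p i)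
  choose q hq hqA using hS
  apply mem_closure_of_tendsto (f := q) (b := atTop)
  · rw [Lp.tendsto_Lp_iff_tendsto_eLpNorm']
    have e : ∀ N, eLpNorm (⇑(q N) - ⇑f) 2 (mu 2) = (∫⁻ z, ‖G N z‖ₑ ^ 2 ∂(mu 2)) ^ (1 / 2 : ℝ) := by
      intro N
      rw [eLpNorm_eq_lintegral_rpow_enorm_toReal (by norm_num) (by norm_num), ENNReal.toReal_ofNat]
      congr 1
      apply lintegral_congr_ae
      filter_upwards [hqA N, hfF] with z h1 h2
      rw [Pi.sub_apply, h1, h2, ENNReal.rpow_two, Finset.sum_apply, ← enorm_neg, neg_sub]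
    simp_rw [e]
    have := (ENNReal.continuous_rpow_const (y := (1 / 2 : ℝ))).tendsto 0
    rw [ENNReal.zero_rpow_of_pos (by norm_num)] at this
    exact this.comp hlim
  · exact Filter.Eventually.of_forall (fun N => hq N)

end Pool.Agent.H26.FK
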