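import Mathlib
import Pool.Agent.H26.FK2
import Pool.Agent.H26.FK3

set_option autoImplicit false
set_option linter.style.haveILetI false

open MeasureTheory Filter Topology
open scoped ComplexConjugate ENNReal

namespace Pool.Agent.H26.FK

/-- the graph as a submodule -/
noncomputable def TS (φ : (Fin 2 → ℂ) → ℂ) : Submodule ℂ (BS 2 × BS 2) where
  carrier := toeplitzGraph 2 φ
  add_mem' := by
    rintro ⟨f, g⟩ ⟨f', g'⟩ ⟨h, h1, h2⟩ ⟨h', h1', h2'⟩
    refine ⟨h + h', ?_, ?_⟩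
    · have k := Lp.coeFn_add h h'
      have k2 := Lp.coeFn_add (f : Lp ℂ 2 (mu 2)) (f' : Lp ℂ 2 (mu 2))
      filter_upwards [k, k2, h1, h1'] with z a1 a2 a3 a4
      have e : (((f, g) + (f', g') : BS 2 × BS 2).1 : Lp ℂ 2 (mu 2)) = (f : Lp ℂ 2 (mu 2)) + (f' : Lp ℂ 2 (mu 2)) := rfl
      rw [e, a1, a2, Pi.add_apply, Pi.add_apply, a3, a4]
      ring
    · have e2 : g = (BS 2).orthogonalProjectionOnto h := h2
      have e3 : g' = (BS 2).orthogonalProjectionOnto h' := h2'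
      show g + g' = _
      rw [map_add, e2, e3]
  zero_mem' := by
    refine ⟨0, ?_, ?_⟩
    · have k := Lp.coeFn_zero ℂ 2 (mu 2)
      filter_upwards [k] with z a1
      have e : ((0 : BS 2 × BS 2).1 : Lp ℂ 2 (mu 2)) = 0 := rfl
      rw [e, a1]
      simp
    · rw [map_zero]; rfl
  smul_mem' := by
    rintro c ⟨f, g⟩ ⟨h, h1, h2⟩
    refine ⟨c • h, ?_, ?_⟩
    · have k := Lp.coeFn_smul c h
      have k2 := Lp.coeFn_smul c (f : Lp ℂ 2 (mu 2))
      filter_upwards [k, k2, h1] with z a1 a2 a3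
      have e : ((c • (f, g) : BS 2 × BS 2).1 : Lp ℂ 2 (mu 2)) = c • (f : Lp ℂ 2 (mu 2)) := rfl
      rw [e, a1, a2, Pi.smul_apply, Pi.smul_apply, a3, smul_eq_mul, smul_eq_mul]
      ring
    · have e2 : g = (BS 2).orthogonalProjectionOnto h := h2
      show c • g = _
      rw [map_smul, e2]

/-- monomials in the Bargmann-Segal space -/
noncomputable def mm (α : ℕ × ℕ) : BS 2 := ⟨mon α, mon_BS α⟩

theorem mm_inner (α β : ℕ × ℕ) : inner ℂ (mm α) (mm β) = if α = β then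
    ((Real.pi * α.1.factorial * (Real.pi * α.2.factorial) : ℝ) : ℂ) else 0 := mon_mon α β

theorem wpos (α : ℕ × ℕ) : 0 < Real.pi * (α.1.factorial : ℝ) * (Real.pi * α.2.factorial) := by
  have h1 : (0 : ℝ) < α.1.factorial := by exact_mod_cast α.1.factorial_pos
  have h2 : (0 : ℝ) < α.2.factorial := by exact_mod_cast α.2.factorial_pos
  have := Real.pi_pos
  positivity

theorem mm_ne (α : ℕ × ℕ) : mm α ≠ 0 := by
  intro h
  have h1 := mm_inner α α
  rw [if_pos rfl, h, inner_zero_left] at h1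
  have h2 := wpos α
  have h3 : (Real.pi * (α.1.factorial : ℝ) * (Real.pi * α.2.factorial)) = 0 := by
    exact_mod_cast h1.symm
  linarith

theorem mm_dense : ⊤ ≤ (Submodule.span ℂ (Set.range mm)).topologicalClosure := by
  intro x _
  have h1 : BS 2 ≤ (Submodule.span ℂ (Set.range mon)).topologicalClosure :=
    (entireL2 2).topologicalClosure_minimal dense_entire (Submodule.isClosed_topologicalClosure _)
  have h2 : (x : Lp ℂ 2 (mu 2)) ∈ closure ((Submodule.span ℂ (Set.range mon) : Submodule ℂ (Lp ℂ 2 (mu 2))) : Set (Lp ℂ 2 (mu 2))) :=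
    h1 x.2
  have h3 : (Submodule.span ℂ (Set.range mm)).map (BS 2).subtype = Submodule.span ℂ (Set.range mon) := by
    rw [Submodule.map_span, ← Set.range_comp]
    rfl
  show x ∈ closure ((Submodule.span ℂ (Set.range mm) : Submodule ℂ (BS 2)) : Set (BS 2))
  rw [closure_subtype]
  rw [← h3] at h2
  exact h2

theorem P_eq (h : Lp ℂ 2 (mu 2)) (x : BS 2) (hx : ∀ β, inner ℂ (mon β) h = inner ℂ (mm β) x) :
    x = (BS 2).orthogonalProjectionOnto h := by
  apply weak_eq mm_dense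
  intro β
  rw [Submodule.inner_orthogonalProjectionOnto_eq_of_mem_left, ← hx β]
  rfl

noncomputable def lamv (α : ℕ × ℕ) : ℂ := (((α.1 + 1 : ℝ) * (α.2 + 1) : ℝ) : ℂ)

theorem lamv_pos (α : ℕ × ℕ) : (0 : ℝ) < (α.1 + 1 : ℝ) * (α.2 + 1) := by positivity

theorem lamv_ne (α : ℕ × ℕ) : lamv α ≠ 0 := by
  unfold lamv
  exact_mod_cast (lamv_pos α).ne'

theorem lamv_tendsto : Tendsto (fun α => ‖(lamv α)⁻¹‖) cofinite (𝓝 0) := by
  have h1 : Tendsto (fun α : ℕ × ℕ => (α.1 + 1 : ℝ) * (α.2 + 1)) cofinite atTop := by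
    rw [tendsto_atTop]
    intro B
    rw [eventually_cofinite]
    obtain ⟨K, hK⟩ := exists_nat_gt B
    apply ((Set.finite_lt_nat K).prod (Set.finite_lt_nat K)).subset
    rintro ⟨a, b⟩ hab
    simp only [Set.mem_setOf_eq, not_le] at hab
    have h2 : (0 : ℝ) ≤ a := Nat.cast_nonneg a
    have h3 : (0 : ℝ) ≤ b := Nat.cast_nonneg b
    refine ⟨?_, ?_⟩
    · show a < K
      have : (a : ℝ) < K := by nlinarith
      exact_mod_cast this
    · show b < K
      have : (b : ℝ) < K := by nlinarith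
      exact_mod_cast this
  have h2 := tendsto_inv_atTop_zero.comp h1
  refine h2.congr (fun α => ?_)
  unfold lamv
  rw [norm_inv, Complex.norm_real, Real.norm_eq_abs, abs_of_pos (lamv_pos α)]
  rfl

theorem graph_psi (φ : (Fin 2 → ℂ) → ℂ) (hφ : ∀ z, φ z = ((‖z 0‖ ^ 2 * ‖z 1‖ ^ 2 : ℝ) : ℂ)) (α : ℕ × ℕ) :
    (mm α, lamv α • mm α) ∈ TS φ := by
  refine ⟨EE α.1 α.2 0 1 0 1, ?_, ?_⟩
  · have k1 := (E_mem α.1 α.2 0 1 0 1).coeFn_toLp
    filter_upwards [k1, mon_ae α] with z a1 a2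
    have e : (((mm α, lamv α • mm α) : BS 2 × BS 2).1 : Lp ℂ 2 (mu 2)) = mon α := rfl
    have e2 : EE α.1 α.2 0 1 0 1 z = f1 α.1 0 1 (z 0) * f1 α.2 0 1 (z 1) := a1
    rw [e, a2, hφ, e2]
    unfold f1
    push_cast
    ring
  · apply P_eq
    intro β
    have e4 : inner ℂ (mm β) (((mm α, lamv α • mm α) : BS 2 × BS 2).2) = lamv α * inner ℂ (mm β) (mm α) :=
      inner_smul_right (𝕜 := ℂ) (E := BS 2) (mm β) (mm α) (lamv α)
    rw [e4, mon_inner, mm_inner]
    obtain ⟨a, b⟩ := α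
    split_ifs with h
    · rw [h]
      unfold lamv
      simp only
      rw [← Complex.ofReal_mul]
      congr 1
      rw [Nat.factorial_succ, Nat.factorial_succ]
      push_cast
      ring
    · rw [mul_zero]

theorem graph_weak (φ : (Fin 2 → ℂ) → ℂ) (hφ : ∀ z, φ z = ((‖z 0‖ ^ 2 * ‖z 1‖ ^ 2 : ℝ) : ℂ)) (f g : BS 2)
    (hfg : (f, g) ∈ TS φ) (α : ℕ × ℕ) : inner ℂ (mm α) g = lamv α * inner ℂ (mm α) f := by
  obtain ⟨h, h1, h2⟩ := hfg
  have e2 : g = (BS 2).orthogonalProjectionOnto h := h2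
  obtain ⟨h', h1', h2'⟩ := graph_psi φ hφ α
  have e2' : lamv α • mm α = (BS 2).orthogonalProjectionOnto h' := h2'
  rw [e2, Submodule.inner_orthogonalProjectionOnto_eq_of_mem_left]
  have k1 : inner ℂ ((mm α : BS 2) : Lp ℂ 2 (mu 2)) h = inner ℂ h' (f : Lp ℂ 2 (mu 2)) := by
    rw [L2.inner_def, L2.inner_def]
    apply integral_congr_ae
    filter_upwards [h1, h1'] with z a1 a2
    rw [a1, a2, hφ]
    simp only [RCLike.inner_apply, map_mul, Complex.conj_ofReal]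
    ring
  have k2 : inner ℂ h' (f : Lp ℂ 2 (mu 2)) = inner ℂ ((BS 2).orthogonalProjectionOnto h') f :=
    (Submodule.inner_orthogonalProjectionOnto_eq_of_mem_right f h').symm
  rw [k1, k2, ← e2', inner_smul_left]
  congr 1
  unfold lamv
  exact Complex.conj_ofReal _

theorem pos_part (φ : (Fin 2 → ℂ) → ℂ) (hφ : ∀ z, φ z = ((‖z 0‖ ^ 2 * ‖z 1‖ ^ 2 : ℝ) : ℂ)) :
    HasCompactResolvent 2 φ := by
  obtain ⟨R, h1, h2, h3⟩ := cr_pos (TS φ) mm
    (fun i j hij => by rw [mm_inner, if_neg hij]) mm_ne mm_dense lamv lamv_ne lamv_tendsto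
    (graph_psi φ hφ) (graph_weak φ hφ)
  exact ⟨0, R, h1, h2, h3⟩

theorem neg_part (φ : (Fin 2 → ℂ) → ℂ) (hφ : ∀ z, φ z = (((‖z 0‖ ^ 2 - 1) * (‖z 1‖ ^ 2 - 1) : ℝ) : ℂ)) :
    ¬ HasCompactResolvent 2 φ := by
  rintro ⟨lam, R, h1, -, h3⟩
  apply cr_neg (toeplitzGraph 2 φ) (fun a : ℕ => mm (a, 0)) _ (fun a => mm_ne _) _ lam R h1 h3
  · intro i j hij
    rw [mm_inner, if_neg]
    intro h
    exact hij (Prod.mk.inj h).1
  · intro a
    refine ⟨EE a 0 (-1) 1 (-1) 1, ?_, ?_⟩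
    · have k1 := (E_mem a 0 (-1) 1 (-1) 1).coeFn_toLp
      filter_upwards [k1, mon_ae (a, 0)] with z a1 a2
      have e : (((mm (a, 0), 0) : BS 2 × BS 2).1 : Lp ℂ 2 (mu 2)) = mon (a, 0) := rfl
      have e2 : EE a 0 (-1) 1 (-1) 1 z = f1 a (-1) 1 (z 0) * f1 0 (-1) 1 (z 1) := a1
      rw [e, a2, hφ, e2]
      unfold f1
      push_cast
      ring
    · apply P_eq
      intro β
      rw [mon_inner, inner_zero_right]
      split_ifs with h
      · norm_num
      · rfl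

end Pool.Agent.H26.FK
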