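import Mathlib

set_option autoImplicit false
set_option linter.style.haveILetI false

open Matrix

namespace Pool.Agent.H26.LO

variable {I : Type} [Fintype I] [DecidableEq I]

theorem quad_expand (A : Matrix I I ℝ) (hA : A.IsHermitian) (y : I → ℝ) :
    ∑ i, ∑ j, A i j * y i * y j = ∑ k, hA.eigenvalues k * (∑ i, hA.eigenvectorBasis k i * y i) ^ 2 := by
  have hsym : ∀ i j, A i j = A j i := by
    intro i j
    have := hA.apply i j
    simpa using this.symm
  let Y : EuclideanSpace ℝ I := WithLp.toLp 2 y
  let AY : EuclideanSpace ℝ I := WithLp.toLp 2 (A *ᵥ y)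
  have h1 := hA.eigenvectorBasis.sum_inner_mul_inner Y AY
  have h2 : inner ℝ Y AY = ∑ i, ∑ j, A i j * y i * y j := by
    simp only [Y, AY, PiLp.inner_apply, RCLike.inner_apply, conj_trivial, Matrix.mulVec, dotProduct]
    apply Finset.sum_congr rfl
    intro i _
    rw [Finset.sum_mul]
    apply Finset.sum_congr rfl
    intro j _
    ring
  have h3 : ∀ k, inner ℝ Y (hA.eigenvectorBasis k) = ∑ i, hA.eigenvectorBasis k i * y i := by
    intro k
    simp only [Y, PiLp.inner_apply, RCLike.inner_apply, conj_trivial]
  have h4 : ∀ k, inner ℝ (hA.eigenvectorBasis k) AY = hA.eigenvalues k * ∑ i, hA.eigenvectorBasis k i * y i := by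
    intro k
    simp only [AY, PiLp.inner_apply, RCLike.inner_apply, conj_trivial, Matrix.mulVec, dotProduct]
    have h5 := hA.mulVec_eigenvectorBasis k
    calc ∑ x, (∑ j, A x j * y j) * hA.eigenvectorBasis k x
        = ∑ j, (∑ x, A j x * hA.eigenvectorBasis k x) * y j := by
          simp only [Finset.sum_mul]
          rw [Finset.sum_comm]
          apply Finset.sum_congr rfl
          intro i _
          apply Finset.sum_congr rfl
          intro j _
          rw [hsym i j]; ring
      _ = ∑ j, (hA.eigenvalues k * hA.eigenvectorBasis k j) * y j := by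
          apply Finset.sum_congr rfl
          intro j _
          have h6 := congrFun h5 j
          simp only [Matrix.mulVec, dotProduct, Pi.smul_apply, smul_eq_mul] at h6
          rw [h6]
      _ = hA.eigenvalues k * ∑ i, hA.eigenvectorBasis k i * y i := by
          rw [Finset.mul_sum]
          apply Finset.sum_congr rfl
          intro j _
          ring
  rw [h2] at h1
  rw [← h1]
  apply Finset.sum_congr rfl
  intro k _
  rw [h3, h4]; ring

theorem norm_eig (A : Matrix I I ℝ) (hA : A.IsHermitian) (k : I) : ∑ i, (hA.eigenvectorBasis k i) ^ 2 = 1 := by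
  have h1 := hA.eigenvectorBasis.orthonormal.1 k
  have h2 := EuclideanSpace.real_norm_sq_eq (hA.eigenvectorBasis k)
  rw [h1] at h2
  rw [← h2]; norm_num

theorem rayleigh (K : I → I → ℝ) (hsym : ∀ i j, K i j = K j i) (hK : ∀ i j, 0 ≤ K i j)
    (v : I → ℝ) (hv : ∀ i, 0 < v i)
    (hconn : ∀ i j, (∃ k, 0 < K i k) → (∃ k, 0 < K j k) → 0 < K i j ∨ ∃ k, 0 < K i k ∧ 0 < K k j)
    (h1 : ∀ z : I → ℝ, ∑ i, ∑ j, K i j * z i * z j ≤
      ∑ i, v i / (∑ j, K i j * v j) * (∑ j, K i j * z j) ^ 2)
    (x : I → ℝ) (hx : ∑ i, (∑ j, K i j * v j) * x i = 0) : ∑ i, ∑ j, K i j * x i * x j ≤ 0 := by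
  set g : I → ℝ := fun i => ∑ j, K i j * v j with hg
  have hg0 : ∀ i, 0 ≤ g i := fun i => Finset.sum_nonneg (fun j _ => mul_nonneg (hK i j) (hv j).le)
  have hgz : ∀ i, g i = 0 → ∀ j, K i j = 0 := by
    intro i hi j
    have := (Finset.sum_eq_zero_iff_of_nonneg (fun j _ => mul_nonneg (hK i j) (hv j).le)).mp hi j (Finset.mem_univ _)
    rcases mul_eq_zero.mp this with h | h
    · exact h
    · exact absurd h (hv j).ne'
  set s : I → ℝ := fun i => √(g i / v i) with hs
  have hs2 : ∀ i, s i ^ 2 = g i / v i := fun i => Real.sq_sqrt (div_nonneg (hg0 i) (hv i).le)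
  have hsz : ∀ i, s i = 0 → ∀ j, K i j = 0 := by
    intro i hi
    apply hgz
    have h2 := hs2 i
    rw [hi] at h2
    have h3 := (hv i).ne'
    field_simp at h2
    linarith
  set A : Matrix I I ℝ := Matrix.of (fun i j => K i j / (s i * s j)) with hAdef
  have hKA : ∀ i j, K i j = s i * A i j * s j := by
    intro i j
    simp only [hAdef, Matrix.of_apply]
    rcases eq_or_ne (s i) 0 with h | h
    · rw [hsz i h j]; simp
    rcases eq_or_ne (s j) 0 with h' | h'
    · rw [hsym, hsz j h' i]; simp
    · field_simp
  have hA : A.IsHermitian := by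
    apply Matrix.IsHermitian.ext
    intro i j
    simp only [hAdef, Matrix.of_apply, star_trivial]
    rw [hsym, mul_comm]
  have hquad : ∑ i, ∑ j, K i j * x i * x j = ∑ i, ∑ j, A i j * (s i * x i) * (s j * x j) := by
    apply Finset.sum_congr rfl
    intro i _
    apply Finset.sum_congr rfl
    intro j _
    rw [hKA i j]; ring
  rw [hquad, quad_expand A hA (fun i => s i * x i)]
  apply Finset.sum_nonpos
  intro k _
  set μ := hA.eigenvalues k with hμ
  rcases le_or_gt μ 0 with hμ0 | hμ0
  · exact mul_nonpos_of_nonpos_of_nonneg hμ0 (sq_nonneg _)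
  have key : ∑ i, hA.eigenvectorBasis k i * (s i * x i) = 0 := by
    set u : I → ℝ := fun i => hA.eigenvectorBasis k i with hu
    have hnorm : ∑ i, u i ^ 2 = 1 := norm_eig A hA k
    have hAu : ∀ i, ∑ j, A i j * u j = μ * u i := by
      intro i
      have h6 := congrFun (hA.mulVec_eigenvectorBasis k) i
      simp only [Matrix.mulVec, dotProduct, Pi.smul_apply, smul_eq_mul] at h6
      exact h6
    have hAz : ∀ i, s i = 0 → ∀ j, A i j = 0 := by
      intro i hi j
      simp only [hAdef, Matrix.of_apply, hi]; simp
    have hAz' : ∀ j, s j = 0 → ∀ i, A i j = 0 := by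
      intro i hi j
      simp only [hAdef, Matrix.of_apply, hi]; simp
    have hu0 : ∀ i, s i = 0 → u i = 0 := by
      intro i hi
      have h2 := hAu i
      rw [Finset.sum_eq_zero (fun j _ => by rw [hAz i hi j, zero_mul])] at h2
      exact (mul_eq_zero.mp h2.symm).resolve_left hμ0.ne'
    set z : I → ℝ := fun i => u i / s i with hz
    have hzu : ∀ i, s i * z i = u i := by
      intro i
      simp only [hz]
      rcases eq_or_ne (s i) 0 with h | h
      · rw [hu0 i h]; simp
      · field_simp
    have hKz : ∀ i, ∑ j, K i j * z j = s i * (μ * u i) := by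
      intro i
      rw [← hAu i, Finset.mul_sum]
      apply Finset.sum_congr rfl
      intro j _
      rw [hKA i j, ← hzu j]; ring
    have hKzz : ∑ i, ∑ j, K i j * z i * z j = μ := by
      calc ∑ i, ∑ j, K i j * z i * z j = ∑ i, z i * ∑ j, K i j * z j := by
            apply Finset.sum_congr rfl
            intro i _
            rw [Finset.mul_sum]
            apply Finset.sum_congr rfl
            intro j _
            ring
        _ = ∑ i, μ * u i ^ 2 := by
            apply Finset.sum_congr rfl
            intro i _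
            rw [hKz i]
            calc z i * (s i * (μ * u i)) = (s i * z i) * (μ * u i) := by ring
              _ = μ * u i ^ 2 := by rw [hzu i]; ring
        _ = μ := by rw [← Finset.mul_sum, hnorm, mul_one]
    -- step 1
    have hμ1 : 1 ≤ μ := by
      have h2 := h1 z
      rw [hKzz] at h2
      have h3 : ∑ i, v i / g i * (∑ j, K i j * z j) ^ 2 = μ ^ 2 := by
        calc ∑ i, v i / g i * (∑ j, K i j * z j) ^ 2 = ∑ i, μ ^ 2 * u i ^ 2 := by
              apply Finset.sum_congr rfl
              intro i _
              rw [hKz i]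
              rcases eq_or_ne (s i) 0 with h | h
              · rw [hu0 i h]; simp
              · have h4 : g i / v i ≠ 0 := by rw [← hs2 i]; positivity
                have h5 : g i ≠ 0 := by
                  intro h; apply h4; rw [h, zero_div]
                have h6 := (hv i).ne'
                rw [mul_pow, hs2 i]
                field_simp
          _ = μ ^ 2 := by rw [← Finset.mul_sum, hnorm, mul_one]
      rw [h3] at h2
      nlinarith
    -- step 2
    have hdiff : ∑ i, ∑ j, K i j * v i * v j * (z i / v i - z j / v j) ^ 2 = 2 - 2 * μ := by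
      have e1 : ∀ i j, K i j * v i * v j * (z i / v i - z j / v j) ^ 2 =
          K i j * v j * (z i ^ 2 / v i) + K j i * v i * (z j ^ 2 / v j) - 2 * (K i j * z i * z j) := by
        intro i j
        rw [hsym j i]
        have := (hv i).ne'
        have := (hv j).ne'
        field_simp
        ring
      simp only [e1, Finset.sum_sub_distrib, Finset.sum_add_distrib]
      have e2 : ∑ i, ∑ j, K i j * v j * (z i ^ 2 / v i) = 1 := by
        rw [← hnorm]
        apply Finset.sum_congr rfl
        intro i _
        rw [← Finset.sum_mul]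
        show g i * (z i ^ 2 / v i) = u i ^ 2
        rw [← hzu i, mul_pow, hs2 i]
        ring
      have e3 : ∑ i, ∑ j, K j i * v i * (z j ^ 2 / v j) = 1 := by
        rw [Finset.sum_comm]; exact e2
      rw [e2, e3]
      simp only [← Finset.mul_sum]
      rw [hKzz]; ring
    have hterm : ∀ i j, 0 ≤ K i j * v i * v j * (z i / v i - z j / v j) ^ 2 := by
      intro i j
      have := hK i j
      have := (hv i).le
      have := (hv j).le
      positivity
    have hμeq : μ = 1 := by
      have : 0 ≤ ∑ i, ∑ j, K i j * v i * v j * (z i / v i - z j / v j) ^ 2 :=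
        Finset.sum_nonneg (fun i _ => Finset.sum_nonneg (fun j _ => hterm i j))
      linarith
    rw [hμeq] at hdiff
    have hzero : ∀ i j, K i j * v i * v j * (z i / v i - z j / v j) ^ 2 = 0 := by
      intro i j
      have h2 : ∑ i, ∑ j, K i j * v i * v j * (z i / v i - z j / v j) ^ 2 = 0 := by rw [hdiff]; norm_num
      have h3 := (Finset.sum_eq_zero_iff_of_nonneg (fun i _ => Finset.sum_nonneg (fun j _ => hterm i j))).mp h2 i
        (Finset.mem_univ _)
      exact (Finset.sum_eq_zero_iff_of_nonneg (fun j _ => hterm i j)).mp h3 j (Finset.mem_univ _)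
    have hadj : ∀ i j, 0 < K i j → z i / v i = z j / v j := by
      intro i j hij
      have h2 := hzero i j
      have h3 : K i j * v i * v j ≠ 0 := by
        have := (hv i)
        have := (hv j)
        positivity
      have h4 := (mul_eq_zero.mp h2).resolve_left h3
      have h5 := pow_eq_zero_iff (two_ne_zero) |>.mp h4
      linarith
    have hnl : ∀ i, s i ≠ 0 → ∃ k, 0 < K i k := by
      intro i hi
      by_contra hcon
      push Not at hcon
      apply hi
      have : g i = 0 := Finset.sum_eq_zero (fun j _ => by rw [le_antisymm (hcon j) (hK i j), zero_mul])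
      simp only [hs, this, zero_div, Real.sqrt_zero]
    have hconst : ∀ i j, s i ≠ 0 → s j ≠ 0 → z i / v i = z j / v j := by
      intro i j hi hj
      rcases hconn i j (hnl i hi) (hnl j hj) with h | ⟨k, hk1, hk2⟩
      · exact hadj i j h
      · exact (hadj i k hk1).trans (hadj k j hk2)
    obtain ⟨c, hc⟩ : ∃ c, ∀ i, u i = c * (s i * v i) := by
      by_cases hex : ∃ i, s i ≠ 0
      · obtain ⟨i0, hi0⟩ := hex
        refine ⟨z i0 / v i0, fun i => ?_⟩
        rcases eq_or_ne (s i) 0 with h | h
        · rw [hu0 i h, h]; ring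
        · rw [← hzu i, hconst i0 i hi0 h]
          have := (hv i).ne'
          field_simp
      · push Not at hex
        exact ⟨0, fun i => by rw [hu0 i (hex i)]; ring⟩
    calc ∑ i, u i * (s i * x i) = ∑ i, c * (g i * x i) := by
          apply Finset.sum_congr rfl
          intro i _
          rw [hc i]
          have h2 := hs2 i
          have h3 : g i = s i ^ 2 * v i := by
            rw [h2]
            have := (hv i).ne'
            field_simp
          rw [h3]; ring
      _ = 0 := by rw [← Finset.mul_sum, hx, mul_zero]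
  rw [key]
  simp

/-- reverse Cauchy–Schwarz from a hyperplane on which the form is nonpositive -/
theorem rcs_of_hyper (K : I → I → ℝ) (hsym : ∀ i j, K i j = K j i) (g : I → ℝ)
    (h : ∀ x : I → ℝ, ∑ i, g i * x i = 0 → ∑ i, ∑ j, K i j * x i * x j ≤ 0)
    (y z : I → ℝ) (hy : 0 < ∑ i, ∑ j, K i j * y i * y j) :
    (∑ i, ∑ j, K i j * y i * y j) * (∑ i, ∑ j, K i j * z i * z j) ≤ (∑ i, ∑ j, K i j * y i * z j) ^ 2 := by
  have hgy : ∑ i, g i * y i ≠ 0 := by
    intro h0
    exact absurd (h y h0) (not_le.mpr hy)
  set c := (∑ i, g i * z i) / (∑ i, g i * y i) with hc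
  have h1 : ∑ i, g i * (z i - c * y i) = 0 := by
    have : ∑ i, g i * (z i - c * y i) = ∑ i, g i * z i - c * ∑ i, g i * y i := by
      rw [Finset.mul_sum, ← Finset.sum_sub_distrib]
      apply Finset.sum_congr rfl
      intro i _
      ring
    rw [this, hc, div_mul_cancel₀ _ hgy, sub_self]
  have h2 := h _ h1
  have h3 : ∑ i, ∑ j, K i j * (z i - c * y i) * (z j - c * y j) =
      ∑ i, ∑ j, K i j * z i * z j - 2 * c * ∑ i, ∑ j, K i j * y i * z j + c ^ 2 * ∑ i, ∑ j, K i j * y i * y j := by
    have e1 : ∑ i, ∑ j, K i j * z i * y j = ∑ i, ∑ j, K i j * y i * z j := by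
      rw [Finset.sum_comm]
      apply Finset.sum_congr rfl
      intro i _
      apply Finset.sum_congr rfl
      intro j _
      rw [hsym]; ring
    have e2 : ∀ i j, K i j * (z i - c * y i) * (z j - c * y j) =
        K i j * z i * z j - c * (K i j * z i * y j) - c * (K i j * y i * z j) + c ^ 2 * (K i j * y i * y j) := by
      intro i j; ring
    simp only [e2, Finset.sum_add_distrib, Finset.sum_sub_distrib, ← Finset.mul_sum]
    rw [e1]; ring
  rw [h3] at h2
  set P := ∑ i, ∑ j, K i j * y i * y j
  set Q := ∑ i, ∑ j, K i j * z i * z j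
  set Rr := ∑ i, ∑ j, K i j * y i * z j
  nlinarith [sq_nonneg (Rr - c * P), mul_le_mul_of_nonneg_left h2 hy.le]

end Pool.Agent.H26.LO
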