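import Mathlib
import Pool.Agent.H26.LO1

set_option autoImplicit false
set_option linter.style.haveILetI false
set_option linter.unusedSectionVars false

open Filter Topology

namespace Pool.Agent.H26.LO

variable {I : Type} [Fintype I] [DecidableEq I]

/-- unit vector -/
abbrev ee (i : I) : I → ℕ := Pi.single i 1

def MConv (J : Set (I → ℕ)) : Prop :=
  ∀ (a b : I → ℕ) (i : I), a + ee i ∈ J → b ∈ J → b i ≤ a i → ∃ j, a j < b j ∧ a + ee j ∈ J

def con (J : Set (I → ℕ)) (i : I) : Set (I → ℕ) := {a | a + ee i ∈ J}

def Homog (J : Set (I → ℕ)) (s : ℕ) : Prop := ∀ a ∈ J, ∑ i, a i = s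

theorem con_comm (J : Set (I → ℕ)) (i j : I) : con (con J i) j = con (con J j) i := by
  ext a
  simp only [con, Set.mem_ofPred_eq]
  rw [add_right_comm]

theorem con_mconv (J : Set (I → ℕ)) (hJ : MConv J) (i : I) : MConv (con J i) := by
  intro a b k ha hb hk
  simp only [con, Set.mem_ofPred_eq] at ha hb ⊢
  obtain ⟨j, hj1, hj2⟩ := hJ (a + ee i) (b + ee i) k (by rw [add_right_comm]; exact ha) hb (by
    rw [Pi.add_apply, Pi.add_apply]; omega)
  refine ⟨j, ?_, ?_⟩
  · rw [Pi.add_apply, Pi.add_apply] at hj1; omega
  · rw [add_right_comm]; exact hj2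

theorem sum_ee (a : I → ℕ) (i : I) : ∑ j, (a + ee i) j = ∑ j, a j + 1 := by
  simp [Finset.sum_add_distrib]

theorem con_homog (J : Set (I → ℕ)) (s : ℕ) (hJ : Homog J (s + 1)) (i : I) : Homog (con J i) s := by
  intro a ha
  have := hJ _ ha
  rw [sum_ee] at this
  omega

open Classical in
noncomputable def Phi : Set (I → ℕ) → List (I → ℝ) → ℝ
  | J, [] => if (0 : I → ℕ) ∈ J then 1 else 0
  | J, v :: vs => ∑ i, v i * Phi (con J i) vs

theorem Phi_cons (J : Set (I → ℕ)) (v : I → ℝ) (vs : List (I → ℝ)) :
    Phi J (v :: vs) = ∑ i, v i * Phi (con J i) vs := rfl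

theorem Phi_swap (J : Set (I → ℕ)) (u v : I → ℝ) (vs : List (I → ℝ)) :
    Phi J (u :: v :: vs) = Phi J (v :: u :: vs) := by
  simp only [Phi_cons, Finset.mul_sum]
  rw [Finset.sum_comm]
  apply Finset.sum_congr rfl
  intro i _
  apply Finset.sum_congr rfl
  intro j _
  rw [con_comm]; ring

theorem Phi_tail (J : Set (I → ℕ)) (u : I → ℝ) (l1 l2 : List (I → ℝ)) (h : ∀ J, Phi J l1 = Phi J l2) :
    Phi J (u :: l1) = Phi J (u :: l2) := by
  simp only [Phi_cons, h]

theorem Phi_perm (l1 l2 : List (I → ℝ)) (h : l1.Perm l2) : ∀ J : Set (I → ℕ), Phi J l1 = Phi J l2 := by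
  induction h with
  | nil => intro J; rfl
  | cons x _ ih => intro J; exact Phi_tail J x _ _ ih
  | swap x y l => intro J; exact Phi_swap J y x l
  | trans _ _ ih1 ih2 => intro J; exact (ih1 J).trans (ih2 J)

theorem con_empty (i : I) : con (∅ : Set (I → ℕ)) i = ∅ := by
  ext a; simp [con]

theorem Phi_empty (vs : List (I → ℝ)) : Phi (∅ : Set (I → ℕ)) vs = 0 := by
  induction vs with
  | nil => simp [Phi]
  | cons v vs ih =>
    rw [Phi_cons]
    apply Finset.sum_eq_zero
    intro i _
    rw [con_empty, ih, mul_zero]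

theorem Phi_nonneg (vs : List (I → ℝ)) (h : ∀ v ∈ vs, ∀ i, 0 ≤ v i) : ∀ J : Set (I → ℕ), 0 ≤ Phi J vs := by
  induction vs with
  | nil => intro J; simp only [Phi]; split_ifs <;> norm_num
  | cons v vs ih =>
    intro J
    rw [Phi_cons]
    apply Finset.sum_nonneg
    intro i _
    exact mul_nonneg (h v (by simp) i) (ih (fun w hw => h w (by simp [hw])) _)

theorem Phi_pos (vs : List (I → ℝ)) (h : ∀ v ∈ vs, ∀ i, 0 < v i) :
    ∀ J : Set (I → ℕ), Homog J vs.length → J.Nonempty → 0 < Phi J vs := by
  induction vs with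
  | nil =>
    intro J hJ ⟨a, ha⟩
    have h1 := hJ a ha
    have h2 : a = 0 := by
      funext i
      simp only [List.length_nil] at h1
      exact (Finset.sum_eq_zero_iff.mp h1) i (Finset.mem_univ _)
    rw [h2] at ha
    simp only [Phi]
    rw [if_pos ha]; norm_num
  | cons v vs ih =>
    intro J hJ ⟨a, ha⟩
    rw [Phi_cons]
    have h1 := hJ a ha
    rw [List.length_cons] at h1
    obtain ⟨i, hi⟩ : ∃ i, a i ≠ 0 := by
      by_contra hcon
      push Not at hcon
      rw [Finset.sum_eq_zero (fun i _ => hcon i)] at h1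
      omega
    have h2 : (con J i).Nonempty := by
      refine ⟨a - ee i, ?_⟩
      show a - ee i + ee i ∈ J
      have : a - ee i + ee i = a := by
        funext j
        rw [Pi.add_apply, Pi.sub_apply]
        by_cases hj : j = i
        · subst hj; simp [ee]; omega
        · simp [ee, Pi.single_eq_of_ne hj]
      rw [this]; exact ha
    have h3 := ih (fun w hw => h w (by simp [hw])) (con J i) (con_homog J _ hJ i) h2
    apply Finset.sum_pos'
    · intro j _
      exact mul_nonneg (h v (by simp) j).le (Phi_nonneg vs (fun w hw k => (h w (by simp [hw]) k).le) _)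
    · exact ⟨i, Finset.mem_univ _, mul_pos (h v (by simp) i) h3⟩

/-- nonadjacency among nonloops is transitive -/
theorem NA (J : Set (I → ℕ)) (s : ℕ) (hM : MConv J) (hH : Homog J s) (i j k : I)
    (hik : (con (con J i) k).Nonempty) (hj : (con J j).Nonempty) :
    (con (con J j) i).Nonempty ∨ (con (con J j) k).Nonempty := by
  obtain ⟨a0, ha0⟩ := hik
  have haJ : a0 + ee k + ee i ∈ J := ha0
  set a : I → ℕ := a0 + ee k + ee i with ha
  suffices H : ∀ (N : ℕ) (b : I → ℕ), b + ee j ∈ J → ∑ l, (b l - a l) = N →
      (con (con J j) i).Nonempty ∨ (con (con J j) k).Nonempty by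
    obtain ⟨b, hb⟩ := hj
    exact H _ b hb rfl
  have hdec : ∀ (b : I → ℕ) (l : I), b l ≠ 0 → b = (b - ee l) + ee l := by
    intro b l hl
    funext x
    rw [Pi.add_apply, Pi.sub_apply]
    by_cases hx : x = l
    · subst hx; simp [ee]; omega
    · simp [ee, Pi.single_eq_of_ne hx]
  intro N
  induction N using Nat.strong_induction_on with
  | _ N ih =>
    intro b hb hN
    by_cases hbi : b i = 0
    swap
    · left
      refine ⟨b - ee i, ?_⟩
      show b - ee i + ee i + ee j ∈ J
      rw [← hdec b i hbi]; exact hb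
    by_cases hbk : b k = 0
    swap
    · right
      refine ⟨b - ee k, ?_⟩
      show b - ee k + ee k + ee j ∈ J
      rw [← hdec b k hbk]; exact hb
    have h1 : ∃ l, a l < b l := by
      by_contra hcon
      push Not at hcon
      have h2 : ∀ l, b l ≤ a0 l := by
        intro l
        have h3 := hcon l
        rw [ha, Pi.add_apply, Pi.add_apply] at h3
        by_cases hli : l = i
        · subst hli; omega
        by_cases hlk : l = k
        · subst hlk; omega
        rw [ee, ee, Pi.single_eq_of_ne hli, Pi.single_eq_of_ne hlk] at h3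
        omega
      have h3 : ∑ l, b l ≤ ∑ l, a0 l := Finset.sum_le_sum (fun l _ => h2 l)
      have h4 := hH _ hb
      have h5 := hH _ haJ
      rw [sum_ee] at h4
      rw [ha, sum_ee, sum_ee] at h5
      omega
    obtain ⟨l, hl⟩ := h1
    set b1 := b - ee l with hb1
    have hb1' : b = b1 + ee l := hdec b l (by omega)
    have hbl : b l = b1 l + 1 := by
      have := congrFun hb1' l
      rw [Pi.add_apply, ee, Pi.single_eq_same] at this
      exact this
    have h2 : (b1 + ee j) + ee l ∈ J := by
      rw [add_right_comm, ← hb1']; exact hb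
    obtain ⟨m, hm1, hm2⟩ := hM (b1 + ee j) a l h2 haJ (by rw [Pi.add_apply]; omega)
    have hm1' : b1 m < a m := by rw [Pi.add_apply] at hm1; omega
    apply ih (∑ x, ((b1 + ee m) x - a x)) _ (b1 + ee m) (by rw [add_right_comm]; exact hm2) rfl
    rw [← hN]
    have hml : m ≠ l := by
      rintro rfl
      omega
    apply Finset.sum_lt_sum
    · intro x _
      by_cases hxm : x = m
      · subst hxm
        rw [Pi.add_apply, ee, Pi.single_eq_same]; omega
      · rw [Pi.add_apply, ee, Pi.single_eq_of_ne hxm, hb1', Pi.add_apply]; omega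
    · refine ⟨l, Finset.mem_univ _, ?_⟩
      rw [Pi.add_apply, ee, Pi.single_eq_of_ne hml.symm]; omega

def RCS (J : Set (I → ℕ)) (vs : List (I → ℝ)) : Prop :=
  ∀ y z : I → ℝ, 0 < Phi J (y :: y :: vs) →
    Phi J (y :: y :: vs) * Phi J (z :: z :: vs) ≤ Phi J (y :: z :: vs) ^ 2

theorem Phi_two (J : Set (I → ℕ)) (vs : List (I → ℝ)) (y z : I → ℝ) :
    Phi J (y :: z :: vs) = ∑ i, ∑ j, Phi (con (con J i) j) vs * y i * z j := by
  rw [Phi_cons]
  apply Finset.sum_congr rfl
  intro i _
  rw [Phi_cons, Finset.mul_sum]
  apply Finset.sum_congr rfl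
  intro j _
  ring

open Classical in
theorem rel_nonneg (R : I → I → Prop) (hs : ∀ i j, R i j → R j i) (ht : ∀ i j k, R i j → R j k → R i k)
    (x : I → ℝ) : 0 ≤ ∑ i, ∑ j, (if R i j then (1 : ℝ) else 0) * x i * x j := by
  set deg : I → ℝ := fun k => ∑ i, if R i k then (1 : ℝ) else 0 with hdeg
  have hkey : ∀ i j, (if R i j then (1 : ℝ) else 0) =
      ∑ k, (1 / deg k) * (if R i k then (1 : ℝ) else 0) * (if R j k then 1 else 0) := by
    intro i j
    by_cases hij : R i j
    · rw [if_pos hij]
      have h1 : ∀ k, (1 / deg k) * (if R i k then (1 : ℝ) else 0) * (if R j k then 1 else 0) =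
          (1 / deg i) * (if R k i then 1 else 0) := by
        intro k
        by_cases hik : R i k
        · have hjk : R j k := ht _ _ _ (hs _ _ hij) hik
          have hd : deg k = deg i := by
            simp only [hdeg]
            apply Finset.sum_congr rfl
            intro l _
            congr 1
            rw [eq_iff_iff]
            exact ⟨fun h => ht _ _ _ h (hs _ _ hik), fun h => ht _ _ _ h hik⟩
          rw [if_pos hik, if_pos hjk, if_pos (hs _ _ hik), hd]; ring
        · rw [if_neg hik, if_neg (fun h => hik (hs _ _ h))]; ring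
      simp only [h1]
      rw [← Finset.mul_sum]
      have h2 : 0 < deg i := by
        simp only [hdeg]
        apply Finset.sum_pos'
        · intro l _; split_ifs <;> norm_num
        · exact ⟨i, Finset.mem_univ _, by rw [if_pos (ht _ _ _ hij (hs _ _ hij))]; norm_num⟩
      show 1 = 1 / deg i * deg i
      field_simp
    · rw [if_neg hij]
      symm
      apply Finset.sum_eq_zero
      intro k _
      by_cases hik : R i k
      · have : ¬ R j k := fun h => hij (ht _ _ _ hik (hs _ _ h))
        rw [if_neg this, mul_zero]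
      · rw [if_neg hik]; ring
  have h3 : ∑ i, ∑ j, (if R i j then (1 : ℝ) else 0) * x i * x j =
      ∑ k, (1 / deg k) * (∑ i, (if R i k then (1 : ℝ) else 0) * x i) ^ 2 := by
    have h4 : ∀ k, (1 / deg k) * (∑ i, (if R i k then (1 : ℝ) else 0) * x i) ^ 2 =
        ∑ i, ∑ j, ((1 / deg k) * (if R i k then (1 : ℝ) else 0) * (if R j k then 1 else 0)) * x i * x j := by
      intro k
      rw [sq, Finset.sum_mul_sum, Finset.mul_sum]
      apply Finset.sum_congr rfl
      intro i _
      rw [Finset.mul_sum]
      apply Finset.sum_congr rfl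
      intro j _
      ring
    simp only [h4]
    symm
    rw [Finset.sum_comm]
    apply Finset.sum_congr rfl
    intro i _
    rw [Finset.sum_comm]
    apply Finset.sum_congr rfl
    intro j _
    rw [hkey i j, Finset.sum_mul, Finset.sum_mul]
  rw [h3]
  apply Finset.sum_nonneg
  intro k _
  apply mul_nonneg
  · apply div_nonneg zero_le_one
    apply Finset.sum_nonneg
    intro l _
    split_ifs <;> norm_num
  · positivity

theorem CT_base (J : Set (I → ℕ)) (hM : MConv J) (hH : Homog J 2) : RCS J [] := by
  classical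
  intro y z hy
  rw [Phi_two] at hy
  rw [Phi_two, Phi_two, Phi_two]
  set K : I → I → ℝ := fun i j => Phi (con (con J i) j) [] with hK
  have hsym : ∀ i j, K i j = K j i := by
    intro i j; simp only [hK]; rw [con_comm]
  have hH1 : ∀ i, Homog (con J i) 1 := fun i => con_homog J 1 hH i
  have hH0 : ∀ i j, Homog (con (con J i) j) 0 := fun i j => con_homog _ 0 (hH1 i) j
  set g : I → ℝ := fun i => if (con J i).Nonempty then 1 else 0 with hg
  obtain ⟨R, hR⟩ : ∃ R : I → I → Prop, ∀ i j, R i j ↔
      ((con J i).Nonempty ∧ (con J j).Nonempty ∧ ¬ (con (con J i) j).Nonempty) := ⟨_, fun _ _ => Iff.rfl⟩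
  have hKval : ∀ i j, K i j = if (con (con J i) j).Nonempty then 1 else 0 := by
    intro i j
    split_ifs with h
    · obtain ⟨a, ha⟩ := h
      have h1 := hH0 i j a ha
      have h2 : a = 0 := by
        funext l
        exact (Finset.sum_eq_zero_iff.mp h1) l (Finset.mem_univ _)
      rw [h2] at ha
      simp only [hK, Phi]
      rw [if_pos ha]
    · rw [Set.not_nonempty_iff_eq_empty] at h
      simp only [hK]
      rw [h, Phi_empty]
  have hKR : ∀ i j, K i j = g i * g j - (if R i j then 1 else 0) := by
    intro i j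
    rw [hKval]
    simp only [hg, hR]
    by_cases h1 : (con J i).Nonempty
    · by_cases h2 : (con J j).Nonempty
      · by_cases h3 : (con (con J i) j).Nonempty
        · simp [h1, h2, h3]
        · simp [h1, h2, h3]
      · have h3 : ¬ (con (con J i) j).Nonempty := by
          rintro ⟨a, ha⟩
          apply h2
          refine ⟨a + ee i, ?_⟩
          show a + ee i + ee j ∈ J
          rw [add_right_comm]; exact ha
        simp [h2, h3]
    · have h3 : ¬ (con (con J i) j).Nonempty := by
        rintro ⟨a, ha⟩
        exact h1 ⟨a + ee j, ha⟩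
      simp [h1, h3]
  apply rcs_of_hyper K hsym g _ y z hy
  intro x hx
  have h1 : ∑ i, ∑ j, K i j * x i * x j = (∑ i, g i * x i) ^ 2 -
      ∑ i, ∑ j, (if R i j then (1 : ℝ) else 0) * x i * x j := by
    rw [sq, Finset.sum_mul_sum, ← Finset.sum_sub_distrib]
    apply Finset.sum_congr rfl
    intro i _
    rw [← Finset.sum_sub_distrib]
    apply Finset.sum_congr rfl
    intro j _
    rw [hKR i j]; ring
  rw [h1, hx]
  have h2 := rel_nonneg R (fun i j h => by
      rw [hR] at h ⊢
      exact ⟨h.2.1, h.1, by rw [con_comm]; exact h.2.2⟩)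
    (fun i j k hij hjk => by
      rw [hR] at hij hjk ⊢
      refine ⟨hij.1, hjk.2.1, fun hne => ?_⟩
      rcases NA J 2 hM hH i j k hne hij.2.1 with h | h
      · rw [con_comm] at h; exact hij.2.2 h
      · exact hjk.2.2 h) x
  linarith

theorem CT (r : ℕ) : ∀ (J : Set (I → ℕ)) (_ : MConv J) (_ : Homog J (r + 2)) (vs : List (I → ℝ))
    (_ : vs.length = r) (_ : ∀ v ∈ vs, ∀ i, 0 < v i), RCS J vs := by
  induction r with
  | zero =>
    intro J hM hH vs hlen _
    rw [List.length_eq_zero_iff] at hlen
    subst hlen
    exact CT_base J hM hH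
  | succ r ih =>
    intro J hM hH vs hlen hpos
    obtain ⟨v, vs', rfl⟩ : ∃ v vs', vs = v :: vs' := by
      cases vs with
      | nil => simp at hlen
      | cons v vs' => exact ⟨v, vs', rfl⟩
    rw [List.length_cons] at hlen
    have hlen' : vs'.length = r := by omega
    have hv : ∀ i, 0 < v i := hpos v (by simp)
    have hpos' : ∀ w ∈ vs', ∀ i, 0 < w i := fun w hw => hpos w (by simp [hw])
    intro y z hy
    rw [Phi_two] at hy
    rw [Phi_two, Phi_two, Phi_two]
    set K : I → I → ℝ := fun i j => Phi (con (con J i) j) (v :: vs') with hK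
    have hsym : ∀ i j, K i j = K j i := by
      intro i j; simp only [hK]; rw [con_comm]
    have hK0 : ∀ i j, 0 ≤ K i j := fun i j => Phi_nonneg _ (fun w hw k => (hpos w hw k).le) _
    have hH1 : ∀ i, Homog (con J i) (r + 2) := fun i => con_homog J (r + 2) hH i
    have hH2 : ∀ i j, Homog (con (con J i) j) (r + 1) := fun i j => con_homog _ (r + 1) (hH1 i) j
    have hKpos : ∀ i j, (con (con J i) j).Nonempty → 0 < K i j := by
      intro i j h
      apply Phi_pos _ hpos _ _ h
      rw [List.length_cons, hlen']
      exact hH2 i j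
    have hKne : ∀ i j, 0 < K i j → (con (con J i) j).Nonempty := by
      intro i j h
      by_contra hcon
      rw [Set.not_nonempty_iff_eq_empty] at hcon
      simp only [hK] at h
      rw [hcon, Phi_empty] at h
      exact lt_irrefl _ h
    have hrow : ∀ (i : I) (x : I → ℝ), ∑ j, K i j * x j = Phi (con J i) (v :: x :: vs') := by
      intro i x
      rw [Phi_swap, Phi_cons]
      apply Finset.sum_congr rfl
      intro j _
      rw [mul_comm]
    apply rcs_of_hyper K hsym (fun i => ∑ j, K i j * v j) _ y z hy
    intro x hx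
    apply rayleigh K hsym hK0 v hv _ _ x hx
    · rintro i j ⟨k, hk⟩ ⟨l, hl⟩
      have h1 := hKne i k hk
      have h2 : (con J j).Nonempty := by
        obtain ⟨a, ha⟩ := hKne j l hl
        exact ⟨a + ee l, ha⟩
      rcases NA J _ hM hH i j k h1 h2 with h | h
      · left
        rw [hsym]
        exact hKpos j i h
      · right
        refine ⟨k, hk, ?_⟩
        rw [hsym]
        exact hKpos j k h
    · intro w
      have h1 : ∑ i, ∑ j, K i j * w i * w j = ∑ i, v i * Phi (con J i) (w :: w :: vs') := by
        rw [← Phi_two, ← Phi_cons]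
        exact Phi_perm _ _ (by
          calc (w :: w :: v :: vs').Perm (w :: v :: w :: vs') := (List.Perm.swap _ _ _).cons _
            _ |>.Perm (v :: w :: w :: vs') := List.Perm.swap _ _ _) J
      rw [h1]
      apply Finset.sum_le_sum
      intro i _
      rw [hrow i v, hrow i w]
      have hIH := ih (con J i) (con_mconv J hM i) (hH1 i) vs' hlen' hpos' v w
      rcases (Phi_nonneg (v :: v :: vs') (fun u hu k => by
          have : u = v ∨ u ∈ vs' := by simpa using hu
          rcases this with h | h
          · rw [h]; exact (hv k).le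
          · exact (hpos' u h k).le) (con J i)).eq_or_lt with h | h
      · have hemp : con J i = ∅ := by
          by_contra hne
          rw [← Set.not_nonempty_iff_eq_empty, not_not] at hne
          have := Phi_pos (v :: v :: vs') (fun u hu k => by
            have : u = v ∨ u ∈ vs' := by simpa using hu
            rcases this with h | h
            · rw [h]; exact hv k
            · exact hpos' u h k) (con J i) (by
              rw [List.length_cons, List.length_cons, hlen']; exact hH1 i) hne
          rw [← h] at this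
          exact lt_irrefl _ this
        rw [← h, hemp, Phi_empty]; simp
      · have h2 := hIH h
        have h3 : Phi (con J i) (w :: w :: vs') ≤ Phi (con J i) (v :: w :: vs') ^ 2 / Phi (con J i) (v :: v :: vs') := by
          rw [le_div_iff₀ h]
          linarith
        calc v i * Phi (con J i) (w :: w :: vs') ≤
            v i * (Phi (con J i) (v :: w :: vs') ^ 2 / Phi (con J i) (v :: v :: vs')) := by
              have := (hv i).le
              gcongr
          _ = _ := by ring

end Pool.Agent.H26.LO
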