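import Mathlib
import Pool.Agent.H26.LO2

set_option autoImplicit false
set_option linter.style.haveILetI false
set_option linter.unusedSectionVars false

open Filter Topology

namespace Pool.Agent.H26.LO

variable {I : Type} [Fintype I] [DecidableEq I]

def sh (ε : ℝ) (v : I → ℝ) : I → ℝ := fun i => v i + ε

theorem Phi_cont (vs : List (I → ℝ)) : ∀ J : Set (I → ℕ),
    Continuous (fun ε : ℝ => Phi J (vs.map (sh ε))) := by
  induction vs with
  | nil => intro J; simp only [List.map_nil]; exact continuous_const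
  | cons v vs ih =>
    intro J
    simp only [List.map_cons, Phi_cons]
    apply continuous_finsetSum
    intro i _
    exact (continuous_const.add continuous_id).mul (ih (con J i))

theorem CTa (J : Set (I → ℕ)) (hM : MConv J) (vs ws : List (I → ℝ)) (hH : Homog J (vs.length + 2))
   (hlen : ws.length = vs.length) (hpos : ∀ v ∈ ws, ∀ i, 0 < v i) : RCS J ws := by
  exact CT vs.length J hM hH ws hlen hpos

theorem CTb (J : Set (I → ℕ)) (hM : MConv J) (vs : List (I → ℝ)) (hH : Homog J (vs.length + 2))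
    (hnn : ∀ v ∈ vs, ∀ i, 0 ≤ v i) (ε : ℝ) (h2 : 0 < ε) : RCS J (vs.map (sh ε)) := by
  have hlen : (vs.map (sh ε)).length = vs.length := List.length_map _
  refine CTa J hM vs (vs.map (sh ε)) hH hlen ?_
  intro v hv i
  rw [List.mem_map] at hv
  obtain ⟨w, hw, rfl⟩ := hv
  have := hnn w hw i
  show 0 < w i + ε
  linarith

noncomputable def qq (J : Set (I → ℕ)) (vs : List (I → ℝ)) (y z : I → ℝ) (ε : ℝ) : ℝ :=
  Phi J (y :: z :: vs.map (sh ε))

theorem qq_zero (J : Set (I → ℕ)) (vs : List (I → ℝ)) (y z : I → ℝ) : qq J vs y z 0 = Phi J (y :: z :: vs) := by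
  unfold qq
  have : vs.map (sh 0) = vs := by
    conv_rhs => rw [← List.map_id vs]
    apply List.map_congr_left
    intro v _
    funext i
    simp [sh]
  rw [this]

theorem qq_cont (J : Set (I → ℕ)) (vs : List (I → ℝ)) (y z : I → ℝ) : Continuous (qq J vs y z) := by
  have : qq J vs y z = fun ε => ∑ i, ∑ j, Phi (con (con J i) j) (vs.map (sh ε)) * y i * z j := by
    funext ε
    unfold qq
    rw [Phi_two]
  rw [this]
  apply continuous_finsetSum
  intro i _
  apply continuous_finsetSum
  intro j _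
  exact ((Phi_cont vs _).mul continuous_const).mul continuous_const

theorem CT' (J : Set (I → ℕ)) (hM : MConv J) (vs : List (I → ℝ)) (hH : Homog J (vs.length + 2))
    (hnn : ∀ v ∈ vs, ∀ i, 0 ≤ v i) : RCS J vs := by
  intro y z hy
  rw [← qq_zero] at hy
  rw [← qq_zero, ← qq_zero, ← qq_zero]
  have hpos : ∀ᶠ ε in 𝓝[>] (0 : ℝ), 0 < qq J vs y y ε := by
    have h1 : Tendsto (qq J vs y y) (𝓝[>] 0) (𝓝 (qq J vs y y 0)) :=
      (qq_cont J vs y y).continuousAt.tendsto.mono_left nhdsWithin_le_nhds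
    exact h1.eventually (lt_mem_nhds hy)
  have hev : ∀ᶠ ε in 𝓝[>] (0 : ℝ), qq J vs y y ε * qq J vs z z ε ≤ qq J vs y z ε ^ 2 := by
    filter_upwards [hpos, self_mem_nhdsWithin] with ε h1 h2
    exact CTb J hM vs hH hnn ε h2 y z h1
  have h1 : Tendsto (fun ε => qq J vs y y ε * qq J vs z z ε) (𝓝[>] 0) (𝓝 (qq J vs y y 0 * qq J vs z z 0)) :=
    ((qq_cont J vs y y).mul (qq_cont J vs z z)).continuousAt.tendsto.mono_left nhdsWithin_le_nhds
  have h2 : Tendsto (fun ε => qq J vs y z ε ^ 2) (𝓝[>] 0) (𝓝 (qq J vs y z 0 ^ 2)) :=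
    ((qq_cont J vs y z).pow 2).continuousAt.tendsto.mono_left nhdsWithin_le_nhds
  exact le_of_tendsto_of_tendsto h1 h2 hev

def addO (J : Set (I → ℕ)) (O : Set I) : Set (I → ℕ) := {f | ∃ g ∈ J, ∃ o ∈ O, f = g + ee o}

theorem sub_ee (a : I → ℕ) (i : I) (h : a i ≠ 0) : a = (a - ee i) + ee i := by
  funext x
  rw [Pi.add_apply, Pi.sub_apply]
  by_cases hx : x = i
  · subst hx; simp [ee]; omega
  · simp [ee, Pi.single_eq_of_ne hx]

theorem star (J : Set (I → ℕ)) (hJ : MConv J) (O : Set I) (a h : I → ℕ) (p : I) (ha : a ∈ J) (hh : h ∈ J)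
    (hp : p ∈ O) : ∃ j, a j < (h + ee p) j ∧ a + ee j ∈ addO J O := by
  by_cases hlt : a p < (h + ee p) p
  · exact ⟨p, hlt, a, ha, p, hp, rfl⟩
  · rw [Pi.add_apply, ee, Pi.single_eq_same] at hlt
    have ha1 := sub_ee a p (by omega)
    set a' := a - ee p with ha'
    have hap : a p = a' p + 1 := by
      have := congrFun ha1 p
      rw [Pi.add_apply, ee, Pi.single_eq_same] at this
      exact this
    obtain ⟨l, hl1, hl2⟩ := hJ a' h p (by rw [← ha1]; exact ha) hh (by omega)
    have hlp : l ≠ p := by rintro rfl; omega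
    refine ⟨l, ?_, a' + ee l, hl2, p, hp, ?_⟩
    · have := congrFun ha1 l
      rw [Pi.add_apply, ee, Pi.single_eq_of_ne hlp] at this
      rw [Pi.add_apply]; omega
    · rw [add_right_comm, ← ha1]

theorem add_mconv (J : Set (I → ℕ)) (hJ : MConv J) (O : Set I) : MConv (addO J O) := by
  rintro a b i ⟨g, hg, o, ho, hgo⟩ ⟨h, hh, p, hp, rfl⟩ hi
  by_cases hio : i = o
  · subst hio
    have : a = g := add_right_cancel hgo
    subst this
    exact star J hJ O a h p hg hh hp
  · have h1 := congrFun hgo i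
    rw [Pi.add_apply, Pi.add_apply, ee, Pi.single_eq_same, ee, Pi.single_eq_of_ne hio] at h1
    have hg1 := sub_ee g i (by omega)
    set g' := g - ee i with hg'
    have hagg : a = g' + ee o := by
      rw [hg1, add_right_comm] at hgo
      exact add_right_cancel hgo
    have hai : a i = g' i := by
      rw [hagg, Pi.add_apply, ee, Pi.single_eq_of_ne hio, add_zero]
    obtain ⟨j, hj1, hj2⟩ := hJ g' h i (by rw [← hg1]; exact hg) hh (by
      rw [Pi.add_apply] at hi; omega)
    by_cases hjo : j = o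
    · subst hjo
      rw [← hagg] at hj2
      exact star J hJ O a h p hj2 hh hp
    · refine ⟨j, ?_, g' + ee j, hj2, o, ho, ?_⟩
      · rw [hagg, Pi.add_apply, Pi.add_apply, ee, Pi.single_eq_of_ne hjo]; omega
      · rw [hagg, add_right_comm]

theorem Phi_single (J : Set (I → ℕ)) (i : I) (vs : List (I → ℝ)) :
    Phi J (Pi.single i 1 :: vs) = Phi (con J i) vs := by
  rw [Phi_cons, Finset.sum_eq_single i]
  · rw [Pi.single_eq_same, one_mul]
  · intro j _ hj
    rw [Pi.single_eq_of_ne hj, zero_mul]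
  · intro h; exact absurd (Finset.mem_univ _) h

theorem Phi_pair (J : Set (I → ℕ)) (i j : I) (vs : List (I → ℝ)) :
    Phi J ((Pi.single i 1 + Pi.single j 1) :: vs) = Phi (con J i) vs + Phi (con J j) vs := by
  rw [← Phi_single J i, ← Phi_single J j, Phi_cons, Phi_cons, Phi_cons, ← Finset.sum_add_distrib]
  apply Finset.sum_congr rfl
  intro l _
  rw [Pi.add_apply, add_mul]

def conM (J : Set (I → ℕ)) (f : I → ℕ) : Set (I → ℕ) := {a | a + f ∈ J}

theorem con_conM (J : Set (I → ℕ)) (f : I → ℕ) (i : I) : con (conM J f) i = conM J (ee i + f) := by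
  ext a
  show a + ee i + f ∈ J ↔ a + (ee i + f) ∈ J
  rw [add_assoc]

open Classical in
theorem Phi_units (J : Set (I → ℕ)) (L : List I) : ∀ f : I → ℕ,
    Phi (conM J f) (L.map (fun i => Pi.single i 1)) = if (L.map ee).sum + f ∈ J then 1 else 0 := by
  induction L with
  | nil =>
    intro f
    simp only [List.map_nil, Phi, List.sum_nil]
    rfl
  | cons i L ih =>
    intro f
    rw [List.map_cons, Phi_single, con_conM, ih, List.map_cons, List.sum_cons]
    have : (L.map ee).sum + (ee i + f) = ee i + (L.map ee).sum + f := by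
      rw [← add_assoc, add_comm _ (ee i)]
    rw [this]

end Pool.Agent.H26.LO
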