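import Mathlib
import Pool.Agent.H26.LO3

set_option autoImplicit false
set_option linter.style.haveILetI false
set_option linter.unusedSectionVars false

open Filter Topology

namespace Pool.Agent.H26.LO

abbrev II (m n : ℕ) : Type := (Fin m ⊕ Fin m) ⊕ Fin n

variable {m n : ℕ}

def x1 (e : Fin m) : II m n := Sum.inl (Sum.inl e)
def x2 (e : Fin m) : II m n := Sum.inl (Sum.inr e)
def yy (k : Fin n) : II m n := Sum.inr k

theorem x1_inj {e f : Fin m} : (x1 e : II m n) = x1 f ↔ e = f := by simp [x1]
theorem x2_inj {e f : Fin m} : (x2 e : II m n) = x2 f ↔ e = f := by simp [x2]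
theorem yy_inj {e f : Fin n} : (yy e : II m n) = yy f ↔ e = f := by simp [yy]
theorem x1_x2 {e f : Fin m} : (x1 e : II m n) ≠ x2 f := by simp [x1, x2]
theorem x2_x1 {e f : Fin m} : (x2 e : II m n) ≠ x1 f := by simp [x1, x2]
theorem x1_yy {e : Fin m} {f : Fin n} : (x1 e : II m n) ≠ yy f := by simp [x1, yy]
theorem x2_yy {e : Fin m} {f : Fin n} : (x2 e : II m n) ≠ yy f := by simp [x2, yy]
theorem yy_x1 {e : Fin m} {f : Fin n} : (yy f : II m n) ≠ x1 e := by simp [x1, yy]
theorem yy_x2 {e : Fin m} {f : Fin n} : (yy f : II m n) ≠ x2 e := by simp [x2, yy]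

theorem ev {α : Type} [DecidableEq α] {I : Type} [DecidableEq I] (s : Finset α) (t : α → I) (i : I) :
    (∑ e ∈ s, ee (t e)) i = (s.filter (fun e => t e = i)).card := by
  rw [Finset.sum_apply, Finset.card_filter]
  apply Finset.sum_congr rfl
  intro e _
  rw [ee, Pi.single_apply]
  simp only [eq_comm]

def ind (B : Finset (Fin m)) : II m n → ℕ := ∑ e ∈ B, ee (x1 e)

theorem ind_x1 (B : Finset (Fin m)) (e : Fin m) : (ind B : II m n → ℕ) (x1 e) = if e ∈ B then 1 else 0 := by
  unfold ind
  rw [ev]
  have : B.filter (fun e' => (x1 e' : II m n) = x1 e) = if e ∈ B then {e} else ∅ := by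
    ext e'
    rw [Finset.mem_filter, x1_inj]
    split_ifs with h
    · rw [Finset.mem_singleton]
      constructor
      · rintro ⟨-, h⟩; exact h
      · rintro rfl; exact ⟨h, rfl⟩
    · simp only [Finset.notMem_empty, iff_false, not_and]
      rintro h1 rfl
      exact h h1
  rw [this]
  split_ifs <;> simp

theorem ind_x2 (B : Finset (Fin m)) (e : Fin m) : (ind B : II m n → ℕ) (x2 e) = 0 := by
  unfold ind
  rw [ev, Finset.card_eq_zero, Finset.filter_eq_empty_iff]
  intro e' _
  exact x1_x2

theorem ind_yy (B : Finset (Fin m)) (k : Fin n) : (ind B : II m n → ℕ) (yy k) = 0 := by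
  unfold ind
  rw [ev, Finset.card_eq_zero, Finset.filter_eq_empty_iff]
  intro e' _
  exact x1_yy

def ind2 (B : Finset (Fin m)) : II m n → ℕ := ∑ e ∈ B, ee (x2 e)

theorem ind2_x2 (B : Finset (Fin m)) (e : Fin m) : (ind2 B : II m n → ℕ) (x2 e) = if e ∈ B then 1 else 0 := by
  unfold ind2
  rw [ev]
  have : B.filter (fun e' => (x2 e' : II m n) = x2 e) = if e ∈ B then {e} else ∅ := by
    ext e'
    rw [Finset.mem_filter, x2_inj]
    split_ifs with h
    · rw [Finset.mem_singleton]
      constructor
      · rintro ⟨-, h⟩; exact h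
      · rintro rfl; exact ⟨h, rfl⟩
    · simp only [Finset.notMem_empty, iff_false, not_and]
      rintro h1 rfl
      exact h h1
  rw [this]
  split_ifs <;> simp

theorem ind2_x1 (B : Finset (Fin m)) (e : Fin m) : (ind2 B : II m n → ℕ) (x1 e) = 0 := by
  unfold ind2
  rw [ev, Finset.card_eq_zero, Finset.filter_eq_empty_iff]
  intro e' _
  exact x2_x1

theorem ind2_yy (B : Finset (Fin m)) (k : Fin n) : (ind2 B : II m n → ℕ) (yy k) = 0 := by
  unfold ind2
  rw [ev, Finset.card_eq_zero, Finset.filter_eq_empty_iff]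
  intro e' _
  exact x2_yy

variable (M : Matroid (Fin m)) (S : Fin n → Finset (Fin m))

def legal (φ : Fin m → Option (Fin n)) : Prop := ∀ e k, φ e = some k → e ∈ S k

def tg (e : Fin m) : Option (Fin n) → II m n
  | none => x2 e
  | some k => yy k

def tgt (φ : Fin m → Option (Fin n)) (e : Fin m) : II m n := tg e (φ e)

def JJ (s : Finset (Fin m)) : Set (II m n → ℕ) :=
  {f | ∃ B : Finset (Fin m), M.IsBase (↑B : Set (Fin m)) ∧ ∃ φ, legal S φ ∧ f = ind B + ∑ e ∈ s, ee (tgt φ e)}

def OO (e : Fin m) : Set (II m n) := {o | o = x2 e ∨ ∃ k, e ∈ S k ∧ o = yy k}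

theorem JJ_empty : MConv (JJ M S ∅) := by
  rintro f b i ⟨B, hB, φ, hφ, hf⟩ ⟨B', hB', φ', hφ', hb⟩ hi
  rw [Finset.sum_empty, add_zero] at hf hb
  obtain ⟨e, rfl⟩ : ∃ e, i = x1 e := by
    rcases i with (e | e) | k
    · exact ⟨e, rfl⟩
    · exfalso
      have := congrFun hf (x2 e)
      rw [ind_x2, Pi.add_apply] at this
      change f (x2 e) + ee (x2 e) (x2 e) = 0 at this
      rw [ee, Pi.single_eq_same] at this
      omega
    · exfalso
      have := congrFun hf (yy k)
      rw [ind_yy, Pi.add_apply] at this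
      change f (yy k) + ee (yy k) (yy k) = 0 at this
      rw [ee, Pi.single_eq_same] at this
      omega
  have h1 := congrFun hf (x1 e)
  rw [ind_x1, Pi.add_apply, ee, Pi.single_eq_same] at h1
  have heB : e ∈ B := by
    by_contra h
    rw [if_neg h] at h1; omega
  rw [if_pos heB] at h1
  have heB' : e ∉ B' := by
    intro h
    rw [hb, ind_x1, if_pos h] at hi
    omega
  obtain ⟨y, ⟨hy1, hy2⟩, hy3⟩ := hB.exchange_mem hB' (Finset.mem_coe.mpr heB) (fun h => heB' (Finset.mem_coe.mp h))
  rw [Finset.mem_coe] at hy1 hy2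
  have hfe : f = ind (B.erase e) := by
    have h2 : (ind B : II m n → ℕ) = ind (B.erase e) + ee (x1 e) := by
      unfold ind
      rw [Finset.sum_erase_add _ _ heB]
    rw [h2] at hf
    exact add_right_cancel hf
  refine ⟨x1 y, ?_, insert y (B.erase e), ?_, φ, hφ, ?_⟩
  · rw [hfe, hb, ind_x1, ind_x1, if_pos hy1, if_neg (fun h => hy2 (Finset.mem_of_mem_erase h))]
    norm_num
  · rw [Finset.coe_insert, Finset.coe_erase]; exact hy3
  · rw [Finset.sum_empty, add_zero, hfe]
    unfold ind
    rw [Finset.sum_insert (fun h => hy2 (Finset.mem_of_mem_erase h)), add_comm]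

theorem JJ_insert (s : Finset (Fin m)) (e : Fin m) (he : e ∉ s) : JJ M S (insert e s) = addO (JJ M S s) (OO S e) := by
  ext f
  constructor
  · rintro ⟨B, hB, φ, hφ, rfl⟩
    refine ⟨ind B + ∑ e ∈ s, ee (tgt φ e), ⟨B, hB, φ, hφ, rfl⟩, tgt φ e, ?_, ?_⟩
    · unfold tgt
      rcases h : φ e with _ | k
      · left; rfl
      · right; exact ⟨k, hφ e k h, rfl⟩
    · rw [Finset.sum_insert he, add_assoc, add_comm (∑ e ∈ s, ee (tgt φ e))]
  · rintro ⟨g, ⟨B, hB, φ, hφ, rfl⟩, o, ho, rfl⟩
    obtain ⟨t, ht, rfl⟩ : ∃ t : Option (Fin n), (∀ k, t = some k → e ∈ S k) ∧ o = tg e t := by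
      rcases ho with h | ⟨k, hk, h⟩
      · exact ⟨none, fun k hk => by simp at hk, h⟩
      · refine ⟨some k, fun k' hk' => ?_, h⟩
        rw [Option.some_inj] at hk'
        rw [← hk']; exact hk
    refine ⟨B, hB, Function.update φ e t, ?_, ?_⟩
    · intro e' k hk
      by_cases h : e' = e
      · subst h
        rw [Function.update_self] at hk
        exact ht k hk
      · rw [Function.update_of_ne h] at hk
        exact hφ e' k hk
    · rw [Finset.sum_insert he, add_assoc, add_comm (ee _)]
      congr 2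
      · apply Finset.sum_congr rfl
        intro e' he'
        unfold tgt
        rw [Function.update_of_ne (by rintro rfl; exact he he')]
      · unfold tgt
        rw [Function.update_self]

theorem JJ_mconv (s : Finset (Fin m)) : MConv (JJ M S s) := by
  induction s using Finset.induction_on with
  | empty => exact JJ_empty M S
  | insert e s he ih => rw [JJ_insert M S s e he]; exact add_mconv _ ih _

theorem sum_sum_ee {α : Type} {I : Type} [Fintype I] [DecidableEq I] (s : Finset α) (t : α → I) :
    ∑ i, (∑ e ∈ s, ee (t e)) i = s.card := by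
  simp only [Finset.sum_apply]
  rw [Finset.sum_comm]
  have : ∀ e, ∑ i, ee (t e) i = 1 := by
    intro e
    simp [ee]
  simp [this]

theorem JJ_homog (d : ℕ) (hd : ∀ B : Set (Fin m), M.IsBase B → B.ncard = d) :
    Homog (JJ M S Finset.univ) (d + m) := by
  rintro f ⟨B, hB, φ, hφ, rfl⟩
  simp only [Pi.add_apply]
  rw [Finset.sum_add_distrib, sum_sum_ee]
  have h1 : ∑ i, (ind B : II m n → ℕ) i = B.card := sum_sum_ee B x1
  have h2 := hd _ hB
  rw [Set.ncard_coe_finset] at h2
  rw [h1, h2]
  simp

def St (B : Finset (Fin m)) (φ : Fin m → Option (Fin n)) : Prop :=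
  M.IsBase (↑B : Set (Fin m)) ∧ legal S φ ∧ ∀ e, φ e = none ↔ e ∉ B

def cnt (φ : Fin m → Option (Fin n)) (k : Fin n) : ℕ := (Finset.univ.filter (fun e => φ e = some k)).card

def emb (γ : Fin n → ℕ) : II m n → ℕ := Sum.elim 0 γ

theorem vec_mem (X : Finset (Fin m)) (γ : Fin n → ℕ) :
    ind X + ind2 (Finset.univ \ X) + emb γ ∈ JJ M S Finset.univ ↔ ∃ φ, St M S X φ ∧ cnt φ = γ := by
  have e1 : ∀ (φ : Fin m → Option (Fin n)) (e : Fin m), (∑ e, ee (tgt φ e)) (x1 e) = 0 := by
    intro φ e
    rw [ev, Finset.card_eq_zero, Finset.filter_eq_empty_iff]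
    intro e' _
    unfold tgt
    rcases φ e' with _ | k
    · exact x2_x1
    · exact yy_x1
  have e2 : ∀ (φ : Fin m → Option (Fin n)) (e : Fin m), (∑ e, ee (tgt φ e)) (x2 e) = if φ e = none then 1 else 0 := by
    intro φ e
    rw [ev]
    have : Finset.univ.filter (fun e' => tgt φ e' = x2 e) = if φ e = none then {e} else ∅ := by
      ext e'
      rw [Finset.mem_filter]
      unfold tgt
      constructor
      · rintro ⟨-, h⟩
        rcases h' : φ e' with _ | k
        · rw [h'] at h
          have : e' = e := x2_inj.mp h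
          subst this
          rw [if_pos h']; simp
        · rw [h'] at h
          exact absurd h yy_x2
      · intro h
        split_ifs at h with h1
        · rw [Finset.mem_singleton] at h
          subst h
          refine ⟨Finset.mem_univ _, ?_⟩
          rw [h1]; rfl
        · simp at h
    rw [this]
    split_ifs <;> simp
  have e3 : ∀ (φ : Fin m → Option (Fin n)) (k : Fin n), (∑ e, ee (tgt φ e)) (yy k) = cnt φ k := by
    intro φ k
    rw [ev]
    unfold cnt
    congr 1
    apply Finset.filter_congr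
    intro e' _
    unfold tgt
    rcases h' : φ e' with _ | k'
    · simp only [reduceCtorEq, iff_false]
      exact x2_yy
    · rw [Option.some_inj]
      exact yy_inj
  constructor
  · rintro ⟨B, hB, φ, hφ, hf⟩
    have h1 : X = B := by
      ext e
      have := congrFun hf (x1 e)
      rw [Pi.add_apply, Pi.add_apply, Pi.add_apply, ind_x1, ind2_x1, ind_x1, e1] at this
      change (if e ∈ X then 1 else 0) + 0 + 0 = _ at this
      by_cases h1 : e ∈ X <;> by_cases h2 : e ∈ B <;> simp_all
    subst h1
    refine ⟨φ, ⟨hB, hφ, fun e => ?_⟩, ?_⟩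
    · have := congrFun hf (x2 e)
      rw [Pi.add_apply, Pi.add_apply, Pi.add_apply, ind_x2, ind2_x2, e2] at this
      change 0 + _ + 0 = _ at this
      by_cases h1 : e ∈ X <;> by_cases h2 : φ e = none <;> simp_all
    · funext k
      have := congrFun hf (yy k)
      rw [Pi.add_apply, Pi.add_apply, Pi.add_apply, ind_yy, ind2_yy, e3] at this
      change 0 + 0 + γ k = _ at this
      omega
  · rintro ⟨φ, ⟨hB, hφ, hn⟩, rfl⟩
    refine ⟨X, hB, φ, hφ, ?_⟩
    funext i
    rcases i with (e | e) | k
    · have h1 : (ind X + ind2 (Finset.univ \ X) + emb (cnt φ) : II m n → ℕ) (x1 e) =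
          (ind X + ∑ e, ee (tgt φ e) : II m n → ℕ) (x1 e) := by
        rw [Pi.add_apply, Pi.add_apply, Pi.add_apply, ind_x1, ind2_x1, e1]
        rfl
      exact h1
    · have h1 : (ind X + ind2 (Finset.univ \ X) + emb (cnt φ) : II m n → ℕ) (x2 e) =
          (ind X + ∑ e, ee (tgt φ e) : II m n → ℕ) (x2 e) := by
        rw [Pi.add_apply, Pi.add_apply, Pi.add_apply, ind_x2, ind2_x2, e2]
        change 0 + _ + 0 = _
        have := hn e
        by_cases h1 : e ∈ X <;> by_cases h2 : φ e = none <;> simp_all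
      exact h1
    · have h1 : (ind X + ind2 (Finset.univ \ X) + emb (cnt φ) : II m n → ℕ) (yy k) =
          (ind X + ∑ e, ee (tgt φ e) : II m n → ℕ) (yy k) := by
        rw [Pi.add_apply, Pi.add_apply, Pi.add_apply, ind_yy, ind2_yy, e3]
        change 0 + 0 + cnt φ k = _
        omega
      exact h1

/-- the defining set of `c_γ` -/
def cset (γ : Fin n → ℕ) : Set (Finset (Fin m)) := {B : Finset (Fin m) | M.IsBase (↑B : Set (Fin m)) ∧
        ∃ T : Fin n → Finset (Fin m), (Pairwise fun i j => Disjoint (T i) (T j)) ∧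
          (∀ i, T i ⊆ S i) ∧ ∀ i, (B ∩ T i).card = γ i}

theorem cset_iff (d : ℕ) (hd : ∀ B : Set (Fin m), M.IsBase B → B.ncard = d) (γ : Fin n → ℕ)
    (hγ : ∑ i, γ i = d) (X : Finset (Fin m)) : X ∈ cset M S γ ↔ ∃ φ, St M S X φ ∧ cnt φ = γ := by
  constructor
  · rintro ⟨hB, T, hT1, hT2, hT3⟩
    have hcard : X.card = d := by
      have := hd _ hB
      rwa [Set.ncard_coe_finset] at this
    have hcov : ∀ e ∈ X, ∃ k, e ∈ T k := by
      have h1 : (Finset.univ.biUnion (fun k => X ∩ T k)).card = d := by
        rw [Finset.card_biUnion]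
        · rw [← hγ]; exact Finset.sum_congr rfl (fun k _ => hT3 k)
        · intro i _ j _ hij
          exact (hT1 hij).mono Finset.inter_subset_right Finset.inter_subset_right
      have h2 : Finset.univ.biUnion (fun k => X ∩ T k) = X := by
        apply Finset.eq_of_subset_of_card_le
        · intro e he
          rw [Finset.mem_biUnion] at he
          obtain ⟨k, -, hk⟩ := he
          exact (Finset.mem_inter.mp hk).1
        · rw [h1, hcard]
      intro e he
      rw [← h2, Finset.mem_biUnion] at he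
      obtain ⟨k, -, hk⟩ := he
      exact ⟨k, (Finset.mem_inter.mp hk).2⟩
    classical
    let φ : Fin m → Option (Fin n) := fun e => if h : e ∈ X ∧ ∃ k, e ∈ T k then some h.2.choose else none
    have hφ : ∀ e k, φ e = some k ↔ (e ∈ X ∧ e ∈ T k) := by
      intro e k
      simp only [φ]
      constructor
      · intro h
        split_ifs at h with h1
        rw [Option.some_inj] at h
        rw [← h]
        exact ⟨h1.1, h1.2.choose_spec⟩
      · rintro ⟨h1, h2⟩
        have h3 : e ∈ X ∧ ∃ k, e ∈ T k := ⟨h1, k, h2⟩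
        rw [dif_pos h3, Option.some_inj]
        by_contra hne
        have := hT1 hne
        exact Finset.disjoint_left.mp this h3.2.choose_spec h2
    refine ⟨φ, ⟨hB, fun e k h => hT2 k ((hφ e k).mp h).2, fun e => ?_⟩, ?_⟩
    · constructor
      · intro h he
        obtain ⟨k, hk⟩ := hcov e he
        have := (hφ e k).mpr ⟨he, hk⟩
        rw [h] at this; simp at this
      · intro he
        rcases h : φ e with _ | k
        · rfl
        · exact absurd ((hφ e k).mp h).1 he
    · funext k
      unfold cnt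
      rw [← hT3 k]
      congr 1
      ext e
      rw [Finset.mem_filter, Finset.mem_inter, hφ]
      simp
  · rintro ⟨φ, ⟨hB, hφ, hn⟩, rfl⟩
    refine ⟨hB, fun k => Finset.univ.filter (fun e => φ e = some k), ?_, ?_, ?_⟩
    · intro i j hij
      rw [Finset.disjoint_left]
      intro e he1 he2
      rw [Finset.mem_filter] at he1 he2
      apply hij
      have := he1.2.symm.trans he2.2
      rwa [Option.some_inj] at this
    · intro i e he
      rw [Finset.mem_filter] at he
      exact hφ e i he.2
    · intro k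
      unfold cnt
      congr 1
      ext e
      rw [Finset.mem_inter, Finset.mem_filter]
      constructor
      · rintro ⟨-, h⟩; exact h
      · rintro ⟨h1, h2⟩
        refine ⟨?_, h1, h2⟩
        by_contra h
        rw [(hn e).mpr h] at h2
        simp at h2

end Pool.Agent.H26.LO
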