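import Mathlib
import Pool.Agent.H26.LO4

set_option autoImplicit false
set_option linter.style.haveILetI false
set_option linter.unusedSectionVars false

open Filter Topology

namespace Pool.Agent.H26.LO

variable {m n : ℕ}

noncomputable def DD (e : Fin m) : II m n → ℝ := Pi.single (x1 e) 1 + Pi.single (x2 e) 1

open Classical in
theorem PhiD (J : Set (II m n → ℕ)) (L : List (II m n)) (l : List (Fin m)) : l.Nodup → ∀ f : II m n → ℕ,
    Phi (conM J f) (l.map DD ++ L.map (fun i => Pi.single i 1)) =
      ∑ X ∈ l.toFinset.powerset, if (ind X + ind2 (l.toFinset \ X) + ((L.map ee).sum + f)) ∈ J then (1 : ℝ) else 0 := by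
  induction l with
  | nil =>
    intro _ f
    rw [List.map_nil, List.nil_append, Phi_units, List.toFinset_nil, Finset.powerset_empty, Finset.sum_singleton]
    have : (ind ∅ + ind2 (∅ \ ∅) + ((L.map ee).sum + f) : II m n → ℕ) = (L.map ee).sum + f := by
      simp [ind, ind2]
    rw [this]
  | cons e l ih =>
    intro hnd f
    rw [List.nodup_cons] at hnd
    have he : e ∉ l.toFinset := by rw [List.mem_toFinset]; exact hnd.1
    rw [List.map_cons, List.cons_append, DD, Phi_pair, con_conM, con_conM, ih hnd.2, ih hnd.2, List.toFinset_cons,
      Finset.sum_powerset_insert he, add_comm]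
    congr 1
    · apply Finset.sum_congr rfl
      intro X hX
      rw [Finset.mem_powerset] at hX
      have heX : e ∉ X := fun h => he (hX h)
      have h1 : insert e l.toFinset \ X = insert e (l.toFinset \ X) := by
        rw [Finset.insert_sdiff_of_notMem _ heX]
      have h2 : (ind2 (insert e (l.toFinset \ X)) : II m n → ℕ) = ee (x2 e) + ind2 (l.toFinset \ X) := by
        unfold ind2
        rw [Finset.sum_insert (fun h => he (Finset.mem_sdiff.mp h).1)]
      rw [h1, h2]
      have h3 : (ind X + ind2 (l.toFinset \ X) + ((L.map ee).sum + (ee (x2 e) + f)) : II m n → ℕ) =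
        ind X + (ee (x2 e) + ind2 (l.toFinset \ X)) + ((L.map ee).sum + f) := by abel
      rw [h3]
    · apply Finset.sum_congr rfl
      intro X hX
      rw [Finset.mem_powerset] at hX
      have heX : e ∉ X := fun h => he (hX h)
      have h1 : insert e l.toFinset \ insert e X = l.toFinset \ X := by
        ext x
        simp only [Finset.mem_sdiff, Finset.mem_insert]
        constructor
        · rintro ⟨h1 | h1, h2⟩
          · exact absurd (Or.inl h1) h2
          · exact ⟨h1, fun h => h2 (Or.inr h)⟩
        · rintro ⟨h1, h2⟩
          refine ⟨Or.inr h1, ?_⟩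
          rintro (h | h)
          · subst h; exact he h1
          · exact h2 h
      have h2 : (ind (insert e X) : II m n → ℕ) = ee (x1 e) + ind X := by
        unfold ind
        rw [Finset.sum_insert heX]
      rw [h1, h2]
      have h3 : (ind X + ind2 (l.toFinset \ X) + ((L.map ee).sum + (ee (x1 e) + f)) : II m n → ℕ) =
        ee (x1 e) + ind X + ind2 (l.toFinset \ X) + ((L.map ee).sum + f) := by abel
      rw [h3]

theorem emb_add (β : Fin n → ℕ) (k : Fin n) : (emb (β + Pi.single k 1) : II m n → ℕ) = emb β + ee (yy k) := by
  funext i
  rcases i with i | l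
  · show 0 = 0 + ee (yy k) (Sum.inl i)
    rw [ee, Pi.single_eq_of_ne (by simp [yy]), add_zero]
  · show (β + Pi.single k 1 : Fin n → ℕ) l = β l + ee (yy k) (Sum.inr l)
    rw [Pi.add_apply]
    congr 1
    by_cases h : l = k
    · subst h
      have : (Sum.inr l : II m n) = yy l := rfl
      rw [this, ee, Pi.single_eq_same, Pi.single_eq_same]
    · rw [Pi.single_eq_of_ne h, ee, Pi.single_eq_of_ne]
      intro h'
      exact h (yy_inj.mp h')

theorem exists_list (s : ℕ) : ∀ β : Fin n → ℕ, ∑ i, β i = s → ∃ L : List (II m n), (L.map ee).sum = emb β ∧ L.length = s := by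
  induction s with
  | zero =>
    intro β hβ
    refine ⟨[], ?_, rfl⟩
    have : β = 0 := by
      funext i
      exact Finset.sum_eq_zero_iff.mp hβ i (Finset.mem_univ _)
    rw [this]
    funext i
    rcases i with i | l <;> rfl
  | succ s ih =>
    intro β hβ
    obtain ⟨k, hk⟩ : ∃ k, β k ≠ 0 := by
      by_contra hcon
      push Not at hcon
      rw [Finset.sum_eq_zero (fun i _ => hcon i)] at hβ
      omega
    have h1 := sub_ee β k hk
    obtain ⟨L, hL1, hL2⟩ := ih (β - ee k) (by
      rw [h1, sum_ee] at hβ
      omega)
    refine ⟨yy k :: L, ?_, by rw [List.length_cons, hL2]⟩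
    rw [List.map_cons, List.sum_cons, hL1]
    conv_rhs => rw [h1]
    rw [emb_add, add_comm]

variable (M : Matroid (Fin m)) (S : Fin n → Finset (Fin m))

theorem hess (d : ℕ) (hd : ∀ B : Set (Fin m), M.IsBase B → B.ncard = d) (β : Fin n → ℕ) (hβ : ∑ i, β i + 2 = d)
    (L : List (II m n)) (hL : (L.map ee).sum = emb β) (k l : Fin n) :
    Phi (con (con (JJ M S Finset.univ) (yy k)) (yy l))
      ((List.finRange m).map DD ++ L.map (fun i => Pi.single i 1)) =
      (Set.ncard (cset M S (β + Pi.single k 1 + Pi.single l 1)) : ℝ) := by
  classical
  have h1 : con (con (JJ M S Finset.univ) (yy k)) (yy l) = conM (JJ M S Finset.univ) (ee (yy l) + ee (yy k)) := by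
    rw [← con_conM]; rfl
  rw [h1, PhiD _ _ _ (List.nodup_finRange m)]
  have h2 : (List.finRange m).toFinset = Finset.univ := by
    ext x; simp
  rw [h2, Finset.powerset_univ, hL]
  have hsum : ∑ i, (β + Pi.single k 1 + Pi.single l 1 : Fin n → ℕ) i = d := by
    have e1 := sum_ee (β + ee k) l
    have e2 := sum_ee β k
    show ∑ i, (β + ee k + ee l) i = d
    rw [e1, e2]; omega
  have h3 : ∀ X : Finset (Fin m), (ind X + ind2 (Finset.univ \ X) + (emb β + (ee (yy l) + ee (yy k))) ∈ JJ M S Finset.univ) ↔
      X ∈ cset M S (β + Pi.single k 1 + Pi.single l 1) := by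
    intro X
    have h4 : (emb β + (ee (yy l) + ee (yy k)) : II m n → ℕ) = emb (β + Pi.single k 1 + Pi.single l 1) := by
      rw [emb_add, emb_add]; abel
    rw [h4, vec_mem, cset_iff M S d hd _ hsum]
  simp only [h3]
  rw [Finset.sum_boole, ← Set.ncard_coe_finset]
  congr 2
  ext X
  simp

theorem part2 (d : ℕ) (hd : ∀ B : Set (Fin m), M.IsBase B → B.ncard = d) (β : Fin n → ℕ) (hβ : ∑ i, β i + 2 = d)
    (c : (Fin n → ℕ) → ℕ) (hc : ∀ α, c α = Set.ncard (cset M S α)) (u v : Fin n → ℝ)
    (hu : 0 < ∑ i, ∑ j, (c (β + Pi.single i 1 + Pi.single j 1) : ℝ) * u i * u j) :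
    (∑ i, ∑ j, (c (β + Pi.single i 1 + Pi.single j 1) : ℝ) * u i * u j) *
      (∑ i, ∑ j, (c (β + Pi.single i 1 + Pi.single j 1) : ℝ) * v i * v j) ≤
    (∑ i, ∑ j, (c (β + Pi.single i 1 + Pi.single j 1) : ℝ) * u i * v j) ^ 2 := by
  obtain ⟨L, hL1, hL2⟩ := exists_list (m := m) (∑ i, β i) β rfl
  set J := JJ M S Finset.univ with hJ
  set vs : List (II m n → ℝ) := (List.finRange m).map DD ++ L.map (fun i => Pi.single i 1) with hvs
  have hlen : vs.length + 2 = d + m := by
    rw [hvs, List.length_append, List.length_map, List.length_map, List.length_finRange, hL2]; omega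
  have hH : Homog J (vs.length + 2) := by rw [hlen]; exact JJ_homog M S d hd
  have hnn : ∀ w ∈ vs, ∀ i, 0 ≤ w i := by
    intro w hw i
    rw [hvs, List.mem_append, List.mem_map, List.mem_map] at hw
    have hsn : ∀ j i : II m n, (0 : ℝ) ≤ (Pi.single j 1 : II m n → ℝ) i := by
      intro j i
      rw [Pi.single_apply]; split_ifs <;> norm_num
    rcases hw with ⟨e, -, rfl⟩ | ⟨j, -, rfl⟩
    · exact add_nonneg (hsn _ _) (hsn _ _)
    · exact hsn _ _
  have hR := CT' J (JJ_mconv M S Finset.univ) vs hH hnn
  have key : ∀ a b : Fin n → ℝ, Phi J ((Sum.elim 0 a : II m n → ℝ) :: (Sum.elim 0 b : II m n → ℝ) :: vs) =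
      ∑ i, ∑ j, (c (β + Pi.single i 1 + Pi.single j 1) : ℝ) * a i * b j := by
    intro a b
    rw [Phi_two, Fintype.sum_sum_type]
    have e1 : ∑ i : Fin m ⊕ Fin m, ∑ j : II m n, Phi (con (con J (Sum.inl i)) j) vs * (Sum.elim 0 a : II m n → ℝ) (Sum.inl i) *
        (Sum.elim 0 b : II m n → ℝ) j = 0 := by
      apply Finset.sum_eq_zero
      intro i _
      apply Finset.sum_eq_zero
      intro j _
      simp
    rw [e1, zero_add]
    apply Finset.sum_congr rfl
    intro k _
    rw [Fintype.sum_sum_type]
    have e2 : ∑ j : Fin m ⊕ Fin m, Phi (con (con J (Sum.inr k)) (Sum.inl j)) vs * (Sum.elim 0 a : II m n → ℝ) (Sum.inr k) *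
        (Sum.elim 0 b : II m n → ℝ) (Sum.inl j) = 0 := by
      apply Finset.sum_eq_zero
      intro i _
      simp
    rw [e2, zero_add]
    apply Finset.sum_congr rfl
    intro l _
    have e3 := hess M S d hd β hβ L hL1 k l
    rw [hc, ← e3]
    rfl
  have := hR (Sum.elim 0 u) (Sum.elim 0 v) (by rw [key]; exact hu)
  rw [key, key, key] at this
  exact this

/-- support exchange -/
theorem exch (B2 : Finset (Fin m)) (φ2 : Fin m → Option (Fin n)) (h2 : St M S B2 φ2) (N : ℕ) :
    ∀ (B1 : Finset (Fin m)) (φ1 : Fin m → Option (Fin n)), St M S B1 φ1 →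
      (Finset.univ.filter (fun e => φ1 e ≠ none ∧ φ1 e ≠ φ2 e)).card = N →
      ∀ i, cnt φ2 i < cnt φ1 i → ∃ j, cnt φ1 j < cnt φ2 j ∧ ∃ B φ, St M S B φ ∧ cnt φ + ee i = cnt φ1 + ee j := by
  induction N using Nat.strong_induction_on with
  | _ N ih =>
    intro B1 φ1 h1 hN i hi
    -- one step suffices
    suffices H : ∃ (B1' : Finset (Fin m)) (φ1' : Fin m → Option (Fin n)) (j' : Fin n), St M S B1' φ1' ∧
        (Finset.univ.filter (fun e => φ1' e ≠ none ∧ φ1' e ≠ φ2 e)).card < N ∧ cnt φ1' + ee i = cnt φ1 + ee j' by
      obtain ⟨B1', φ1', j', hst, hlt, hcnt⟩ := H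
      by_cases hj : cnt φ1 j' < cnt φ2 j'
      · exact ⟨j', hj, B1', φ1', hst, hcnt⟩
      · have hev : ∀ x, cnt φ1' x + ee i x = cnt φ1 x + ee j' x := fun x => by
          have := congrFun hcnt x
          rwa [Pi.add_apply, Pi.add_apply] at this
        have h3 : cnt φ2 j' < cnt φ1' j' := by
          have e1 := hev j'
          rw [ee, ee, Pi.single_eq_same] at e1
          by_cases hij : j' = i
          · subst hij
            rw [Pi.single_eq_same] at e1
            omega
          · rw [Pi.single_eq_of_ne hij] at e1
            omega
        obtain ⟨j, hj1, B, φ, hst', hcnt'⟩ := ih _ hlt B1' φ1' hst rfl j' h3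
        refine ⟨j, ?_, B, φ, hst', ?_⟩
        · have e1 := hev j
          have e2 := hev i
          rw [ee, Pi.single_eq_same] at e2
          by_cases hji : j = i
          · exfalso
            subst hji
            by_cases hjj : j = j'
            · subst hjj
              rw [ee, Pi.single_eq_same] at e2
              omega
            · rw [ee, Pi.single_eq_of_ne hjj] at e2
              omega
          · rw [ee, Pi.single_eq_of_ne hji] at e1
            omega
        · have e1 : cnt φ + ee i + ee j' = cnt φ1 + ee j + ee j' := by
            calc cnt φ + ee i + ee j' = (cnt φ + ee j') + ee i := add_right_comm _ _ _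
              _ = (cnt φ1' + ee j) + ee i := by rw [hcnt']
              _ = (cnt φ1' + ee i) + ee j := add_right_comm _ _ _
              _ = (cnt φ1 + ee j') + ee j := by rw [hcnt]
              _ = cnt φ1 + ee j + ee j' := add_right_comm _ _ _
          exact add_right_cancel e1
    obtain ⟨hB1, hl1, hn1⟩ := h1
    obtain ⟨hB2, hl2, hn2⟩ := h2
    obtain ⟨e, he1, he2⟩ : ∃ e, φ1 e = some i ∧ φ2 e ≠ some i := by
      by_contra hcon
      push Not at hcon
      have : cnt φ1 i ≤ cnt φ2 i := by
        unfold cnt
        apply Finset.card_le_card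
        intro e he
        rw [Finset.mem_filter] at he ⊢
        exact ⟨he.1, hcon e he.2⟩
      omega
    have heB1 : e ∈ B1 := by
      by_contra h
      rw [(hn1 e).mpr h] at he1
      simp at he1
    by_cases heB2 : e ∈ B2
    · -- recolour
      obtain ⟨j', hj'⟩ : ∃ j', φ2 e = some j' := by
        rcases h : φ2 e with _ | j'
        · exact absurd heB2 ((hn2 e).mp h)
        · exact ⟨j', rfl⟩
      refine ⟨B1, Function.update φ1 e (some j'), j', ⟨hB1, ?_, ?_⟩, ?_, ?_⟩
      · intro x k hk
        by_cases hx : x = e
        · subst hx
          rw [Function.update_self, Option.some_inj] at hk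
          subst hk
          exact hl2 x _ hj'
        · rw [Function.update_of_ne hx] at hk
          exact hl1 x k hk
      · intro x
        by_cases hx : x = e
        · subst hx
          rw [Function.update_self]
          simp [heB1]
        · rw [Function.update_of_ne hx]
          exact hn1 x
      · rw [← hN]
        apply Finset.card_lt_card
        rw [Finset.ssubset_iff_of_subset]
        · refine ⟨e, ?_, ?_⟩
          · rw [Finset.mem_filter]
            exact ⟨Finset.mem_univ _, by rw [he1]; simp, by rw [he1]; exact he2.symm⟩
          · rw [Finset.mem_filter, Function.update_self, hj']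
            simp
        · intro x hx
          rw [Finset.mem_filter] at hx ⊢
          by_cases hxe : x = e
          · subst hxe
            rw [Function.update_self, hj'] at hx
            exact absurd rfl hx.2.2
          · rw [Function.update_of_ne hxe] at hx
            exact hx
      · funext k
        rw [Pi.add_apply, Pi.add_apply]
        have g1 : cnt (Function.update φ1 e (some j')) k = (Finset.univ.filter (fun x => x ≠ e ∧ φ1 x = some k)).card +
            (if k = j' then 1 else 0) := by
          unfold cnt
          have : Finset.univ.filter (fun x => Function.update φ1 e (some j') x = some k) =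
              (Finset.univ.filter (fun x => x ≠ e ∧ φ1 x = some k)) ∪ (if k = j' then {e} else ∅) := by
            ext x
            rw [Finset.mem_filter, Finset.mem_union, Finset.mem_filter]
            by_cases hx : x = e
            · subst hx
              rw [Function.update_self, Option.some_inj]
              by_cases hk : k = j'
              · simp [hk]
              · simp [hk, Ne.symm hk]
            · rw [Function.update_of_ne hx]
              by_cases hk : k = j'
              · simp [hk, hx]
              · simp [hk, hx]
          rw [this, Finset.card_union_of_disjoint]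
          · split_ifs <;> simp
          · split_ifs
            · rw [Finset.disjoint_singleton_right, Finset.mem_filter]
              rintro ⟨-, h, -⟩
              exact h rfl
            · exact Finset.disjoint_empty_right _
        have g2 : cnt φ1 k = (Finset.univ.filter (fun x => x ≠ e ∧ φ1 x = some k)).card +
            (if k = i then 1 else 0) := by
          unfold cnt
          have : Finset.univ.filter (fun x => φ1 x = some k) =
              (Finset.univ.filter (fun x => x ≠ e ∧ φ1 x = some k)) ∪ (if k = i then {e} else ∅) := by
            ext x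
            rw [Finset.mem_filter, Finset.mem_union, Finset.mem_filter]
            by_cases hx : x = e
            · subst hx
              rw [he1, Option.some_inj]
              by_cases hk : k = i
              · simp [hk]
              · simp [hk, Ne.symm hk]
            · by_cases hk : k = i
              · simp [hk, hx]
              · simp [hk, hx]
          rw [this, Finset.card_union_of_disjoint]
          · split_ifs <;> simp
          · split_ifs
            · rw [Finset.disjoint_singleton_right, Finset.mem_filter]
              rintro ⟨-, h, -⟩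
              exact h rfl
            · exact Finset.disjoint_empty_right _
        rw [g1, g2, ee, ee, Pi.single_apply, Pi.single_apply]
        omega
    · -- exchange
      obtain ⟨y, ⟨hy1, hy2⟩, hy3⟩ := hB1.exchange_mem hB2 (Finset.mem_coe.mpr heB1) (fun h => heB2 (Finset.mem_coe.mp h))
      rw [Finset.mem_coe] at hy1 hy2
      have hye : y ≠ e := by rintro rfl; exact hy2 heB1
      obtain ⟨j', hj'⟩ : ∃ j', φ2 y = some j' := by
        rcases h : φ2 y with _ | j'
        · exact absurd hy1 ((hn2 y).mp h)
        · exact ⟨j', rfl⟩
      have hφ1y : φ1 y = none := (hn1 y).mpr hy2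
      set ψ := Function.update (Function.update φ1 e none) y (some j') with hψ
      have hψy : ψ y = some j' := Function.update_self _ _ _
      have hψe : ψ e = none := by rw [hψ, Function.update_of_ne hye.symm, Function.update_self]
      have hψx : ∀ x, x ≠ y → x ≠ e → ψ x = φ1 x := by
        intro x h1 h2
        rw [hψ, Function.update_of_ne h1, Function.update_of_ne h2]
      refine ⟨insert y (B1.erase e), ψ, j', ⟨?_, ?_, ?_⟩, ?_, ?_⟩
      · rw [Finset.coe_insert, Finset.coe_erase]; exact hy3
      · intro x k hk
        by_cases hx : x = y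
        · subst hx
          rw [hψy, Option.some_inj] at hk
          subst hk
          exact hl2 x _ hj'
        · by_cases hx' : x = e
          · subst hx'
            rw [hψe] at hk; simp at hk
          · rw [hψx x hx hx'] at hk
            exact hl1 x k hk
      · intro x
        rw [Finset.mem_insert, Finset.mem_erase]
        by_cases hx : x = y
        · subst hx
          rw [hψy]; simp
        · by_cases hx' : x = e
          · subst hx'
            rw [hψe]; simp [hx]
          · rw [hψx x hx hx', hn1 x]
            simp [hx, hx']
      · rw [← hN]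
        apply Finset.card_lt_card
        rw [Finset.ssubset_iff_of_subset]
        · refine ⟨e, ?_, ?_⟩
          · rw [Finset.mem_filter]
            exact ⟨Finset.mem_univ _, by rw [he1]; simp, by rw [he1]; exact he2.symm⟩
          · rw [Finset.mem_filter, hψe]
            simp
        · intro x hx
          rw [Finset.mem_filter] at hx ⊢
          by_cases hxy : x = y
          · subst hxy
            rw [hψy, hj'] at hx
            exact absurd rfl hx.2.2
          · by_cases hxe : x = e
            · subst hxe
              rw [hψe] at hx
              exact absurd rfl hx.2.1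
            · rw [hψx x hxy hxe] at hx
              exact hx
      · funext k
        rw [Pi.add_apply, Pi.add_apply]
        have g1 : cnt ψ k = (Finset.univ.filter (fun x => x ≠ y ∧ x ≠ e ∧ φ1 x = some k)).card +
            (if k = j' then 1 else 0) := by
          unfold cnt
          have : Finset.univ.filter (fun x => ψ x = some k) =
              (Finset.univ.filter (fun x => x ≠ y ∧ x ≠ e ∧ φ1 x = some k)) ∪ (if k = j' then {y} else ∅) := by
            ext x
            rw [Finset.mem_filter, Finset.mem_union, Finset.mem_filter]
            by_cases hx : x = y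
            · subst hx
              rw [hψy, Option.some_inj]
              by_cases hk : k = j'
              · simp [hk]
              · simp [hk, Ne.symm hk]
            · by_cases hx' : x = e
              · subst hx'
                rw [hψe]
                by_cases hk : k = j'
                · simp [hk, hx]
                · simp [hk]
              · rw [hψx x hx hx']
                by_cases hk : k = j'
                · simp [hk, hx, hx']
                · simp [hk, hx, hx']
          rw [this, Finset.card_union_of_disjoint]
          · split_ifs <;> simp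
          · split_ifs
            · rw [Finset.disjoint_singleton_right, Finset.mem_filter]
              rintro ⟨-, h, -⟩
              exact h rfl
            · exact Finset.disjoint_empty_right _
        have g2 : cnt φ1 k = (Finset.univ.filter (fun x => x ≠ y ∧ x ≠ e ∧ φ1 x = some k)).card +
            (if k = i then 1 else 0) := by
          unfold cnt
          have : Finset.univ.filter (fun x => φ1 x = some k) =
              (Finset.univ.filter (fun x => x ≠ y ∧ x ≠ e ∧ φ1 x = some k)) ∪ (if k = i then {e} else ∅) := by
            ext x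
            rw [Finset.mem_filter, Finset.mem_union, Finset.mem_filter]
            by_cases hx : x = e
            · subst hx
              rw [he1, Option.some_inj]
              by_cases hk : k = i
              · simp [hk]
              · simp [hk, Ne.symm hk]
            · by_cases hx' : x = y
              · subst hx'
                rw [hφ1y]
                by_cases hk : k = i
                · simp [hk, hx]
                · simp [hk]
              · by_cases hk : k = i
                · simp [hk, hx, hx']
                · simp [hk, hx, hx']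
          rw [this, Finset.card_union_of_disjoint]
          · split_ifs <;> simp
          · split_ifs
            · rw [Finset.disjoint_singleton_right, Finset.mem_filter]
              rintro ⟨-, -, h, -⟩
              exact h rfl
            · exact Finset.disjoint_empty_right _
        rw [g1, g2, ee, ee, Pi.single_apply, Pi.single_apply]
        omega

theorem part1 (d : ℕ) (hd : ∀ B : Set (Fin m), M.IsBase B → B.ncard = d)
    (c : (Fin n → ℕ) → ℕ) (hc : ∀ α, c α = Set.ncard (cset M S α)) (α β : Fin n → ℕ)
    (hα : ∑ i, α i = d) (hcα : 0 < c α) (hβ : ∑ i, β i = d) (hcβ : 0 < c β) (i : Fin n) (hi : β i < α i) :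
    ∃ j, α j < β j ∧ 0 < c (α - Pi.single i 1 + Pi.single j 1) := by
  have hpos : ∀ γ : Fin n → ℕ, ∑ i, γ i = d → (0 < c γ ↔ ∃ X φ, St M S X φ ∧ cnt φ = γ) := by
    intro γ hγ
    rw [hc, Set.ncard_pos (Set.toFinite _)]
    constructor
    · rintro ⟨X, hX⟩
      obtain ⟨φ, h⟩ := (cset_iff M S d hd γ hγ X).mp hX
      exact ⟨X, φ, h⟩
    · rintro ⟨X, φ, h⟩
      exact ⟨X, (cset_iff M S d hd γ hγ X).mpr ⟨φ, h⟩⟩
  obtain ⟨B1, φ1, h1, rfl⟩ := (hpos α hα).mp hcα
  obtain ⟨B2, φ2, h2, rfl⟩ := (hpos β hβ).mp hcβ
  obtain ⟨j, hj, B, φ, hst, hcnt⟩ := exch M S B2 φ2 h2 _ B1 φ1 h1 rfl i hi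
  refine ⟨j, hj, ?_⟩
  have h3 : cnt φ1 - ee i + ee j = cnt φ := by
    have h4 := sub_ee (cnt φ1) i (by omega)
    have h5 : (cnt φ1 - ee i + ee j) + ee i = cnt φ + ee i := by
      rw [add_right_comm, ← h4, hcnt]
    exact add_right_cancel h5
  show 0 < c (cnt φ1 - ee i + ee j)
  rw [h3, hpos]
  · exact ⟨B, φ, hst, rfl⟩
  · have h4 : ∑ x, (cnt φ + ee i) x = ∑ x, (cnt φ1 + ee j) x := by rw [hcnt]
    rw [sum_ee, sum_ee] at h4
    omega

end Pool.Agent.H26.LO
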