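import Mathlib

set_option autoImplicit false

namespace Pool.Agent.H26.NRS

/-- norm form of `a + b λ + c λ²`, `λ³ = T λ² - S λ + 1` -/
def Nm (T S a b c : ℤ) : ℤ :=
  a ^ 3 + a ^ 2 * b * T + a ^ 2 * c * (T ^ 2 - 2 * S) + a * b ^ 2 * S + a * b * c * (T * S - 3) +
    a * c ^ 2 * (S ^ 2 - 2 * T) + b ^ 3 + b ^ 2 * c * T + b * c ^ 2 * S + c ^ 3

theorem Nm_C (T S a b c : ℤ) : Nm T S c (a - S * c) (b + T * c) = Nm T S a b c := by
  unfold Nm; ring

theorem Nm_Ci (T S a b c : ℤ) : Nm T S (a * S + b) (c - a * T) a = Nm T S a b c := by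
  unfold Nm; ring

theorem Nm_fact (T S a b c : ℤ) (α r s : ℝ) (hT : (T : ℝ) = α + 2 * r)
    (hS : (S : ℝ) = 2 * r * α + (r ^ 2 + s ^ 2)) (hα : α * (r ^ 2 + s ^ 2) = 1) :
    (Nm T S a b c : ℝ) = (a + b * α + c * α ^ 2) *
      ((a - c * (r ^ 2 + s ^ 2) + (b + 2 * r * c) * r) ^ 2 + (s * (b + 2 * r * c)) ^ 2) := by
  unfold Nm
  push_cast
  rw [hT, hS]
  linear_combination (3 * a * b * c + 2 * (α + 2 * r) * a * c ^ 2 - b ^ 3 - b ^ 2 * c * (α + 2 * r)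
    - b * c ^ 2 * (2 * r * α + (r ^ 2 + s ^ 2)) - c ^ 3 * (1 + α * (r ^ 2 + s ^ 2))) * hα

theorem Nm_shift (w a b c : ℤ) :
    Nm (-w) 0 a b c = Nm (2 * w) (w ^ 2) (a - w * b + w ^ 2 * c) (b - 2 * w * c) c := by
  unfold Nm; ring

/-- normalisation of the real place -/
theorem normalise (T S : ℤ) (α : ℝ) (hα0 : 0 < α) (hroot : α ^ 3 - T * α ^ 2 + S * α - 1 = 0)
    (L : AddSubgroup (ℤ × ℤ × ℤ))
    (hC : ∀ a b c, (a, b, c) ∈ L → (c, a - S * c, b + T * c) ∈ L)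
    (hCi : ∀ a b c, (a, b, c) ∈ L → (a * S + b, c - a * T, a) ∈ L)
    (a b c : ℤ) (h : (a, b, c) ∈ L) (k : ℤ) :
    ∃ a' b' c' : ℤ, (a', b', c') ∈ L ∧ Nm T S a' b' c' = Nm T S a b c ∧
      (a' + b' * α + c' * α ^ 2 : ℝ) = (a + b * α + c * α ^ 2) * α ^ k := by
  induction k using Int.induction_on with
  | zero => exact ⟨a, b, c, h, rfl, by simp⟩
  | succ k ih =>
    obtain ⟨a', b', c', h1, h2, h3⟩ := ih
    refine ⟨_, _, _, hC _ _ _ h1, by rw [Nm_C, h2], ?_⟩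
    rw [zpow_add_one₀ hα0.ne', ← mul_assoc, ← h3]
    push_cast
    linear_combination -(c' : ℝ) * hroot
  | pred k ih =>
    obtain ⟨a', b', c', h1, h2, h3⟩ := ih
    refine ⟨_, _, _, hCi _ _ _ h1, by rw [Nm_Ci, h2], ?_⟩
    rw [zpow_sub_one₀ hα0.ne', ← mul_assoc, ← h3]
    push_cast
    field_simp
    linear_combination (a' : ℝ) * hroot

theorem abs_lt_of_sq_lt {x y : ℝ} (hy : 0 ≤ y) (h : x ^ 2 < y ^ 2) : |x| < y :=
  abs_lt_of_sq_lt_sq h hy

theorem int_zero_of_abs_lt {k : ℤ} (h : |(k : ℝ)| < 1) : k = 0 := by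
  have h1 : |k| < 1 := by exact_mod_cast h
  exact Int.abs_lt_one_iff.mp h1

theorem v_bound {s v e : ℝ} (he : 0 ≤ e) (hs : 1 / 2 ≤ s ^ 2) (h : (s * v) ^ 2 < e ^ 2) :
    |v| < 3 / 2 * e := by
  apply abs_lt_of_sq_lt (by positivity)
  have h2 : 1 / 2 * v ^ 2 ≤ s ^ 2 * v ^ 2 := mul_le_mul_of_nonneg_right hs (sq_nonneg v)
  have h3 : (s * v) ^ 2 = s ^ 2 * v ^ 2 := by ring
  have h4 : (3 / 2 * e) ^ 2 = 9 / 4 * e ^ 2 := by ring
  have h5 : 0 ≤ e ^ 2 := sq_nonneg e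
  rw [h4]; linarith

theorem s2_bound {r α q s : ℝ} (hqR : q ^ 2 = r ^ 2 + s ^ 2) (h1 : r * α ≤ 1 / 100)
    (h3 : (3 : ℝ) ≤ 4 * (2 * r * α + q ^ 2) - (α + 2 * r) ^ 2) : 1 / 2 ≤ s ^ 2 := by
  have e : 4 * (2 * r * α + q ^ 2) - (α + 2 * r) ^ 2 = 4 * (r * α) + 4 * (q ^ 2 - r ^ 2) - α ^ 2 := by
    ring
  rw [e, hqR] at h3
  have := sq_nonneg α
  linarith

theorem r_bound {r q s D : ℝ} (hD : 0 ≤ D) (hq : D ≤ q) (hqR : q ^ 2 = r ^ 2 + s ^ 2)
    (hs : s ^ 2 < D ^ 2) : q - D ≤ |r| := by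
  by_contra hcon
  have h1 : |r| < q - D := not_le.mp hcon
  have h2 : |r| ^ 2 < (q - D) ^ 2 := pow_lt_pow_left₀ h1 (abs_nonneg r) (by norm_num)
  rw [sq_abs] at h2
  have h3 : 0 ≤ D * (q - D) := mul_nonneg hD (by linarith)
  have h4 : (q - D) ^ 2 = q ^ 2 - D ^ 2 - 2 * (D * (q - D)) := by ring
  linarith

/-- basic size facts -/
theorem sizes {D q : ℝ} (hD1 : 1 ≤ D) (hq : 100 * D ^ 4 ≤ q) :
    D ≤ D ^ 2 ∧ D ^ 2 ≤ D ^ 3 ∧ D ^ 3 ≤ D ^ 4 ∧ 100 ≤ q ∧ 100 * D ≤ q ∧ 100 * D ^ 2 ≤ q ∧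
      100 * D ^ 3 ≤ q := by
  have h1 : D ≤ D ^ 2 := le_self_pow₀ hD1 (by norm_num)
  have h2 : D ^ 2 ≤ D ^ 3 := pow_le_pow_right₀ hD1 (by norm_num)
  have h3 : D ^ 3 ≤ D ^ 4 := pow_le_pow_right₀ hD1 (by norm_num)
  refine ⟨h1, h2, h3, ?_, ?_, ?_, ?_⟩ <;> linarith

theorem coreI_c0 (d : ℤ) (hd : 1 ≤ d) (α r s q : ℝ) (hq : 100 * (d : ℝ) ^ 4 ≤ q)
    (hqR : q ^ 2 = r ^ 2 + s ^ 2) (hα0 : 0 < α) (hα1 : α ≤ 1) (hs2 : 1 / 2 ≤ s ^ 2)
    (a b : ℤ) (hb : b ≠ 0) (n2 : ℝ) (hn2 : n2 = (a + b * r) ^ 2 + (s * b) ^ 2)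
    (hNlt : |(a + b * α : ℝ)| * n2 < d ^ 3)
    (ht1 : (d : ℝ) ≤ |(a + b * α : ℝ)|) : False := by
  set D : ℝ := (d : ℝ) with hD
  have hD1 : 1 ≤ D := by rw [hD]; exact_mod_cast hd
  have hD0 : 0 < D := by linarith
  obtain ⟨hs1, hs22, hs3, hq1, hqD, hqD2, hqD3⟩ := sizes hD1 hq
  set t : ℝ := a + b * α with ht
  have hn2D : n2 < D ^ 2 := by
    by_contra hcon
    have h1 : D * D ^ 2 ≤ |t| * n2 := mul_le_mul ht1 (not_lt.mp hcon) (by positivity) (abs_nonneg _)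
    have : D * D ^ 2 = D ^ 3 := by ring
    linarith
  have hb1 : (1 : ℝ) ≤ |(b : ℝ)| := by
    have : 1 ≤ |b| := Int.one_le_abs hb
    exact_mod_cast this
  have hb2 : (1 : ℝ) ≤ (b : ℝ) ^ 2 := by
    rw [← sq_abs]; exact one_le_pow₀ hb1
  have e1 : (s * b) ^ 2 = s ^ 2 * (b : ℝ) ^ 2 := by ring
  have hsb : s ^ 2 * 1 ≤ s ^ 2 * (b : ℝ) ^ 2 := mul_le_mul_of_nonneg_left hb2 (sq_nonneg s)
  have hab := sq_nonneg ((a : ℝ) + b * r)
  have hsD : s ^ 2 < D ^ 2 := by linarith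
  have hr1 := r_bound hD0.le (by linarith) hqR hsD
  have huv : |(a : ℝ) + b * r| < D := by
    apply abs_lt_of_sq_lt hD0.le
    have := sq_nonneg (s * b)
    linarith
  have ha1 : |(b : ℝ)| * |r| - D ≤ |(a : ℝ)| := by
    have h1 : |(b : ℝ) * r| ≤ |(a : ℝ) + b * r| + |(a : ℝ)| := by
      have e : (b : ℝ) * r = (a + b * r) - a := by ring
      calc |(b : ℝ) * r| = |((a : ℝ) + b * r) - a| := by rw [← e]
        _ ≤ _ := abs_sub _ _
    rw [abs_mul] at h1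
    linarith
  have ht3 : |(a : ℝ)| - |(b : ℝ)| * α ≤ |t| := by
    have h1 : |(a : ℝ)| ≤ |t| + |(b : ℝ) * α| := by
      have e : (a : ℝ) = t - b * α := by rw [ht]; ring
      calc |(a : ℝ)| = |t - b * α| := by rw [← e]
        _ ≤ _ := abs_sub _ _
    rw [abs_mul, abs_of_pos hα0] at h1
    linarith
  have hr2 : 0 ≤ |r| - α := by linarith
  have ht4 : q - 2 * D - 1 ≤ |t| := by
    have h1 : (1:ℝ) * (|r| - α) ≤ |(b : ℝ)| * (|r| - α) := mul_le_mul_of_nonneg_right hb1 hr2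
    rw [mul_sub] at h1
    linarith
  have hn3 : 1 / 2 ≤ n2 := by rw [hn2, e1]; linarith
  have h5 : |t| * (1 / 2) ≤ |t| * n2 := mul_le_mul_of_nonneg_left hn3 (abs_nonneg _)
  linarith

theorem coreI_c (T S d : ℤ) (hd : 1 ≤ d) (α r s q : ℝ) (hq : 100 * (d : ℝ) ^ 4 ≤ q)
    (hα : α * q ^ 2 = 1) (hT : (T : ℝ) = α + 2 * r)
    (hS : (S : ℝ) = 2 * r * α + q ^ 2) (hs2 : 1 / 2 ≤ s ^ 2) (hrq : |r| ≤ q)
    (hα0 : 0 < α) (hrα : |r| * α ≤ 1 / q)
    (a b c : ℤ) (hc : c ≠ 0) (t v u n2 : ℝ) (ht : t = a + b * α + c * α ^ 2)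
    (hv : v = b + 2 * r * c) (hu : u = a - c * q ^ 2)
    (hn2 : n2 = (u + v * r) ^ 2 + (s * v) ^ 2)
    (hNlt : |t| * n2 < d ^ 3) (ht1 : (d : ℝ) ≤ |t|) (ht2 : |t| < d * q ^ 2) :
    a = S * c ∧ b = - T * c := by
  set D : ℝ := (d : ℝ) with hD
  have hD1 : 1 ≤ D := by rw [hD]; exact_mod_cast hd
  have hD0 : 0 < D := by linarith
  obtain ⟨hs1, hs22, hs3, hq1, hqD, hqD2, hqD3⟩ := sizes hD1 hq
  have hq0 : 0 < q := by linarith
  have hq20 : 0 < q ^ 2 := by positivity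
  have hαq : α = 1 / q ^ 2 := by field_simp; linarith
  have hqinv : 1 / q ≤ 1 / 100 := by
    rw [div_le_div_iff₀ hq0 (by norm_num)]; linarith
  have hα1 : α ≤ 1 / 10000 := by
    rw [hαq, div_le_div_iff₀ hq20 (by norm_num)]
    have : (100:ℝ) ^ 2 ≤ q ^ 2 := pow_le_pow_left₀ (by norm_num) hq1 2
    linarith
  have hn20 : 0 ≤ n2 := by rw [hn2]; positivity
  have hn2D : n2 < D ^ 2 := by
    by_contra hcon
    have h1 : D * D ^ 2 ≤ |t| * n2 := mul_le_mul ht1 (not_lt.mp hcon) (by positivity) (abs_nonneg _)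
    have : D * D ^ 2 = D ^ 3 := by ring
    linarith
  have huv : |u + v * r| < D := by
    apply abs_lt_of_sq_lt hD0.le
    have := sq_nonneg (s * v)
    linarith
  have hsv : (s * v) ^ 2 < D ^ 2 := by
    have := sq_nonneg (u + v * r)
    linarith
  have hvD : |v| < 3 / 2 * D := v_bound hD0.le hs2 hsv
  have hvr : |v| * |r| ≤ 3 / 2 * D * q := mul_le_mul hvD.le hrq (abs_nonneg _) (by positivity)
  have hu1 : |u| ≤ D + 3 / 2 * D * q := by
    have e : u = (u + v * r) - v * r := by ring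
    calc |u| = |(u + v * r) - v * r| := by rw [← e]
      _ ≤ |u + v * r| + |v * r| := abs_sub _ _
      _ ≤ _ := by rw [abs_mul]; linarith
  have hvα : |v| * α ≤ D := by
    calc |v| * α ≤ (3 / 2 * D) * (1 / 10000) := mul_le_mul hvD.le hα1 hα0.le (by positivity)
      _ ≤ D := by linarith
  set G : ℝ := α ^ 2 - 2 * r * α + q ^ 2 with hG
  have hGt : t = c * G + u + v * α := by rw [ht, hG, hu, hv]; ring
  have hrα' : |r * α| ≤ 1 / 100 := by rw [abs_mul, abs_of_pos hα0]; linarith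
  have hrα2 := abs_le.mp hrα'
  have hG1 : q ^ 2 - 1 ≤ G := by
    rw [hG]; have := sq_nonneg α; linarith [hrα2.2]
  have hG0 : 0 ≤ G := by
    have : (100:ℝ) ^ 2 ≤ q ^ 2 := pow_le_pow_left₀ (by norm_num) hq1 2
    linarith
  have hc1 : (1 : ℝ) ≤ |(c : ℝ)| := by
    have : 1 ≤ |c| := Int.one_le_abs hc
    exact_mod_cast this
  have hqq : q ^ 2 = q * q := by ring
  have hqqD : 100 * (D * q) ≤ q ^ 2 := by
    rw [hqq]; have := mul_le_mul_of_nonneg_right hqD hq0.le; linarith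
  have hcG : |(c : ℝ)| * G ≤ |t| + |u| + |v| * α := by
    have e : (c : ℝ) * G = t - (u + v * α) := by rw [hGt]; ring
    calc |(c : ℝ)| * G = |(c : ℝ) * G| := by rw [abs_mul, abs_of_nonneg hG0]
      _ = |t - (u + v * α)| := by rw [e]
      _ ≤ |t| + |u + v * α| := abs_sub _ _
      _ ≤ |t| + (|u| + |v * α|) := by linarith [abs_add_le u (v * α)]
      _ = _ := by rw [abs_mul, abs_of_pos hα0]; ring
  have hDq : D ≤ D * q := le_mul_of_one_le_right hD0.le (by linarith)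
  have hDq1 : 1 ≤ D * q := by linarith
  have ht3 : q ^ 2 / 2 ≤ |t| := by
    have h1 : 1 * G ≤ |(c : ℝ)| * G := mul_le_mul_of_nonneg_right hc1 hG0
    have h2 : 3 / 2 * D * q = 3 / 2 * (D * q) := by ring
    linarith
  -- n2 small
  set e : ℝ := 2 * D ^ 2 / q with he
  have he0 : 0 < e := by positivity
  have hn2e : n2 < e ^ 2 := by
    have h1 : q ^ 2 / 2 * n2 < D ^ 3 := lt_of_le_of_lt (mul_le_mul_of_nonneg_right ht3 hn20) hNlt
    have h2 : e ^ 2 = 4 * D ^ 4 / q ^ 2 := by rw [he]; field_simp; ring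
    rw [h2, lt_div_iff₀ hq20]
    linarith
  have huve : |u + v * r| < e := by
    apply abs_lt_of_sq_lt he0.le
    have := sq_nonneg (s * v)
    linarith
  have hsve : (s * v) ^ 2 < e ^ 2 := by
    have := sq_nonneg (u + v * r)
    linarith
  have hve : |v| < 3 / 2 * e := v_bound he0.le hs2 hsve
  have he1 : e ≤ 1 / 50 := by
    rw [he, div_le_div_iff₀ hq0 (by norm_num)]; linarith
  -- |c| < 2D
  have hc2 : |(c : ℝ)| < 2 * D := by
    by_contra hcon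
    have h1 : 2 * D * (q ^ 2 - 1) ≤ |(c : ℝ)| * G :=
      mul_le_mul (not_lt.mp hcon) hG1 (by
        have : (100:ℝ) ^ 2 ≤ q ^ 2 := pow_le_pow_left₀ (by norm_num) hq1 2
        linarith) (abs_nonneg _)
    have h2 : 3 / 2 * D * q = 3 / 2 * (D * q) := by ring
    have h3 : 2 * D * (q ^ 2 - 1) = 2 * (D * q ^ 2) - 2 * D := by ring
    have h4 : 100 * (D * q) ≤ D * q ^ 2 := by
      have : 1 * (100 * (D * q)) ≤ D * q ^ 2 := mul_le_mul hD1 hqqD (by positivity) hD0.le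
      linarith
    linarith
  have hDα : 2 * D * α ≤ 1 / 1000 := by
    have h1 : D * α ≤ 1 / 10000 := by
      rw [hαq, mul_one_div, div_le_div_iff₀ hq20 (by norm_num)]
      have : (100:ℝ) * (100 * D) ≤ q * q := mul_le_mul hq1 hqD (by positivity) hq0.le
      rw [hqq]; linarith
    linarith
  have hcα : |(c : ℝ) * α| ≤ 1 / 1000 := by
    rw [abs_mul, abs_of_pos hα0]
    exact (mul_le_mul_of_nonneg_right hc2.le hα0.le).trans hDα
  have hb : b + T * c = 0 := by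
    apply int_zero_of_abs_lt
    have e1 : ((b + T * c : ℤ) : ℝ) = v + c * α := by push_cast; rw [hT, hv]; ring
    rw [e1]
    have := abs_add_le v (c * α)
    linarith
  have hv3 : v = -(c * α) := by
    have e1 : ((b + T * c : ℤ) : ℝ) = v + c * α := by push_cast; rw [hT, hv]; ring
    rw [hb] at e1
    push_cast at e1
    linarith
  have hDq' : D / q ≤ 1 / 100 := by
    rw [div_le_div_iff₀ hq0 (by norm_num)]; linarith
  have hcr : |(c : ℝ) * α * r| ≤ 2 * (D / q) := by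
    have e1 : |(c : ℝ) * α * r| = |(c : ℝ)| * (|r| * α) := by
      rw [abs_mul, abs_mul, abs_of_pos hα0]; ring
    rw [e1]
    calc |(c : ℝ)| * (|r| * α) ≤ (2 * D) * (1 / q) :=
          mul_le_mul hc2.le hrα (by positivity) (by positivity)
      _ = 2 * (D / q) := by ring
  have ha : a - S * c = 0 := by
    apply int_zero_of_abs_lt
    have e1 : ((a - S * c : ℤ) : ℝ) = (u + v * r) - (c * α * r) := by
      push_cast; rw [hS, hv3, hu]; ring
    rw [e1]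
    have := abs_sub (u + v * r) (c * α * r)
    linarith
  constructor
  · linarith
  · linarith

theorem coreI (T S d : ℤ) (hd : 1 ≤ d) (α r s q : ℝ) (hq : 100 * (d : ℝ) ^ 4 ≤ q)
    (hqR : q ^ 2 = r ^ 2 + s ^ 2) (hα : α * q ^ 2 = 1) (hT : (T : ℝ) = α + 2 * r)
    (hS : (S : ℝ) = 2 * r * α + q ^ 2) (h3 : 3 ≤ 4 * S - T ^ 2)
    (L : AddSubgroup (ℤ × ℤ × ℤ))
    (hC : ∀ a b c, (a, b, c) ∈ L → (c, a - S * c, b + T * c) ∈ L)
    (hd0 : ∀ a, (a, 0, 0) ∈ L → d ∣ a)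
    (a b c : ℤ) (hL : (a, b, c) ∈ L) (hN0 : Nm T S a b c ≠ 0) (hN : |Nm T S a b c| < d ^ 3)
    (ht1 : (d : ℝ) ≤ |(a + b * α + c * α ^ 2 : ℝ)|)
    (ht2 : |(a + b * α + c * α ^ 2 : ℝ)| < d * q ^ 2) : False := by
  have hD1 : (1 : ℝ) ≤ d := by exact_mod_cast hd
  obtain ⟨hs1, hs22, hs3, hq1, hqD, hqD2, hqD3⟩ := sizes hD1 hq
  have hq0 : 0 < q := by linarith
  have hq20 : 0 < q ^ 2 := by positivity
  have hα0 : 0 < α := by
    by_contra hcon
    have := mul_nonpos_of_nonpos_of_nonneg (not_lt.mp hcon) hq20.le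
    linarith
  have hαq : α = 1 / q ^ 2 := by field_simp; linarith
  have hαq1 : α * q = 1 / q := by rw [hαq]; field_simp
  have hα1 : α ≤ 1 / 10000 := by
    rw [hαq, div_le_div_iff₀ hq20 (by norm_num)]
    have : (100:ℝ) ^ 2 ≤ q ^ 2 := pow_le_pow_left₀ (by norm_num) hq1 2
    linarith
  have hrq : |r| ≤ q := by
    apply abs_le_of_sq_le_sq _ hq0.le
    have := sq_nonneg s
    linarith
  have hrα : |r| * α ≤ 1 / q := by
    rw [← hαq1, mul_comm α q]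
    exact mul_le_mul_of_nonneg_right hrq hα0.le
  have hqinv : 1 / q ≤ 1 / 100 := by
    rw [div_le_div_iff₀ hq0 (by norm_num)]; linarith
  have hrα' : |r * α| ≤ 1 / 100 := by rw [abs_mul, abs_of_pos hα0]; linarith
  have hs2 : 1 / 2 ≤ s ^ 2 := by
    have h3' : (3 : ℝ) ≤ 4 * S - T ^ 2 := by exact_mod_cast h3
    rw [hS, hT] at h3'
    exact s2_bound hqR (abs_le.mp hrα').2 h3'
  have hfact : (Nm T S a b c : ℝ) = (a + b * α + c * α ^ 2) *
      ((a - c * q ^ 2 + (b + 2 * r * c) * r) ^ 2 + (s * (b + 2 * r * c)) ^ 2) := by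
    have := Nm_fact T S a b c α r s hT (by rw [hS, hqR]) (by rw [← hqR]; exact hα)
    rw [this, ← hqR]
  have hNlt : |(a + b * α + c * α ^ 2 : ℝ)| *
      ((a - c * q ^ 2 + (b + 2 * r * c) * r) ^ 2 + (s * (b + 2 * r * c)) ^ 2) < d ^ 3 := by
    have h1 : |(Nm T S a b c : ℝ)| < (d : ℝ) ^ 3 := by exact_mod_cast hN
    rwa [hfact, abs_mul, abs_of_nonneg (by positivity : (0:ℝ) ≤
      ((a - c * q ^ 2 + (b + 2 * r * c) * r) ^ 2 + (s * (b + 2 * r * c)) ^ 2))] at h1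
  by_cases hc : c = 0
  · subst hc
    by_cases hb : b = 0
    · subst hb
      have h1 := hd0 a hL
      have hNa : Nm T S a 0 0 = a ^ 3 := by unfold Nm; ring
      rw [hNa] at hN0 hN
      have ha : a ≠ 0 := by rintro rfl; simp at hN0
      have h2 : d ≤ |a| := Int.le_of_dvd (abs_pos.mpr ha) ((dvd_abs _ _).mpr h1)
      rw [abs_pow] at hN
      have h3 : d ^ 3 ≤ |a| ^ 3 := pow_le_pow_left₀ (by linarith) h2 3
      linarith
    · have e1 : (a + b * α + ((0 : ℤ) : ℝ) * α ^ 2 : ℝ) = a + b * α := by push_cast; ring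
      rw [e1] at hNlt ht1
      have e2 : ((a - ((0 : ℤ) : ℝ) * q ^ 2 + (b + 2 * r * ((0 : ℤ) : ℝ)) * r) ^ 2 +
          (s * (b + 2 * r * ((0 : ℤ) : ℝ))) ^ 2) = ((a : ℝ) + b * r) ^ 2 + (s * b) ^ 2 := by
        push_cast; ring
      rw [e2] at hNlt
      exact coreI_c0 d hd α r s q hq hqR hα0 (by linarith) hs2 a b hb _ rfl hNlt ht1
  · obtain ⟨ha, hb⟩ := coreI_c T S d hd α r s q hq hα hT hS hs2 hrq hα0 hrα a b c hc _ _ _ _
      rfl rfl rfl rfl hNlt ht1 ht2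
    have hL2 := hC _ _ _ hL
    rw [ha, hb, show S * c - S * c = 0 by ring, show -T * c + T * c = 0 by ring] at hL2
    have h1 := hd0 c hL2
    have h2 : d ≤ |c| := Int.le_of_dvd (abs_pos.mpr hc) ((dvd_abs _ _).mpr h1)
    have h2' : (d : ℝ) ≤ |(c : ℝ)| := by exact_mod_cast h2
    have e1 : (a + b * α + c * α ^ 2 : ℝ) = c * q ^ 2 := by
      rw [ha, hb]; push_cast; rw [hS, hT]; ring
    rw [e1, abs_mul, abs_of_pos hq20] at ht2
    have := mul_le_mul_of_nonneg_right h2' hq20.le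
    linarith

theorem coreII (k d : ℤ) (hd : 1 ≤ d) (ρ : ℝ) (hρ : 100 * (d : ℝ) ^ 4 ≤ ρ)
    (hk : ρ ^ 2 * (ρ - k) = 1)
    (L : AddSubgroup (ℤ × ℤ × ℤ))
    (hCi : ∀ a b c, (a, b, c) ∈ L → (a * 0 + b, c - a * k, a) ∈ L)
    (hd0 : ∀ a, (a, 0, 0) ∈ L → d ∣ a)
    (a b c : ℤ) (hL : (a, b, c) ∈ L) (hN0 : Nm k 0 a b c ≠ 0) (hN : |Nm k 0 a b c| < d ^ 3)
    (ht1 : (d : ℝ) ≤ |(a + b * ρ + c * ρ ^ 2 : ℝ)|)
    (ht2 : |(a + b * ρ + c * ρ ^ 2 : ℝ)| < d * ρ) : False := by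
  have hD1 : (1 : ℝ) ≤ d := by exact_mod_cast hd
  obtain ⟨hs1, hs22, hs3, hq1, hqD, hqD2, hqD3⟩ := sizes hD1 hρ
  set D : ℝ := (d : ℝ) with hD
  have hD0 : 0 < D := by linarith
  have hρ0 : 0 < ρ := by linarith
  have hρ2 : 10000 ≤ ρ ^ 2 := by
    have : (100:ℝ) ^ 2 ≤ ρ ^ 2 := pow_le_pow_left₀ (by norm_num) hq1 2
    linarith
  obtain ⟨σ, hσ0, hσ⟩ : ∃ σ : ℝ, 0 < σ ∧ σ ^ 2 = ρ := ⟨Real.sqrt ρ, Real.sqrt_pos.mpr hρ0, Real.sq_sqrt hρ0.le⟩
  have hσ1 : 10 * D ^ 2 ≤ σ := by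
    by_contra hcon
    have h1 : σ ^ 2 < (10 * D ^ 2) ^ 2 := pow_lt_pow_left₀ (not_le.mp hcon) hσ0.le (by norm_num)
    have h2 : (10 * D ^ 2) ^ 2 = 100 * D ^ 4 := by ring
    rw [hσ, h2] at h1
    linarith
  have hσ10 : 10 ≤ σ := by linarith
  set r : ℝ := -(1 / (2 * ρ ^ 2)) with hr
  have hkr : (k : ℝ) = ρ + 2 * r := by
    rw [hr]; field_simp; linarith
  have hr1 : |r| ≤ 1 / 20000 := by
    rw [hr, abs_neg, abs_of_pos (by positivity), div_le_div_iff₀ (by positivity) (by norm_num)]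
    linarith
  have hr2 : r ^ 2 ≤ 1 / 2 * (1 / ρ) := by
    rw [hr, neg_sq, div_pow, one_pow, div_le_iff₀ (by positivity)]
    have e1 : 1 / 2 * (1 / ρ) * (2 * ρ ^ 2) ^ 2 = 2 * ρ ^ 3 := by field_simp
    rw [e1]
    have : (100:ℝ) ^ 3 ≤ ρ ^ 3 := pow_le_pow_left₀ (by norm_num) hq1 3
    linarith
  have hs2pos : 1 / 2 * (1 / ρ) ≤ 1 / ρ - r ^ 2 := by linarith
  have hρinv : 0 < 1 / ρ := by positivity
  set s : ℝ := Real.sqrt (1 / ρ - r ^ 2) with hs
  have hs2 : s ^ 2 = 1 / ρ - r ^ 2 := by rw [hs]; exact Real.sq_sqrt (by linarith)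
  have hrs : r ^ 2 + s ^ 2 = 1 / ρ := by rw [hs2]; ring
  have hSρ : ((0 : ℤ) : ℝ) = 2 * r * ρ + (r ^ 2 + s ^ 2) := by
    rw [hrs, hr]; push_cast; field_simp; ring
  set t : ℝ := a + b * ρ + c * ρ ^ 2 with ht
  set v : ℝ := b + 2 * r * c with hv
  set u : ℝ := a - c * (r ^ 2 + s ^ 2) with hu
  set n2 : ℝ := (u + v * r) ^ 2 + (s * v) ^ 2 with hn2
  have hfact : (Nm k 0 a b c : ℝ) = t * n2 :=
    Nm_fact k 0 a b c ρ r s hkr hSρ (by rw [hrs]; field_simp)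
  have hn20 : 0 ≤ n2 := by positivity
  have hNlt : |t| * n2 < D ^ 3 := by
    have h1 : |(Nm k 0 a b c : ℝ)| < D ^ 3 := by rw [hD]; exact_mod_cast hN
    rwa [hfact, abs_mul, abs_of_nonneg hn20] at h1
  have hn2D : n2 < D ^ 2 := by
    by_contra hcon
    have h1 : D * D ^ 2 ≤ |t| * n2 := mul_le_mul ht1 (not_lt.mp hcon) (by positivity) (abs_nonneg _)
    have : D * D ^ 2 = D ^ 3 := by ring
    linarith
  have hvb : ∀ e : ℝ, 0 ≤ e → n2 < e ^ 2 → |u + v * r| < e ∧ |v| < 3 / 2 * e * σ := by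
    intro e he hne
    constructor
    · apply abs_lt_of_sq_lt he
      have := sq_nonneg (s * v)
      linarith
    · have h1 : 1 / 2 ≤ (σ * s) ^ 2 := by
        rw [mul_pow, hσ, hs2]
        have : ρ * (1 / 2 * (1 / ρ)) ≤ ρ * (1 / ρ - r ^ 2) := mul_le_mul_of_nonneg_left hs2pos hρ0.le
        have e1 : ρ * (1 / 2 * (1 / ρ)) = 1 / 2 := by field_simp
        linarith
      have h2 : ((σ * s) * (v / σ)) ^ 2 < e ^ 2 := by
        have e1 : (σ * s) * (v / σ) = s * v := by field_simp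
        rw [e1]
        have := sq_nonneg (u + v * r)
        linarith
      have h3 := v_bound he h1 h2
      rw [abs_div, abs_of_pos hσ0, div_lt_iff₀ hσ0] at h3
      exact h3
  obtain ⟨huv, hvD⟩ := hvb D hD0.le hn2D
  have hσρ : σ ≤ ρ := by rw [← hσ]; exact le_self_pow₀ (by linarith) (by norm_num)
  by_cases hc : c = 0
  · subst hc
    have hv' : v = b := by rw [hv]; push_cast; ring
    have hu' : u = a := by rw [hu]; push_cast; ring
    have ht' : t = a + b * ρ := by rw [ht]; push_cast; ring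
    by_cases hb : b = 0
    · subst hb
      have h1 := hd0 a hL
      have hNa : Nm k 0 a 0 0 = a ^ 3 := by unfold Nm; ring
      rw [hNa] at hN0 hN
      have ha : a ≠ 0 := by rintro rfl; simp at hN0
      have h2 : d ≤ |a| := Int.le_of_dvd (abs_pos.mpr ha) ((dvd_abs _ _).mpr h1)
      rw [abs_pow] at hN
      have h3 : d ^ 3 ≤ |a| ^ 3 := pow_le_pow_left₀ (by linarith) h2 3
      linarith
    · have hb1 : (1 : ℝ) ≤ |(b : ℝ)| := by
        have : 1 ≤ |b| := Int.one_le_abs hb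
        exact_mod_cast this
      have hbr : ∀ e : ℝ, 0 ≤ e → |(b : ℝ)| < 3 / 2 * e * σ → |(b : ℝ)| * |r| ≤ e / 100 := by
        intro e he hbe
        have h1 : |r| = 1 / (2 * ρ ^ 2) := by rw [hr, abs_neg, abs_of_pos (by positivity)]
        rw [h1, mul_one_div, div_le_iff₀ (by positivity)]
        have h2 : e * σ ≤ e * ρ := mul_le_mul_of_nonneg_left hσρ he
        have h3 : e * ρ * 100 ≤ e * ρ ^ 2 := by
          have : e * ρ * 100 ≤ e * ρ * ρ := mul_le_mul_of_nonneg_left hq1 (by positivity)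
          calc _ ≤ _ := this
            _ = _ := by ring
        have h5 : 3 / 2 * e * σ = 3 / 2 * (e * σ) := by ring
        have h6 : e / 100 * (2 * ρ ^ 2) = (e * ρ ^ 2) / 50 := by ring
        have h7 : 0 ≤ e * ρ := by positivity
        linarith
      rw [hv'] at hvD huv
      rw [hu'] at huv
      have ha1 : |(a : ℝ)| ≤ 2 * D := by
        have h1 : |(a : ℝ)| ≤ |(a : ℝ) + b * r| + |(b : ℝ) * r| := by
          have e : (a : ℝ) = (a + b * r) - b * r := by ring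
          calc |(a : ℝ)| = |((a : ℝ) + b * r) - b * r| := by rw [← e]
            _ ≤ _ := abs_sub _ _
        rw [abs_mul] at h1
        have := hbr D hD0.le hvD
        linarith
      have ht3 : ρ / 2 ≤ |t| := by
        have h1 : |(b : ℝ) * ρ| ≤ |t| + |(a : ℝ)| := by
          have e : (b : ℝ) * ρ = t - a := by rw [ht']; ring
          rw [e]; exact abs_sub _ _
        rw [abs_mul, abs_of_pos hρ0] at h1
        have h2 : 1 * ρ ≤ |(b : ℝ)| * ρ := mul_le_mul_of_nonneg_right hb1 hρ0.le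
        linarith
      set e : ℝ := 2 * D ^ 2 / σ with he
      have he0 : 0 < e := by positivity
      have hn2e : n2 < e ^ 2 := by
        have h1 : ρ / 2 * n2 < D ^ 3 := lt_of_le_of_lt (mul_le_mul_of_nonneg_right ht3 hn20) hNlt
        have h2 : e ^ 2 = 4 * D ^ 4 / ρ := by rw [he, div_pow, hσ]; ring
        rw [h2, lt_div_iff₀ hρ0]
        linarith
      obtain ⟨huve, hve⟩ := hvb e he0.le hn2e
      rw [hv'] at hve huve
      rw [hu'] at huve
      have he1 : e ≤ 1 / 5 := by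
        rw [he, div_le_div_iff₀ hσ0 (by norm_num)]; linarith
      have ha0 : a = 0 := by
        apply int_zero_of_abs_lt
        have h1 : |(a : ℝ)| ≤ |(a : ℝ) + b * r| + |(b : ℝ) * r| := by
          have e : (a : ℝ) = (a + b * r) - b * r := by ring
          calc |(a : ℝ)| = |((a : ℝ) + b * r) - b * r| := by rw [← e]
            _ ≤ _ := abs_sub _ _
        rw [abs_mul] at h1
        have := hbr e he0.le hve
        linarith
      subst ha0
      have h1 := hCi _ _ _ hL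
      have h2 := hd0 b (by simpa using h1)
      have h3 : d ≤ |b| := Int.le_of_dvd (abs_pos.mpr hb) ((dvd_abs _ _).mpr h2)
      have h3' : D ≤ |(b : ℝ)| := by rw [hD]; exact_mod_cast h3
      have e1 : t = b * ρ := by rw [ht']; push_cast; ring
      rw [e1, abs_mul, abs_of_pos hρ0] at ht2
      have := mul_le_mul_of_nonneg_right h3' hρ0.le
      linarith
  · have hc1 : (1 : ℝ) ≤ |(c : ℝ)| := by
      have : 1 ≤ |c| := Int.one_le_abs hc
      exact_mod_cast this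
    have hvr : |v| * |r| ≤ D := by
      have h1 : |r| = 1 / (2 * ρ ^ 2) := by rw [hr, abs_neg, abs_of_pos (by positivity)]
      rw [h1, mul_one_div, div_le_iff₀ (by positivity)]
      have h2 : D * σ ≤ D * ρ := mul_le_mul_of_nonneg_left hσρ hD0.le
      have h3 : D * ρ * 100 ≤ D * ρ ^ 2 := by
        have : D * ρ * 100 ≤ D * ρ * ρ := mul_le_mul_of_nonneg_left hq1 (by positivity)
        calc _ ≤ _ := this
          _ = _ := by ring
      have h4 : 0 ≤ D * ρ := by positivity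
      have h5 : 3 / 2 * D * σ = 3 / 2 * (D * σ) := by ring
      linarith
    have hu1 : |u| ≤ 2 * D := by
      have e : u = (u + v * r) - v * r := by ring
      calc |u| = |(u + v * r) - v * r| := by rw [← e]
        _ ≤ |u + v * r| + |v * r| := abs_sub _ _
        _ ≤ _ := by rw [abs_mul]; linarith
    set G : ℝ := ρ ^ 2 - 2 * r * ρ + (r ^ 2 + s ^ 2) with hG
    have hGt : t = c * G + u + v * ρ := by rw [ht, hG, hu, hv]; ring
    have hrneg : r ≤ 0 := by rw [hr]; simp; positivity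
    have hG1 : ρ ^ 2 ≤ G := by
      rw [hG, hrs]
      have : 0 ≤ -r * ρ := mul_nonneg (by linarith) hρ0.le
      linarith
    have hG0 : 0 ≤ G := by linarith [sq_nonneg ρ]
    have hcG : |(c : ℝ)| * G ≤ |t| + |u| + |v| * ρ := by
      have e : (c : ℝ) * G = t - (u + v * ρ) := by rw [hGt]; ring
      calc |(c : ℝ)| * G = |(c : ℝ) * G| := by rw [abs_mul, abs_of_nonneg hG0]
        _ = |t - (u + v * ρ)| := by rw [e]
        _ ≤ |t| + |u + v * ρ| := abs_sub _ _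
        _ ≤ |t| + (|u| + |v * ρ|) := by linarith [abs_add_le u (v * ρ)]
        _ = _ := by rw [abs_mul, abs_of_pos hρ0]; ring
    have h1 : 1 * G ≤ |(c : ℝ)| * G := mul_le_mul_of_nonneg_right hc1 hG0
    have h2 : |v| * ρ ≤ 3 / 2 * (D * σ * ρ) := by
      have := mul_le_mul_of_nonneg_right hvD.le hρ0.le
      linarith
    have h3 : D * ρ ≤ D * σ * ρ := by
      have : D * 1 ≤ D * σ := mul_le_mul_of_nonneg_left (by linarith) hD0.le
      have := mul_le_mul_of_nonneg_right this hρ0.le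
      linarith
    have h4 : 10 * (D * σ * ρ) ≤ ρ ^ 2 := by
      have e1 : ρ ^ 2 = σ * (σ * ρ) := by
        calc ρ ^ 2 = ρ * ρ := by ring
          _ = σ ^ 2 * ρ := by rw [hσ]
          _ = _ := by ring
      have e2 : 10 * (D * σ * ρ) = (10 * D) * (σ * ρ) := by ring
      rw [e1, e2]
      exact mul_le_mul_of_nonneg_right (by linarith) (by positivity)
    have h5 : 2 * D ≤ 2 * (D * ρ) := by
      have : D * 1 ≤ D * ρ := mul_le_mul_of_nonneg_left (by linarith) hD0.le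
      linarith
    have h6 : 0 < D * σ * ρ := by positivity
    linarith

/-- scaling exponent -/
theorem scale_exp (t D R : ℝ) (ht : t ≠ 0) (hD : 0 < D) (hR : 1 < R) :
    ∃ k : ℤ, D ≤ |t| * R ^ (-k) ∧ |t| * R ^ (-k) < D * R := by
  have hR0 : 0 < R := by linarith
  have ht0 : 0 < |t| := abs_pos.mpr ht
  obtain ⟨k, hk1, hk2⟩ := exists_mem_Ico_zpow (x := |t| / D) (by positivity) hR
  refine ⟨k, ?_, ?_⟩
  · rw [zpow_neg, ← div_eq_mul_inv, le_div_iff₀ (zpow_pos hR0 k), mul_comm]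
    rwa [le_div_iff₀ hD] at hk1
  · rw [zpow_neg, ← div_eq_mul_inv, div_lt_iff₀ (zpow_pos hR0 k)]
    rw [div_lt_iff₀ hD, zpow_add_one₀ hR0.ne'] at hk2
    linarith

/-- shift homomorphism -/
def shiftHom (w : ℤ) : ℤ × ℤ × ℤ →+ ℤ × ℤ × ℤ where
  toFun x := (x.1 - w * x.2.1 + w ^ 2 * x.2.2, x.2.1 - 2 * w * x.2.2, x.2.2)
  map_zero' := by simp
  map_add' x y := by
    ext
    · simp; ring
    · simp; ring
    · simp

theorem lattice (T S d : ℤ) (hd : 1 ≤ d) (α r s : ℝ) (hs : s ≠ 0)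
    (hα : α * (r ^ 2 + s ^ 2) = 1) (hT : (T : ℝ) = α + 2 * r)
    (hS : (S : ℝ) = 2 * r * α + (r ^ 2 + s ^ 2)) (hR : (100 * (d : ℝ) ^ 4) ^ 2 ≤ r ^ 2 + s ^ 2)
    (L : AddSubgroup (ℤ × ℤ × ℤ))
    (hC : ∀ a b c, (a, b, c) ∈ L → (c, a - S * c, b + T * c) ∈ L)
    (hCi : ∀ a b c, (a, b, c) ∈ L → (a * S + b, c - a * T, a) ∈ L)
    (hd0 : ∀ a, (a, 0, 0) ∈ L → d ∣ a)
    (a b c : ℤ) (hL : (a, b, c) ∈ L) (hN0 : Nm T S a b c ≠ 0) :
    d ^ 3 ≤ |Nm T S a b c| := by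
  by_contra hcon
  have hN : |Nm T S a b c| < d ^ 3 := not_le.mp hcon
  have hD1 : (1 : ℝ) ≤ d := by exact_mod_cast hd
  have hD0 : (0 : ℝ) < d := by linarith
  have hs0 : 0 < s ^ 2 := by positivity
  have hRpos : 0 < r ^ 2 + s ^ 2 := by positivity
  obtain ⟨q, hq0, hq2⟩ : ∃ q : ℝ, 0 < q ∧ q ^ 2 = r ^ 2 + s ^ 2 :=
    ⟨Real.sqrt (r ^ 2 + s ^ 2), Real.sqrt_pos.mpr hRpos, Real.sq_sqrt hRpos.le⟩
  have hq : 100 * (d : ℝ) ^ 4 ≤ q := by
    rw [← hq2] at hR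
    by_contra h
    have := pow_lt_pow_left₀ (not_le.mp h) hq0.le (two_ne_zero)
    linarith
  obtain ⟨hs1, hs22, hs3, hq1, hqD, hqD2, hqD3⟩ := sizes hD1 hq
  have hα' : α * q ^ 2 = 1 := by rw [hq2]; exact hα
  have hq20 : 0 < q ^ 2 := by positivity
  have hα0 : 0 < α := by
    by_contra hc
    have := mul_nonpos_of_nonpos_of_nonneg (not_lt.mp hc) hq20.le
    linarith
  have hαq : α = 1 / q ^ 2 := by field_simp; linarith
  have hαq1 : α * q = 1 / q := by rw [hαq]; field_simp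
  have hqinv : 1 / q ≤ 1 / 100 := by
    rw [div_le_div_iff₀ hq0 (by norm_num)]; linarith
  have hα1 : α ≤ 1 / 10000 := by
    rw [hαq, div_le_div_iff₀ hq20 (by norm_num)]
    have : (100:ℝ) ^ 2 ≤ q ^ 2 := pow_le_pow_left₀ (by norm_num) hq1 2
    linarith
  have hrq : |r| ≤ q := by
    apply abs_le_of_sq_le_sq _ hq0.le
    linarith
  have hrα : |r * α| ≤ 1 / 100 := by
    rw [abs_mul, abs_of_pos hα0]
    have : |r| * α ≤ q * α := mul_le_mul_of_nonneg_right hrq hα0.le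
    linarith
  have hrα2 := abs_le.mp hrα
  have hdisc : (4 * S - T ^ 2 : ℝ) = 4 * (r * α) + 4 * s ^ 2 - α ^ 2 := by rw [hS, hT]; ring
  have hα2 : α ^ 2 ≤ 1 / 10000 := by
    have : α ^ 2 = α * α := by ring
    rw [this]
    have : α * α ≤ α * 1 := mul_le_mul_of_nonneg_left (by linarith) hα0.le
    linarith
  have hroot : α ^ 3 - T * α ^ 2 + S * α - 1 = 0 := by
    rw [hT, hS]; linear_combination hα
  have hfact := Nm_fact T S a b c α r s hT hS hα
  have ht0 : (a + b * α + c * α ^ 2 : ℝ) ≠ 0 := by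
    intro h
    rw [h, zero_mul] at hfact
    exact hN0 (by exact_mod_cast hfact)
  have hge : 0 ≤ 4 * S - T ^ 2 := by
    have h1 : (-1 : ℝ) < 4 * S - T ^ 2 := by rw [hdisc]; linarith
    have h2 : (-1 : ℤ) < 4 * S - T ^ 2 := by exact_mod_cast h1
    linarith
  by_cases h3 : 3 ≤ 4 * S - T ^ 2
  · obtain ⟨k, hk1, hk2⟩ := scale_exp _ d (q ^ 2) ht0 hD0 (by
      have : (100:ℝ) ^ 2 ≤ q ^ 2 := pow_le_pow_left₀ (by norm_num) hq1 2
      linarith)
    obtain ⟨a', b', c', h1, h2, h4⟩ := normalise T S α hα0 hroot L hC hCi a b c hL k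
    have hαk : α ^ k = (q ^ 2) ^ (-k) := by rw [hαq, one_div, inv_zpow, zpow_neg]
    have habs : |(a' + b' * α + c' * α ^ 2 : ℝ)| = |(a + b * α + c * α ^ 2 : ℝ)| * (q ^ 2) ^ (-k) := by
      rw [h4, abs_mul, hαk, abs_of_pos (zpow_pos hq20 _)]
    rw [← habs] at hk1 hk2
    exact coreI T S d hd α r s q hq hq2 hα' hT (by rw [hS, hq2]) h3 L hC hd0 a' b' c' h1
      (by rw [h2]; exact hN0) (by rw [h2]; exact hN) hk1 hk2
  · have h0 : 4 * S - T ^ 2 = 0 := by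
      have h4 : 4 * S - T ^ 2 < 3 := not_le.mp h3
      rcases Int.even_or_odd' T with ⟨m, hm | hm⟩
      · rw [hm] at h4 hge ⊢
        ring_nf at h4 hge ⊢
        omega
      · rw [hm] at h4 hge ⊢
        ring_nf at h4 hge ⊢
        omega
    obtain ⟨w, hw⟩ : ∃ w, T = 2 * w := by
      rcases Int.even_or_odd' T with ⟨m, hm | hm⟩
      · exact ⟨m, hm⟩
      · exfalso
        rw [hm] at h0
        ring_nf at h0
        omega
    have hSw : S = w ^ 2 := by rw [hw] at h0; linarith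
    subst hw
    subst hSw
    have h0' : (0 : ℝ) = 4 * (r * α) + 4 * s ^ 2 - α ^ 2 := by
      rw [← hdisc]; push_cast; ring
    have hwr : (w : ℝ) = α / 2 + r := by push_cast at hT; linarith
    have hw0 : w ≤ 0 := by
      have h5 : (w : ℝ) < 1 := by
        by_contra hc
        have h6 : 1 / 2 ≤ r := by linarith [not_lt.mp hc]
        have h7 : 1 / 2 * α ≤ r * α := mul_le_mul_of_nonneg_right h6 hα0.le
        have h8 : α ^ 2 ≤ 1 / 2 * α := by
          have : α * α ≤ (1 / 2) * α := mul_le_mul_of_nonneg_right (by linarith) hα0.le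
          linarith [sq α]
        linarith
      have h6 : w < 1 := by exact_mod_cast h5
      linarith
    have hw0' : (w : ℝ) ≤ 0 := by exact_mod_cast hw0
    have hsq : (α - w) ^ 2 = q ^ 2 := by
      have h5 : α * (α - w) ^ 2 = α * q ^ 2 := by
        rw [hα']; push_cast at hroot; linear_combination hroot
      exact mul_left_cancel₀ hα0.ne' h5
    have hρ : α - w = q := by
      have h5 : 0 ≤ α - w := by linarith
      exact (pow_left_inj₀ h5 hq0.le (by norm_num)).mp hsq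
    have hk : q ^ 2 * (q - ((-w : ℤ) : ℝ)) = 1 := by
      have h5 : q - ((-w : ℤ) : ℝ) = α := by push_cast; linarith
      rw [h5]; linarith
    let L' : AddSubgroup (ℤ × ℤ × ℤ) := L.comap (shiftHom w)
    have hmem : ∀ x y z : ℤ, (x, y, z) ∈ L' ↔ (x - w * y + w ^ 2 * z, y - 2 * w * z, z) ∈ L :=
      fun x y z => Iff.rfl
    have hsub : ∀ x y z x' y' z' : ℤ, (x, y, z) ∈ L → (x', y', z') ∈ L →
        (x - w * x', y - w * y', z - w * z') ∈ L := by
      intro x y z x' y' z' h1 h2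
      have h5 := L.sub_mem h1 (L.zsmul_mem h2 w)
      simpa using h5
    have hC' : ∀ x y z, (x, y, z) ∈ L' → (z, x - 0 * z, y + (-w) * z) ∈ L' := by
      intro x y z h
      rw [hmem] at h ⊢
      have h5 := hC _ _ _ h
      have h6 := hsub _ _ _ _ _ _ h5 h
      convert h6 using 1
      ext <;> simp <;> ring
    have hCi' : ∀ x y z, (x, y, z) ∈ L' → (x * 0 + y, z - x * (-w), x) ∈ L' := by
      intro x y z h
      have h7 := hC' _ _ _ h
      rw [hmem] at h7 h ⊢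
      have h5 := hC _ _ _ h
      have h6 := hC _ _ _ h7
      -- B⁻¹ = M B
      convert h6 using 1
      ext <;> simp <;> ring
    have hd0' : ∀ x, (x, 0, 0) ∈ L' → d ∣ x := by
      intro x h
      rw [hmem] at h
      exact hd0 x (by simpa using h)
    have hL' : (a + b * w + c * w ^ 2, b + 2 * w * c, c) ∈ L' := by
      rw [hmem]
      convert hL using 1
      ext <;> simp <;> ring
    have hNeq : Nm (-w) 0 (a + b * w + c * w ^ 2) (b + 2 * w * c) c = Nm (2 * w) (w ^ 2) a b c := by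
      rw [Nm_shift]; congr 1 <;> ring
    have hrootB : q ^ 3 - ((-w : ℤ) : ℝ) * q ^ 2 + ((0 : ℤ) : ℝ) * q - 1 = 0 := by
      push_cast at hk ⊢; linear_combination hk
    have ht0' : (((a + b * w + c * w ^ 2 : ℤ) : ℝ) + ((b + 2 * w * c : ℤ) : ℝ) * q + c * q ^ 2 : ℝ) ≠ 0 := by
      have e : (((a + b * w + c * w ^ 2 : ℤ) : ℝ) + ((b + 2 * w * c : ℤ) : ℝ) * q + c * q ^ 2 : ℝ) =
          a + b * α + c * α ^ 2 := by
        rw [← hρ]; push_cast; ring
      rw [e]; exact ht0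
    obtain ⟨k, hk1, hk2⟩ := scale_exp _ d q ht0' hD0 (by linarith)
    obtain ⟨a', b', c', h1, h2, h4⟩ := normalise (-w) 0 q hq0 hrootB L' hC' hCi' _ _ _ hL' (-k)
    have habs : |(a' + b' * q + c' * q ^ 2 : ℝ)| =
        |(((a + b * w + c * w ^ 2 : ℤ) : ℝ) + ((b + 2 * w * c : ℤ) : ℝ) * q + c * q ^ 2 : ℝ)| *
          q ^ (-k) := by
      rw [h4, abs_mul, abs_of_pos (zpow_pos hq0 _)]
    rw [← habs] at hk1 hk2
    exact coreII (-w) d hd q hq hk L' hCi' hd0' a' b' c' h1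
      (by rw [h2, hNeq]; exact hN0) (by rw [h2, hNeq]; exact hN) hk1 hk2

end Pool.Agent.H26.NRS
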