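import Mathlib
import Pool.Agent.H26.NRSLattice

set_option autoImplicit false

open Matrix

namespace Pool.Agent.H26.NRS

abbrev V3 := Fin 3 → ℤ
abbrev M3 := Matrix (Fin 3) (Fin 3) ℤ

/-- the determinant `det(x, Mx, M²x)` -/
def F (M : M3) (x : V3) : ℤ := (Matrix.of ![x, M *ᵥ x, M *ᵥ (M *ᵥ x)]).det

/-- sum of the principal 2-minors -/
def S2 (M : M3) : ℤ :=
  M 0 0 * M 1 1 - M 0 1 * M 1 0 + (M 0 0 * M 2 2 - M 0 2 * M 2 0) + (M 1 1 * M 2 2 - M 1 2 * M 2 1)

/-- trace -/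
def T1 (M : M3) : ℤ := M 0 0 + M 1 1 + M 2 2

theorem det_Q (M : M3) (hM : M.det = 1) (a b c : ℤ) :
    (a • (1 : M3) + b • M + c • (M * M)).det = Nm (T1 M) (S2 M) a b c := by
  rw [det_fin_three] at hM ⊢
  simp only [Matrix.add_apply, Matrix.smul_apply, Matrix.mul_apply, Fin.sum_univ_three, smul_eq_mul,
    Matrix.one_apply, Fin.isValue]
  unfold Nm T1 S2
  generalize M 0 0 = m00 at *
  generalize M 0 1 = m01 at *
  generalize M 0 2 = m02 at *
  generalize M 1 0 = m10 at *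
  generalize M 1 1 = m11 at *
  generalize M 1 2 = m12 at *
  generalize M 2 0 = m20 at *
  generalize M 2 1 = m21 at *
  generalize M 2 2 = m22 at *
  simp only [Fin.isValue, Fin.reduceEq, if_true, if_false, mul_one, mul_zero, zero_add]
  linear_combination (-3 * a * b * c - 2 * (m00 + m11 + m22) * a * c ^ 2 + b ^ 3 +
    b ^ 2 * c * (m00 + m11 + m22) +
    b * c ^ 2 * (m00 * m11 - m01 * m10 + (m00 * m22 - m02 * m20) + (m11 * m22 - m12 * m21)) +
    c ^ 3 * ((m00 * m11 * m22 - m00 * m12 * m21 - m01 * m10 * m22 + m01 * m12 * m20 +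
      m02 * m10 * m21 - m02 * m11 * m20) + 1)) * hM

theorem rows_mul (N : M3) (u v w : V3) :
    (Matrix.of ![u, v, w]) * Nᵀ = Matrix.of ![N *ᵥ u, N *ᵥ v, N *ᵥ w] := by
  ext i j
  fin_cases i <;> simp [Matrix.mul_apply, Matrix.mulVec, dotProduct, mul_comm]

theorem F_comm (M N : M3) (h : M * N = N * M) (x : V3) : F M (N *ᵥ x) = F M x * N.det := by
  unfold F
  have h1 : ∀ y : V3, M *ᵥ (N *ᵥ y) = N *ᵥ (M *ᵥ y) := by
    intro y
    rw [mulVec_mulVec, h, ← mulVec_mulVec]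
  rw [← det_transpose N, ← det_mul, rows_mul, h1, h1]

theorem F_smul (M : M3) (k : ℤ) (x : V3) : F M (k • x) = k ^ 3 * F M x := by
  have h : k • x = (k • (1 : M3)) *ᵥ x := by rw [smul_mulVec, one_mulVec]
  rw [h, F_comm M (k • 1) (by
    rw [Matrix.mul_smul, Matrix.smul_mul, Matrix.mul_one, Matrix.one_mul])]
  rw [det_smul, det_one]; simp; ring

/-- Cayley-Hamilton for 3x3 -/
theorem CH (M : M3) (hM : M.det = 1) : M * (M * M) = T1 M • (M * M) - S2 M • M + 1 := by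
  rw [det_fin_three] at hM
  ext i j
  fin_cases i <;> fin_cases j <;>
    simp only [Matrix.sub_apply, Matrix.add_apply, Matrix.smul_apply, Matrix.mul_apply,
      Fin.sum_univ_three, smul_eq_mul, Matrix.one_apply, Fin.isValue, T1, S2,
      Fin.zero_eta, Fin.mk_one, Fin.reduceFinMk, Fin.reduceEq, if_true, if_false] <;>
    first
      | linear_combination hM
      | ring

/-- `a + b M + c M²` -/
def Q (M : M3) (a b c : ℤ) : M3 := a • (1 : M3) + b • M + c • (M * M)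

theorem Q_comm (M : M3) (a b c : ℤ) : M * Q M a b c = Q M a b c * M := by
  unfold Q
  simp only [Matrix.mul_add, Matrix.add_mul, Matrix.mul_smul, Matrix.smul_mul, Matrix.mul_one,
    Matrix.one_mul, Matrix.mul_assoc]

theorem Q_C (M : M3) (hM : M.det = 1) (a b c : ℤ) :
    M * Q M a b c = Q M c (a - S2 M * c) (b + T1 M * c) := by
  unfold Q
  simp only [Matrix.mul_add, Matrix.mul_smul, Matrix.mul_one]
  rw [CH M hM]
  module

theorem Q_Ci (M : M3) (hM : M.det = 1) (a b c : ℤ) :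
    (M * M - T1 M • M + S2 M • (1 : M3)) * Q M a b c =
      Q M (a * S2 M + b) (c - a * T1 M) a := by
  have h1 : (M * M - T1 M • M + S2 M • (1 : M3)) * M = 1 := by
    have h2 := CH M hM
    rw [Matrix.add_mul, Matrix.sub_mul, Matrix.mul_assoc, h2, Matrix.smul_mul, Matrix.smul_mul,
      Matrix.one_mul]
    abel
  unfold Q
  rw [Matrix.mul_add, Matrix.mul_add, Matrix.mul_smul, Matrix.mul_smul, Matrix.mul_smul,
    ← Matrix.mul_assoc _ M M, h1, Matrix.one_mul, Matrix.mul_one]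
  module

/-- the lattice -/
def Lat (M : M3) (e : V3) : AddSubgroup (ℤ × ℤ × ℤ) where
  carrier := {y | ∃ x : V3, (F M e) • x = Q M y.1 y.2.1 y.2.2 *ᵥ e}
  add_mem' := by
    rintro y z ⟨x, hx⟩ ⟨x', hx'⟩
    refine ⟨x + x', ?_⟩
    rw [smul_add, hx, hx', ← add_mulVec]
    congr 1
    unfold Q
    simp only [Prod.fst_add, Prod.snd_add]
    module
  zero_mem' := ⟨0, by simp [Q]⟩
  neg_mem' := by
    rintro y ⟨x, hx⟩
    refine ⟨-x, ?_⟩
    rw [smul_neg, hx, ← neg_mulVec]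
    congr 1
    unfold Q
    simp only [Prod.fst_neg, Prod.snd_neg]
    module

theorem mem_Lat (M : M3) (e : V3) (a b c : ℤ) :
    (a, b, c) ∈ Lat M e ↔ ∃ x : V3, (F M e) • x = Q M a b c *ᵥ e := Iff.rfl

theorem exists_coord (M : M3) (e x : V3) : ∃ a b c : ℤ, (F M e) • x = Q M a b c *ᵥ e := by
  set K : M3 := Matrix.of ![e, M *ᵥ e, M *ᵥ (M *ᵥ e)] with hK
  let y : V3 := x ᵥ* K.adjugate
  refine ⟨y 0, y 1, y 2, ?_⟩
  have h1 : y ᵥ* K = F M e • x := by
    show (x ᵥ* K.adjugate) ᵥ* K = _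
    rw [vecMul_vecMul, adjugate_mul, vecMul_smul, vecMul_one]
    rfl
  rw [← h1]
  unfold Q
  rw [add_mulVec, add_mulVec, smul_mulVec, smul_mulVec, smul_mulVec, one_mulVec, ← mulVec_mulVec]
  funext j
  simp [K, Matrix.vecMul, dotProduct, Fin.sum_univ_three]

theorem Nm_eq (M : M3) (hM : M.det = 1) (e x : V3) (hd : F M e ≠ 0) (a b c : ℤ)
    (h : (F M e) • x = Q M a b c *ᵥ e) : Nm (T1 M) (S2 M) a b c = (F M e) ^ 2 * F M x := by
  have h1 : F M ((F M e) • x) = F M e * (Q M a b c).det := by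
    rw [h, F_comm M _ (Q_comm M a b c)]
  rw [F_smul] at h1
  have h2 := det_Q M hM a b c
  have h3 : (Q M a b c).det = Nm (T1 M) (S2 M) a b c := h2
  rw [← h3]
  apply mul_left_cancel₀ hd
  linear_combination -h1

/-- main bound when the complex place is large -/
theorem thmB (M : M3) (hM : M.det = 1) (e : V3) (he : ∀ (k : ℤ) (x : V3) (a : ℤ), k • x = a • e → k ∣ a)
    (hd : F M e ≠ 0) (α r s : ℝ) (hs : s ≠ 0)
    (hα : α * (r ^ 2 + s ^ 2) = 1) (hT : (T1 M : ℝ) = α + 2 * r)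
    (hS : (S2 M : ℝ) = 2 * r * α + (r ^ 2 + s ^ 2))
    (hR : (100 * ((|F M e| : ℤ) : ℝ) ^ 4) ^ 2 ≤ r ^ 2 + s ^ 2)
    (x : V3) (hx : F M x ≠ 0) : |F M e| ≤ |F M x| := by
  obtain ⟨a, b, c, habc⟩ := exists_coord M e x
  have hN := Nm_eq M hM e x hd a b c habc
  have hlat := lattice (T1 M) (S2 M) |F M e| (Int.one_le_abs hd) α r s hs hα hT hS hR (Lat M e)
    (by
      intro a b c h
      rw [mem_Lat] at h ⊢
      obtain ⟨x, hx⟩ := h
      refine ⟨M *ᵥ x, ?_⟩
      rw [← Q_C M hM, ← mulVec_mulVec, ← hx, mulVec_smul])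
    (by
      intro a b c h
      rw [mem_Lat] at h ⊢
      obtain ⟨x, hx⟩ := h
      refine ⟨(M * M - T1 M • M + S2 M • (1 : M3)) *ᵥ x, ?_⟩
      rw [← Q_Ci M hM, ← mulVec_mulVec, ← hx, mulVec_smul])
    (by
      intro a h
      rw [mem_Lat] at h
      obtain ⟨x, hx⟩ := h
      have e1 : Q M a 0 0 *ᵥ e = a • e := by
        unfold Q; simp [smul_mulVec]
      rw [e1] at hx
      exact (abs_dvd _ _).mpr (he _ _ _ hx))
    a b c ((mem_Lat _ _ _ _ _).mpr ⟨x, habc⟩)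
    (by rw [hN]; exact mul_ne_zero (pow_ne_zero 2 hd) hx)
  rw [hN, abs_mul, abs_pow] at hlat
  have h2 : 0 < |F M e| ^ 2 := by positivity
  have h3 : |F M e| ^ 2 * |F M e| ≤ |F M e| ^ 2 * |F M x| := by
    calc _ = |F M e| ^ 3 := by ring
      _ ≤ _ := hlat
  exact le_of_mul_le_mul_left h3 h2

theorem F_adj (M : M3) (hM : M.det = 1) (x : V3) : F M.adjugate x = - F M x := by
  have h1 : M * M.adjugate = 1 := by rw [mul_adjugate, hM, one_smul]
  have h2 : M.adjugate * M = 1 := by rw [adjugate_mul, hM, one_smul]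
  have hdet : M.adjugate.det = 1 := by
    have := congrArg Matrix.det h1
    rw [det_mul, hM, one_mul, det_one] at this
    exact this
  set N := M.adjugate with hN
  set y := N *ᵥ (N *ᵥ x) with hy
  have e1 : M *ᵥ y = N *ᵥ x := by
    rw [hy, mulVec_mulVec, h1, one_mulVec]
  have e2 : M *ᵥ (M *ᵥ y) = x := by
    rw [e1, mulVec_mulVec, h1, one_mulVec]
  have e3 : F M y = F M x := by
    rw [hy, F_comm M N (by rw [h1, h2]), F_comm M N (by rw [h1, h2]), hdet]; ring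
  rw [← e3]
  have e4 : F N x = (Matrix.of ![M *ᵥ (M *ᵥ y), M *ᵥ y, y]).det := by
    unfold F
    rw [e2, e1]
  rw [e4]
  unfold F
  rw [det_fin_three, det_fin_three]
  simp
  ring

theorem T1_adj (M : M3) : T1 M.adjugate = S2 M := by
  unfold T1 S2
  rw [adjugate_fin_three]
  simp
  ring

theorem S2_adj (M : M3) (hM : M.det = 1) : S2 M.adjugate = T1 M := by
  rw [det_fin_three] at hM
  unfold T1 S2
  rw [adjugate_fin_three]
  simp
  linear_combination (M 0 0 + M 1 1 + M 2 2) * hM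

end Pool.Agent.H26.NRS
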