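import Mathlib

set_option autoImplicit false
set_option linter.style.haveILetI false

namespace Pool.Agent.H26.PCF

open Finset

/-- the quadratic map -/
def F {R : Type} [CommRing R] (c : R) : R → R := fun z => z ^ 2 + c

section gen
variable {R S : Type} [CommRing R] [CommRing S]

theorem F_sub (c x y : R) : F c x - F c y = (x - y) * (x + y) := by
  unfold F; ring

theorem iter_sub (c x y : R) (n : ℕ) : (F c)^[n] x - (F c)^[n] y =
    (x - y) * ∏ l ∈ range n, ((F c)^[l] x + (F c)^[l] y) := by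
  induction n with
  | zero => simp
  | succ n ih =>
    rw [Function.iterate_succ_apply', Function.iterate_succ_apply', F_sub, ih, prod_range_succ]
    ring

theorem map_iter (φ : R →+* S) (c x : R) (n : ℕ) :
    φ ((F c)^[n] x) = (F (φ c))^[n] (φ x) := by
  induction n with
  | zero => rfl
  | succ n ih =>
    rw [Function.iterate_succ_apply', Function.iterate_succ_apply', ← ih]
    unfold F; rw [map_add, map_pow]

end gen

theorem ev_periodic {α : Type} (f : α → α) (x : α) (a b : ℕ) (hab : a < b)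
    (h : f^[a] x = f^[b] x) (n : ℕ) (hn : a ≤ n) (k : ℕ) : f^[n + k * (b - a)] x = f^[n] x := by
  have h1 : ∀ n, a ≤ n → f^[n + (b - a)] x = f^[n] x := by
    intro n hn
    have e1 : n + (b - a) = (n - a) + b := by omega
    have e2 : n = (n - a) + a := by omega
    rw [e1, Function.iterate_add_apply, ← h, ← Function.iterate_add_apply, ← e2]
  induction k with
  | zero => simp
  | succ k ih =>
    rw [Nat.succ_mul, ← add_assoc, h1 _ (by omega), ih]

/-- Lemma R -/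
theorem lemR {p : ℕ} [Fact p.Prime] (g : ℤ_[p] → ℤ_[p]) (κ : ℝ) (hκ0 : 0 < κ) (hκ1 : κ ≤ 1)
    (hg : ∀ x y, ‖x‖ < 1 → ‖y‖ < 1 → ‖g x - g y‖ = κ * ‖x - y‖ * ‖x + y‖)
    (y : ℤ_[p]) (hy1 : ‖y‖ < 1) (h0 : g y ≠ y) (h2 : ‖g y - y‖ < ‖(2 : ℤ_[p])‖ * ‖y‖) :
    ∀ a b : ℕ, a < b → g^[a] y ≠ g^[b] y := by
  have h2le : ‖(2 : ℤ_[p])‖ ≤ 1 := PadicInt.norm_le_one _
  have hy0 : 0 < ‖y‖ := by
    by_contra hcon
    have : ‖y‖ = 0 := le_antisymm (not_lt.mp hcon) (norm_nonneg _)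
    rw [this, mul_zero] at h2
    exact absurd h2 (not_lt.mpr (norm_nonneg _))
  have h20 : 0 < ‖(2 : ℤ_[p])‖ := by
    by_contra hcon
    have : ‖(2 : ℤ_[p])‖ = 0 := le_antisymm (not_lt.mp hcon) (norm_nonneg _)
    rw [this, zero_mul] at h2
    exact absurd h2 (not_lt.mpr (norm_nonneg _))
  set r : ℝ := κ * (‖(2 : ℤ_[p])‖ * ‖y‖) with hr
  have hr0 : 0 < r := by positivity
  have hr1 : r < 1 := by
    calc r ≤ 1 * (1 * ‖y‖) := by
          apply mul_le_mul hκ1 _ (by positivity) zero_le_one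
          exact mul_le_mul_of_nonneg_right h2le (norm_nonneg _)
      _ < 1 := by linarith
  have hd0 : 0 < ‖g y - y‖ := norm_pos_iff.mpr (sub_ne_zero.mpr h0)
  have key : ∀ k : ℕ, ‖g^[k] y‖ = ‖y‖ ∧ ‖g^[k + 1] y - g^[k] y‖ = r ^ k * ‖g y - y‖ := by
    intro k
    induction k with
    | zero => simp
    | succ k ih =>
      obtain ⟨ih1, ih2⟩ := ih
      set Y := g^[k] y with hY
      have hY1 : g^[k + 1] y = g Y := Function.iterate_succ_apply' _ _ _
      have hY2 : g^[k + 1 + 1] y = g (g Y) := by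
        rw [Function.iterate_succ_apply', hY1]
      rw [hY1] at ih2
      rw [hY2, hY1]
      have hrk : r ^ k ≤ 1 := pow_le_one₀ hr0.le hr1.le
      have hlt : ‖g Y - Y‖ < ‖(2 : ℤ_[p])‖ * ‖y‖ := by
        rw [ih2]
        calc r ^ k * ‖g y - y‖ ≤ 1 * ‖g y - y‖ := mul_le_mul_of_nonneg_right hrk (norm_nonneg _)
          _ < _ := by rw [one_mul]; exact h2
      have hlt' : ‖g Y - Y‖ < ‖Y‖ := by
        rw [ih1]
        calc _ < ‖(2 : ℤ_[p])‖ * ‖y‖ := hlt
          _ ≤ 1 * ‖y‖ := mul_le_mul_of_nonneg_right h2le (norm_nonneg _)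
          _ = ‖y‖ := one_mul _
      have hgY : ‖g Y‖ = ‖y‖ := by
        have e : g Y = (g Y - Y) + Y := by ring
        rw [e, IsUltrametricDist.norm_add_eq_max_of_norm_ne_norm hlt'.ne, max_eq_right hlt'.le, ih1]
      refine ⟨hgY, ?_⟩
      have hYlt : ‖Y‖ < 1 := by rw [ih1]; exact hy1
      rw [hg (g Y) Y (by rw [hgY]; exact hy1) hYlt]
      have hsum : ‖g Y + Y‖ = ‖(2 : ℤ_[p])‖ * ‖y‖ := by
        have e : g Y + Y = (g Y - Y) + 2 * Y := by ring
        have h2Y : ‖2 * Y‖ = ‖(2 : ℤ_[p])‖ * ‖y‖ := by rw [norm_mul, ih1]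
        rw [e, IsUltrametricDist.norm_add_eq_max_of_norm_ne_norm (by rw [h2Y]; exact hlt.ne), h2Y,
          max_eq_right hlt.le]
      rw [hsum, ih2, hr]; ring
  intro a b hab heq
  have h1 := (key a).2
  have h3 := (key b).2
  have h4 : g^[a + 1] y = g^[b + 1] y := by
    rw [Function.iterate_succ_apply', Function.iterate_succ_apply', heq]
  rw [h4, heq, h3] at h1
  have h5 : r ^ b = r ^ a := mul_right_cancel₀ hd0.ne' h1
  have h6 : r ^ b < r ^ a := pow_lt_pow_right_of_lt_one₀ hr0 hr1 hab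
  exact absurd h5 h6.ne

/-- near-isometry lemma -/
theorem near_iter {p : ℕ} [Fact p.Prime] (G : ℤ_[p] → ℤ_[p]) (D : Set ℤ_[p])
    (hD : ∀ x ∈ D, G x ∈ D) (ε : ℝ) (hε0 : 0 ≤ ε) (hε : ε ≤ 1)
    (hE : ∀ x ∈ D, ∀ y ∈ D, ‖G x - G y - (x - y)‖ ≤ ε * ‖x - y‖) (n : ℕ) :
    (∀ x ∈ D, G^[n] x ∈ D) ∧
    ∀ x ∈ D, ∀ y ∈ D, ‖G^[n] x - G^[n] y - (x - y)‖ ≤ ε * ‖x - y‖ := by
  induction n with
  | zero => exact ⟨fun x hx => hx, fun x _ y _ => by simp; positivity⟩
  | succ n ih =>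
    obtain ⟨ih1, ih2⟩ := ih
    refine ⟨fun x hx => by rw [Function.iterate_succ_apply']; exact hD _ (ih1 x hx), ?_⟩
    intro x hx y hy
    rw [Function.iterate_succ_apply', Function.iterate_succ_apply']
    have h1 := hE _ (ih1 x hx) _ (ih1 y hy)
    have h2 := ih2 x hx y hy
    have h3 : ‖G^[n] x - G^[n] y‖ ≤ ‖x - y‖ := by
      have e : G^[n] x - G^[n] y = (G^[n] x - G^[n] y - (x - y)) + (x - y) := by ring
      rw [e]
      refine (IsUltrametricDist.norm_add_le_max _ _).trans (max_le ?_ le_rfl)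
      refine h2.trans ?_
      calc ε * ‖x - y‖ ≤ 1 * ‖x - y‖ := mul_le_mul_of_nonneg_right hε (norm_nonneg _)
        _ = _ := one_mul _
    have e : G (G^[n] x) - G (G^[n] y) - (x - y) =
      (G (G^[n] x) - G (G^[n] y) - (G^[n] x - G^[n] y)) + (G^[n] x - G^[n] y - (x - y)) := by ring
    rw [e]
    refine (IsUltrametricDist.norm_add_le_max _ _).trans (max_le ?_ h2)
    exact h1.trans (mul_le_mul_of_nonneg_left h3 hε0)

theorem near_fixed {p : ℕ} [Fact p.Prime] (k : ℕ) : ∀ (G : ℤ_[p] → ℤ_[p]) (D : Set ℤ_[p])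
    (_ : ∀ x ∈ D, G x ∈ D)
    (_ : ∀ x ∈ D, ∀ y ∈ D, ‖G x - G y - (x - y)‖ ≤ (p : ℝ) ^ (-(2 : ℤ)) * ‖x - y‖)
    (_ : 1 ≤ k) (w : ℤ_[p]) (_ : w ∈ D) (_ : G^[k] w = w), G w = w := by
  have hp : p.Prime := Fact.out
  have hp1 : (1:ℝ) < p := by exact_mod_cast hp.one_lt
  induction k using Nat.strong_induction_on with
  | _ k ih =>
  intro G D hD hE hk w hw hfix
  have hε0 : (0:ℝ) ≤ (p : ℝ) ^ (-(2 : ℤ)) := by positivity
  have hε1 : (p : ℝ) ^ (-(2 : ℤ)) ≤ 1 := zpow_le_one_of_nonpos₀ hp1.le (by norm_num)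
  by_contra hne
  have hh : 0 < ‖G w - w‖ := norm_pos_iff.mpr (sub_ne_zero.mpr hne)
  have hsum : ∀ n : ℕ, ‖G^[n] w - w - n * (G w - w)‖ ≤ (p : ℝ) ^ (-(2 : ℤ)) * ‖G w - w‖ := by
    intro n
    induction n with
    | zero => simp; positivity
    | succ n ihn =>
      have h1 := (near_iter G D hD _ hε0 hε1 hE n).2 (G w) (hD w hw) w hw
      have e : G^[n + 1] w - w - ((n + 1 : ℕ) : ℤ_[p]) * (G w - w) =
          (G^[n] (G w) - G^[n] w - (G w - w)) + (G^[n] w - w - n * (G w - w)) := by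
        rw [Function.iterate_succ_apply]; push_cast; ring
      rw [e]
      exact (IsUltrametricDist.norm_add_le_max _ _).trans (max_le h1 ihn)
  have hdiv : ∀ n : ℕ, G^[n] w = w → ‖(n : ℤ_[p])‖ ≤ (p : ℝ) ^ (-(2 : ℤ)) := by
    intro n hn
    have h1 := hsum n
    rw [hn, sub_self, zero_sub, norm_neg, norm_mul] at h1
    exact le_of_mul_le_mul_right h1 hh
  have hnp : ¬ G^[p] w = w := by
    intro h
    have h1 := hdiv p h
    rw [PadicInt.norm_p] at h1
    have h2 : (p : ℝ) ^ (-(2 : ℤ)) < (p : ℝ)⁻¹ := by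
      rw [← zpow_neg_one]
      exact zpow_lt_zpow_right₀ hp1 (by norm_num)
    linarith
  have hpk : p ∣ k := by
    have h1 := hdiv k hfix
    have h2 : ‖((k : ℤ) : ℤ_[p])‖ < 1 := by
      push_cast
      refine lt_of_le_of_lt h1 ?_
      exact zpow_lt_one_of_neg₀ hp1 (by norm_num)
    rw [PadicInt.norm_intCast_lt_one_iff] at h2
    exact_mod_cast h2
  obtain ⟨k', rfl⟩ := hpk
  have hk' : 1 ≤ k' := by
    rcases Nat.eq_zero_or_pos k' with h | h
    · subst h; simp at hk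
    · exact h
  have hlt : k' < p * k' := by
    have := hp.one_lt
    nlinarith
  obtain ⟨hD', hE'⟩ := near_iter G D hD _ hε0 hε1 hE p
  apply hnp
  apply ih k' hlt (G^[p]) D hD' hE' hk' w hw
  rw [← Function.iterate_mul]; exact hfix

theorem orb_contra {α : Type} (f : α → α) (x : α) (a b : ℕ) (hab : a < b)
    (h : f^[a] x = f^[b] x) (n t : ℕ) (hn : 1 ≤ n)
    (hne : ∀ a b : ℕ, a < b → (f^[n])^[a] (f^[t] x) ≠ (f^[n])^[b] (f^[t] x)) : False := by
  apply hne a b hab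
  rw [← Function.iterate_mul, ← Function.iterate_mul, ← Function.iterate_add_apply,
    ← Function.iterate_add_apply]
  have e : n * b + t = (n * a + t) + n * (b - a) := by
    have : n * b = n * a + n * (b - a) := by rw [← mul_add]; congr 1; omega
    omega
  rw [e]
  exact (ev_periodic f x a b hab h (n * a + t) (by nlinarith) n).symm

theorem norm_prod_eq_one {p : ℕ} [Fact p.Prime] (s : Finset ℕ) (f : ℕ → ℤ_[p])
    (h : ∀ i ∈ s, ‖f i‖ = 1) : ‖∏ i ∈ s, f i‖ = 1 := by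
  classical
  induction s using Finset.induction_on with
  | empty => simp
  | insert a s ha ih =>
    rw [prod_insert ha, norm_mul, h a (mem_insert_self _ _),
      ih (fun i hi => h i (mem_insert_of_mem hi)), one_mul]

/-- iterates are 1-Lipschitz -/
theorem iter_lip {p : ℕ} [Fact p.Prime] (c x y : ℤ_[p]) (n : ℕ) :
    ‖(F c)^[n] x - (F c)^[n] y‖ ≤ ‖x - y‖ := by
  rw [iter_sub, norm_mul]
  calc _ ≤ ‖x - y‖ * 1 := mul_le_mul_of_nonneg_left (PadicInt.norm_le_one _) (norm_nonneg _)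
    _ = _ := mul_one _

/-- case B, `p` odd -/
theorem caseB {p : ℕ} [Fact p.Prime] (h2 : ‖(2 : ℤ_[p])‖ = 1) (c : ℤ_[p]) (a b : ℕ) (hab : a < b)
    (h : (F c)^[a] 0 = (F c)^[b] 0) (n : ℕ) (hn : 1 ≤ n) (hn1 : ‖(F c)^[n] 0‖ < 1)
    (hmin : ∀ l, 1 ≤ l → l < n → ¬ ‖(F c)^[l] 0‖ < 1) : (F c)^[n] 0 = 0 := by
  by_contra hne
  have hg : ∀ x y, ‖x‖ < 1 → ‖y‖ < 1 →
      ‖(F c)^[n] x - (F c)^[n] y‖ = 1 * ‖x - y‖ * ‖x + y‖ := by
    intro x y hx hy
    obtain ⟨n', rfl⟩ : ∃ n', n = n' + 1 := ⟨n - 1, by omega⟩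
    rw [iter_sub, norm_mul, prod_range_succ', norm_mul, norm_prod_eq_one]
    · simp
    · intro l hl
      rw [mem_range] at hl
      have hl1 : ‖(F c)^[l + 1] 0‖ = 1 :=
        le_antisymm (PadicInt.norm_le_one _) (not_lt.mp (hmin (l + 1) (by omega) (by omega)))
      have e : (F c)^[l + 1] x + (F c)^[l + 1] y = 2 * (F c)^[l + 1] 0 +
        (((F c)^[l + 1] x - (F c)^[l + 1] 0) + ((F c)^[l + 1] y - (F c)^[l + 1] 0)) := by ring
      have h2l : ‖2 * (F c)^[l + 1] 0‖ = 1 := by rw [norm_mul, h2, hl1, one_mul]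
      have hx' : ‖(F c)^[l + 1] x - (F c)^[l + 1] 0‖ < 1 :=
        lt_of_le_of_lt (iter_lip c x 0 (l + 1)) (by rwa [sub_zero])
      have hy' : ‖(F c)^[l + 1] y - (F c)^[l + 1] 0‖ < 1 :=
        lt_of_le_of_lt (iter_lip c y 0 (l + 1)) (by rwa [sub_zero])
      have hxy : ‖((F c)^[l + 1] x - (F c)^[l + 1] 0) + ((F c)^[l + 1] y - (F c)^[l + 1] 0)‖ < 1 :=
        lt_of_le_of_lt (IsUltrametricDist.norm_add_le_max _ _) (max_lt hx' hy')
      rw [e, IsUltrametricDist.norm_add_eq_max_of_norm_ne_norm (by rw [h2l]; exact hxy.ne'), h2l,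
        max_eq_left hxy.le]
  set y := (F c)^[n] 0 with hy
  have hy0 : 0 < ‖y‖ := norm_pos_iff.mpr hne
  have e1 : ‖(F c)^[n] y - y‖ = ‖y‖ * ‖y‖ := by
    have := hg y 0 hn1 (by simp)
    rw [← hy] at this
    rw [this]; simp
  have h3 := lemR (p := p) ((F c)^[n]) 1 one_pos le_rfl hg y hn1
    (by
      intro h4
      rw [h4, sub_self, norm_zero] at e1
      have : 0 < ‖y‖ * ‖y‖ := by positivity
      linarith)
    (by
      rw [e1, h2]
      exact mul_lt_mul_of_pos_right hn1 hy0)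
  exact orb_contra (F c) 0 a b hab h n n hn h3

/-- kernel of reduction mod `p^2` -/
theorem red_eq_iff {p : ℕ} [Fact p.Prime] (x y : ℤ_[p]) :
    PadicInt.toZModPow (p := p) 2 x = PadicInt.toZModPow (p := p) 2 y ↔
      ‖x - y‖ ≤ (p : ℝ) ^ (-(2 : ℤ)) := by
  rw [← sub_eq_zero, ← map_sub, ← RingHom.mem_ker, PadicInt.ker_toZModPow]
  exact (PadicInt.norm_le_pow_iff_mem_span_pow (x - y) 2).symm

/-- case A, `p` odd -/
theorem caseA {p : ℕ} [Fact p.Prime] (h2 : ‖(2 : ℤ_[p])‖ = 1) (c : ℤ_[p]) (a b : ℕ) (hab : a < b)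
    (h : (F c)^[a] 0 = (F c)^[b] 0) (i m : ℕ) (hm : 1 ≤ m)
    (him : ‖(F c)^[m] ((F c)^[i] 0) - (F c)^[i] 0‖ ≤ (p : ℝ) ^ (-(2 : ℤ)))
    (hunit : ∀ l, l < m → ‖(F c)^[l] ((F c)^[i] 0)‖ = 1) :
    (F c)^[i + m * Nat.totient (p ^ 2)] 0 = (F c)^[i] 0 := by
  have hp : p.Prime := Fact.out
  have hp1 : (1:ℝ) < p := by exact_mod_cast hp.one_lt
  set π := PadicInt.toZModPow (p := p) 2 with hπ
  set u := (F c)^[i] 0 with hu
  set M := m * Nat.totient (p ^ 2) with hM
  have htot : 0 < Nat.totient (p ^ 2) := Nat.totient_pos.mpr (pow_pos hp.pos 2)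
  have hM1 : 1 ≤ M := Nat.mul_pos hm htot
  have hper : (F (π c))^[m] (π u) = π u := by
    rw [← map_iter]; exact (red_eq_iff _ _).mpr him
  -- product
  let Λ : ℕ → ZMod (p ^ 2) := fun n => ∏ l ∈ range n, (2 * (F (π c))^[l] (π u))
  have hΛ : ∀ k, (F (π c))^[m * k] (π u) = π u ∧ Λ (m * k) = (Λ m) ^ k := by
    intro k
    induction k with
    | zero => simp [Λ]
    | succ k ih =>
      obtain ⟨ih1, ih2⟩ := ih
      constructor
      · rw [mul_add, mul_one, Function.iterate_add_apply, hper, ih1]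
      · rw [mul_add, mul_one, pow_succ (Λ m) k, ← ih2]
        show ∏ l ∈ range (m * k + m), _ = _
        rw [prod_range_add]
        congr 1
        apply prod_congr rfl
        intro l _
        rw [add_comm (m * k) l, Function.iterate_add_apply, ih1]
  have hΛu : IsUnit (Λ m) := by
    have : Λ m = π (∏ l ∈ range m, (2 * (F c)^[l] u)) := by
      rw [map_prod]
      apply prod_congr rfl
      intro l _
      have e : π ((F c)^[l] u) = (F (π c))^[l] (π u) := map_iter π c u l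
      rw [map_mul, e, map_ofNat]
    rw [this]
    apply IsUnit.map
    rw [PadicInt.isUnit_iff]
    apply norm_prod_eq_one
    intro l hl
    rw [norm_mul, h2, hunit l (mem_range.mp hl), one_mul]
  have hΛM : Λ M = 1 := by
    rw [hM, (hΛ _).2]
    obtain ⟨v, hv⟩ := hΛu
    rw [← hv, ← Units.val_pow_eq_pow_val, ZMod.pow_totient, Units.val_one]
  let D : Set ℤ_[p] := {x | π x = π u}
  have hDinv : ∀ x ∈ D, (F c)^[M] x ∈ D := by
    intro x hx
    show π _ = π u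
    rw [map_iter, show π x = π u from hx, hM, (hΛ _).1]
  have hE : ∀ x ∈ D, ∀ y ∈ D,
      ‖(F c)^[M] x - (F c)^[M] y - (x - y)‖ ≤ (p : ℝ) ^ (-(2 : ℤ)) * ‖x - y‖ := by
    intro x hx y hy
    have e : (F c)^[M] x - (F c)^[M] y - (x - y) =
        (∏ l ∈ range M, ((F c)^[l] x + (F c)^[l] y) - 1) * (x - y) := by
      rw [iter_sub]; ring
    rw [e, norm_mul]
    apply mul_le_mul_of_nonneg_right _ (norm_nonneg _)
    rw [← red_eq_iff, map_prod, map_one]
    rw [← hΛM]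
    apply prod_congr rfl
    intro l _
    rw [map_add, map_iter, map_iter, ← hπ, show π x = π u from hx, show π y = π u from hy]
    ring
  have huD : u ∈ D := rfl
  have hε0 : (0:ℝ) ≤ (p : ℝ) ^ (-(2 : ℤ)) := by positivity
  have hε1 : (p : ℝ) ^ (-(2 : ℤ)) ≤ 1 := zpow_le_one_of_nonpos₀ hp1.le (by norm_num)
  have hε1' : (p : ℝ) ^ (-(2 : ℤ)) < 1 := zpow_lt_one_of_neg₀ hp1 (by norm_num)
  obtain ⟨hDa, hEa⟩ := near_iter ((F c)^[M]) D hDinv _ hε0 hε1 hE a
  have hw : ((F c)^[M]) (((F c)^[M])^[a] u) = ((F c)^[M])^[a] u := by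
    apply near_fixed (b - a) _ D hDinv hE (by omega) _ (hDa u huD)
    rw [← Function.iterate_add_apply, hu, ← Function.iterate_mul, ← Function.iterate_mul,
      ← Function.iterate_add_apply, ← Function.iterate_add_apply]
    have e : M * (b - a + a) + i = (M * a + i) + M * (b - a) := by ring
    rw [e]
    exact ev_periodic (F c) 0 a b hab h (M * a + i) (by nlinarith) M
  have h5 := hEa ((F c)^[M] u) (hDinv u huD) u huD
  have h6 : ((F c)^[M])^[a] ((F c)^[M] u) = ((F c)^[M])^[a] u := by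
    rw [← Function.iterate_succ_apply, Function.iterate_succ_apply']; exact hw
  rw [h6, sub_self, zero_sub, norm_neg] at h5
  have h7 : (F c)^[M] u = u := by
    by_contra hne
    have : 0 < ‖(F c)^[M] u - u‖ := norm_pos_iff.mpr (sub_ne_zero.mpr hne)
    nlinarith
  rw [add_comm, Function.iterate_add_apply]
  exact h7

theorem bounded_odd {p : ℕ} [Fact p.Prime] (h2 : ‖(2 : ℤ_[p])‖ = 1) (c : ℤ_[p]) (a b : ℕ)
    (hab : a < b) (h : (F c)^[a] 0 = (F c)^[b] 0) :
    ∃ i j : ℕ, i < j ∧ j ≤ p ^ 2 + p ^ 2 * Nat.totient (p ^ 2) ∧ (F c)^[i] 0 = (F c)^[j] 0 := by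
  classical
  have hp : p.Prime := Fact.out
  have hp1 : (1:ℝ) < p := by exact_mod_cast hp.one_lt
  haveI : NeZero (p ^ 2) := ⟨(pow_pos hp.pos 2).ne'⟩
  by_cases hB : ∃ n, 1 ≤ n ∧ n ≤ p ^ 2 ∧ ‖(F c)^[n] 0‖ < 1
  · obtain ⟨n0, hn0, hn0', hn0''⟩ := hB
    have hex : ∃ n, 1 ≤ n ∧ ‖(F c)^[n] 0‖ < 1 := ⟨n0, hn0, hn0''⟩
    have hle : Nat.find hex ≤ n0 := Nat.find_le ⟨hn0, hn0''⟩
    obtain ⟨hs1, hs2⟩ := Nat.find_spec hex
    have hmin : ∀ l, 1 ≤ l → l < Nat.find hex → ¬ ‖(F c)^[l] 0‖ < 1 := by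
      intro l hl1 hl2 hl3
      exact Nat.find_min hex hl2 ⟨hl1, hl3⟩
    have := caseB h2 c a b hab h _ hs1 hs2 hmin
    exact ⟨0, Nat.find hex, hs1, by nlinarith, by rw [this]; rfl⟩
  · push Not at hB
    obtain ⟨i, j, hij, hj, heq⟩ : ∃ i j : ℕ, i < j ∧ j ≤ p ^ 2 ∧
        PadicInt.toZModPow (p := p) 2 ((F c)^[i] 0) = PadicInt.toZModPow (p := p) 2 ((F c)^[j] 0) := by
      obtain ⟨x, y, hxy, hxy'⟩ := Fintype.exists_ne_map_eq_of_card_lt
        (fun i : Fin (p ^ 2 + 1) => PadicInt.toZModPow (p := p) 2 ((F c)^[(i : ℕ)] 0))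
        (by rw [Fintype.card_fin, ZMod.card]; omega)
      rcases lt_or_gt_of_ne (fun h => hxy (Fin.ext h) : (x : ℕ) ≠ (y : ℕ)) with h1 | h1
      · exact ⟨x, y, h1, by omega, hxy'⟩
      · exact ⟨y, x, h1, by omega, hxy'.symm⟩
    have hi1 : 1 ≤ i := by
      by_contra hi
      have hi0 : i = 0 := by omega
      subst hi0
      have h1 := (red_eq_iff _ _).mp heq
      have h3 := hB j hij hj
      rw [Function.iterate_zero_apply, zero_sub, norm_neg] at h1
      have h4 : (p : ℝ) ^ (-(2 : ℤ)) < 1 := zpow_lt_one_of_neg₀ hp1 (by norm_num)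
      linarith
    have h5 := caseA h2 c a b hab h i (j - i) (by omega)
      (by
        rw [← Function.iterate_add_apply, show j - i + i = j by omega]
        exact (red_eq_iff _ _).mp heq.symm)
      (by
        intro l hl
        rw [← Function.iterate_add_apply]
        exact le_antisymm (PadicInt.norm_le_one _) (hB (l + i) (by omega) (by omega)))
    refine ⟨i, i + (j - i) * Nat.totient (p ^ 2), ?_, ?_, h5.symm⟩
    · have : 0 < (j - i) * Nat.totient (p ^ 2) :=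
        Nat.mul_pos (by omega) (Nat.totient_pos.mpr (pow_pos hp.pos 2))
      omega
    · have h6 : j - i ≤ p ^ 2 := by omega
      have h7 : (j - i) * Nat.totient (p ^ 2) ≤ p ^ 2 * Nat.totient (p ^ 2) :=
        Nat.mul_le_mul_right _ h6
      omega

theorem two_norm : ‖(2 : ℤ_[2])‖ = 1 / 2 := by
  have := PadicInt.norm_p (p := 2)
  norm_num at this ⊢
  exact this

theorem lt_one_half (x : ℤ_[2]) (hx : ‖x‖ < 1) : ‖x‖ ≤ 1 / 2 := by
  have h := (PadicInt.norm_le_pow_iff_norm_lt_pow_add_one x (-1)).mpr (by simpa using hx)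
  norm_num at h ⊢
  exact h

theorem unit_add_one (x : ℤ_[2]) (hx : ‖x‖ = 1) : ‖x + 1‖ < 1 := by
  by_contra hcon
  have h1 : ‖x + 1‖ = 1 := le_antisymm (PadicInt.norm_le_one _) (not_lt.mp hcon)
  have u1 : IsUnit (PadicInt.toZMod (p := 2) x) := (PadicInt.isUnit_iff.mpr hx).map _
  have u2 : IsUnit (PadicInt.toZMod (p := 2) (x + 1)) := (PadicInt.isUnit_iff.mpr h1).map _
  rw [map_add, map_one] at u2
  revert u1 u2
  generalize PadicInt.toZMod (p := 2) x = z
  revert z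
  decide

theorem bounded_two (c : ℤ_[2]) (a b : ℕ)
    (hab : a < b) (h : (F c)^[a] 0 = (F c)^[b] 0) : c = 0 ∨ c = -1 ∨ c = -2 := by
  rcases lt_or_eq_of_le (PadicInt.norm_le_one c) with hc | hc
  · by_contra hcon
    push Not at hcon
    obtain ⟨hc0, -, hc2⟩ := hcon
    have hch := lt_one_half c hc
    have hcpos : 0 < ‖c‖ := norm_pos_iff.mpr hc0
    have h1 : ‖c + 1‖ = 1 := by
      rw [IsUltrametricDist.norm_add_eq_max_of_norm_ne_norm (by rw [norm_one]; exact hc.ne), norm_one,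
        max_eq_right hc.le]
    have hx2 : (F c)^[2] 0 = c * (c + 1) := by
      show F c (F c 0) = _
      unfold F; ring
    have hn2 : ‖(F c)^[2] 0‖ = ‖c‖ := by rw [hx2, norm_mul, h1, mul_one]
    have e : (F c)^[1] ((F c)^[2] 0) - (F c)^[2] 0 = c ^ 3 * (c + 2) := by
      rw [hx2]
      show F c (c * (c + 1)) - _ = _
      unfold F; ring
    have hcc : c + 2 ≠ 0 := fun h => hc2 (eq_neg_of_add_eq_zero_left h)
    have hlem := lemR (p := 2) ((F c)^[1]) 1 one_pos le_rfl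
      (by
        intro x y _ _
        rw [Function.iterate_one, F_sub, norm_mul, one_mul]) ((F c)^[2] 0)
      (by rw [hn2]; exact hc)
      (by
        intro h3
        rw [h3, sub_self] at e
        exact mul_ne_zero (pow_ne_zero 3 hc0) hcc e.symm)
      (by
        rw [e, two_norm, hn2, norm_mul, norm_pow]
        have h4 : ‖c + 2‖ ≤ 1 := PadicInt.norm_le_one _
        have h5 : ‖c‖ ^ 3 * ‖c + 2‖ ≤ ‖c‖ ^ 3 * 1 := mul_le_mul_of_nonneg_left h4 (by positivity)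
        have h6 : ‖c‖ ^ 2 ≤ 1 / 4 := by nlinarith
        have h7 : ‖c‖ ^ 3 ≤ 1 / 4 * ‖c‖ := by
          have : ‖c‖ ^ 3 = ‖c‖ ^ 2 * ‖c‖ := by ring
          rw [this]; exact mul_le_mul_of_nonneg_right h6 (norm_nonneg _)
        linarith)
    exact orb_contra (F c) 0 a b hab h 1 2 le_rfl hlem
  · by_contra hcon
    push Not at hcon
    obtain ⟨-, hc1, -⟩ := hcon
    have h1 := unit_add_one c hc
    have hc1' : c + 1 ≠ 0 := fun h => hc1 (eq_neg_of_add_eq_zero_left h)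
    have hpos : 0 < ‖c + 1‖ := norm_pos_iff.mpr hc1'
    have hx2 : (F c)^[2] 0 = c * (c + 1) := by
      show F c (F c 0) = _
      unfold F; ring
    have hn2 : ‖(F c)^[2] 0‖ = ‖c + 1‖ := by rw [hx2, norm_mul, hc, one_mul]
    have hg : ∀ x y, ‖x‖ < 1 → ‖y‖ < 1 →
        ‖(F c)^[2] x - (F c)^[2] y‖ = 1 / 2 * ‖x - y‖ * ‖x + y‖ := by
      intro x y hx hy
      have hx' := lt_one_half x hx
      have hy' := lt_one_half y hy
      have e : (F c)^[2] x - (F c)^[2] y = (x - y) * (x + y) * (2 * c + (x ^ 2 + y ^ 2)) := by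
        show F c (F c x) - F c (F c y) = _
        unfold F; ring
      have h2c : ‖2 * c‖ = 1 / 2 := by rw [norm_mul, two_norm, hc, mul_one]
      have hxx : ‖x ^ 2‖ ≤ 1 / 4 := by
        rw [norm_pow]; nlinarith [norm_nonneg x]
      have hyy : ‖y ^ 2‖ ≤ 1 / 4 := by
        rw [norm_pow]; nlinarith [norm_nonneg y]
      have hxy : ‖x ^ 2 + y ^ 2‖ < 1 / 2 := by
        refine lt_of_le_of_lt (IsUltrametricDist.norm_add_le_max _ _) (max_lt ?_ ?_) <;> linarith
      have h3 : ‖2 * c + (x ^ 2 + y ^ 2)‖ = 1 / 2 := by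
        rw [IsUltrametricDist.norm_add_eq_max_of_norm_ne_norm (by rw [h2c]; exact hxy.ne'), h2c,
          max_eq_left hxy.le]
      rw [e, norm_mul, norm_mul, h3]
      ring
    have e1 : ‖(F c)^[2] ((F c)^[2] 0) - (F c)^[2] 0‖ = 1 / 2 * ‖c + 1‖ * ‖c + 1‖ := by
      have := hg ((F c)^[2] 0) 0 (by rw [hn2]; exact h1) (by simp)
      rw [this, sub_zero, add_zero, hn2]
    have hlem := lemR (p := 2) ((F c)^[2]) (1 / 2) (by norm_num) (by norm_num) hg ((F c)^[2] 0)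
      (by rw [hn2]; exact h1)
      (by
        intro h3
        rw [h3, sub_self, norm_zero] at e1
        have : 0 < 1 / 2 * ‖c + 1‖ * ‖c + 1‖ := by positivity
        linarith)
      (by
        rw [e1, two_norm, hn2]
        nlinarith)
    exact orb_contra (F c) 0 a b hab h 2 2 (by norm_num) hlem

/-- escape -/
theorem escape {p : ℕ} [Fact p.Prime] (c : ℚ_[p]) (hc : 1 < ‖c‖) :
    Function.Injective (fun n : ℕ => (F c)^[n] 0) := by
  have h1 : ∀ n : ℕ, ‖c‖ ≤ ‖(F c)^[n + 1] 0‖ ∧ ‖(F c)^[n] 0‖ < ‖(F c)^[n + 1] 0‖ := by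
    intro n
    induction n with
    | zero =>
      have : (F c)^[0 + 1] 0 = c := by show F c 0 = c; unfold F; ring
      rw [this]
      exact ⟨le_rfl, by simpa using lt_trans one_pos hc⟩
    | succ n ih =>
      obtain ⟨ih1, ih2⟩ := ih
      have e : (F c)^[n + 1 + 1] 0 = ((F c)^[n + 1] 0) ^ 2 + c := by
        rw [Function.iterate_succ_apply' (F c) (n + 1)]; rfl
      set X := (F c)^[n + 1] 0 with hX
      have h3 : ‖c‖ < ‖X ^ 2‖ := by rw [norm_pow]; nlinarith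
      have h4 : ‖X ^ 2 + c‖ = ‖X ^ 2‖ := by
        rw [IsUltrametricDist.norm_add_eq_max_of_norm_ne_norm h3.ne', max_eq_left h3.le]
      rw [e, h4]
      refine ⟨h3.le, ?_⟩
      rw [norm_pow]; nlinarith
  have hmono : StrictMono (fun n : ℕ => ‖(F c)^[n] 0‖) := strictMono_nat_of_lt_succ (fun n => (h1 n).2)
  intro a b hab
  exact hmono.injective (congrArg norm hab)

open Polynomial in
theorem finite_params (p : ℕ) [Fact p.Prime] :
    {c : ℚ_[p] | (Set.range (fun n : ℕ => (F c)^[n] 0)).Finite}.Finite := by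
  classical
  have hp : p.Prime := Fact.out
  have hp1 : (1:ℝ) < p := by exact_mod_cast hp.one_lt
  have hbig : ∃ N : ℕ, ∀ c : ℤ_[p], ∀ a b : ℕ, a < b → (F c)^[a] 0 = (F c)^[b] 0 →
      ∃ i j : ℕ, i < j ∧ j ≤ N ∧ (F c)^[i] 0 = (F c)^[j] 0 := by
    by_cases h2 : ‖(2 : ℤ_[p])‖ = 1
    · exact ⟨_, fun c a b hab h => bounded_odd h2 c a b hab h⟩
    · have hp2 : p = 2 := by
        have h3 : ‖((2 : ℤ) : ℤ_[p])‖ < 1 := by
          push_cast
          exact lt_of_le_of_ne (PadicInt.norm_le_one _) h2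
        rw [PadicInt.norm_intCast_lt_one_iff] at h3
        have h4 : p ∣ 2 := by exact_mod_cast h3
        exact (Nat.prime_dvd_prime_iff_eq hp Nat.prime_two).mp h4
      subst hp2
      refine ⟨3, fun c a b hab h => ?_⟩
      rcases bounded_two c a b hab h with h | h | h
      · exact ⟨0, 1, by norm_num, by norm_num, by subst h; simp [F]⟩
      · exact ⟨0, 2, by norm_num, by norm_num, by subst h; simp [F]⟩
      · refine ⟨2, 3, by norm_num, by norm_num, ?_⟩
        subst h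
        show F (-2) (F (-2) 0) = F (-2) (F (-2) (F (-2) 0))
        unfold F; ring
  obtain ⟨N, hN⟩ := hbig
  let Φ : ℕ → ℚ_[p][X] := fun n => (F (X : ℚ_[p][X]))^[n] 0
  have hΦ : ∀ n (c : ℚ_[p]), (Φ n).eval c = (F c)^[n] 0 := by
    intro n c
    have := map_iter (evalRingHom c) (X : ℚ_[p][X]) 0 n
    simpa using this
  have hΦne : ∀ i j, i < j → Φ i - Φ j ≠ 0 := by
    intro i j hij h
    have h1 : (Φ i).eval ((p : ℚ_[p])⁻¹) = (Φ j).eval ((p : ℚ_[p])⁻¹) := by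
      rw [sub_eq_zero.mp h]
    rw [hΦ, hΦ] at h1
    have h2 : 1 < ‖((p : ℚ_[p])⁻¹)‖ := by
      rw [norm_inv, Padic.norm_p, inv_inv]; exact hp1
    exact hij.ne (escape _ h2 h1)
  have hfin : (⋃ i ∈ Finset.range (N + 1), ⋃ j ∈ Finset.range (N + 1),
      {c : ℚ_[p] | i < j ∧ (Φ i - Φ j).IsRoot c}).Finite := by
    apply Set.Finite.biUnion (Finset.finite_toSet _)
    intro i _
    apply Set.Finite.biUnion (Finset.finite_toSet _)
    intro j _
    by_cases hij : i < j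
    · exact (Polynomial.finite_setOfPred_isRoot (hΦne i j hij)).subset (fun c hc => hc.2)
    · convert Set.finite_empty
      ext c
      simp [hij]
  apply hfin.subset
  intro c hc
  have hc' : ¬ Function.Injective (fun n : ℕ => (F c)^[n] 0) := by
    intro h
    exact Set.infinite_range_of_injective h hc
  have hc1 : ‖c‖ ≤ 1 := by
    by_contra h
    exact hc' (escape c (not_le.mp h))
  obtain ⟨c', rfl⟩ : ∃ c' : ℤ_[p], (c' : ℚ_[p]) = c := ⟨⟨c, hc1⟩, rfl⟩
  have hcoe : ∀ n, (((F c')^[n] 0 : ℤ_[p]) : ℚ_[p]) = (F (c' : ℚ_[p]))^[n] 0 := by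
    intro n
    have := map_iter (PadicInt.Coe.ringHom (p := p)) c' 0 n
    rw [map_zero] at this
    exact this
  rw [Function.Injective] at hc'
  push Not at hc'
  obtain ⟨a, b, hab, hne⟩ := hc'
  have hab' : (F c')^[a] 0 = (F c')^[b] 0 := by
    apply Subtype.ext
    have e1 := hcoe a
    have e2 := hcoe b
    rw [e1, e2]; exact hab
  obtain ⟨i, j, hij, hj, hx⟩ : ∃ i j : ℕ, i < j ∧ j ≤ N ∧ (F c')^[i] 0 = (F c')^[j] 0 := by
    rcases lt_or_gt_of_ne hne with h1 | h1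
    · exact hN c' a b h1 hab'
    · exact hN c' b a h1 hab'.symm
  simp only [Set.mem_iUnion]
  refine ⟨i, Finset.mem_range.mpr (by omega), j, Finset.mem_range.mpr (by omega), hij, ?_⟩
  show (Φ i - Φ j).eval _ = 0
  rw [eval_sub, hΦ, hΦ, ← hcoe, ← hcoe, hx, sub_self]

end Pool.Agent.H26.PCF
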