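import Mathlib

set_option autoImplicit false
set_option linter.style.haveILetI false

open Polynomial Filter Topology

namespace Pool.Agent.H26.PS

/-- `P` has positive leading coefficient and `k` distinct negative roots, where `k = deg P` -/
def SS (k : ℕ) (P : ℝ[X]) : Prop :=
  ∃ c : ℝ, 0 < c ∧ ∃ z : Fin k → ℝ, StrictMono z ∧ (∀ i, z i < 0) ∧ P = C c * ∏ i, (X - C (z i))

theorem SS_natDegree {k : ℕ} {P : ℝ[X]} (h : SS k P) : P.natDegree = k := by
  obtain ⟨c, hc, z, -, -, rfl⟩ := h
  rw [natDegree_C_mul hc.ne', natDegree_prod_of_monic _ _ (fun i _ => monic_X_sub_C _)]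
  simp

theorem SS_lead {k : ℕ} {P : ℝ[X]} (h : SS k P) : 0 < P.leadingCoeff := by
  obtain ⟨c, hc, z, -, -, rfl⟩ := h
  rw [leadingCoeff_mul, leadingCoeff_C, (monic_prod_of_monic _ _ (fun i _ => monic_X_sub_C _)).leadingCoeff, mul_one]
  exact hc

theorem SS_roots {k : ℕ} {P : ℝ[X]} (h : SS k P) : Multiset.card P.roots = k := by
  obtain ⟨c, hc, z, -, -, rfl⟩ := h
  rw [roots_C_mul _ hc.ne', roots_prod]
  · simp
  · exact Finset.prod_ne_zero_iff.mpr (fun i _ => X_sub_C_ne_zero _)

/-- sign changes give distinct negative roots -/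
theorem interlace (N : ℕ) (Q : ℝ[X]) (hQ : Q.natDegree = N) (hlc : 0 < Q.leadingCoeff) (t : ℕ → ℝ)
    (ht : ∀ i j, i < j → j ≤ N → t i < t j) (hs : ∀ i ≤ N, 0 < (-1 : ℝ) ^ (N - i) * Q.eval (t i)) (ht0 : t N ≤ 0) :
    SS N Q := by
  have hroot : ∀ i : Fin N, ∃ y, y ∈ Set.Ioo (t i) (t (i + 1)) ∧ Q.eval y = 0 := by
    intro i
    have h1 := hs i i.2.le
    have h2 := hs (i + 1) (by have := i.2; omega)
    have h3 : N - (i : ℕ) = (N - (i + 1)) + 1 := by have := i.2; omega
    rw [h3, pow_succ] at h1
    have hlt := ht i (i + 1) (by omega) (by have := i.2; omega)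
    have hc : ContinuousOn (fun x => Q.eval x) (Set.Icc (t i) (t (i + 1))) := Q.continuous.continuousOn
    rcases neg_one_pow_eq_or ℝ (N - (i + 1)) with h | h
    · rw [h] at h1 h2
      have ha : Q.eval (t i) < 0 := by linarith
      have hb : 0 < Q.eval (t (i + 1)) := by linarith
      obtain ⟨y, hy, hy2⟩ := intermediate_value_Ioo hlt.le hc ⟨ha, hb⟩
      exact ⟨y, hy, hy2⟩
    · rw [h] at h1 h2
      have ha : 0 < Q.eval (t i) := by linarith
      have hb : Q.eval (t (i + 1)) < 0 := by linarith
      obtain ⟨y, hy, hy2⟩ := intermediate_value_Ioo' hlt.le hc ⟨hb, ha⟩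
      exact ⟨y, hy, hy2⟩
  choose y hy1 hy2 using hroot
  have hmono : StrictMono y := by
    intro i j hij
    have h1 := (hy1 i).2
    have h2 := (hy1 j).1
    have h3 : t (i + 1) ≤ t j := by
      rcases (show (i : ℕ) + 1 ≤ j from hij).eq_or_lt with h | h
      · rw [h]
      · exact (ht _ _ h j.2.le).le
    linarith
  have hneg : ∀ i, y i < 0 := by
    intro i
    have h1 := (hy1 i).2
    have h3 : t (i + 1) ≤ t N := by
      rcases (show (i : ℕ) + 1 ≤ N from i.2).eq_or_lt with h | h
      · rw [h]
      · exact (ht _ _ h le_rfl).le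
    linarith
  have hQ0 : Q ≠ 0 := by
    intro h; rw [h] at hlc; simp at hlc
  have hle : (Finset.univ.val.map y : Multiset ℝ) ≤ Q.roots := by
    rw [Multiset.le_iff_subset (Finset.univ.nodup.map hmono.injective)]
    intro x hx
    rw [Multiset.mem_map] at hx
    obtain ⟨i, -, rfl⟩ := hx
    rw [mem_roots hQ0]
    exact hy2 i
  have heq : (Finset.univ.val.map y : Multiset ℝ) = Q.roots := by
    apply Multiset.eq_of_le_of_card_le hle
    refine (card_roots' Q).trans ?_
    rw [hQ]; simp
  refine ⟨Q.leadingCoeff, hlc, y, hmono, hneg, ?_⟩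
  have h1 : Multiset.card Q.roots = Q.natDegree := by rw [← heq, hQ]; simp
  conv_lhs => rw [← C_leadingCoeff_mul_prod_multiset_X_sub_C h1, ← heq]
  rw [Multiset.map_map]
  rfl

theorem deriv_sign {k : ℕ} (c : ℝ) (hc : 0 < c) (z : Fin k → ℝ) (hz : StrictMono z) (i : Fin k) :
    0 < (-1 : ℝ) ^ (k - 1 - (i : ℕ)) * (derivative (C c * ∏ i, (X - C (z i)))).eval (z i) := by
  have h1 : (derivative (C c * ∏ i, (X - C (z i)))).eval (z i) = c * ∏ j ∈ Finset.univ.erase i, (z i - z j) := by
    rw [derivative_C_mul, eval_mul, eval_C, derivative_prod_finset, eval_finsetSum, Finset.sum_eq_single i]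
    · rw [derivative_X_sub_C, mul_one, eval_prod]
      simp
    · intro j _ hj
      rw [derivative_X_sub_C, mul_one, eval_prod]
      apply Finset.prod_eq_zero (i := i)
      · rw [Finset.mem_erase]; exact ⟨hj.symm, Finset.mem_univ _⟩
      · simp
    · intro h; exact absurd (Finset.mem_univ _) h
  rw [h1]
  have h2 : ∏ j ∈ Finset.univ.erase i, (z i - z j) =
      (∏ j ∈ Finset.univ.filter (fun j => j < i), (z i - z j)) * ∏ j ∈ Finset.univ.filter (fun j => i < j), (z i - z j) := by
    rw [← Finset.prod_union]
    · apply Finset.prod_congr _ (fun _ _ => rfl)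
      ext j
      simp only [Finset.mem_erase, Finset.mem_univ, and_true, Finset.mem_union, Finset.mem_filter, true_and]
      exact ne_iff_lt_or_gt
    · rw [Finset.disjoint_left]
      intro j hj hj'
      rw [Finset.mem_filter] at hj hj'
      exact absurd (hj.2.trans hj'.2) (lt_irrefl _)
  have h3 : (Finset.univ.filter (fun j : Fin k => i < j)).card = k - 1 - (i : ℕ) := by
    have : (Finset.univ.filter (fun j : Fin k => i < j)) = Finset.Ioi i := by ext j; simp
    rw [this, Fin.card_Ioi]
  have h4 : (-1 : ℝ) ^ (k - 1 - (i : ℕ)) * ∏ j ∈ Finset.univ.filter (fun j => i < j), (z i - z j) =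
      ∏ j ∈ Finset.univ.filter (fun j => i < j), (z j - z i) := by
    rw [← h3, ← Finset.prod_const, ← Finset.prod_mul_distrib]
    apply Finset.prod_congr rfl
    intro j _
    ring
  rw [h2]
  calc (0 : ℝ) < c * ((∏ j ∈ Finset.univ.filter (fun j => j < i), (z i - z j)) *
        ∏ j ∈ Finset.univ.filter (fun j => i < j), (z j - z i)) := by
        apply mul_pos hc
        apply mul_pos
        · apply Finset.prod_pos
          intro j hj
          have := hz (Finset.mem_filter.mp hj).2
          linarith
        · apply Finset.prod_pos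
          intro j hj
          have := hz (Finset.mem_filter.mp hj).2
          linarith
    _ = _ := by rw [← h4]; ring

theorem at_bot (Q : ℝ[X]) (N : ℕ) (hN : 0 < N) (hQ : Q.natDegree = N) (hlc : 0 < Q.leadingCoeff) (b : ℝ) :
    ∃ t < b, 0 < (-1 : ℝ) ^ N * Q.eval t := by
  set Rr : ℝ[X] := C ((-1 : ℝ) ^ N) * Q.comp (-X) with hR
  have h1 : Rr.leadingCoeff = Q.leadingCoeff := by
    rw [hR, leadingCoeff_mul, leadingCoeff_C, leadingCoeff_comp (by simp)]
    rw [leadingCoeff_neg, leadingCoeff_X, hQ]
    rw [mul_comm, mul_assoc, ← mul_pow]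
    simp
  have h2 : 0 < Rr.degree := by
    rw [hR, degree_C_mul (pow_ne_zero _ (by norm_num))]
    rw [← natDegree_pos_iff_degree_pos, natDegree_comp]
    simp
    omega
  have h3 := Rr.tendsto_atTop_of_leadingCoeff_nonneg h2 (by rw [h1]; exact hlc.le)
  obtain ⟨x, hx1, hx2⟩ := ((h3.eventually_gt_atTop 0).and (eventually_gt_atTop (-b))).exists
  refine ⟨-x, by linarith, ?_⟩
  rw [hR] at hx1
  simpa using hx1

theorem step {k : ℕ} {P Q : ℝ[X]} (hP : SS k P) (α a b : ℝ) (hα : 0 < α) (ha : 0 < a) (hb : α * k < b)
    (hQ : Q = C α * (X * (1 - X)) * derivative P + (C a + C b * X) * P) : SS (k + 1) Q := by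
  have hPd := SS_natDegree hP
  have hPl := SS_lead hP
  have hcoefP : P.coeff k = P.leadingCoeff := by rw [leadingCoeff, hPd]
  have hQc : Q.coeff (k + 1) = (b - α * k) * P.leadingCoeff := by
    have e : Q = C α * (derivative P * X) - C α * (derivative P * X ^ 2) + C a * P + C b * (P * X) := by
      rw [hQ]; ring
    rw [e, coeff_add, coeff_add, coeff_sub, coeff_C_mul, coeff_C_mul, coeff_C_mul, coeff_C_mul, coeff_mul_X, coeff_mul_X]
    have h1 : P.coeff (k + 1) = 0 := coeff_eq_zero_of_natDegree_lt (by omega)
    have h2 : (derivative P).coeff k = 0 := by rw [coeff_derivative, h1, zero_mul]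
    have h3 : (derivative P * X ^ 2).coeff (k + 1) = k * P.leadingCoeff := by
      rcases k with _ | k
      · have : derivative P = 0 := by
          rw [Polynomial.eq_C_of_natDegree_eq_zero hPd, derivative_C]
        rw [this]; simp
      · rw [show k + 1 + 1 = k + 2 by ring, coeff_mul_X_pow, coeff_derivative, hcoefP]
        push_cast; ring
    rw [h1, h2, h3, hcoefP]
    ring
  have hQcpos : 0 < Q.coeff (k + 1) := by
    rw [hQc]; exact mul_pos (by linarith) hPl
  have hQdle : Q.natDegree ≤ k + 1 := by
    rw [hQ]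
    apply (natDegree_add_le _ _).trans
    apply max_le
    · rcases k with _ | k
      · have : derivative P = 0 := by
          rw [Polynomial.eq_C_of_natDegree_eq_zero hPd, derivative_C]
        rw [this]; simp
      · refine (natDegree_mul_le).trans ?_
        have h1 : (C α * (X * (1 - X)) : ℝ[X]).natDegree ≤ 2 := by
          refine (natDegree_C_mul_le _ _).trans ?_
          refine (natDegree_mul_le).trans ?_
          have : (1 - X : ℝ[X]).natDegree ≤ 1 := by
            refine (natDegree_sub_le _ _).trans ?_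
            simp
          rw [natDegree_X]; omega
        have h2 := natDegree_derivative_le P
        rw [hPd] at h2
        omega
    · refine (natDegree_mul_le).trans ?_
      have : (C a + C b * X : ℝ[X]).natDegree ≤ 1 := by
        rw [add_comm]; exact natDegree_linear_le
      omega
  have hQd : Q.natDegree = k + 1 := le_antisymm hQdle (le_natDegree_of_ne_zero hQcpos.ne')
  have hQl : 0 < Q.leadingCoeff := by rw [leadingCoeff, hQd]; exact hQcpos
  obtain ⟨c, hc, z, hz, hz0, hPz⟩ := hP
  obtain ⟨t0, ht0, ht0s⟩ := at_bot Q (k + 1) (by omega) hQd hQl (if h : 0 < k then z ⟨0, h⟩ else 0)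
  -- points
  let t : ℕ → ℝ := fun i => if i = 0 then t0 else if h : i - 1 < k then z ⟨i - 1, h⟩ else 0
  have ht_zero : t 0 = t0 := by simp [t]
  have ht_mid : ∀ (j : Fin k), t (j + 1) = z j := by
    intro j; simp [t]
  have ht_last : t (k + 1) = 0 := by simp [t]
  apply interlace (k + 1) Q hQd hQl t
  · intro i j hij hj
    rcases i with _ | i
    · rw [ht_zero]
      rcases j with _ | j
      · omega
      · by_cases hjk : j < k
        · rw [ht_mid ⟨j, hjk⟩]
          have h0k : 0 < k := by omega
          rw [dif_pos h0k] at ht0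
          refine lt_of_lt_of_le ht0 (hz.monotone ?_)
          exact Nat.zero_le j
        · have : j = k := by omega
          subst this
          rw [ht_last]
          by_cases h0k : 0 < j
          · rw [dif_pos h0k] at ht0
            exact ht0.trans (hz0 _)
          · rw [dif_neg h0k] at ht0
            exact ht0
    · rcases j with _ | j
      · omega
      · rw [ht_mid ⟨i, by omega⟩]
        by_cases hjk : j < k
        · rw [ht_mid ⟨j, hjk⟩]
          apply hz
          show i < j
          omega
        · have : j = k := by omega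
          subst this
          rw [ht_last]
          exact hz0 _
  · intro i hi
    rcases i with _ | i
    · rw [ht_zero, Nat.sub_zero]; exact ht0s
    · by_cases hik : i < k
      · rw [ht_mid ⟨i, hik⟩]
        have hroot : P.eval (z ⟨i, hik⟩) = 0 := by
          rw [hPz, eval_mul, eval_prod, Finset.prod_eq_zero (i := ⟨i, hik⟩) (Finset.mem_univ _) (by simp), mul_zero]
        have hder := deriv_sign c hc z hz ⟨i, hik⟩
        rw [← hPz] at hder
        have hQe : Q.eval (z ⟨i, hik⟩) = α * (z ⟨i, hik⟩ * (1 - z ⟨i, hik⟩)) * (derivative P).eval (z ⟨i, hik⟩) := by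
          rw [hQ]
          simp only [eval_add, eval_mul, eval_C, eval_X, eval_sub, eval_one]
          rw [hroot]; ring
        rw [hQe]
        have h1 : k + 1 - (i + 1) = (k - 1 - i) + 1 := by omega
        rw [h1, pow_succ]
        have hzneg := hz0 ⟨i, hik⟩
        have h2 : 0 < α * (-(z ⟨i, hik⟩) * (1 - z ⟨i, hik⟩)) := by
          apply mul_pos hα
          apply mul_pos <;> linarith
        have h3 := mul_pos h2 hder
        have h4 : (-1 : ℝ) ^ (k - 1 - i) * -1 * (α * (z ⟨i, hik⟩ * (1 - z ⟨i, hik⟩)) * eval (z ⟨i, hik⟩) (derivative P)) =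
            α * (-(z ⟨i, hik⟩) * (1 - z ⟨i, hik⟩)) * ((-1 : ℝ) ^ (k - 1 - i) * eval (z ⟨i, hik⟩) (derivative P)) := by
          ring
        rw [h4]; exact h3
      · have : i = k := by omega
        subst this
        rw [ht_last, Nat.sub_self, pow_zero, one_mul, hQ]
        simp only [eval_add, eval_mul, eval_C, eval_X, eval_sub, eval_one]
        have h1 : 0 < P.eval 0 := by
          rw [hPz, eval_mul, eval_C, eval_prod]
          apply mul_pos hc
          apply Finset.prod_pos
          intro j _
          simp only [eval_sub, eval_X, eval_C]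
          have := hz0 j
          linarith
        have : α * (0 * (1 - 0)) * eval 0 (derivative P) + (a + b * 0) * eval 0 P = a * P.eval 0 := by ring
        rw [this]
        exact mul_pos ha h1
  · rw [ht_last]

end Pool.Agent.H26.PS
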