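import Mathlib
import Pool.Agent.H26.PS1

set_option autoImplicit false
set_option linter.style.haveILetI false

open Polynomial Filter Topology

namespace Pool.Agent.H26.PS

noncomputable def em (i j : ℕ) : ℝ[X] := if i < j then X else 1

noncomputable def QQ (q : ℕ) : ℕ → ℕ → ℝ[X]
  | 0, _ => 1
  | m + 1, j => ∑ i ∈ Finset.range q, em i j * QQ q m i

theorem sum_em (q l j : ℕ) (hl : l < q) (hj : j ≤ q) :
    ∑ i ∈ Finset.range q, em i j * em l i =
      (if l < j then X * (1 - X) * (q : ℝ[X]) else 0) +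
        em l j * ((1 - (j : ℝ[X]) + (l : ℝ[X])) + X * ((q : ℝ[X]) + (j : ℝ[X]) - 1 - (l : ℝ[X]))) := by
  have h1 : ∀ i, em i j * em l i = 1 + (X - 1) * (if i < j then 1 else 0) + (X - 1) * (if l < i then 1 else 0) +
      (X - 1) ^ 2 * (if l < i ∧ i < j then 1 else 0) := by
    intro i
    unfold em
    by_cases h1 : i < j <;> by_cases h2 : l < i <;> simp [h1, h2] <;> ring
  simp only [h1]
  rw [Finset.sum_add_distrib, Finset.sum_add_distrib, Finset.sum_add_distrib, ← Finset.mul_sum, ← Finset.mul_sum,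
    ← Finset.mul_sum, Finset.sum_boole, Finset.sum_boole, Finset.sum_boole]
  have c1 : (Finset.filter (fun i => i < j) (Finset.range q)) = Finset.range j := by
    ext i; simp only [Finset.mem_filter, Finset.mem_range]; omega
  have c2 : (Finset.filter (fun i => l < i) (Finset.range q)) = Finset.Ico (l + 1) q := by
    ext i; simp only [Finset.mem_filter, Finset.mem_range, Finset.mem_Ico]; omega
  have c3 : (Finset.filter (fun i => l < i ∧ i < j) (Finset.range q)) = Finset.Ico (l + 1) j := by
    ext i; simp only [Finset.mem_filter, Finset.mem_range, Finset.mem_Ico]; omega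
  rw [c1, c2, c3, Finset.card_range, Nat.card_Ico, Nat.card_Ico]
  simp only [Finset.sum_const, Finset.card_range, nsmul_eq_mul, mul_one]
  have d1 : (((q - (l + 1) : ℕ)) : ℝ[X]) = (q : ℝ[X]) - l - 1 := by
    rw [Nat.cast_sub (by omega)]; push_cast; ring
  rw [d1]
  by_cases hlj : l < j
  · have d2 : (((j - (l + 1) : ℕ)) : ℝ[X]) = (j : ℝ[X]) - l - 1 := by
      rw [Nat.cast_sub (by omega)]; push_cast; ring
    rw [d2, if_pos hlj, em, if_pos hlj]
    ring
  · have d2 : j - (l + 1) = 0 := by omega
    rw [d2, if_neg hlj, em, if_neg hlj]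
    push_cast
    ring

theorem em_deriv (i j : ℕ) (P : ℝ[X]) :
    X * (1 - X) * derivative (em i j * P) = em i j * (X * (1 - X) * derivative P) + (if i < j then X * (1 - X) else 0) * P := by
  unfold em
  split_ifs with h
  · rw [derivative_mul, derivative_X]; ring
  · rw [one_mul]; ring

theorem QQ_rec (q m : ℕ) : ∀ j ≤ q, ((m : ℝ[X]) + 1) * QQ q (m + 1) j =
    (q : ℝ[X]) * (X * (1 - X) * derivative (QQ q m j)) +
      (((q : ℝ[X]) + (m : ℝ[X]) - (j : ℝ[X])) + X * ((q : ℝ[X]) * (m : ℝ[X]) + (j : ℝ[X]) - (m : ℝ[X]))) * QQ q m j := by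
  induction m with
  | zero =>
    intro j hj
    simp only [QQ]
    have h1 : ∑ i ∈ Finset.range q, em i j * (1 : ℝ[X]) = ∑ i ∈ Finset.range q, (1 + (X - 1) * (if i < j then 1 else 0)) := by
      apply Finset.sum_congr rfl
      intro i _
      unfold em
      split_ifs <;> ring
    rw [h1, Finset.sum_add_distrib, ← Finset.mul_sum, Finset.sum_boole]
    have c1 : (Finset.filter (fun i => i < j) (Finset.range q)) = Finset.range j := by
      ext i; simp only [Finset.mem_filter, Finset.mem_range]; omega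
    rw [c1, Finset.card_range]
    simp only [Finset.sum_const, Finset.card_range, nsmul_eq_mul, mul_one, derivative_one, mul_zero, zero_add,
      Nat.cast_zero]
    ring
  | succ m ih =>
    intro j hj
    -- key identity
    have key : ∑ i ∈ Finset.range q, em i j * QQ q (m + 1) i =
        ∑ i ∈ Finset.range q, ((if i < j then X * (1 - X) * (q : ℝ[X]) else 0) +
          em i j * ((1 - (j : ℝ[X]) + (i : ℝ[X])) + X * ((q : ℝ[X]) + (j : ℝ[X]) - 1 - (i : ℝ[X])))) * QQ q m i := by
      calc ∑ i ∈ Finset.range q, em i j * QQ q (m + 1) i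
          = ∑ i ∈ Finset.range q, ∑ l ∈ Finset.range q, em i j * (em l i * QQ q m l) := by
            apply Finset.sum_congr rfl
            intro i _
            rw [QQ, Finset.mul_sum]
        _ = ∑ l ∈ Finset.range q, ∑ i ∈ Finset.range q, em i j * (em l i * QQ q m l) := Finset.sum_comm
        _ = ∑ l ∈ Finset.range q, (∑ i ∈ Finset.range q, em i j * em l i) * QQ q m l := by
            apply Finset.sum_congr rfl
            intro l _
            rw [Finset.sum_mul]
            apply Finset.sum_congr rfl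
            intro i _
            ring
        _ = _ := by
            apply Finset.sum_congr rfl
            intro l hl
            rw [sum_em q l j (Finset.mem_range.mp hl) hj]
    have lhs : (((m + 1 : ℕ) : ℝ[X]) + 1) * QQ q (m + 1 + 1) j =
        ∑ i ∈ Finset.range q, em i j * (((m : ℝ[X]) + 1) * QQ q (m + 1) i) +
          ∑ i ∈ Finset.range q, em i j * QQ q (m + 1) i := by
      rw [QQ, Finset.mul_sum, ← Finset.sum_add_distrib]
      apply Finset.sum_congr rfl
      intro i _
      push_cast; ring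
    rw [lhs, key]
    have h1 : ∑ i ∈ Finset.range q, em i j * (((m : ℝ[X]) + 1) * QQ q (m + 1) i) =
        ∑ i ∈ Finset.range q, em i j * ((q : ℝ[X]) * (X * (1 - X) * derivative (QQ q m i)) +
      (((q : ℝ[X]) + (m : ℝ[X]) - (i : ℝ[X])) + X * ((q : ℝ[X]) * (m : ℝ[X]) + (i : ℝ[X]) - (m : ℝ[X]))) * QQ q m i) := by
      apply Finset.sum_congr rfl
      intro i hi
      rw [ih i (Finset.mem_range.mp hi).le]
    rw [h1]
    have h2 : (q : ℝ[X]) * (X * (1 - X) * derivative (QQ q (m + 1) j)) =
        ∑ i ∈ Finset.range q, (q : ℝ[X]) * (em i j * (X * (1 - X) * derivative (QQ q m i)) +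
          (if i < j then X * (1 - X) else 0) * QQ q m i) := by
      rw [← Finset.mul_sum]
      congr 1
      rw [QQ, derivative_sum, Finset.mul_sum]
      apply Finset.sum_congr rfl
      intro i _
      rw [em_deriv]
    rw [h2, QQ, Finset.mul_sum, ← Finset.sum_add_distrib, ← Finset.sum_add_distrib]
    apply Finset.sum_congr rfl
    intro i _
    push_cast
    split_ifs <;> ring

theorem QQ_real (q : ℕ) : ∀ m, m < q → SS m (QQ q (m + 1) 0) := by
  intro m
  induction m with
  | zero =>
    intro hq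
    refine ⟨q, by exact_mod_cast hq, Fin.elim0, fun i => i.elim0, fun i => i.elim0, ?_⟩
    simp only [QQ, em]
    simp
  | succ m ih =>
    intro hq
    have h1 := ih (by omega)
    have h2 := QQ_rec q (m + 1) 0 (by omega)
    have hmq : (m : ℝ) + 1 < q := by exact_mod_cast hq
    have hm2 : (0 : ℝ) < (m : ℝ) + 2 := by positivity
    have hq0 : (0 : ℝ) < q := by
      have : (0 : ℝ) ≤ m := Nat.cast_nonneg m
      linarith
    apply step h1 ((q : ℝ) / (m + 2)) ((q + m + 1) / (m + 2)) ((q * (m + 1) - (m + 1)) / (m + 2))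
    · positivity
    · positivity
    · rw [div_mul_eq_mul_div]
      gcongr
      nlinarith
    · have h3 : (C ((m : ℝ) + 2)) * QQ q (m + 1 + 1) 0 = C ((m : ℝ) + 2) * (C ((q : ℝ) / (m + 2)) * (X * (1 - X)) * derivative (QQ q (m + 1) 0) +
          (C (((q : ℝ) + m + 1) / (m + 2)) + C (((q : ℝ) * (m + 1) - (m + 1)) / (m + 2)) * X) * QQ q (m + 1) 0) := by
        have e1 : (C ((m : ℝ) + 2)) * C ((q : ℝ) / (m + 2)) = (q : ℝ[X]) := by
          rw [← C_mul, mul_div_cancel₀ _ hm2.ne']; simp
        have e2 : (C ((m : ℝ) + 2)) * C (((q : ℝ) + m + 1) / (m + 2)) = (q : ℝ[X]) + (m : ℝ[X]) + 1 := by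
          rw [← C_mul, mul_div_cancel₀ _ hm2.ne']; simp
        have e3 : (C ((m : ℝ) + 2)) * C (((q : ℝ) * (m + 1) - (m + 1)) / (m + 2)) = (q : ℝ[X]) * ((m : ℝ[X]) + 1) - ((m : ℝ[X]) + 1) := by
          rw [← C_mul, mul_div_cancel₀ _ hm2.ne']; simp
        have e4 : (C ((m : ℝ) + 2)) = ((m + 1 : ℕ) : ℝ[X]) + 1 := by
          have : (C (2 : ℝ)) = (2 : ℝ[X]) := rfl
          rw [C_add, this]
          push_cast
          simp only [map_natCast]
          ring
        calc (C ((m : ℝ) + 2)) * QQ q (m + 1 + 1) 0 = ((((m + 1 : ℕ) : ℝ[X])) + 1) * QQ q (m + 1 + 1) 0 := by rw [e4]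
          _ = _ := by
            rw [h2]
            have : ∀ A B D E F : ℝ[X], C ((m : ℝ) + 2) * (A * E * F + (B + D * X) * QQ q (m + 1) 0) =
              (C ((m : ℝ) + 2) * A) * E * F + ((C ((m : ℝ) + 2) * B) + (C ((m : ℝ) + 2) * D) * X) * QQ q (m + 1) 0 := by
              intro A B D E F; ring
            rw [this, e1, e2, e3]
            push_cast
            ring
      have hne : (C ((m : ℝ) + 2)) ≠ 0 := by
        rw [Ne, C_eq_zero]; exact hm2.ne'
      exact mul_left_cancel₀ hne h3

end Pool.Agent.H26.PS
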