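import Mathlib
import Pool.Agent.H26.PS2

set_option autoImplicit false
set_option linter.style.haveILetI false

open Polynomial Filter Topology

namespace Pool.Agent.H26.PS

def des {n q : ℕ} (f : Fin n → Fin q) : ℕ :=
  ((Finset.univ : Finset (Fin n × Fin n)).filter (fun p => p.2.val = p.1.val + 1 ∧ f p.2 < f p.1)).card

theorem des_eq {m q : ℕ} (f : Fin (m + 1) → Fin q) :
    des f = ∑ i : Fin m, if f i.succ < f i.castSucc then 1 else 0 := by
  rw [← Finset.card_filter]
  unfold des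
  symm
  apply Finset.card_bij (fun i _ => (i.castSucc, i.succ))
  · intro i hi
    rw [Finset.mem_filter] at hi ⊢
    refine ⟨Finset.mem_univ _, ?_, hi.2⟩
    simp
  · intro i _ j _ h
    have := (Prod.mk.inj h).2
    exact Fin.succ_injective _ this
  · rintro ⟨a, b⟩ hab
    rw [Finset.mem_filter] at hab
    obtain ⟨-, h1, h2⟩ := hab
    simp only at h1 h2
    have hb := b.2
    refine ⟨⟨a.val, by omega⟩, ?_, ?_⟩
    · rw [Finset.mem_filter]
      refine ⟨Finset.mem_univ _, ?_⟩
      have e1 : (⟨a.val, by omega⟩ : Fin m).succ = b := by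
        apply Fin.ext; simp [h1]
      have e2 : (⟨a.val, by omega⟩ : Fin m).castSucc = a := by
        apply Fin.ext; simp
      rw [e1, e2]; exact h2
    · apply Prod.ext
      · apply Fin.ext; simp
      · apply Fin.ext; simp [h1]

theorem des_cons {m q : ℕ} (j : Fin q) (g : Fin (m + 1) → Fin q) :
    des (Fin.cons j g : Fin (m + 2) → Fin q) = (if g 0 < j then 1 else 0) + des g := by
  rw [des_eq, des_eq, Fin.sum_univ_succ]
  rfl

theorem cons_sum (q m : ℕ) : ∀ j : Fin q,
    ∑ f : Fin m → Fin q, (X : ℝ[X]) ^ des (Fin.cons j f : Fin (m + 1) → Fin q) = QQ q m j := by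
  induction m with
  | zero =>
    intro j
    have : ∀ f : Fin 0 → Fin q, (X : ℝ[X]) ^ des (Fin.cons j f : Fin (0 + 1) → Fin q) = 1 := by
      intro f
      rw [des_eq]; simp
    simp only [this, QQ]
    simp
  | succ m ih =>
    intro j
    rw [← (Fin.consEquiv (fun _ : Fin (m + 1) => Fin q)).sum_comp, Fintype.sum_prod_type]
    have h1 : ∀ (i : Fin q) (g : Fin m → Fin q),
        (X : ℝ[X]) ^ des (Fin.cons j (Fin.consEquiv (fun _ : Fin (m + 1) => Fin q) (i, g)) : Fin (m + 1 + 1) → Fin q) =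
        em i j * X ^ des (Fin.cons i g : Fin (m + 1) → Fin q) := by
      intro i g
      rw [des_cons]
      have e1 : (Fin.consEquiv (fun _ : Fin (m + 1) => Fin q) (i, g)) = (Fin.cons i g : Fin (m + 1) → Fin q) := rfl
      have e2 : (Fin.consEquiv (fun _ : Fin (m + 1) => Fin q) (i, g)) 0 = i := rfl
      rw [e2, e1, pow_add]
      congr 1
      unfold em
      by_cases h : i < j
      · rw [if_pos h, if_pos (Fin.lt_def.mp h), pow_one]
      · rw [if_neg h, if_neg (fun h' => h (Fin.lt_def.mpr h')), pow_zero]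
    simp only [h1]
    simp only [← Finset.mul_sum]
    rw [QQ, Finset.sum_range]
    apply Finset.sum_congr rfl
    intro i _
    congr 1
    exact ih i

theorem WW_eq (q m : ℕ) : ∑ f : Fin (m + 1) → Fin q, (X : ℝ[X]) ^ des f = QQ q (m + 1) 0 := by
  rw [← (Fin.consEquiv (fun _ : Fin (m + 1) => Fin q)).sum_comp, Fintype.sum_prod_type, QQ, Finset.sum_range]
  apply Finset.sum_congr rfl
  intro i _
  rw [em, if_neg (by omega), one_mul]
  exact cons_sum q m i

/-- cyclic descents -/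
def cd {m q : ℕ} (f : Fin (m + 1) → Fin q) (i : Fin (m + 1)) : ℕ := if f (i + 1) < f i then 1 else 0

def cdes {m q : ℕ} (f : Fin (m + 1) → Fin q) : ℕ := ∑ i, cd f i

theorem des_add_cd {m q : ℕ} (f : Fin (m + 1) → Fin q) : des f + cd f (Fin.last m) = cdes f := by
  unfold cdes
  rw [Fin.sum_univ_castSucc, des_eq]
  congr 1
  apply Finset.sum_congr rfl
  intro i _
  unfold cd
  rw [Fin.coeSucc_eq_succ]

def sh {m q : ℕ} (s : Fin (m + 1)) (f : Fin (m + 1) → Fin q) : Fin (m + 1) → Fin q := fun i => f (i + s)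

theorem cd_sh {m q : ℕ} (s : Fin (m + 1)) (f : Fin (m + 1) → Fin q) (i : Fin (m + 1)) : cd (sh s f) i = cd f (i + s) := by
  unfold cd sh
  rw [add_right_comm]

theorem cdes_sh {m q : ℕ} (s : Fin (m + 1)) (f : Fin (m + 1) → Fin q) : cdes (sh s f) = cdes f := by
  unfold cdes
  simp only [cd_sh]
  exact Equiv.sum_comp (Equiv.addRight s) (cd f)

noncomputable def BB (m c : ℕ) : ℝ[X] := (c : ℝ[X]) * X ^ (c - 1) + (((m : ℝ[X]) + 1) - (c : ℝ[X])) * X ^ c

theorem cd_le {m q : ℕ} (f : Fin (m + 1) → Fin q) (i : Fin (m + 1)) : cd f i = 0 ∨ cd f i = 1 := by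
  unfold cd; split_ifs <;> simp

theorem sum_sh {m q : ℕ} (f : Fin (m + 1) → Fin q) : ∑ s, (X : ℝ[X]) ^ des (sh s f) = BB m (cdes f) := by
  have h1 : ∀ s, (X : ℝ[X]) ^ des (sh s f) = (cd f (Fin.last m + s) : ℝ[X]) * X ^ (cdes f - 1) +
      (1 - (cd f (Fin.last m + s) : ℝ[X])) * X ^ (cdes f) := by
    intro s
    have h2 := des_add_cd (sh s f)
    rw [cdes_sh, cd_sh] at h2
    rcases cd_le f (Fin.last m + s) with h | h
    · rw [h] at h2 ⊢
      rw [← h2]; simp
    · rw [h] at h2 ⊢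
      rw [← h2]; simp
  simp only [h1]
  have h3 := Equiv.sum_comp (Equiv.addLeft (Fin.last m)) (fun j => (cd f j : ℝ[X]) * X ^ (cdes f - 1) +
      (1 - (cd f j : ℝ[X])) * X ^ (cdes f))
  simp only [Equiv.coe_addLeft] at h3
  rw [h3]
  rw [Finset.sum_add_distrib, ← Finset.sum_mul, ← Finset.sum_mul, Finset.sum_sub_distrib]
  have h2 : ∑ i, (cd f i : ℝ[X]) = (cdes f : ℝ[X]) := by
    unfold cdes; push_cast; rfl
  rw [h2]
  simp [BB]

def shE {m q : ℕ} (s : Fin (m + 1)) : (Fin (m + 1) → Fin q) ≃ (Fin (m + 1) → Fin q) :=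
  (Equiv.addRight s).arrowCongr (Equiv.refl _) |>.symm

theorem shE_apply {m q : ℕ} (s : Fin (m + 1)) (f : Fin (m + 1) → Fin q) : shE s f = sh s f := rfl

theorem avg {m q : ℕ} (h : (Fin (m + 1) → Fin q) → ℝ[X]) (hh : ∀ s f, h (sh s f) = h f) :
    ((m : ℝ[X]) + 1) * ∑ f, X ^ des f * h f = ∑ f, h f * BB m (cdes f) := by
  have h1 : ∀ s : Fin (m + 1), ∑ f, (X : ℝ[X]) ^ des f * h f = ∑ f, h f * X ^ des (sh s f) := by
    intro s
    rw [← Equiv.sum_comp (shE s)]
    apply Finset.sum_congr rfl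
    intro f _
    rw [shE_apply, hh, mul_comm]
  calc ((m : ℝ[X]) + 1) * ∑ f, X ^ des f * h f = ∑ _s : Fin (m + 1), ∑ f, (X : ℝ[X]) ^ des f * h f := by
        simp
    _ = ∑ s : Fin (m + 1), ∑ f, h f * X ^ des (sh s f) := by
        apply Finset.sum_congr rfl
        intro s _
        exact h1 s
    _ = ∑ f, h f * BB m (cdes f) := by
        rw [Finset.sum_comm]
        apply Finset.sum_congr rfl
        intro f _
        rw [← Finset.mul_sum, sum_sh]

/-- rotation of letters -/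
def rot {m N : ℕ} (f : Fin (m + 1) → Fin (N + 1)) : Fin (m + 1) → Fin (N + 1) := fun i => f i + 1

theorem fin_rot {N : ℕ} (a b : Fin (N + 1)) :
    (if b + 1 < a + 1 then 1 else 0) + (if a = Fin.last N then 1 else 0) =
      (if b < a then 1 else 0) + (if b = Fin.last N then 1 else 0) := by
  have ha := Fin.val_add_one a
  have hb := Fin.val_add_one b
  have hal := a.2
  have hbl := b.2
  by_cases h1 : a = Fin.last N
  · by_cases h2 : b = Fin.last N
    · rw [h1, h2]; simp
    · rw [if_pos h1] at ha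
      rw [if_neg h2] at hb
      have h3 : ¬ (b + 1 < a + 1) := by rw [Fin.lt_def]; omega
      have h4 : b < a := by
        rw [h1]; exact Fin.lt_last_iff_ne_last.mpr h2
      rw [if_neg h3, if_pos h1, if_pos h4, if_neg h2]
  · by_cases h2 : b = Fin.last N
    · rw [if_neg h1] at ha
      rw [if_pos h2] at hb
      have h3 : b + 1 < a + 1 := by rw [Fin.lt_def]; omega
      have h4 : ¬ (b < a) := by
        rw [h2]; exact not_lt.mpr (Fin.le_last a)
      rw [if_pos h3, if_neg h1, if_neg h4, if_pos h2]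
    · rw [if_neg h1] at ha
      rw [if_neg h2] at hb
      have h3 : (b + 1 < a + 1) ↔ (b < a) := by rw [Fin.lt_def, Fin.lt_def]; omega
      rw [if_neg h1, if_neg h2]
      simp only [h3]

theorem cdes_rot {m N : ℕ} (f : Fin (m + 1) → Fin (N + 1)) : cdes (rot f) = cdes f := by
  have h1 : ∀ i, cd (rot f) i + (if f i = Fin.last N then 1 else 0) = cd f i + (if f (i + 1) = Fin.last N then 1 else 0) := by
    intro i
    exact fin_rot (f i) (f (i + 1))
  have h2 : ∑ i, (cd (rot f) i + (if f i = Fin.last N then 1 else 0)) =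
      ∑ i, (cd f i + (if f (i + 1) = Fin.last N then 1 else 0)) := Finset.sum_congr rfl (fun i _ => h1 i)
  rw [Finset.sum_add_distrib, Finset.sum_add_distrib] at h2
  have h3 : ∑ i, (if f (i + 1) = Fin.last N then 1 else 0) = ∑ i, (if f i = Fin.last N then 1 else 0) :=
    Equiv.sum_comp (Equiv.addRight (1 : Fin (m + 1))) (fun i => if f i = Fin.last N then 1 else 0)
  rw [h3] at h2
  unfold cdes
  omega

def rotE {m N : ℕ} : (Fin (m + 1) → Fin (N + 1)) ≃ (Fin (m + 1) → Fin (N + 1)) :=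
  (Equiv.refl _).arrowCongr (Equiv.addRight (1 : Fin (N + 1)))

theorem rotE_apply {m N : ℕ} (f : Fin (m + 1) → Fin (N + 1)) : rotE f = rot f := rfl

theorem rot_inv {m N : ℕ} (h : (Fin (m + 1) → Fin (N + 1)) → ℝ[X]) (hh : ∀ s f, h (sh s f) = h f) :
    ∑ f, (X : ℝ[X]) ^ des f * h (rot f) = ∑ f, X ^ des f * h f := by
  have h1 := avg h hh
  have h2 := avg (fun f => h (rot f)) (fun s f => by
    show h (rot (sh s f)) = h (rot f)
    have : rot (sh s f) = sh s (rot f) := rfl
    rw [this, hh])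
  have h3 : ∑ f, h (rot f) * BB m (cdes f) = ∑ f, h f * BB m (cdes f) := by
    rw [← Equiv.sum_comp rotE (fun f => h f * BB m (cdes f))]
    apply Finset.sum_congr rfl
    intro f _
    rw [rotE_apply, cdes_rot]
  have h4 : ((m : ℝ[X]) + 1) * ∑ f, X ^ des f * h (rot f) = ((m : ℝ[X]) + 1) * ∑ f, X ^ des f * h f := by
    rw [h1]
    exact h2.trans h3
  have hne : ((m : ℝ[X]) + 1) ≠ 0 := by exact_mod_cast Nat.succ_ne_zero m
  exact mul_left_cancel₀ hne h4

end Pool.Agent.H26.PS
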