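import Mathlib
import Pool.Agent.H26.PS3

set_option autoImplicit false
set_option linter.style.haveILetI false

open Polynomial Filter Topology

namespace Pool.Agent.H26.PS

def park {n : ℕ} (g : Fin n → Fin (n + 1)) : Prop :=
  ∀ k : ℕ, k ≤ n → k ≤ (Finset.univ.filter (fun i => (g i : ℕ) < k)).card

def CC {n : ℕ} (f : Fin n → Fin (n + 1)) (x : ℕ) : ℕ := (Finset.univ.filter (fun i => (f i : ℕ) < x)).card

theorem sub_val {n : ℕ} (a r : Fin (n + 1)) : ((a - r : Fin (n + 1)) : ℕ) = if (r : ℕ) ≤ a then (a : ℕ) - r else (a : ℕ) + (n + 1) - r := by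
  have ha := a.2
  have hr := r.2
  rw [Fin.val_sub]
  split_ifs with h
  · have : n + 1 - (r : ℕ) + a = (a - r) + (n + 1) := by omega
    rw [this, Nat.add_mod_right, Nat.mod_eq_of_lt (by omega)]
  · rw [Nat.mod_eq_of_lt (by omega)]
    omega

theorem cnt1 {n : ℕ} (f : Fin n → Fin (n + 1)) (r : Fin (n + 1)) (k : ℕ) (h : (r : ℕ) + k ≤ n + 1) :
    (Finset.univ.filter (fun i => ((f i - r : Fin (n + 1)) : ℕ) < k)).card + CC f r = CC f (r + k) := by
  unfold CC
  rw [Finset.card_filter, Finset.card_filter, Finset.card_filter, ← Finset.sum_add_distrib]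
  apply Finset.sum_congr rfl
  intro i _
  rw [sub_val]
  have := (f i).2
  have := r.2
  by_cases h1 : (r : ℕ) ≤ f i
  · rw [if_pos h1, if_neg (by omega : ¬ ((f i : ℕ) < r)), add_zero]
    by_cases h2 : (f i : ℕ) - r < k
    · rw [if_pos h2, if_pos (by omega)]
    · rw [if_neg h2, if_neg (by omega)]
  · rw [if_neg h1, if_pos (by omega : ((f i : ℕ) < r)), if_neg (by omega), if_pos (by omega)]

theorem cnt2 {n : ℕ} (f : Fin n → Fin (n + 1)) (r : Fin (n + 1)) (k : ℕ) (hk : k ≤ n) (h : n + 1 ≤ (r : ℕ) + k) :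
    (Finset.univ.filter (fun i => ((f i - r : Fin (n + 1)) : ℕ) < k)).card + CC f r = n + CC f (r + k - (n + 1)) := by
  have key : ∑ i : Fin n, ((if ((f i - r : Fin (n + 1)) : ℕ) < k then 1 else 0) + (if (f i : ℕ) < r then 1 else 0)) =
      ∑ i : Fin n, (1 + (if (f i : ℕ) < r + k - (n + 1) then 1 else 0)) := by
    apply Finset.sum_congr rfl
    intro i _
    rw [sub_val]
    have := (f i).2
    have := r.2
    by_cases h1 : (r : ℕ) ≤ f i
    · rw [if_pos h1, if_neg (by omega : ¬ ((f i : ℕ) < r)), if_pos (by omega), if_neg (by omega)]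
    · rw [if_neg h1, if_pos (by omega : ((f i : ℕ) < r))]
      by_cases h2 : (f i : ℕ) + (n + 1) - r < k
      · rw [if_pos h2, if_pos (by omega)]
      · rw [if_neg h2, if_neg (by omega)]
  rw [Finset.sum_add_distrib, Finset.sum_add_distrib, ← Finset.card_filter, ← Finset.card_filter,
    ← Finset.card_filter] at key
  unfold CC
  rw [key]
  simp

theorem park_iff {n : ℕ} (f : Fin n → Fin (n + 1)) (r : Fin (n + 1)) :
    park (fun i => f i - r) ↔ (∀ x : ℕ, (r : ℕ) ≤ x → x ≤ n → (CC f r : ℤ) - r ≤ CC f x - x) ∧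
      (∀ y : ℕ, y < r → (CC f r : ℤ) - r < CC f y - y) := by
  have hr := r.2
  constructor
  · intro h
    refine ⟨fun x hx1 hx2 => ?_, fun y hy => ?_⟩
    · have h1 : x - r ≤ (Finset.univ.filter (fun i => ((f i - r : Fin (n + 1)) : ℕ) < x - r)).card := h (x - r) (by omega)
      have h2 := cnt1 f r (x - r) (by omega)
      rw [show (r : ℕ) + (x - r) = x by omega] at h2
      omega
    · have h1 : y + (n + 1) - r ≤ (Finset.univ.filter (fun i => ((f i - r : Fin (n + 1)) : ℕ) < y + (n + 1) - r)).card :=
        h (y + (n + 1) - r) (by omega)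
      have h2 := cnt2 f r (y + (n + 1) - r) (by omega) (by omega)
      rw [show (r : ℕ) + (y + (n + 1) - r) - (n + 1) = y by omega] at h2
      omega
  · rintro ⟨h1, h2⟩ k hk
    show k ≤ (Finset.univ.filter (fun i => ((f i - r : Fin (n + 1)) : ℕ) < k)).card
    rcases le_or_gt ((r : ℕ) + k) n with h | h
    · have h3 := cnt1 f r k (by omega)
      have h4 := h1 (r + k) (by omega) h
      push_cast at h4
      omega
    · have h3 := cnt2 f r k hk (by omega)
      have h4 := h2 (r + k - (n + 1)) (by omega)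
      have h5 : (((r : ℕ) + k - (n + 1) : ℕ) : ℤ) = (r : ℤ) + k - (n + 1) := by omega
      rw [h5] at h4
      omega

theorem park_unique {n : ℕ} (f : Fin n → Fin (n + 1)) : ∃! r : Fin (n + 1), park (fun i => f i - r) := by
  obtain ⟨r, hr, hmin⟩ := Finset.exists_min_image (Finset.range (n + 1))
    (fun x => ((n : ℤ) + 2) * ((CC f x : ℤ) - x) + x) ⟨0, by simp⟩
  rw [Finset.mem_range] at hr
  refine ⟨⟨r, hr⟩, ?_, ?_⟩
  · show park (fun i => f i - ⟨r, hr⟩)
    rw [park_iff]
    refine ⟨fun x hx1 hx2 => ?_, fun y hy => ?_⟩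
    · have h1 := hmin x (by rw [Finset.mem_range]; omega)
      simp only at h1 hx1 ⊢
      by_contra hcon
      push Not at hcon
      have h2 : (CC f x : ℤ) - x + 1 ≤ (CC f r : ℤ) - r := by omega
      have hx2' : (x : ℤ) ≤ n := by exact_mod_cast hx2
      have hr0 : (0 : ℤ) ≤ r := by positivity
      have hn0 : (0 : ℤ) ≤ n := by positivity
      nlinarith
    · have h1 := hmin y (by rw [Finset.mem_range]; simp only at hy; omega)
      simp only at h1 hy ⊢
      by_contra hcon
      push Not at hcon
      have hy' : (y : ℤ) < r := by exact_mod_cast hy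
      have hn0 : (0 : ℤ) ≤ n := by positivity
      nlinarith
  · intro s hs
    rw [park_iff] at hs
    have hsl := s.2
    apply Fin.ext
    show (s : ℕ) = r
    by_contra hne
    rcases Nat.lt_or_gt_of_ne hne with h | h
    · -- s < r
      have h1 := hs.1 r h.le (by omega)
      have h2 := hmin s (by rw [Finset.mem_range]; omega)
      have h' : ((s : ℕ) : ℤ) < r := by exact_mod_cast h
      have hn0 : (0 : ℤ) ≤ n := by positivity
      nlinarith
    · have h1 := hs.2 r h
      have h2 := hmin s (by rw [Finset.mem_range]; omega)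
      have h' : (r : ℤ) < ((s : ℕ) : ℤ) := by exact_mod_cast h
      have h3 : ((s : ℕ) : ℤ) ≤ n := by
        have : (s : ℕ) ≤ n := by omega
        exact_mod_cast this
      have hr0 : (0 : ℤ) ≤ r := by positivity
      have hn0 : (0 : ℤ) ≤ n := by positivity
      have h4 : (CC f s : ℤ) - (s : ℕ) + 1 ≤ (CC f r : ℤ) - r := by omega
      nlinarith

theorem park_sh {m : ℕ} (s : Fin (m + 1)) (f : Fin (m + 1) → Fin (m + 1 + 1)) : park (sh s f) ↔ park f := by
  unfold park
  have : ∀ k : ℕ, (Finset.univ.filter (fun i => (sh s f i : ℕ) < k)).card = (Finset.univ.filter (fun i => (f i : ℕ) < k)).card := by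
    intro k
    rw [Finset.card_filter, Finset.card_filter]
    exact Equiv.sum_comp (Equiv.addRight s) (fun i => if (f i : ℕ) < k then 1 else 0)
  simp only [this]

theorem rot_all {m N : ℕ} (r : Fin (N + 1)) : ∀ (h : (Fin (m + 1) → Fin (N + 1)) → ℝ[X]) (_ : ∀ s f, h (sh s f) = h f),
    ∑ f, (X : ℝ[X]) ^ des f * h (fun i => f i + r) = ∑ f, X ^ des f * h f := by
  induction r using Fin.induction with
  | zero => intro h _; simp
  | succ i ih =>
    intro h hh
    have h1 := rot_inv (fun f => h (fun x => f x + i.castSucc)) (fun s f => by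
      show h (fun x => sh s f x + i.castSucc) = h (fun x => f x + i.castSucc)
      have : (fun x => sh s f x + i.castSucc) = sh s (fun x => f x + i.castSucc) := rfl
      rw [this, hh])
    rw [ih h hh] at h1
    rw [← h1]
    apply Finset.sum_congr rfl
    intro f _
    have : (fun x => f x + i.succ) = (fun x => rot f x + i.castSucc) := by
      funext x
      unfold rot
      rw [← Fin.coeSucc_eq_succ, add_assoc, add_comm 1]
    rw [this]

open Classical in
theorem total (m : ℕ) : (((m + 1 : ℕ) : ℝ[X]) + 1) * ∑ f : Fin (m + 1) → Fin (m + 1 + 1), X ^ des f * (if park f then 1 else 0) =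
    QQ (m + 1 + 1) (m + 1) 0 := by
  set h : (Fin (m + 1) → Fin (m + 1 + 1)) → ℝ[X] := fun f => if park f then 1 else 0 with hh
  have hsh : ∀ s f, h (sh s f) = h f := by
    intro s f
    simp only [hh, park_sh]
  have h1 : ∀ f : Fin (m + 1) → Fin (m + 1 + 1), ∑ r : Fin (m + 1 + 1), h (fun i => f i - r) = 1 := by
    intro f
    obtain ⟨r, hr, huniq⟩ := park_unique f
    rw [Finset.sum_eq_single r]
    · simp only [hh]
      rw [if_pos hr]
    · intro s _ hs
      simp only [hh]
      rw [if_neg (fun h => hs (huniq s h))]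
    · intro h; exact absurd (Finset.mem_univ _) h
  calc (((m + 1 : ℕ) : ℝ[X]) + 1) * ∑ f : Fin (m + 1) → Fin (m + 1 + 1), X ^ des f * h f
      = ∑ r : Fin (m + 1 + 1), ∑ f : Fin (m + 1) → Fin (m + 1 + 1), X ^ des f * h f := by simp
    _ = ∑ r : Fin (m + 1 + 1), ∑ f : Fin (m + 1) → Fin (m + 1 + 1), X ^ des f * h (fun i => f i - r) := by
        apply Finset.sum_congr rfl
        intro r _
        rw [← rot_all (-r) h hsh]
        apply Finset.sum_congr rfl
        intro f _
        simp only [sub_eq_add_neg]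
    _ = ∑ f : Fin (m + 1) → Fin (m + 1 + 1), X ^ des f := by
        rw [Finset.sum_comm]
        apply Finset.sum_congr rfl
        intro f _
        rw [← Finset.mul_sum, h1, mul_one]
    _ = QQ (m + 1 + 1) (m + 1) 0 := WW_eq _ _

theorem final (m : ℕ) (D : ℝ[X]) (hD : D = ∑ f ∈ (Finset.univ : Finset (Fin (m + 1) → Fin (m + 1))).filter
              (fun f => ∀ k : ℕ, k ≤ m + 1 →
                k ≤ (Finset.univ.filter (fun i : Fin (m + 1) => (f i : ℕ) < k)).card),
            (Polynomial.X : Polynomial ℝ) ^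
              ((Finset.univ : Finset (Fin (m + 1) × Fin (m + 1))).filter
                (fun q => q.2.val = q.1.val + 1 ∧ f q.2 < f q.1)).card) :
    Multiset.card D.roots = D.natDegree := by
  classical
  have h1 : D = ∑ f : Fin (m + 1) → Fin (m + 1 + 1), X ^ des f * (if park f then 1 else 0) := by
    have e1 : ∀ f : Fin (m + 1) → Fin (m + 1 + 1), (X : ℝ[X]) ^ des f * (if park f then 1 else 0) =
        if park f then X ^ des f else 0 := by
      intro f; split_ifs <;> simp
    simp only [e1]
    rw [← Finset.sum_filter, hD]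
    apply Finset.sum_bij (fun f _ => fun i => (f i).castSucc)
    · intro f hf
      rw [Finset.mem_filter] at hf ⊢
      refine ⟨Finset.mem_univ _, ?_⟩
      intro k hk
      simpa using hf.2 k hk
    · intro f _ g _ hfg
      funext i
      exact Fin.castSucc_injective _ (congrFun hfg i)
    · intro g hg
      rw [Finset.mem_filter] at hg
      have hlt : ∀ i, (g i : ℕ) < m + 1 := by
        intro i
        have h2 := hg.2 (m + 1) le_rfl
        have h3 : (Finset.univ.filter (fun i => (g i : ℕ) < m + 1)) = Finset.univ := by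
          apply Finset.eq_univ_of_card
          apply le_antisymm (Finset.card_le_univ _)
          rw [Fintype.card_fin]
          exact h2
        have h4 : i ∈ (Finset.univ.filter (fun i => (g i : ℕ) < m + 1)) := by rw [h3]; exact Finset.mem_univ _
        exact (Finset.mem_filter.mp h4).2
      refine ⟨fun i => ⟨g i, hlt i⟩, ?_, ?_⟩
      · rw [Finset.mem_filter]
        refine ⟨Finset.mem_univ _, ?_⟩
        intro k hk
        exact hg.2 k hk
      · funext i
        apply Fin.ext
        rfl
    · intro f _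
      congr 1
  have h2 := total m
  rw [← h1] at h2
  have h3 := QQ_real (m + 1 + 1) m (by omega)
  rw [← h2] at h3
  have h4 := SS_roots h3
  have h5 := SS_natDegree h3
  have h6 : (((m + 1 : ℕ) : ℝ[X]) + 1) = C ((m : ℝ) + 1 + 1) := by
    simp
  have hne : (m : ℝ) + 1 + 1 ≠ 0 := by positivity
  rw [h6, roots_C_mul _ hne] at h4
  rw [h6, natDegree_C_mul hne] at h5
  rw [h4, h5]

end Pool.Agent.H26.PS
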