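import Mathlib

set_option autoImplicit false
set_option linter.style.haveILetI false

namespace Pool.Agent.H26.TM

/-- Thue-Morse sequence -/
def t : ℕ → Bool
  | 0 => false
  | n + 1 => xor (t ((n + 1) / 2)) ((n + 1) % 2 == 1)
decreasing_by omega

theorem t_even (n : ℕ) : t (2 * n) = t n := by
  cases n with
  | zero => rfl
  | succ n =>
    rw [show 2 * (n + 1) = (2 * n + 1) + 1 by ring, t]
    have h1 : (2 * n + 1 + 1) / 2 = n + 1 := by omega
    have h2 : (2 * n + 1 + 1) % 2 = 0 := by omega
    rw [h1, h2]; simp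

theorem t_odd (n : ℕ) : t (2 * n + 1) = !t n := by
  rw [t]
  have h1 : (2 * n + 1) / 2 = n := by omega
  have h2 : (2 * n + 1) % 2 = 1 := by omega
  rw [h1, h2]; simp

theorem odd_of_eq (b : ℕ) (h : t b = t (b + 1)) : b % 2 = 1 := by
  by_contra hb
  obtain ⟨l, rfl⟩ : ∃ l, b = 2 * l := ⟨b / 2, by omega⟩
  rw [t_even, t_odd] at h
  cases t l <;> simp at h

theorem noalt (a : ℕ) : ∃ k < 4, t (a + k) = t (a + k + 1) := by
  by_contra hcon
  push Not at hcon
  have key : ∃ m, t m = t (m + 1) ∧ t (m + 1) = t (m + 2) := by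
    rcases Nat.even_or_odd' a with ⟨m, hm | hm⟩
    · refine ⟨m, ?_, ?_⟩
      · have h := hcon 1 (by norm_num)
        rw [hm, t_odd, show 2 * m + 1 + 1 = 2 * (m + 1) by ring, t_even] at h
        revert h; cases t m <;> cases t (m + 1) <;> simp
      · have h := hcon 3 (by norm_num)
        rw [hm, show 2 * m + 3 = 2 * (m + 1) + 1 by ring, t_odd,
          show 2 * (m + 1) + 1 + 1 = 2 * (m + 2) by ring, t_even] at h
        revert h; cases t (m + 1) <;> cases t (m + 2) <;> simp
    · refine ⟨m, ?_, ?_⟩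
      · have h := hcon 0 (by norm_num)
        rw [hm, show 2 * m + 1 + 0 = 2 * m + 1 by ring, t_odd,
          show 2 * m + 1 + 1 = 2 * (m + 1) by ring, t_even] at h
        revert h; cases t m <;> cases t (m + 1) <;> simp
      · have h := hcon 2 (by norm_num)
        rw [hm, show 2 * m + 1 + 2 = 2 * (m + 1) + 1 by ring, t_odd,
          show 2 * (m + 1) + 1 + 1 = 2 * (m + 2) by ring, t_even] at h
        revert h; cases t (m + 1) <;> cases t (m + 2) <;> simp
  obtain ⟨m, h1, h2⟩ := key
  have o1 := odd_of_eq _ h1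
  have o2 := odd_of_eq _ h2
  omega

/-- circular windows -/
def W (n : ℕ) (c : ℕ → Bool) : Prop := ∀ j, ∃ a, ∀ i, i + 1 < n → c (j + i) = t (a + i)

theorem step (n : ℕ) (hn : 7 ≤ n) (c : ℕ → Bool) (hper : ∀ i, c (i + n) = c i) (hW : W n c) :
    ∃ m e : ℕ, n = 2 * m ∧ (∀ i, c (2 * i + e) ≠ c (2 * i + e + 1)) ∧
      W m (fun i => c (2 * i + e)) ∧ (∀ i, c (2 * (i + m) + e) = c (2 * i + e)) := by
  choose a ha using hW
  have hstep : ∀ j, (a (j + 1) + (j + 1)) % 2 = (a j + j) % 2 := by
    intro j
    obtain ⟨k, hk, hk'⟩ := noalt (a j + 1)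
    have o1 := odd_of_eq _ hk'
    have e1 := ha j (k + 1) (by omega)
    have e2 := ha j (k + 2) (by omega)
    have e3 := ha (j + 1) k (by omega)
    have e4 := ha (j + 1) (k + 1) (by omega)
    have h5 : t (a (j + 1) + k) = t (a (j + 1) + k + 1) := by
      rw [← e3, show a (j + 1) + k + 1 = a (j + 1) + (k + 1) by ring, ← e4,
        show j + 1 + k = j + (k + 1) by ring, show j + 1 + (k + 1) = j + (k + 2) by ring, e1, e2,
        show a j + (k + 1) = a j + 1 + k by ring, show a j + (k + 2) = a j + 1 + k + 1 by ring]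
      exact hk'
    have o2 := odd_of_eq _ h5
    omega
  have hconst : ∀ j, (a j + j) % 2 = a 0 % 2 := by
    intro j
    induction j with
    | zero => simp
    | succ j ih => rw [hstep, ih]
  have hneven : n % 2 = 0 := by
    obtain ⟨k, hk, hk'⟩ := noalt (a 0)
    have o1 := odd_of_eq _ hk'
    have e1 := ha 0 k (by omega)
    have e2 := ha 0 (k + 1) (by omega)
    have e3 := ha n k (by omega)
    have e4 := ha n (k + 1) (by omega)
    have h5 : t (a n + k) = t (a n + k + 1) := by
      rw [← e3, show a n + k + 1 = a n + (k + 1) by ring, ← e4,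
        show n + k = k + n by ring, show n + (k + 1) = (k + 1) + n by ring, hper, hper]
      rw [zero_add] at e1 e2
      rw [e1, e2, show a 0 + (k + 1) = a 0 + k + 1 by ring]
      exact hk'
    have o2 := odd_of_eq _ h5
    have := hconst n
    omega
  obtain ⟨m, hm⟩ : ∃ m, n = 2 * m := ⟨n / 2, by omega⟩
  set e := a 0 % 2 with he
  have heven : ∀ i, a (2 * i + e) % 2 = 0 := by
    intro i
    have := hconst (2 * i + e)
    omega
  refine ⟨m, e, hm, ?_, ?_, ?_⟩
  · intro i
    obtain ⟨b, hb⟩ : ∃ b, a (2 * i + e) = 2 * b := ⟨a (2 * i + e) / 2, by have := heven i; omega⟩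
    have e1 := ha (2 * i + e) 0 (by omega)
    have e2 := ha (2 * i + e) 1 (by omega)
    rw [add_zero, add_zero, hb, t_even] at e1
    rw [hb, t_odd] at e2
    rw [e1, e2]
    cases t b <;> simp
  · intro j
    obtain ⟨b, hb⟩ : ∃ b, a (2 * j + e) = 2 * b := ⟨a (2 * j + e) / 2, by have := heven j; omega⟩
    refine ⟨b, ?_⟩
    intro i hi
    have e1 := ha (2 * j + e) (2 * i) (by omega)
    rw [hb, show 2 * b + 2 * i = 2 * (b + i) by ring, t_even] at e1
    show c (2 * (j + i) + e) = _
    rw [← e1]; congr 1; ring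
  · intro i
    rw [← hper (2 * i + e), hm]; congr 1; ring

theorem length_form (n : ℕ) : 1 ≤ n → ∀ (c : ℕ → Bool) (_ : ∀ i, c (i + n) = c i) (_ : W n c),
    ¬ 13 ∣ n := by
  induction n using Nat.strong_induction_on with
  | _ n ih =>
  intro hn c hper hW h13
  rcases Nat.lt_or_ge n 7 with h | h
  · have := Nat.le_of_dvd (by omega) h13
    omega
  · obtain ⟨m, e, hm, -, hWm, hperm⟩ := step n h c hper hW
    apply ih m (by omega) (by omega) _ hperm hWm
    rw [hm] at h13
    exact (Nat.Coprime.dvd_of_dvd_mul_left (by norm_num) h13)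

/-- the word over `ZMod 13` -/
def x (n : ℕ) : ZMod 13 := ∑ i ∈ Finset.range n, (1 + (if t i then 1 else 0))

theorem x_succ (n : ℕ) : x (n + 1) = x n + (1 + (if t n then 1 else 0)) := by
  unfold x; rw [Finset.sum_range_succ]

theorem ind_inj {a b : Bool} (h : (1 + (if a then 1 else 0) : ZMod 13) = 1 + (if b then 1 else 0)) :
    a = b := by
  revert h; cases a <;> cases b <;> decide

theorem no_circ (n : ℕ) (hn : 2 ≤ n) (w : ℕ → ZMod 13) (hper : ∀ i, w (i + n) = w i)
    (hW : ∀ j, ∃ a, ∀ i, i < n → w (j + i) = x (a + i)) : False := by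
  choose a ha using hW
  let c : ℕ → Bool := fun j => t (a j)
  have hinc : ∀ j, w (j + 1) = w j + (1 + (if c j then 1 else 0)) := by
    intro j
    have e1 := ha j 0 (by omega)
    have e2 := ha j 1 (by omega)
    rw [add_zero, add_zero] at e1
    rw [e2, x_succ, ← e1]
  have hcW : W n c := by
    intro j
    refine ⟨a j, ?_⟩
    intro i hi
    have e1 := ha j i (by omega)
    have e2 := ha j (i + 1) (by omega)
    have e3 := hinc (j + i)
    rw [show j + i + 1 = j + (i + 1) by ring, e2, show a j + (i + 1) = a j + i + 1 by ring,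
      x_succ, e1] at e3
    exact (ind_inj (add_left_cancel e3)).symm
  have hcper : ∀ i, c (i + n) = c i := by
    intro i
    have e1 := hinc i
    have e2 := hinc (i + n)
    rw [hper i, show i + n + 1 = (i + 1) + n by ring, hper, e1] at e2
    exact (ind_inj (add_left_cancel e2)).symm
  rcases Nat.lt_or_ge n 7 with h | h
  · have hsum : ∀ m, w m = w 0 + ((∑ i ∈ Finset.range m, (1 + (if c i then 1 else 0)) : ℕ) : ZMod 13) := by
      intro m
      induction m with
      | zero => simp
      | succ m ih =>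
        rw [hinc, ih, Finset.sum_range_succ]; push_cast; ring
    have h1 := hsum n
    have h0 := hper 0
    rw [zero_add] at h0
    rw [h0] at h1
    have h2 : ((∑ i ∈ Finset.range n, (1 + (if c i then 1 else 0)) : ℕ) : ZMod 13) = 0 :=
      left_eq_add.mp h1
    rw [ZMod.natCast_eq_zero_iff] at h2
    have h3 : ∑ i ∈ Finset.range n, (1 + (if c i then 1 else 0)) ≤ ∑ i ∈ Finset.range n, 2 :=
      Finset.sum_le_sum (fun i _ => by split_ifs <;> norm_num)
    have h4 : ∑ i ∈ Finset.range n, 1 ≤ ∑ i ∈ Finset.range n, (1 + (if c i then 1 else 0)) :=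
      Finset.sum_le_sum (fun i _ => by omega)
    simp only [Finset.sum_const, Finset.card_range, smul_eq_mul] at h3 h4
    have h5 := Nat.le_of_dvd (by omega) h2
    omega
  · obtain ⟨m, e, hm, halt, -, -⟩ := step n h c hcper hcW
    have hw : ∀ k, w (2 * k + e) = w e + (3 * k : ℕ) := by
      intro k
      induction k with
      | zero => simp
      | succ k ih =>
        have h1 := hinc (2 * k + e)
        have h2 := hinc (2 * k + e + 1)
        have h3 := halt k
        rw [show 2 * (k + 1) + e = 2 * k + e + 1 + 1 by ring, h2, h1, ih]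
        have h4 : ((if c (2 * k + e) then 1 else 0) + (if c (2 * k + e + 1) then 1 else 0) : ZMod 13) = 1 := by
          revert h3
          cases c (2 * k + e) <;> cases c (2 * k + e + 1) <;> simp
        push_cast
        linear_combination h4
    have h1 := hw m
    rw [← hm, show n + e = e + n by ring, hper] at h1
    have h2 : ((3 * m : ℕ) : ZMod 13) = 0 := left_eq_add.mp h1
    rw [ZMod.natCast_eq_zero_iff] at h2
    have h3 : 13 ∣ m := Nat.Coprime.dvd_of_dvd_mul_left (by norm_num) h2
    exact length_form n (by omega) c hcper hcW (by rw [hm]; exact Dvd.dvd.mul_left h3 2)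

end Pool.Agent.H26.TM
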