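import Mathlib
import Pool.Agent.H26.ThueMorse

set_option autoImplicit false
set_option linter.style.haveILetI false

namespace Pool.Agent.H26.WordAlg

section abs
variable {U : Type} [Ring U] {ι : Type} (a : ι → U)

/-- product of letters -/
def W (l : List ι) : U := (l.map a).prod

theorem W_append (l l' : List ι) : W a (l ++ l') = W a l * W a l' := by
  unfold W; rw [List.map_append, List.prod_append]

/-- additive span of words of length at least `k` -/
def D (k : ℕ) : AddSubgroup U := AddSubgroup.closure {y | ∃ l : List ι, k ≤ l.length ∧ W a l = y}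

theorem W_mem (l : List ι) (k : ℕ) (h : k ≤ l.length) : W a l ∈ D a k :=
  AddSubgroup.subset_closure ⟨l, h, rfl⟩

theorem D_anti {i j : ℕ} (h : i ≤ j) : D a j ≤ D a i := by
  apply AddSubgroup.closure_mono
  rintro y ⟨l, hl, rfl⟩
  exact ⟨l, h.trans hl, rfl⟩

theorem D_mul {i j : ℕ} {y z : U} (hy : y ∈ D a i) (hz : z ∈ D a j) : y * z ∈ D a (i + j) := by
  unfold D at hy
  induction hy using AddSubgroup.closure_induction with
  | mem y hy =>
    obtain ⟨l, hl, rfl⟩ := hy
    unfold D at hz
    induction hz using AddSubgroup.closure_induction with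
    | mem z hz =>
      obtain ⟨l', hl', rfl⟩ := hz
      rw [← W_append]
      exact W_mem a _ _ (by rw [List.length_append]; omega)
    | zero => rw [mul_zero]; exact zero_mem _
    | add z z' _ _ h1 h2 => rw [mul_add]; exact add_mem h1 h2
    | neg z _ h => rw [mul_neg]; exact neg_mem h
  | zero => rw [zero_mul]; exact zero_mem _
  | add y y' _ _ h1 h2 => rw [add_mul]; exact add_mem h1 h2
  | neg y _ h => rw [neg_mul]; exact neg_mem h

variable (N : ℕ) (hN : ∀ l : List ι, N < l.length → W a l = 0)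

include hN

theorem D_zero {y : U} (hy : y ∈ D a (N + 1)) : y = 0 := by
  unfold D at hy
  induction hy using AddSubgroup.closure_induction with
  | mem y hy => obtain ⟨l, hl, rfl⟩ := hy; exact hN l hl
  | zero => rfl
  | add y y' _ _ h1 h2 => rw [h1, h2, add_zero]
  | neg y _ h => rw [h, neg_zero]

omit hN in
theorem pow_mem_D {y : U} (hy : y ∈ D a 1) (i : ℕ) : y ^ (i + 1) ∈ D a (i + 1) := by
  induction i with
  | zero => simpa using hy
  | succ i ih => rw [pow_succ]; exact D_mul a ih hy

theorem inv_sub_mem (u : Uˣ) (hu : (u : U) - 1 ∈ D a 1) : ((u⁻¹ : Uˣ) : U) - 1 ∈ D a 1 := by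
  set y : U := (u : U) - 1 with hy
  have hny : -y ∈ D a 1 := neg_mem hu
  have hpow : (-y) ^ (N + 1) = 0 := D_zero a N hN (pow_mem_D a hny N)
  set z : U := ∑ i ∈ Finset.range (N + 1), (-y) ^ i with hz
  have h1 : (u : U) * z = 1 := by
    have h2 : (1 - (-y)) * z = 1 - (-y) ^ (N + 1) := mul_neg_geom_sum (-y) (N + 1)
    rw [hpow, sub_zero] at h2
    have h3 : (u : U) = 1 - (-y) := by rw [hy]; abel
    rw [h3]; exact h2
  have h2 : ((u⁻¹ : Uˣ) : U) = z := by
    calc ((u⁻¹ : Uˣ) : U) = ((u⁻¹ : Uˣ) : U) * ((u : U) * z) := by rw [h1, mul_one]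
      _ = z := by rw [← mul_assoc, Units.inv_mul, one_mul]
  rw [h2, hz, Finset.sum_range_succ']
  rw [pow_zero, add_sub_cancel_right]
  apply sum_mem
  intro i _
  exact D_anti a (by omega) (pow_mem_D a hny i)

variable (g : ι → Uˣ) (hg : ∀ i, ((g i : Uˣ) : U) = 1 + a i)

include hg

theorem H_one (h : Uˣ) (hh : h ∈ Subgroup.closure (Set.range g)) : (h : U) - 1 ∈ D a 1 := by
  induction hh using Subgroup.closure_induction with
  | mem x hx =>
    obtain ⟨i, rfl⟩ := hx
    rw [hg, add_sub_cancel_left]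
    have : W a [i] = a i := by simp [W]
    rw [← this]
    exact W_mem a _ _ (by simp)
  | one => simp
  | mul x y _ _ hx hy =>
    have e : ((x * y : Uˣ) : U) - 1 = ((x : U) - 1) * ((y : U) - 1) + ((x : U) - 1) + ((y : U) - 1) := by
      push_cast; noncomm_ring
    rw [e]
    exact add_mem (add_mem (D_anti a (by omega) (D_mul a hx hy)) hx) hy
  | inv x _ hx => exact inv_sub_mem a N hN x hx

omit hN hg in
theorem mul_one_add {k : ℕ} {s y : U} (hs : s - 1 ∈ D a 1) (hy : y ∈ D a k) : s * y ∈ D a k := by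
  have e : s * y = (s - 1) * y + y := by noncomm_ring
  rw [e]
  exact add_mem (D_anti a (by omega) (D_mul a hs hy)) hy

variable (hP : ∀ l : List ι, 2 ≤ l.length → W a l ≠ 0 →
    ∃ u v : List ι, l = u ++ v ∧ u ≠ [] ∧ v ≠ [] ∧ W a (v ++ u) = 0)

include hP

theorem approx (n : ℕ) : ∀ l : List ι, l.length = n → l ≠ [] →
    ∃ h ∈ Subgroup.closure (Set.range g), ∃ y ∈ D a (l.length + 1), (h : U) = 1 + W a l + y := by
  induction n using Nat.strong_induction_on with
  | _ n ih =>
  intro l hl hne
  by_cases h2 : 2 ≤ l.length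
  · by_cases hW : W a l = 0
    · exact ⟨1, one_mem _, 0, zero_mem _, by rw [hW]; simp⟩
    · obtain ⟨u, v, huv, hu, hv, hvu⟩ := hP l h2 hW
      have hlen : l.length = u.length + v.length := by rw [huv, List.length_append]
      have hu1 : 0 < u.length := List.length_pos_of_ne_nil hu
      have hv1 : 0 < v.length := List.length_pos_of_ne_nil hv
      obtain ⟨h1, hh1, y1, hy1, e1⟩ := ih u.length (by omega) u rfl hu
      obtain ⟨h2, hh2, y2, hy2, e2⟩ := ih v.length (by omega) v rfl hv
      refine ⟨h1 * h2 * h1⁻¹ * h2⁻¹, ?_, (((h1 * h2 * h1⁻¹ * h2⁻¹ : Uˣ) : U) - 1 - W a l), ?_, by abel⟩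
      · exact mul_mem (mul_mem (mul_mem hh1 hh2) (inv_mem hh1)) (inv_mem hh2)
      · have hs1 := H_one a N hN g hg _ (inv_mem hh1)
        have hs2 := H_one a N hN g hg _ (inv_mem hh2)
        set A : U := W a u + y1 with hA
        set B : U := W a v + y2 with hB
        have hA' : A ∈ D a u.length :=
          add_mem (W_mem a _ _ le_rfl) (D_anti a (by omega) hy1)
        have hB' : B ∈ D a v.length :=
          add_mem (W_mem a _ _ le_rfl) (D_anti a (by omega) hy2)
        have hh1' : (h1 : U) = 1 + A := by rw [e1, hA]; abel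
        have hh2' : (h2 : U) = 1 + B := by rw [e2, hB]; abel
        set s : U := ((h1⁻¹ : Uˣ) : U) * ((h2⁻¹ : Uˣ) : U) - 1 with hs
        have hsD : s ∈ D a 1 := by
          have e : s = (((h1⁻¹ : Uˣ) : U) - 1) * (((h2⁻¹ : Uˣ) : U) - 1) + (((h1⁻¹ : Uˣ) : U) - 1)
              + (((h2⁻¹ : Uˣ) : U) - 1) := by rw [hs]; noncomm_ring
          rw [e]
          exact add_mem (add_mem (D_anti a (by omega) (D_mul a hs1 hs2)) hs1) hs2
        have hcomm : A * B - B * A - W a l ∈ D a (l.length + 1) := by
          have e : A * B - B * A - W a l = (W a u * y2 + y1 * W a v + y1 * y2) -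
              (W a v * y1 + y2 * W a u + y2 * y1) := by
            have hl' : W a l = W a u * W a v := by rw [huv, W_append]
            have hvu' : W a v * W a u = 0 := by rw [← W_append]; exact hvu
            have e3 : B * A = W a v * W a u + (W a v * y1 + y2 * W a u + y2 * y1) := by
              rw [hA, hB]; noncomm_ring
            rw [e3, hvu', hl', hA, hB]; noncomm_ring
          rw [e, hlen]
          have m1 : W a u ∈ D a u.length := W_mem a _ _ le_rfl
          have m2 : W a v ∈ D a v.length := W_mem a _ _ le_rfl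
          refine sub_mem (add_mem (add_mem ?_ ?_) ?_) (add_mem (add_mem ?_ ?_) ?_)
          · exact D_anti a (by omega) (D_mul a m1 hy2)
          · exact D_anti a (by omega) (D_mul a hy1 m2)
          · exact D_anti a (by omega) (D_mul a hy1 hy2)
          · exact D_anti a (by omega) (D_mul a m2 hy1)
          · exact D_anti a (by omega) (D_mul a hy2 m1)
          · exact D_anti a (by omega) (D_mul a hy2 hy1)
        have hAB : A * B - B * A ∈ D a l.length := by
          rw [hlen]
          exact sub_mem (D_mul a hA' hB') (D_anti a (by omega) (D_mul a hB' hA'))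
        have e : (((h1 * h2 * h1⁻¹ * h2⁻¹ : Uˣ) : U) - 1 - W a l) =
            (A * B - B * A - W a l) + (A * B - B * A) * s := by
          have e4 : ((h2 : U) * h1) * (((h1⁻¹ : Uˣ) : U) * ((h2⁻¹ : Uˣ) : U)) = 1 := by
            rw [mul_assoc, ← mul_assoc (h1 : U), Units.mul_inv, one_mul, Units.mul_inv]
          have e5 : (h1 : U) * h2 = h2 * h1 + (A * B - B * A) := by
            rw [hh1', hh2']; noncomm_ring
          have e6 : ((h1⁻¹ : Uˣ) : U) * ((h2⁻¹ : Uˣ) : U) = 1 + s := by rw [hs]; abel
          have e7 : ((h1 * h2 * h1⁻¹ * h2⁻¹ : Uˣ) : U) = 1 + (A * B - B * A) * (1 + s) := by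
            push_cast
            rw [mul_assoc ((h1 : U) * h2), e5, add_mul, e4, e6]
          rw [e7]; noncomm_ring
        rw [e]
        exact add_mem hcomm (D_mul a hAB hsD)
  · have h1 : l.length = 1 := by
      have := List.length_pos_of_ne_nil hne
      omega
    obtain ⟨i, rfl⟩ := List.length_eq_one_iff.mp h1
    refine ⟨g i, Subgroup.subset_closure ⟨i, rfl⟩, 0, zero_mem _, ?_⟩
    rw [hg]; simp [W]

theorem all_mem (m : ℕ) : ∀ k, 1 ≤ k → N + 1 ≤ k + m → ∀ y ∈ D a k,
    ∃ h ∈ Subgroup.closure (Set.range g), (h : U) = 1 + y := by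
  induction m with
  | zero =>
    intro k hk hkm y hy
    have : y = 0 := D_zero a N hN (D_anti a (by omega) hy)
    exact ⟨1, one_mem _, by rw [this]; simp⟩
  | succ m ih =>
    intro k hk hkm y hy
    have ih' := ih (k + 1) (by omega) (by omega)
    -- correction lemma
    have corr : ∀ h ∈ Subgroup.closure (Set.range g), ∀ z ∈ D a (k + 1),
        ∃ h' ∈ Subgroup.closure (Set.range g), (h' : U) = h - z := by
      intro h hh z hz
      have hs := H_one a N hN g hg _ (inv_mem hh)
      obtain ⟨h2, hh2, e2⟩ := ih' (-(((h⁻¹ : Uˣ) : U) * z)) (neg_mem (mul_one_add a hs hz))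
      refine ⟨h * h2, mul_mem hh hh2, ?_⟩
      push_cast
      rw [e2, mul_add, mul_one, mul_neg, ← mul_assoc, Units.mul_inv, one_mul]
      abel
    unfold D at hy
    induction hy using AddSubgroup.closure_induction with
    | mem y hy =>
      obtain ⟨l, hl, rfl⟩ := hy
      have hne : l ≠ [] := by rintro rfl; simp at hl; omega
      obtain ⟨h, hh, z, hz, e⟩ := approx a N hN g hg hP l.length l rfl hne
      obtain ⟨h', hh', e'⟩ := corr h hh z (D_anti a (by omega) hz)
      exact ⟨h', hh', by rw [e', e]; abel⟩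
    | zero => exact ⟨1, one_mem _, by simp⟩
    | add y z hy' hz' h1 h2 =>
      obtain ⟨h1, hh1, e1⟩ := h1
      obtain ⟨h2, hh2, e2⟩ := h2
      have hyz : y * z ∈ D a (k + 1) := D_anti a (by omega) (D_mul a (i := k) (j := k) hy' hz')
      obtain ⟨h', hh', e'⟩ := corr (h1 * h2) (mul_mem hh1 hh2) _ hyz
      refine ⟨h', hh', ?_⟩
      rw [e']; push_cast; rw [e1, e2]; noncomm_ring
    | neg y hy' h1 =>
      obtain ⟨h1, hh1, e1⟩ := h1
      have hyy : y * y ∈ D a (k + 1) := D_anti a (by omega) (D_mul a (i := k) (j := k) hy' hy')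
      obtain ⟨h2, hh2, e2⟩ := ih' (-(y * y)) (neg_mem hyy)
      refine ⟨h1⁻¹ * h2, mul_mem (inv_mem hh1) hh2, ?_⟩
      push_cast
      have e3 : (1 : U) + -(y * y) = (h1 : U) * (1 + -y) := by rw [e1]; noncomm_ring
      rw [e2, e3, ← mul_assoc, Units.inv_mul, one_mul]

end abs

end Pool.Agent.H26.WordAlg
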