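import Mathlib
import Pool.Agent.H26.WordAlg

set_option autoImplicit false
set_option linter.style.haveILetI false

namespace Pool.Agent.H26.RN

open Pool.Agent.H26.WordAlg

/-- hom out of a finite cyclic group -/
def zhom (n : ℕ) [NeZero n] {H : Type} [Group H] (u : H) (hu : u ^ n = 1) :
    Multiplicative (ZMod n) →* H where
  toFun z := u ^ (Multiplicative.toAdd z).val
  map_one' := by simp
  map_mul' := by
    intro a b
    rw [toAdd_mul, ZMod.val_add, ← pow_add, ← pow_eq_pow_mod _ hu]

theorem zhom_apply (n : ℕ) [NeZero n] {H : Type} [Group H] (u : H) (hu : u ^ n = 1)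
    (z : Multiplicative (ZMod n)) : zhom n u hu z = u ^ (Multiplicative.toAdd z).val := rfl

/-- The cyclic groups -/
abbrev C (i : ℕ) : Type := Multiplicative (ZMod (2 ^ (i + 1)))

instance (i : ℕ) : NeZero (2 ^ (i + 1)) := ⟨by positivity⟩

abbrev G : Type := Monoid.CoprodI C

abbrev Mat (N : ℕ) := Matrix (Fin (N + 1)) (Fin (N + 1)) (ZMod 2)

/-- letters -/
def A (κ : List ℕ) (a : ℕ) : Mat κ.length :=
  fun i j => if (j : ℕ) = i + 1 ∧ κ[(i : ℕ)]? = some a then 1 else 0

theorem A_mul (κ : List ℕ) (a : ℕ) (M : Mat κ.length) (i j : Fin (κ.length + 1)) :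
    (A κ a * M) i j = if h : (i : ℕ) + 1 < κ.length + 1 ∧ κ[(i : ℕ)]? = some a then
      M ⟨(i : ℕ) + 1, h.1⟩ j else 0 := by
  rw [Matrix.mul_apply]
  split_ifs with h
  · rw [Finset.sum_eq_single ⟨(i : ℕ) + 1, h.1⟩]
    · simp [A, h.2]
    · intro b _ hb
      have : ¬ ((b : ℕ) = i + 1) := fun h => hb (Fin.ext h)
      simp [A, this]
    · intro h; exact absurd (Finset.mem_univ _) h
  · apply Finset.sum_eq_zero
    intro b _
    have : ¬ ((b : ℕ) = i + 1 ∧ κ[(i : ℕ)]? = some a) := by
      rintro ⟨h1, h2⟩
      apply h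
      have := b.2
      exact ⟨by omega, h2⟩
    simp [A, this]

theorem W_long (κ : List ℕ) (l : List ℕ) : ∀ i j : Fin (κ.length + 1),
    (j : ℕ) < i + l.length → W (A κ) l i j = 0 := by
  induction l with
  | nil =>
    intro i j h
    simp only [W, List.map_nil, List.prod_nil]
    rw [Matrix.one_apply, if_neg]
    rintro rfl
    simp at h
  | cons a l ih =>
    intro i j h
    have hW : W (A κ) (a :: l) = A κ a * W (A κ) l := by simp [W]
    rw [hW, A_mul]
    split_ifs with h1
    · apply ih
      simp only [List.length_cons] at h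
      simp only
      omega
    · rfl

theorem hN (κ : List ℕ) (l : List ℕ) (h : κ.length < l.length) : W (A κ) l = 0 := by
  ext i j
  rw [W_long]
  · rfl
  · have := j.2
    omega

/-- entries of powers of `1 + A` -/
theorem pow_entry (κ : List ℕ) (a e : ℕ) : ∀ i j : Fin (κ.length + 1),
    ((1 + A κ a) ^ e) i j =
      if (i : ℕ) ≤ j ∧ (∀ k, (i : ℕ) ≤ k → k < j → κ[k]? = some a) then
        ((e.choose ((j : ℕ) - i) : ℕ) : ZMod 2) else 0 := by
  induction e with
  | zero =>
    intro i j
    rw [pow_zero, Matrix.one_apply]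
    by_cases h : i = j
    · subst h
      rw [if_pos rfl, if_pos]
      · simp
      · exact ⟨le_rfl, fun k h1 h2 => absurd h2 (by omega)⟩
    · rw [if_neg h]
      split_ifs with h1
      · have : (i : ℕ) ≠ j := fun h' => h (Fin.ext h')
        rw [Nat.choose_eq_zero_of_lt (by omega)]
        simp
      · rfl
  | succ e ih =>
    intro i j
    rw [pow_succ', add_mul, one_mul, Matrix.add_apply, A_mul, ih]
    rcases lt_trichotomy (i : ℕ) j with hij | hij | hij
    · by_cases hall : ∀ k, (i : ℕ) ≤ k → k < j → κ[k]? = some a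
      · have hi := j.2
        rw [if_pos ⟨hij.le, hall⟩, dif_pos ⟨by omega, hall i le_rfl hij⟩, ih,
          if_pos ⟨by simp only; omega, fun k h1 h2 => hall k (by simp only at h1; omega) h2⟩,
          if_pos ⟨hij.le, hall⟩]
        simp only
        have e1 : (j : ℕ) - i = ((j : ℕ) - (i + 1)) + 1 := by omega
        rw [e1, Nat.choose_succ_succ]
        push_cast
        ring
      · rw [if_neg (fun h => hall h.2), if_neg (fun h => hall h.2), zero_add]
        split_ifs with h1
        · rw [ih, if_neg]
          rintro ⟨h2, h3⟩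
          apply hall
          intro k hk1 hk2
          rcases Nat.eq_or_lt_of_le hk1 with h4 | h4
          · rw [← h4]; exact h1.2
          · exact h3 k (by simp only; omega) hk2
        · rfl
    · have hall : ∀ k, (i : ℕ) ≤ k → k < j → κ[k]? = some a := fun k h1 h2 => absurd h2 (by omega)
      rw [if_pos ⟨hij.le, hall⟩, if_pos ⟨hij.le, hall⟩]
      have e0 : (j : ℕ) - i = 0 := by omega
      rw [e0]
      simp only [Nat.choose_zero_right, Nat.cast_one, add_eq_left]
      split_ifs with h1
      · rw [ih, if_neg]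
        rintro ⟨h2, -⟩
        simp only at h2
        omega
      · rfl
    · rw [if_neg (by omega), if_neg (by omega), zero_add]
      split_ifs with h1
      · rw [ih, if_neg]
        rintro ⟨h2, -⟩
        simp only at h2
        omega
      · rfl

/-- expansion -/
def ex (L : List (ℕ × ℕ)) : List ℕ := L.flatMap (fun x => List.replicate x.2 x.1)

theorem ex_cons (x : ℕ × ℕ) (L : List (ℕ × ℕ)) : ex (x :: L) = List.replicate x.2 x.1 ++ ex L := by
  simp [ex]

/-- run length bound -/
theorem run (L : List (ℕ × ℕ)) (h1 : ∀ x ∈ L, 1 ≤ x.2 ∧ x.2 < 2 ^ (x.1 + 1))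
    (h2 : L.IsChain (fun x y => x.1 ≠ y.1)) : ∀ p m i : ℕ,
    (∀ k, k < m → (ex L)[p + k]? = some i) → m < 2 ^ (i + 1) := by
  induction L with
  | nil =>
    intro p m i h
    rcases Nat.eq_zero_or_pos m with h0 | h0
    · rw [h0]; positivity
    · have := h 0 h0
      simp [ex] at this
  | cons x L ih =>
    intro p m i h
    rcases Nat.eq_zero_or_pos m with h0 | h0
    · rw [h0]; positivity
    have hget : ∀ q, (ex (x :: L))[q]? = if q < x.2 then some x.1 else (ex L)[q - x.2]? := by
      intro q
      rw [ex_cons, List.getElem?_append, List.length_replicate]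
      split_ifs with h
      · rw [List.getElem?_replicate, if_pos h]
      · rfl
    by_cases hp : p < x.2
    · have e0 := h 0 h0
      rw [add_zero, hget, if_pos hp] at e0
      have e1 : x.1 = i := by simpa using e0
      by_cases hpm : p + m ≤ x.2
      · have := (h1 x (by simp)).2
        rw [← e1]; omega
      · exfalso
        have e2 := h (x.2 - p) (by omega)
        rw [hget] at e2
        rw [if_neg (by omega)] at e2
        have e3 : p + (x.2 - p) - x.2 = 0 := by omega
        rw [e3] at e2
        cases L with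
        | nil => simp [ex] at e2
        | cons y L =>
          have hy := (h1 y (by simp)).1
          rw [ex_cons, List.getElem?_append, List.length_replicate, if_pos (by omega),
            List.getElem?_replicate, if_pos (by omega)] at e2
          have e4 : y.1 = i := by simpa using e2
          rw [List.isChain_cons_cons] at h2
          exact h2.1 (e1.trans e4.symm)
    · apply ih (fun y hy => h1 y (by simp [hy])) h2.tail (p - x.2) m i
      intro k hk
      have := h k hk
      rw [hget, if_neg (by omega)] at this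
      rw [← this]
      congr 1
      omega

/-- word product -/
def wp (κ : List ℕ) (L : List (ℕ × ℕ)) : Mat κ.length := (L.map (fun x => (1 + A κ x.1) ^ x.2)).prod

theorem wp_cons (κ : List ℕ) (x : ℕ × ℕ) (L : List (ℕ × ℕ)) :
    wp κ (x :: L) = (1 + A κ x.1) ^ x.2 * wp κ L := by simp [wp]

theorem wp_far (κ : List ℕ) (L : List (ℕ × ℕ)) : ∀ i j : Fin (κ.length + 1),
    (i : ℕ) + (ex L).length < j → wp κ L i j = 0 := by
  induction L with
  | nil =>
    intro i j h
    simp only [wp, List.map_nil, List.prod_nil]
    rw [Matrix.one_apply, if_neg]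
    rintro rfl
    simp [ex] at h
  | cons x L ih =>
    intro i j h
    rw [wp_cons, Matrix.mul_apply]
    apply Finset.sum_eq_zero
    intro b _
    rw [ex_cons, List.length_append, List.length_replicate] at h
    by_cases hb : (i : ℕ) + x.2 < b
    · rw [pow_entry]
      split_ifs with h1
      · rw [Nat.choose_eq_zero_of_lt (by omega)]; simp
      · simp
    · rw [ih b j (by omega), mul_zero]

theorem wp_near (κ : List ℕ) (L : List (ℕ × ℕ)) : ∀ i j : Fin (κ.length + 1),
    (i : ℕ) + (ex L).length = j → (∀ k, k < (ex L).length → κ[(i : ℕ) + k]? = (ex L)[k]?) →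
    wp κ L i j = 1 := by
  induction L with
  | nil =>
    intro i j h _
    simp only [wp, List.map_nil, List.prod_nil]
    have : i = j := Fin.ext (by simpa [ex] using h)
    rw [this, Matrix.one_apply_eq]
  | cons x L ih =>
    intro i j h hc
    rw [wp_cons, Matrix.mul_apply]
    rw [ex_cons, List.length_append, List.length_replicate] at h hc
    have hj := j.2
    have hb : (i : ℕ) + x.2 < κ.length + 1 := by omega
    rw [Finset.sum_eq_single ⟨(i : ℕ) + x.2, hb⟩]
    · rw [ih ⟨(i : ℕ) + x.2, hb⟩ j (by simp only; omega), mul_one, pow_entry, if_pos]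
      · simp
      · refine ⟨by simp, ?_⟩
        intro k hk1 hk2
        simp only at hk2
        have := hc (k - i) (by omega)
        rw [List.getElem?_append, List.length_replicate, if_pos (by omega),
            List.getElem?_replicate, if_pos (by omega)] at this
        rw [← this]
        congr 1
        omega
      · intro k hk
        have := hc (x.2 + k) (by omega)
        rw [List.getElem?_append, List.length_replicate, if_neg (by omega)] at this
        simp only
        rw [add_assoc, this]
        congr 1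
        omega
    · intro b _ hb'
      have hb'' : (b : ℕ) ≠ i + x.2 := fun h => hb' (Fin.ext h)
      by_cases h3 : (i : ℕ) + x.2 < b
      · rw [pow_entry]
        split_ifs with h1
        · rw [Nat.choose_eq_zero_of_lt (by omega)]; simp
        · simp
      · rw [wp_far κ L b j (by omega), mul_zero]
    · intro h; exact absurd (Finset.mem_univ _) h

/-- the order relation -/
theorem ord (κ : List ℕ) (a : ℕ)
    (hrun : ∀ p m, (∀ k, k < m → κ[p + k]? = some a) → m < 2 ^ (a + 1)) :
    (1 + A κ a) ^ (2 ^ (a + 1)) = 1 := by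
  ext i j
  rw [pow_entry, Matrix.one_apply]
  by_cases hij : i = j
  · subst hij
    rw [if_pos rfl, if_pos]
    · simp
    · exact ⟨le_rfl, fun k h1 h2 => absurd h2 (by omega)⟩
  · rw [if_neg hij]
    split_ifs with h
    · have h1 : (i : ℕ) ≠ j := fun h' => hij (Fin.ext h')
      have h2 := hrun i ((j : ℕ) - i) (fun k hk => h.2 _ (by omega) (by omega))
      have h3 : 2 ∣ (2 ^ (a + 1)).choose ((j : ℕ) - i) :=
        Nat.Prime.dvd_choose_pow Nat.prime_two (by omega) (by omega)
      exact (ZMod.natCast_eq_zero_iff _ _).mpr h3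
    · rfl

theorem nilA (κ : List ℕ) (a : ℕ) : (A κ a) ^ (κ.length + 1) = 0 := by
  have : A κ a ∈ D (A κ) 1 := by
    have : W (A κ) [a] = A κ a := by simp [W]
    rw [← this]
    exact W_mem _ _ _ (by simp)
  exact D_zero (A κ) κ.length (hN κ) (pow_mem_D (A κ) this κ.length)

theorem unit_ex (κ : List ℕ) (a : ℕ) : ∃ u : (Mat κ.length)ˣ, (u : Mat κ.length) = 1 + A κ a := by
  have hnil : IsNilpotent (A κ a) := ⟨_, nilA κ a⟩
  exact hnil.isUnit_one_add

theorem isP (κ : List ℕ) (g : ℕ → (Mat κ.length)ˣ) (hg : ∀ i, (g i : Mat κ.length) = 1 + A κ i) :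
    Group.IsNilpotent (Subgroup.closure (Set.range g)) := by
  have hp : IsPGroup 2 (Subgroup.closure (Set.range g)) := by
    intro h
    obtain ⟨m, hm⟩ : ∃ m : ℕ, κ.length + 1 ≤ 2 ^ m := ⟨κ.length + 1, (Nat.lt_two_pow_self).le⟩
    refine ⟨m, ?_⟩
    have h1 := H_one (A κ) κ.length (hN κ) g hg h.1 h.2
    have h2 : ((h : (Mat κ.length)ˣ) : Mat κ.length) ^ (2 ^ m) = 1 := by
      have e : ((h : (Mat κ.length)ˣ) : Mat κ.length) = 1 + (((h : (Mat κ.length)ˣ) : Mat κ.length) - 1) := by
        abel
      rw [e]
      have hc : Commute (1 : Mat κ.length) (((h : (Mat κ.length)ˣ) : Mat κ.length) - 1) :=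
        Commute.one_left _
      rw [add_pow_char_pow_of_commute (p := 2) m hc, one_pow]
      have h3 := pow_mem_D (A κ) h1 κ.length
      have h4 := D_zero (A κ) κ.length (hN κ) h3
      have h5 : (((h : (Mat κ.length)ˣ) : Mat κ.length) - 1) ^ (2 ^ m) = 0 := by
        have : 2 ^ m = (κ.length + 1) + (2 ^ m - (κ.length + 1)) := by omega
        rw [this, pow_add, h4, zero_mul]
      rw [h5, add_zero]
    apply Subtype.ext
    apply Units.ext
    simpa using h2
  exact hp.isNilpotent

theorem partA (g : G) (hg : g ≠ 1) :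
    ∃ (H : Type) (_ : Group H) (φ : G →* H), Group.IsNilpotent H ∧ φ g ≠ 1 := by
  classical
  set w : Monoid.CoprodI.Word C := Monoid.CoprodI.Word.equiv g with hw
  have hwg : w.prod = g := Monoid.CoprodI.Word.equiv.symm_apply_apply g
  set L : List (ℕ × ℕ) := w.toList.map (fun l => (l.1, (Multiplicative.toAdd l.2).val)) with hL
  have hL1 : ∀ x ∈ L, 1 ≤ x.2 ∧ x.2 < 2 ^ (x.1 + 1) := by
    intro x hx
    rw [hL, List.mem_map] at hx
    obtain ⟨l, hl, rfl⟩ := hx
    have h1 := w.ne_one l hl
    refine ⟨?_, ZMod.val_lt _⟩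
    by_contra h
    have h2 : (Multiplicative.toAdd l.2).val = 0 := by omega
    rw [ZMod.val_eq_zero] at h2
    exact h1 h2
  have hL2 : L.IsChain (fun x y => x.1 ≠ y.1) := by
    rw [hL, List.isChain_map]
    exact w.chain_ne
  set κ := ex L with hc
  have hrun := run L hL1 hL2
  choose u hu using unit_ex κ
  set H := Subgroup.closure (Set.range u) with hH
  have hmem : ∀ i, u i ∈ H := fun i => Subgroup.subset_closure ⟨i, rfl⟩
  have hord : ∀ i, (⟨u i, hmem i⟩ : H) ^ (2 ^ (i + 1)) = 1 := by
    intro i
    apply Subtype.ext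
    apply Units.ext
    simp only [SubmonoidClass.mk_pow, Units.val_pow_eq_pow_val, OneMemClass.coe_one, Units.val_one]
    rw [hu]
    exact ord κ i (fun p m h => hrun p m i h)
  refine ⟨H, inferInstance, Monoid.CoprodI.lift (fun i => zhom (2 ^ (i + 1)) (⟨u i, hmem i⟩ : H) (hord i)),
    isP κ u hu, ?_⟩
  intro hone
  have hLne : L ≠ [] := by
    intro h
    apply hg
    have h1 : w.toList = [] := by
      rw [hL] at h
      simpa using h
    rw [← hwg, Monoid.CoprodI.Word.prod, h1]
    simp
  have hval : ((Monoid.CoprodI.lift (fun i => zhom (2 ^ (i + 1)) (⟨u i, hmem i⟩ : H) (hord i)) g : H) :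
      (Mat κ.length)ˣ).1 = wp κ L := by
    rw [← hwg, Monoid.CoprodI.Word.prod, map_list_prod, hL, wp, List.map_map, List.map_map]
    rw [← Subgroup.coe_subtype, map_list_prod, List.map_map]
    rw [← Units.coeHom_apply, map_list_prod, List.map_map]
    congr 1
    apply List.map_congr_left
    intro l _
    simp only [Function.comp_apply, Monoid.CoprodI.lift_of, zhom_apply, Subgroup.coe_subtype,
      SubmonoidClass.mk_pow, Units.coeHom_apply, Units.val_pow_eq_pow_val, hu]
  rw [hone] at hval
  have hpos : 0 < κ.length := by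
    obtain ⟨x, L', hxL⟩ := List.exists_cons_of_ne_nil hLne
    rw [hc, hxL, ex_cons, List.length_append, List.length_replicate]
    have := (hL1 x (by rw [hxL]; simp)).1
    omega
  have h1 := wp_near κ L 0 (Fin.last _) (by simp [← hc]) (by simp [← hc])
  rw [← hval] at h1
  have h2 : ((((1 : H) : (Mat κ.length)ˣ)) : Mat κ.length) = 1 := rfl
  rw [h2, Matrix.one_apply, if_neg] at h1
  · exact zero_ne_one h1
  · intro h
    have := congrArg Fin.val h
    simp at this
    omega

end Pool.Agent.H26.RN
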