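import Mathlib
import Pool.Agent.H26.RNA

set_option autoImplicit false
set_option linter.style.haveILetI false

namespace Pool.Agent.H26.RN

abbrev DD : Type := AddCircle (1 : ℚ)

theorem DD_div (n : ℕ) (hn : n ≠ 0) (x : DD) : ∃ y : DD, n • y = x := by
  obtain ⟨q, rfl⟩ := QuotientAddGroup.mk_surjective x
  refine ⟨((q / n : ℚ) : DD), ?_⟩
  rw [← AddCircle.coe_nsmul]
  congr 1
  rw [nsmul_eq_mul]
  field_simp

theorem partB (E : Type) [hE : Group E] (f : E →* G) (hs : Function.Surjective f)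
    (hc : f.ker ≤ Subgroup.center E) (g : E) (hg : g ≠ 1) (hfg : f g = 1) :
    ∃ (H : Type) (_ : Group H) (φ : E →* H), Group.IsNilpotent H ∧ φ g ≠ 1 := by
  classical
  letI cA : CommGroup f.ker :=
    { (inferInstance : Group f.ker) with
      mul_comm := fun a b => Subtype.ext (by
        have := Subgroup.mem_center_iff.mp (hc a.2) b.1
        exact this.symm) }
  have hga : (Additive.ofMul (⟨g, hfg⟩ : f.ker)) ≠ 0 := by
    intro h
    apply hg
    have h1 : (⟨g, hfg⟩ : f.ker) = 1 := h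
    exact congrArg Subtype.val h1
  obtain ⟨lam, hlam⟩ := CharacterModule.exists_character_apply_ne_zero_of_ne_zero hga
  let ch : f.ker →* Multiplicative DD := AddMonoidHom.toMultiplicativeRight lam
  have hch : ch ⟨g, hfg⟩ ≠ 1 := by
    intro h
    apply hlam
    exact h
  -- the subgroup K
  let K : Subgroup (E × Multiplicative DD) :=
    { carrier := {x | ∃ h : x.1 ∈ f.ker, ch ⟨x.1, h⟩ = x.2}
      one_mem' := ⟨one_mem _, ch.map_one⟩
      mul_mem' := by
        rintro x y ⟨hx, hx'⟩ ⟨hy, hy'⟩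
        refine ⟨mul_mem hx hy, ?_⟩
        rw [Prod.snd_mul, ← hx', ← hy', ← map_mul]
        rfl
      inv_mem' := by
        rintro x ⟨hx, hx'⟩
        refine ⟨inv_mem hx, ?_⟩
        rw [Prod.snd_inv, ← hx', ← map_inv]
        rfl }
  have hKc : ∀ x ∈ K, ∀ y, y * x = x * y := by
    rintro x ⟨hx, -⟩ y
    apply Prod.ext
    · exact Subgroup.mem_center_iff.mp (hc hx) y.1
    · exact mul_comm _ _
  haveI hKn : K.Normal := ⟨fun x hx y => by rw [hKc x hx y, mul_assoc, mul_inv_cancel, mul_one]; exact hx⟩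
  let Q := (E × Multiplicative DD) ⧸ K
  let f' : Q →* G := QuotientGroup.lift K (f.comp (MonoidHom.fst _ _)) (by
    rintro x ⟨hx, -⟩
    exact hx)
  -- section
  have hθex : ∀ i : ℕ, ∃ x : E × Multiplicative DD,
      f x.1 = Monoid.CoprodI.of (M := C) (i := i) (Multiplicative.ofAdd (1 : ZMod (2 ^ (i + 1)))) ∧
      (QuotientGroup.mk x : Q) ^ (2 ^ (i + 1)) = 1 := by
    intro i
    obtain ⟨u, hu⟩ := hs (Monoid.CoprodI.of (M := C) (i := i) (Multiplicative.ofAdd (1 : ZMod (2 ^ (i + 1)))))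
    have h1 : u ^ (2 ^ (i + 1)) ∈ f.ker := by
      rw [MonoidHom.mem_ker, map_pow, hu, ← map_pow, ← ofAdd_nsmul]
      have : (2 ^ (i + 1)) • (1 : ZMod (2 ^ (i + 1))) = 0 := by
        rw [nsmul_eq_mul, mul_one]
        exact ZMod.natCast_self _
      rw [this]; simp
    obtain ⟨d, hd⟩ := DD_div (2 ^ (i + 1)) (by positivity) (Multiplicative.toAdd (ch ⟨_, h1⟩))
    refine ⟨(u, Multiplicative.ofAdd d), hu, ?_⟩
    rw [← QuotientGroup.mk_pow, QuotientGroup.eq_one_iff]
    refine ⟨h1, ?_⟩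
    show ch ⟨u ^ (2 ^ (i + 1)), h1⟩ = (Multiplicative.ofAdd d) ^ (2 ^ (i + 1))
    rw [← ofAdd_nsmul, hd]
    rfl
  choose X hX1 hX2 using hθex
  let θ : G →* Q := Monoid.CoprodI.lift (fun i => zhom (2 ^ (i + 1)) (QuotientGroup.mk (X i) : Q) (hX2 i))
  have hθ : ∀ x : G, f' (θ x) = x := by
    have : f'.comp θ = MonoidHom.id G := by
      apply Monoid.CoprodI.ext_hom
      intro i
      apply MonoidHom.ext
      intro z
      simp only [MonoidHom.comp_apply, MonoidHom.id_apply]
      have h1 : θ (Monoid.CoprodI.of z) = (QuotientGroup.mk (X i) : Q) ^ (Multiplicative.toAdd z).val := by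
        show Monoid.CoprodI.lift _ (Monoid.CoprodI.of z) = _
        rw [Monoid.CoprodI.lift_of]
        rfl
      rw [h1, map_pow]
      have h2 : f' (QuotientGroup.mk (X i) : Q) = f (X i).1 := rfl
      rw [h2, hX1, ← map_pow, ← ofAdd_nsmul]
      congr 1
      rw [nsmul_eq_mul, mul_one, ZMod.natCast_zmod_val]
      rfl
    intro x
    exact DFunLike.congr_fun this x
  have hker : ∀ x ∈ f'.ker, ∀ y : Q, y * x = x * y := by
    intro x hx y
    obtain ⟨x, rfl⟩ := QuotientGroup.mk_surjective x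
    obtain ⟨y, rfl⟩ := QuotientGroup.mk_surjective y
    have h1 : x.1 ∈ f.ker := hx
    rw [← QuotientGroup.mk_mul, ← QuotientGroup.mk_mul]
    congr 1
    apply Prod.ext
    · exact Subgroup.mem_center_iff.mp (hc h1) y.1
    · exact mul_comm _ _
  let ι : E →* Q := (QuotientGroup.mk' K).comp (MonoidHom.inl _ _)
  have hι : ∀ e, f' (ι e) = f e := fun e => rfl
  have hmem : ∀ e : E, ι e * (θ (f e))⁻¹ ∈ f'.ker := by
    intro e
    rw [MonoidHom.mem_ker, map_mul, map_inv, hθ, hι, mul_inv_cancel]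
  let φ : E →* f'.ker :=
    { toFun := fun e => ⟨ι e * (θ (f e))⁻¹, hmem e⟩
      map_one' := by apply Subtype.ext; simp
      map_mul' := by
        intro a b
        apply Subtype.ext
        show ι (a * b) * (θ (f (a * b)))⁻¹ = (ι a * (θ (f a))⁻¹) * (ι b * (θ (f b))⁻¹)
        have h1 := hker _ (hmem b) (θ (f a))⁻¹
        rw [mul_assoc (ι a), h1, map_mul, map_mul, map_mul, mul_inv_rev]
        group }
  refine ⟨f'.ker, inferInstance, φ, ?_, ?_⟩
  · have : (1 : f'.ker →* f'.ker).ker ≤ Subgroup.center f'.ker := by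
      intro x _
      rw [Subgroup.mem_center_iff]
      intro y
      exact Subtype.ext (hker x.1 x.2 y.1)
    have hcen : ∀ x y : f'.ker, x * y = y * x := fun x y => Subtype.ext (hker y.1 y.2 x.1)
    letI : CommGroup f'.ker := { (inferInstance : Group f'.ker) with mul_comm := hcen }
    exact CommGroup.isNilpotent
  · intro h
    have h1 : ι g * (θ (f g))⁻¹ = 1 := congrArg Subtype.val h
    rw [hfg, map_one, inv_one, mul_one] at h1
    have h2 : ((g, 1) : E × Multiplicative DD) ∈ K := (QuotientGroup.eq_one_iff _).mp h1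
    obtain ⟨h3, h4⟩ := h2
    exact hch h4

end Pool.Agent.H26.RN
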