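import Mathlib
import Pool.Agent.H26.RNB

set_option autoImplicit false
set_option linter.style.haveILetI false

namespace Pool.Agent.H26.RN

/-- in a nilpotent group a high 2-power commutes with all involutions -/
theorem nil_comm (H : Type) [Group H] [Group.IsNilpotent H] :
    ∃ K : ℕ, ∀ x y : H, y ^ 2 = 1 → Commute (x ^ (2 ^ K)) y := by
  apply @Group.nilpotent_center_quotient_ind
    (fun (H : Type) [Group H] [Group.IsNilpotent H] =>
      ∃ K : ℕ, ∀ x y : H, y ^ 2 = 1 → Commute (x ^ (2 ^ K)) y) H _ _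
  · intro H _ _
    exact ⟨0, fun x y _ => Subsingleton.elim _ _⟩
  · intro H _ _ ⟨K, hK⟩
    refine ⟨K + 1, fun x y hy => ?_⟩
    have h1 := hK (QuotientGroup.mk x) (QuotientGroup.mk y) (by
      rw [← QuotientGroup.mk_pow, hy]; rfl)
    set u := x ^ (2 ^ K) with hu
    have h2 : (QuotientGroup.mk (u * y) : H ⧸ Subgroup.center H) = QuotientGroup.mk (y * u) := by
      rw [QuotientGroup.mk_mul, QuotientGroup.mk_mul, hu, QuotientGroup.mk_pow]
      exact h1
    have h3 : (y * u)⁻¹ * (u * y) ∈ Subgroup.center H := by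
      rw [← QuotientGroup.eq]; exact h2.symm
    set z := (y * u)⁻¹ * (u * y) with hz
    have hzc : ∀ t : H, t * z = z * t := fun t => Subgroup.mem_center_iff.mp h3 t
    have h4 : u * y = y * u * z := by rw [hz]; group
    have hyy : y * y = 1 := by rw [← pow_two]; exact hy
    have hzz : z * z = 1 := by
      have h5 : u * (y * y) = (y * y) * u * (z * z) := by
        calc u * (y * y) = (u * y) * y := by group
          _ = y * (u * (z * y)) := by rw [h4]; group
          _ = y * (u * (y * z)) := by rw [hzc y]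
          _ = y * (u * y) * z := by group
          _ = (y * y) * u * (z * z) := by rw [h4]; group
      rw [hyy, mul_one, one_mul] at h5
      exact mul_left_cancel (a := u) (by rw [mul_one]; exact h5.symm)
    have h6 : (u * u) * y = y * (u * u) := by
      calc (u * u) * y = u * (u * y) := by group
        _ = (u * y) * (u * z) := by
          rw [show u * (u * y) = u * (y * u * z) by rw [h4]]; group
        _ = y * u * (z * u) * z := by rw [h4]; group
        _ = y * u * (u * z) * z := by rw [hzc u]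
        _ = y * (u * u) * (z * z) := by group
        _ = y * (u * u) := by rw [hzz, mul_one]
    have h7 : x ^ (2 ^ (K + 1)) = u * u := by
      rw [hu, ← pow_add]; congr 1; ring
    rw [h7]
    exact h6

/-- the twisted groups -/
@[ext] structure TT {P D : Type} [AddCommGroup P] [AddCommGroup D] (θ : P →+ D) : Type where
  q : P
  c : D
  e : Bool

section TT
variable {P D : Type} [AddCommGroup P] [AddCommGroup D] (θ : P →+ D)

instance : Mul (TT θ) := ⟨fun x y => ⟨x.q + y.q, x.c + (if x.e then - y.c + θ y.q else y.c), xor x.e y.e⟩⟩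
instance : One (TT θ) := ⟨⟨0, 0, false⟩⟩
instance : Inv (TT θ) := ⟨fun x => ⟨-x.q, if x.e then x.c - θ x.q else -x.c, x.e⟩⟩

theorem mul_def (x y : TT θ) : x * y = ⟨x.q + y.q, x.c + (if x.e then - y.c + θ y.q else y.c), xor x.e y.e⟩ := rfl
theorem one_def : (1 : TT θ) = ⟨0, 0, false⟩ := rfl
theorem inv_def (x : TT θ) : x⁻¹ = ⟨-x.q, if x.e then x.c - θ x.q else -x.c, x.e⟩ := rfl

instance : Group (TT θ) := Group.ofLeftAxioms
  (by
    rintro ⟨q1, c1, e1⟩ ⟨q2, c2, e2⟩ ⟨q3, c3, e3⟩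
    simp only [mul_def]
    ext
    · simp only; abel
    · cases e1 <;> cases e2 <;> simp <;> abel
    · simp)
  (by
    rintro ⟨q1, c1, e1⟩
    simp only [mul_def, one_def]
    ext <;> simp)
  (by
    rintro ⟨q1, c1, e1⟩
    simp only [mul_def, one_def, inv_def]
    ext
    · simp
    · cases e1 <;> simp
    · simp)

end TT

section map
variable {P D P' D' : Type} [AddCommGroup P] [AddCommGroup D] [AddCommGroup P'] [AddCommGroup D']
  {θ : P →+ D} {θ' : P' →+ D'}

/-- maps between twisted groups -/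
def tmap (α : P →+ P') (β : D →+ D') (h : ∀ q, β (θ q) = θ' (α q)) : TT θ →* TT θ' where
  toFun x := ⟨α x.q, β x.c, x.e⟩
  map_one' := by simp [one_def]
  map_mul' := by
    rintro ⟨q1, c1, e1⟩ ⟨q2, c2, e2⟩
    simp only [mul_def]
    ext
    · simp
    · cases e1 <;> simp [h]
    · simp

theorem tmap_apply (α : P →+ P') (β : D →+ D') (h : ∀ q, β (θ q) = θ' (α q)) (x : TT θ) :
    tmap α β h x = ⟨α x.q, β x.c, x.e⟩ := rfl

theorem tmap_surj (α : P →+ P') (β : D →+ D') (h : ∀ q, β (θ q) = θ' (α q))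
    (hα : Function.Surjective α) (hβ : Function.Surjective β) : Function.Surjective (tmap α β h) := by
  rintro ⟨q, c, e⟩
  obtain ⟨q', rfl⟩ := hα q
  obtain ⟨c', rfl⟩ := hβ c
  exact ⟨⟨q', c', e⟩, rfl⟩

theorem tmap_ker (α : P →+ P') (β : D →+ D') (h : ∀ q, β (θ q) = θ' (α q))
    (hc : ∀ q c, α q = 0 → β c = 0 → -c + θ q = c) (x : TT θ) (hx : tmap α β h x = 1) (y : TT θ) :
    y * x = x * y := by
  obtain ⟨q1, c1, e1⟩ := x
  obtain ⟨q2, c2, e2⟩ := y
  rw [tmap_apply, one_def] at hx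
  simp only [TT.mk.injEq] at hx
  obtain ⟨h1, h2, h3⟩ := hx
  subst h3
  have h4 := hc q1 c1 h1 h2
  simp only [mul_def]
  ext
  · simp only; abel
  · cases e2 <;> simp [h4, add_comm]
  · simp

end map

/-- θ for T -/
noncomputable def θ2 : ℚ →+ DD := (QuotientAddGroup.mk' _).comp (AddMonoidHom.mulRight (1 / 2 : ℚ))
/-- θ for T₁ -/
noncomputable def θ1 : ℚ →+ DD := QuotientAddGroup.mk' _

theorem θ2_apply (q : ℚ) : θ2 q = ((q * (1 / 2) : ℚ) : DD) := rfl
theorem θ1_apply (q : ℚ) : θ1 q = ((q : ℚ) : DD) := rfl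

/-- doubling -/
noncomputable def dbl : DD →+ DD := zsmulAddGroupHom 2

theorem dbl_apply (x : DD) : dbl x = x + x := two_zsmul x

/-- T → T₁ -/
noncomputable def p1 : TT θ2 →* TT θ1 := tmap (AddMonoidHom.id ℚ) dbl (by
  intro q
  rw [dbl_apply, θ2_apply, AddMonoidHom.id_apply, θ1_apply, ← AddCircle.coe_add]
  congr 1
  ring)

/-- T₁ → T₀ -/
noncomputable def p0 : TT θ1 →* TT (AddMonoidHom.id DD) := tmap θ1 (AddMonoidHom.id DD) (by
  intro q; rfl)

theorem p1_surj : Function.Surjective p1 := by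
  apply tmap_surj
  · exact fun x => ⟨x, rfl⟩
  · intro x
    obtain ⟨y, hy⟩ := DD_div 2 (by norm_num) x
    exact ⟨y, by rw [dbl_apply, ← hy, two_nsmul]⟩

theorem p0_surj : Function.Surjective p0 := by
  apply tmap_surj
  · exact QuotientAddGroup.mk_surjective
  · exact fun x => ⟨x, rfl⟩

theorem p1_ker (x : TT θ2) (hx : p1 x = 1) (y : TT θ2) : y * x = x * y := by
  refine tmap_ker _ _ _ ?_ x hx y
  intro q c h1 h2
  have h1' : q = 0 := h1
  rw [dbl_apply] at h2
  rw [h1', map_zero, add_zero]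
  exact neg_eq_of_add_eq_zero_left h2

theorem p0_ker (x : TT θ1) (hx : p0 x = 1) (y : TT θ1) : y * x = x * y := by
  refine tmap_ker _ _ _ ?_ x hx y
  intro q c h1 h2
  have h2' : c = 0 := h2
  rw [h2', h1]; simp

theorem pow_false {P D : Type} [AddCommGroup P] [AddCommGroup D] (θ : P →+ D) (q : P) (n : ℕ) :
    (⟨q, 0, false⟩ : TT θ) ^ n = ⟨n • q, 0, false⟩ := by
  induction n with
  | zero => simp [one_def]
  | succ n ih =>
    rw [pow_succ, ih, mul_def]
    simp [succ_nsmul]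

/-- generator images in T₀ -/
noncomputable def u0 (i : ℕ) : TT (AddMonoidHom.id DD) :=
  if i = 0 then ⟨0, 0, true⟩ else ⟨(((1 / 2 ^ (i + 1) : ℚ)) : DD), 0, false⟩

theorem u0_pow (i : ℕ) : u0 i ^ (2 ^ (i + 1)) = 1 := by
  unfold u0
  split_ifs with h
  · subst h
    simp [pow_two, mul_def, one_def]
  · rw [pow_false, one_def]
    congr 1
    rw [← AddCircle.coe_nsmul]
    have : (2 ^ (i + 1)) • (1 / 2 ^ (i + 1) : ℚ) = 1 := by
      rw [nsmul_eq_mul]; push_cast; field_simp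
    rw [this]
    exact AddCircle.coe_period 1

noncomputable def phi : G →* TT (AddMonoidHom.id DD) :=
  Monoid.CoprodI.lift (fun i => zhom (2 ^ (i + 1)) (u0 i) (u0_pow i))

/-- generators of G -/
def gx (i : ℕ) : G := Monoid.CoprodI.of (M := C) (i := i) (Multiplicative.ofAdd (1 : ZMod (2 ^ (i + 1))))

theorem phi_gx (i : ℕ) : phi (gx i) = u0 i := by
  show Monoid.CoprodI.lift _ (Monoid.CoprodI.of _) = _
  rw [Monoid.CoprodI.lift_of, zhom_apply, toAdd_ofAdd]
  have : (1 : ZMod (2 ^ (i + 1))).val = 1 := by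
    have h : 2 ^ (i + 1) = 2 ^ i * 2 := pow_succ 2 i
    have h2 : 0 < 2 ^ i := by positivity
    haveI : Fact (1 < 2 ^ (i + 1)) := ⟨by omega⟩
    exact ZMod.val_one _
  rw [this, pow_one]

theorem gx_pow (i : ℕ) : gx i ^ (2 ^ (i + 1)) = 1 := by
  unfold gx
  rw [← map_pow, ← ofAdd_nsmul]
  have : (2 ^ (i + 1)) • (1 : ZMod (2 ^ (i + 1))) = 0 := by
    rw [nsmul_eq_mul, mul_one]
    exact ZMod.natCast_self _
  rw [this]; simp

noncomputable def E1 : Subgroup (G × TT θ1) :=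
  MonoidHom.eqLocus (phi.comp (MonoidHom.fst _ _)) (p0.comp (MonoidHom.snd _ _))

noncomputable def E2 : Subgroup (G × TT θ2) :=
  MonoidHom.eqLocus (phi.comp (MonoidHom.fst _ _)) ((p0.comp p1).comp (MonoidHom.snd _ _))

theorem mem_E1 (x : G × TT θ1) : x ∈ E1 ↔ phi x.1 = p0 x.2 := Iff.rfl
theorem mem_E2 (x : G × TT θ2) : x ∈ E2 ↔ phi x.1 = p0 (p1 x.2) := Iff.rfl

noncomputable def f1 : E1 →* G := (MonoidHom.fst _ _).comp (Subgroup.subtype _)
noncomputable def f2 : E2 →* E1 :=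
  (((MonoidHom.id G).prodMap p1).comp (Subgroup.subtype _)).codRestrict E1 (by
    intro x
    exact x.2)

theorem f1_surj : Function.Surjective f1 := by
  intro g
  obtain ⟨t, ht⟩ := p0_surj (phi g)
  exact ⟨⟨(g, t), ht.symm⟩, rfl⟩

theorem f2_surj : Function.Surjective f2 := by
  rintro ⟨⟨g, t⟩, h⟩
  obtain ⟨t', ht'⟩ := p1_surj t
  refine ⟨⟨(g, t'), ?_⟩, ?_⟩
  · rw [mem_E2]; simp only; rw [ht']; exact h
  · apply Subtype.ext
    show (g, p1 t') = (g, t)
    rw [ht']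

theorem f1_ker : f1.ker ≤ Subgroup.center E1 := by
  rintro ⟨⟨g, t⟩, h⟩ hx
  have hg : g = 1 := hx
  rw [Subgroup.mem_center_iff]
  rintro ⟨⟨g', t'⟩, h'⟩
  apply Subtype.ext
  show (g' * g, t' * t) = (g * g', t * t')
  rw [mem_E1] at h
  simp only [hg, map_one] at h
  rw [hg, mul_one, one_mul, p0_ker t h.symm t']

theorem f2_ker : f2.ker ≤ Subgroup.center E2 := by
  rintro ⟨⟨g, t⟩, h⟩ hx
  have hx' : ((g, p1 t) : G × TT θ1) = (1, 1) := congrArg Subtype.val (MonoidHom.mem_ker.mp hx)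
  have hg : g = 1 := congrArg Prod.fst hx'
  have ht : p1 t = 1 := congrArg Prod.snd hx'
  rw [Subgroup.mem_center_iff]
  rintro ⟨⟨g', t'⟩, h'⟩
  apply Subtype.ext
  show (g' * g, t' * t) = (g * g', t * t')
  rw [hg, mul_one, one_mul, p1_ker t ht t']

/-- the bad element -/
noncomputable def s : TT θ2 := ⟨0, ((1 / 2 : ℚ) : DD), false⟩

theorem p1_s : p1 s = 1 := by
  show (⟨(0 : ℚ), dbl ((1 / 2 : ℚ) : DD), false⟩ : TT θ1) = _
  rw [dbl_apply, ← AddCircle.coe_add, one_def]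
  congr 1
  norm_num

theorem s_ne : s ≠ 1 := by
  intro h
  have h1 : ((1 / 2 : ℚ) : DD) = 0 := congrArg TT.c h
  rw [AddCircle.coe_eq_zero_iff] at h1
  obtain ⟨n, hn⟩ := h1
  rw [zsmul_eq_mul, mul_one] at hn
  have : ((2 * n : ℤ) : ℚ) = ((1 : ℤ) : ℚ) := by push_cast; rw [hn]; norm_num
  have := Int.cast_injective this
  omega

noncomputable def bad : E2 := ⟨(1, s), by rw [mem_E2]; simp only; rw [p1_s]; simp⟩

theorem bad_ne : bad ≠ 1 := by
  intro h
  apply s_ne
  exact congrArg (fun x : E2 => x.1.2) h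

noncomputable def X (i : ℕ) : E2 := ⟨(gx (i + 1), ⟨(1 / 2 ^ (i + 2) : ℚ), 0, false⟩), by
  rw [mem_E2]
  simp only
  rw [phi_gx, u0, if_neg (by omega)]
  show _ = (⟨θ1 (1 / 2 ^ (i + 2) : ℚ), dbl 0, false⟩ : TT _)
  rw [map_zero]
  rfl⟩

noncomputable def Y : E2 := ⟨(gx 0, ⟨0, 0, true⟩), by
  rw [mem_E2]
  simp only
  rw [phi_gx, u0, if_pos rfl]
  show _ = (⟨θ1 0, dbl 0, true⟩ : TT _)
  rw [map_zero, map_zero]⟩

theorem Y_sq : Y ^ 2 = 1 := by
  apply Subtype.ext
  show (gx 0 ^ 2, (⟨0, 0, true⟩ : TT θ2) ^ 2) = (1, 1)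
  have h := gx_pow 0
  norm_num at h
  rw [h]
  congr 1
  simp [pow_two, mul_def, one_def]

theorem X_pow (i : ℕ) : X i ^ (2 ^ (i + 2)) * Y = bad * (Y * X i ^ (2 ^ (i + 2))) := by
  have h1 : (X i ^ (2 ^ (i + 2))).1 = ((1, ⟨1, 0, false⟩) : G × TT θ2) := by
    show (gx (i + 1) ^ (2 ^ (i + 2)), (⟨(1 / 2 ^ (i + 2) : ℚ), 0, false⟩ : TT θ2) ^ (2 ^ (i + 2))) = _
    rw [gx_pow (i + 1), pow_false]
    have : (2 ^ (i + 2)) • (1 / 2 ^ (i + 2) : ℚ) = 1 := by
      rw [nsmul_eq_mul]; push_cast; field_simp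
    rw [this]
  apply Subtype.ext
  show (X i ^ (2 ^ (i + 2))).1 * Y.1 = bad.1 * (Y.1 * (X i ^ (2 ^ (i + 2))).1)
  rw [h1]
  show ((1 * gx 0, (⟨1, 0, false⟩ : TT θ2) * ⟨0, 0, true⟩) : G × TT θ2) =
    (1 * (gx 0 * 1), s * (⟨0, 0, true⟩ * ⟨1, 0, false⟩))
  rw [one_mul, one_mul, mul_one]
  congr 1
  simp only [mul_def, s]
  ext
  · simp
  · simp only [θ2_apply, map_zero]
    simp only [Bool.false_eq_true, if_false, if_true, neg_zero, zero_add]
    rw [← AddCircle.coe_add]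
    norm_num
    exact (AddCircle.coe_period 1).symm
  · simp

theorem partC : ∀ (H : Type) (_ : Group H) (φ : E2 →* H), Group.IsNilpotent H → φ bad = 1 := by
  intro H _ φ hn
  obtain ⟨K, hK⟩ := nil_comm H
  have h1 := hK (φ (X K ^ 4)) (φ Y) (by rw [← map_pow, Y_sq, map_one])
  have h2 : φ (X K ^ 4) ^ (2 ^ K) = φ (X K ^ (2 ^ (K + 2))) := by
    rw [← map_pow, ← pow_mul]
    congr 2
    rw [pow_add]; ring
  rw [h2] at h1
  have h3 := congrArg φ (X_pow K)
  rw [map_mul, map_mul, map_mul, h1.eq] at h3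
  exact mul_right_cancel (b := φ Y * φ (X K ^ 2 ^ (K + 2))) (by rw [one_mul]; exact h3.symm)

end Pool.Agent.H26.RN
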