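import Mathlib

set_option autoImplicit false
set_option linter.style.haveILetI false

open Metric Set Filter Topology
open scoped ComplexConjugate

namespace Pool.Agent.H26.SP

abbrev E : Type := EuclideanSpace ℂ (Fin 2)

noncomputable def vec (a b : ℂ) : E := WithLp.toLp 2 ![a, b]

@[simp] theorem vec0 (a b : ℂ) : (vec a b) 0 = a := rfl
@[simp] theorem vec1 (a b : ℂ) : (vec a b) 1 = b := rfl

theorem ext2 {z w : E} (h0 : z 0 = w 0) (h1 : z 1 = w 1) : z = w := by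
  ext i
  fin_cases i
  · exact h0
  · exact h1

theorem vec_eta (z : E) : vec (z 0) (z 1) = z := ext2 rfl rfl

theorem nsq (z : E) : ‖z‖ ^ 2 = ‖z 0‖ ^ 2 + ‖z 1‖ ^ 2 := by
  rw [EuclideanSpace.norm_sq_eq, Fin.sum_univ_two]

theorem n0 (z : E) : ‖z 0‖ ≤ ‖z‖ := by
  have := nsq z
  nlinarith [norm_nonneg z, norm_nonneg (z 0), sq_nonneg ‖z 1‖]

theorem n1 (z : E) : ‖z 1‖ ≤ ‖z‖ := by
  have := nsq z
  nlinarith [norm_nonneg z, norm_nonneg (z 1), sq_nonneg ‖z 0‖]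

theorem inner2 (z w : E) : inner ℂ z w = w 0 * conj (z 0) + w 1 * conj (z 1) := by
  rw [PiLp.inner_apply, Fin.sum_univ_two]
  rfl

theorem ball_iff (z : E) (r : ℝ) (hr : 0 < r) : z ∈ ball (0 : E) r ↔ ‖z 0‖ ^ 2 + ‖z 1‖ ^ 2 < r ^ 2 := by
  rw [mem_ball_zero_iff, ← nsq]
  constructor
  · intro h
    have := norm_nonneg z
    nlinarith
  · intro h
    by_contra hcon
    push Not at hcon
    nlinarith [norm_nonneg z]

theorem INV (D : E →L[ℂ] E) (hD : ∀ w, D w = 0 → w = 0) (x : E) : D (D.inverse x) = x := by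
  have hinj : Function.Injective D.toLinearMap := by
    rw [injective_iff_map_eq_zero]
    exact hD
  let e := (LinearEquiv.ofInjectiveEndo D.toLinearMap hinj).toContinuousLinearEquiv
  have he : D = (e : E →L[ℂ] E) := by
    ext w
    rfl
  rw [he, ContinuousLinearMap.inverse_equiv]
  exact e.apply_symm_apply x

/-- the class of normalised starlike maps as in the frozen statement -/
def SC (g : E → E) : Prop :=
  DifferentiableOn ℂ g (ball 0 1) ∧ InjOn g (ball 0 1) ∧ g 0 = 0 ∧ fderiv ℂ g 0 = ContinuousLinearMap.id ℂ E ∧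
    ∀ z ∈ ball (0 : E) 1, z ≠ 0 → 0 < (inner ℂ z ((fderiv ℂ g z).inverse (g z))).re

/-- coordinate projections -/
noncomputable def p0 : E →L[ℂ] ℂ := EuclideanSpace.proj 0
noncomputable def p1 : E →L[ℂ] ℂ := EuclideanSpace.proj 1

@[simp] theorem p0_apply (z : E) : p0 z = z 0 := rfl
@[simp] theorem p1_apply (z : E) : p1 z = z 1 := rfl

theorem hasFD {F0 F1 : E → ℂ} {z : E} {a b : E →L[ℂ] ℂ} (h0 : HasFDerivAt F0 a z) (h1 : HasFDerivAt F1 b z) :
    ∃ D : E →L[ℂ] E, HasFDerivAt (fun z => vec (F0 z) (F1 z)) D z ∧ ∀ w, (D w) 0 = a w ∧ (D w) 1 = b w := by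
  let D : E →L[ℂ] E := (PiLp.continuousLinearEquiv 2 ℂ (fun _ : Fin 2 => ℂ)).symm.toContinuousLinearMap.comp
    (ContinuousLinearMap.pi ![a, b])
  refine ⟨D, ?_, fun w => ⟨rfl, rfl⟩⟩
  rw [← hasFDerivWithinAt_univ, hasFDerivWithinAt_euclidean]
  intro i
  fin_cases i
  · exact h0.hasFDerivWithinAt
  · exact h1.hasFDerivWithinAt

theorem diffOn {F0 F1 : E → ℂ} {s : Set E} (h0 : DifferentiableOn ℂ F0 s) (h1 : DifferentiableOn ℂ F1 s) :
    DifferentiableOn ℂ (fun z => vec (F0 z) (F1 z)) s := by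
  rw [differentiableOn_euclidean]
  intro i
  fin_cases i
  · exact h0
  · exact h1

/-- derivative bound from a Lipschitz type bound -/
theorem deriv_bd {u : E → ℂ} {z w : E} (hu : DifferentiableAt ℂ u z) (b : ℝ → ℝ) (hb : ContinuousAt b 0)
    (hb0 : 0 ≤ b 0) (h : ∀ᶠ t : ℂ in 𝓝 0, ‖u (z + t • w) - u z‖ ≤ ‖t‖ * b ‖t‖) : ‖fderiv ℂ u z w‖ ≤ b 0 := by
  have h1 : HasDerivAt (fun t : ℂ => u (z + t • w)) (fderiv ℂ u z w) 0 := by
    have h2 : HasFDerivAt u (fderiv ℂ u z) (z + (0 : ℂ) • w) := by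
      rw [zero_smul, add_zero]; exact hu.hasFDerivAt
    have h3 : HasDerivAt (fun t : ℂ => z + t • w) w 0 := by
      simpa using ((hasDerivAt_id (0 : ℂ)).smul_const w).const_add z
    exact h2.comp_hasDerivAt (0 : ℂ) h3
  apply le_of_forall_pos_le_add
  intro η hη
  apply HasDerivAt.le_of_lip' h1 (by linarith)
  have h5 : Tendsto (fun t : ℂ => b ‖t‖) (𝓝 0) (𝓝 (b 0)) := by
    have : Tendsto (fun t : ℂ => ‖t‖) (𝓝 0) (𝓝 0) := by
      have := (continuous_norm (E := ℂ)).tendsto 0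
      rwa [norm_zero] at this
    exact hb.tendsto.comp this
  have h6 : ∀ᶠ t : ℂ in 𝓝 0, b ‖t‖ < b 0 + η := h5.eventually (gt_mem_nhds (by linarith))
  filter_upwards [h, h6] with t ht ht6
  rw [zero_smul, add_zero, sub_zero]
  refine ht.trans ?_
  rw [mul_comm]
  gcongr

theorem real_est (x y β H A1 A2 k : ℝ) (hx : 0 ≤ x) (hy : 0 ≤ y) (hβ : 0 < β) (hyβ : y ^ 2 ≤ β)
    (hH0 : 0 ≤ H) (hA1 : 0 ≤ A1) (hA2 : 0 ≤ A2) (hk0 : 0 ≤ k) (hk : k ≤ 1 / 1000) (hH : H ≤ 2 * x / β)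
    (e1 : A1 ≤ (4 / β) * k * (4 * y ^ 2 * (H + A1) + 2 * y * (y + A2) + y ^ 2))
    (e2 : A2 ≤ k * (2 * y * (H + A1) + (y + A2) + y)) :
    x * A1 + y * A2 ≤ 108 * k * (x ^ 2 * y ^ 2 / β ^ 2 + y ^ 2) := by
  have g2 : A2 ≤ 4 * k * y * (H + A1 + 1) := by
    have h1 : A2 * (1 - k) ≤ 2 * k * y * (H + A1 + 1) := by nlinarith
    have h2 : A2 * (1 / 2) ≤ A2 * (1 - k) := by
      apply mul_le_mul_of_nonneg_left _ hA2; linarith
    nlinarith
  set t := y ^ 2 / β with ht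
  have ht0 : 0 ≤ t := by positivity
  have ht1 : t ≤ 1 := by rw [ht, div_le_one hβ]; exact hyβ
  have e1' : A1 ≤ 4 * k * (4 * t * (H + A1) + 3 * t + 2 * (y / β) * A2) := by
    have : (4 / β) * k * (4 * y ^ 2 * (H + A1) + 2 * y * (y + A2) + y ^ 2) =
        4 * k * (4 * t * (H + A1) + 3 * t + 2 * (y / β) * A2) := by
      rw [ht]; field_simp; ring
    rw [← this]; exact e1
  have g3 : (y / β) * A2 ≤ 4 * k * t * (H + A1 + 1) := by
    have h1 : (y / β) * A2 ≤ (y / β) * (4 * k * y * (H + A1 + 1)) := by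
      apply mul_le_mul_of_nonneg_left g2; positivity
    have h2 : (y / β) * (4 * k * y * (H + A1 + 1)) = 4 * k * t * (H + A1 + 1) := by rw [ht]; field_simp
    rw [← h2]; exact h1
  have g4 : A1 ≤ 20 * k * t * (H + A1 + 1) := by
    have h1 : 2 * (y / β) * A2 ≤ 8 * k * (t * (H + A1 + 1)) := by nlinarith
    have h2 : 8 * k * (t * (H + A1 + 1)) ≤ t * (H + A1 + 1) := by
      have h3 : 0 ≤ t * (H + A1 + 1) := by positivity
      nlinarith
    have h3 : 4 * t * (H + A1) + 3 * t + 2 * (y / β) * A2 ≤ 5 * t * (H + A1 + 1) := by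
      nlinarith [mul_nonneg ht0 (add_nonneg hH0 hA1)]
    calc A1 ≤ 4 * k * (4 * t * (H + A1) + 3 * t + 2 * (y / β) * A2) := e1'
      _ ≤ 4 * k * (5 * t * (H + A1 + 1)) := by gcongr
      _ = 20 * k * t * (H + A1 + 1) := by ring
  have g5 : A1 ≤ 40 * k * t * (H + 1) := by
    have h1 : 20 * k * t * A1 ≤ (1 / 2) * A1 := by
      apply mul_le_mul_of_nonneg_right _ hA1
      have : k * t ≤ k := mul_le_of_le_one_right hk0 ht1
      nlinarith
    nlinarith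
  have g6 : A1 ≤ H + 1 := by
    have h1 : k * t ≤ k := mul_le_of_le_one_right hk0 ht1
    have h2 : 40 * k * t * (H + 1) ≤ 1 * (H + 1) := by
      apply mul_le_mul_of_nonneg_right _ (by linarith)
      nlinarith
    linarith
  have g7 : A2 ≤ 8 * k * y * (H + 1) := by
    have h1 : 4 * k * y * (H + A1 + 1) ≤ 4 * k * y * (2 * (H + 1)) := by
      apply mul_le_mul_of_nonneg_left _ (by positivity); linarith
    nlinarith
  set r := x / β with hr
  have hr0 : 0 ≤ r := by positivity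
  have hH' : H ≤ 2 * r := by
    have : 2 * x / β = 2 * r := by rw [hr]; ring
    linarith
  have i1 : x * t = r * y ^ 2 := by rw [ht, hr]; field_simp
  have i2 : x ^ 2 * y ^ 2 / β ^ 2 = r ^ 2 * y ^ 2 := by rw [hr]; field_simp
  rw [i2]
  have j1 : x * A1 ≤ 40 * k * (r * y ^ 2) * (2 * r + 1) := by
    calc x * A1 ≤ x * (40 * k * t * (H + 1)) := by gcongr
      _ = 40 * k * (x * t) * (H + 1) := by ring
      _ = 40 * k * (r * y ^ 2) * (H + 1) := by rw [i1]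
      _ ≤ 40 * k * (r * y ^ 2) * (2 * r + 1) := by gcongr
  have j2 : y * A2 ≤ 8 * k * y ^ 2 * (2 * r + 1) := by
    calc y * A2 ≤ y * (8 * k * y * (H + 1)) := by gcongr
      _ = 8 * k * y ^ 2 * (H + 1) := by ring
      _ ≤ 8 * k * y ^ 2 * (2 * r + 1) := by gcongr
  have j3 : r * y ^ 2 ≤ (r ^ 2 * y ^ 2 + y ^ 2) / 2 := by nlinarith [sq_nonneg ((r - 1) * y)]
  calc x * A1 + y * A2 ≤ 40 * k * (r * y ^ 2) * (2 * r + 1) + 8 * k * y ^ 2 * (2 * r + 1) := add_le_add j1 j2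
    _ = k * (80 * (r ^ 2 * y ^ 2) + 56 * (r * y ^ 2) + 8 * y ^ 2) := by ring
    _ ≤ k * (80 * (r ^ 2 * y ^ 2) + 56 * ((r ^ 2 * y ^ 2 + y ^ 2) / 2) + 8 * y ^ 2) := by gcongr
    _ ≤ 108 * k * (r ^ 2 * y ^ 2 + y ^ 2) := by nlinarith [mul_nonneg hk0 (sq_nonneg y)]

end Pool.Agent.H26.SP
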