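import Mathlib
import Pool.Agent.H26.SP1

set_option autoImplicit false
set_option linter.style.haveILetI false

open Metric Set Filter Topology
open scoped ComplexConjugate

namespace Pool.Agent.H26.SP

noncomputable def f1 (a : ℂ) : ℂ := a / (1 - a ^ 2)

theorem one_sub_ne {a : ℂ} (ha : ‖a‖ < 1) : 1 - a ^ 2 ≠ 0 := by
  intro h
  have h1 : a ^ 2 = 1 := by linear_combination -h
  have h2 : ‖a‖ ^ 2 = 1 := by rw [← norm_pow, h1, norm_one]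
  nlinarith [norm_nonneg a]

theorem one_add_lb (a : ℂ) : 1 - ‖a‖ ^ 2 ≤ ‖1 + a ^ 2‖ := by
  have := norm_sub_norm_le (1 : ℂ) (-(a ^ 2))
  rw [norm_one, norm_neg, norm_pow, sub_neg_eq_add] at this
  exact this

theorem one_add_ne {a : ℂ} (ha : ‖a‖ < 1) : 1 + a ^ 2 ≠ 0 := by
  have h1 := one_add_lb a
  have : 0 < 1 - ‖a‖ ^ 2 := by nlinarith [norm_nonneg a]
  intro h
  rw [h, norm_zero] at h1
  linarith

theorem one_sub_ub {a : ℂ} (ha : ‖a‖ < 1) : ‖1 - a ^ 2‖ ≤ 2 := by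
  have := norm_sub_le (1 : ℂ) (a ^ 2)
  rw [norm_one, norm_pow] at this
  nlinarith [norm_nonneg a]

theorem f1_deriv {a : ℂ} (ha : ‖a‖ < 1) : HasDerivAt f1 ((1 + a ^ 2) / (1 - a ^ 2) ^ 2) a := by
  have h1 : HasDerivAt (fun a : ℂ => 1 - a ^ 2) (-(2 * a)) a := by
    have := (hasDerivAt_pow 2 a).const_sub 1
    simpa using this
  have h2 := (hasDerivAt_id a).div h1 (one_sub_ne ha)
  refine h2.congr_deriv ?_
  simp only [id]
  congr 1
  ring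

theorem main_re (a : ℂ) : ((a * (1 - a ^ 2) / (1 + a ^ 2)) * conj a).re =
    ‖a‖ ^ 2 * (1 - ‖a‖ ^ 4) / ‖1 + a ^ 2‖ ^ 2 := by
  have h1 : (a * (1 - a ^ 2) / (1 + a ^ 2)) * conj a = ((‖a‖ ^ 2 / ‖1 + a ^ 2‖ ^ 2 : ℝ) : ℂ) * ((1 - a ^ 2) * conj (1 + a ^ 2)) := by
    have e1 : a * conj a = ((‖a‖ ^ 2 : ℝ) : ℂ) := by
      rw [Complex.mul_conj, Complex.normSq_eq_norm_sq]
    by_cases h0 : 1 + a ^ 2 = 0
    · rw [h0]; simp
    · have e2 : (1 + a ^ 2) * conj (1 + a ^ 2) = ((‖1 + a ^ 2‖ ^ 2 : ℝ) : ℂ) := by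
        rw [Complex.mul_conj, Complex.normSq_eq_norm_sq]
      have e3 : ((‖1 + a ^ 2‖ ^ 2 : ℝ) : ℂ) ≠ 0 := by
        rw [← e2]; exact mul_ne_zero h0 (by rwa [Ne, map_eq_zero])
      rw [Complex.ofReal_div, ← e1]
      field_simp
      rw [← e2]
      ring
  rw [h1, Complex.re_ofReal_mul]
  have h2 : ((1 - a ^ 2) * conj (1 + a ^ 2)).re = 1 - ‖a‖ ^ 4 := by
    have e1 : (1 - a ^ 2) * conj (1 + a ^ 2) = 1 - ((‖a‖ ^ 4 : ℝ) : ℂ) + (conj (a ^ 2) - a ^ 2) := by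
      have : a ^ 2 * conj (a ^ 2) = ((‖a‖ ^ 4 : ℝ) : ℂ) := by
        rw [Complex.mul_conj, Complex.normSq_eq_norm_sq, norm_pow]
        congr 1; ring
      rw [← this, map_add, map_one]
      ring
    rw [e1, Complex.add_re, Complex.sub_re, Complex.sub_re, Complex.conj_re, Complex.ofReal_re]
    simp
  rw [h2]; ring

theorem pert (u v : E → ℂ) (hu : DifferentiableOn ℂ u (ball 0 1)) (hv : DifferentiableOn ℂ v (ball 0 1))
    (c : ℝ) (hc : 0 ≤ c)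
    (hu0 : ∀ z : E, z 1 = 0 → u z = 0) (hv0 : ∀ z : E, z 1 = 0 → v z = 0)
    (huL : ∀ z ∈ ball (0 : E) 1, ∀ w ∈ ball (0 : E) 1,
      ‖u z - u w‖ ≤ c * ((‖z 1‖ + ‖w 1‖) ^ 2 * ‖z 0 - w 0‖ + (‖z 1‖ + ‖w 1‖) * ‖z 1 - w 1‖))
    (hvL : ∀ z ∈ ball (0 : E) 1, ∀ w ∈ ball (0 : E) 1,
      ‖v z - v w‖ ≤ c * ((‖z 1‖ + ‖w 1‖) * ‖z 0 - w 0‖ + ‖z 1 - w 1‖))
    (hv' : fderiv ℂ v 0 = 0) (ε : ℂ) (hε : ‖ε‖ * c ≤ 1 / 1000) :
    SC (fun z => vec (f1 (z 0) + ε * u z) (z 1 + ε * v z)) := by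
  set k := ‖ε‖ * c with hk
  have hk0 : 0 ≤ k := by positivity
  have h0B : (0 : E) ∈ ball (0 : E) 1 := by simp
  have hopen : IsOpen (ball (0 : E) 1) := isOpen_ball
  have hBa : ∀ z ∈ ball (0 : E) 1, ‖z 0‖ < 1 := fun z hz => lt_of_le_of_lt (n0 z) (mem_ball_zero_iff.mp hz)
  -- projection of a point to the first axis
  have hproj : ∀ z ∈ ball (0 : E) 1, vec (z 0) 0 ∈ ball (0 : E) 1 := by
    intro z hz
    rw [ball_iff _ _ one_pos] at hz ⊢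
    simp only [vec0, vec1, norm_zero]
    nlinarith [sq_nonneg ‖z 1‖]
  have huB : ∀ z ∈ ball (0 : E) 1, ‖u z‖ ≤ c * ‖z 1‖ ^ 2 := by
    intro z hz
    have h1 := huL z hz (vec (z 0) 0) (hproj z hz)
    rw [hu0 (vec (z 0) 0) rfl] at h1
    simp only [vec0, vec1, norm_zero, sub_zero, sub_self, add_zero, mul_zero, zero_add] at h1
    calc ‖u z‖ ≤ c * (‖z 1‖ * ‖z 1‖) := h1
      _ = c * ‖z 1‖ ^ 2 := by ring
  have hvB : ∀ z ∈ ball (0 : E) 1, ‖v z‖ ≤ c * ‖z 1‖ := by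
    intro z hz
    have h1 := hvL z hz (vec (z 0) 0) (hproj z hz)
    rw [hv0 (vec (z 0) 0) rfl] at h1
    simp only [vec0, vec1, norm_zero, sub_zero, sub_self, add_zero, mul_zero, zero_add] at h1
    exact h1
  have hud : ∀ z ∈ ball (0 : E) 1, DifferentiableAt ℂ u z := fun z hz => hu.differentiableAt (hopen.mem_nhds hz)
  have hvd : ∀ z ∈ ball (0 : E) 1, DifferentiableAt ℂ v z := fun z hz => hv.differentiableAt (hopen.mem_nhds hz)
  have hnear : ∀ z ∈ ball (0 : E) 1, ∀ w : E, ∀ᶠ t : ℂ in 𝓝 0, z + t • w ∈ ball (0 : E) 1 := by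
    intro z hz w
    have : ContinuousAt (fun t : ℂ => z + t • w) 0 := by fun_prop
    apply this.eventually_mem
    apply hopen.mem_nhds
    simpa using hz
  have hu' : ∀ z ∈ ball (0 : E) 1, ∀ w : E, ‖fderiv ℂ u z w‖ ≤ c * (4 * ‖z 1‖ ^ 2 * ‖w 0‖ + 2 * ‖z 1‖ * ‖w 1‖) := by
    intro z hz w
    have h1 := deriv_bd (w := w) (hud z hz)
      (fun s => c * ((2 * ‖z 1‖ + s * ‖w 1‖) ^ 2 * ‖w 0‖ + (2 * ‖z 1‖ + s * ‖w 1‖) * ‖w 1‖))
      (by fun_prop) (by positivity) (by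
        filter_upwards [hnear z hz w] with t ht
        have h2 := huL _ ht z hz
        have e0 : (z + t • w) 0 - z 0 = t * w 0 := by simp
        have e1 : (z + t • w) 1 - z 1 = t * w 1 := by simp
        have e2 : ‖(z + t • w) 1‖ + ‖z 1‖ ≤ 2 * ‖z 1‖ + ‖t‖ * ‖w 1‖ := by
          have : (z + t • w) 1 = z 1 + t * w 1 := by simp
          rw [this]
          have := norm_add_le (z 1) (t * w 1)
          rw [norm_mul] at this
          linarith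
        rw [e0, e1, norm_mul, norm_mul] at h2
        refine h2.trans ?_
        calc c * ((‖(z + t • w) 1‖ + ‖z 1‖) ^ 2 * (‖t‖ * ‖w 0‖) + (‖(z + t • w) 1‖ + ‖z 1‖) * (‖t‖ * ‖w 1‖))
            ≤ c * ((2 * ‖z 1‖ + ‖t‖ * ‖w 1‖) ^ 2 * (‖t‖ * ‖w 0‖) + (2 * ‖z 1‖ + ‖t‖ * ‖w 1‖) * (‖t‖ * ‖w 1‖)) := by
              gcongr
          _ = _ := by ring)
    refine h1.trans (le_of_eq ?_)
    ring
  have hv'' : ∀ z ∈ ball (0 : E) 1, ∀ w : E, ‖fderiv ℂ v z w‖ ≤ c * (2 * ‖z 1‖ * ‖w 0‖ + ‖w 1‖) := by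
    intro z hz w
    have h1 := deriv_bd (w := w) (hvd z hz)
      (fun s => c * ((2 * ‖z 1‖ + s * ‖w 1‖) * ‖w 0‖ + ‖w 1‖))
      (by fun_prop) (by positivity) (by
        filter_upwards [hnear z hz w] with t ht
        have h2 := hvL _ ht z hz
        have e0 : (z + t • w) 0 - z 0 = t * w 0 := by simp
        have e1 : (z + t • w) 1 - z 1 = t * w 1 := by simp
        have e2 : ‖(z + t • w) 1‖ + ‖z 1‖ ≤ 2 * ‖z 1‖ + ‖t‖ * ‖w 1‖ := by
          have : (z + t • w) 1 = z 1 + t * w 1 := by simp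
          rw [this]
          have := norm_add_le (z 1) (t * w 1)
          rw [norm_mul] at this
          linarith
        rw [e0, e1, norm_mul, norm_mul] at h2
        refine h2.trans ?_
        calc c * ((‖(z + t • w) 1‖ + ‖z 1‖) * (‖t‖ * ‖w 0‖) + ‖t‖ * ‖w 1‖)
            ≤ c * ((2 * ‖z 1‖ + ‖t‖ * ‖w 1‖) * (‖t‖ * ‖w 0‖) + ‖t‖ * ‖w 1‖) := by
              gcongr
          _ = _ := by ring)
    refine h1.trans (le_of_eq ?_)
    ring
  -- derivative of F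
  have hF : ∀ z ∈ ball (0 : E) 1, ∃ D : E →L[ℂ] E,
      HasFDerivAt (fun z : E => vec (f1 (z 0) + ε * u z) (z 1 + ε * v z)) D z ∧
      ∀ w : E, (D w) 0 = (1 + z 0 ^ 2) / (1 - z 0 ^ 2) ^ 2 * w 0 + ε * fderiv ℂ u z w ∧
        (D w) 1 = w 1 + ε * fderiv ℂ v z w := by
    intro z hz
    have h1 : HasFDerivAt (fun z : E => f1 (z 0)) (((1 + z 0 ^ 2) / (1 - z 0 ^ 2) ^ 2) • p0) z := by
      have := (f1_deriv (hBa z hz)).comp_hasFDerivAt z (p0.hasFDerivAt (x := z))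
      exact this
    have h2 := h1.add ((hud z hz).hasFDerivAt.const_mul ε)
    have h3 := (p1.hasFDerivAt (x := z)).add ((hvd z hz).hasFDerivAt.const_mul ε)
    obtain ⟨D, hD1, hD2⟩ := hasFD h2 h3
    refine ⟨D, hD1, fun w => ?_⟩
    have := hD2 w
    simpa using this
  -- injectivity of derivative
  have hgeo : ∀ z ∈ ball (0 : E) 1, 0 < ‖1 + z 0 ^ 2‖ ∧ ‖z 1‖ ^ 2 ≤ ‖1 + z 0 ^ 2‖ ∧ ‖z 1‖ ^ 2 < 1 - ‖z 0‖ ^ 2 := by
    intro z hz
    have h1 := one_add_lb (z 0)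
    have h2 := (ball_iff z 1 one_pos).mp hz
    have h3 := one_add_ne (hBa z hz)
    refine ⟨norm_pos_iff.mpr h3, by linarith, by linarith⟩
  have hkap : ∀ z ∈ ball (0 : E) 1, ‖(1 - z 0 ^ 2) ^ 2 / (1 + z 0 ^ 2)‖ ≤ 4 / ‖1 + z 0 ^ 2‖ := by
    intro z hz
    rw [norm_div, norm_pow]
    have h1 := one_sub_ub (hBa z hz)
    have h2 := (hgeo z hz).1
    have h3 : ‖1 - z 0 ^ 2‖ ^ 2 ≤ 4 := by nlinarith [norm_nonneg (1 - z 0 ^ 2)]
    gcongr
  have hDinj : ∀ z ∈ ball (0 : E) 1, ∀ w : E,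
      (1 + z 0 ^ 2) / (1 - z 0 ^ 2) ^ 2 * w 0 + ε * fderiv ℂ u z w = 0 → w 1 + ε * fderiv ℂ v z w = 0 → w = 0 := by
    intro z hz w h1 h2
    have hb1 := hu' z hz w
    have hb2 := hv'' z hz w
    obtain ⟨g1, g2, g3⟩ := hgeo z hz
    have ne1 := one_sub_ne (hBa z hz)
    have ne2 := one_add_ne (hBa z hz)
    set y := ‖z 1‖ with hy
    set β := ‖1 + z 0 ^ 2‖ with hβ
    have hy0 : 0 ≤ y := norm_nonneg _
    have i1 : ‖w 1‖ ≤ k * (2 * y * ‖w 0‖ + ‖w 1‖) := by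
      have : w 1 = -(ε * fderiv ℂ v z w) := by linear_combination h2
      calc ‖w 1‖ = ‖ε‖ * ‖fderiv ℂ v z w‖ := by rw [this, norm_neg, norm_mul]
        _ ≤ ‖ε‖ * (c * (2 * y * ‖w 0‖ + ‖w 1‖)) := by gcongr
        _ = k * (2 * y * ‖w 0‖ + ‖w 1‖) := by rw [hk]; ring
    have i0 : ‖w 0‖ ≤ 4 / β * (k * (4 * y ^ 2 * ‖w 0‖ + 2 * y * ‖w 1‖)) := by
      have : w 0 = -((1 - z 0 ^ 2) ^ 2 / (1 + z 0 ^ 2) * (ε * fderiv ℂ u z w)) := by
        have e : (1 - z 0 ^ 2) ^ 2 / (1 + z 0 ^ 2) * ((1 + z 0 ^ 2) / (1 - z 0 ^ 2) ^ 2 * w 0 + ε * fderiv ℂ u z w) = 0 := by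
          rw [h1, mul_zero]
        have e2 : (1 - z 0 ^ 2) ^ 2 / (1 + z 0 ^ 2) * ((1 + z 0 ^ 2) / (1 - z 0 ^ 2) ^ 2 * w 0) = w 0 := by
          field_simp
        rw [mul_add, e2] at e
        linear_combination e
      calc ‖w 0‖ = ‖(1 - z 0 ^ 2) ^ 2 / (1 + z 0 ^ 2)‖ * (‖ε‖ * ‖fderiv ℂ u z w‖) := by
            conv_lhs => rw [this]
            rw [norm_neg, norm_mul, norm_mul]
        _ ≤ 4 / β * (‖ε‖ * (c * (4 * y ^ 2 * ‖w 0‖ + 2 * y * ‖w 1‖))) := by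
            have := hkap z hz
            gcongr
        _ = 4 / β * (k * (4 * y ^ 2 * ‖w 0‖ + 2 * y * ‖w 1‖)) := by rw [hk]; ring
    have j1 : ‖w 1‖ ≤ 4 * k * y * ‖w 0‖ := by
      have : ‖w 1‖ * (1 / 2) ≤ ‖w 1‖ * (1 - k) := by
        apply mul_le_mul_of_nonneg_left _ (norm_nonneg _); linarith
      nlinarith
    have j0 : ‖w 0‖ ≤ 20 * k * ‖w 0‖ := by
      have hq : 4 / β * (k * (4 * y ^ 2 * ‖w 0‖ + 2 * y * ‖w 1‖)) ≤ 4 / β * (k * (4 * y ^ 2 * ‖w 0‖ + 2 * y * (4 * k * y * ‖w 0‖))) := by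
        gcongr
      have hq2 : 4 / β * (k * (4 * y ^ 2 * ‖w 0‖ + 2 * y * (4 * k * y * ‖w 0‖))) = (y ^ 2 / β) * (4 * k * (4 + 8 * k) * ‖w 0‖) := by
        field_simp; ring
      have hq3 : y ^ 2 / β ≤ 1 := by rw [div_le_one g1]; exact g2
      have hq4 : (y ^ 2 / β) * (4 * k * (4 + 8 * k) * ‖w 0‖) ≤ 1 * (4 * k * (4 + 8 * k) * ‖w 0‖) := by
        gcongr
      have hq5 : 1 * (4 * k * (4 + 8 * k) * ‖w 0‖) ≤ 20 * k * ‖w 0‖ := by
        have : 0 ≤ k * ‖w 0‖ := by positivity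
        nlinarith
      linarith
    have w0z : ‖w 0‖ = 0 := by nlinarith [norm_nonneg (w 0)]
    have w1z : ‖w 1‖ = 0 := by
      rw [w0z] at j1; nlinarith [norm_nonneg (w 1)]
    exact ext2 (norm_eq_zero.mp w0z) (norm_eq_zero.mp w1z)
  refine ⟨?_, ?_, ?_, ?_, ?_⟩
  · intro z hz
    obtain ⟨D, hD, -⟩ := hF z hz
    exact hD.differentiableAt.differentiableWithinAt
  · -- injectivity
    intro z hz w hw hzw
    have q0 : f1 (z 0) + ε * u z = f1 (w 0) + ε * u w := congrArg (fun x : E => x 0) hzw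
    have q1 : z 1 + ε * v z = w 1 + ε * v w := congrArg (fun x : E => x 1) hzw
    have b1 := huL z hz w hw
    have b2 := hvL z hz w hw
    obtain ⟨g1, g2, g3⟩ := hgeo z hz
    obtain ⟨g1', g2', g3'⟩ := hgeo w hw
    set s := ‖z 1‖ + ‖w 1‖ with hs
    set d0 := ‖z 0 - w 0‖ with hd0
    set d1 := ‖z 1 - w 1‖ with hd1
    have hs0 : 0 ≤ s := by positivity
    have hd00 : 0 ≤ d0 := norm_nonneg _
    have hd10 : 0 ≤ d1 := norm_nonneg _
    have i1 : d1 ≤ k * (s * d0 + d1) := by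
      have : z 1 - w 1 = -(ε * (v z - v w)) := by linear_combination q1
      calc d1 = ‖ε‖ * ‖v z - v w‖ := by rw [hd1, this, norm_neg, norm_mul]
        _ ≤ ‖ε‖ * (c * (s * d0 + d1)) := by gcongr
        _ = _ := by rw [hk]; ring
    have j1 : d1 ≤ 2 * k * s * d0 := by
      have : d1 * (1 / 2) ≤ d1 * (1 - k) := by
        apply mul_le_mul_of_nonneg_left _ hd10; linarith
      nlinarith
    have nz := one_sub_ne (hBa z hz)
    have nw := one_sub_ne (hBa w hw)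
    have i0 : d0 * ‖1 + z 0 * w 0‖ ≤ 4 * (k * (s ^ 2 * d0 + s * d1)) := by
      have e1 : f1 (z 0) - f1 (w 0) = -(ε * (u z - u w)) := by linear_combination q0
      have e2 : (z 0 - w 0) * (1 + z 0 * w 0) = (f1 (z 0) - f1 (w 0)) * ((1 - z 0 ^ 2) * (1 - w 0 ^ 2)) := by
        unfold f1; field_simp; ring
      have e3 : d0 * ‖1 + z 0 * w 0‖ = ‖ε‖ * ‖u z - u w‖ * (‖1 - z 0 ^ 2‖ * ‖1 - w 0 ^ 2‖) := by
        rw [hd0, ← norm_mul, e2, e1, norm_mul, norm_neg, norm_mul, norm_mul]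
      rw [e3]
      have o1 := one_sub_ub (hBa z hz)
      have o2 := one_sub_ub (hBa w hw)
      calc ‖ε‖ * ‖u z - u w‖ * (‖1 - z 0 ^ 2‖ * ‖1 - w 0 ^ 2‖) ≤ ‖ε‖ * (c * (s ^ 2 * d0 + s * d1)) * (2 * 2) := by
            gcongr
        _ = _ := by rw [hk]; ring
    have lb : s ^ 2 / 4 ≤ ‖1 + z 0 * w 0‖ := by
      have h1 := norm_sub_norm_le (1 : ℂ) (-(z 0 * w 0))
      rw [norm_one, norm_neg, norm_mul, sub_neg_eq_add] at h1
      have h2 : ‖z 0‖ * ‖w 0‖ ≤ (‖z 0‖ ^ 2 + ‖w 0‖ ^ 2) / 2 := by nlinarith [sq_nonneg (‖z 0‖ - ‖w 0‖)]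
      have h3 : s ^ 2 ≤ 2 * (‖z 1‖ ^ 2 + ‖w 1‖ ^ 2) := by
        rw [hs]; nlinarith [sq_nonneg (‖z 1‖ - ‖w 1‖)]
      nlinarith
    have lbpos : 0 < ‖1 + z 0 * w 0‖ := by
      have h1 := norm_sub_norm_le (1 : ℂ) (-(z 0 * w 0))
      rw [norm_one, norm_neg, norm_mul, sub_neg_eq_add] at h1
      have h2 : ‖z 0‖ * ‖w 0‖ ≤ (‖z 0‖ ^ 2 + ‖w 0‖ ^ 2) / 2 := by nlinarith [sq_nonneg (‖z 0‖ - ‖w 0‖)]
      nlinarith [sq_nonneg ‖z 1‖, sq_nonneg ‖w 1‖]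
    have hmain : d0 * s ^ 2 ≤ 0 := by
      have a1 : d0 * (s ^ 2 / 4) ≤ d0 * ‖1 + z 0 * w 0‖ := mul_le_mul_of_nonneg_left lb hd00
      have a2 : s * d1 ≤ s * (2 * k * s * d0) := mul_le_mul_of_nonneg_left j1 hs0
      have a3 : 0 ≤ s ^ 2 * d0 := by positivity
      have a4 : 4 * (k * (s ^ 2 * d0 + s * d1)) ≤ 4 * (k * (s ^ 2 * d0 + 2 * k * (s ^ 2 * d0))) := by
        have : s ^ 2 * d0 + s * d1 ≤ s ^ 2 * d0 + 2 * k * (s ^ 2 * d0) := by nlinarith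
        gcongr
      have a5 : 4 * (k * (s ^ 2 * d0 + 2 * k * (s ^ 2 * d0))) ≤ (1 / 8) * (s ^ 2 * d0) := by
        have : 4 * (k * (1 + 2 * k)) ≤ 1 / 8 := by nlinarith
        calc 4 * (k * (s ^ 2 * d0 + 2 * k * (s ^ 2 * d0))) = (4 * (k * (1 + 2 * k))) * (s ^ 2 * d0) := by ring
          _ ≤ (1 / 8) * (s ^ 2 * d0) := by gcongr
      nlinarith
    have hcases : d0 = 0 ∨ s = 0 := by
      have : d0 * s ^ 2 = 0 := le_antisymm hmain (by positivity)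
      rcases mul_eq_zero.mp this with h | h
      · left; exact h
      · right; exact pow_eq_zero_iff (two_ne_zero) |>.mp h
    have hd0z : d0 = 0 := by
      rcases hcases with h | h
      · exact h
      · rw [h] at i0
        have : d0 * ‖1 + z 0 * w 0‖ ≤ 0 := by nlinarith
        by_contra hne
        have hpos : 0 < d0 := lt_of_le_of_ne hd00 (Ne.symm hne)
        nlinarith [mul_pos hpos lbpos]
    have hd1z : d1 = 0 := by
      rw [hd0z] at j1; linarith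
    apply ext2
    · exact sub_eq_zero.mp (norm_eq_zero.mp hd0z)
    · exact sub_eq_zero.mp (norm_eq_zero.mp hd1z)
  · apply ext2
    · show f1 ((0 : E) 0) + ε * u 0 = 0
      rw [hu0 0 rfl]; simp [f1]
    · show (0 : E) 1 + ε * v 0 = 0
      rw [hv0 0 rfl]; simp
  · obtain ⟨D, hD, hDw⟩ := hF 0 h0B
    rw [hD.fderiv]
    apply ContinuousLinearMap.ext
    intro w
    have hu'0 : fderiv ℂ u 0 w = 0 := by
      have := hu' 0 h0B w
      simpa using this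
    have hv'0 : fderiv ℂ v 0 w = 0 := by rw [hv']; rfl
    obtain ⟨e0, e1⟩ := hDw w
    apply ext2
    · rw [e0, hu'0]; simp
    · rw [e1, hv'0]; simp
  · intro z hz hz0
    obtain ⟨D, hD, hDw⟩ := hF z hz
    rw [hD.fderiv]
    set Fz : E := vec (f1 (z 0) + ε * u z) (z 1 + ε * v z) with hFz
    set h := D.inverse Fz with hh
    have hDh : D h = Fz := INV D (fun w hw => by
      obtain ⟨e0, e1⟩ := hDw w
      rw [hw] at e0 e1
      exact hDinj z hz w e0.symm e1.symm) Fz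
    obtain ⟨e0, e1⟩ := hDw h
    rw [hDh] at e0 e1
    have e0' : f1 (z 0) + ε * u z = (1 + z 0 ^ 2) / (1 - z 0 ^ 2) ^ 2 * h 0 + ε * fderiv ℂ u z h := e0
    have e1' : z 1 + ε * v z = h 1 + ε * fderiv ℂ v z h := e1
    obtain ⟨g1, g2, g3⟩ := hgeo z hz
    have ne1 := one_sub_ne (hBa z hz)
    have ne2 := one_add_ne (hBa z hz)
    have bu := hu' z hz h
    have bv := hv'' z hz h
    have buz := huB z hz
    have bvz := hvB z hz
    have hka := hkap z hz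
    have o1 := one_sub_ub (hBa z hz)
    set hz00 : ℂ := z 0 * (1 - z 0 ^ 2) / (1 + z 0 ^ 2) with hz00def
    set x := ‖z 0‖ with hx
    set y := ‖z 1‖ with hy
    set β := ‖1 + z 0 ^ 2‖ with hβ
    have hx0 : 0 ≤ x := norm_nonneg _
    have hy0 : 0 ≤ y := norm_nonneg _
    have hH : ‖hz00‖ ≤ 2 * x / β := by
      rw [hz00def, norm_div, norm_mul]
      have : x * ‖1 - z 0 ^ 2‖ ≤ 2 * x := by nlinarith
      gcongr
    have a0 : h 0 - hz00 = (1 - z 0 ^ 2) ^ 2 / (1 + z 0 ^ 2) * (ε * (u z - fderiv ℂ u z h)) := by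
      have e : (1 - z 0 ^ 2) ^ 2 / (1 + z 0 ^ 2) * (f1 (z 0) + ε * u z) =
          (1 - z 0 ^ 2) ^ 2 / (1 + z 0 ^ 2) * ((1 + z 0 ^ 2) / (1 - z 0 ^ 2) ^ 2 * h 0 + ε * fderiv ℂ u z h) := by rw [e0']
      have e2 : (1 - z 0 ^ 2) ^ 2 / (1 + z 0 ^ 2) * ((1 + z 0 ^ 2) / (1 - z 0 ^ 2) ^ 2 * h 0) = h 0 := by
        field_simp
      have e3 : (1 - z 0 ^ 2) ^ 2 / (1 + z 0 ^ 2) * f1 (z 0) = hz00 := by
        rw [hz00def]; unfold f1; field_simp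
      rw [mul_add, mul_add, e2, e3] at e
      linear_combination -e
    have a1 : h 1 - z 1 = ε * (v z - fderiv ℂ v z h) := by linear_combination -e1'
    have n_h0 : ‖h 0‖ ≤ ‖hz00‖ + ‖h 0 - hz00‖ := by
      have := norm_add_le hz00 (h 0 - hz00)
      rwa [add_sub_cancel] at this
    have n_h1 : ‖h 1‖ ≤ y + ‖h 1 - z 1‖ := by
      have := norm_add_le (z 1) (h 1 - z 1)
      rwa [add_sub_cancel] at this
    have E1 : ‖h 0 - hz00‖ ≤ (4 / β) * k * (4 * y ^ 2 * (‖hz00‖ + ‖h 0 - hz00‖) + 2 * y * (y + ‖h 1 - z 1‖) + y ^ 2) := by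
      calc ‖h 0 - hz00‖ = ‖(1 - z 0 ^ 2) ^ 2 / (1 + z 0 ^ 2)‖ * (‖ε‖ * ‖u z - fderiv ℂ u z h‖) := by
            conv_lhs => rw [a0]
            rw [norm_mul, norm_mul]
        _ ≤ 4 / β * (‖ε‖ * (c * y ^ 2 + c * (4 * y ^ 2 * ‖h 0‖ + 2 * y * ‖h 1‖))) := by
            have : ‖u z - fderiv ℂ u z h‖ ≤ c * y ^ 2 + c * (4 * y ^ 2 * ‖h 0‖ + 2 * y * ‖h 1‖) :=
              (norm_sub_le _ _).trans (add_le_add buz bu)
            gcongr
        _ = (4 / β) * k * (4 * y ^ 2 * ‖h 0‖ + 2 * y * ‖h 1‖ + y ^ 2) := by rw [hk]; ring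
        _ ≤ _ := by gcongr
    have E2 : ‖h 1 - z 1‖ ≤ k * (2 * y * (‖hz00‖ + ‖h 0 - hz00‖) + (y + ‖h 1 - z 1‖) + y) := by
      calc ‖h 1 - z 1‖ = ‖ε‖ * ‖v z - fderiv ℂ v z h‖ := by
            conv_lhs => rw [a1]
            rw [norm_mul]
        _ ≤ ‖ε‖ * (c * y + c * (2 * y * ‖h 0‖ + ‖h 1‖)) := by
            have : ‖v z - fderiv ℂ v z h‖ ≤ c * y + c * (2 * y * ‖h 0‖ + ‖h 1‖) :=
              (norm_sub_le _ _).trans (add_le_add bvz bv)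
            gcongr
        _ = k * (2 * y * ‖h 0‖ + ‖h 1‖ + y) := by rw [hk]; ring
        _ ≤ _ := by gcongr
    have RE := real_est x y β ‖hz00‖ ‖h 0 - hz00‖ ‖h 1 - z 1‖ k hx0 hy0 g1 g2 (norm_nonneg _) (norm_nonneg _)
      (norm_nonneg _) hk0 hε hH E1 E2
    rw [inner2]
    have hsplit : h 0 * conj (z 0) + h 1 * conj (z 1) = hz00 * conj (z 0) + z 1 * conj (z 1) +
        ((h 0 - hz00) * conj (z 0) + (h 1 - z 1) * conj (z 1)) := by ring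
    rw [hsplit, Complex.add_re, Complex.add_re, Complex.add_re]
    have m1 : (hz00 * conj (z 0)).re = x ^ 2 * (1 - x ^ 4) / β ^ 2 := main_re (z 0)
    have m2 : (z 1 * conj (z 1)).re = y ^ 2 := by
      rw [Complex.mul_conj, Complex.ofReal_re, Complex.normSq_eq_norm_sq]
    have m3 : -(x * ‖h 0 - hz00‖) ≤ ((h 0 - hz00) * conj (z 0)).re := by
      have := Complex.abs_re_le_norm ((h 0 - hz00) * conj (z 0))
      rw [norm_mul, RCLike.norm_conj] at this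
      have := (abs_le.mp this).1
      linarith
    have m4 : -(y * ‖h 1 - z 1‖) ≤ ((h 1 - z 1) * conj (z 1)).re := by
      have := Complex.abs_re_le_norm ((h 1 - z 1) * conj (z 1))
      rw [norm_mul, RCLike.norm_conj] at this
      have := (abs_le.mp this).1
      linarith
    rw [m1, m2]
    have hx1 : x ^ 2 < 1 := by nlinarith [sq_nonneg y]
    have hxy : y ^ 2 ≤ 1 - x ^ 4 := by nlinarith [sq_nonneg x]
    have T1 : x ^ 2 * y ^ 2 / β ^ 2 ≤ x ^ 2 * (1 - x ^ 4) / β ^ 2 := by gcongr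
    have hpos : 0 < x ^ 2 * (1 - x ^ 4) / β ^ 2 + y ^ 2 := by
      rcases hx0.eq_or_lt with h0 | h0
      · have hy1 : y ≠ 0 := by
          intro hy1
          apply hz0
          apply ext2
          · exact norm_eq_zero.mp h0.symm
          · exact norm_eq_zero.mp hy1
        have : 0 < y ^ 2 := by positivity
        have : 0 ≤ x ^ 2 * (1 - x ^ 4) / β ^ 2 := by
          have : 0 ≤ 1 - x ^ 4 := by nlinarith [sq_nonneg y]
          positivity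
        linarith
      · have : 0 < 1 - x ^ 4 := by nlinarith [sq_nonneg x]
        have : 0 < x ^ 2 * (1 - x ^ 4) / β ^ 2 := by positivity
        nlinarith [sq_nonneg y]
    have hk108 : 108 * k ≤ 1 / 2 := by linarith
    have T2 : 108 * k * (x ^ 2 * y ^ 2 / β ^ 2 + y ^ 2) ≤ 1 / 2 * (x ^ 2 * (1 - x ^ 4) / β ^ 2 + y ^ 2) := by
      have : 0 ≤ x ^ 2 * y ^ 2 / β ^ 2 + y ^ 2 := by positivity
      gcongr
    linarith

end Pool.Agent.H26.SP
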