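import Mathlib
import Pool.Agent.H26.SP1

set_option autoImplicit false
set_option linter.style.haveILetI false

open Metric Set Filter Topology
open scoped ComplexConjugate

namespace Pool.Agent.H26.SP

/-- Schwarz, first order -/
theorem SW1 (h : ℂ → ℂ) (s M : ℝ) (hs : 0 < s) (hd : DifferentiableOn ℂ h (ball 0 s)) (h0 : h 0 = 0)
    (hM : ∀ t ∈ ball (0 : ℂ) s, ‖h t‖ ≤ M) (t : ℂ) (ht : ‖t‖ < s) : ‖h t‖ ≤ M / s * ‖t‖ := by
  have h1 := Complex.dist_le_div_mul_dist_of_mapsTo_ball (f := h) (c := 0) (z := t) (R₁ := s) (R₂ := M) hd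
    (fun w hw => by rw [h0, mem_closedBall_zero_iff]; exact hM w hw) (mem_ball_zero_iff.mpr ht)
  rw [h0, dist_zero_right, dist_zero_right] at h1
  exact h1

/-- Schwarz, second order, for even functions -/
theorem SW2 (h : ℂ → ℂ) (s M : ℝ) (hs : 0 < s) (hd : DifferentiableOn ℂ h (ball 0 s)) (h0 : h 0 = 0)
    (heven : ∀ t, h (-t) = h t)
    (hM : ∀ t ∈ ball (0 : ℂ) s, ‖h t‖ ≤ M) (t : ℂ) (ht : ‖t‖ < s) : ‖h t‖ ≤ M / s ^ 2 * ‖t‖ ^ 2 := by
  have hd0 : DifferentiableAt ℂ h 0 := hd.differentiableAt (ball_mem_nhds 0 hs)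
  have hder : deriv h 0 = 0 := by
    have h1 : HasDerivAt (fun t => h (-t)) (-(deriv h 0)) 0 := by
      have h2 : HasDerivAt h (deriv h 0) (-(0 : ℂ)) := by rw [neg_zero]; exact hd0.hasDerivAt
      have h3 : HasDerivAt (fun t : ℂ => -t) (-1) 0 := (hasDerivAt_id (0 : ℂ)).neg
      have h5 := h2.comp (0 : ℂ) h3
      have e5 : deriv h 0 * (-1) = -(deriv h 0) := by ring
      rw [e5] at h5
      exact h5
    have h2 : (fun t => h (-t)) = h := funext heven
    rw [h2] at h1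
    have h3 := h1.unique hd0.hasDerivAt
    have h4 : (2 : ℂ) * deriv h 0 = 0 := by linear_combination -h3
    simpa using h4
  have h1 := Complex.dist_le_mul_div_pow_of_mapsTo_ball_of_isLittleO (f := h) (c := 0) (z := t) (R₁ := s) (R₂ := M)
    (n := 1) hd
    (fun w hw => by rw [h0, mem_closedBall_zero_iff]; exact hM w hw)
    (by
      have h2 := hd0.hasDerivAt
      rw [hder, hasDerivAt_iff_isLittleO] at h2
      simp only [smul_zero, sub_zero] at h2
      simp only [pow_one, sub_zero]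
      exact h2.norm_right)
    (mem_ball_zero_iff.mpr ht)
  rw [h0, dist_zero_right, dist_zero_right] at h1
  calc ‖h t‖ ≤ M * (‖t‖ / s) ^ (1 + 1) := h1
    _ = M / s ^ 2 * ‖t‖ ^ 2 := by rw [div_pow]; ring

/-- uniform Lipschitz bound on a smaller ball -/
theorem lipG (G : E → E) (R R2 : ℝ) (hR2 : 0 < R2) (hR : R2 < R) (hG : DifferentiableOn ℂ G (ball 0 R)) :
    ∃ Λ : ℝ, 0 ≤ Λ ∧ ∀ z ∈ ball (0 : E) R2, ∀ w ∈ ball (0 : E) R2, ‖G z - G w‖ ≤ Λ * ‖z - w‖ := by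
  set R1 := (R2 + R) / 2 with hR1
  have h1 : R2 < R1 := by rw [hR1]; linarith
  have h2 : R1 < R := by rw [hR1]; linarith
  obtain ⟨M, hM⟩ := (isCompact_closedBall (0 : E) R1).exists_bound_of_continuousOn
    (hG.continuousOn.mono (closedBall_subset_ball h2))
  set δ := R1 - R2 with hδ
  have hδ0 : 0 < δ := by rw [hδ]; linarith
  have hM0 : 0 ≤ M := (norm_nonneg _).trans (hM 0 (by simp; linarith))
  refine ⟨2 * M / δ, by positivity, ?_⟩
  intro z hz w hw
  have hder : ∀ x ∈ ball (0 : E) R2, ‖fderiv ℂ G x‖ ≤ 2 * M / δ := by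
    intro x hx
    rw [mem_ball_zero_iff] at hx
    have hsub : ball x δ ⊆ closedBall (0 : E) R1 := by
      intro y hy
      rw [mem_ball, dist_eq_norm] at hy
      rw [mem_closedBall_zero_iff]
      have := norm_add_le (y - x) x
      rw [sub_add_cancel] at this
      rw [hδ] at hy
      linarith
    apply Complex.norm_fderiv_le_div_of_mapsTo_ball (R₁ := δ) (R₂ := 2 * M)
    · exact hG.mono (hsub.trans (closedBall_subset_ball h2))
    · intro y hy
      rw [mem_closedBall, dist_eq_norm]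
      have a1 := hM y (hsub hy)
      have a2 := hM x (hsub (mem_ball_self hδ0))
      have := norm_sub_le (G y) (G x)
      linarith
    · exact hδ0
  have := (convex_ball (0 : E) R2).norm_image_sub_le_of_norm_fderiv_le (𝕜 := ℂ) (f := G)
    (fun x hx => hG.differentiableAt (isOpen_ball.mem_nhds (ball_subset_ball hR.le hx))) hder hw hz
  exact this

theorem vec_ball {a b : ℂ} {r : ℝ} (hr : 0 < r) : vec a b ∈ ball (0 : E) r ↔ ‖a‖ ^ 2 + ‖b‖ ^ 2 < r ^ 2 := by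
  rw [ball_iff _ _ hr]; rfl

theorem vec_sub0 (a a' b : ℂ) : ‖vec a b - vec a' b‖ = ‖a - a'‖ := by
  have h := nsq (vec a b - vec a' b)
  have e0 : (vec a b - vec a' b) 0 = a - a' := rfl
  have e1 : (vec a b - vec a' b) 1 = b - b := rfl
  rw [e0, e1, sub_self, norm_zero] at h
  have h2 : ‖vec a b - vec a' b‖ ^ 2 = ‖a - a'‖ ^ 2 := by rw [h]; ring
  exact (sq_eq_sq₀ (norm_nonneg _) (norm_nonneg _)).mp h2

theorem vec_sub1 (a b b' : ℂ) : ‖vec a b - vec a b'‖ = ‖b - b'‖ := by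
  have h := nsq (vec a b - vec a b')
  have e0 : (vec a b - vec a b') 0 = a - a := rfl
  have e1 : (vec a b - vec a b') 1 = b - b' := rfl
  rw [e0, e1, sub_self, norm_zero] at h
  have h2 : ‖vec a b - vec a b'‖ ^ 2 = ‖b - b'‖ ^ 2 := by rw [h]; ring
  exact (sq_eq_sq₀ (norm_nonneg _) (norm_nonneg _)).mp h2

theorem vec_diff0 (b : ℂ) : Differentiable ℂ (fun t : ℂ => vec t b) := by
  rw [differentiable_euclidean]
  intro i
  fin_cases i
  · exact differentiable_id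
  · exact differentiable_const _

theorem vec_diff1 (a : ℂ) (c : ℂ) : Differentiable ℂ (fun t : ℂ => vec a (c * t)) := by
  rw [differentiable_euclidean]
  intro i
  fin_cases i
  · exact differentiable_const _
  · exact (differentiable_id.const_mul c)

/-- even part of the first coordinate, normalised -/
noncomputable def UU (G : E → E) (a b : ℂ) : ℂ := ((G (vec a b)) 0 + (G (vec a (-b))) 0) / 2 - (G (vec a 0)) 0
/-- odd part of the second coordinate, normalised -/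
noncomputable def VV (G : E → E) (a b : ℂ) : ℂ := ((G (vec a b)) 1 - (G (vec a (-b))) 1) / 2 - b

theorem coord_le0 (x y : E) : ‖x 0 - y 0‖ ≤ ‖x - y‖ := n0 (x - y)
theorem coord_le1 (x y : E) : ‖x 1 - y 1‖ ≤ ‖x - y‖ := n1 (x - y)

section bounds

variable (G : E → E) (R R2 Λ : ℝ) (h1R2 : 1 < R2) (hR : R2 < R) (hG : DifferentiableOn ℂ G (ball 0 R))
  (hΛ0 : 0 ≤ Λ) (hΛ : ∀ z ∈ ball (0 : E) R2, ∀ w ∈ ball (0 : E) R2, ‖G z - G w‖ ≤ Λ * ‖z - w‖)

include h1R2 hR hG in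
theorem slice_diff (a : ℂ) (ha : ‖a‖ < 1) (c : ℂ) (hc : ‖c‖ ≤ 1) (i : Fin 2) :
    DifferentiableOn ℂ (fun t => (G (vec a (c * t))) i) (ball 0 (Real.sqrt (R2 ^ 2 - 1))) := by
  have h1 : DifferentiableOn ℂ (fun t => G (vec a (c * t))) (ball 0 (Real.sqrt (R2 ^ 2 - 1))) := by
    apply hG.comp (vec_diff1 a c).differentiableOn
    intro t ht
    rw [mem_ball_zero_iff] at ht
    have ht2 : ‖t‖ ^ 2 < R2 ^ 2 - 1 := by
      rw [← Real.lt_sqrt (norm_nonneg _)]; exact ht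
    apply ball_subset_ball hR.le
    rw [vec_ball (by linarith), norm_mul]
    have : ‖c‖ * ‖t‖ ≤ ‖t‖ := mul_le_of_le_one_left (norm_nonneg _) hc
    nlinarith [norm_nonneg a, norm_nonneg t, mul_nonneg (norm_nonneg c) (norm_nonneg t)]
  exact (differentiableOn_euclidean.mp h1) i

include h1R2 hR hG hΛ0 hΛ in
theorem UU_a (a a' b : ℂ) (h1 : ‖a‖ ^ 2 + ‖b‖ ^ 2 < 1) (h2 : ‖a'‖ ^ 2 + ‖b‖ ^ 2 < 1) :
    ‖UU G a b - UU G a' b‖ ≤ (2 * Λ) / (Real.sqrt (R2 ^ 2 - 1)) ^ 2 * ‖b‖ ^ 2 * ‖a - a'‖ := by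
  set s := Real.sqrt (R2 ^ 2 - 1) with hs
  have hs0 : 0 < s := Real.sqrt_pos.mpr (by nlinarith)
  have hs2 : s ^ 2 = R2 ^ 2 - 1 := Real.sq_sqrt (by nlinarith)
  have ha : ‖a‖ < 1 := by nlinarith [norm_nonneg a, sq_nonneg ‖b‖]
  have ha' : ‖a'‖ < 1 := by nlinarith [norm_nonneg a', sq_nonneg ‖b‖]
  have hbd : ∀ t : ℂ, ‖a‖ ^ 2 + ‖t‖ ^ 2 < R2 ^ 2 → ‖a'‖ ^ 2 + ‖t‖ ^ 2 < R2 ^ 2 →
      ‖UU G a t - UU G a' t‖ ≤ 2 * Λ * ‖a - a'‖ := by
    intro t ht ht'
    have k : ∀ x : ℂ, ‖x‖ ^ 2 ≤ ‖t‖ ^ 2 → ‖(G (vec a x)) 0 - (G (vec a' x)) 0‖ ≤ Λ * ‖a - a'‖ := by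
      intro x hx
      refine (coord_le0 _ _).trans ?_
      have := hΛ (vec a x) ((vec_ball (by linarith)).mpr (by linarith)) (vec a' x) ((vec_ball (by linarith)).mpr (by linarith))
      rwa [vec_sub0] at this
    have k1 := k t le_rfl
    have k2 := k (-t) (by rw [norm_neg])
    have k3 := k 0 (by rw [norm_zero]; nlinarith [norm_nonneg t])
    have e : UU G a t - UU G a' t = ((G (vec a t)) 0 - (G (vec a' t)) 0) / 2 +
        ((G (vec a (-t))) 0 - (G (vec a' (-t))) 0) / 2 - ((G (vec a 0)) 0 - (G (vec a' 0)) 0) := by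
      unfold UU; ring
    rw [e]
    calc _ ≤ ‖((G (vec a t)) 0 - (G (vec a' t)) 0) / 2 + ((G (vec a (-t))) 0 - (G (vec a' (-t))) 0) / 2‖ +
          ‖(G (vec a 0)) 0 - (G (vec a' 0)) 0‖ := norm_sub_le _ _
      _ ≤ (‖((G (vec a t)) 0 - (G (vec a' t)) 0) / 2‖ + ‖((G (vec a (-t))) 0 - (G (vec a' (-t))) 0) / 2‖) +
          ‖(G (vec a 0)) 0 - (G (vec a' 0)) 0‖ := by gcongr; exact norm_add_le _ _
      _ ≤ 2 * Λ * ‖a - a'‖ := by
          rw [norm_div, norm_div, Complex.norm_ofNat]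
          linarith
  have hbnn : 0 ≤ ‖b‖ := norm_nonneg _
  rcases lt_or_ge ‖b‖ s with hb | hb
  · have := SW2 (fun t => UU G a t - UU G a' t) s (2 * Λ * ‖a - a'‖) hs0 (by
        have d1 := slice_diff G R R2 h1R2 hR hG a ha 1 (by simp) 0
        have d2 := slice_diff G R R2 h1R2 hR hG a ha (-1) (by simp) 0
        have d3 := slice_diff G R R2 h1R2 hR hG a' ha' 1 (by simp) 0
        have d4 := slice_diff G R R2 h1R2 hR hG a' ha' (-1) (by simp) 0
        have := (((d1.add d2).div_const 2).sub_const ((G (vec a 0)) 0)).sub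
          (((d3.add d4).div_const 2).sub_const ((G (vec a' 0)) 0))
        refine this.congr (fun t _ => ?_)
        simp only [UU, one_mul, neg_mul, Pi.add_apply, Pi.sub_apply])
      (by simp only [UU, neg_zero]; ring) (by
        intro t
        simp only [UU, neg_neg]; ring)
      (by
        intro t ht
        rw [mem_ball_zero_iff] at ht
        have : ‖t‖ ^ 2 < s ^ 2 := by nlinarith [norm_nonneg t]
        apply hbd t <;> nlinarith [norm_nonneg a, norm_nonneg a']) b hb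
    calc ‖UU G a b - UU G a' b‖ ≤ 2 * Λ * ‖a - a'‖ / s ^ 2 * ‖b‖ ^ 2 := this
      _ = _ := by ring
  · have h3 := hbd b (by nlinarith) (by nlinarith)
    refine h3.trans ?_
    have h4 : 1 ≤ ‖b‖ ^ 2 / s ^ 2 := by
      rw [one_le_div (by positivity)]
      exact pow_le_pow_left₀ hs0.le hb 2
    calc 2 * Λ * ‖a - a'‖ ≤ 2 * Λ * ‖a - a'‖ * (‖b‖ ^ 2 / s ^ 2) := le_mul_of_one_le_right (by positivity) h4
      _ = _ := by ring

include h1R2 hR hG hΛ0 hΛ in
theorem UU_b (a b b' : ℂ) (h1 : ‖a‖ ^ 2 + ‖b‖ ^ 2 < 1) (h2 : ‖a‖ ^ 2 + ‖b'‖ ^ 2 < 1) :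
    ‖UU G a b - UU G a b'‖ ≤ Λ * (1 / Real.sqrt (R2 ^ 2 - 1) + 1 / Real.sqrt (R2 ^ 2 - 1)) * (‖b‖ + ‖b'‖) * ‖b - b'‖ := by
  set s := Real.sqrt (R2 ^ 2 - 1) with hs
  have hs0 : 0 < s := Real.sqrt_pos.mpr (by nlinarith)
  have hs2 : s ^ 2 = R2 ^ 2 - 1 := Real.sq_sqrt (by nlinarith)
  have ha : ‖a‖ < 1 := by nlinarith [norm_nonneg a, sq_nonneg ‖b‖]
  -- radius of the full slice
  set r := Real.sqrt (R2 ^ 2 - ‖a‖ ^ 2) with hr
  have hr2 : r ^ 2 = R2 ^ 2 - ‖a‖ ^ 2 := Real.sq_sqrt (by nlinarith [norm_nonneg a])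
  have hr0 : 0 < r := Real.sqrt_pos.mpr (by nlinarith [norm_nonneg a])
  have hsr : s ≤ r := Real.sqrt_le_sqrt (by nlinarith [norm_nonneg a])
  have hin : ∀ t : ℂ, ‖t‖ < r → vec a t ∈ ball (0 : E) R2 := by
    intro t ht
    rw [vec_ball (by linarith)]
    have : ‖t‖ ^ 2 < r ^ 2 := by nlinarith [norm_nonneg t]
    linarith
  have hdG : ∀ (c : ℂ), ‖c‖ ≤ 1 → DifferentiableOn ℂ (fun t => (G (vec a (c * t))) 0) (ball 0 r) := by
    intro c hc
    have h1 : DifferentiableOn ℂ (fun t => G (vec a (c * t))) (ball 0 r) := by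
      apply hG.comp (vec_diff1 a c).differentiableOn
      intro t ht
      rw [mem_ball_zero_iff] at ht
      apply ball_subset_ball hR.le
      apply hin
      rw [norm_mul]
      exact lt_of_le_of_lt (mul_le_of_le_one_left (norm_nonneg _) hc) ht
    exact (differentiableOn_euclidean.mp h1) 0
  have hdk : DifferentiableOn ℂ (fun t => UU G a t) (ball 0 r) := by
    have := (((hdG 1 (by simp)).add (hdG (-1) (by simp))).div_const 2).sub_const ((G (vec a 0)) 0)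
    refine this.congr (fun t _ => ?_)
    simp only [UU, one_mul, neg_mul, Pi.add_apply]
  -- Lipschitz in t
  have hlip : ∀ t ∈ ball (0 : ℂ) r, ∀ t' ∈ ball (0 : ℂ) r, ‖UU G a t - UU G a t'‖ ≤ Λ * ‖t - t'‖ := by
    intro t ht t' ht'
    rw [mem_ball_zero_iff] at ht ht'
    have k1 : ‖(G (vec a t)) 0 - (G (vec a t')) 0‖ ≤ Λ * ‖t - t'‖ := by
      refine (coord_le0 _ _).trans ?_
      have := hΛ (vec a t) (hin t ht) (vec a t') (hin t' ht')
      rwa [vec_sub1] at this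
    have k2 : ‖(G (vec a (-t))) 0 - (G (vec a (-t'))) 0‖ ≤ Λ * ‖t - t'‖ := by
      refine (coord_le0 _ _).trans ?_
      have := hΛ (vec a (-t)) (hin (-t) (by rwa [norm_neg])) (vec a (-t')) (hin (-t') (by rwa [norm_neg]))
      rw [vec_sub1] at this
      have e : -t - -t' = -(t - t') := by ring
      rwa [e, norm_neg] at this
    have e : UU G a t - UU G a t' = ((G (vec a t)) 0 - (G (vec a t')) 0) / 2 +
        ((G (vec a (-t))) 0 - (G (vec a (-t'))) 0) / 2 := by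
      unfold UU; ring
    rw [e]
    refine (norm_add_le _ _).trans ?_
    rw [norm_div, norm_div, Complex.norm_ofNat]
    linarith
  have hderbd : ∀ t ∈ ball (0 : ℂ) r, ‖deriv (fun t => UU G a t) t‖ ≤ Λ := by
    intro t ht
    have hd := (hdk.differentiableAt (isOpen_ball.mem_nhds ht)).hasDerivAt
    apply HasDerivAt.le_of_lip' hd hΛ0
    filter_upwards [isOpen_ball.mem_nhds ht] with x hx
    exact hlip x hx t ht
  have hdd : DifferentiableOn ℂ (deriv (fun t => UU G a t)) (ball 0 r) := hdk.deriv isOpen_ball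
  have heven : ∀ t, UU G a (-t) = UU G a t := by intro t; unfold UU; rw [neg_neg]; ring
  have hder0 : deriv (fun t => UU G a t) 0 = 0 := by
    have hd0 : DifferentiableAt ℂ (fun t => UU G a t) 0 := hdk.differentiableAt (ball_mem_nhds 0 hr0)
    have h1 : HasDerivAt (fun t => UU G a (-t)) (-(deriv (fun t => UU G a t) 0)) 0 := by
      have h2 : HasDerivAt (fun t => UU G a t) (deriv (fun t => UU G a t) 0) (-(0 : ℂ)) := by
        rw [neg_zero]; exact hd0.hasDerivAt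
      have h3 : HasDerivAt (fun t : ℂ => -t) (-1) 0 := (hasDerivAt_id (0 : ℂ)).neg
      have h5 := h2.comp (0 : ℂ) h3
      have e5 : deriv (fun t => UU G a t) 0 * (-1) = -(deriv (fun t => UU G a t) 0) := by ring
      rw [e5] at h5
      exact h5
    have h2 : (fun t => UU G a (-t)) = fun t => UU G a t := funext heven
    rw [h2] at h1
    have h3 := h1.unique hd0.hasDerivAt
    have h4 : (2 : ℂ) * deriv (fun t => UU G a t) 0 = 0 := by linear_combination -h3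
    simpa using h4
  have hderlin : ∀ t ∈ ball (0 : ℂ) r, ‖deriv (fun t => UU G a t) t‖ ≤ Λ / s * ‖t‖ := by
    intro t ht
    rw [mem_ball_zero_iff] at ht
    have h1 := SW1 (deriv (fun t => UU G a t)) r Λ hr0 hdd hder0 hderbd t ht
    refine h1.trans ?_
    gcongr
  set m := max ‖b‖ ‖b'‖ with hm
  have hmr : m < r := by
    rw [hm, max_lt_iff]
    constructor
    · exact Real.lt_sqrt_of_sq_lt (by nlinarith)
    · exact Real.lt_sqrt_of_sq_lt (by nlinarith)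
  have hm0 : 0 ≤ m := (norm_nonneg b).trans (le_max_left _ _)
  have hsub : closedBall (0 : ℂ) m ⊆ ball 0 r := closedBall_subset_ball hmr
  have := (convex_closedBall (0 : ℂ) m).norm_image_sub_le_of_norm_deriv_le (𝕜 := ℂ) (f := fun t => UU G a t)
    (C := Λ / s * m) (fun x hx => hdk.differentiableAt (isOpen_ball.mem_nhds (hsub hx)))
    (fun x hx => by
      refine (hderlin x (hsub hx)).trans ?_
      rw [mem_closedBall_zero_iff] at hx
      gcongr)
    (mem_closedBall_zero_iff.mpr (le_max_right ‖b‖ ‖b'‖)) (mem_closedBall_zero_iff.mpr (le_max_left ‖b‖ ‖b'‖))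
  refine this.trans ?_
  have hmle : m ≤ ‖b‖ + ‖b'‖ := max_le (by linarith [norm_nonneg b']) (by linarith [norm_nonneg b])
  have : Λ / s * m ≤ Λ * (1 / s + 1 / s) * (‖b‖ + ‖b'‖) := by
    have h3 : Λ / s * m ≤ Λ / s * (‖b‖ + ‖b'‖) := by gcongr
    have h4 : Λ / s * (‖b‖ + ‖b'‖) ≤ Λ * (1 / s + 1 / s) * (‖b‖ + ‖b'‖) := by
      have : Λ * (1 / s + 1 / s) = 2 * (Λ / s) := by ring
      rw [this]
      have : 0 ≤ Λ / s * (‖b‖ + ‖b'‖) := by positivity
      linarith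
    exact h3.trans h4
  gcongr

include h1R2 hR hG hΛ0 hΛ in
theorem VV_a (a a' b : ℂ) (h1 : ‖a‖ ^ 2 + ‖b‖ ^ 2 < 1) (h2 : ‖a'‖ ^ 2 + ‖b‖ ^ 2 < 1) :
    ‖VV G a b - VV G a' b‖ ≤ Λ / (Real.sqrt (R2 ^ 2 - 1)) * ‖b‖ * ‖a - a'‖ := by
  set s := Real.sqrt (R2 ^ 2 - 1) with hs
  have hs0 : 0 < s := Real.sqrt_pos.mpr (by nlinarith)
  have hs2 : s ^ 2 = R2 ^ 2 - 1 := Real.sq_sqrt (by nlinarith)
  have ha : ‖a‖ < 1 := by nlinarith [norm_nonneg a, sq_nonneg ‖b‖]
  have ha' : ‖a'‖ < 1 := by nlinarith [norm_nonneg a', sq_nonneg ‖b‖]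
  have hbd : ∀ t : ℂ, ‖a‖ ^ 2 + ‖t‖ ^ 2 < R2 ^ 2 → ‖a'‖ ^ 2 + ‖t‖ ^ 2 < R2 ^ 2 →
      ‖VV G a t - VV G a' t‖ ≤ Λ * ‖a - a'‖ := by
    intro t ht ht'
    have k : ∀ x : ℂ, ‖x‖ ^ 2 ≤ ‖t‖ ^ 2 → ‖(G (vec a x)) 1 - (G (vec a' x)) 1‖ ≤ Λ * ‖a - a'‖ := by
      intro x hx
      refine (coord_le1 _ _).trans ?_
      have := hΛ (vec a x) ((vec_ball (by linarith)).mpr (by linarith)) (vec a' x) ((vec_ball (by linarith)).mpr (by linarith))
      rwa [vec_sub0] at this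
    have k1 := k t le_rfl
    have k2 := k (-t) (by rw [norm_neg])
    have e : VV G a t - VV G a' t = ((G (vec a t)) 1 - (G (vec a' t)) 1) / 2 -
        ((G (vec a (-t))) 1 - (G (vec a' (-t))) 1) / 2 := by
      unfold VV; ring
    rw [e]
    refine (norm_sub_le _ _).trans ?_
    rw [norm_div, norm_div, Complex.norm_ofNat]
    linarith
  rcases lt_or_ge ‖b‖ s with hb | hb
  · have := SW1 (fun t => VV G a t - VV G a' t) s (Λ * ‖a - a'‖) hs0 (by
        have d1 := slice_diff G R R2 h1R2 hR hG a ha 1 (by simp) 1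
        have d2 := slice_diff G R R2 h1R2 hR hG a ha (-1) (by simp) 1
        have d3 := slice_diff G R R2 h1R2 hR hG a' ha' 1 (by simp) 1
        have d4 := slice_diff G R R2 h1R2 hR hG a' ha' (-1) (by simp) 1
        have := ((d1.sub d2).div_const 2).sub ((d3.sub d4).div_const 2)
        refine this.congr (fun t _ => ?_)
        simp only [VV, one_mul, neg_mul, Pi.sub_apply]
        ring)
      (by simp only [VV, neg_zero]; ring)
      (by
        intro t ht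
        rw [mem_ball_zero_iff] at ht
        have : ‖t‖ ^ 2 < s ^ 2 := by nlinarith [norm_nonneg t]
        apply hbd t <;> nlinarith [norm_nonneg a, norm_nonneg a']) b hb
    calc ‖VV G a b - VV G a' b‖ ≤ Λ * ‖a - a'‖ / s * ‖b‖ := this
      _ = _ := by ring
  · have h3 := hbd b (by nlinarith) (by nlinarith)
    refine h3.trans ?_
    have h4 : 1 ≤ ‖b‖ / s := by rw [one_le_div hs0]; exact hb
    calc Λ * ‖a - a'‖ ≤ Λ * ‖a - a'‖ * (‖b‖ / s) := le_mul_of_one_le_right (by positivity) h4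
      _ = _ := by ring

include h1R2 hΛ in
theorem VV_b (a b b' : ℂ) (h1 : ‖a‖ ^ 2 + ‖b‖ ^ 2 < 1) (h2 : ‖a‖ ^ 2 + ‖b'‖ ^ 2 < 1) :
    ‖VV G a b - VV G a b'‖ ≤ (Λ + 1) * ‖b - b'‖ := by
  have hin : ∀ t : ℂ, ‖a‖ ^ 2 + ‖t‖ ^ 2 < 1 → vec a t ∈ ball (0 : E) R2 := by
    intro t ht
    rw [vec_ball (by linarith)]
    nlinarith
  have k1 : ‖(G (vec a b)) 1 - (G (vec a b')) 1‖ ≤ Λ * ‖b - b'‖ := by
    refine (coord_le1 _ _).trans ?_
    have := hΛ (vec a b) (hin b h1) (vec a b') (hin b' h2)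
    rwa [vec_sub1] at this
  have k2 : ‖(G (vec a (-b))) 1 - (G (vec a (-b'))) 1‖ ≤ Λ * ‖b - b'‖ := by
    refine (coord_le1 _ _).trans ?_
    have := hΛ (vec a (-b)) (hin (-b) (by rwa [norm_neg])) (vec a (-b')) (hin (-b') (by rwa [norm_neg]))
    rw [vec_sub1] at this
    have e : -b - -b' = -(b - b') := by ring
    rwa [e, norm_neg] at this
  have e : VV G a b - VV G a b' = ((G (vec a b)) 1 - (G (vec a b')) 1) / 2 -
      ((G (vec a (-b))) 1 - (G (vec a (-b'))) 1) / 2 - (b - b') := by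
    unfold VV; ring
  rw [e]
  calc _ ≤ ‖((G (vec a b)) 1 - (G (vec a b')) 1) / 2 - ((G (vec a (-b))) 1 - (G (vec a (-b'))) 1) / 2‖ + ‖b - b'‖ :=
        norm_sub_le _ _
    _ ≤ (‖((G (vec a b)) 1 - (G (vec a b')) 1) / 2‖ + ‖((G (vec a (-b))) 1 - (G (vec a (-b'))) 1) / 2‖) + ‖b - b'‖ := by
        gcongr; exact norm_sub_le _ _
    _ ≤ (Λ + 1) * ‖b - b'‖ := by
        rw [norm_div, norm_div, Complex.norm_ofNat]
        linarith

end bounds

end Pool.Agent.H26.SP
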