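import Mathlib
import Pool.Agent.H26.SP2
import Pool.Agent.H26.SP3

set_option autoImplicit false
set_option linter.style.haveILetI false

open Metric Set Filter Topology
open scoped ComplexConjugate

namespace Pool.Agent.H26.SP

/-- the reflection in the second coordinate -/
noncomputable def sg : E →L[ℂ] E :=
  (PiLp.continuousLinearEquiv 2 ℂ (fun _ : Fin 2 => ℂ)).symm.toContinuousLinearMap.comp
    (ContinuousLinearMap.pi ![p0, -p1])

@[simp] theorem sg0 (z : E) : (sg z) 0 = z 0 := rfl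
@[simp] theorem sg1 (z : E) : (sg z) 1 = -(z 1) := rfl

/-- the projection on the first axis -/
noncomputable def pj : E →L[ℂ] E :=
  (PiLp.continuousLinearEquiv 2 ℂ (fun _ : Fin 2 => ℂ)).symm.toContinuousLinearMap.comp
    (ContinuousLinearMap.pi ![p0, 0])

@[simp] theorem pj0 (z : E) : (pj z) 0 = z 0 := rfl
@[simp] theorem pj1 (z : E) : (pj z) 1 = 0 := rfl

theorem sg_eq (z : E) : sg z = vec (z 0) (-(z 1)) := ext2 rfl rfl
theorem pj_eq (z : E) : pj z = vec (z 0) 0 := ext2 rfl rfl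
theorem sg_sg (z : E) : sg (sg z) = z := ext2 rfl (by simp)

theorem sg_ball {z : E} {r : ℝ} (hr : 0 < r) : sg z ∈ ball (0 : E) r ↔ z ∈ ball (0 : E) r := by
  rw [ball_iff _ _ hr, ball_iff _ _ hr, sg0, sg1, norm_neg]

theorem pj_ball {z : E} {r : ℝ} (hr : 0 < r) (hz : z ∈ ball (0 : E) r) : pj z ∈ ball (0 : E) r := by
  rw [ball_iff _ _ hr] at hz ⊢
  rw [pj0, pj1, norm_zero]
  nlinarith [sq_nonneg ‖z 1‖]

theorem split_pt {z w : E} (hz : z ∈ ball (0 : E) 1) (hw : w ∈ ball (0 : E) 1) :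
    ‖w 0‖ ^ 2 + ‖z 1‖ ^ 2 < 1 ∨ ‖z 0‖ ^ 2 + ‖w 1‖ ^ 2 < 1 := by
  rw [ball_iff _ _ one_pos] at hz hw
  by_contra hcon
  push Not at hcon
  linarith [hcon.1, hcon.2]

/-- the bounds needed for the perturbation lemma -/
theorem bds (G : E → E) (R : ℝ) (hR : 1 < R) (hG : DifferentiableOn ℂ G (ball 0 R)) :
    ∃ c : ℝ, 0 ≤ c ∧
      (∀ z ∈ ball (0 : E) 1, ∀ w ∈ ball (0 : E) 1,
        ‖UU G (z 0) (z 1) - UU G (w 0) (w 1)‖ ≤
          c * ((‖z 1‖ + ‖w 1‖) ^ 2 * ‖z 0 - w 0‖ + (‖z 1‖ + ‖w 1‖) * ‖z 1 - w 1‖)) ∧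
      (∀ z ∈ ball (0 : E) 1, ∀ w ∈ ball (0 : E) 1,
        ‖VV G (z 0) (z 1) - VV G (w 0) (w 1)‖ ≤
          c * ((‖z 1‖ + ‖w 1‖) * ‖z 0 - w 0‖ + ‖z 1 - w 1‖)) := by
  obtain ⟨R2, h1R2, hR2⟩ := exists_between hR
  obtain ⟨Λ, hΛ0, hΛ⟩ := lipG G R R2 (by linarith) hR2 hG
  set s := Real.sqrt (R2 ^ 2 - 1) with hs
  have hs0 : 0 < s := Real.sqrt_pos.mpr (by nlinarith)
  set A := (2 * Λ) / s ^ 2 with hA
  set B := Λ * (1 / s + 1 / s) with hB
  set D := Λ / s with hD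
  have hA0 : 0 ≤ A := by positivity
  have hB0 : 0 ≤ B := by positivity
  have hD0 : 0 ≤ D := by positivity
  have hz1' : ∀ z ∈ ball (0 : E) 1, ‖z 0‖ ^ 2 + ‖z 1‖ ^ 2 < 1 := by
    intro z hz
    rw [ball_iff _ _ one_pos] at hz
    linarith
  refine ⟨A + B + D + (Λ + 1), by positivity, ?_, ?_⟩
  · intro z hz w hw
    have hz1 := hz1' z hz
    have hw1 := hz1' w hw
    have a0 : 0 ≤ ‖z 0 - w 0‖ := norm_nonneg _
    have a1 : 0 ≤ ‖z 1 - w 1‖ := norm_nonneg _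
    have a2 : 0 ≤ ‖z 1‖ := norm_nonneg _
    have a3 : 0 ≤ ‖w 1‖ := norm_nonneg _
    have key : ‖UU G (z 0) (z 1) - UU G (w 0) (w 1)‖ ≤
        A * ((‖z 1‖ + ‖w 1‖) ^ 2 * ‖z 0 - w 0‖) + B * ((‖z 1‖ + ‖w 1‖) * ‖z 1 - w 1‖) := by
      rcases split_pt hz hw with h | h
      · have k1 := UU_a G R R2 Λ h1R2 hR2 hG hΛ0 hΛ (z 0) (w 0) (z 1) hz1 h
        have k2 := UU_b G R R2 Λ h1R2 hR2 hG hΛ0 hΛ (w 0) (z 1) (w 1) h hw1
        have k3 : UU G (z 0) (z 1) - UU G (w 0) (w 1) =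
            (UU G (z 0) (z 1) - UU G (w 0) (z 1)) + (UU G (w 0) (z 1) - UU G (w 0) (w 1)) := by ring
        rw [k3]
        refine (norm_add_le _ _).trans ?_
        have k4 : A * ‖z 1‖ ^ 2 * ‖z 0 - w 0‖ ≤ A * ((‖z 1‖ + ‖w 1‖) ^ 2 * ‖z 0 - w 0‖) := by
          rw [mul_assoc]
          have : ‖z 1‖ ^ 2 ≤ (‖z 1‖ + ‖w 1‖) ^ 2 := by nlinarith
          gcongr
        have k5 : B * (‖z 1‖ + ‖w 1‖) * ‖z 1 - w 1‖ = B * ((‖z 1‖ + ‖w 1‖) * ‖z 1 - w 1‖) := by ring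
        linarith
      · have k1 := UU_a G R R2 Λ h1R2 hR2 hG hΛ0 hΛ (z 0) (w 0) (w 1) h hw1
        have k2 := UU_b G R R2 Λ h1R2 hR2 hG hΛ0 hΛ (z 0) (z 1) (w 1) hz1 h
        have k3 : UU G (z 0) (z 1) - UU G (w 0) (w 1) =
            (UU G (z 0) (z 1) - UU G (z 0) (w 1)) + (UU G (z 0) (w 1) - UU G (w 0) (w 1)) := by ring
        rw [k3]
        refine (norm_add_le _ _).trans ?_
        have k4 : A * ‖w 1‖ ^ 2 * ‖z 0 - w 0‖ ≤ A * ((‖z 1‖ + ‖w 1‖) ^ 2 * ‖z 0 - w 0‖) := by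
          rw [mul_assoc]
          have : ‖w 1‖ ^ 2 ≤ (‖z 1‖ + ‖w 1‖) ^ 2 := by nlinarith
          gcongr
        have k5 : B * (‖z 1‖ + ‖w 1‖) * ‖z 1 - w 1‖ = B * ((‖z 1‖ + ‖w 1‖) * ‖z 1 - w 1‖) := by ring
        linarith
    refine key.trans ?_
    have b1 : 0 ≤ (‖z 1‖ + ‖w 1‖) ^ 2 * ‖z 0 - w 0‖ := by positivity
    have b2 : 0 ≤ (‖z 1‖ + ‖w 1‖) * ‖z 1 - w 1‖ := by positivity
    nlinarith [mul_nonneg hA0 b2, mul_nonneg hB0 b1, mul_nonneg hD0 b1, mul_nonneg hD0 b2,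
      mul_nonneg (add_nonneg hΛ0 zero_le_one) b1, mul_nonneg (add_nonneg hΛ0 zero_le_one) b2]
  · intro z hz w hw
    have hz1 := hz1' z hz
    have hw1 := hz1' w hw
    have a0 : 0 ≤ ‖z 0 - w 0‖ := norm_nonneg _
    have a1 : 0 ≤ ‖z 1 - w 1‖ := norm_nonneg _
    have a2 : 0 ≤ ‖z 1‖ := norm_nonneg _
    have a3 : 0 ≤ ‖w 1‖ := norm_nonneg _
    have key : ‖VV G (z 0) (z 1) - VV G (w 0) (w 1)‖ ≤
        D * ((‖z 1‖ + ‖w 1‖) * ‖z 0 - w 0‖) + (Λ + 1) * ‖z 1 - w 1‖ := by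
      rcases split_pt hz hw with h | h
      · have k1 := VV_a G R R2 Λ h1R2 hR2 hG hΛ0 hΛ (z 0) (w 0) (z 1) hz1 h
        have k2 := VV_b G R2 Λ h1R2 hΛ (w 0) (z 1) (w 1) h hw1
        have k3 : VV G (z 0) (z 1) - VV G (w 0) (w 1) =
            (VV G (z 0) (z 1) - VV G (w 0) (z 1)) + (VV G (w 0) (z 1) - VV G (w 0) (w 1)) := by ring
        rw [k3]
        refine (norm_add_le _ _).trans ?_
        have k4 : D * ‖z 1‖ * ‖z 0 - w 0‖ ≤ D * ((‖z 1‖ + ‖w 1‖) * ‖z 0 - w 0‖) := by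
          rw [mul_assoc]
          have : ‖z 1‖ ≤ (‖z 1‖ + ‖w 1‖) := by linarith
          gcongr
        linarith
      · have k1 := VV_a G R R2 Λ h1R2 hR2 hG hΛ0 hΛ (z 0) (w 0) (w 1) h hw1
        have k2 := VV_b G R2 Λ h1R2 hΛ (z 0) (z 1) (w 1) hz1 h
        have k3 : VV G (z 0) (z 1) - VV G (w 0) (w 1) =
            (VV G (z 0) (z 1) - VV G (z 0) (w 1)) + (VV G (z 0) (w 1) - VV G (w 0) (w 1)) := by ring
        rw [k3]
        refine (norm_add_le _ _).trans ?_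
        have k4 : D * ‖w 1‖ * ‖z 0 - w 0‖ ≤ D * ((‖z 1‖ + ‖w 1‖) * ‖z 0 - w 0‖) := by
          rw [mul_assoc]
          have : ‖w 1‖ ≤ (‖z 1‖ + ‖w 1‖) := by linarith
          gcongr
        linarith
    refine key.trans ?_
    have b1 : 0 ≤ (‖z 1‖ + ‖w 1‖) * ‖z 0 - w 0‖ := by positivity
    nlinarith [mul_nonneg hA0 b1, mul_nonneg hB0 b1, mul_nonneg hA0 a1, mul_nonneg hB0 a1, mul_nonneg hD0 a1,
      mul_nonneg (add_nonneg hΛ0 zero_le_one) b1]

theorem fst_diff {G : E → E} {s : Set E} (h : DifferentiableOn ℂ G s) (i : Fin 2) :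
    DifferentiableOn ℂ (fun z => (G z) i) s := (differentiableOn_euclidean.mp h) i

theorem UU_diff (G : E → E) (hG : DifferentiableOn ℂ G (ball 0 1)) :
    DifferentiableOn ℂ (fun z : E => UU G (z 0) (z 1)) (ball 0 1) := by
  have d1 := fst_diff hG 0
  have d2 : DifferentiableOn ℂ (fun z => (G (sg z)) 0) (ball 0 1) :=
    d1.comp sg.differentiable.differentiableOn (fun z hz => (sg_ball one_pos).mpr hz)
  have d3 : DifferentiableOn ℂ (fun z => (G (pj z)) 0) (ball 0 1) :=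
    d1.comp pj.differentiable.differentiableOn (fun z hz => pj_ball one_pos hz)
  have d4 : DifferentiableOn ℂ (fun z => ((G z) 0 + (G (sg z)) 0) / 2) (ball 0 1) :=
    ((d1.add d2).const_mul ((1 : ℂ) / 2)).congr (fun z _ => by simp only [Pi.add_apply]; ring)
  refine (d4.sub d3).congr (fun z _ => ?_)
  simp only [UU, Pi.sub_apply, sg_eq, pj_eq, vec_eta]

theorem VV_diff (G : E → E) (hG : DifferentiableOn ℂ G (ball 0 1)) :
    DifferentiableOn ℂ (fun z : E => VV G (z 0) (z 1)) (ball 0 1) := by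
  have d1 := fst_diff hG 1
  have d2 : DifferentiableOn ℂ (fun z => (G (sg z)) 1) (ball 0 1) :=
    d1.comp sg.differentiable.differentiableOn (fun z hz => (sg_ball one_pos).mpr hz)
  have d3 : DifferentiableOn ℂ (fun z : E => z 1) (ball 0 1) := p1.differentiable.differentiableOn
  have d4 : DifferentiableOn ℂ (fun z => ((G z) 1 - (G (sg z)) 1) / 2) (ball 0 1) :=
    ((d1.sub d2).const_mul ((1 : ℂ) / 2)).congr (fun z _ => by simp only [Pi.sub_apply]; ring)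
  refine (d4.sub d3).congr (fun z _ => ?_)
  simp only [VV, Pi.sub_apply, sg_eq, vec_eta]

theorem VV_fd (G : E → E) (hG : DifferentiableOn ℂ G (ball 0 1))
    (hG' : fderiv ℂ G 0 = ContinuousLinearMap.id ℂ E) :
    fderiv ℂ (fun z : E => VV G (z 0) (z 1)) 0 = 0 := by
  have h1 : HasFDerivAt G (ContinuousLinearMap.id ℂ E) 0 := by
    rw [← hG']
    exact (hG.differentiableAt (ball_mem_nhds 0 one_pos)).hasFDerivAt
  have h2 : HasFDerivAt (fun z => (G z) 1) (p1.comp (ContinuousLinearMap.id ℂ E)) 0 :=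
    p1.hasFDerivAt.comp 0 h1
  have h3 : HasFDerivAt (fun z => (G (sg z)) 1) ((p1.comp (ContinuousLinearMap.id ℂ E)).comp sg) 0 := by
    have : HasFDerivAt (fun z => (G z) 1) (p1.comp (ContinuousLinearMap.id ℂ E)) (sg 0) := by
      rw [map_zero]; exact h2
    exact this.comp 0 sg.hasFDerivAt
  have h4 : HasFDerivAt (fun z : E => VV G (z 0) (z 1))
      ((2 : ℂ)⁻¹ • (p1.comp (ContinuousLinearMap.id ℂ E) - (p1.comp (ContinuousLinearMap.id ℂ E)).comp sg) - p1) 0 := by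
    have h5 := (((h2.sub h3).const_smul ((2 : ℂ)⁻¹)).sub (p1.hasFDerivAt (x := (0 : E))))
    refine h5.congr_of_eventuallyEq (Filter.Eventually.of_forall (fun z => ?_))
    simp only [VV, Pi.sub_apply, Pi.smul_apply, sg_eq, vec_eta, p1_apply, smul_eq_mul]
    ring
  rw [h4.fderiv]
  ext w
  simp only [ContinuousLinearMap.sub_apply, ContinuousLinearMap.smul_apply, ContinuousLinearMap.comp_apply,
    ContinuousLinearMap.id_apply, p1_apply, sg1, smul_eq_mul, ContinuousLinearMap.zero_apply]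
  ring

/-- dilation of `g` -/
noncomputable def dil (g : E → E) (ρ : ℝ) : E → E := fun z => ((ρ : ℂ)⁻¹) • g ((ρ : ℂ) • z)

theorem smul_ball {ρ : ℝ} (hρ : 0 < ρ) {z : E} {r : ℝ} (hz : z ∈ ball (0 : E) r) :
    (ρ : ℂ) • z ∈ ball (0 : E) (ρ * r) := by
  rw [mem_ball_zero_iff] at hz ⊢
  rw [norm_smul, Complex.norm_real, Real.norm_eq_abs, abs_of_pos hρ]
  gcongr

theorem dil_diff (g : E → E) (ρ : ℝ) (hρ : 0 < ρ) (hg : DifferentiableOn ℂ g (ball 0 1)) :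
    DifferentiableOn ℂ (dil g ρ) (ball 0 (1 / ρ)) := by
  have h1 : DifferentiableOn ℂ (fun z : E => g ((ρ : ℂ) • z)) (ball 0 (1 / ρ)) := by
    apply hg.comp
    · exact ((differentiable_id (𝕜 := ℂ) (E := E)).const_smul (ρ : ℂ)).differentiableOn
    · intro z hz
      have := smul_ball hρ hz
      rwa [mul_one_div_cancel hρ.ne'] at this
  exact h1.const_smul ((ρ : ℂ)⁻¹)

theorem dil_fd (g : E → E) (ρ : ℝ) (hρ : 0 < ρ) (hρ1 : ρ < 1) (hg : DifferentiableOn ℂ g (ball 0 1))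
    (z : E) (hz : z ∈ ball (0 : E) 1) : fderiv ℂ (dil g ρ) z = fderiv ℂ g ((ρ : ℂ) • z) := by
  have hz2 : (ρ : ℂ) • z ∈ ball (0 : E) 1 := by
    have := smul_ball hρ hz
    exact ball_subset_ball (by linarith) this
  have h1 : HasFDerivAt g (fderiv ℂ g ((ρ : ℂ) • z)) ((ρ : ℂ) • z) :=
    (hg.differentiableAt (isOpen_ball.mem_nhds hz2)).hasFDerivAt
  have h2 : HasFDerivAt (fun z : E => (ρ : ℂ) • z) ((ρ : ℂ) • ContinuousLinearMap.id ℂ E) z :=
    (hasFDerivAt_id z).const_smul (ρ : ℂ)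
  have h3 := (h1.comp z h2).const_smul ((ρ : ℂ)⁻¹)
  have h4 : HasFDerivAt (dil g ρ) ((ρ : ℂ)⁻¹ • (fderiv ℂ g ((ρ : ℂ) • z)).comp ((ρ : ℂ) • ContinuousLinearMap.id ℂ E)) z := h3
  rw [h4.fderiv]
  have hρc : (ρ : ℂ) ≠ 0 := by exact_mod_cast hρ.ne'
  ext1 w
  simp only [ContinuousLinearMap.smul_apply, ContinuousLinearMap.comp_apply, ContinuousLinearMap.id_apply, map_smul]
  rw [smul_smul, inv_mul_cancel₀ hρc, one_smul]

theorem dil_SC (g : E → E) (ρ : ℝ) (hρ : 0 < ρ) (hρ1 : ρ < 1) (hg : SC g) : SC (dil g ρ) := by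
  obtain ⟨h1, h2, h3, h4, h5⟩ := hg
  have hρc : (ρ : ℂ) ≠ 0 := by exact_mod_cast hρ.ne'
  have hin : ∀ z ∈ ball (0 : E) 1, (ρ : ℂ) • z ∈ ball (0 : E) 1 := by
    intro z hz
    have := smul_ball hρ hz
    exact ball_subset_ball (by linarith) this
  refine ⟨(dil_diff g ρ hρ h1).mono (ball_subset_ball ?_), ?_, ?_, ?_, ?_⟩
  · rw [le_div_iff₀ hρ]; linarith
  · intro z hz w hw hzw
    unfold dil at hzw
    have e1 := smul_right_injective E (inv_ne_zero hρc) hzw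
    have e2 := h2 (hin z hz) (hin w hw) e1
    exact smul_right_injective E hρc e2
  · unfold dil; rw [smul_zero, h3, smul_zero]
  · rw [dil_fd g ρ hρ hρ1 h1 0 (by simp), smul_zero, h4]
  · intro z hz hz0
    rw [dil_fd g ρ hρ hρ1 h1 z hz]
    have h6 := h5 ((ρ : ℂ) • z) (hin z hz) (smul_ne_zero hρc hz0)
    unfold dil
    rw [map_smul, inner_smul_right]
    rw [inner_smul_left] at h6
    set y := inner ℂ z ((fderiv ℂ g ((ρ : ℂ) • z)).inverse (g ((ρ : ℂ) • z))) with hy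
    have e1 : conj (ρ : ℂ) = (ρ : ℂ) := Complex.conj_ofReal ρ
    rw [e1, Complex.re_ofReal_mul] at h6
    have e2 : ((ρ : ℂ)⁻¹ : ℂ) = ((ρ⁻¹ : ℝ) : ℂ) := by push_cast; rfl
    rw [e2, Complex.re_ofReal_mul]
    have : 0 < y.re := by
      rcases pos_and_pos_or_neg_and_neg_of_mul_pos h6 with h | h
      · exact h.2
      · linarith [h.1]
    positivity

/-- `sg` as an equivalence -/
noncomputable def sgE : E ≃L[ℂ] E := ContinuousLinearEquiv.equivOfInverse sg sg sg_sg sg_sg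

theorem sgE_coe : (sgE : E →L[ℂ] E) = sg := by ext z; rfl
theorem sgE_symm_coe : (sgE.symm : E →L[ℂ] E) = sg := by ext z; rfl

theorem inner_sg (z w : E) : inner ℂ z (sg w) = inner ℂ (sg z) w := by
  rw [inner2, inner2, sg0, sg1, sg0, sg1, map_neg]; ring

theorem sg_SC (g : E → E) (hg : SC g) : SC (fun z => sg (g (sg z))) := by
  obtain ⟨h1, h2, h3, h4, h5⟩ := hg
  have hfd : ∀ z ∈ ball (0 : E) 1, fderiv ℂ (fun z => sg (g (sg z))) z = sg.comp ((fderiv ℂ g (sg z)).comp sg) := by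
    intro z hz
    have k1 : HasFDerivAt g (fderiv ℂ g (sg z)) (sg z) :=
      (h1.differentiableAt (isOpen_ball.mem_nhds ((sg_ball one_pos).mpr hz))).hasFDerivAt
    have k2 : HasFDerivAt (fun z => sg (g (sg z))) (sg.comp ((fderiv ℂ g (sg z)).comp sg)) z :=
      sg.hasFDerivAt.comp z (k1.comp z sg.hasFDerivAt)
    exact k2.fderiv
  refine ⟨?_, ?_, ?_, ?_, ?_⟩
  · have d1 : DifferentiableOn ℂ (fun z => g (sg z)) (ball 0 1) :=
      h1.comp sg.differentiable.differentiableOn (fun z hz => (sg_ball one_pos).mpr hz)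
    exact sg.differentiable.comp_differentiableOn d1
  · intro z hz w hw hzw
    have e1 : sg (sg (g (sg z))) = sg (sg (g (sg w))) := congrArg sg hzw
    rw [sg_sg, sg_sg] at e1
    have e2 := h2 ((sg_ball one_pos).mpr hz) ((sg_ball one_pos).mpr hw) e1
    have e3 : sg (sg z) = sg (sg w) := congrArg sg e2
    rwa [sg_sg, sg_sg] at e3
  · show sg (g (sg 0)) = 0
    rw [map_zero, h3, map_zero]
  · rw [hfd 0 (by simp), map_zero, h4]
    ext1 w
    simp only [ContinuousLinearMap.comp_apply, ContinuousLinearMap.id_apply]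
    exact sg_sg w
  · intro z hz hz0
    rw [hfd z hz]
    have hsz0 : sg z ≠ 0 := by
      intro h
      apply hz0
      rw [← sg_sg z, h, map_zero]
    have h6 := h5 (sg z) ((sg_ball one_pos).mpr hz) hsz0
    have e : (sg.comp ((fderiv ℂ g (sg z)).comp sg)).inverse = sg.comp ((fderiv ℂ g (sg z)).inverse.comp sg) := by
      have e1 : sg.comp ((fderiv ℂ g (sg z)).comp sg) =
          (sgE : E →L[ℂ] E).comp ((fderiv ℂ g (sg z)).comp (sgE : E →L[ℂ] E)) := by rw [sgE_coe]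
      rw [e1, ContinuousLinearMap.inverse_equiv_comp, ContinuousLinearMap.inverse_comp_equiv, sgE_symm_coe]
      rfl
    rw [e]
    simp only [ContinuousLinearMap.comp_apply]
    rw [sg_sg, inner_sg]
    exact h6

end Pool.Agent.H26.SP
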