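import Mathlib
import Pool.Agent.H26.SP4

set_option autoImplicit false
set_option linter.style.haveILetI false

open Metric Set Filter Topology
open scoped ComplexConjugate

namespace Pool.Agent.H26.SP

/-- continuous linear functional data -/
structure LF (L : (E → E) → ℂ) (ρ0 C : ℝ) : Prop where
  add : ∀ g₁ g₂ : E → E, DifferentiableOn ℂ g₁ (ball 0 1) → DifferentiableOn ℂ g₂ (ball 0 1) →
    L (g₁ + g₂) = L g₁ + L g₂
  smul : ∀ (c : ℂ) (g : E → E), DifferentiableOn ℂ g (ball 0 1) → L (c • g) = c * L g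
  h0 : 0 < ρ0
  h1 : ρ0 < 1
  hC : 0 ≤ C
  bd : ∀ g : E → E, DifferentiableOn ℂ g (ball 0 1) → ∀ M : ℝ, (∀ x ∈ closedBall (0 : E) ρ0, ‖g x‖ ≤ M) → ‖L g‖ ≤ C * M

variable {L : (E → E) → ℂ} {ρ0 C : ℝ}

theorem LF.sub_bd (hL : LF L ρ0 C) {g₁ g₂ : E → E} (h₁ : DifferentiableOn ℂ g₁ (ball 0 1))
    (h₂ : DifferentiableOn ℂ g₂ (ball 0 1)) (M : ℝ) (h : ∀ x ∈ closedBall (0 : E) ρ0, ‖g₁ x - g₂ x‖ ≤ M) :
    ‖L g₁ - L g₂‖ ≤ C * M := by
  have h3 : DifferentiableOn ℂ ((-1 : ℂ) • g₂) (ball 0 1) := h₂.const_smul (-1 : ℂ)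
  have e : L g₁ - L g₂ = L (g₁ + (-1 : ℂ) • g₂) := by
    rw [hL.add _ _ h₁ h3, hL.smul _ _ h₂]; ring
  rw [e]
  apply hL.bd _ (h₁.add h3)
  intro x hx
  have : (g₁ + (-1 : ℂ) • g₂) x = g₁ x - g₂ x := by
    rw [Pi.add_apply, Pi.smul_apply, neg_smul, one_smul, sub_eq_add_neg]
  rw [this]
  exact h x hx

theorem LF.congr (hL : LF L ρ0 C) {g₁ g₂ : E → E} (h₁ : DifferentiableOn ℂ g₁ (ball 0 1))
    (h₂ : DifferentiableOn ℂ g₂ (ball 0 1)) (h : ∀ x ∈ ball (0 : E) 1, g₁ x = g₂ x) : L g₁ = L g₂ := by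
  have := hL.sub_bd h₁ h₂ 0 (fun x hx => by
    rw [h x (closedBall_subset_ball hL.h1 hx), sub_self, norm_zero])
  rw [mul_zero] at this
  exact sub_eq_zero.mp (norm_le_zero_iff.mp this)

/-- embedding of one-variable functions -/
noncomputable def ee (φ : ℂ → ℂ) : E → E := fun z => vec (φ (z 0)) 0

theorem z0_ball {z : E} {r : ℝ} (hz : z ∈ ball (0 : E) r) : z 0 ∈ ball (0 : ℂ) r := by
  rw [mem_ball_zero_iff] at hz ⊢
  exact lt_of_le_of_lt (n0 z) hz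

theorem z0_cball {z : E} {r : ℝ} (hz : z ∈ closedBall (0 : E) r) : z 0 ∈ closedBall (0 : ℂ) r := by
  rw [mem_closedBall_zero_iff] at hz ⊢
  exact (n0 z).trans hz

theorem comp0_diff {φ : ℂ → ℂ} (h : DifferentiableOn ℂ φ (ball 0 1)) :
    DifferentiableOn ℂ (fun z : E => φ (z 0)) (ball 0 1) :=
  h.comp p0.differentiable.differentiableOn (fun _ hz => z0_ball hz)

theorem ee_diff {φ : ℂ → ℂ} (h : DifferentiableOn ℂ φ (ball 0 1)) : DifferentiableOn ℂ (ee φ) (ball 0 1) :=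
  diffOn (comp0_diff h) (differentiableOn_const 0)

theorem ee_add (φ ψ : ℂ → ℂ) : ee (φ + ψ) = ee φ + ee ψ := by
  funext z
  apply ext2
  · rfl
  · show (0 : ℂ) = 0 + 0
    rw [add_zero]

theorem ee_smul (c : ℂ) (φ : ℂ → ℂ) : ee (c • φ) = c • ee φ := by
  funext z
  apply ext2
  · rfl
  · show (0 : ℂ) = c • 0
    rw [smul_zero]

theorem LF.ee_bd (hL : LF L ρ0 C) {φ ψ : ℂ → ℂ} (h₁ : DifferentiableOn ℂ φ (ball 0 1))
    (h₂ : DifferentiableOn ℂ ψ (ball 0 1)) (M : ℝ) (h : ∀ ζ ∈ closedBall (0 : ℂ) ρ0, ‖φ ζ - ψ ζ‖ ≤ M) :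
    ‖L (ee φ) - L (ee ψ)‖ ≤ C * M := by
  apply hL.sub_bd (ee_diff h₁) (ee_diff h₂)
  intro x hx
  show ‖vec (φ (x 0)) 0 - vec (ψ (x 0)) 0‖ ≤ M
  rw [vec_sub0]
  exact h _ (z0_cball hx)

theorem LF.ee_zero (hL : LF L ρ0 C) : L (ee 0) = 0 := by
  have h : ee (0 : ℂ → ℂ) = (0 : ℂ) • ee 0 := by
    rw [← ee_smul, zero_smul]
  have hd : DifferentiableOn ℂ (0 : ℂ → ℂ) (ball 0 1) := differentiableOn_const (0 : ℂ)
  rw [h, hL.smul 0 _ (ee_diff hd), zero_mul]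

theorem LF.ee_bd0 (hL : LF L ρ0 C) {φ : ℂ → ℂ} (h₁ : DifferentiableOn ℂ φ (ball 0 1))
    (M : ℝ) (h : ∀ ζ ∈ closedBall (0 : ℂ) ρ0, ‖φ ζ‖ ≤ M) : ‖L (ee φ)‖ ≤ C * M := by
  have := hL.ee_bd (ψ := 0) h₁ (differentiableOn_const (0 : ℂ)) M (fun ζ hζ => by
    rw [Pi.zero_apply, sub_zero]; exact h ζ hζ)
  rwa [hL.ee_zero, sub_zero] at this

theorem LF.TL (hL : LF L ρ0 C) (φ : ℂ → ℂ) (hφ : DifferentiableOn ℂ φ (ball 0 1)) (F : ℕ → ℂ → ℂ)
    (hF : ∀ n, DifferentiableOn ℂ (F n) (ball 0 1)) (b : ℕ → ℝ) (hb : Summable b)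
    (hFb : ∀ n, ∀ ζ ∈ closedBall (0 : ℂ) ρ0, ‖F n ζ‖ ≤ b n)
    (hs : ∀ ζ ∈ closedBall (0 : ℂ) ρ0, HasSum (fun n => F n ζ) (φ ζ)) :
    HasSum (fun n => L (ee (F n))) (L (ee φ)) := by
  have hsum : Summable (fun n => L (ee (F n))) := by
    apply Summable.of_norm_bounded (hb.mul_left C)
    intro n
    exact hL.ee_bd0 (hF n) (b n) (hFb n)
  have hpd : ∀ N : ℕ, DifferentiableOn ℂ (∑ i ∈ Finset.range N, F i) (ball 0 1) := by
    intro N
    exact DifferentiableOn.sum (fun i _ => hF i)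
  have hpart : ∀ N : ℕ, L (ee (∑ i ∈ Finset.range N, F i)) = ∑ i ∈ Finset.range N, L (ee (F i)) := by
    intro N
    induction N with
    | zero => rw [Finset.sum_range_zero, Finset.sum_range_zero, hL.ee_zero]
    | succ n ih =>
      rw [Finset.sum_range_succ, Finset.sum_range_succ, ee_add, hL.add _ _ (ee_diff (hpd n)) (ee_diff (hF n)), ih]
  have htail : Tendsto (fun N => ∑' k, b (k + N)) atTop (𝓝 0) := tendsto_sum_nat_add b
  have hdiff : ∀ N : ℕ, ‖L (ee φ) - ∑ i ∈ Finset.range N, L (ee (F i))‖ ≤ C * ∑' k, b (k + N) := by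
    intro N
    rw [← hpart N]
    apply hL.ee_bd hφ (hpd N)
    intro ζ hζ
    have h1 : φ ζ - (∑ i ∈ Finset.range N, F i) ζ = ∑' k, F (k + N) ζ := by
      have h2 := (hs ζ hζ).summable.sum_add_tsum_nat_add N
      rw [(hs ζ hζ).tsum_eq] at h2
      rw [← h2, Finset.sum_apply]
      ring
    rw [h1]
    apply tsum_of_norm_bounded _ (fun k => hFb (k + N) ζ hζ)
    exact ((summable_nat_add_iff N).mpr hb).hasSum
  have ht : Tendsto (fun N => ∑ i ∈ Finset.range N, L (ee (F i))) atTop (𝓝 (L (ee φ))) := by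
    rw [tendsto_iff_norm_sub_tendsto_zero]
    apply squeeze_zero (fun _ => norm_nonneg _) (g := fun N => C * ∑' k, b (k + N))
    · intro N
      rw [norm_sub_rev]
      exact hdiff N
    · have := htail.const_mul C
      rwa [mul_zero] at this
  have := hsum.hasSum.tendsto_sum_nat
  rw [tendsto_nhds_unique ht this]
  exact hsum.hasSum

/-- functional on a function vanishing to second order, given that monomials vanish -/
theorem LF.ee_high (hL : LF L ρ0 C) (ha : ∀ n : ℕ, 2 ≤ n → L (ee (fun ζ => ζ ^ n)) = 0)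
    (γ : ℂ → ℂ) (hγ : DifferentiableOn ℂ γ (ball 0 1)) (h0 : γ 0 = 0) (h1 : deriv γ 0 = 0) : L (ee γ) = 0 := by
  set F : ℕ → ℂ → ℂ := fun n ζ => ((n.factorial : ℂ)⁻¹) • (ζ - 0) ^ n • iteratedDeriv n γ 0 with hF
  have hFe : ∀ n, F n = (((n.factorial : ℂ)⁻¹) * iteratedDeriv n γ 0) • (fun ζ : ℂ => ζ ^ n) := by
    intro n
    funext ζ
    simp only [hF, sub_zero, smul_eq_mul, Pi.smul_apply]
    ring
  have hFd : ∀ n, DifferentiableOn ℂ (F n) (ball 0 1) := by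
    intro n
    rw [hFe n]
    exact (differentiable_pow n).differentiableOn.const_smul _
  have hs : ∀ ζ ∈ ball (0 : ℂ) 1, HasSum (fun n => F n ζ) (γ ζ) := by
    intro ζ hζ
    exact Complex.hasSum_taylorSeries_on_ball (r := 1) (by simpa using hγ) (by simpa using hζ)
  have hρin : (ρ0 : ℂ) ∈ ball (0 : ℂ) 1 := by
    rw [mem_ball_zero_iff, Complex.norm_real, Real.norm_eq_abs, abs_of_pos hL.h0]; exact hL.h1
  have hb : Summable (fun n => ‖F n (ρ0 : ℂ)‖) := (hs _ hρin).summable.norm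
  have hFb : ∀ n, ∀ ζ ∈ closedBall (0 : ℂ) ρ0, ‖F n ζ‖ ≤ ‖F n (ρ0 : ℂ)‖ := by
    intro n ζ hζ
    rw [mem_closedBall_zero_iff] at hζ
    rw [hFe n, Pi.smul_apply, Pi.smul_apply, norm_smul, norm_smul, norm_pow, norm_pow, Complex.norm_real,
      Real.norm_eq_abs, abs_of_pos hL.h0]
    gcongr
  have key := hL.TL γ hγ F hFd _ hb hFb (fun ζ hζ => hs ζ (closedBall_subset_ball hL.h1 hζ))
  have hz : ∀ n, L (ee (F n)) = 0 := by
    intro n
    rw [hFe n, ee_smul, hL.smul _ _ (ee_diff (differentiable_pow n).differentiableOn)]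
    rcases n with _ | _ | n
    · rw [iteratedDeriv_zero, h0, mul_zero, zero_mul]
    · rw [zero_add, iteratedDeriv_one, h1, mul_zero, zero_mul]
    · rw [ha (n + 1 + 1) (by omega), mul_zero]
  rw [funext hz] at key
  exact key.unique hasSum_zero

end Pool.Agent.H26.SP
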