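import Mathlib
import Pool.Agent.H26.SP5

set_option autoImplicit false
set_option linter.style.haveILetI false

open Metric Set Filter Topology
open scoped ComplexConjugate

namespace Pool.Agent.H26.SP

/-- map acting on the first coordinate only -/
noncomputable def ff (φ : ℂ → ℂ) : E → E := fun z => vec (φ (z 0)) (z 1)

theorem ff_diff {φ : ℂ → ℂ} (h : DifferentiableOn ℂ φ (ball 0 1)) : DifferentiableOn ℂ (ff φ) (ball 0 1) :=
  diffOn (comp0_diff h) p1.differentiable.differentiableOn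

/-- derivative and its inverse for `ff` -/
theorem ff_fd {φ : ℂ → ℂ} {z : E} {d : ℂ} (hd : HasDerivAt φ d (z 0)) :
    (∀ w, (fderiv ℂ (ff φ) z w) 0 = d * w 0 ∧ (fderiv ℂ (ff φ) z w) 1 = w 1) ∧
    (d ≠ 0 → ∀ y, (fderiv ℂ (ff φ) z).inverse y = vec (y 0 / d) (y 1)) := by
  have h1 : HasFDerivAt (fun z : E => φ (z 0)) (d • p0) z := by
    have := hd.comp_hasFDerivAt z (p0.hasFDerivAt (x := z))
    exact this
  obtain ⟨D, hD, hDw⟩ := hasFD h1 (p1.hasFDerivAt (x := z))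
  have hDe : fderiv ℂ (ff φ) z = D := HasFDerivAt.fderiv hD
  rw [hDe]
  have hw : ∀ w, (D w) 0 = d * w 0 ∧ (D w) 1 = w 1 := by
    intro w
    refine ⟨?_, (hDw w).2⟩
    rw [(hDw w).1]
    rfl
  refine ⟨hw, ?_⟩
  intro hd0 y
  have hinj : ∀ w, D w = 0 → w = 0 := by
    intro w hw0
    apply ext2
    · have := (hw w).1
      rw [hw0] at this
      have h2 : d * w 0 = 0 := this.symm
      rcases mul_eq_zero.mp h2 with h | h
      · exact absurd h hd0
      · exact h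
    · have := (hw w).2
      rw [hw0] at this
      exact this.symm
  have hI := INV D hinj y
  have k := hw (D.inverse y)
  rw [hI] at k
  apply ext2
  · rw [vec0, k.1]; field_simp
  · rw [vec1, k.2]

theorem ff_SC {φ φ' : ℂ → ℂ} (hd : ∀ ζ ∈ ball (0 : ℂ) 1, HasDerivAt φ (φ' ζ) ζ) (hne : ∀ ζ ∈ ball (0 : ℂ) 1, φ' ζ ≠ 0)
    (h0 : φ 0 = 0) (h1 : φ' 0 = 1) (hinj : InjOn φ (ball 0 1))
    (hre : ∀ ζ ∈ ball (0 : ℂ) 1, ζ ≠ 0 → 0 < (φ ζ / φ' ζ * conj ζ).re) : SC (ff φ) := by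
  refine ⟨ff_diff (fun ζ hζ => (hd ζ hζ).differentiableAt.differentiableWithinAt), ?_, ?_, ?_, ?_⟩
  · intro z hz w hw hzw
    have e0 : φ (z 0) = φ (w 0) := congrArg (fun x : E => x 0) hzw
    have e1 : z 1 = w 1 := by
      have := congrArg (fun x : E => x 1) hzw
      exact this
    exact ext2 (hinj (z0_ball hz) (z0_ball hw) e0) e1
  · exact ext2 h0 rfl
  · have k := (ff_fd (φ := φ) (z := 0) (d := φ' 0) (hd 0 (by simp))).1
    ext1 w
    apply ext2
    · rw [(k w).1, h1, one_mul]; rfl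
    · rw [(k w).2]; rfl
  · intro z hz hz0
    have k := (ff_fd (φ := φ) (z := z) (d := φ' (z 0)) (hd _ (z0_ball hz))).2 (hne _ (z0_ball hz)) (ff φ z)
    rw [k, inner2, vec0, vec1]
    have e0 : (ff φ z) 0 = φ (z 0) := rfl
    have e1 : (ff φ z) 1 = z 1 := rfl
    rw [e0, e1, Complex.add_re, Complex.mul_conj, Complex.ofReal_re, Complex.normSq_eq_norm_sq]
    by_cases hz1 : z 0 = 0
    · have hz2 : z 1 ≠ 0 := fun h => hz0 (ext2 hz1 h)
      have : 0 < ‖z 1‖ ^ 2 := by positivity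
      rw [hz1, h0, zero_div, zero_mul, Complex.zero_re, zero_add]
      exact this
    · have := hre _ (z0_ball hz) hz1
      have : 0 ≤ ‖z 1‖ ^ 2 := by positivity
      linarith

/-- the family of one-variable starlike functions used -/
noncomputable def kk (s t : ℂ) : ℂ → ℂ := fun ζ => ζ / ((1 - s * ζ) * (1 - t * ζ))

theorem om_ne {s ζ : ℂ} (hs : ‖s‖ ≤ 1) (hζ : ‖ζ‖ < 1) : 1 - s * ζ ≠ 0 := by
  intro h
  have h1 : s * ζ = 1 := by linear_combination -h
  have h2 : ‖s‖ * ‖ζ‖ = 1 := by rw [← norm_mul, h1, norm_one]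
  nlinarith [norm_nonneg ζ, norm_nonneg s]

theorem cay_re {x : ℂ} (hx : ‖x‖ < 1) : 0 < ((1 + x) / (1 - x)).re := by
  have hne : 1 - x ≠ 0 := by
    have := om_ne (s := 1) (ζ := x) (by simp) hx
    rwa [one_mul] at this
  have hn : 0 < Complex.normSq (1 - x) := Complex.normSq_pos.mpr hne
  have hx2 : x.re * x.re + x.im * x.im < 1 := by
    have h1 : Complex.normSq x = ‖x‖ ^ 2 := Complex.normSq_eq_norm_sq x
    rw [Complex.normSq_apply] at h1
    nlinarith [norm_nonneg x]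
  rw [Complex.div_re, ← add_div]
  apply div_pos _ hn
  simp only [Complex.add_re, Complex.one_re, Complex.sub_re, Complex.add_im, Complex.one_im, Complex.sub_im]
  nlinarith

theorem kk_SC (s t : ℂ) (hs : ‖s‖ ≤ 1) (ht : ‖t‖ ≤ 1) : SC (ff (kk s t)) := by
  have hst : ‖s * t‖ ≤ 1 := by
    rw [norm_mul]; exact mul_le_one₀ hs (norm_nonneg _) ht
  have hst2 : ∀ ζ ∈ ball (0 : ℂ) 1, 1 - s * t * ζ ^ 2 ≠ 0 := by
    intro ζ hζ
    rw [mem_ball_zero_iff] at hζ
    apply om_ne hst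
    rw [norm_pow]
    nlinarith [norm_nonneg ζ]
  have hn : ∀ ζ ∈ ball (0 : ℂ) 1, (1 - s * ζ) ≠ 0 ∧ (1 - t * ζ) ≠ 0 := by
    intro ζ hζ
    rw [mem_ball_zero_iff] at hζ
    exact ⟨om_ne hs hζ, om_ne ht hζ⟩
  apply ff_SC (φ' := fun ζ => (1 - s * t * ζ ^ 2) / ((1 - s * ζ) * (1 - t * ζ)) ^ 2)
  · intro ζ hζ
    obtain ⟨n1, n2⟩ := hn ζ hζ
    have a1 : HasDerivAt (fun ζ : ℂ => 1 - s * ζ) (-s) ζ := by
      have := ((hasDerivAt_id ζ).const_mul s).const_sub 1
      simpa using this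
    have a2 : HasDerivAt (fun ζ : ℂ => 1 - t * ζ) (-t) ζ := by
      have := ((hasDerivAt_id ζ).const_mul t).const_sub 1
      simpa using this
    have a3 := (hasDerivAt_id ζ).div (a1.mul a2) (mul_ne_zero n1 n2)
    refine a3.congr_deriv ?_
    show ((1 : ℂ) * ((1 - s * ζ) * (1 - t * ζ)) - ζ * (-s * (1 - t * ζ) + (1 - s * ζ) * (-t))) /
      ((1 - s * ζ) * (1 - t * ζ)) ^ 2 = _
    congr 1
    ring
  · intro ζ hζ
    obtain ⟨n1, n2⟩ := hn ζ hζ
    exact div_ne_zero (hst2 ζ hζ) (pow_ne_zero 2 (mul_ne_zero n1 n2))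
  · simp [kk]
  · simp
  · intro a ha b hb hab
    obtain ⟨n1, n2⟩ := hn a ha
    obtain ⟨n3, n4⟩ := hn b hb
    unfold kk at hab
    rw [div_eq_div_iff (mul_ne_zero n1 n2) (mul_ne_zero n3 n4)] at hab
    have h1 : (a - b) * (1 - s * t * (a * b)) = 0 := by linear_combination hab
    rcases mul_eq_zero.mp h1 with h | h
    · exact sub_eq_zero.mp h
    · exfalso
      rw [mem_ball_zero_iff] at ha hb
      apply om_ne (s := s * t) (ζ := a * b) hst _ h
      rw [norm_mul]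
      nlinarith [norm_nonneg a, norm_nonneg b]
  · intro ζ hζ hζ0
    obtain ⟨n1, n2⟩ := hn ζ hζ
    have n3 := hst2 ζ hζ
    have hζ' := hζ
    rw [mem_ball_zero_iff] at hζ
    have e1 : (1 - s * t * ζ ^ 2) / ((1 - s * ζ) * (1 - t * ζ)) =
        (1 / 2 : ℝ) * ((1 + s * ζ) / (1 - s * ζ) + (1 + t * ζ) / (1 - t * ζ)) := by
      push_cast
      field_simp
      ring
    set q := (1 - s * t * ζ ^ 2) / ((1 - s * ζ) * (1 - t * ζ)) with hq
    have hq0 : q ≠ 0 := div_ne_zero n3 (mul_ne_zero n1 n2)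
    have hqre : 0 < q.re := by
      rw [e1, Complex.re_ofReal_mul, Complex.add_re]
      have b1 := cay_re (x := s * ζ) (by rw [norm_mul]; nlinarith [norm_nonneg s, norm_nonneg ζ])
      have b2 := cay_re (x := t * ζ) (by rw [norm_mul]; nlinarith [norm_nonneg t, norm_nonneg ζ])
      linarith
    have e2 : kk s t ζ / ((1 - s * t * ζ ^ 2) / ((1 - s * ζ) * (1 - t * ζ)) ^ 2) * conj ζ =
        ((‖ζ‖ ^ 2 : ℝ) : ℂ) * q⁻¹ := by
      have e3 : ζ * conj ζ = ((‖ζ‖ ^ 2 : ℝ) : ℂ) := by rw [Complex.mul_conj, Complex.normSq_eq_norm_sq]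
      rw [← e3, hq]
      unfold kk
      field_simp
    rw [e2, Complex.re_ofReal_mul, Complex.inv_re]
    have hns : 0 < Complex.normSq q := Complex.normSq_pos.mpr hq0
    have : 0 < ‖ζ‖ ^ 2 := by positivity
    positivity

theorem kk_diff (s t : ℂ) (hs : ‖s‖ ≤ 1) (ht : ‖t‖ ≤ 1) : DifferentiableOn ℂ (kk s t) (ball 0 1) := by
  apply DifferentiableOn.div differentiableOn_id
  · apply DifferentiableOn.mul
    · exact (differentiableOn_const (1 : ℂ)).sub ((differentiableOn_id).const_mul s)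
    · exact (differentiableOn_const (1 : ℂ)).sub ((differentiableOn_id).const_mul t)
  · intro ζ hζ
    rw [mem_ball_zero_iff] at hζ
    exact mul_ne_zero (om_ne hs hζ) (om_ne ht hζ)

theorem f1_diff : DifferentiableOn ℂ f1 (ball 0 1) := fun ζ hζ =>
  (f1_deriv (mem_ball_zero_iff.mp hζ)).differentiableAt.differentiableWithinAt

theorem ff_eq (φ : ℂ → ℂ) : ff φ = ee φ + ff 0 := by
  funext z
  apply ext2
  · show φ (z 0) = φ (z 0) + 0
    rw [add_zero]
  · show z 1 = 0 + z 1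
    rw [zero_add]

variable {L : (E → E) → ℂ} {ρ0 C : ℝ}

theorem LF.ff (hL : LF L ρ0 C) {φ : ℂ → ℂ} (h : DifferentiableOn ℂ φ (ball 0 1)) :
    L (ff φ) = L (ee φ) + L (SP.ff 0) := by
  have hd : DifferentiableOn ℂ (0 : ℂ → ℂ) (ball 0 1) := differentiableOn_const (0 : ℂ)
  rw [ff_eq, hL.add _ _ (ee_diff h) (ff_diff hd)]

/-- comparison with the extremal function -/
theorem LF.kk_le (hL : LF L ρ0 C) (hmax : ∀ g, SC g → (L g).re ≤ (L (SP.ff f1)).re) (s t : ℂ) (hs : ‖s‖ ≤ 1)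
    (ht : ‖t‖ ≤ 1) : (L (ee (kk s t))).re ≤ (L (ee f1)).re := by
  have h := hmax _ (kk_SC s t hs ht)
  rw [hL.ff (kk_diff s t hs ht), hL.ff f1_diff, Complex.add_re, Complex.add_re] at h
  linarith

theorem two_f1 (t : ℂ) (ht : ‖t‖ ≤ 1) {ζ : ℂ} (hζ : ‖ζ‖ < 1) :
    2 * f1 ζ = (1 - t) * kk 1 t ζ + t * kk t 0 ζ + kk 0 (-1) ζ := by
  unfold f1 kk
  have a1 := om_ne ht hζ
  have a2 := om_ne (s := 1) (by simp) hζ
  have a3 := om_ne (s := -1) (by simp) hζ
  have a4 := one_sub_ne hζ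
  have a5 : (1 : ℂ) - ζ ≠ 0 := by rwa [one_mul] at a2
  have a6 : (1 : ℂ) + ζ ≠ 0 := by
    have : (1 : ℂ) - -1 * ζ = 1 + ζ := by ring
    rwa [this] at a3
  have e1 : (1 : ℂ) - ζ ^ 2 = (1 - ζ) * (1 + ζ) := by ring
  have e2 : (1 : ℂ) - -1 * ζ = 1 + ζ := by ring
  have a7 : (1 : ℂ) - ζ * t ≠ 0 := by rwa [mul_comm]
  rw [e1, e2]
  simp only [one_mul, zero_mul, sub_zero, mul_one]
  field_simp
  ring

theorem LF.id_eq (hL : LF L ρ0 C) (hmax : ∀ g, SC g → (L g).re ≤ (L (SP.ff f1)).re) :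
    (L (ee f1)).re ≤ (L (ee (kk 0 0))).re := by
  have key : ∀ t : ℝ, 0 < t → t < 1 → (L (ee f1)).re ≤ (L (ee (kk 0 0))).re + C * (t * (1 / (1 - ρ0))) := by
    intro t ht0 ht1
    have htn : ‖(t : ℂ)‖ ≤ 1 := by
      rw [Complex.norm_real, Real.norm_eq_abs, abs_of_pos ht0]; exact ht1.le
    have d1 := kk_diff 1 t (by simp) htn
    have d2 := kk_diff t 0 htn (by simp)
    have d3 := kk_diff 0 (-1) (by simp) (by simp)
    have d0 := kk_diff 0 0 (by simp) (by simp)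
    -- convexity identity
    have e1 : L (ee ((2 : ℂ) • f1)) = L (ee (((1 - t : ℂ) • kk 1 t + (t : ℂ) • kk t 0) + kk 0 (-1))) := by
      apply hL.congr
      · exact ee_diff (f1_diff.const_smul (2 : ℂ))
      · exact ee_diff (((d1.const_smul (1 - t : ℂ)).add (d2.const_smul (t : ℂ))).add d3)
      · intro x hx
        have := two_f1 t htn (mem_ball_zero_iff.mp (z0_ball hx))
        apply ext2
        · show (2 : ℂ) • f1 (x 0) = (1 - t : ℂ) • kk 1 t (x 0) + (t : ℂ) • kk t 0 (x 0) + kk 0 (-1) (x 0)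
          rw [smul_eq_mul, smul_eq_mul, smul_eq_mul]
          exact this
        · rfl
    rw [ee_add, ee_add, ee_smul, ee_smul, ee_smul, hL.smul _ _ (ee_diff f1_diff),
      hL.add _ _ (((ee_diff d1).const_smul (1 - t : ℂ)).add ((ee_diff d2).const_smul (t : ℂ))) (ee_diff d3),
      hL.add _ _ ((ee_diff d1).const_smul (1 - t : ℂ)) ((ee_diff d2).const_smul (t : ℂ)),
      hL.smul _ _ (ee_diff d1), hL.smul _ _ (ee_diff d2)] at e1
    have e2 := congrArg Complex.re e1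
    have e3 : (1 - t : ℂ) = ((1 - t : ℝ) : ℂ) := by push_cast; ring
    have e4 : (2 : ℂ) = ((2 : ℝ) : ℂ) := by norm_num
    rw [e3, e4, Complex.add_re, Complex.add_re, Complex.re_ofReal_mul, Complex.re_ofReal_mul, Complex.re_ofReal_mul] at e2
    have m1 := hL.kk_le hmax 1 t (by simp) htn
    have m2 := hL.kk_le hmax 0 (-1) (by simp) (by simp)
    have m3 : (L (ee f1)).re ≤ (L (ee (kk t 0))).re := by
      have : (1 - t) * (L (ee (kk 1 t))).re ≤ (1 - t) * (L (ee f1)).re := by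
        apply mul_le_mul_of_nonneg_left m1; linarith
      have h5 : t * (L (ee f1)).re ≤ t * (L (ee (kk t 0))).re := by nlinarith
      exact le_of_mul_le_mul_left h5 ht0
    have m4 : ‖L (ee (kk t 0)) - L (ee (kk 0 0))‖ ≤ C * (t * (1 / (1 - ρ0))) := by
      apply hL.ee_bd d2 d0
      intro ζ hζ
      rw [mem_closedBall_zero_iff] at hζ
      have hζ1 : ‖ζ‖ < 1 := lt_of_le_of_lt hζ hL.h1
      have n1 := om_ne htn hζ1
      have e5 : kk t 0 ζ - kk 0 0 ζ = t * (ζ * ζ) * (1 - t * ζ)⁻¹ := by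
        have n1' : (1 : ℂ) - ζ * t ≠ 0 := by rwa [mul_comm]
        unfold kk
        simp only [zero_mul, sub_zero, mul_one, div_one]
        field_simp
        ring
      rw [e5, norm_mul, norm_mul, norm_mul, norm_inv, Complex.norm_real, Real.norm_eq_abs, abs_of_pos ht0]
      have n2 : 1 - ρ0 ≤ ‖1 - t * ζ‖ := by
        have := norm_sub_norm_le (1 : ℂ) (t * ζ)
        rw [norm_one, norm_mul, Complex.norm_real, Real.norm_eq_abs, abs_of_pos ht0] at this
        nlinarith [norm_nonneg ζ]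
      have n3 : 0 < 1 - ρ0 := by linarith [hL.h1]
      have n4 : ‖1 - t * ζ‖⁻¹ ≤ 1 / (1 - ρ0) := by
        rw [← one_div]
        exact one_div_le_one_div_of_le n3 n2
      have n5 : ‖ζ‖ * ‖ζ‖ ≤ 1 := by nlinarith [norm_nonneg ζ]
      calc t * (‖ζ‖ * ‖ζ‖) * ‖1 - t * ζ‖⁻¹ ≤ t * 1 * (1 / (1 - ρ0)) := by gcongr
        _ = t * (1 / (1 - ρ0)) := by ring
    have m5 := Complex.re_le_norm (L (ee (kk t 0)) - L (ee (kk 0 0)))
    rw [Complex.sub_re] at m5
    linarith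
  apply le_of_forall_pos_le_add
  intro η hη
  have n3 : 0 < 1 - ρ0 := by linarith [hL.h1]
  set t := min (1 / 2) (η / (C * (1 / (1 - ρ0)) + 1)) with ht
  have hC := hL.hC
  have hden : 0 < C * (1 / (1 - ρ0)) + 1 := by positivity
  have ht0 : 0 < t := lt_min (by norm_num) (by positivity)
  have ht1 : t < 1 := lt_of_le_of_lt (min_le_left _ _) (by norm_num)
  have h1 := key t ht0 ht1
  have h2 : C * (t * (1 / (1 - ρ0))) ≤ η := by
    have h3 : t ≤ η / (C * (1 / (1 - ρ0)) + 1) := min_le_right _ _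
    rw [le_div_iff₀ hden] at h3
    nlinarith
  linarith

end Pool.Agent.H26.SP
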