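import Mathlib
import Pool.Agent.H26.SP6

set_option autoImplicit false
set_option linter.style.haveILetI false

open Metric Set Filter Topology
open scoped ComplexConjugate

namespace Pool.Agent.H26.SP

variable {L : (E → E) → ℂ} {ρ0 C : ℝ}

theorem LF.mono (hL : LF L ρ0 C) (hmax : ∀ g, SC g → (L g).re ≤ (L (SP.ff f1)).re) :
    ∀ n : ℕ, 2 ≤ n → L (ee (fun ζ => ζ ^ n)) = 0 := by
  set a : ℕ → ℂ := fun n => L (ee (fun ζ => ζ ^ n)) with ha
  have hH : ∀ w : ℂ, ‖w‖ ≤ 1 → HasSum (fun n => w ^ n * a (n + 1)) (L (ee (kk w 0))) := by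
    intro w hw
    have key := hL.TL (kk w 0) (kk_diff w 0 hw (by simp)) (fun n => (w ^ n) • (fun ζ : ℂ => ζ ^ (n + 1)))
      (fun n => (differentiable_pow (n + 1)).differentiableOn.const_smul _) (fun n => ρ0 ^ n)
      (summable_geometric_of_lt_one hL.h0.le hL.h1) ?_ ?_
    · refine key.congr_fun ?_
      intro n
      rw [ee_smul, hL.smul _ _ (ee_diff (differentiable_pow (n + 1)).differentiableOn)]
    · intro n ζ hζ
      rw [mem_closedBall_zero_iff] at hζ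
      rw [Pi.smul_apply, norm_smul, norm_pow, norm_pow]
      have h1 : ‖w‖ ^ n ≤ 1 := pow_le_one₀ (norm_nonneg _) hw
      have h2 : ‖ζ‖ ^ (n + 1) ≤ ρ0 ^ n := by
        rw [pow_succ]
        have h3 : ‖ζ‖ ^ n ≤ ρ0 ^ n := pow_le_pow_left₀ (norm_nonneg _) hζ n
        have h4 : ‖ζ‖ ≤ 1 := hζ.trans hL.h1.le
        calc ‖ζ‖ ^ n * ‖ζ‖ ≤ ρ0 ^ n * 1 := mul_le_mul h3 h4 (norm_nonneg _) (pow_nonneg hL.h0.le _)
          _ = ρ0 ^ n := mul_one _
      calc ‖w‖ ^ n * ‖ζ‖ ^ (n + 1) ≤ 1 * ρ0 ^ n := mul_le_mul h1 h2 (by positivity) zero_le_one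
        _ = ρ0 ^ n := one_mul _
    · intro ζ hζ
      rw [mem_closedBall_zero_iff] at hζ
      have hζ1 : ‖ζ‖ < 1 := lt_of_le_of_lt hζ hL.h1
      have h1 : ‖w * ζ‖ < 1 := by
        rw [norm_mul]; nlinarith [norm_nonneg w, norm_nonneg ζ]
      have h2 := (hasSum_geometric_of_norm_lt_one h1).mul_left ζ
      have e : kk w 0 ζ = ζ * (1 - w * ζ)⁻¹ := by
        unfold kk
        rw [zero_mul, sub_zero, mul_one, div_eq_mul_inv]
      rw [e]
      refine h2.congr_fun ?_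
      intro n
      rw [Pi.smul_apply, smul_eq_mul, mul_pow]
      ring
  have e1 : kk 0 0 = fun ζ : ℂ => ζ ^ 1 := by
    funext ζ
    simp [kk]
  have h1a : L (ee (kk 0 0)) = a 1 := by rw [e1]
  set H : ℂ → ℂ := fun w => L (ee (kk w 0)) - a 1 with hHdef
  have hHre : ∀ w : ℂ, ‖w‖ ≤ 1 → (H w).re ≤ 0 := by
    intro w hw
    have k1 := hL.kk_le hmax w 0 hw (by simp)
    have k2 := hL.id_eq hmax
    rw [h1a] at k2
    simp only [hHdef, Complex.sub_re]
    linarith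
  have hH0 : H 0 = 0 := by
    simp only [hHdef]
    rw [h1a, sub_self]
  set c : ℕ → ℂ := fun n => a (n + 1) - if n = 0 then a 1 else 0 with hc
  have hHs : ∀ w : ℂ, ‖w‖ ≤ 1 → HasSum (fun n => w ^ n • c n) (H w) := by
    intro w hw
    have k1 := (hH w hw).sub (hasSum_ite_eq 0 (a 1))
    refine k1.congr_fun ?_
    intro n
    simp only [hc, smul_eq_mul]
    split_ifs with h
    · rw [h, pow_zero]; ring
    · ring
  set p := FormalMultilinearSeries.ofScalars ℂ c with hp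
  have hps : HasFPowerSeriesAt H p 0 := by
    rw [hasFPowerSeriesAt_iff]
    filter_upwards [ball_mem_nhds (0 : ℂ) one_pos] with w hw
    rw [mem_ball_zero_iff] at hw
    rw [zero_add]
    refine (hHs w hw.le).congr_fun ?_
    intro n
    rw [hp, FormalMultilinearSeries.coeff_ofScalars]
  obtain ⟨r, hr0, hr⟩ := hps.analyticAt.exists_ball_analyticOnNhd
  set r' := min r 1 with hr'
  have hr'0 : 0 < r' := lt_min hr0 one_pos
  have hHz : ∀ z ∈ ball (0 : ℂ) r', H z = 0 := by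
    intro z hz
    have hdiff : DifferentiableOn ℂ H (ball 0 r') :=
      (hr.mono (ball_subset_ball (min_le_left _ _))).differentiableOn
    have hbc : ∀ M : ℝ, 0 < M → ‖H z‖ ≤ 2 * M * ‖z‖ / (r' - ‖z‖) := by
      intro M hM
      apply Complex.borelCaratheodory_zero hM hdiff _ hr'0 hz hH0
      intro x hx
      rw [mem_ball_zero_iff] at hx
      have := hHre x (hx.le.trans (min_le_right _ _))
      show (H x).re ≤ M
      linarith
    rw [mem_ball_zero_iff] at hz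
    have hpos : 0 < r' - ‖z‖ := by linarith
    have : ‖H z‖ * (r' - ‖z‖) ≤ 0 := by
      apply le_of_forall_pos_le_add
      intro η hη
      have h1 := hbc (η / (2 * (‖z‖ + 1))) (by positivity)
      rw [le_div_iff₀ hpos] at h1
      refine h1.trans ?_
      rw [zero_add]
      have h2 : 2 * (η / (2 * (‖z‖ + 1))) * ‖z‖ = η * (‖z‖ / (‖z‖ + 1)) := by field_simp
      rw [h2]
      have h3 : ‖z‖ / (‖z‖ + 1) ≤ 1 := by
        rw [div_le_one (by positivity)]; linarith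
      nlinarith
    have h4 : ‖H z‖ ≤ 0 := by
      by_contra hcon
      push Not at hcon
      nlinarith [mul_pos hcon hpos]
    exact norm_le_zero_iff.mp h4
  have hp0 : p = 0 := by
    apply hps.eq_zero_of_eventually
    filter_upwards [ball_mem_nhds (0 : ℂ) hr'0] with w hw
    exact hHz w hw
  have hc0 : ∀ n, c n = 0 := by
    intro n
    have := FormalMultilinearSeries.coeff_ofScalars (𝕜 := ℂ) (p := c) (n := n)
    rw [← this]
    rw [← hp, hp0]
    rfl
  intro n hn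
  obtain ⟨m, rfl⟩ := Nat.exists_eq_add_of_le hn
  have := hc0 (m + 1)
  simp only [hc, Nat.succ_ne_zero, if_false, sub_zero, if_neg (Nat.succ_ne_zero m)] at this
  have e : 2 + m = m + 1 + 1 := by ring
  rw [e]
  exact this

theorem LF.q_zero (hL : LF L ρ0 C) (hmax : ∀ g, SC g → (L g).re ≤ (L (SP.ff f1)).re)
    (u v : E → ℂ) (hu : DifferentiableOn ℂ u (ball 0 1)) (hv : DifferentiableOn ℂ v (ball 0 1))
    (c : ℝ) (hc : 0 ≤ c)
    (hu0 : ∀ z : E, z 1 = 0 → u z = 0) (hv0 : ∀ z : E, z 1 = 0 → v z = 0)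
    (huL : ∀ z ∈ ball (0 : E) 1, ∀ w ∈ ball (0 : E) 1,
      ‖u z - u w‖ ≤ c * ((‖z 1‖ + ‖w 1‖) ^ 2 * ‖z 0 - w 0‖ + (‖z 1‖ + ‖w 1‖) * ‖z 1 - w 1‖))
    (hvL : ∀ z ∈ ball (0 : E) 1, ∀ w ∈ ball (0 : E) 1,
      ‖v z - v w‖ ≤ c * ((‖z 1‖ + ‖w 1‖) * ‖z 0 - w 0‖ + ‖z 1 - w 1‖))
    (hv' : fderiv ℂ v 0 = 0) : L (fun z => vec (u z) (v z)) = 0 := by
  set q : E → E := fun z => vec (u z) (v z) with hq
  have hqd : DifferentiableOn ℂ q (ball 0 1) := diffOn hu hv
  set η : ℝ := 1 / (1000 * (c + 1) * (‖L q‖ + 1)) with hη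
  have hη0 : 0 < η := by positivity
  set ε : ℂ := (η : ℂ) * conj (L q) with hε
  have hεn : ‖ε‖ * c ≤ 1 / 1000 := by
    rw [hε, norm_mul, Complex.norm_real, Real.norm_eq_abs, abs_of_pos hη0, RCLike.norm_conj, hη]
    rw [div_mul_eq_mul_div, div_mul_eq_mul_div, div_le_div_iff₀ (by positivity) (by norm_num)]
    have : 0 ≤ ‖L q‖ := norm_nonneg _
    nlinarith [mul_nonneg this hc]
  have hSC := pert u v hu hv c hc hu0 hv0 huL hvL hv' ε hεn
  have h1 := hmax _ hSC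
  have e : (fun z : E => vec (f1 (z 0) + ε * u z) (z 1 + ε * v z)) = SP.ff f1 + ε • q := by
    funext z
    apply ext2 <;> rfl
  rw [e, hL.add _ _ (ff_diff f1_diff) (hqd.const_smul ε), hL.smul _ _ hqd, Complex.add_re] at h1
  have h2 : (ε * L q).re = η * ‖L q‖ ^ 2 := by
    rw [hε, mul_assoc, Complex.re_ofReal_mul, mul_comm (conj (L q)), Complex.mul_conj, Complex.ofReal_re,
      Complex.normSq_eq_norm_sq]
  rw [h2] at h1
  have h3 : ‖L q‖ ^ 2 ≤ 0 := by
    have : η * ‖L q‖ ^ 2 ≤ 0 := by linarith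
    by_contra hcon
    push Not at hcon
    nlinarith [mul_pos hη0 hcon]
  have h4 : ‖L q‖ = 0 := by nlinarith [norm_nonneg (L q)]
  exact norm_eq_zero.mp h4

theorem didf : DifferentiableOn ℂ (fun ζ : ℂ => ζ) (ball 0 1) := differentiableOn_id

theorem LF.id_f1 (hL : LF L ρ0 C) (hmax : ∀ g, SC g → (L g).re ≤ (L (SP.ff f1)).re) :
    L (SP.ff (fun ζ => ζ)) = L (SP.ff f1) := by
  rw [hL.ff didf, hL.ff f1_diff]
  congr 1
  have hγ : DifferentiableOn ℂ (fun ζ : ℂ => f1 ζ - ζ) (ball 0 1) := f1_diff.sub didf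
  have h0 : f1 0 - 0 = 0 := by simp [f1]
  have h1 : deriv (fun ζ : ℂ => f1 ζ - ζ) 0 = 0 := by
    have k := (f1_deriv (a := 0) (by simp)).sub (hasDerivAt_id (0 : ℂ))
    have k2 : HasDerivAt (fun ζ : ℂ => f1 ζ - ζ) ((1 + (0 : ℂ) ^ 2) / (1 - (0 : ℂ) ^ 2) ^ 2 - 1) 0 := k
    rw [k2.deriv]
    norm_num
  have k := hL.ee_high (hL.mono hmax) (fun ζ : ℂ => f1 ζ - ζ) hγ h0 h1
  have e : ee f1 = ee (fun ζ : ℂ => ζ) + ee (fun ζ : ℂ => f1 ζ - ζ) := by
    rw [← ee_add]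
    congr 1
    funext ζ
    simp only [Pi.add_apply]
    ring
  rw [e, hL.add _ _ (ee_diff didf) (ee_diff hγ), k, add_zero]

theorem LF.dil_eq (hL : LF L ρ0 C) (hmax : ∀ g, SC g → (L g).re ≤ (L (SP.ff f1)).re) (g : E → E) (hg : SC g)
    (ρ : ℝ) (hρ : 0 < ρ) (hρ1 : ρ < 1) : (L (SP.ff f1)).re ≤ (L (dil g ρ)).re := by
  set G := dil g ρ with hGdef
  have hGS : SC G := dil_SC g ρ hρ hρ1 hg
  have hGS2 : SC (fun z => sg (G (sg z))) := sg_SC G hGS
  have hGd : DifferentiableOn ℂ G (ball 0 1) := hGS.1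
  have hGR : DifferentiableOn ℂ G (ball 0 (1 / ρ)) := dil_diff g ρ hρ hg.1
  have hR : 1 < 1 / ρ := by rw [lt_div_iff₀ hρ]; linarith
  obtain ⟨c, hc, huL, hvL⟩ := bds G (1 / ρ) hR hGR
  have hud := UU_diff G hGd
  have hvd := VV_diff G hGd
  have hq := hL.q_zero hmax (fun z => UU G (z 0) (z 1)) (fun z => VV G (z 0) (z 1)) hud hvd c hc
    (by
      intro z hz
      simp only [UU, hz, neg_zero]; ring)
    (by
      intro z hz
      simp only [VV, hz, neg_zero]; ring)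
    huL hvL (VV_fd G hGd hGS.2.2.2.1)
  set q : E → E := fun z => vec (UU G (z 0) (z 1)) (VV G (z 0) (z 1)) with hqdef
  have hqd : DifferentiableOn ℂ q (ball 0 1) := diffOn hud hvd
  set γ : ℂ → ℂ := fun ζ => (G (vec ζ 0)) 0 - ζ with hγ
  have hγd : DifferentiableOn ℂ γ (ball 0 1) := by
    have d1 : DifferentiableOn ℂ (fun ζ : ℂ => G (vec ζ 0)) (ball 0 1) := by
      apply hGd.comp (vec_diff0 0).differentiableOn
      intro ζ hζ
      rw [mem_ball_zero_iff] at hζ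
      rw [vec_ball one_pos, norm_zero]
      nlinarith [norm_nonneg ζ]
    exact ((differentiableOn_euclidean.mp d1) 0).sub didf
  have hγ0 : γ 0 = 0 := by
    have : vec 0 0 = (0 : E) := ext2 rfl rfl
    simp only [hγ]
    rw [this, hGS.2.2.1]
    show (0 : ℂ) - 0 = 0
    ring
  have hγ1 : deriv γ 0 = 0 := by
    have k1 : HasFDerivAt G (ContinuousLinearMap.id ℂ E) (vec 0 0) := by
      have : vec 0 0 = (0 : E) := ext2 rfl rfl
      rw [this, ← hGS.2.2.2.1]
      exact (hGd.differentiableAt (ball_mem_nhds 0 one_pos)).hasFDerivAt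
    have k2 : HasDerivAt (fun ζ : ℂ => vec ζ 0) (vec 1 0) 0 := by
      have e : (fun ζ : ℂ => vec ζ 0) = fun ζ : ℂ => ζ • vec 1 0 := by
        funext ζ
        apply ext2
        · show ζ = ζ • (1 : ℂ)
          rw [smul_eq_mul, mul_one]
        · show (0 : ℂ) = ζ • (0 : ℂ)
          rw [smul_zero]
      rw [e]
      have := (hasDerivAt_id (0 : ℂ)).smul_const (vec 1 0)
      rwa [one_smul] at this
    have k3 : HasDerivAt (fun ζ : ℂ => G (vec ζ 0)) ((ContinuousLinearMap.id ℂ E) (vec 1 0)) 0 :=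
      HasFDerivAt.comp_hasDerivAt (f := fun ζ : ℂ => vec ζ 0) (0 : ℂ) k1 k2
    have k4 := (p0.hasFDerivAt (x := G (vec 0 0))).comp_hasDerivAt (0 : ℂ) k3
    have k5 : HasDerivAt γ (1 - 1) 0 := k4.sub (hasDerivAt_id (0 : ℂ))
    rw [k5.deriv, sub_self]
  have hγL := hL.ee_high (hL.mono hmax) γ hγd hγ0 hγ1
  have hidd : DifferentiableOn ℂ (SP.ff (fun ζ => ζ)) (ball 0 1) := ff_diff didf
  have e : G + (fun z => sg (G (sg z))) = (2 : ℂ) • ((SP.ff (fun ζ => ζ) + ee γ) + q) := by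
    funext z
    apply ext2
    · show (G z) 0 + (G (sg z)) 0 = 2 * ((z 0 + ((G (vec (z 0) 0)) 0 - z 0)) + UU G (z 0) (z 1))
      rw [sg_eq]
      unfold UU
      rw [vec_eta]
      ring
    · show (G z) 1 + -((G (sg z)) 1) = 2 * ((z 1 + 0) + VV G (z 0) (z 1))
      rw [sg_eq]
      unfold VV
      rw [vec_eta]
      ring
  have e2 := congrArg L e
  rw [hL.add _ _ hGd hGS2.1, hL.smul _ _ ((hidd.add (ee_diff hγd)).add hqd),
    hL.add _ _ (hidd.add (ee_diff hγd)) hqd, hL.add _ _ hidd (ee_diff hγd), hγL, hq, add_zero, add_zero,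
    hL.id_f1 hmax] at e2
  have e3 := congrArg Complex.re e2
  have e4 : (2 : ℂ) = ((2 : ℝ) : ℂ) := by norm_num
  rw [e4, Complex.add_re, Complex.re_ofReal_mul] at e3
  have m := hmax _ hGS2
  linarith

theorem LF.const (hL : LF L ρ0 C) (hmax : ∀ g, SC g → (L g).re ≤ (L (SP.ff f1)).re) (g : E → E) (hg : SC g) :
    (L g).re = (L (SP.ff f1)).re := by
  apply le_antisymm (hmax g hg)
  -- Lipschitz bound
  obtain ⟨Λ, hΛ0, hΛ⟩ := lipG g 1 ((ρ0 + 1) / 2) (by linarith [hL.h0]) (by linarith [hL.h1]) hg.1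
  have hC := hL.hC
  have key : ∀ t : ℝ, 0 < t → t ≤ 1 / 2 → (L (SP.ff f1)).re ≤ (L g).re + C * (3 * Λ * t) := by
    intro t ht0 ht1
    set ρ := 1 - t with hρ
    have hρ0 : 0 < ρ := by rw [hρ]; linarith
    have hρ1 : ρ < 1 := by rw [hρ]; linarith
    have k1 := hL.dil_eq hmax g hg ρ hρ0 hρ1
    have hdS := dil_SC g ρ hρ0 hρ1 hg
    have k2 : ‖L (dil g ρ) - L g‖ ≤ C * (3 * Λ * t) := by
      apply hL.sub_bd hdS.1 hg.1
      intro x hx
      rw [mem_closedBall_zero_iff] at hx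
      have hρc : (ρ : ℂ) ≠ 0 := by exact_mod_cast hρ0.ne'
      have hn : ‖(ρ : ℂ)‖ = ρ := by rw [Complex.norm_real, Real.norm_eq_abs, abs_of_pos hρ0]
      have hx1 : x ∈ ball (0 : E) ((ρ0 + 1) / 2) := by
        rw [mem_ball_zero_iff]; linarith [hL.h1]
      have hx2 : (ρ : ℂ) • x ∈ ball (0 : E) ((ρ0 + 1) / 2) := by
        rw [mem_ball_zero_iff, norm_smul, hn]
        nlinarith [hL.h1, norm_nonneg x]
      have h00 : (0 : E) ∈ ball (0 : E) ((ρ0 + 1) / 2) := by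
        rw [mem_ball_zero_iff, norm_zero]; linarith [hL.h0]
      have b1 := hΛ _ hx2 _ hx1
      have b2 := hΛ _ hx2 _ h00
      rw [hg.2.2.1, sub_zero, sub_zero] at b2
      have b3 : (ρ : ℂ) • x - x = ((-t : ℝ) : ℂ) • x := by
        rw [hρ]; push_cast; rw [sub_smul, one_smul, neg_smul]; abel
      rw [b3, norm_smul, Complex.norm_real, norm_neg, Real.norm_eq_abs, abs_of_pos ht0] at b1
      rw [norm_smul, hn] at b2
      have e : dil g ρ x - g x = ((ρ : ℂ)⁻¹ - 1) • g ((ρ : ℂ) • x) + (g ((ρ : ℂ) • x) - g x) := by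
        unfold dil
        rw [sub_smul, one_smul]; abel
      rw [e]
      have e5 : ‖(ρ : ℂ)⁻¹ - 1‖ = t / ρ := by
        have : (ρ : ℂ)⁻¹ - 1 = ((t / ρ : ℝ) : ℂ) := by
          push_cast
          rw [hρ]
          have : (1 - t : ℂ) ≠ 0 := by
            rw [hρ] at hρc; push_cast at hρc; exact hρc
          push_cast
          field_simp
          ring
        rw [this, Complex.norm_real, Real.norm_eq_abs, abs_of_pos (by positivity)]
      have hxn : ‖x‖ ≤ 1 := hx.trans hL.h1.le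
      calc _ ≤ ‖((ρ : ℂ)⁻¹ - 1) • g ((ρ : ℂ) • x)‖ + ‖g ((ρ : ℂ) • x) - g x‖ := norm_add_le _ _
        _ ≤ t / ρ * (Λ * (ρ * ‖x‖)) + Λ * (t * ‖x‖) := by
            rw [norm_smul, e5]
            gcongr
        _ = 2 * Λ * t * ‖x‖ := by field_simp; ring
        _ ≤ 3 * Λ * t := by
            have : 0 ≤ Λ * t := by positivity
            nlinarith [norm_nonneg x]
    have k3 := Complex.re_le_norm (L (dil g ρ) - L g)
    rw [Complex.sub_re] at k3
    linarith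
  apply le_of_forall_pos_le_add
  intro η hη
  set t := min (1 / 2) (η / (C * (3 * Λ) + 1)) with ht
  have hden : 0 < C * (3 * Λ) + 1 := by positivity
  have ht0 : 0 < t := lt_min (by norm_num) (by positivity)
  have h1 := key t ht0 (min_le_left _ _)
  have h2 : C * (3 * Λ * t) ≤ η := by
    have h3 : t ≤ η / (C * (3 * Λ) + 1) := min_le_right _ _
    rw [le_div_iff₀ hden] at h3
    nlinarith
  linarith

end Pool.Agent.H26.SP
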