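import Mathlib
import Pool.Agent.H26.SP7

set_option autoImplicit false
set_option linter.style.haveILetI false

open Metric Set Filter Topology
open scoped ComplexConjugate

namespace Pool.Agent.H26.SP

/-- the class of generators -/
def MC (g : E → E) : Prop :=
  DifferentiableOn ℂ g (ball 0 1) ∧ g 0 = 0 ∧ fderiv ℂ g 0 = ContinuousLinearMap.id ℂ E ∧
    ∀ z ∈ ball (0 : E) 1, z ≠ 0 → 0 < (inner ℂ z (g z)).re

theorem ff_MC {φ φ' : ℂ → ℂ} (hd : ∀ ζ ∈ ball (0 : ℂ) 1, HasDerivAt φ (φ' ζ) ζ)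
    (h0 : φ 0 = 0) (h1 : φ' 0 = 1)
    (hre : ∀ ζ ∈ ball (0 : ℂ) 1, ζ ≠ 0 → 0 < (φ ζ * conj ζ).re) : MC (ff φ) := by
  refine ⟨ff_diff (fun ζ hζ => (hd ζ hζ).differentiableAt.differentiableWithinAt), ?_, ?_, ?_⟩
  · exact ext2 h0 rfl
  · have k := (ff_fd (φ := φ) (z := 0) (d := φ' 0) (hd 0 (by simp))).1
    ext1 w
    apply ext2
    · rw [(k w).1, h1, one_mul]; rfl
    · rw [(k w).2]; rfl
  · intro z hz hz0
    rw [inner2]
    have e0 : (ff φ z) 0 = φ (z 0) := rfl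
    have e1 : (ff φ z) 1 = z 1 := rfl
    rw [e0, e1, Complex.add_re, Complex.mul_conj (z 1), Complex.ofReal_re, Complex.normSq_eq_norm_sq]
    by_cases hz1 : z 0 = 0
    · have hz2 : z 1 ≠ 0 := fun h => hz0 (ext2 hz1 h)
      have : 0 < ‖z 1‖ ^ 2 := by positivity
      rw [hz1, h0, zero_mul, Complex.zero_re, zero_add]
      exact this
    · have := hre _ (z0_ball hz) hz1
      have : 0 ≤ ‖z 1‖ ^ 2 := by positivity
      linarith

theorem id_MC : MC (ff (fun ζ => ζ)) := by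
  apply ff_MC (φ' := fun _ => 1)
  · intro ζ _
    exact hasDerivAt_id ζ
  · rfl
  · rfl
  · intro ζ _ hζ0
    rw [Complex.mul_conj, Complex.ofReal_re]
    exact Complex.normSq_pos.mpr hζ0

theorem cub_MC : MC (ff (fun ζ => ζ + ζ ^ 3 / 2)) := by
  apply ff_MC (φ' := fun ζ => 1 + 3 * ζ ^ 2 / 2)
  · intro ζ _
    have h1 := (hasDerivAt_id ζ).add ((hasDerivAt_pow 3 ζ).div_const 2)
    refine h1.congr_deriv ?_
    norm_num
  · norm_num
  · norm_num
  · intro ζ hζ hζ0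
    rw [mem_ball_zero_iff] at hζ
    have e : (ζ + ζ ^ 3 / 2) * conj ζ = ((‖ζ‖ ^ 2 : ℝ) : ℂ) * (1 + ζ ^ 2 / 2) := by
      have e3 : ζ * conj ζ = ((‖ζ‖ ^ 2 : ℝ) : ℂ) := by rw [Complex.mul_conj, Complex.normSq_eq_norm_sq]
      rw [← e3]; ring
    rw [e, Complex.re_ofReal_mul]
    have h1 : 0 < ‖ζ‖ ^ 2 := by positivity
    have h2 : -(1 / 2) < (ζ ^ 2 / 2).re := by
      have h3 := Complex.abs_re_le_norm (ζ ^ 2 / 2)
      rw [norm_div, norm_pow, Complex.norm_ofNat] at h3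
      have h4 := neg_abs_le (ζ ^ 2 / 2).re
      nlinarith [norm_nonneg ζ]
    rw [Complex.add_re, Complex.one_re]
    apply mul_pos h1
    linarith

/-- the functional for the right-hand side -/
noncomputable def Lr (g : E → E) : ℂ := (g (vec (-(1 / 2)) 0)) 0 - (g (vec (1 / 2) 0)) 0

theorem Lr_le (g : E → E) (hg : MC g) : (Lr g).re ≤ -(3 / 5) := by
  obtain ⟨h1, h2, h3, h4⟩ := hg
  set φ : ℂ → ℂ := fun ζ => (g (vec ζ 0)) 0 with hφ
  have hin : ∀ ζ ∈ ball (0 : ℂ) 1, vec ζ 0 ∈ ball (0 : E) 1 := by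
    intro ζ hζ
    rw [mem_ball_zero_iff] at hζ
    rw [vec_ball one_pos, norm_zero]
    nlinarith [norm_nonneg ζ]
  have hvec0 : vec 0 0 = (0 : E) := ext2 rfl rfl
  have hφd : DifferentiableOn ℂ φ (ball 0 1) := by
    have d1 : DifferentiableOn ℂ (fun ζ : ℂ => g (vec ζ 0)) (ball 0 1) :=
      h1.comp (vec_diff0 0).differentiableOn hin
    exact (differentiableOn_euclidean.mp d1) 0
  have hφ0 : φ 0 = 0 := by
    simp only [hφ]
    rw [hvec0, h2]
    rfl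
  have hφ1 : deriv φ 0 = 1 := by
    have k1 : HasFDerivAt g (ContinuousLinearMap.id ℂ E) (vec 0 0) := by
      rw [hvec0, ← h3]
      exact (h1.differentiableAt (ball_mem_nhds 0 one_pos)).hasFDerivAt
    have k2 : HasDerivAt (fun ζ : ℂ => vec ζ 0) (vec 1 0) 0 := by
      have e : (fun ζ : ℂ => vec ζ 0) = fun ζ : ℂ => ζ • vec 1 0 := by
        funext ζ
        apply ext2
        · show ζ = ζ • (1 : ℂ)
          rw [smul_eq_mul, mul_one]
        · show (0 : ℂ) = ζ • (0 : ℂ)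
          rw [smul_zero]
      rw [e]
      have := (hasDerivAt_id (0 : ℂ)).smul_const (vec 1 0)
      rwa [one_smul] at this
    have k3 : HasDerivAt (fun ζ : ℂ => g (vec ζ 0)) ((ContinuousLinearMap.id ℂ E) (vec 1 0)) 0 :=
      HasFDerivAt.comp_hasDerivAt (f := fun ζ : ℂ => vec ζ 0) (0 : ℂ) k1 k2
    have k4 := (p0.hasFDerivAt (x := g (vec 0 0))).comp_hasDerivAt (0 : ℂ) k3
    have k5 : HasDerivAt φ 1 0 := k4
    exact k5.deriv
  have hφre : ∀ ζ ∈ ball (0 : ℂ) 1, ζ ≠ 0 → 0 < (φ ζ * conj ζ).re := by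
    intro ζ hζ hζ0
    have hne : vec ζ 0 ≠ 0 := by
      intro h
      apply hζ0
      have := congrArg (fun x : E => x 0) h
      exact this
    have := h4 (vec ζ 0) (hin ζ hζ) hne
    rw [inner2, vec0, vec1, map_zero, mul_zero, add_zero] at this
    exact this
  set p : ℂ → ℂ := dslope φ 0 with hp
  have hpd : DifferentiableOn ℂ p (ball 0 1) :=
    (Complex.differentiableOn_dslope (ball_mem_nhds 0 one_pos)).mpr hφd
  have hp0 : p 0 = 1 := by rw [hp, dslope_same, hφ1]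
  have hpφ : ∀ ζ, φ ζ = ζ * p ζ := by
    intro ζ
    have := sub_smul_dslope φ 0 ζ
    rw [hφ0, sub_zero, sub_zero, smul_eq_mul] at this
    exact this.symm
  have hpre : ∀ ζ ∈ ball (0 : ℂ) 1, 0 < (p ζ).re := by
    intro ζ hζ
    by_cases hζ0 : ζ = 0
    · rw [hζ0, hp0]; norm_num
    · have k := hφre ζ hζ hζ0
      have e : φ ζ * conj ζ = ((‖ζ‖ ^ 2 : ℝ) : ℂ) * p ζ := by
        have e3 : ζ * conj ζ = ((‖ζ‖ ^ 2 : ℝ) : ℂ) := by rw [Complex.mul_conj, Complex.normSq_eq_norm_sq]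
        rw [← e3, hpφ]; ring
      rw [e, Complex.re_ofReal_mul] at k
      have h5 : 0 < ‖ζ‖ ^ 2 := by positivity
      by_contra hcon
      push Not at hcon
      nlinarith
  set q : ℂ → ℂ := fun ζ => (p ζ + p (-ζ)) / 2 with hq
  have hneg : ∀ ζ ∈ ball (0 : ℂ) 1, -ζ ∈ ball (0 : ℂ) 1 := by
    intro ζ hζ
    rw [mem_ball_zero_iff] at hζ ⊢
    rwa [norm_neg]
  have hqd : DifferentiableOn ℂ q (ball 0 1) := by
    have d1 : DifferentiableOn ℂ (fun ζ => p (-ζ)) (ball 0 1) :=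
      hpd.comp (differentiable_neg).differentiableOn hneg
    exact (hpd.add d1).div_const 2
  have hq0 : q 0 = 1 := by
    simp only [hq, neg_zero, hp0]; norm_num
  have hqre : ∀ ζ ∈ ball (0 : ℂ) 1, 0 < (q ζ).re := by
    intro ζ hζ
    have a1 := hpre ζ hζ
    have a2 := hpre (-ζ) (hneg ζ hζ)
    have e : q ζ = ((1 / 2 : ℝ) : ℂ) * (p ζ + p (-ζ)) := by
      simp only [hq]; push_cast; ring
    rw [e, Complex.re_ofReal_mul, Complex.add_re]
    linarith
  have hqne : ∀ ζ ∈ ball (0 : ℂ) 1, 1 + q ζ ≠ 0 := by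
    intro ζ hζ h
    have := congrArg Complex.re h
    rw [Complex.add_re, Complex.one_re, Complex.zero_re] at this
    linarith [hqre ζ hζ]
  set Q : ℂ → ℂ := fun ζ => (1 - q ζ) / (1 + q ζ) with hQ
  have hQd : DifferentiableOn ℂ Q (ball 0 1) :=
    ((differentiableOn_const (1 : ℂ)).sub hqd).div ((differentiableOn_const (1 : ℂ)).add hqd) hqne
  have hQb : ∀ ζ ∈ ball (0 : ℂ) 1, ‖Q ζ‖ ≤ 1 := by
    intro ζ hζ
    simp only [hQ]
    rw [norm_div, div_le_one (norm_pos_iff.mpr (hqne ζ hζ))]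
    rw [← sq_le_sq₀ (norm_nonneg _) (norm_nonneg _), ← Complex.normSq_eq_norm_sq, ← Complex.normSq_eq_norm_sq,
      Complex.normSq_apply, Complex.normSq_apply]
    simp only [Complex.add_re, Complex.one_re, Complex.sub_re, Complex.add_im, Complex.one_im, Complex.sub_im]
    nlinarith [hqre ζ hζ]
  have hQ14 := SW2 Q 1 1 one_pos hQd (by simp only [hQ]; rw [hq0]; norm_num) (by
    intro t
    simp only [hQ, hq, neg_neg]
    rw [add_comm (p (-t)) (p t)]) hQb (1 / 2) (by norm_num)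
  have hhalf : (1 / 2 : ℂ) ∈ ball (0 : ℂ) 1 := by rw [mem_ball_zero_iff]; norm_num
  have hx := hqre _ hhalf
  have hfin : 3 / 5 ≤ (q (1 / 2)).re := by
    simp only [hQ] at hQ14
    rw [norm_div, div_le_iff₀ (norm_pos_iff.mpr (hqne _ hhalf))] at hQ14
    have e : (1 : ℝ) / 1 ^ 2 * ‖(1 / 2 : ℂ)‖ ^ 2 = 1 / 4 := by norm_num
    rw [e] at hQ14
    have h6 : ‖1 - q (1 / 2)‖ ^ 2 ≤ (1 / 4 * ‖1 + q (1 / 2)‖) ^ 2 := by
      apply pow_le_pow_left₀ (norm_nonneg _) hQ14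
    rw [mul_pow, ← Complex.normSq_eq_norm_sq, ← Complex.normSq_eq_norm_sq,
      Complex.normSq_apply, Complex.normSq_apply] at h6
    simp only [Complex.add_re, Complex.one_re, Complex.sub_re, Complex.add_im, Complex.one_im, Complex.sub_im] at h6
    set x := (q (1 / 2)).re
    set y := (q (1 / 2)).im
    by_contra hcon
    push Not at hcon
    nlinarith [sq_nonneg y]
  have e : Lr g = -(q (1 / 2)) := by
    have e1 : Lr g = φ (-(1 / 2)) - φ (1 / 2) := rfl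
    rw [e1, hpφ, hpφ (1 / 2)]
    simp only [hq]
    ring
  rw [e, Complex.neg_re]
  linarith

theorem f1_eq : f1 = kk 1 (-1) := by
  funext ζ
  unfold f1 kk
  congr 1
  ring

theorem f1_SC : SC (ff f1) := by
  rw [f1_eq]
  exact kk_SC 1 (-1) (by simp) (by simp)

theorem hf_eq (a : ℂ) (ha : ‖a‖ < 1) :
    ((fderiv ℂ (ff f1) (vec a 0)).inverse (ff f1 (vec a 0))) 0 = a * (1 - a ^ 2) / (1 + a ^ 2) := by
  have hd : HasDerivAt f1 ((1 + a ^ 2) / (1 - a ^ 2) ^ 2) ((vec a 0) 0) := f1_deriv ha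
  have n1 := one_sub_ne ha
  have n2 := one_add_ne ha
  have k := (ff_fd hd).2 (div_ne_zero n2 (pow_ne_zero 2 n1)) (ff f1 (vec a 0))
  rw [k, vec0]
  show f1 a / ((1 + a ^ 2) / (1 - a ^ 2) ^ 2) = _
  unfold f1
  field_simp

theorem Lr_hf : (Lr (fun z => (fderiv ℂ (ff f1) z).inverse (ff f1 z))).re = -(3 / 5) := by
  unfold Lr
  rw [hf_eq _ (by norm_num), hf_eq _ (by norm_num)]
  norm_num

end Pool.Agent.H26.SP
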