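import Mathlib

set_option autoImplicit false
set_option linter.style.haveILetI false
open Matrix

namespace Pool.Agent.H26.Symp

variable {n : Type} [Fintype n] [DecidableEq n] {K : Type} [Field K]

/-- `g` is a symplectic similitude with multiplier `c` -/
def Mult (c : K) (g : Matrix (n ⊕ n) (n ⊕ n) K) : Prop := gᵀ * J n K * g = c • J n K

theorem Mult.mul {c d : K} {g h : Matrix (n ⊕ n) (n ⊕ n) K} (hg : Mult c g) (hh : Mult d h) :
    Mult (c * d) (g * h) := by
  unfold Mult at *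
  calc (g * h)ᵀ * J n K * (g * h) = hᵀ * (gᵀ * J n K * g) * h := by
        rw [transpose_mul]; simp only [Matrix.mul_assoc]
    _ = (c * d) • J n K := by
        rw [hg, Matrix.mul_smul, Matrix.smul_mul, hh, smul_smul]

theorem mult_one : Mult (1 : K) (1 : Matrix (n ⊕ n) (n ⊕ n) K) := by
  unfold Mult; simp

theorem JJ : J n K * J n K = -1 := Matrix.J_squared n K

theorem Mult.inv {c : K} {g : Matrix (n ⊕ n) (n ⊕ n) K} (hc : c ≠ 0) (hg : Mult c g) :
    IsUnit g.det ∧ Mult c⁻¹ g⁻¹ := by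
  have hJ : IsUnit (J n K).det := Matrix.isUnit_det_J n K
  have h1 : IsUnit (gᵀ * J n K * g).det := by
    rw [hg, Matrix.det_smul]
    exact IsUnit.mul (IsUnit.pow _ (Ne.isUnit hc)) hJ
  have hdet : IsUnit g.det := by
    rw [Matrix.det_mul] at h1
    exact isUnit_of_mul_isUnit_right h1
  refine ⟨hdet, ?_⟩
  unfold Mult at *
  have h2 : (g⁻¹)ᵀ * (gᵀ * J n K * g) * g⁻¹ = J n K := by
    have e1 : (g⁻¹)ᵀ * gᵀ = 1 := by
      rw [← transpose_mul, Matrix.mul_nonsing_inv _ hdet, transpose_one]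
    have e2 : g * g⁻¹ = 1 := Matrix.mul_nonsing_inv _ hdet
    calc (g⁻¹)ᵀ * (gᵀ * J n K * g) * g⁻¹ = ((g⁻¹)ᵀ * gᵀ) * J n K * (g * g⁻¹) := by
          simp only [Matrix.mul_assoc]
      _ = J n K := by rw [e1, e2, Matrix.one_mul, Matrix.mul_one]
  rw [hg, Matrix.mul_smul, Matrix.smul_mul] at h2
  calc (g⁻¹)ᵀ * J n K * g⁻¹ = c⁻¹ • (c • ((g⁻¹)ᵀ * J n K * g⁻¹)) := by
        rw [smul_smul, inv_mul_cancel₀ hc, one_smul]
    _ = c⁻¹ • J n K := by rw [h2]

/-- upper unipotent -/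
def nU (X : Matrix n n K) : Matrix (n ⊕ n) (n ⊕ n) K := fromBlocks 1 X 0 1
/-- lower unipotent -/
def nL (X : Matrix n n K) : Matrix (n ⊕ n) (n ⊕ n) K := fromBlocks 1 0 X 1
/-- Levi element -/
noncomputable def mA (A : Matrix n n K) : Matrix (n ⊕ n) (n ⊕ n) K := fromBlocks A 0 0 (A⁻¹)ᵀ

theorem mult_nU (X : Matrix n n K) (hX : Xᵀ = X) : Mult (1 : K) (nU X) := by
  unfold Mult nU J
  rw [fromBlocks_transpose, fromBlocks_multiply, fromBlocks_multiply, hX, one_smul]
  congr 1 <;> simp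

theorem mult_nL (X : Matrix n n K) (hX : Xᵀ = X) : Mult (1 : K) (nL X) := by
  unfold Mult nL J
  rw [fromBlocks_transpose, fromBlocks_multiply, fromBlocks_multiply, hX, one_smul]
  congr 1 <;> simp

theorem mult_mA (A : Matrix n n K) (hA : IsUnit A.det) : Mult (1 : K) (mA A) := by
  unfold Mult mA J
  rw [fromBlocks_transpose, fromBlocks_multiply, fromBlocks_multiply, one_smul]
  have e1 : Aᵀ * (A⁻¹)ᵀ = 1 := by
    rw [← transpose_mul, Matrix.nonsing_inv_mul _ hA, transpose_one]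
  congr 1 <;> simp [e1, Matrix.nonsing_inv_mul _ hA]

theorem mA_mul (A B : Matrix n n K) : mA (A * B) = mA A * mA B := by
  unfold mA
  rw [fromBlocks_multiply, Matrix.mul_inv_rev, transpose_mul]
  simp

/-- product of two symmetric invertible matrices -/
theorem mA_sym (X Y : Matrix n n K) (hX : Xᵀ = X) (hY : Yᵀ = Y) (hXd : IsUnit X.det)
    (hYd : IsUnit Y.det) :
    mA (X * Y) = (nU X * nL (-X⁻¹) * nU X) * (nU (-Y⁻¹) * nL Y * nU (-Y⁻¹)) := by
  have hXi : (X⁻¹)ᵀ = X⁻¹ := by rw [Matrix.transpose_nonsing_inv, hX]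
  have hYi : (Y⁻¹)ᵀ = Y⁻¹ := by rw [Matrix.transpose_nonsing_inv, hY]
  unfold mA nU nL
  simp only [fromBlocks_multiply, Matrix.mul_inv_rev, transpose_mul]
  congr 1 <;> simp [hXi, hYi, Matrix.mul_nonsing_inv _ hXd, Matrix.nonsing_inv_mul _ hXd, Matrix.mul_nonsing_inv _ hYd, Matrix.nonsing_inv_mul _ hYd]

section gen
variable (H : Matrix (n ⊕ n) (n ⊕ n) K → Prop)
  (hmul : ∀ g h, Mult (1:K) g → Mult (1:K) h → H g → H h → H (g * h))
  (hU : ∀ X : Matrix n n K, Xᵀ = X → H (nU X)) (hL : ∀ X : Matrix n n K, Xᵀ = X → H (nL X))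

include hmul hU hL

theorem H_sym (X Y : Matrix n n K) (hX : Xᵀ = X) (hY : Yᵀ = Y) (hXd : IsUnit X.det)
    (hYd : IsUnit Y.det) : H (mA (X * Y)) := by
  have hXi : (-X⁻¹)ᵀ = -X⁻¹ := by rw [transpose_neg, Matrix.transpose_nonsing_inv, hX]
  have hYi : (-Y⁻¹)ᵀ = -Y⁻¹ := by rw [transpose_neg, Matrix.transpose_nonsing_inv, hY]
  have m1 := mult_nU X hX
  have m2 := mult_nL _ hXi
  have m3 := mult_nU _ hYi
  have m4 := mult_nL Y hY
  have m12 := m1.mul m2
  rw [_root_.mul_one] at m12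
  have m121 := m12.mul m1
  rw [_root_.mul_one] at m121
  have m34 := m3.mul m4
  rw [_root_.mul_one] at m34
  have m343 := m34.mul m3
  rw [_root_.mul_one] at m343
  rw [mA_sym X Y hX hY hXd hYd]
  exact hmul _ _ m121 m343 (hmul _ _ m12 m1 (hmul _ _ m1 m2 (hU _ hX) (hL _ hXi)) (hU _ hX))
    (hmul _ _ m34 m3 (hmul _ _ m3 m4 (hU _ hYi) (hL _ hY)) (hU _ hYi))

theorem H_mA (A : Matrix n n K) (hA : IsUnit A.det) : H (mA A) := by
  refine diagonal_transvection_induction_of_det_ne_zero (fun A => H (mA A)) A hA.ne_zero ?_ ?_ ?_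
  · intro D hD
    have := H_sym H hmul hU hL (diagonal D) 1 (diagonal_transpose D) transpose_one
      (Ne.isUnit hD) (by simp)
    rwa [Matrix.mul_one] at this
  · intro t
    have e : t.toMatrix = (swap K t.i t.j + single t.i t.i t.c) * swap K t.i t.j := by
      rw [Matrix.add_mul, swap_mul_self, TransvectionStruct.toMatrix, transvection]
      congr 1
      ext a b
      have hij := t.hij
      by_cases hbj : b = t.j
      · subst hbj
        rw [mul_swap_apply_right]
        simp [single_apply]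
      · by_cases hbi : b = t.i
        · subst hbi
          rw [mul_swap_apply_left]
          simp [single_apply, hij, Ne.symm hij]
        · rw [mul_swap_of_ne hbi hbj]
          simp [single_apply, Ne.symm hbi, Ne.symm hbj]
    have hd : (swap K t.i t.j + single t.i t.i t.c).det * (swap K t.i t.j).det = 1 := by
      rw [← det_mul, ← e]; simp
    rw [e]
    apply H_sym H hmul hU hL
    · rw [transpose_add, transpose_swap, transpose_single]
    · exact transpose_swap _ _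
    · exact IsUnit.of_mul_eq_one _ hd
    · exact IsUnit.of_mul_eq_one _ (by rw [mul_comm]; exact hd)
  · intro A B hA hB h1 h2
    show H (mA (A * B))
    rw [mA_mul]
    exact hmul _ _ (mult_mA _ (Ne.isUnit hA)) (mult_mA _ (Ne.isUnit hB)) h1 h2

theorem H_big (A B C D : Matrix n n K) (h : Mult (1:K) (fromBlocks A B C D))
    (hA : IsUnit A.det) : H (fromBlocks A B C D) := by
  unfold Mult J at h
  rw [fromBlocks_transpose, fromBlocks_multiply, fromBlocks_multiply, one_smul] at h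
  simp only [Matrix.mul_zero, Matrix.mul_one, zero_add, add_zero, Matrix.mul_neg] at h
  rw [fromBlocks_inj] at h
  obtain ⟨h1, h2, h3, h4⟩ := h
  have hAi : A * A⁻¹ = 1 := Matrix.mul_nonsing_inv _ hA
  have hiA : A⁻¹ * A = 1 := Matrix.nonsing_inv_mul _ hA
  have hAti : Aᵀ * (A⁻¹)ᵀ = 1 := by rw [← transpose_mul, hiA, transpose_one]
  have hAit : (A⁻¹)ᵀ * Aᵀ = 1 := by rw [← transpose_mul, hAi, transpose_one]
  have hCA : Cᵀ * A = Aᵀ * C := by
    have := h1
    simp only [Matrix.neg_mul] at this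
    exact eq_of_sub_eq_zero (by rw [← this]; abel)
  have hAD : Aᵀ * D = 1 + Cᵀ * B := by
    have := h2
    simp only [Matrix.neg_mul] at this
    have h5 : Cᵀ * B - Aᵀ * D = -1 := by rw [← this]; abel
    rw [sub_eq_iff_eq_add] at h5
    rw [h5]; abel
  have hDB : Dᵀ * B = Bᵀ * D := by
    have := h4
    simp only [Matrix.neg_mul] at this
    exact eq_of_sub_eq_zero (by rw [← this]; abel)
  have hSym1 : (C * A⁻¹)ᵀ = C * A⁻¹ := by
    rw [transpose_mul]
    calc (A⁻¹)ᵀ * Cᵀ = (A⁻¹)ᵀ * (Cᵀ * A) * A⁻¹ := by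
          rw [Matrix.mul_assoc, Matrix.mul_assoc, hAi, Matrix.mul_one]
      _ = ((A⁻¹)ᵀ * Aᵀ) * C * A⁻¹ := by rw [hCA]; simp only [Matrix.mul_assoc]
      _ = C * A⁻¹ := by rw [hAit, Matrix.one_mul]
  have hD : D = C * A⁻¹ * B + (A⁻¹)ᵀ := by
    have e1 : Aᵀ * (C * A⁻¹ * B + (A⁻¹)ᵀ) = Aᵀ * D := by
      rw [hAD, Matrix.mul_add, hAti, Matrix.mul_assoc C, ← Matrix.mul_assoc Aᵀ, ← hCA,
        Matrix.mul_assoc, ← Matrix.mul_assoc A, hAi, Matrix.one_mul, add_comm]
    calc D = (A⁻¹)ᵀ * (Aᵀ * D) := by rw [← Matrix.mul_assoc, hAit, Matrix.one_mul]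
      _ = _ := by rw [← e1, ← Matrix.mul_assoc, hAit, Matrix.one_mul]
  have hSym2 : (A⁻¹ * B)ᵀ = A⁻¹ * B := by
    -- from the symmetry of Bᵀ D
    have e1 : Bᵀ * (A⁻¹)ᵀ = Bᵀ * D - Bᵀ * (C * A⁻¹) * B := by
      rw [hD, Matrix.mul_add]; simp only [Matrix.mul_assoc]; abel
    have e2 : A⁻¹ * B = (Bᵀ * (A⁻¹)ᵀ)ᵀ := by rw [transpose_mul, transpose_transpose, transpose_transpose]
    rw [transpose_mul]
    conv_rhs => rw [e2, e1]
    rw [e1, transpose_sub, transpose_mul, transpose_transpose, transpose_mul, transpose_mul, hSym1, hDB,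
      transpose_transpose, Matrix.mul_assoc]
  have e : fromBlocks A B C D = nL (C * A⁻¹) * mA A * nU (A⁻¹ * B) := by
    unfold nL mA nU
    simp only [fromBlocks_multiply]
    congr 1
    · simp
    · simp [← Matrix.mul_assoc, hAi]
    · simp [Matrix.mul_assoc, hiA]
    · simp only [Matrix.mul_zero, Matrix.one_mul, zero_add, add_zero, Matrix.mul_one]
      rw [Matrix.mul_assoc (C * A⁻¹) A, ← Matrix.mul_assoc A, hAi, Matrix.one_mul]
      exact hD
  rw [e]
  have m1 := mult_nL _ hSym1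
  have m2 := mult_mA A hA
  have m3 := mult_nU _ hSym2
  have m12 := m1.mul m2
  rw [_root_.mul_one] at m12
  exact hmul _ _ m12 m3 (hmul _ _ m1 m2 (hL _ hSym1) (H_mA H hmul hU hL A hA)) (hU _ hSym2)

omit H hmul hU hL in
theorem exists_S (A : Matrix n n K) : ∃ S : Finset n,
    (∀ z s : n → K, (∀ i, i ∉ S → s i = 0) → A *ᵥ z = s → s = 0) ∧
    ∀ i, ∃ z s : n → K, (∀ l, l ∉ S → s l = 0) ∧ A *ᵥ z + s = Pi.single i 1 := by
  classical
  let P : Finset n → Prop := fun S =>
    ∀ z s : n → K, (∀ i, i ∉ S → s i = 0) → A *ᵥ z = s → s = 0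
  have h0 : P ∅ := by
    intro z s hs _
    funext i
    exact hs i (Finset.notMem_empty i)
  obtain ⟨S, hS, hmax⟩ := Finset.exists_max_image
    (Finset.univ.filter P) (fun S => S.card) ⟨∅, by simp [h0]⟩
  rw [Finset.mem_filter] at hS
  refine ⟨S, hS.2, ?_⟩
  intro i
  by_cases hi : i ∈ S
  · refine ⟨0, Pi.single i 1, ?_, by simp⟩
    intro l hl
    have : l ≠ i := fun h => hl (h ▸ hi)
    simp [this]
  · have hnot : ¬ P (insert i S) := by
      intro h
      have := hmax (insert i S) (by simp [h])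
      rw [Finset.card_insert_of_notMem hi] at this
      omega
    simp only [P] at hnot
    push Not at hnot
    obtain ⟨z, s, hs, hz, hne⟩ := hnot
    have hsi : s i ≠ 0 := by
      intro h
      apply hne
      apply hS.2 z s _ hz
      intro l hl
      by_cases hli : l = i
      · rw [hli]; exact h
      · exact hs l (by simp [hli, hl])
    refine ⟨(s i)⁻¹ • z, Pi.single i 1 - (s i)⁻¹ • s, ?_, ?_⟩
    · intro l hl
      by_cases hli : l = i
      · subst hli; simp [hsi]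
      · simp [hli, hs l (by simp [hli, hl])]
    · rw [Matrix.mulVec_smul, hz]; simp

theorem H_all (g : Matrix (n ⊕ n) (n ⊕ n) K) (hg : Mult (1:K) g) : H g := by
  classical
  obtain ⟨A, B, C, D, rfl⟩ : ∃ A B C D, g = fromBlocks A B C D :=
    ⟨_, _, _, _, (fromBlocks_toBlocks g).symm⟩
  have hCA : Cᵀ * A = Aᵀ * C := by
    have h := hg
    unfold Mult J at h
    rw [fromBlocks_transpose, fromBlocks_multiply, fromBlocks_multiply, one_smul] at h
    simp only [Matrix.mul_zero, Matrix.mul_one, zero_add, add_zero, Matrix.mul_neg] at h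
    rw [fromBlocks_inj] at h
    obtain ⟨h1, h2, h3, h4⟩ := h
    simp only [Matrix.neg_mul] at h1
    exact eq_of_sub_eq_zero (by rw [← h1]; abel)
  have hdet := (Mult.inv one_ne_zero hg).1
  obtain ⟨S, hS1, hS2⟩ := exists_S A
  let X : Matrix n n K := diagonal (fun i => if i ∈ S then 1 else 0)
  have hX : Xᵀ = X := diagonal_transpose _
  have hinv : IsUnit (A + X * C).det := by
    rw [isUnit_iff_ne_zero]
    intro hd
    obtain ⟨z, hz0, hz⟩ := Matrix.exists_mulVec_eq_zero_iff.mpr hd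
    rw [Matrix.add_mulVec, ← Matrix.mulVec_mulVec] at hz
    have hsupp : ∀ i, i ∉ S → (-(X *ᵥ (C *ᵥ z))) i = 0 := by
      intro i hi
      rw [Pi.neg_apply, show X = diagonal (fun i => if i ∈ S then (1:K) else 0) from rfl,
        mulVec_diagonal, if_neg hi, zero_mul, neg_zero]
    have hAz : A *ᵥ z = -(X *ᵥ (C *ᵥ z)) := eq_neg_of_add_eq_zero_left hz
    have h1 := hS1 z _ hsupp hAz
    have hAz0 : A *ᵥ z = 0 := by rw [hAz, h1]
    have hCz : ∀ i ∈ S, (C *ᵥ z) i = 0 := by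
      intro i hi
      have := congrFun h1 i
      rw [Pi.neg_apply, show X = diagonal (fun i => if i ∈ S then (1:K) else 0) from rfl,
        mulVec_diagonal, if_pos hi, one_mul] at this
      exact neg_eq_zero.mp this
    have hCz0 : C *ᵥ z = 0 := by
      funext i
      obtain ⟨y, s, hs, hy⟩ := hS2 i
      have e1 : (C *ᵥ z) i = (C *ᵥ z) ⬝ᵥ (Pi.single i 1) := by simp
      rw [e1, ← hy, dotProduct_add]
      have e2 : (C *ᵥ z) ⬝ᵥ s = 0 := by
        apply Finset.sum_eq_zero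
        intro l _
        by_cases hl : l ∈ S
        · rw [hCz l hl, zero_mul]
        · rw [hs l hl, mul_zero]
      have e3 : (C *ᵥ z) ⬝ᵥ (A *ᵥ y) = 0 := by
        rw [dotProduct_comm, Matrix.dotProduct_mulVec, ← Matrix.mulVec_transpose, Matrix.mulVec_mulVec,
          hCA, ← Matrix.mulVec_mulVec, Matrix.mulVec_transpose, ← Matrix.dotProduct_mulVec, hAz0,
          dotProduct_zero]
      rw [e2, e3, add_zero]; rfl
    have h2 : (fromBlocks A B C D) *ᵥ (Sum.elim z 0) = 0 := by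
      rw [fromBlocks_mulVec]
      simp [hAz0, hCz0]
    have h3 : (Sum.elim z 0 : n ⊕ n → K) ≠ 0 := by
      intro h
      apply hz0
      funext i
      exact congrFun h (Sum.inl i)
    exact hdet.ne_zero (Matrix.exists_mulVec_eq_zero_iff.mp ⟨_, h3, h2⟩)
  have hXn : (-X)ᵀ = -X := by rw [transpose_neg, hX]
  have m1 := (mult_nU X hX).mul hg
  rw [_root_.mul_one] at m1
  have e : nU X * fromBlocks A B C D = fromBlocks (A + X * C) (B + X * D) C D := by
    unfold nU; rw [fromBlocks_multiply]; simp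
  have e' : fromBlocks A B C D = nU (-X) * (nU X * fromBlocks A B C D) := by
    rw [← Matrix.mul_assoc]
    have : nU (-X) * nU X = 1 := by
      unfold nU; rw [fromBlocks_multiply]; simp
    rw [this, Matrix.one_mul]
  rw [e']
  refine hmul _ _ (mult_nU _ hXn) m1 (hU _ hXn) ?_
  rw [e] at m1 ⊢
  exact H_big H hmul hU hL _ _ _ _ m1 hinv

end gen

end Pool.Agent.H26.Symp
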