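import Mathlib

set_option autoImplicit false
set_option linter.style.haveILetI false

open Matrix

namespace Pool.Agent.H26.TR

theorem trace_norm_le {n : Type} [Fintype n] [DecidableEq n] (B : Matrix n n ℂ) (m : ℕ) (hm : 0 < m)
    (hB : B ^ m = 1) : ‖B.trace‖ ≤ Fintype.card n := by
  rcases isEmpty_or_nonempty n with h | h
  · simp
  rw [Matrix.trace_eq_sum_roots_charpoly]
  have h1 : ∀ μ ∈ B.charpoly.roots, ‖μ‖ = 1 := by
    intro μ hμ
    have h2 : μ ∈ spectrum ℂ B := by
      rw [Matrix.mem_spectrum_iff_isRoot_charpoly]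
      exact Polynomial.isRoot_of_mem_roots hμ
    have h3 : μ ^ m ∈ spectrum ℂ (B ^ m) := spectrum.pow_mem_pow B m h2
    rw [hB, spectrum.one_eq] at h3
    exact Complex.norm_eq_one_of_pow_eq_one h3 hm.ne'
  have h4 : ‖B.charpoly.roots.sum‖ ≤ (B.charpoly.roots.map (fun μ => ‖μ‖)).sum := by
    exact norm_multiset_sum_le _
  refine h4.trans ?_
  rw [Multiset.map_congr rfl h1]
  simp only [Multiset.map_const', Multiset.sum_replicate, mul_one, nsmul_eq_mul]
  have h5 := (IsAlgClosed.splits B.charpoly).natDegree_eq_card_roots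
  rw [← h5, Matrix.charpoly_natDegree_eq_dim]

/-- an anti-multiplicative unital linear bijection of a matrix algebra is `X ↦ A Xᵀ A⁻¹` -/
theorem anti_inner {n : Type} [Fintype n] [DecidableEq n] [Nonempty n]
    (t : Matrix n n ℂ →ₗ[ℂ] Matrix n n ℂ) (hmul : ∀ X Y, t (X * Y) = t Y * t X)
    (hinj : Function.Injective t) :
    ∃ A : Matrix n n ℂ, IsUnit A.det ∧ ∀ X, t X = A * Xᵀ * A⁻¹ := by
  obtain ⟨o⟩ := ‹Nonempty n›
  let F : n → n → Matrix n n ℂ := fun j k => t (Matrix.single k j 1)
  have hF : ∀ j k l m, F j k * F l m = if k = l then F j m else 0 := by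
    intro j k l m
    simp only [F]
    rw [← hmul]
    by_cases h : k = l
    · subst h
      rw [Matrix.single_mul_single_same, if_pos rfl, one_mul]
    · rw [Matrix.single_mul_single_of_ne _ _ _ _ (fun h' => h h'.symm), if_neg h, map_zero]
  have hne : F o o ≠ 0 := by
    intro h
    have : (Matrix.single o o (1 : ℂ)) = 0 := by
      apply hinj
      rw [map_zero]; exact h
    have h2 := congrFun (congrFun this o) o
    simp at h2
  obtain ⟨v, hv⟩ : ∃ v, F o o *ᵥ v ≠ 0 := by
    by_contra hcon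
    push Not at hcon
    apply hne
    apply Matrix.ext_of_mulVec_single
    intro i
    rw [hcon, Matrix.zero_mulVec]
  set u := F o o *ᵥ v with hu
  have huu : F o o *ᵥ u = u := by
    rw [hu, Matrix.mulVec_mulVec, hF, if_pos rfl]
  let A : Matrix n n ℂ := Matrix.of (fun a j => (F j o *ᵥ u) a)
  have hAx : ∀ x, A *ᵥ x = ∑ j, x j • (F j o *ᵥ u) := by
    intro x
    funext a
    simp only [A, Matrix.mulVec, dotProduct, Matrix.of_apply, Finset.sum_apply, Pi.smul_apply, smul_eq_mul]
    apply Finset.sum_congr rfl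
    intro j _
    ring
  have hcomm : ∀ j k x, (F j k * A) *ᵥ x = x k • (F j o *ᵥ u) := by
    intro j k x
    rw [← Matrix.mulVec_mulVec, hAx, Matrix.mulVec_sum, Finset.sum_eq_single k]
    · rw [Matrix.mulVec_smul, Matrix.mulVec_mulVec, hF, if_pos rfl]
    · intro l _ hl
      rw [Matrix.mulVec_smul, Matrix.mulVec_mulVec, hF, if_neg hl.symm, Matrix.zero_mulVec, smul_zero]
    · intro h; exact absurd (Finset.mem_univ _) h
  have hcomm2 : ∀ j k, F j k * A = A * Matrix.single j k 1 := by
    intro j k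
    apply Matrix.ext_of_mulVec_single
    intro i
    rw [hcomm, ← Matrix.mulVec_mulVec, hAx]
    have hs : ∀ l, (Matrix.single j k (1 : ℂ) *ᵥ Pi.single i 1) l = if j = l ∧ k = i then 1 else 0 := by
      intro l
      rw [Matrix.mulVec_single_one, Matrix.col_apply, Matrix.single_apply]
    by_cases h : i = k
    · subst h
      rw [Finset.sum_eq_single j]
      · rw [hs]; simp
      · intro l _ hl
        rw [hs, if_neg (fun h => hl h.1.symm), zero_smul]
      · intro h; exact absurd (Finset.mem_univ _) h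
    · rw [Finset.sum_eq_zero]
      · rw [Pi.single_eq_of_ne (Ne.symm h), zero_smul]
      · intro l _
        rw [hs, if_neg (fun h' => h h'.2.symm), zero_smul]
  have hdet : IsUnit A.det := by
    rw [isUnit_iff_ne_zero]
    intro hd
    obtain ⟨x, hx0, hx⟩ := Matrix.exists_mulVec_eq_zero_iff.mpr hd
    apply hx0
    funext k
    have h1 := hcomm o k x
    rw [← Matrix.mulVec_mulVec, hx, Matrix.mulVec_zero, huu] at h1
    have h2 := (smul_eq_zero.mp h1.symm).resolve_right hv
    simpa using h2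
  refine ⟨A, hdet, fun X => ?_⟩
  have hE : ∀ j k, t (Matrix.single k j 1) = A * (Matrix.single k j 1)ᵀ * A⁻¹ := by
    intro j k
    have := hcomm2 j k
    rw [Matrix.transpose_single]
    rw [← this, Matrix.mul_assoc, Matrix.mul_nonsing_inv _ hdet, Matrix.mul_one]
  have hX : X = ∑ k, ∑ j, X k j • (Matrix.single k j (1 : ℂ)) := by
    conv_lhs => rw [Matrix.matrix_eq_sum_single X]
    simp
  rw [hX, map_sum, Matrix.transpose_sum, Finset.mul_sum, Finset.sum_mul]
  apply Finset.sum_congr rfl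
  intro k _
  rw [map_sum, Matrix.transpose_sum, Finset.mul_sum, Finset.sum_mul]
  apply Finset.sum_congr rfl
  intro j _
  rw [map_smul, hE, Matrix.transpose_smul, Matrix.mul_smul, Matrix.smul_mul]

theorem block_trace {n : Type} [Fintype n] [DecidableEq n]
    (t : Matrix n n ℂ →ₗ[ℂ] Matrix n n ℂ) (hmul : ∀ X Y, t (X * Y) = t Y * t X)
    (N : ℕ) (hN : 0 < N) (ht : t ^ N = 1) :
    ‖LinearMap.trace ℂ (Matrix n n ℂ) t‖ ≤ Fintype.card n := by
  rcases isEmpty_or_nonempty n with h | h
  · have : t = 0 := LinearMap.ext (fun X => Matrix.ext (fun i => isEmptyElim i))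
    rw [this, map_zero]; simp
  have hinj : Function.Injective t := by
    intro X Y hXY
    have h1 : (t ^ N) X = (t ^ N) Y := by
      obtain ⟨k, rfl⟩ := Nat.exists_eq_succ_of_ne_zero hN.ne'
      rw [pow_succ, Module.End.mul_apply, Module.End.mul_apply, hXY]
    rw [ht] at h1
    exact h1
  obtain ⟨A, hA, htA⟩ := anti_inner t hmul hinj
  obtain ⟨B, hB⟩ : ∃ B : Matrix n n ℂ, B = A * (A⁻¹)ᵀ := ⟨_, rfl⟩
  -- trace
  have htr : LinearMap.trace ℂ (Matrix n n ℂ) t = B.trace := by
    rw [LinearMap.trace_eq_matrix_trace ℂ (Matrix.stdBasis ℂ n n), Matrix.trace, Fintype.sum_prod_type]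
    have h1 : ∀ j k, (LinearMap.toMatrix (Matrix.stdBasis ℂ n n) (Matrix.stdBasis ℂ n n) t).diag (j, k) =
        A j k * (A⁻¹) j k := by
      intro j k
      rw [Matrix.diag_apply, LinearMap.toMatrix_apply, Matrix.stdBasis_eq_single]
      have h2 : ∀ X : Matrix n n ℂ, (Matrix.stdBasis ℂ n n).repr X (j, k) = X j k := by
        intro X
        simp [Matrix.stdBasis]
      rw [h2, htA, Matrix.transpose_single]
      rw [Matrix.mul_apply, Finset.sum_eq_single j]
      · rw [Matrix.mul_single_apply_same, mul_one]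
      · intro l _ hl
        rw [Matrix.mul_single_apply_of_ne _ _ _ _ _ hl, zero_mul]
      · intro h; exact absurd (Finset.mem_univ _) h
    simp only [h1]
    rw [hB, Matrix.trace]
    apply Finset.sum_congr rfl
    intro j _
    rw [Matrix.diag_apply, Matrix.mul_apply]
    apply Finset.sum_congr rfl
    intro k _
    rw [Matrix.transpose_apply]
  rw [htr]
  have hAi : IsUnit (A⁻¹).det := by
    rw [Matrix.det_nonsing_inv]
    exact hA.ringInverse
  have hdetB : B.det = 1 := by
    rw [hB, Matrix.det_mul, Matrix.det_transpose, ← Matrix.det_mul, Matrix.mul_nonsing_inv _ hA, Matrix.det_one]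
  have hBu : IsUnit B.det := by rw [hdetB]; exact isUnit_one
  have ht2 : ∀ X, t (t X) * B = B * X := by
    intro X
    rw [htA, htA, hB]
    rw [Matrix.transpose_mul, Matrix.transpose_mul, Matrix.transpose_transpose]
    calc A * ((A⁻¹)ᵀ * (X * Aᵀ)) * A⁻¹ * (A * (A⁻¹)ᵀ)
        = A * (A⁻¹)ᵀ * X * Aᵀ * (A⁻¹ * A) * (A⁻¹)ᵀ := by simp only [Matrix.mul_assoc]
      _ = A * (A⁻¹)ᵀ * X * (Aᵀ * (A⁻¹)ᵀ) := by
          rw [Matrix.nonsing_inv_mul _ hA, Matrix.mul_one]; simp only [Matrix.mul_assoc]
      _ = A * (A⁻¹)ᵀ * X := by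
          rw [← Matrix.transpose_mul, Matrix.nonsing_inv_mul _ hA, Matrix.transpose_one, Matrix.mul_one]
  have hpow : ∀ k : ℕ, ∀ X, ((t ^ (2 * k)) X) * B ^ k = B ^ k * X := by
    intro k
    induction k with
    | zero => intro X; simp
    | succ k ih =>
      intro X
      have e1 : (t ^ (2 * (k + 1))) X = t (t ((t ^ (2 * k)) X)) := by
        rw [show 2 * (k + 1) = 1 + (1 + 2 * k) by ring, pow_add, pow_add, pow_one]
        rfl
      calc (t ^ (2 * (k + 1))) X * B ^ (k + 1) = (t (t ((t ^ (2 * k)) X)) * B) * B ^ k := by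
            rw [e1, pow_succ', Matrix.mul_assoc]
        _ = B * (((t ^ (2 * k)) X) * B ^ k) := by rw [ht2, Matrix.mul_assoc]
        _ = B * (B ^ k * X) := by rw [ih]
        _ = B ^ (k + 1) * X := by rw [pow_succ', Matrix.mul_assoc]
  have hN2 : t ^ (2 * N) = 1 := by rw [mul_comm, pow_mul, ht, one_pow]
  have hcomm : ∀ X, X * B ^ N = B ^ N * X := by
    intro X
    have := hpow N X
    rw [hN2] at this
    exact this
  obtain ⟨l, hl⟩ := Matrix.mem_range_scalar_iff_commute_single'.mpr (fun i j => hcomm (Matrix.single i j 1))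
  have hl2 : l ^ (Fintype.card n) = 1 := by
    have h1 : (B ^ N).det = 1 := by rw [Matrix.det_pow, hdetB, one_pow]
    rw [← hl, Matrix.scalar_apply, Matrix.det_diagonal] at h1
    simpa using h1
  apply trace_norm_le B (N * Fintype.card n) (Nat.mul_pos hN Fintype.card_pos)
  rw [pow_mul, ← hl, ← map_pow, hl2, map_one]

end Pool.Agent.H26.TR
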