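import Mathlib
import Pool.Agent.H26.TR1

set_option autoImplicit false
set_option linter.style.haveILetI false

open Matrix

namespace Pool.Agent.H26.TR

abbrev PA {n : ℕ} (d : Fin n → ℕ) : Type := (i : Fin n) → Matrix (Fin (d i)) (Fin (d i)) ℂ

theorem block_le {n : ℕ} (d : Fin n → ℕ) (T : PA d →ₗ[ℂ] PA d) (hmul : ∀ X Y, T (X * Y) = T Y * T X)
    (N : ℕ) (hN : 0 < N) (hT : T ^ N = 1) (i : Fin n) :
    ‖LinearMap.trace ℂ (Matrix (Fin (d i)) (Fin (d i)) ℂ)
      ((LinearMap.proj i : PA d →ₗ[ℂ] Matrix (Fin (d i)) (Fin (d i)) ℂ) ∘ₗ T ∘ₗ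
        (LinearMap.single ℂ (fun i => Matrix (Fin (d i)) (Fin (d i)) ℂ) i))‖ ≤ d i := by
  set t := ((LinearMap.proj i : PA d →ₗ[ℂ] Matrix (Fin (d i)) (Fin (d i)) ℂ) ∘ₗ T ∘ₗ
        (LinearMap.single ℂ (fun i => Matrix (Fin (d i)) (Fin (d i)) ℂ) i)) with ht
  have htX : ∀ X, t X = T (Pi.single i X) i := fun X => rfl
  set e : PA d := Pi.single i 1 with he
  have hsm : ∀ (X : Matrix (Fin (d i)) (Fin (d i)) ℂ) (Y : PA d), Y * Pi.single i X = Pi.single i (Y i * X) := by
    intro X Y
    funext j
    by_cases h : j = i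
    · subst h; simp
    · simp [Pi.single_eq_of_ne h]
  have hsm' : ∀ (X : Matrix (Fin (d i)) (Fin (d i)) ℂ) (Y : PA d), Pi.single i X * Y = Pi.single i (X * Y i) := by
    intro X Y
    funext j
    by_cases h : j = i
    · subst h; simp
    · simp [Pi.single_eq_of_ne h]
  have hee : e * e = e := by rw [he, hsm, Pi.single_eq_same, one_mul]
  have hec : ∀ x, x * e = e * x := by intro x; rw [he, hsm, hsm', one_mul, mul_one]
  have hsurj : Function.Surjective T := by
    intro y
    refine ⟨(T ^ (N - 1)) y, ?_⟩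
    have : T ((T ^ (N - 1)) y) = (T ^ N) y := by
      conv_rhs => rw [show N = 1 + (N - 1) by omega, pow_add, pow_one]
      rfl
    rw [this, hT]; rfl
  have hcent : ∀ x, (∀ y, x * y = y * x) → ∀ y, T x * y = y * T x := by
    intro x hx y
    obtain ⟨z, rfl⟩ := hsurj y
    rw [← hmul, ← hmul, hx]
  set f := T e with hf
  have hfc : ∀ y, f * y = y * f := hcent e (fun y => (hec y).symm)
  have hff : f * f = f := by rw [hf, ← hmul, hee]
  have hp : f i = 0 ∨ f i = 1 := by
    have h1 : ∀ j k, Commute (Matrix.single j k 1) (f i) := by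
      intro j k
      have := congrFun (hfc (Pi.single i (Matrix.single j k 1))) i
      simp only [Pi.mul_apply, Pi.single_eq_same] at this
      exact this.symm
    obtain ⟨l, hl⟩ := Matrix.mem_range_scalar_iff_commute_single'.mpr h1
    have h2 := congrFun hff i
    rw [Pi.mul_apply, ← hl, ← map_mul] at h2
    rcases isEmpty_or_nonempty (Fin (d i)) with h | h
    · left
      exact Matrix.ext (fun a => isEmptyElim a)
    · have h3 : l * l = l := by
        have := congrFun (congrFun h2 h.some) h.some
        simpa using this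
      rcases eq_or_ne l 0 with h4 | h4
      · left; rw [← hl, h4, map_zero]
      · right
        have : l = 1 := mul_left_cancel₀ h4 (by rw [h3, mul_one])
        rw [← hl, this, map_one]
  rcases hp with hp | hp
  · have : t = 0 := by
      apply LinearMap.ext
      intro X
      rw [htX]
      have h1 : (Pi.single i X : PA d) = Pi.single i X * e := by rw [he, hsm, Pi.single_eq_same, mul_one]
      rw [h1, hmul, Pi.mul_apply, ← hf, hp, zero_mul]
      rfl
    rw [this, map_zero]
    simp
  · have hfe : f * e = e := by rw [he, hsm, hp, one_mul]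
    have hfTf : f * T f = f := by
      have : T (f * e) = T e := by rw [hfe]
      rw [hmul] at this
      exact this
    have hTfc := hcent f hfc
    have chain : ∀ k : ℕ, f * (T ^ k) f = f := by
      intro k
      induction k with
      | zero => simpa using hff
      | succ k ih =>
        have h1 : T f = T ((T ^ k) f) * T f := by
          conv_lhs => rw [← ih]
          rw [hmul]
        have h2 : T ((T ^ k) f) = (T ^ (k + 1)) f := by rw [pow_succ']; rfl
        rw [h2] at h1
        calc f * (T ^ (k + 1)) f = (f * T f) * (T ^ (k + 1)) f := by rw [hfTf]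
          _ = f * ((T ^ (k + 1)) f * T f) := by rw [mul_assoc, hTfc]
          _ = f * T f := by rw [← h1]
          _ = f := hfTf
    have hef : f = e := by
      have h1 := chain (N - 1)
      have h2 : (T ^ (N - 1)) f = e := by
        have : (T ^ (N - 1)) f = (T ^ N) e := by
          conv_rhs => rw [show N = (N - 1) + 1 by omega, pow_add, pow_one]
          rfl
        rw [this, hT]; rfl
      rw [h2, hfe] at h1
      exact h1.symm
    have hTi : ∀ X, T (Pi.single i X) = Pi.single i (t X) := by
      intro X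
      have h1 : (Pi.single i X : PA d) = Pi.single i X * e := by rw [he, hsm, Pi.single_eq_same, mul_one]
      conv_lhs => rw [h1]
      rw [hmul, ← hf, hef, he, hsm', one_mul, htX]
    have hTk : ∀ k X, (T ^ k) (Pi.single i X) = Pi.single i ((t ^ k) X) := by
      intro k
      induction k with
      | zero => intro X; rfl
      | succ k ih =>
        intro X
        rw [pow_succ, pow_succ, Module.End.mul_apply, Module.End.mul_apply, hTi, ih]
    have htN : t ^ N = 1 := by
      apply LinearMap.ext
      intro X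
      have := hTk N X
      rw [hT] at this
      have h2 := congrFun this i
      simp only [Module.End.one_apply, Pi.single_eq_same] at h2
      exact h2.symm
    have htm : ∀ X Y, t (X * Y) = t Y * t X := by
      intro X Y
      rw [htX, htX, htX]
      have : (Pi.single i (X * Y) : PA d) = Pi.single i X * Pi.single i Y := by
        rw [hsm, Pi.single_eq_same]
      rw [this, hmul, Pi.mul_apply]
    have := block_trace t htm N hN htN
    simpa using this

theorem pi_trace {n : ℕ} (d : Fin n → ℕ) (T : PA d →ₗ[ℂ] PA d) (hmul : ∀ X Y, T (X * Y) = T Y * T X)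
    (N : ℕ) (hN : 0 < N) (hT : T ^ N = 1) :
    ‖LinearMap.trace ℂ (PA d) T‖ ≤ ∑ i, (d i : ℝ) := by
  have h1 : T = ∑ i, T ∘ₗ ((LinearMap.single ℂ (fun i => Matrix (Fin (d i)) (Fin (d i)) ℂ) i) ∘ₗ
      (LinearMap.proj i : PA d →ₗ[ℂ] Matrix (Fin (d i)) (Fin (d i)) ℂ)) := by
    apply LinearMap.ext
    intro x
    rw [LinearMap.sum_apply]
    simp only [LinearMap.comp_apply, LinearMap.proj_apply, LinearMap.coe_single]
    rw [← map_sum]
    congr 1
    exact (Finset.univ_sum_single x).symm
  conv_lhs => rw [h1]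
  rw [map_sum]
  refine (norm_sum_le _ _).trans (Finset.sum_le_sum (fun i _ => ?_))
  rw [← LinearMap.comp_assoc, LinearMap.trace_comp_comm']
  exact block_le d T hmul N hN hT i

theorem count_le (G : Type) [Group G] [Finite G] (α : G ≃* G) {n : ℕ} (d : Fin n → ℕ)
    (e : MonoidAlgebra ℂ G ≃ₐ[ℂ] PA d) :
    Nat.card {g : G // α g = g⁻¹} ≤ ∑ i, d i := by
  classical
  have := Fintype.ofFinite G
  let σ : Equiv.Perm G := α.toEquiv.trans (Equiv.inv G)
  have hσ : ∀ g, σ g = (α g)⁻¹ := fun g => rfl
  let b := MonoidAlgebra.basis G ℂ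
  let τ : MonoidAlgebra ℂ G →ₗ[ℂ] MonoidAlgebra ℂ G := b.constr ℂ (fun g => MonoidAlgebra.single (σ g) 1)
  have hτ : ∀ g, τ (MonoidAlgebra.single g 1) = MonoidAlgebra.single (σ g) 1 := by
    intro g
    have := b.constr_basis ℂ (fun g => MonoidAlgebra.single (σ g) (1 : ℂ)) g
    exact this
  have hτmul : ∀ x y, τ (x * y) = τ y * τ x := by
    have h1 : (LinearMap.mul ℂ (MonoidAlgebra ℂ G)).compr₂ τ =
        (LinearMap.mul ℂ (MonoidAlgebra ℂ G)).flip.compl₁₂ τ τ := by
      apply LinearMap.ext_basis b b
      intro i j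
      simp only [b, LinearMap.compr₂_apply, LinearMap.mul_apply', LinearMap.compl₁₂_apply, LinearMap.flip_apply,
        MonoidAlgebra.basis_apply]
      rw [MonoidAlgebra.single_mul_single, hτ, hτ, mul_one, hτ, MonoidAlgebra.single_mul_single, mul_one, hσ, hσ, hσ,
        map_mul, _root_.mul_inv_rev]
    intro x y
    have := congrArg (fun B => B x y) h1
    simpa using this
  have hτpow : ∀ (k : ℕ) g, (τ ^ k) (MonoidAlgebra.single g 1) = MonoidAlgebra.single ((σ ^ k) g) 1 := by
    intro k
    induction k with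
    | zero => intro g; rfl
    | succ k ih =>
      intro g
      rw [pow_succ, Module.End.mul_apply, hτ, ih, pow_succ]; rfl
  have hN : 0 < orderOf σ := orderOf_pos σ
  have hτN : τ ^ (orderOf σ) = 1 := by
    apply b.ext
    intro g
    simp only [b, MonoidAlgebra.basis_apply]
    rw [hτpow, pow_orderOf_eq_one]; rfl
  have htr : LinearMap.trace ℂ _ τ = (Nat.card {g : G // α g = g⁻¹} : ℂ) := by
    rw [LinearMap.trace_eq_matrix_trace ℂ b, Matrix.trace]
    have h1 : ∀ g, (LinearMap.toMatrix b b τ).diag g = if α g = g⁻¹ then 1 else 0 := by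
      intro g
      rw [Matrix.diag_apply, LinearMap.toMatrix_apply]
      simp only [b, MonoidAlgebra.basis_apply]
      rw [hτ]
      show (MonoidAlgebra.single (σ g) (1 : ℂ)).coeff g = _
      rw [MonoidAlgebra.coeff_single, Finsupp.single_apply, hσ]
      congr 1
      rw [eq_iff_iff, inv_eq_iff_eq_inv]
    simp only [h1]
    rw [Finset.sum_ite, Finset.sum_const_zero, add_zero, Finset.sum_const, nsmul_eq_mul, mul_one,
      Nat.card_eq_fintype_card, Fintype.card_subtype]
  let T : PA d →ₗ[ℂ] PA d := e.toLinearEquiv.conj τ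
  have hTe : ∀ x, T (e x) = e (τ x) := by
    intro x
    simp [T, LinearEquiv.conj_apply]
  have hTmul : ∀ X Y, T (X * Y) = T Y * T X := by
    intro X Y
    obtain ⟨x, rfl⟩ := e.surjective X
    obtain ⟨y, rfl⟩ := e.surjective Y
    rw [← map_mul, hTe, hTe, hTe, hτmul, map_mul]
  have hTpow : ∀ (k : ℕ) x, (T ^ k) (e x) = e ((τ ^ k) x) := by
    intro k
    induction k with
    | zero => intro x; rfl
    | succ k ih =>
      intro x
      rw [pow_succ, Module.End.mul_apply, hTe, ih, pow_succ, Module.End.mul_apply]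
  have hTN : T ^ (orderOf σ) = 1 := by
    apply LinearMap.ext
    intro X
    obtain ⟨x, rfl⟩ := e.surjective X
    rw [hTpow, hτN]; rfl
  have h2 : LinearMap.trace ℂ _ T = LinearMap.trace ℂ _ τ := LinearMap.trace_conj' τ e.toLinearEquiv
  have h3 := pi_trace d T hTmul _ hN hTN
  rw [h2, htr, Complex.norm_natCast] at h3
  exact_mod_cast h3

end Pool.Agent.H26.TR
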