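import Mathlib
import Pool.Agent.H26.TR2

set_option autoImplicit false
set_option linter.style.haveILetI false
set_option linter.unusedSectionVars false

open Matrix CategoryTheory

namespace Pool.Agent.H26.TR

variable {G : Type} [Group G] [Finite G] {n : ℕ} (d : Fin n → ℕ)
    (e : MonoidAlgebra ℂ G ≃ₐ[ℂ] PA d) (i : Fin n)

/-- block projection -/
noncomputable def Φ : MonoidAlgebra ℂ G →ₐ[ℂ] Matrix (Fin (d i)) (Fin (d i)) ℂ :=
  (Pi.evalAlgHom ℂ (fun i => Matrix (Fin (d i)) (Fin (d i)) ℂ) i).comp e.toAlgHom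

theorem Φ_surj : Function.Surjective (Φ d e i) := by
  intro X
  refine ⟨e.symm (Pi.single i X), ?_⟩
  simp [Φ]

/-- algebra hom to endomorphisms -/
noncomputable def Ψ : MonoidAlgebra ℂ G →ₐ[ℂ] Module.End ℂ (Fin (d i) → ℂ) :=
  (Matrix.toLinAlgEquiv' (R := ℂ) (n := Fin (d i))).toAlgHom.comp (Φ d e i)

theorem Ψ_surj : Function.Surjective (Ψ d e i) := by
  intro X
  obtain ⟨x, hx⟩ := Φ_surj d e i ((Matrix.toLinAlgEquiv' (R := ℂ) (n := Fin (d i))).symm X)
  refine ⟨x, ?_⟩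
  show (Matrix.toLinAlgEquiv' (R := ℂ) (n := Fin (d i))) (Φ d e i x) = X
  rw [hx, AlgEquiv.apply_symm_apply]

/-- the representation -/
noncomputable def rho : Representation ℂ G (Fin (d i) → ℂ) :=
  (Ψ d e i : MonoidAlgebra ℂ G →* Module.End ℂ (Fin (d i) → ℂ)).comp (MonoidAlgebra.of ℂ G)

theorem rho_apply (g : G) : rho d e i g = Ψ d e i (MonoidAlgebra.single g 1) := rfl

noncomputable def VV : FDRep ℂ G := FDRep.of (rho d e i)

theorem rho_lift {W : Type} [AddCommGroup W] [Module ℂ W] (f h : MonoidAlgebra ℂ G →ₗ[ℂ] W)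
    (hfh : ∀ g : G, f (MonoidAlgebra.single g 1) = h (MonoidAlgebra.single g 1)) (x : MonoidAlgebra ℂ G) : f x = h x := by
  have : f = h := (MonoidAlgebra.basis G ℂ).ext hfh
  rw [this]

theorem VV_simple (hd : 0 < d i) : Simple (VV d e i) := by
  have hnz : NeZero (Nat.card G : ℂ) := ⟨by exact_mod_cast Nat.card_pos.ne'⟩
  rw [FDRep.simple_iff_end_is_rank_one]
  have hne : (𝟙 (VV d e i)) ≠ 0 := by
    intro h
    have h1 : ∀ v : (Fin (d i) → ℂ), v = 0 := by
      intro v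
      have := congrArg (fun f => f.hom.hom.hom v) h
      exact this
    have h2 := congrFun (h1 (fun _ => 1)) ⟨0, hd⟩
    simp at h2
  rw [finrank_eq_one_iff_of_nonzero' (𝟙 (VV d e i)) hne]
  intro w
  let L : Module.End ℂ (Fin (d i) → ℂ) := w.hom.hom.hom
  have hL : ∀ g, rho d e i g * L = L * rho d e i g := by
    intro g
    have h1 := w.comm g
    have h2 := congrArg (fun f => f.hom.hom) h1
    exact h2.symm
  have hL2 : ∀ x, Ψ d e i x * L = L * Ψ d e i x := by
    intro x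
    exact rho_lift ((LinearMap.mulRight ℂ L).comp (Ψ d e i).toLinearMap)
      ((LinearMap.mulLeft ℂ L).comp (Ψ d e i).toLinearMap) (fun g => hL g) x
  have hL3 : ∀ X : Module.End ℂ (Fin (d i) → ℂ), X * L = L * X := by
    intro X
    obtain ⟨x, rfl⟩ := Ψ_surj d e i X
    exact hL2 x
  let M := (Matrix.toLinAlgEquiv' (R := ℂ) (n := Fin (d i))).symm L
  have hM : ∀ j k, Commute (Matrix.single j k 1) M := by
    intro j k
    have h1 := hL3 ((Matrix.toLinAlgEquiv' (R := ℂ) (n := Fin (d i))) (Matrix.single j k 1))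
    have h2 := congrArg ((Matrix.toLinAlgEquiv' (R := ℂ) (n := Fin (d i))).symm) h1
    rw [map_mul, map_mul, AlgEquiv.symm_apply_apply] at h2
    exact h2
  obtain ⟨c, hc⟩ := Matrix.mem_range_scalar_iff_commute_single'.mpr hM
  refine ⟨c, ?_⟩
  have hLc : L = c • (1 : Module.End ℂ (Fin (d i) → ℂ)) := by
    have h1 : L = (Matrix.toLinAlgEquiv' (R := ℂ) (n := Fin (d i))) M := by
      rw [AlgEquiv.apply_symm_apply]
    rw [h1, ← hc, Matrix.scalar_apply, ← Matrix.smul_one_eq_diagonal, map_smul, map_one]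
  apply Action.Hom.ext
  apply FGModuleCat.hom_ext
  exact hLc.symm

theorem VV_inj (hd : ∀ i, 0 < d i) (i j : Fin n) (h : Nonempty (VV d e i ≅ VV d e j)) : i = j := by
  obtain ⟨f⟩ := h
  by_contra hij
  let L : (Fin (d i) → ℂ) ≃ₗ[ℂ] (Fin (d j) → ℂ) := FDRep.isoToLinearEquiv f
  have h1 : ∀ g, rho d e j g = L.conj (rho d e i g) := fun g => FDRep.Iso.conj_ρ f g
  have h2 : ∀ x, Ψ d e j x = L.conj (Ψ d e i x) := by
    intro x
    exact rho_lift (Ψ d e j).toLinearMap (L.conj.toLinearMap.comp (Ψ d e i).toLinearMap) (fun g => h1 g) x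
  have h3 := h2 (e.symm (Pi.single i 1))
  have h4 : Ψ d e i (e.symm (Pi.single i 1)) = 1 := by
    show (Matrix.toLinAlgEquiv' (R := ℂ) (n := Fin (d i))) (Φ d e i (e.symm (Pi.single i 1))) = 1
    have : Φ d e i (e.symm (Pi.single i 1)) = 1 := by simp [Φ]
    rw [this, map_one]
  have h5 : Ψ d e j (e.symm (Pi.single i 1)) = 0 := by
    show (Matrix.toLinAlgEquiv' (R := ℂ) (n := Fin (d j))) (Φ d e j (e.symm (Pi.single i 1))) = 0
    have : Φ d e j (e.symm (Pi.single i 1)) = 0 := by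
      simp only [Φ, AlgHom.comp_apply]
      show (e (e.symm (Pi.single i 1))) j = 0
      rw [AlgEquiv.apply_symm_apply, Pi.single_eq_of_ne (fun h => hij h.symm)]
    rw [this, map_zero]
  rw [h4, h5] at h3
  have h6 : L.conj (1 : Module.End ℂ (Fin (d i) → ℂ)) = 1 := LinearEquiv.conj_id L
  rw [h6] at h3
  have h7 := congrArg (fun F : Module.End ℂ (Fin (d j) → ℂ) => F (fun _ => 1) ⟨0, hd j⟩) h3
  simp at h7

end Pool.Agent.H26.TR
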