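import Mathlib

set_option autoImplicit false
set_option linter.style.haveILetI false
open Polynomial

namespace Pool.Agent.H26.TorusFixed

variable {V : Type} [AddCommGroup V] [Module ℂ V]

/-- extraction of an eigenvector -/
theorem exists_eig (U : V →ₗ[ℂ] V) (s : Finset ℂ) (v : V) (hv : v ≠ 0)
    (h : aeval U (∏ μ ∈ s, (X - C μ)) v = 0) :
    ∃ μ ∈ s, ∃ Q : ℂ[X], aeval U Q v ≠ 0 ∧ U (aeval U Q v) = μ • aeval U Q v := by
  classical
  induction s using Finset.induction_on with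
  | empty => simp at h; exact absurd h hv
  | insert μ s hμ ih =>
    by_cases h0 : aeval U (∏ μ ∈ s, (X - C μ)) v = 0
    · obtain ⟨ν, hν, Q, hQ⟩ := ih h0
      exact ⟨ν, Finset.mem_insert_of_mem hν, Q, hQ⟩
    · refine ⟨μ, Finset.mem_insert_self _ _, _, h0, ?_⟩
      rw [Finset.prod_insert hμ, map_mul, map_sub, aeval_X, aeval_C] at h
      have h' : (U - algebraMap ℂ (Module.End ℂ V) μ) (aeval U (∏ μ ∈ s, (X - C μ)) v) = 0 := h
      rw [LinearMap.sub_apply, Module.algebraMap_end_apply, sub_eq_zero] at h'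
      exact h'

theorem torus_fixed (p : ℕ) [Fact p.Prime] (u τ : ℚ_[p] → (V →ₗ[ℂ] V))
    (hu0 : u 0 = LinearMap.id)
    (hu : ∀ x y, u (x + y) = u x ∘ₗ u y)
    (hτ1 : τ 1 = LinearMap.id)
    (hτ : ∀ a b, ‖a‖ = 1 → ‖b‖ = 1 → τ (a * b) = τ a ∘ₗ τ b)
    (hc : ∀ a x, ‖a‖ = 1 → u x ∘ₗ τ a = τ a ∘ₗ u (a * x))
    (v : V) (m : ℕ)
    (hvu : ∀ x, ‖x‖ ≤ (p:ℝ) ^ (-(m:ℤ)) → u x v = v)
    (hvτ : ∀ a, ‖a‖ = 1 → ‖a - 1‖ ≤ (p:ℝ) ^ (-(m:ℤ)) → τ a v = v)
    (x0 : ℚ_[p]) (hx0 : u x0 v ≠ v) :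
    ∃ w : V, w ≠ 0 ∧ ∀ a, ‖a‖ = 1 → τ a w = w := by
  classical
  have hp : p.Prime := Fact.out
  have hp1 : (1:ℝ) < p := by exact_mod_cast hp.one_lt
  have hp0 : (0:ℝ) < p := by positivity
  have hpQ : (p : ℚ_[p]) ≠ 0 := by exact_mod_cast hp.ne_zero
  have hA : ∃ x1, u x1 v ≠ v ∧ ∀ y, ‖y‖ ≤ 1 → u (x1 * p * y) v = v := by
    let Q : ℕ → Prop := fun i => ∀ z : ℚ_[p], ‖z‖ ≤ 1 → u (x0 * p ^ i * z) v = v
    have hex : ∃ i, Q i := by
      obtain ⟨s, hs⟩ := pow_unbounded_of_one_lt ‖x0‖ hp1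
      refine ⟨s + m, fun z hz => hvu _ ?_⟩
      rw [norm_mul, norm_mul, norm_pow, Padic.norm_p, inv_pow, pow_add, mul_inv, zpow_neg, zpow_natCast]
      have h1 : ‖x0‖ * ((p:ℝ) ^ s)⁻¹ ≤ 1 := by
        rw [mul_inv_le_iff₀ (by positivity)]; linarith
      have h2 : 0 ≤ ((p:ℝ)^m)⁻¹ := by positivity
      calc ‖x0‖ * (((p:ℝ) ^ s)⁻¹ * ((p:ℝ) ^ m)⁻¹) * ‖z‖
          = (‖x0‖ * ((p:ℝ) ^ s)⁻¹) * ‖z‖ * ((p:ℝ) ^ m)⁻¹ := by ring
        _ ≤ 1 * ((p:ℝ) ^ m)⁻¹ := by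
            apply mul_le_mul_of_nonneg_right _ h2
            calc _ ≤ 1 * (1:ℝ) := mul_le_mul h1 hz (norm_nonneg _) zero_le_one
              _ = 1 := one_mul _
        _ = ((p:ℝ) ^ m)⁻¹ := one_mul _
    have h0 : ¬ Q 0 := fun h => hx0 (by simpa using h 1 (by simp))
    obtain ⟨i, hi⟩ : ∃ i, Nat.find hex = i + 1 := by
      refine ⟨Nat.find hex - 1, ?_⟩
      have : Nat.find hex ≠ 0 := by
        intro h
        apply h0
        rw [← h]; exact Nat.find_spec hex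
      omega
    have h1 := Nat.find_spec hex
    have h2 := Nat.find_min hex (show i < Nat.find hex by omega)
    rw [hi] at h1
    simp only [Q] at h2
    push Not at h2
    obtain ⟨z, hz, hz'⟩ := h2
    refine ⟨x0 * p ^ i * z, hz', fun y hy => ?_⟩
    have h3 := h1 (z * y) (by rw [norm_mul]; exact mul_le_one₀ hz (norm_nonneg _) hy)
    have e : x0 * (p:ℚ_[p]) ^ i * z * p * y = x0 * p ^ (i + 1) * (z * y) := by ring
    rw [e]; exact h3
  obtain ⟨x1, hx1, hx1'⟩ := hA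
  have hpm : (p : ℚ_[p]) ^ m ≠ 0 := pow_ne_zero _ hpQ
  let U : V →ₗ[ℂ] V := u (x1 * ((p : ℚ_[p]) ^ m)⁻¹)
  have hUpow : ∀ j : ℕ, U ^ j = u ((j : ℚ_[p]) * (x1 * ((p : ℚ_[p]) ^ m)⁻¹)) := by
    intro j
    induction j with
    | zero => rw [pow_zero, Nat.cast_zero, zero_mul, hu0]; rfl
    | succ j ih =>
      rw [pow_succ, ih, Nat.cast_succ, add_mul, one_mul, hu]; rfl
  have hU1 : U ^ (p ^ m) = u x1 := by
    rw [hUpow]; congr 1; push_cast; field_simp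
  have hU2 : (U ^ (p ^ (m + 1))) v = v := by
    rw [hUpow]
    have e : ((p ^ (m + 1) : ℕ) : ℚ_[p]) * (x1 * ((p : ℚ_[p]) ^ m)⁻¹) = x1 * p * 1 := by
      push_cast; field_simp; ring
    rw [e]; exact hx1' 1 (by simp)
  -- the eigenvector
  obtain ⟨ζ, hζ⟩ : ∃ ζ : ℂ, IsPrimitiveRoot ζ (p ^ (m + 1)) :=
    ⟨_, Complex.isPrimitiveRoot_exp _ (pow_ne_zero _ hp.ne_zero)⟩
  have hv'0 : aeval U (X ^ (p ^ m) - 1 : ℂ[X]) v ≠ 0 := by
    rw [map_sub, map_pow, aeval_X, hU1, map_one, LinearMap.sub_apply]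
    exact sub_ne_zero.mpr hx1
  have hcyc : aeval U (∏ μ ∈ primitiveRoots (p ^ (m + 1)) ℂ, (X - C μ))
      (aeval U (X ^ (p ^ m) - 1 : ℂ[X]) v) = 0 := by
    rw [← cyclotomic_eq_prod_X_sub_primitiveRoots hζ, ← Module.End.mul_apply, ← map_mul,
      cyclotomic_prime_pow_mul_X_pow_sub_one, map_sub, map_pow, aeval_X, map_one,
      LinearMap.sub_apply, hU2]
    simp
  obtain ⟨μ, hμ, Q, hQ0, hQU⟩ := exists_eig U _ _ hv'0 hcyc
  have hμ' : IsPrimitiveRoot μ (p ^ (m + 1)) :=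
    (mem_primitiveRoots (pow_pos hp.pos _)).mp hμ
  have hRmul : aeval U (Q * (X ^ p ^ m - 1)) v = aeval U Q (aeval U (X ^ p ^ m - 1 : ℂ[X]) v) := by
    rw [map_mul, Module.End.mul_apply]
  rw [← hRmul] at hQ0 hQU
  set R : ℂ[X] := Q * (X ^ p ^ m - 1) with hR
  set v2 : V := aeval U R v with hv2
  -- fixed by the small units
  have hsmall : ∀ a : ℚ_[p], ‖a‖ = 1 → ‖a - 1‖ ≤ (p:ℝ) ^ (-((m + 1 : ℕ):ℤ)) → τ a v2 = v2 := by
    intro a ha ha1
    have hane : a ≠ 0 := by intro h; rw [h] at ha; simp at ha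
    have hav : τ a v = v := by
      apply hvτ a ha
      refine ha1.trans ?_
      apply zpow_le_zpow_right₀ hp1.le
      push_cast; omega
    have hpw : ∀ j : ℕ, τ a ((U ^ j) v) = (U ^ j) v := by
      intro j
      rw [hUpow]
      set x := (j : ℚ_[p]) * (x1 * ((p : ℚ_[p]) ^ m)⁻¹) with hx
      have h1 := LinearMap.congr_fun (hc a (a⁻¹ * x) ha) v
      have e0 : a * (a⁻¹ * x) = x := by rw [← mul_assoc, mul_inv_cancel₀ hane, one_mul]
      rw [LinearMap.comp_apply, LinearMap.comp_apply, hav, e0] at h1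
      rw [← h1]
      have e : a⁻¹ * x = x + x1 * p * ((a⁻¹ - 1) * j * ((p : ℚ_[p]) ^ (m + 1))⁻¹) := by
        rw [hx]; field_simp; ring
      rw [e, hu, LinearMap.comp_apply, hx1']
      rw [norm_mul, norm_mul, norm_inv, norm_pow, Padic.norm_p, inv_pow, inv_inv]
      have e2 : a⁻¹ - 1 = - (a⁻¹ * (a - 1)) := by field_simp; ring
      rw [e2, norm_neg, norm_mul, norm_inv, ha, inv_one, one_mul]
      have hj : ‖(j : ℚ_[p])‖ ≤ 1 := by
        exact_mod_cast Padic.norm_int_le_one (p := p) (j : ℤ)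
      calc ‖a - 1‖ * ‖(j : ℚ_[p])‖ * (p:ℝ) ^ (m + 1)
          ≤ (p:ℝ) ^ (-((m + 1 : ℕ):ℤ)) * 1 * (p:ℝ) ^ (m + 1) := by
            apply mul_le_mul_of_nonneg_right _ (by positivity)
            exact mul_le_mul ha1 hj (norm_nonneg _) (by positivity)
        _ = 1 := by
            rw [mul_one, zpow_neg, zpow_natCast]
            exact inv_mul_cancel₀ (by positivity)
    rw [hv2, aeval_eq_sum_range]
    simp only [LinearMap.coe_sum, Finset.sum_apply, LinearMap.smul_apply, map_sum, map_smul, hpw]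
  -- comparison of torus elements
  have hcmp : ∀ b c : ℚ_[p], ‖b‖ = 1 → ‖c‖ = 1 → ‖b - c‖ ≤ (p:ℝ) ^ (-((m + 1 : ℕ):ℤ)) →
      τ b v2 = τ c v2 := by
    intro b c hb hc1 hbc
    have hcne : c ≠ 0 := by intro h; rw [h] at hc1; simp at hc1
    have h1 : ‖c⁻¹ * b‖ = 1 := by rw [norm_mul, norm_inv, hb, hc1]; simp
    have h2 : ‖c⁻¹ * b - 1‖ ≤ (p:ℝ) ^ (-((m + 1 : ℕ):ℤ)) := by
      have : c⁻¹ * b - 1 = c⁻¹ * (b - c) := by field_simp
      rw [this, norm_mul, norm_inv, hc1, inv_one, one_mul]; exact hbc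
    have h3 : b = c * (c⁻¹ * b) := by field_simp
    rw [h3, hτ c (c⁻¹ * b) hc1 h1, LinearMap.comp_apply, hsmall _ h1 h2]
  have hinj : ∀ b : ℚ_[p], ‖b‖ = 1 → ∀ w, τ b w = 0 → w = 0 := by
    intro b hb w hw
    have hbne : b ≠ 0 := by intro h; rw [h] at hb; simp at hb
    have h1 : ‖b⁻¹‖ = 1 := by rw [norm_inv, hb, inv_one]
    have h2 : τ (b⁻¹ * b) w = τ b⁻¹ (τ b w) := by rw [hτ _ _ h1 hb]; rfl
    rw [inv_mul_cancel₀ hbne, hτ1, hw, map_zero] at h2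
    exact h2
  have hNpos : 0 < p ^ (m + 1) := pow_pos hp.pos _
  haveI : NeZero (p ^ (m + 1)) := ⟨hNpos.ne'⟩
  let lift : (ZMod (p ^ (m + 1)))ˣ → ℚ_[p] := fun a => (((a : ZMod (p ^ (m + 1))).val : ℕ) : ℚ_[p])
  have hlift : ∀ a, ‖lift a‖ = 1 := by
    intro a
    have h1 : Nat.Coprime (a : ZMod (p ^ (m + 1))).val (p ^ (m + 1)) := ZMod.val_coe_unit_coprime a
    have h2 : Nat.Coprime (a : ZMod (p ^ (m + 1))).val p :=
      Nat.Coprime.coprime_dvd_right (dvd_pow_self p (by omega)) h1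
    have h3 : ¬ (p : ℤ) ∣ ((a : ZMod (p ^ (m + 1))).val : ℤ) := by
      intro h
      have h4 : p ∣ (a : ZMod (p ^ (m + 1))).val := by exact_mod_cast h
      exact hp.one_lt.ne' (Nat.dvd_one.mp (h2 ▸ Nat.dvd_gcd h4 dvd_rfl))
    have h5 := (Padic.norm_intCast_lt_one_iff (p := p) (k := ((a : ZMod (p ^ (m + 1))).val : ℤ))).not.mpr h3
    have h6 : ‖(((a : ZMod (p ^ (m + 1))).val : ℤ) : ℚ_[p])‖ ≤ 1 := Padic.norm_int_le_one _
    have h7 : ‖(((a : ZMod (p ^ (m + 1))).val : ℤ) : ℚ_[p])‖ = 1 := le_antisymm h6 (not_lt.mp h5)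
    show ‖(((a : ZMod (p ^ (m + 1))).val : ℕ) : ℚ_[p])‖ = 1
    rw [← h7]; norm_cast
  let f : (ZMod (p ^ (m + 1)))ˣ → V := fun a => τ (lift a) v2
  have hf0 : ∀ a, f a ≠ 0 := by
    intro a h
    exact hQ0 (hinj _ (hlift a) _ h)
  have hfU : ∀ a, U (f a) = μ ^ ((a : ZMod (p ^ (m + 1))).val) • f a := by
    intro a
    have h1 := LinearMap.congr_fun (hc (lift a) (x1 * ((p : ℚ_[p]) ^ m)⁻¹) (hlift a)) v2
    rw [LinearMap.comp_apply, LinearMap.comp_apply] at h1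
    show U (τ (lift a) v2) = _
    rw [show U (τ (lift a) v2) = τ (lift a) (u (lift a * (x1 * ((p : ℚ_[p]) ^ m)⁻¹)) v2) from h1]
    rw [← hUpow]
    have h2 : ∀ j : ℕ, (U ^ j) v2 = μ ^ j • v2 := by
      intro j
      induction j with
      | zero => simp
      | succ j ih =>
        rw [pow_succ', Module.End.mul_apply, ih, map_smul, hQU, smul_smul, pow_succ]
    rw [h2, map_smul]
  have hinjμ : Function.Injective
      (fun a : (ZMod (p ^ (m + 1)))ˣ => μ ^ ((a : ZMod (p ^ (m + 1))).val)) := by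
    intro a b hab
    have h1 : (a : ZMod (p ^ (m + 1))).val = (b : ZMod (p ^ (m + 1))).val :=
      hμ'.pow_inj (ZMod.val_lt _) (ZMod.val_lt _) hab
    exact Units.ext (ZMod.val_injective _ h1)
  have hlin : LinearIndependent ℂ f := by
    refine Module.End.eigenvectors_linearIndependent' U _ hinjμ f ?_
    intro a
    exact ⟨Module.End.mem_eigenspace_iff.mpr (hfU a), hf0 a⟩
  refine ⟨∑ a, f a, ?_, ?_⟩
  · intro h
    have h1 := Fintype.linearIndependent_iff.mp hlin (fun _ => 1) (by simpa using h) 1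
    exact one_ne_zero h1
  · intro b hb
    let b' : ℤ_[p] := ⟨b, hb.le⟩
    have hb' : IsUnit b' := PadicInt.isUnit_iff.mpr hb
    obtain ⟨B, hB⟩ := hb'
    let Bm : (ZMod (p ^ (m + 1)))ˣ := Units.map (PadicInt.toZModPow (p := p) (m + 1)).toMonoidHom B
    rw [map_sum]
    have h1 : ∀ a, τ b (f a) = f (Bm * a) := by
      intro a
      show τ b (τ (lift a) v2) = τ (lift (Bm * a)) v2
      rw [← LinearMap.comp_apply, ← hτ b (lift a) hb (hlift a)]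
      apply hcmp _ _ (by rw [norm_mul, hb, hlift, one_mul]) (hlift _)
      let z : ℤ_[p] := b' * (((a : ZMod (p ^ (m + 1))).val : ℕ) : ℤ_[p]) -
        ((((Bm * a : (ZMod (p ^ (m + 1)))ˣ) : ZMod (p ^ (m + 1))).val : ℕ) : ℤ_[p])
      have hz : z ∈ RingHom.ker (PadicInt.toZModPow (p := p) (m + 1)) := by
        rw [RingHom.mem_ker]
        simp only [z]
        rw [map_sub, map_mul, map_natCast, map_natCast, ZMod.natCast_zmod_val,
          ZMod.natCast_zmod_val, Units.val_mul, ← hB]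
        exact sub_self _
      rw [PadicInt.ker_toZModPow, ← PadicInt.norm_le_pow_iff_mem_span_pow] at hz
      have h2 : ‖z‖ = ‖b * lift a - lift (Bm * a)‖ := by
        rw [PadicInt.norm_def]
        simp only [z, lift, b']
        push_cast
        rfl
      rw [← h2]; exact hz
    simp_rw [h1]
    exact Fintype.sum_equiv (Equiv.mulLeft Bm) _ _ (fun a => rfl)

end Pool.Agent.H26.TorusFixed
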