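import Mathlib

set_option autoImplicit false
set_option linter.style.haveILetI false

namespace Pool.Agent.H26.WZ

open Subgroup
open scoped commutatorElement

/-- torsion-free -/
def TF (N : Type) [Group N] : Prop := ∀ g : N, g ≠ 1 → ∀ k : ℕ, 0 < k → g ^ k ≠ 1

theorem TF.of_inj {N M : Type} [Group N] [Group M] (h : TF M) (f : N →* M) (hf : Function.Injective f) :
    TF N := by
  intro g hg k hk h1
  apply h (f g) (fun h2 => hg (hf (by rw [h2, map_one]))) k hk
  rw [← map_pow, h1, map_one]

theorem ucs_tf (N : Type) [Group N] (htf : TF N) (n : ℕ) :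
    ∀ x ∈ Subgroup.upperCentralSeries N (n + 1), ∀ k : ℕ, 0 < k → x ^ k ∈ Subgroup.upperCentralSeries N n →
      x ∈ Subgroup.upperCentralSeries N n := by
  induction n with
  | zero =>
    intro x _ k hk h
    rw [Subgroup.upperCentralSeries_zero, mem_bot] at *
    by_contra hx
    exact htf x hx k hk h
  | succ n ih =>
    intro x hx k hk h
    rw [Subgroup.mem_upperCentralSeries_succ_iff]
    intro y
    have hc : ⁅x, y⁆ ∈ Subgroup.upperCentralSeries N (n + 1) := (Subgroup.mem_upperCentralSeries_succ_iff.mp hx) y
    apply ih _ hc k hk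
    have h1 : ⁅x ^ k, y⁆ ∈ Subgroup.upperCentralSeries N n := (Subgroup.mem_upperCentralSeries_succ_iff.mp h) y
    set π := QuotientGroup.mk' (Subgroup.upperCentralSeries N n) with hπ
    have hπ0 : ∀ z, z ∈ Subgroup.upperCentralSeries N n ↔ π z = 1 := by
      intro z; rw [hπ, QuotientGroup.mk'_apply, QuotientGroup.eq_one_iff]
    have hcc : ∀ z, π z * π ⁅x, y⁆ = π ⁅x, y⁆ * π z := by
      intro z
      have h3 : ⁅⁅x, y⁆, z⁆ ∈ Subgroup.upperCentralSeries N n := (Subgroup.mem_upperCentralSeries_succ_iff.mp hc) z
      rw [hπ0, commutatorElement_def] at h3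
      simp only [map_mul, map_inv] at h3 ⊢
      rw [mul_inv_eq_one, mul_inv_eq_iff_eq_mul] at h3
      exact h3.symm
    have h2 : ∀ j : ℕ, π x ^ j * π y = π ⁅x, y⁆ ^ j * (π y * π x ^ j) := by
      intro j
      induction j with
      | zero => simp
      | succ j ihj =>
        have e1 : π x * π y = π ⁅x, y⁆ * (π y * π x) := by
          rw [commutatorElement_def]; simp only [map_mul, map_inv]; group
        have hcx : ∀ z, π z * π ⁅x, y⁆ ^ j = π ⁅x, y⁆ ^ j * π z := by
          intro z
          exact (Commute.pow_right (hcc z) j)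
        calc π x ^ (j + 1) * π y = π x * (π x ^ j * π y) := by rw [pow_succ']; group
          _ = π x * π ⁅x, y⁆ ^ j * (π y * π x ^ j) := by rw [ihj]; group
          _ = π ⁅x, y⁆ ^ j * (π x * π y) * π x ^ j := by rw [hcx x]; group
          _ = π ⁅x, y⁆ ^ j * π ⁅x, y⁆ * (π y * (π x * π x ^ j)) := by rw [e1]; group
          _ = _ := by rw [← pow_succ, ← pow_succ']
    rw [hπ0, commutatorElement_def] at h1
    simp only [map_mul, map_inv, map_pow] at h1
    rw [mul_inv_eq_one, mul_inv_eq_iff_eq_mul, h2 k] at h1
    rw [hπ0, map_pow]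
    have h5 : π ⁅x, y⁆ ^ k * (π y * π x ^ k) = 1 * (π y * π x ^ k) := by rw [h1, one_mul]
    exact mul_right_cancel h5

theorem center_tf (N : Type) [Group N] [hn : Group.IsNilpotent N] (htf : TF N) :
    TF (N ⧸ center N) := by
  intro g hg k hk h
  obtain ⟨x, rfl⟩ := QuotientGroup.mk_surjective g
  apply hg
  rw [← QuotientGroup.mk_pow, QuotientGroup.eq_one_iff] at h
  rw [QuotientGroup.eq_one_iff]
  rw [← Subgroup.upperCentralSeries_one] at h ⊢
  obtain ⟨n, hn⟩ := Group.IsNilpotent.nilpotent N
  have key : ∀ j, x ∈ Subgroup.upperCentralSeries N (j + 1) → x ∈ Subgroup.upperCentralSeries N 1 := by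
    intro j
    induction j with
    | zero => exact fun h => h
    | succ j ih =>
      intro hx
      apply ih
      apply ucs_tf N htf (j + 1) x hx k hk
      exact Subgroup.upperCentralSeries_mono N (by omega) h
  apply key n
  apply Subgroup.upperCentralSeries_mono N (Nat.le_succ n)
  rw [hn]
  exact mem_top x

/-- poly-(infinite cyclic) groups of length `n` -/
def PolyZ : ℕ → (N : Type) → [Group N] → Prop
  | 0, N, _ => Subsingleton N
  | n + 1, N, _ => ∃ f : N →* Multiplicative ℤ, Function.Surjective f ∧ PolyZ n f.ker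

theorem PolyZ.iso (n : ℕ) : ∀ (N N' : Type) [Group N] [Group N'] (_ : N ≃* N'), PolyZ n N → PolyZ n N' := by
  induction n with
  | zero =>
    intro N N' _ _ e h
    have h' : Subsingleton N := h
    exact e.symm.injective.subsingleton
  | succ n ih =>
    intro N N' _ _ e h
    obtain ⟨f, hf, hk⟩ := h
    refine ⟨f.comp e.symm.toMonoidHom, hf.comp e.symm.surjective, ?_⟩
    refine ih f.ker _ ?_ hk
    refine (e.subgroupMap f.ker).trans (MulEquiv.subgroupCongr ?_)
    ext x
    rw [MonoidHom.mem_ker, Subgroup.mem_map]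
    constructor
    · rintro ⟨y, hy, rfl⟩
      simpa using hy
    · intro h
      exact ⟨e.symm x, by simpa using h, by simp⟩

theorem polyZ_pi (n : ℕ) : PolyZ n (Fin n → Multiplicative ℤ) := by
  induction n with
  | zero => exact (inferInstance : Subsingleton (Fin 0 → Multiplicative ℤ))
  | succ n ih =>
    refine ⟨Pi.evalMonoidHom _ 0, fun x => ⟨fun _ => x, rfl⟩, ?_⟩
    refine PolyZ.iso n _ _ ?_ ih
    refine
      { toFun := fun x => ⟨Fin.cons 1 x, by rw [MonoidHom.mem_ker]; rfl⟩
        invFun := fun x => fun i => x.1 i.succ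
        left_inv := fun x => by ext i; simp
        right_inv := fun x => by
          apply Subtype.ext
          funext i
          refine Fin.cases ?_ (fun j => ?_) i
          · have := x.2
            rw [MonoidHom.mem_ker] at this
            exact this.symm
          · simp
        map_mul' := fun x y => by
          apply Subtype.ext
          funext i
          refine Fin.cases ?_ (fun j => ?_) i
          · simp
          · simp }

theorem polyZ_comm (A : Type) [CommGroup A] [hA : Group.FG A] (htf : TF A) : ∃ n, PolyZ n A := by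
  haveI h1 : Module.Finite ℤ (Additive A) := Module.Finite.iff_addGroup_fg.mpr inferInstance
  haveI h2 : Module.IsTorsionFree ℤ (Additive A) := by
    rw [Module.isTorsionFree_iff_smul_eq_zero]
    intro n x h
    by_contra hcon
    push Not at hcon
    obtain ⟨hn, hx⟩ := hcon
    have h3 : (Additive.toMul x) ^ n = 1 := h
    have h4 : (Additive.toMul x) ^ n.natAbs = 1 := by
      rcases Int.natAbs_eq n with h5 | h5
      · rw [h5, zpow_natCast] at h3; exact h3
      · rw [h5, zpow_neg, zpow_natCast, inv_eq_one] at h3; exact h3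
    exact htf (Additive.toMul x) hx n.natAbs (Int.natAbs_pos.mpr hn) h4
  haveI : Module.Free ℤ (Additive A) := Module.free_of_finite_type_torsion_free'
  let b := Module.finBasis ℤ (Additive A)
  refine ⟨Module.finrank ℤ (Additive A), PolyZ.iso _ (Fin (Module.finrank ℤ (Additive A)) → Multiplicative ℤ) A ?_
    (polyZ_pi _)⟩
  exact
    { toFun := fun x => Additive.toMul (b.equivFun.symm (fun i => Multiplicative.toAdd (x i)))
      invFun := fun a => fun i => Multiplicative.ofAdd (b.equivFun (Additive.ofMul a) i)
      left_inv := fun x => by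
        funext i
        show Multiplicative.ofAdd (b.equivFun (b.equivFun.symm (fun i => Multiplicative.toAdd (x i))) i) = x i
        rw [LinearEquiv.apply_symm_apply]
        rfl
      right_inv := fun a => by
        show Additive.toMul (b.equivFun.symm (b.equivFun (Additive.ofMul a))) = a
        rw [LinearEquiv.symm_apply_apply]
        rfl
      map_mul' := fun x y => by
        have : (fun i => Multiplicative.toAdd ((x * y) i)) =
          (fun i => Multiplicative.toAdd (x i)) + (fun i => Multiplicative.toAdd (y i)) := rfl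
        rw [this, map_add]
        rfl }

/-- iterated commutators with `t` -/
def itc {N : Type} [Group N] (t y : N) : ℕ → N
  | 0 => y
  | i + 1 => (itc t y i)⁻¹ * (t * itc t y i * t⁻¹)

theorem itc_mem {N : Type} [Group N] (t y : N) (i : ℕ) :
    itc t y i ∈ (⊤ : Subgroup N).lowerCentralSeries i := by
  induction i with
  | zero => exact mem_top _
  | succ i ih =>
    rw [Subgroup.lowerCentralSeries_succ]
    have e : itc t y (i + 1) = ⁅(itc t y i)⁻¹, t⁆ := by
      rw [commutatorElement_def, itc]; group
    rw [e]
    exact commutator_mem_commutator (inv_mem ih) (mem_top t)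

theorem itc_one {N : Type} [Group N] [Group.IsNilpotent N] :
    ∃ c, ∀ t y : N, ∀ i, c ≤ i → itc t y i = 1 := by
  obtain ⟨c, hc⟩ := Subgroup.nilpotent_iff_lowerCentralSeries.mp (inferInstance : Group.IsNilpotent N)
  refine ⟨c, fun t y i hi => ?_⟩
  have h := (⊤ : Subgroup N).lowerCentralSeries_antitone hi (itc_mem t y i)
  rw [hc] at h
  simpa using h

theorem conj_itc {N : Type} [Group N] (t y : N) (i : ℕ) :
    t * itc t y i * t⁻¹ = itc t y i * itc t y (i + 1) := by
  rw [itc]; group

theorem ker_fg (N : Type) [Group N] [Group.IsNilpotent N] [hfg : Group.FG N]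
    (f : N →* Multiplicative ℤ) (hf : Function.Surjective f) : Group.FG f.ker := by
  classical
  obtain ⟨t, ht⟩ := hf (Multiplicative.ofAdd 1)
  obtain ⟨c, hc⟩ := itc_one (N := N)
  obtain ⟨S, hS, hSf⟩ := Group.fg_iff.mp hfg
  let red : N → N := fun x => x * (t ^ (Multiplicative.toAdd (f x)))⁻¹
  have hredf : ∀ x, f (red x) = 1 := by
    intro x
    simp only [red]
    rw [map_mul, map_inv, map_zpow, ht, ← ofAdd_zsmul]
    simp
  let Ys : Set N := (fun p : N × ℕ => itc t (red p.1) p.2) '' (S ×ˢ Set.Iic c)
  have hYf : Ys.Finite := (hSf.prod (Set.finite_Iic c)).image _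
  let Y := closure Ys
  have hmemY : ∀ x ∈ S, ∀ i, itc t (red x) i ∈ Y := by
    intro x hx i
    by_cases hi : i ≤ c
    · exact subset_closure ⟨(x, i), ⟨hx, hi⟩, rfl⟩
    · rw [hc t (red x) i (by omega)]; exact one_mem _
  have hinvY : ∀ x ∈ S, ∀ k i, c ≤ i + k → t⁻¹ * itc t (red x) i * t ∈ Y := by
    intro x hx k
    induction k with
    | zero =>
      intro i hi
      rw [hc t (red x) i (by omega)]
      simp
    | succ k ih =>
      intro i hi
      have h1 := ih (i + 1) (by omega)
      have h2 : t⁻¹ * itc t (red x) i * t = itc t (red x) i * (t⁻¹ * itc t (red x) (i + 1) * t)⁻¹ := by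
        rw [itc]; group
      rw [h2]
      exact mul_mem (hmemY x hx i) (inv_mem h1)
  have htn : t ∈ normalizer (Y : Set N) := by
    have h1 : ∀ h ∈ Y, t * h * t⁻¹ ∈ Y := by
      intro h hh
      induction hh using closure_induction with
      | mem y hy =>
        obtain ⟨⟨x, i⟩, ⟨hx, -⟩, rfl⟩ := hy
        simp only
        rw [conj_itc]
        exact mul_mem (hmemY x hx i) (hmemY x hx (i + 1))
      | one => simp
      | mul a b _ _ h1 h2 =>
        have : t * (a * b) * t⁻¹ = (t * a * t⁻¹) * (t * b * t⁻¹) := by group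
        rw [this]; exact mul_mem h1 h2
      | inv a _ h1 =>
        have : t * a⁻¹ * t⁻¹ = (t * a * t⁻¹)⁻¹ := by group
        rw [this]; exact inv_mem h1
    have h2 : ∀ h ∈ Y, t⁻¹ * h * t ∈ Y := by
      intro h hh
      induction hh using closure_induction with
      | mem y hy =>
        obtain ⟨⟨x, i⟩, ⟨hx, -⟩, rfl⟩ := hy
        exact hinvY x hx c i (by omega)
      | one => simp
      | mul a b _ _ h1 h2 =>
        have : t⁻¹ * (a * b) * t = (t⁻¹ * a * t) * (t⁻¹ * b * t) := by group
        rw [this]; exact mul_mem h1 h2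
      | inv a _ h1 =>
        have : t⁻¹ * a⁻¹ * t = (t⁻¹ * a * t)⁻¹ := by group
        rw [this]; exact inv_mem h1
    rw [mem_normalizer_iff]
    intro h
    constructor
    · exact h1 h
    · intro h3
      have := h2 _ h3
      have e : t⁻¹ * (t * h * t⁻¹) * t = h := by group
      rwa [e] at this
  have hconj : ∀ n : ℤ, ∀ h ∈ Y, t ^ n * h * (t ^ n)⁻¹ ∈ Y := by
    intro n h hh
    exact (mem_normalizer_iff.mp (zpow_mem htn n) h).mp hh
  have hall : ∀ g : N, red g ∈ Y := by
    intro g
    have hg : g ∈ closure S := by rw [hS]; exact mem_top g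
    induction hg using closure_induction with
    | mem x hx => exact hmemY x hx 0
    | one => simp [red]
    | mul a b _ _ h1 h2 =>
      have : red (a * b) = red a * (t ^ (Multiplicative.toAdd (f a)) * red b * (t ^ (Multiplicative.toAdd (f a)))⁻¹) := by
        simp only [red, map_mul, toAdd_mul, zpow_add]
        group
      rw [this]
      exact mul_mem h1 (hconj _ _ h2)
    | inv a _ h1 =>
      have : red a⁻¹ = t ^ (-(Multiplicative.toAdd (f a))) * (red a)⁻¹ * (t ^ (-(Multiplicative.toAdd (f a))))⁻¹ := by
        simp only [red, map_inv, toAdd_inv]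
        group
      rw [this]
      exact hconj _ _ (inv_mem h1)
  have hle : Y = f.ker := by
    apply le_antisymm
    · rw [closure_le]
      rintro _ ⟨⟨x, i⟩, ⟨hx, -⟩, rfl⟩
      simp only [SetLike.mem_coe]
      clear hx
      induction i with
      | zero => exact hredf x
      | succ i ih =>
        rw [itc]
        have h3 : f (itc t (red x) i) = 1 := ih
        rw [MonoidHom.mem_ker, map_mul, map_inv, map_mul, map_mul, h3]
        simp
    · intro g hg
      have hg' : f g = 1 := hg
      have := hall g
      simp only [red, hg', toAdd_one, zpow_zero, inv_one, mul_one] at this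
      exact this
  rw [Group.fg_iff_subgroup_fg, ← hle]
  exact ⟨hYf.toFinset, by simp [Y]⟩

end Pool.Agent.H26.WZ
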