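import Mathlib
import Pool.Agent.H26.WZ1

set_option autoImplicit false
set_option linter.style.haveILetI false

namespace Pool.Agent.H26.WZ

open Subgroup

section pull
variable {N Q : Type} [Group N] [Group Q] (π : N →* Q) (f : Q →* Multiplicative ℤ)

/-- the induced map on kernels -/
def pk : (f.comp π).ker →* f.ker where
  toFun x := ⟨π x.1, x.2⟩
  map_one' := by apply Subtype.ext; simp
  map_mul' x y := by apply Subtype.ext; simp

theorem pk_surj (hπ : Function.Surjective π) : Function.Surjective (pk π f) := by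
  rintro ⟨q, hq⟩
  obtain ⟨x, rfl⟩ := hπ q
  exact ⟨⟨x, hq⟩, rfl⟩

/-- kernels agree -/
def pkk : (pk π f).ker ≃* π.ker where
  toFun x := ⟨x.1.1, congrArg Subtype.val (MonoidHom.mem_ker.mp x.2)⟩
  invFun x := ⟨⟨x.1, by
    have : π x.1 = 1 := x.2
    rw [MonoidHom.mem_ker, MonoidHom.comp_apply, this, map_one]⟩, by
    rw [MonoidHom.mem_ker]; apply Subtype.ext; exact x.2⟩
  left_inv x := rfl
  right_inv x := rfl
  map_mul' x y := rfl

end pull

theorem ker_fg' (n : ℕ) : ∀ (N Q : Type) [Group N] [Group Q] [Group.IsNilpotent N] [Group.FG N]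
    (π : N →* Q), Function.Surjective π → PolyZ n Q → Group.FG π.ker := by
  induction n with
  | zero =>
    intro N Q _ _ _ hfg π _ h
    have h' : Subsingleton Q := h
    have : π.ker = ⊤ := by
      rw [eq_top_iff]; intro x _; exact Subsingleton.elim _ _
    rw [this]
    exact Group.fg_of_surjective (f := (Subgroup.topEquiv (G := N)).symm.toMonoidHom)
      (Subgroup.topEquiv (G := N)).symm.surjective
  | succ n ih =>
    intro N Q _ _ _ hfg π hπ h
    obtain ⟨f, hf, hk⟩ := h
    haveI := ker_fg N (f.comp π) (hf.comp hπ)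
    haveI := ih (f.comp π).ker f.ker (pk π f) (pk_surj π f hπ) hk
    exact Group.fg_of_surjective (f := (pkk π f).toMonoidHom) (pkk π f).surjective

theorem polyZ_ext (n m : ℕ) : ∀ (N Q : Type) [Group N] [Group Q]
    (π : N →* Q), Function.Surjective π → PolyZ n Q → PolyZ m π.ker → PolyZ (m + n) N := by
  induction n with
  | zero =>
    intro N Q _ _ π _ h hm
    have h' : Subsingleton Q := h
    have : π.ker = ⊤ := by
      rw [eq_top_iff]; intro x _; exact Subsingleton.elim _ _
    rw [this] at hm
    exact PolyZ.iso m _ _ (Subgroup.topEquiv (G := N)) hm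
  | succ n ih =>
    intro N Q _ _ π hπ h hm
    obtain ⟨f, hf, hk⟩ := h
    exact ⟨f.comp π, hf.comp hπ, ih _ _ (pk π f) (pk_surj π f hπ) hk
      (PolyZ.iso m _ _ (pkk π f).symm hm)⟩

theorem polyZ_nil (N : Type) [hN : Group N] [hnil : Group.IsNilpotent N] :
    Group.FG N → TF N → ∃ n, PolyZ n N := by
  apply @Group.nilpotent_center_quotient_ind
    (fun (N : Type) [Group N] [Group.IsNilpotent N] => Group.FG N → TF N → ∃ n, PolyZ n N) N _ _
  · intro G _ _ _ _
    exact ⟨0, (inferInstance : Subsingleton G)⟩
  · intro G _ _ ih hfg htf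
    haveI := hfg
    obtain ⟨n, hn⟩ := ih inferInstance (center_tf G htf)
    have hs : Function.Surjective (QuotientGroup.mk' (center G)) := QuotientGroup.mk'_surjective _
    have h1 := ker_fg' n G (G ⧸ center G) (QuotientGroup.mk' (center G)) hs hn
    rw [QuotientGroup.ker_mk'] at h1
    haveI := h1
    have htc : TF (center G) := TF.of_inj htf (center G).subtype Subtype.val_injective
    obtain ⟨m, hm⟩ : ∃ m, PolyZ m (center G) := by
      let cg : CommGroup (center G) :=
        { (inferInstance : Group (center G)) with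
          mul_comm := fun a b => Subtype.ext (mem_center_iff.mp b.2 a.1) }
      exact @polyZ_comm (center G) cg h1 htc
    refine ⟨m + n, polyZ_ext n m G (G ⧸ center G) (QuotientGroup.mk' (center G)) hs hn ?_⟩
    exact PolyZ.iso m _ _ (MulEquiv.subgroupCongr (QuotientGroup.ker_mk' (center G)).symm) hm

/-! ### residual property -/

/-- group ring -/
abbrev QG (N : Type) [Group N] : Type := MonoidAlgebra ℚ N

/-- group element in the ring -/
noncomputable abbrev e {N : Type} [Group N] (g : N) : QG N := MonoidAlgebra.of ℚ N g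

/-- augmentation ideal as a subspace -/
noncomputable def Aug (N : Type) [Group N] : Submodule ℚ (QG N) :=
  Submodule.span ℚ (Set.range (fun g : N => e g - 1))

/-- powers of the augmentation ideal -/
noncomputable def Fil (N : Type) [Group N] : ℕ → Submodule ℚ (QG N)
  | 0 => ⊤
  | k + 1 => Aug N * Fil N k

/-- separation of group elements by powers of the augmentation ideal -/
def RN (N : Type) [Group N] : Prop := ∀ g : N, g ≠ 1 → ∃ k, e g - 1 ∉ Fil N k

theorem mem_Aug {N : Type} [Group N] (g : N) : e g - 1 ∈ Aug N := Submodule.subset_span ⟨g, rfl⟩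

theorem mul_Aug {N : Type} [Group N] (x a : QG N) (ha : a ∈ Aug N) : x * a ∈ Aug N := by
  unfold Aug at ha
  induction ha using Submodule.span_induction with
  | mem a ha =>
    obtain ⟨g, rfl⟩ := ha
    induction x using MonoidAlgebra.induction_on with
    | of h =>
      have : e h * (e g - 1) = (e (h * g) - 1) - (e h - 1) := by
        simp only [e, map_mul]; noncomm_ring
      show e h * (e g - 1) ∈ _
      rw [this]
      exact sub_mem (mem_Aug _) (mem_Aug _)
    | add p q hp hq => rw [add_mul]; exact add_mem hp hq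
    | smul r p hp => rw [smul_mul_assoc]; exact Submodule.smul_mem _ _ hp
  | zero => rw [mul_zero]; exact zero_mem _
  | add a a' _ _ h1 h2 => rw [mul_add]; exact add_mem h1 h2
  | smul r a _ h1 => rw [mul_smul_comm]; exact Submodule.smul_mem _ _ h1

theorem mul_Fil {N : Type} [Group N] (k : ℕ) (x y : QG N) (hy : y ∈ Fil N k) : x * y ∈ Fil N k := by
  cases k with
  | zero => exact Submodule.mem_top
  | succ k =>
    rw [Fil] at hy ⊢
    induction hy using Submodule.mul_induction_on' with
    | mem_mul_mem a ha b hb =>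
      rw [← mul_assoc]
      exact Submodule.mul_mem_mul (mul_Aug x a ha) hb
    | add a _ b _ h1 h2 => rw [mul_add]; exact add_mem h1 h2

theorem Fil_anti {N : Type} [Group N] (k : ℕ) : Fil N (k + 1) ≤ Fil N k := by
  rw [Fil, Submodule.mul_le]
  intro a _ b hb
  exact mul_Fil k a b hb

theorem top_decomp {N : Type} [Group N] (x : QG N) : ∃ (r : ℚ) (y : QG N), y ∈ Aug N ∧ x = r • 1 + y := by
  induction x using MonoidAlgebra.induction_on with
  | of g => exact ⟨1, e g - 1, mem_Aug g, by rw [one_smul]; abel⟩
  | add p q hp hq =>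
    obtain ⟨r, y, hy, rfl⟩ := hp
    obtain ⟨r', y', hy', rfl⟩ := hq
    exact ⟨r + r', y + y', add_mem hy hy', by rw [add_smul]; abel⟩
  | smul s p hp =>
    obtain ⟨r, y, hy, rfl⟩ := hp
    exact ⟨s * r, s • y, Submodule.smul_mem _ _ hy, by rw [smul_add, smul_smul]⟩

end Pool.Agent.H26.WZ
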