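import Mathlib
import Pool.Agent.H26.WZ2

set_option autoImplicit false
set_option linter.style.haveILetI false

namespace Pool.Agent.H26.WZ

open Subgroup

section delta
variable {A : Type} [Ring A] [Algebra ℚ A] (τ : A →ₐ[ℚ] A)

/-- difference operator -/
def dl : Module.End ℚ A := τ.toLinearMap - LinearMap.id

theorem dl_apply (x : A) : dl τ x = τ x - x := rfl

theorem dl_mul (x y : A) : dl τ (x * y) = dl τ x * y + x * dl τ y + dl τ x * dl τ y := by
  simp only [dl_apply, map_mul]
  noncomm_ring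

theorem dl_pow_mul (n : ℕ) (x y : A) : ((dl τ) ^ n) (x * y) ∈
    Submodule.span ℚ {z | ∃ a b : ℕ, n ≤ a + b ∧ z = ((dl τ) ^ a) x * ((dl τ) ^ b) y} := by
  induction n with
  | zero => exact Submodule.subset_span ⟨0, 0, le_rfl, by simp⟩
  | succ n ih =>
    rw [pow_succ', Module.End.mul_apply]
    generalize ((dl τ) ^ n) (x * y) = w at ih
    induction ih using Submodule.span_induction with
    | mem w hw =>
      obtain ⟨a, b, hab, rfl⟩ := hw
      rw [dl_mul]
      refine add_mem (add_mem ?_ ?_) ?_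
      · exact Submodule.subset_span ⟨a + 1, b, by omega, by rw [pow_succ', Module.End.mul_apply]⟩
      · exact Submodule.subset_span ⟨a, b + 1, by omega, by rw [pow_succ' _ b, Module.End.mul_apply]⟩
      · exact Submodule.subset_span ⟨a + 1, b + 1, by omega, by
          rw [pow_succ' _ b, pow_succ' _ a, Module.End.mul_apply, Module.End.mul_apply]⟩
    | zero => rw [map_zero]; exact zero_mem _
    | add u v _ _ h1 h2 => rw [map_add]; exact add_mem h1 h2
    | smul r u _ h1 => rw [map_smul]; exact Submodule.smul_mem _ _ h1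

variable (J : Submodule ℚ A) (F : ℕ → Submodule ℚ A) (hF : ∀ k, F (k + 1) = J * F k)
  (hτJ : ∀ x ∈ J, τ x ∈ J) (hτ0 : ∀ x ∈ F 0, τ x ∈ F 0)

include hF hτJ hτ0 in
theorem tau_F (k : ℕ) : ∀ x ∈ F k, τ x ∈ F k := by
  induction k with
  | zero => exact hτ0
  | succ k ih =>
    intro x hx
    rw [hF] at hx ⊢
    induction hx using Submodule.mul_induction_on' with
    | mem_mul_mem a ha b hb => rw [map_mul]; exact Submodule.mul_mem_mul (hτJ a ha) (ih b hb)
    | add a _ b _ h1 h2 => rw [map_add]; exact add_mem h1 h2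

theorem dl_pow_mem (P : Submodule ℚ A) (hP : ∀ x ∈ P, τ x ∈ P) (n : ℕ) : ∀ x ∈ P, ((dl τ) ^ n) x ∈ P := by
  induction n with
  | zero => intro x hx; simpa using hx
  | succ n ih =>
    intro x hx
    rw [pow_succ', Module.End.mul_apply, dl_apply]
    exact sub_mem (hP _ (ih x hx)) (ih x hx)

include hF hτJ hτ0 in
theorem dl_chain (c : ℕ) (hc : ∀ x ∈ J, ((dl τ) ^ c) x ∈ F 2) (h0 : ∀ x ∈ F 0, dl τ x ∈ F 1)
    (h2 : ∀ j, ∀ a ∈ F 2, ∀ b ∈ F j, a * b ∈ F (j + 2)) :
    ∀ j, ∃ n : ℕ, ∀ x ∈ F j, ((dl τ) ^ n) x ∈ F (j + 1) := by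
  have hTF := tau_F τ J F hF hτJ hτ0
  intro j
  induction j with
  | zero => exact ⟨1, by simpa using h0⟩
  | succ j ih =>
    obtain ⟨m, hm⟩ := ih
    refine ⟨c + m, fun x hx => ?_⟩
    rw [hF] at hx
    induction hx using Submodule.mul_induction_on' with
    | mem_mul_mem a ha b hb =>
      have h1 := dl_pow_mul τ (c + m) a b
      generalize ((dl τ) ^ (c + m)) (a * b) = w at h1
      induction h1 using Submodule.span_induction with
      | mem w hw =>
        obtain ⟨α, β, hab, rfl⟩ := hw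
        by_cases hα : c ≤ α
        · have e1 : ((dl τ) ^ α) a = ((dl τ) ^ (α - c)) (((dl τ) ^ c) a) := by
            rw [← Module.End.mul_apply, ← pow_add, Nat.sub_add_cancel hα]
          rw [e1]
          exact h2 j _ (dl_pow_mem τ (F 2) (hTF 2) _ _ (hc a ha)) _ (dl_pow_mem τ (F j) (hTF j) _ _ hb)
        · have hβ : m ≤ β := by omega
          have e1 : ((dl τ) ^ β) b = ((dl τ) ^ (β - m)) (((dl τ) ^ m) b) := by
            rw [← Module.End.mul_apply, ← pow_add, Nat.sub_add_cancel hβ]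
          rw [e1, hF (j + 1)]
          exact Submodule.mul_mem_mul (dl_pow_mem τ J hτJ _ _ ha)
            (dl_pow_mem τ (F (j + 1)) (hTF (j + 1)) _ _ (hm b hb))
      | zero => exact zero_mem _
      | add u v _ _ h1 h2 => exact add_mem h1 h2
      | smul r u _ h1 => exact Submodule.smul_mem _ _ h1
    | add a _ b _ h1 h2 => rw [map_add]; exact add_mem h1 h2

end delta

section step
variable {N : Type} [Group N] (f : N →* Multiplicative ℤ)

/-- embedding of the group ring of the kernel -/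
noncomputable def ιM : QG f.ker →ₐ[ℚ] QG N := MonoidAlgebra.mapDomainAlgHom ℚ ℚ f.ker.subtype

theorem ιM_e (m : f.ker) : ιM f (e m) = e (m : N) := by
  simp [ιM, e]

theorem ιM_inj : Function.Injective (ιM f) :=
  MonoidAlgebra.mapDomain_injective Subtype.val_injective

/-- filtration -/
noncomputable def FF (k : ℕ) : Submodule ℚ (QG N) := (Fil f.ker k).map (ιM f).toLinearMap
/-- augmentation -/
noncomputable def JJ : Submodule ℚ (QG N) := (Aug f.ker).map (ιM f).toLinearMap

theorem FF_succ (k : ℕ) : FF f (k + 1) = JJ f * FF f k := by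
  rw [FF, Fil, Submodule.map_mul]; rfl

theorem FF_anti (k : ℕ) : FF f (k + 1) ≤ FF f k := Submodule.map_mono (Fil_anti k)

/-- conjugation -/
noncomputable def cj (g : N) : QG N →ₐ[ℚ] QG N :=
  MonoidAlgebra.mapDomainAlgHom ℚ ℚ (MulAut.conj g).toMonoidHom

theorem cj_e (g x : N) : cj g (e x) = e (g * x * g⁻¹) := by
  simp [cj, e]

theorem cj_apply (g : N) (x : QG N) : cj g x = e g * x * e g⁻¹ := by
  induction x using MonoidAlgebra.induction_on with
  | of n => rw [← map_mul, ← map_mul]; exact cj_e g n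
  | add p q hp hq => rw [map_add, hp, hq, mul_add, add_mul]
  | smul r p hp => rw [map_smul, hp, mul_smul_comm, smul_mul_assoc]

theorem cj_mul (g h : N) (x : QG N) : cj (g * h) x = cj g (cj h x) := by
  rw [cj_apply, cj_apply, cj_apply, mul_inv_rev]
  simp only [e, map_mul, mul_assoc]

theorem cj_one (x : QG N) : cj 1 x = x := by
  rw [cj_apply, inv_one, show e (1 : N) = 1 from map_one _, one_mul, mul_one]

theorem JJ_mem (m : N) (hm : f m = 1) : e m - 1 ∈ JJ f := by
  refine ⟨e (⟨m, hm⟩ : f.ker) - 1, mem_Aug _, ?_⟩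
  show ιM f _ = _
  rw [map_sub, ιM_e, map_one]

theorem cj_JJ (g : N) : ∀ x ∈ JJ f, cj g x ∈ JJ f := by
  rintro _ ⟨x, hx, rfl⟩
  show cj g (ιM f x) ∈ _
  have hx' : x ∈ Aug f.ker := hx
  clear hx
  unfold Aug at hx'
  induction hx' using Submodule.span_induction with
  | mem x hx =>
    obtain ⟨m, rfl⟩ := hx
    rw [map_sub, ιM_e, map_one, map_sub, cj_e, map_one]
    apply JJ_mem
    have : f (m : N) = 1 := m.2
    rw [map_mul, map_mul, this]; simp
  | zero => simp
  | add a b _ _ h1 h2 => rw [map_add, map_add]; exact add_mem h1 h2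
  | smul r a _ h1 => rw [map_smul, map_smul]; exact Submodule.smul_mem _ _ h1

theorem FF0_e (m : N) (hm : f m = 1) : e m ∈ FF f 0 :=
  ⟨e (⟨m, hm⟩ : f.ker), Submodule.mem_top, ιM_e f _⟩

theorem cj_FF0 (g : N) : ∀ x ∈ FF f 0, cj g x ∈ FF f 0 := by
  rintro _ ⟨x, hx, rfl⟩
  show cj g (ιM f x) ∈ _
  clear hx
  induction x using MonoidAlgebra.induction_on with
  | of m =>
    show cj g (ιM f (e m)) ∈ _
    rw [ιM_e, cj_e]
    apply FF0_e
    have : f (m : N) = 1 := m.2
    rw [map_mul, map_mul, this]; simp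
  | add p q hp hq => rw [map_add, map_add]; exact add_mem hp hq
  | smul r p hp => rw [map_smul, map_smul]; exact Submodule.smul_mem _ _ hp

theorem cj_FF (g : N) (k : ℕ) : ∀ x ∈ FF f k, cj g x ∈ FF f k :=
  tau_F (cj g) (JJ f) (FF f) (FF_succ f) (cj_JJ f g) (cj_FF0 f g) k

theorem FF0_mul : ∀ x ∈ FF f 0, ∀ k, ∀ y ∈ FF f k, x * y ∈ FF f k := by
  rintro _ ⟨x, -, rfl⟩ k _ ⟨y, hy, rfl⟩
  refine ⟨x * y, mul_Fil k x y hy, ?_⟩
  show ιM f (x * y) = ιM f x * ιM f y
  rw [map_mul]

theorem one_FF0 : (1 : QG N) ∈ FF f 0 := by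
  have := FF0_e f 1 (map_one f)
  rwa [show e (1 : N) = 1 from map_one _] at this

theorem JJ_FF1 : ∀ x ∈ JJ f, x ∈ FF f 1 := by
  intro x hx
  rw [FF_succ, ← mul_one x]
  exact Submodule.mul_mem_mul hx (one_FF0 f)

theorem FF2_mul : ∀ j, ∀ a ∈ FF f 2, ∀ b ∈ FF f j, a * b ∈ FF f (j + 2) := by
  intro j a ha b hb
  rw [FF_succ] at ha
  induction ha using Submodule.mul_induction_on' with
  | mem_mul_mem x hx y hy =>
    rw [FF_succ] at hy
    rw [mul_assoc, FF_succ]
    apply Submodule.mul_mem_mul hx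
    rw [FF_succ]
    induction hy using Submodule.mul_induction_on' with
    | mem_mul_mem u hu v hv =>
      rw [mul_assoc]
      exact Submodule.mul_mem_mul hu (FF0_mul f v hv j b hb)
    | add a _ b _ h1 h2 => rw [add_mul]; exact add_mem h1 h2
  | add a _ b _ h1 h2 => rw [add_mul]; exact add_mem h1 h2

theorem dl0 (t : N) : ∀ x ∈ FF f 0, dl (cj t) x ∈ FF f 1 := by
  rintro _ ⟨x, -, rfl⟩
  obtain ⟨r, y, hy, rfl⟩ := top_decomp x
  show dl (cj t) (ιM f (r • 1 + y)) ∈ _
  have h1 : ιM f y ∈ JJ f := ⟨y, hy, rfl⟩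
  have h2 : dl (cj t) (ιM f (r • 1 + y)) = cj t (ιM f y) - ιM f y := by
    rw [dl_apply, map_add, map_smul, map_one, map_add, map_smul, map_one]
    abel
  rw [h2]
  exact sub_mem (JJ_FF1 f _ (cj_JJ f t _ h1)) (JJ_FF1 f _ h1)

theorem itc_ker (t m : N) (hm : f m = 1) (i : ℕ) : f (itc t m i) = 1 := by
  induction i with
  | zero => exact hm
  | succ i ih => rw [itc, map_mul, map_inv, map_mul, map_mul, ih]; simp

theorem dl_itc (t m : N) (hm : f m = 1) (i : ℕ) :
    ((dl (cj t)) ^ i) (e m - 1) - (e (itc t m i) - 1) ∈ FF f 2 := by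
  induction i with
  | zero => simp [itc]
  | succ i ih =>
    have h1 : dl (cj t) (((dl (cj t)) ^ i) (e m - 1) - (e (itc t m i) - 1)) ∈ FF f 2 := by
      rw [dl_apply]; exact sub_mem (cj_FF f t 2 _ ih) ih
    set x := itc t m i with hx
    set x' := itc t m (i + 1) with hx'
    have h2 : dl (cj t) (e x - 1) = (e x' - 1) + (e x - 1) * (e x' - 1) := by
      rw [dl_apply, map_sub, cj_e, map_one]
      have h3 : t * x * t⁻¹ = x * x' := conj_itc t m i
      rw [h3]
      simp only [e, map_mul]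
      noncomm_ring
    have h4 : (e x - 1) * (e x' - 1) ∈ FF f 2 := by
      rw [FF_succ]
      exact Submodule.mul_mem_mul (JJ_mem f x (itc_ker f t m hm i))
        (JJ_FF1 f _ (JJ_mem f x' (itc_ker f t m hm (i + 1))))
    rw [map_sub, ← Module.End.mul_apply, ← pow_succ', h2] at h1
    have h5 : ((dl (cj t)) ^ (i + 1)) (e m - 1) - (e x' - 1) =
        (((dl (cj t)) ^ (i + 1)) (e m - 1) - ((e x' - 1) + (e x - 1) * (e x' - 1))) +
          (e x - 1) * (e x' - 1) := by abel
    rw [h5]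
    exact add_mem h1 h4

theorem dlc (t : N) (c : ℕ) (hc : ∀ y : N, itc t y c = 1) : ∀ x ∈ JJ f, ((dl (cj t)) ^ c) x ∈ FF f 2 := by
  rintro _ ⟨x, hx, rfl⟩
  show ((dl (cj t)) ^ c) (ιM f x) ∈ _
  have hx' : x ∈ Aug f.ker := hx
  clear hx
  unfold Aug at hx'
  induction hx' using Submodule.span_induction with
  | mem x hx =>
    obtain ⟨m, rfl⟩ := hx
    have h1 := dl_itc f t m m.2 c
    rw [hc, show e (1 : N) = 1 from map_one _, sub_self, sub_zero] at h1
    rw [map_sub, ιM_e, map_one]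
    exact h1
  | zero => simp
  | add a b _ _ h1 h2 => rw [map_add, map_add]; exact add_mem h1 h2
  | smul r a _ h1 => rw [map_smul, map_smul]; exact Submodule.smul_mem _ _ h1

/-- the action -/
noncomputable def Th (t : N) : N →* Module.End ℚ (QG N) where
  toFun n := (LinearMap.mulLeft ℚ (e n)) ∘ₗ (LinearMap.mulRight ℚ (e ((t ^ (Multiplicative.toAdd (f n)))⁻¹)))
  map_one' := by
    ext x
    simp
  map_mul' a b := by
    apply LinearMap.ext
    intro x
    simp only [LinearMap.coe_comp, Function.comp_apply, LinearMap.mulRight_apply, LinearMap.mulLeft_apply,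
      Module.End.mul_apply]
    have h1 : (t ^ (Multiplicative.toAdd (f (a * b))))⁻¹ =
        (t ^ (Multiplicative.toAdd (f b)))⁻¹ * (t ^ (Multiplicative.toAdd (f a)))⁻¹ := by
      rw [map_mul, toAdd_mul, zpow_add, mul_inv_rev]
    rw [h1]
    simp only [e, map_mul]
    noncomm_ring

theorem Th_apply (t n : N) (x : QG N) :
    Th f t n x = e (n * (t ^ (Multiplicative.toAdd (f n)))⁻¹) * cj (t ^ (Multiplicative.toAdd (f n))) x := by
  show e n * (x * e ((t ^ (Multiplicative.toAdd (f n)))⁻¹)) = _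
  rw [cj_apply]
  have : e n = e (n * (t ^ (Multiplicative.toAdd (f n)))⁻¹) * e (t ^ (Multiplicative.toAdd (f n))) := by
    simp only [e, ← map_mul]
    congr 1
    group
  rw [this]
  noncomm_ring

/-- linear extension -/
noncomputable def TT (t : N) : QG N →ₐ[ℚ] Module.End ℚ (QG N) :=
  MonoidAlgebra.lift ℚ (Module.End ℚ (QG N)) N (Th f t)

theorem TT_e (t n : N) : TT f t (e n) = Th f t n := MonoidAlgebra.lift_of _ _

theorem up (t : N) (L : ℕ) (Y Y' : Submodule ℚ (QG N)) (hY : ∀ n, ∀ x ∈ Y, Th f t n x - x ∈ Y')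
    (h : ∀ x ∈ Fil N L, ∀ z ∈ FF f 0, TT f t x z ∈ Y) :
    ∀ x ∈ Fil N (L + 1), ∀ z ∈ FF f 0, TT f t x z ∈ Y' := by
  intro x hx z hz
  rw [Fil] at hx
  induction hx using Submodule.mul_induction_on' with
  | mem_mul_mem a ha b hb =>
    rw [map_mul, Module.End.mul_apply]
    have hw := h b hb z hz
    generalize TT f t b z = w at hw
    unfold Aug at ha
    induction ha using Submodule.span_induction with
    | mem a ha =>
      obtain ⟨n, rfl⟩ := ha
      simp only
      rw [map_sub, map_one, TT_e, LinearMap.sub_apply, Module.End.one_apply]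
      exact hY n w hw
    | zero => rw [map_zero, LinearMap.zero_apply]; exact zero_mem _
    | add a b _ _ h1 h2 => rw [map_add, LinearMap.add_apply]; exact add_mem h1 h2
    | smul r a _ h1 => rw [map_smul, LinearMap.smul_apply]; exact Submodule.smul_mem _ _ h1
  | add a _ b _ h1 h2 => rw [map_add, LinearMap.add_apply]; exact add_mem h1 h2

theorem cj_dl_comm (t : N) (a : ℤ) (n : ℕ) (x : QG N) :
    ((dl (cj t)) ^ n) (cj (t ^ a) x) = cj (t ^ a) (((dl (cj t)) ^ n) x) := by
  induction n generalizing x with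
  | zero => simp
  | succ n ih =>
    rw [pow_succ, Module.End.mul_apply, Module.End.mul_apply]
    have : dl (cj t) (cj (t ^ a) x) = cj (t ^ a) (dl (cj t) x) := by
      rw [dl_apply, dl_apply, map_sub, ← cj_mul, ← cj_mul, ← zpow_one_add, ← zpow_add_one, add_comm]
    rw [this, ih]

/-- intermediate subspaces -/
noncomputable def YY (t : N) (j E d : ℕ) : Submodule ℚ (QG N) := FF f j ⊓ (FF f (j + 1)).comap ((dl (cj t)) ^ (E - d))

theorem mem_YY (t : N) (j E d : ℕ) (x : QG N) :
    x ∈ YY f t j E d ↔ x ∈ FF f j ∧ ((dl (cj t)) ^ (E - d)) x ∈ FF f (j + 1) := Iff.rfl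

theorem cj_YY (t : N) (a : ℤ) (j E d : ℕ) : ∀ x ∈ YY f t j E d, cj (t ^ a) x ∈ YY f t j E d := by
  intro x hx
  rw [mem_YY] at hx ⊢
  refine ⟨cj_FF f _ j x hx.1, ?_⟩
  rw [cj_dl_comm]
  exact cj_FF f _ _ _ hx.2

theorem dl_YY (t : N) (j E d : ℕ) (hd : d < E) : ∀ x ∈ YY f t j E d, dl (cj t) x ∈ YY f t j E (d + 1) := by
  intro x hx
  rw [mem_YY] at hx ⊢
  refine ⟨?_, ?_⟩
  · rw [dl_apply]; exact sub_mem (cj_FF f _ j x hx.1) hx.1
  · rw [← Module.End.mul_apply, ← pow_succ]
    have : E - (d + 1) + 1 = E - d := by omega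
    rw [this]; exact hx.2

theorem zp_YY (t : N) (a : ℤ) (j E d : ℕ) (hd : d < E) :
    ∀ x ∈ YY f t j E d, cj (t ^ a) x - x ∈ YY f t j E (d + 1) := by
  induction a using Int.induction_on with
  | zero => intro x _; rw [zpow_zero, cj_one, sub_self]; exact zero_mem _
  | succ a ih =>
    intro x hx
    have h1 : cj t x ∈ YY f t j E d := by
      have := cj_YY f t 1 j E d x hx
      rwa [zpow_one] at this
    have h2 := ih _ h1
    have h3 := dl_YY f t j E d hd x hx
    rw [dl_apply] at h3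
    have h4 : cj (t ^ ((a : ℤ) + 1)) x - x = (cj (t ^ (a : ℤ)) (cj t x) - cj t x) + (cj t x - x) := by
      rw [zpow_add_one, cj_mul]; abel
    rw [h4]
    exact add_mem h2 h3
  | pred a ih =>
    intro x hx
    have h1 : cj t⁻¹ x ∈ YY f t j E d := by
      have := cj_YY f t (-1) j E d x hx
      rwa [zpow_neg_one] at this
    have h2 := ih _ h1
    have h3 := cj_YY f t (-1) j E (d + 1) _ (dl_YY f t j E d hd x hx)
    rw [zpow_neg_one, dl_apply, map_sub, ← cj_mul, inv_mul_cancel, cj_one] at h3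
    have h4 : cj (t ^ (-(a : ℤ) - 1)) x - x = (cj (t ^ (-(a : ℤ))) (cj t⁻¹ x) - cj t⁻¹ x) - (x - cj t⁻¹ x) := by
      rw [zpow_sub_one, cj_mul]; abel
    rw [h4]
    exact sub_mem h2 h3

theorem Th_YY (t : N) (ht : f t = Multiplicative.ofAdd 1) (j E d : ℕ) (hd : d < E) :
    ∀ n, ∀ x ∈ YY f t j E d, Th f t n x - x ∈ YY f t j E (d + 1) := by
  intro n x hx
  rw [Th_apply]
  set a := Multiplicative.toAdd (f n) with ha
  have hm : f (n * (t ^ a)⁻¹) = 1 := by
    rw [map_mul, map_inv, map_zpow, ht, ← ofAdd_zsmul, ha]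
    simp
  have h1 : e (n * (t ^ a)⁻¹) * cj (t ^ a) x - x =
      (e (n * (t ^ a)⁻¹) - 1) * cj (t ^ a) x + (cj (t ^ a) x - x) := by noncomm_ring
  rw [h1]
  refine add_mem ?_ (zp_YY f t a j E d hd x hx)
  have h2 : (e (n * (t ^ a)⁻¹) - 1) * cj (t ^ a) x ∈ FF f (j + 1) := by
    rw [FF_succ]
    exact Submodule.mul_mem_mul (JJ_mem f _ hm) (cj_FF f _ j x hx.1)
  rw [mem_YY]
  exact ⟨FF_anti f j h2, dl_pow_mem (cj t) (FF f (j + 1)) (cj_FF f t (j + 1)) _ _ h2⟩

theorem claim2 [Group.IsNilpotent N] (t : N) (ht : f t = Multiplicative.ofAdd 1) (j : ℕ) :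
    ∃ L, ∀ x ∈ Fil N L, ∀ z ∈ FF f 0, TT f t x z ∈ FF f j := by
  obtain ⟨c, hc⟩ := itc_one (N := N)
  have hchain := dl_chain (cj t) (JJ f) (FF f) (FF_succ f) (cj_JJ f t) (cj_FF0 f t) c
    (dlc f t c (fun y => hc t y c le_rfl)) (dl0 f t) (FF2_mul f)
  induction j with
  | zero =>
    refine ⟨0, fun x hx0 z hz => ?_⟩
    clear hx0
    induction x using MonoidAlgebra.induction_on with
    | of n =>
      show TT f t (e n) z ∈ _
      rw [TT_e, Th_apply]
      apply FF0_mul
      · apply FF0_e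
        rw [map_mul, map_inv, map_zpow, ht, ← ofAdd_zsmul]
        simp
      · exact cj_FF f _ 0 z hz
    | add p q hp hq => rw [map_add, LinearMap.add_apply]; exact add_mem hp hq
    | smul r p hp => rw [map_smul, LinearMap.smul_apply]; exact Submodule.smul_mem _ _ hp
  | succ j ih =>
    obtain ⟨E, hE⟩ := hchain j
    have key : ∀ d, d ≤ E → ∃ L, ∀ x ∈ Fil N L, ∀ z ∈ FF f 0, TT f t x z ∈ YY f t j E d := by
      intro d
      induction d with
      | zero =>
        intro _
        obtain ⟨L, hL⟩ := ih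
        refine ⟨L, fun x hx z hz => ?_⟩
        rw [mem_YY]
        exact ⟨hL x hx z hz, hE _ (hL x hx z hz)⟩
      | succ d ihd =>
        intro hd
        obtain ⟨L, hL⟩ := ihd (by omega)
        exact ⟨L + 1, up f t L _ _ (Th_YY f t ht j E d (by omega)) hL⟩
    obtain ⟨L, hL⟩ := key E le_rfl
    refine ⟨L, fun x hx z hz => ?_⟩
    have := (mem_YY f t j E E _).mp (hL x hx z hz)
    simpa using this.2

theorem RN_step [Group.IsNilpotent N] (hf : Function.Surjective f) (h : RN f.ker) : RN N := by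
  intro g hg
  by_cases hfg : f g = 1
  · obtain ⟨k, hk⟩ := h ⟨g, hfg⟩ (fun h1 => hg (congrArg Subtype.val h1))
    obtain ⟨t, ht⟩ := hf (Multiplicative.ofAdd 1)
    obtain ⟨L, hL⟩ := claim2 f t ht k
    refine ⟨L, fun hmem => ?_⟩
    have h1 := hL _ hmem 1 (one_FF0 f)
    rw [map_sub, map_one (TT f t), TT_e, LinearMap.sub_apply, Module.End.one_apply, Th_apply, hfg] at h1
    simp only [toAdd_one, zpow_zero, inv_one, mul_one, cj_one] at h1
    obtain ⟨y, hy, hy2⟩ := h1
    have h2 : ιM f y = ιM f (e (⟨g, hfg⟩ : f.ker) - 1) := by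
      rw [map_sub, ιM_e, map_one]; exact hy2
    have h3 := ιM_inj f h2
    rw [h3] at hy
    exact hk hy
  · refine ⟨2, fun hmem => ?_⟩
    let χ : N →* DualNumber ℚ :=
      { toFun := fun n => TrivSqZeroExt.inl 1 + TrivSqZeroExt.inr ((Multiplicative.toAdd (f n) : ℤ) : ℚ)
        map_one' := by simp
        map_mul' := by
          intro a b
          ext
          · simp
          · simp [add_comm] }
    let X : QG N →ₐ[ℚ] DualNumber ℚ := MonoidAlgebra.lift ℚ (DualNumber ℚ) N χ
    have hX : ∀ n, X (e n) = χ n := fun n => MonoidAlgebra.lift_of _ _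
    have h1 : ∀ a ∈ Aug N, (X a).fst = 0 := by
      intro a ha
      unfold Aug at ha
      induction ha using Submodule.span_induction with
      | mem a ha =>
        obtain ⟨n, rfl⟩ := ha
        simp only
        rw [map_sub, map_one, hX]
        simp [χ]
      | zero => simp
      | add a b _ _ h1 h2 => rw [map_add, TrivSqZeroExt.fst_add, h1, h2, add_zero]
      | smul r a _ h1 => rw [map_smul, TrivSqZeroExt.fst_smul, h1, smul_zero]
    have h2 : ∀ a ∈ Fil N 2, X a = 0 := by
      intro a ha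
      rw [Fil, Fil] at ha
      induction ha using Submodule.mul_induction_on' with
      | mem_mul_mem a ha b hb =>
        induction hb using Submodule.mul_induction_on' with
        | mem_mul_mem b hb c _ =>
          rw [map_mul, map_mul]
          ext
          · simp [h1 a ha]
          · simp [h1 a ha, h1 b hb]
        | add u _ v _ h1 h2 => rw [mul_add, map_add, h1, h2, add_zero]
      | add a _ b _ h1 h2 => rw [map_add, h1, h2, add_zero]
    have h3 := h2 _ hmem
    rw [map_sub, map_one, hX] at h3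
    have h4 := congrArg TrivSqZeroExt.snd h3
    simp [χ] at h4
    exact hfg h4

end step

theorem RN_poly (n : ℕ) : ∀ (N : Type) [Group N] [Group.IsNilpotent N], PolyZ n N → RN N := by
  induction n with
  | zero =>
    intro N _ _ h g hg
    have h' : Subsingleton N := h
    exact absurd (Subsingleton.elim g 1) hg
  | succ n ih =>
    intro N _ _ h
    obtain ⟨f, hf, hk⟩ := h
    exact RN_step f hf (ih f.ker hk)

theorem RN_fg (N : Type) [Group N] [Group.IsNilpotent N] (hfg : Group.FG N) (htf : TF N) : RN N := by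
  obtain ⟨n, hn⟩ := polyZ_nil N hfg htf
  exact RN_poly n N hn

end Pool.Agent.H26.WZ
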