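import Mathlib
import Pool.Agent.H26.WZ1

set_option autoImplicit false
set_option linter.style.haveILetI false

namespace Pool.Agent.H26.WZ

open Subgroup
open scoped commutatorElement

section unip
variable {E : Type} [AddCommGroup E] [Module ℚ E] (U : ℕ → Submodule ℚ E)

theorem inv_pres (hanti : Antitone U) (K : ℕ) (hK : U K = ⊥) (u : (Module.End ℚ E)ˣ)
    (hu : ∀ n, ∀ x ∈ U n, (u : Module.End ℚ E) x - x ∈ U (n + 1)) (k : ℕ) :
    ∀ n, K ≤ n + k → ∀ y ∈ U n, ((u⁻¹ : (Module.End ℚ E)ˣ) : Module.End ℚ E) y ∈ U n := by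
  induction k with
  | zero =>
    intro n hn y hy
    have h1 := hanti (show K ≤ n by omega) hy
    rw [hK, Submodule.mem_bot] at h1
    rw [h1, map_zero]; exact zero_mem _
  | succ k ih =>
    intro n hn y hy
    have h1 := ih (n + 1) (by omega) _ (hu n y hy)
    have h2 : ((u⁻¹ : (Module.End ℚ E)ˣ) : Module.End ℚ E) ((u : Module.End ℚ E) y) = y := by
      rw [← Module.End.mul_apply, Units.inv_mul]; rfl
    rw [map_sub, h2] at h1
    have h3 := sub_mem hy (hanti (Nat.le_succ n) h1)
    rwa [sub_sub_cancel] at h3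

/-- the unipotent groups -/
def HH (hanti : Antitone U) (K : ℕ) (hK : U K = ⊥) (j : ℕ) : Subgroup (Module.End ℚ E)ˣ where
  carrier := {u | ∀ n, ∀ x ∈ U n, (u : Module.End ℚ E) x - x ∈ U (n + j + 1)}
  one_mem' := by intro n x _; simp
  mul_mem' := by
    intro u v hu hv n x hx
    have h1 := hv n x hx
    have h2 := hu _ _ h1
    have h3 := hu n x hx
    rw [Units.val_mul, Module.End.mul_apply]
    have h4 : (u : Module.End ℚ E) ((v : Module.End ℚ E) x) - x =
        ((u : Module.End ℚ E) ((v : Module.End ℚ E) x - x) - ((v : Module.End ℚ E) x - x)) +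
        ((v : Module.End ℚ E) x - x) + ((u : Module.End ℚ E) x - x) := by
      rw [map_sub]; abel
    rw [h4]
    exact add_mem (add_mem (hanti (by omega) h2) h1) h3
  inv_mem' := by
    intro u hu n x hx
    have hu' : ∀ n, ∀ x ∈ U n, (u : Module.End ℚ E) x - x ∈ U (n + 1) :=
      fun n x hx => hanti (by omega) (hu n x hx)
    have h1 := inv_pres U hanti K hK u hu' K (n + j + 1) (by omega) _ (hu n x hx)
    have h2 : ((u⁻¹ : (Module.End ℚ E)ˣ) : Module.End ℚ E) ((u : Module.End ℚ E) x) = x := by
      rw [← Module.End.mul_apply, Units.inv_mul]; rfl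
    rw [map_sub, h2] at h1
    have := neg_mem h1
    rwa [neg_sub] at this

variable (hanti : Antitone U) (K : ℕ) (hK : U K = ⊥) (h0 : U 0 = ⊤)

theorem mem_HH (j : ℕ) (u : (Module.End ℚ E)ˣ) : u ∈ HH U hanti K hK j ↔
    ∀ n, ∀ x ∈ U n, (u : Module.End ℚ E) x - x ∈ U (n + j + 1) := Iff.rfl

theorem HH_pres (u : (Module.End ℚ E)ˣ) (hu : u ∈ HH U hanti K hK 0) (n : ℕ) (x : E) (hx : x ∈ U n) :
    (u : Module.End ℚ E) x ∈ U n := by
  have h1 := hu n x hx
  have h2 := add_mem (hanti (by omega) h1) hx
  rwa [sub_add_cancel] at h2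

include h0 in
theorem HH_bot : HH U hanti K hK K = ⊥ := by
  rw [eq_bot_iff]
  intro u hu
  rw [mem_bot]
  apply Units.ext
  apply LinearMap.ext
  intro x
  have h1 := hu 0 x (by rw [h0]; exact Submodule.mem_top)
  have h2 := hanti (show K ≤ 0 + K + 1 by omega) h1
  rw [hK, Submodule.mem_bot, sub_eq_zero] at h2
  exact h2

include h0 in
theorem HH_nil : Group.IsNilpotent (HH U hanti K hK 0) := by
  rw [Subgroup.nilpotent_iff_finite_descending_central_series]
  refine ⟨K, fun j => (HH U hanti K hK j).subgroupOf (HH U hanti K hK 0), ⟨?_, ?_⟩, ?_⟩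
  · simp
  · rintro ⟨x, hx0⟩ j hx ⟨g, hg⟩
    rw [mem_subgroupOf] at hx ⊢
    simp only at hx
    intro n y hy
    set w : E := ((x⁻¹ * g⁻¹ : (Module.End ℚ E)ˣ) : Module.End ℚ E) y with hw
    have hwU : w ∈ U n := HH_pres U hanti K hK _ (mul_mem (inv_mem hx0) (inv_mem hg)) n y hy
    have e1 : (((⁅(⟨x, hx0⟩ : HH U hanti K hK 0), ⟨g, hg⟩⁆ : HH U hanti K hK 0) : (Module.End ℚ E)ˣ) : Module.End ℚ E) y =
        (x : Module.End ℚ E) ((g : Module.End ℚ E) w) := by
      rw [hw, ← Module.End.mul_apply, ← Module.End.mul_apply, ← Units.val_mul, ← Units.val_mul]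
      have : ((⁅(⟨x, hx0⟩ : HH U hanti K hK 0), ⟨g, hg⟩⁆ : HH U hanti K hK 0) : (Module.End ℚ E)ˣ) =
          x * g * (x⁻¹ * g⁻¹) := by
        rw [commutatorElement_def]
        show x * g * x⁻¹ * g⁻¹ = _
        group
      rw [this]
    have e2 : y = (g : Module.End ℚ E) ((x : Module.End ℚ E) w) := by
      rw [hw, ← Module.End.mul_apply, ← Module.End.mul_apply, ← Units.val_mul, ← Units.val_mul]
      have : g * x * (x⁻¹ * g⁻¹) = 1 := by group
      rw [this]; rfl
    rw [e1]
    have e3 : (x : Module.End ℚ E) ((g : Module.End ℚ E) w) - y =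
        ((x : Module.End ℚ E) ((g : Module.End ℚ E) w - w) - ((g : Module.End ℚ E) w - w)) -
        ((g : Module.End ℚ E) ((x : Module.End ℚ E) w - w) - ((x : Module.End ℚ E) w - w)) := by
      conv_lhs => rw [e2]
      rw [map_sub, map_sub]; abel
    rw [e3]
    refine sub_mem ?_ ?_
    · exact hanti (by omega) (hx _ _ (hg n w hwU))
    · exact hanti (by omega) (hg _ _ (hx n w hwU))
  · show (HH U hanti K hK K).subgroupOf _ = ⊥
    rw [HH_bot U hanti K hK h0]
    simp

include h0 in
theorem HH_tf : TF (HH U hanti K hK 0) := by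
  rintro ⟨u, hu⟩ hg k hk h
  apply hg
  have hu1 : u ^ k = 1 := congrArg Subtype.val h
  have key : ∀ j, u ∈ HH U hanti K hK j := by
    intro j
    induction j with
    | zero => exact hu
    | succ j ih =>
      intro n x hx
      set y := (u : Module.End ℚ E) x - x with hy
      have hyU : y ∈ U (n + j + 1) := ih n x hx
      have h1 : ∀ m : ℕ, ((u ^ m : (Module.End ℚ E)ˣ) : Module.End ℚ E) x - x - (m : ℚ) • y ∈ U (n + j + 2) := by
        intro m
        induction m with
        | zero => simp
        | succ m ihm =>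
          set r := ((u ^ m : (Module.End ℚ E)ˣ) : Module.End ℚ E) x - x - (m : ℚ) • y with hr
          have e1 : ((u ^ (m + 1) : (Module.End ℚ E)ˣ) : Module.End ℚ E) x =
              (u : Module.End ℚ E) (((u ^ m : (Module.End ℚ E)ˣ) : Module.End ℚ E) x) := by
            rw [pow_succ', Units.val_mul, Module.End.mul_apply]
          have e2 : ((u ^ m : (Module.End ℚ E)ˣ) : Module.End ℚ E) x = r + x + (m : ℚ) • y := by
            rw [hr]; abel
          rw [e1, e2, map_add, map_add, map_smul]
          have e3 : (u : Module.End ℚ E) r + (u : Module.End ℚ E) x + (m : ℚ) • (u : Module.End ℚ E) y - x -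
              ((m + 1 : ℕ) : ℚ) • y = (u : Module.End ℚ E) r + (m : ℚ) • ((u : Module.End ℚ E) y - y) := by
            have : (u : Module.End ℚ E) x = y + x := by rw [hy]; abel
            rw [this]
            push_cast
            generalize (u : Module.End ℚ E) y = z1
            generalize (u : Module.End ℚ E) r = z2
            clear_value y
            module
          rw [e3]
          refine add_mem (HH_pres U hanti K hK u hu _ r ihm) (Submodule.smul_mem _ _ ?_)
          exact hanti (by omega) (ih _ y hyU)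
      have h2 := h1 k
      rw [hu1] at h2
      have e4 : ((1 : (Module.End ℚ E)ˣ) : Module.End ℚ E) x - x - (k : ℚ) • y = (-(k : ℚ)) • y := by
        have : ((1 : (Module.End ℚ E)ˣ) : Module.End ℚ E) x = x := rfl
        rw [this, neg_smul]; abel
      rw [e4] at h2
      have h3 := Submodule.smul_mem _ ((-(k : ℚ))⁻¹) h2
      rw [smul_smul, inv_mul_cancel₀ (by
        have : (k : ℚ) ≠ 0 := by positivity
        exact neg_ne_zero.mpr this), one_smul] at h3
      exact h3
  have h4 := key K
  rw [HH_bot U hanti K hK h0, mem_bot] at h4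
  exact Subtype.ext h4

end unip

end Pool.Agent.H26.WZ
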