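import Mathlib
import Pool.Agent.H26.WZ3
import Pool.Agent.H26.WZ4

set_option autoImplicit false
set_option linter.style.haveILetI false

namespace Pool.Agent.H26.WZ

open Subgroup

section fun1
variable (V : Type) [AddCommGroup V] [Module ℚ V]

/-- translate -/
def shf (m : ℤ) : Module.End ℚ (ℤ → V) := LinearMap.funLeft ℚ V (fun x : ℤ => x + m)

/-- difference -/
def Df : Module.End ℚ (ℤ → V) := shf V 1 - LinearMap.id

variable {V}

theorem shf_apply (m : ℤ) (F : ℤ → V) (x : ℤ) : shf V m F x = F (x + m) := rfl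
theorem Df_apply (F : ℤ → V) (x : ℤ) : Df V F x = F (x + 1) - F x := rfl

theorem shf_Df_pow (m : ℤ) (s : ℕ) (F : ℤ → V) : (Df V ^ s) (shf V m F) = shf V m ((Df V ^ s) F) := by
  induction s generalizing F with
  | zero => rfl
  | succ s ih =>
    rw [pow_succ, Module.End.mul_apply, Module.End.mul_apply, ← ih]
    congr 1
    funext x
    rw [Df_apply, shf_apply, shf_apply, shf_apply, Df_apply]
    congr 2
    ring

theorem Df_smul (v : ℤ → ℚ) (i : ℤ) (c : V) (s : ℕ) :
    (Df V ^ s) (fun x => v (x - i) • c) = fun x => ((Df ℚ ^ s) v) (x - i) • c := by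
  induction s with
  | zero => rfl
  | succ s ih =>
    rw [pow_succ', Module.End.mul_apply, ih]
    funext x
    rw [Df_apply, ← sub_smul, pow_succ', Module.End.mul_apply, Df_apply]
    congr 3
    ring

variable (V) in
/-- polynomial maps of degree at most `d` -/
def EE (d : ℕ) : Submodule ℚ (ℤ → V) := LinearMap.ker (Df V ^ (d + 1))

theorem mem_EE (d : ℕ) (F : ℤ → V) : F ∈ EE V d ↔ (Df V ^ (d + 1)) F = 0 := LinearMap.mem_ker

theorem Df_pow_ge (d : ℕ) (F : ℤ → V) (hF : F ∈ EE V d) (s : ℕ) (hs : d + 1 ≤ s) :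
    (Df V ^ s) F = 0 := by
  have : s = (s - (d + 1)) + (d + 1) := by omega
  rw [this, pow_add, Module.End.mul_apply, (mem_EE d F).mp hF, map_zero]

variable (VF : ℕ → Submodule ℚ V) (d : ℕ)

/-- filtration -/
def UU (n : ℕ) : Submodule ℚ (EE V d) where
  carrier := {F | ∀ (s : ℕ) (x : ℤ), (Df V ^ s) F.1 x ∈ VF ((n + s) / (d + 1))}
  zero_mem' := by
    intro s x
    have : (Df V ^ s) (0 : ℤ → V) = 0 := map_zero _
    show (Df V ^ s) (0 : ℤ → V) x ∈ _
    rw [this]; exact zero_mem _
  add_mem' := by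
    intro a b ha hb s x
    show (Df V ^ s) (a.1 + b.1) x ∈ _
    rw [map_add]; exact add_mem (ha s x) (hb s x)
  smul_mem' := by
    intro r a ha s x
    show (Df V ^ s) (r • a.1) x ∈ _
    rw [map_smul]; exact Submodule.smul_mem _ _ (ha s x)

theorem mem_UU (n : ℕ) (F : EE V d) : F ∈ UU VF d n ↔
    ∀ (s : ℕ) (x : ℤ), (Df V ^ s) F.1 x ∈ VF ((n + s) / (d + 1)) := Iff.rfl

theorem UU_anti (hVF : Antitone VF) : Antitone (UU VF d) := by
  intro a b hab F hF s x
  exact hVF (Nat.div_le_div_right (by omega)) (hF s x)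

theorem UU_zero (h0 : VF 0 = ⊤) : UU VF d 0 = ⊤ := by
  rw [eq_top_iff]
  intro F _ s x
  by_cases hs : s < d + 1
  · rw [zero_add, Nat.div_eq_of_lt hs, h0]; exact Submodule.mem_top
  · rw [Df_pow_ge d F.1 F.2 s (by omega)]; exact zero_mem _

theorem UU_top (k : ℕ) (hk : VF k = ⊥) : UU VF d (k * (d + 1)) = ⊥ := by
  rw [eq_bot_iff]
  intro F hF
  rw [Submodule.mem_bot]
  apply Subtype.ext
  funext x
  have h1 := hF 0 x
  rw [add_zero, Nat.mul_div_cancel _ (by omega), hk] at h1
  simpa using h1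

variable (V) in
/-- shift hom -/
def shH : Multiplicative ℤ →* Module.End ℚ (EE V d) where
  toFun m := (shf V (Multiplicative.toAdd m)).restrict (fun F hF => by
    rw [mem_EE] at hF ⊢
    rw [shf_Df_pow, hF, map_zero])
  map_one' := by
    apply LinearMap.ext
    intro F
    apply Subtype.ext
    funext x
    show F.1 (x + 0) = F.1 x
    rw [add_zero]
  map_mul' a b := by
    apply LinearMap.ext
    intro F
    apply Subtype.ext
    funext x
    show F.1 (x + (Multiplicative.toAdd a + Multiplicative.toAdd b)) =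
      F.1 (x + Multiplicative.toAdd a + Multiplicative.toAdd b)
    rw [add_assoc]

theorem shH_apply (m : Multiplicative ℤ) (F : EE V d) (x : ℤ) :
    (shH V d m F).1 x = F.1 (x + Multiplicative.toAdd m) := rfl

variable {N : Type} [Group N] (ρ : N →* Module.End ℚ V) (v : ℤ → ℚ) (hv : (Df ℚ ^ (d + 1)) v = 0)

/-- the local operators -/
def ph (i : ℤ) (g : N) : Module.End ℚ (EE V d) where
  toFun F := ⟨fun x => F.1 x + v (x - i) • (ρ g (F.1 i) - F.1 i), by
    have h1 : (fun x => F.1 x + v (x - i) • (ρ g (F.1 i) - F.1 i)) =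
      F.1 + (fun x => v (x - i) • (ρ g (F.1 i) - F.1 i)) := rfl
    rw [h1]
    apply add_mem F.2
    rw [mem_EE, Df_smul, hv]
    funext x
    simp⟩
  map_add' F G := by
    apply Subtype.ext
    funext x
    show (F.1 x + G.1 x) + v (x - i) • (ρ g (F.1 i + G.1 i) - (F.1 i + G.1 i)) =
      (F.1 x + v (x - i) • (ρ g (F.1 i) - F.1 i)) + (G.1 x + v (x - i) • (ρ g (G.1 i) - G.1 i))
    rw [map_add]
    module
  map_smul' r F := by
    apply Subtype.ext
    funext x
    show r • F.1 x + v (x - i) • (ρ g (r • F.1 i) - r • F.1 i) =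
      r • (F.1 x + v (x - i) • (ρ g (F.1 i) - F.1 i))
    rw [map_smul]
    module

theorem ph_apply (i : ℤ) (g : N) (F : EE V d) (x : ℤ) :
    (ph d ρ v hv i g F).1 x = F.1 x + v (x - i) • (ρ g (F.1 i) - F.1 i) := rfl

variable (hv0 : v 0 = 1)

/-- the local homomorphisms -/
def phH (i : ℤ) : N →* Module.End ℚ (EE V d) where
  toFun g := ph d ρ v hv i g
  map_one' := by
    apply LinearMap.ext
    intro F
    apply Subtype.ext
    funext x
    rw [ph_apply, map_one]
    show F.1 x + v (x - i) • (F.1 i - F.1 i) = F.1 x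
    rw [sub_self, smul_zero, add_zero]
  map_mul' a b := by
    apply LinearMap.ext
    intro F
    apply Subtype.ext
    funext x
    rw [Module.End.mul_apply, ph_apply, ph_apply, ph_apply, ph_apply, sub_self, hv0, one_smul, map_mul,
      Module.End.mul_apply, add_sub_cancel]
    module

theorem phH_apply (i : ℤ) (g : N) (F : EE V d) (x : ℤ) :
    (phH d ρ v hv hv0 i g F).1 x = F.1 x + v (x - i) • (ρ g (F.1 i) - F.1 i) := rfl

theorem ph_shift (i : ℤ) (g : N) : shH V d (Multiplicative.ofAdd 1) * phH d ρ v hv hv0 i g =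
    phH d ρ v hv hv0 (i - 1) g * shH V d (Multiplicative.ofAdd 1) := by
  apply LinearMap.ext
  intro F
  apply Subtype.ext
  funext x
  rw [Module.End.mul_apply, Module.End.mul_apply, shH_apply, phH_apply, phH_apply, shH_apply, shH_apply]
  simp only [toAdd_ofAdd, sub_add_cancel]
  congr 2
  congr 1
  ring

theorem ph_comm (i j : ℤ) (g h : N) (h1 : v (i - j) = 0) (h2 : v (j - i) = 0) :
    Commute (phH d ρ v hv hv0 i g) (phH d ρ v hv hv0 j h) := by
  apply LinearMap.ext
  intro F
  apply Subtype.ext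
  funext x
  rw [Module.End.mul_apply, Module.End.mul_apply, phH_apply, phH_apply, phH_apply, phH_apply,
    phH_apply, phH_apply, h1, h2]
  simp only [zero_smul, add_zero]
  abel

variable (hVFa : Antitone VF) (hρ : ∀ (g : N) (n : ℕ), ∀ y ∈ VF n, ρ g y - y ∈ VF (n + 1))

include hVFa hρ in
theorem ph_unip (i : ℤ) (g : N) (n : ℕ) (F : EE V d) (hF : F ∈ UU VF d n) :
    phH d ρ v hv hv0 i g F - F ∈ UU VF d (n + 1) := by
  intro s x
  have h1 : (phH d ρ v hv hv0 i g F - F).1 = fun x => v (x - i) • (ρ g (F.1 i) - F.1 i) := by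
    funext y
    show (phH d ρ v hv hv0 i g F).1 y - F.1 y = _
    rw [phH_apply, add_sub_cancel_left]
  rw [h1, Df_smul]
  by_cases hs : s < d + 1
  · apply Submodule.smul_mem
    have h2 := hF 0 i
    have h3 := hρ g _ _ h2
    refine hVFa ?_ h3
    rw [add_zero]
    calc (n + 1 + s) / (d + 1) ≤ (n + (d + 1)) / (d + 1) := Nat.div_le_div_right (by omega)
      _ = n / (d + 1) + 1 := Nat.add_div_right _ (by omega)
  · have h2 : (Df ℚ ^ s) v = 0 := Df_pow_ge d v ((mem_EE d v).mpr hv) s (by omega)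
    simp only [h2, Pi.zero_apply, zero_smul]
    exact zero_mem _

theorem sh_unip (n : ℕ) (F : EE V d) (hF : F ∈ UU VF d n) :
    shH V d (Multiplicative.ofAdd 1) F - F ∈ UU VF d (n + 1) := by
  intro s x
  have h1 : (shH V d (Multiplicative.ofAdd 1) F - F).1 = Df V F.1 := rfl
  rw [h1, ← Module.End.mul_apply, ← pow_succ]
  have h2 := hF (s + 1) x
  have : n + 1 + s = n + (s + 1) := by ring
  rw [this]; exact h2

end fun1

/-- Lagrange type function -/
theorem exists_v (W : ℕ) : ∃ v : ℤ → ℚ, (Df ℚ ^ (2 * W + 1)) v = 0 ∧ v 0 = 1 ∧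
    ∀ i : ℤ, i ≠ 0 → |i| ≤ W → v i = 0 := by
  classical
  let S : Finset ℤ := (Finset.Icc (-(W : ℤ)) W).erase 0
  let P : Polynomial ℚ := ∏ i ∈ S, (Polynomial.X - Polynomial.C (i : ℚ))
  have hdeg : P.natDegree = 2 * W := by
    rw [Polynomial.natDegree_prod_of_monic _ _ (fun i _ => Polynomial.monic_X_sub_C _)]
    simp only [Polynomial.natDegree_X_sub_C, Finset.sum_const, smul_eq_mul, mul_one]
    rw [Finset.card_erase_of_mem (by simp), Int.card_Icc]
    omega
  have hP0 : P.eval 0 ≠ 0 := by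
    rw [Polynomial.eval_prod, Finset.prod_ne_zero_iff]
    intro i hi
    have : i ≠ 0 := Finset.ne_of_mem_erase hi
    simpa using this
  refine ⟨fun x => P.eval (x : ℚ) / P.eval 0, ?_, ?_, ?_⟩
  · have h1 : ∀ s : ℕ, (Df ℚ ^ s) (fun x : ℤ => P.eval (x : ℚ) / P.eval 0) =
        fun x : ℤ => ((fwdDiff (1 : ℚ))^[s] P.eval) (x : ℚ) / P.eval 0 := by
      intro s
      induction s with
      | zero => rfl
      | succ s ih =>
        rw [pow_succ', Module.End.mul_apply, ih]
        funext x
        rw [Df_apply, Function.iterate_succ_apply', fwdDiff]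
        push_cast
        ring
    rw [h1, Polynomial.fwdDiff_iter_eq_zero_of_degree_lt (by omega)]
    funext x
    simp
  · simp only [Int.cast_zero]
    exact div_self hP0
  · intro i hi hiW
    have : P.eval (i : ℚ) = 0 := by
      rw [Polynomial.eval_prod]
      apply Finset.prod_eq_zero (i := i)
      · rw [Finset.mem_erase, Finset.mem_Icc]
        rw [abs_le] at hiW
        exact ⟨hi, hiW⟩
      · simp
    simp only [this, zero_div]

end Pool.Agent.H26.WZ
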