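import Mathlib
import Pool.Agent.H26.WZ5

set_option autoImplicit false
set_option linter.style.haveILetI false

namespace Pool.Agent.H26.WZ

open Subgroup

/-- the shift automorphism -/
def shEq (G : Type) [Group G] : (ℤ → G) ≃* (ℤ → G) :=
  { toFun := fun (x : ℤ → G) (i : ℤ) => x (i + 1),
    invFun := fun (x : ℤ → G) (i : ℤ) => x (i - 1),
    left_inv := fun (x : ℤ → G) => funext fun (i : ℤ) => congrArg x (sub_add_cancel i 1),
    right_inv := fun (x : ℤ → G) => funext fun (i : ℤ) => congrArg x (add_sub_cancel_right i 1),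
    map_mul' := fun (x y : ℤ → G) => rfl }

/-- unrestricted wreath product with ℤ -/
abbrev SW (G : Type) [Group G] : Type :=
  SemidirectProduct (ℤ → G) (Multiplicative ℤ) (zpowersHom (MulAut (ℤ → G)) (shEq G))

theorem act_apply (G : Type) [Group G] (m : Multiplicative ℤ) (y : ℤ → G) (i : ℤ) :
    (zpowersHom (MulAut (ℤ → G)) (shEq G)) m y i = y (i + Multiplicative.toAdd m) := by
  rw [zpowersHom_apply]
  generalize Multiplicative.toAdd m = a
  induction a using Int.induction_on generalizing y i with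
  | zero => simp
  | succ a ih =>
    rw [zpow_add_one, MulAut.mul_apply, ih]
    show y (i + a + 1) = _
    rw [add_assoc]
  | pred a ih =>
    rw [zpow_sub_one, MulAut.mul_apply, ih]
    show y (i + -(a : ℤ) - 1) = _
    congr 1
    ring

section win
variable {N 𝒢 : Type} [Group N] [Group 𝒢] (φ : ℤ → (N →* 𝒢)) (T : 𝒢)

/-- window product -/
def Pw (a : ℤ) (n : ℕ) (y : ℤ → N) : 𝒢 := ((List.range n).map (fun k : ℕ => φ (a + k) (y (a + k)))).prod

theorem Pw_zero (a : ℤ) (y : ℤ → N) : Pw φ a 0 y = 1 := by simp [Pw]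

theorem Pw_succ (a : ℤ) (n : ℕ) (y : ℤ → N) : Pw φ a (n + 1) y = Pw φ a n y * φ (a + n) (y (a + n)) := by
  simp [Pw, List.range_succ]

theorem Pw_succ' (a : ℤ) (n : ℕ) (y : ℤ → N) : Pw φ a (n + 1) y = φ a (y a) * Pw φ (a + 1) n y := by
  induction n with
  | zero => rw [Pw_succ, Pw_zero, Pw_zero]; simp
  | succ n ih =>
    rw [Pw_succ, ih, Pw_succ φ (a + 1) n y, mul_assoc]
    congr 3
    · push_cast; congr 1; ring
    · push_cast; ring

theorem Pw_one (a : ℤ) (n : ℕ) : Pw φ a n 1 = 1 := by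
  induction n with
  | zero => exact Pw_zero _ _ _
  | succ n ih => rw [Pw_succ, ih]; simp

theorem Pw_extR (a : ℤ) (n k : ℕ) (y : ℤ → N) (hy : ∀ i, a + n ≤ i → y i = 1) :
    Pw φ a (n + k) y = Pw φ a n y := by
  induction k with
  | zero => rfl
  | succ k ih => rw [← add_assoc, Pw_succ, ih, hy _ (by push_cast; omega), map_one, mul_one]

theorem Pw_extL (a : ℤ) (n k : ℕ) (y : ℤ → N) (hy : ∀ i, i < a → y i = 1) :
    Pw φ (a - k) (n + k) y = Pw φ a n y := by
  induction k with
  | zero => simp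
  | succ k ih =>
    rw [← add_assoc, Pw_succ', hy _ (by push_cast; omega), map_one, one_mul, ← ih]
    congr 1
    push_cast; ring

theorem Pw_sub (lo hi : ℤ) (a : ℤ) (n : ℕ) (y : ℤ → N) (h1 : lo ≤ a) (h2 : a + n ≤ hi)
    (hy : ∀ i, ¬ (a ≤ i ∧ i < a + n) → y i = 1) : Pw φ lo (hi - lo).toNat y = Pw φ a n y := by
  have e1 : a - ((a - lo).toNat : ℤ) = lo := by omega
  have e2 := Pw_extL φ a n (a - lo).toNat y (fun i hi => hy i (by omega))
  rw [e1] at e2
  rw [← e2]
  have e3 : (hi - lo).toNat = (n + (a - lo).toNat) + (hi - (a + n)).toNat := by omega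
  rw [e3]
  exact Pw_extR φ lo _ _ y (fun i hi => hy i (by omega))

theorem Pw_eq (a a' : ℤ) (n n' : ℕ) (y : ℤ → N) (hy : ∀ i, ¬ (a ≤ i ∧ i < a + n) → y i = 1)
    (hy' : ∀ i, ¬ (a' ≤ i ∧ i < a' + n') → y i = 1) : Pw φ a n y = Pw φ a' n' y := by
  rw [← Pw_sub φ (min a a') (max (a + n) (a' + n')) a n y (min_le_left _ _) (le_max_left _ _) hy,
    ← Pw_sub φ (min a a') (max (a + n) (a' + n')) a' n' y (min_le_right _ _) (le_max_right _ _) hy']

variable (W : ℕ) (hc : ∀ i j : ℤ, i ≠ j → |i - j| ≤ W → ∀ g h, Commute (φ i g) (φ j h))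

include hc in
theorem Pw_commute (a : ℤ) (n : ℕ) (y : ℤ → N) (j : ℤ) (g : N) (h1 : a + n ≤ j) (h2 : j - a ≤ W) :
    Commute (φ j g) (Pw φ a n y) := by
  induction n with
  | zero => rw [Pw_zero]; exact Commute.one_right _
  | succ n ih =>
    rw [Pw_succ]
    push_cast at h1
    apply Commute.mul_right (ih (by omega))
    apply hc
    · omega
    · rw [abs_le]; constructor <;> omega

include hc in
theorem Pw_mul (a : ℤ) (n : ℕ) (x y : ℤ → N) (hn : n ≤ W + 1) :
    Pw φ a n (x * y) = Pw φ a n x * Pw φ a n y := by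
  induction n with
  | zero => simp [Pw_zero]
  | succ n ih =>
    rw [Pw_succ, Pw_succ, Pw_succ, ih (by omega), Pi.mul_apply, map_mul]
    have h1 := Pw_commute φ W hc a n y (a + n) (x (a + n)) le_rfl (by omega)
    calc Pw φ a n x * Pw φ a n y * (φ (a + n) (x (a + n)) * φ (a + n) (y (a + n)))
        = Pw φ a n x * (Pw φ a n y * φ (a + n) (x (a + n))) * φ (a + n) (y (a + n)) := by group
      _ = Pw φ a n x * (φ (a + n) (x (a + n)) * Pw φ a n y) * φ (a + n) (y (a + n)) := by rw [h1.eq]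
      _ = _ := by group

variable (hT : ∀ (i : ℤ) (g : N), T * φ i g = φ (i - 1) g * T)

include hT in
theorem T_zpow (m : ℤ) : ∀ (i : ℤ) (g : N), T ^ m * φ i g = φ (i - m) g * T ^ m := by
  induction m using Int.induction_on with
  | zero => intro i g; simp
  | succ m ih =>
    intro i g
    rw [zpow_add_one, mul_assoc, hT, ← mul_assoc, ih, mul_assoc]
    congr 3
    ring
  | pred m ih =>
    intro i g
    have h1 : T⁻¹ * φ i g = φ (i + 1) g * T⁻¹ := by
      have := hT (i + 1) g
      rw [add_sub_cancel_right] at this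
      rw [eq_mul_inv_iff_mul_eq, mul_assoc, ← this]; group
    rw [zpow_sub_one, mul_assoc, h1, ← mul_assoc, ih, mul_assoc]
    congr 3
    ring

include hT in
theorem Pw_conj (m : ℤ) (a : ℤ) (n : ℕ) (y : ℤ → N) :
    T ^ m * Pw φ a n y = Pw φ (a - m) n (fun i => y (i + m)) * T ^ m := by
  induction n with
  | zero => simp [Pw_zero]
  | succ n ih =>
    rw [Pw_succ, ← mul_assoc, ih, mul_assoc, T_zpow φ T hT, ← mul_assoc, Pw_succ]
    have e1 : a + (n : ℤ) - m = a - m + n := by ring
    have e2 : a - m + n + m = a + n := by ring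
    simp only [e1, e2]

/-- supported in `[-B,B]` -/
def Sup (y : ℤ → N) (B : ℕ) : Prop := ∀ i : ℤ, (B : ℤ) < |i| → y i = 1

/-- the partial homomorphism -/
def Gf (A : ℕ) (p : SW N) : 𝒢 := Pw φ (-(A : ℤ)) (2 * A + 1) p.left * T ^ (Multiplicative.toAdd p.right)

include hc hT in
theorem Gf_mul (A B : ℕ) (hA : 2 * A ≤ W) (p q : SW N) (hq : Sup q.left B)
    (hB : B + (Multiplicative.toAdd p.right).natAbs ≤ A) :
    Gf φ T A (p * q) = Gf φ T A p * Gf φ T A q := by
  unfold Gf
  rw [SemidirectProduct.mul_left, SemidirectProduct.mul_right, toAdd_mul, zpow_add,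
    Pw_mul φ W hc _ _ _ _ (by omega)]
  set m := Multiplicative.toAdd p.right with hm
  have e1 : (zpowersHom (MulAut (ℤ → N)) (shEq N)) p.right q.left = fun i => q.left (i + m) := by
    funext i; rw [act_apply]
  rw [e1]
  have e2 := Pw_conj φ T hT m (-(A : ℤ)) (2 * A + 1) q.left
  have e3 : Pw φ (-(A : ℤ)) (2 * A + 1) (fun i => q.left (i + m)) =
      Pw φ (-(A : ℤ) - m) (2 * A + 1) (fun i => q.left (i + m)) := by
    have habs : |m| ≤ (A : ℤ) - B := by rw [Int.abs_eq_natAbs]; omega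
    rw [abs_le] at habs
    apply Pw_eq
    · intro i hi
      apply hq
      rw [lt_abs]
      push_cast at hi
      omega
    · intro i hi
      apply hq
      rw [lt_abs]
      push_cast at hi
      omega
  rw [e3]
  calc _ = Pw φ (-(A : ℤ)) (2 * A + 1) p.left * (Pw φ (-(A : ℤ) - m) (2 * A + 1) (fun i => q.left (i + m)) * T ^ m) *
        T ^ (Multiplicative.toAdd q.right) := by group
    _ = _ := by rw [← e2]; group

theorem Gf_one (A : ℕ) : Gf φ T A 1 = 1 := by
  unfold Gf
  rw [SemidirectProduct.one_left, Pw_one, SemidirectProduct.one_right]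
  simp

end win

/-- the support lemma for products -/
theorem Sup_mul {N : Type} [Group N] (p q : SW N) (a b : ℕ) (hp : Sup p.left a) (hq : Sup q.left b) (c : ℕ)
    (h1 : a ≤ c) (h2 : b + (Multiplicative.toAdd p.right).natAbs ≤ c) : Sup (p * q).left c := by
  intro i hi
  rw [SemidirectProduct.mul_left, Pi.mul_apply, act_apply, hp i (by omega), hq, one_mul]
  have h3 : |i| ≤ |i + Multiplicative.toAdd p.right| + |Multiplicative.toAdd p.right| := by
    have := abs_sub (i + Multiplicative.toAdd p.right) (Multiplicative.toAdd p.right)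
    rwa [add_sub_cancel_right] at this
  have h4 : |Multiplicative.toAdd p.right| = ((Multiplicative.toAdd p.right).natAbs : ℤ) := Int.abs_eq_natAbs _
  omega

theorem Sup_inv {N : Type} [Group N] (p : SW N) (a : ℕ) (hp : Sup p.left a) (c : ℕ)
    (h1 : a + (Multiplicative.toAdd p.right).natAbs ≤ c) : Sup (p⁻¹).left c := by
  intro i hi
  rw [SemidirectProduct.inv_left, act_apply, Pi.inv_apply, hp, inv_one]
  rw [toAdd_inv]
  have h3 : |i| ≤ |i + -Multiplicative.toAdd p.right| + |Multiplicative.toAdd p.right| := by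
    have := abs_add_le (i + -Multiplicative.toAdd p.right) (Multiplicative.toAdd p.right)
    rwa [neg_add_cancel_right] at this
  have h4 : |Multiplicative.toAdd p.right| = ((Multiplicative.toAdd p.right).natAbs : ℤ) := Int.abs_eq_natAbs _
  omega

section words
variable {N : Type} [Group N] {n : ℕ} (F : FreeGroup (Fin n) →* SW N) (s μ : ℕ)
  (hs : ∀ j, Sup (F (FreeGroup.of j)).left s)
  (hμ : ∀ j, (Multiplicative.toAdd (F (FreeGroup.of j)).right).natAbs ≤ μ)

include hs hμ in
theorem letter (c : Fin n × Bool) : Sup (F (FreeGroup.mk [c])).left (s + μ) ∧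
    (Multiplicative.toAdd (F (FreeGroup.mk [c])).right).natAbs ≤ μ := by
  obtain ⟨j, b⟩ := c
  cases b with
  | true =>
    have e : FreeGroup.mk [(j, true)] = FreeGroup.of j := rfl
    rw [e]
    exact ⟨fun i hi => hs j i (by push_cast at hi; omega), hμ j⟩
  | false =>
    have e : FreeGroup.mk [(j, false)] = (FreeGroup.of j)⁻¹ := by
      rw [FreeGroup.of, FreeGroup.inv_mk]; rfl
    rw [e, map_inv]
    refine ⟨Sup_inv _ s (hs j) _ (by have := hμ j; omega), ?_⟩
    rw [SemidirectProduct.inv_right, toAdd_inv, Int.natAbs_neg]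
    exact hμ j

include hs hμ in
theorem word_sup (l : List (Fin n × Bool)) : Sup (F (FreeGroup.mk l)).left (s + μ * (l.length + 1)) := by
  induction l with
  | nil =>
    have : (FreeGroup.mk [] : FreeGroup (Fin n)) = 1 := rfl
    rw [this, map_one]
    intro i _; rfl
  | cons c l ih =>
    have e : FreeGroup.mk (c :: l) = FreeGroup.mk [c] * FreeGroup.mk l := by
      rw [FreeGroup.mul_mk]; rfl
    rw [e, map_mul]
    obtain ⟨h1, h2⟩ := letter F s μ hs hμ c
    apply Sup_mul _ _ _ _ h1 ih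
    · rw [List.length_cons]; nlinarith
    · rw [List.length_cons]; nlinarith

variable {𝒢 : Type} [Group 𝒢] (φ : ℤ → (N →* 𝒢)) (T : 𝒢)
  (W : ℕ) (hc : ∀ i j : ℤ, i ≠ j → |i - j| ≤ W → ∀ g h, Commute (φ i g) (φ j h))
  (hT : ∀ (i : ℤ) (g : N), T * φ i g = φ (i - 1) g * T) (A : ℕ) (hA : 2 * A ≤ W)

include hs hμ hc hT hA in
theorem letter_hom (hA2 : s + μ + μ ≤ A) (c : Fin n × Bool) :
    FreeGroup.lift (fun j => Gf φ T A (F (FreeGroup.of j))) (FreeGroup.mk [c]) =
      Gf φ T A (F (FreeGroup.mk [c])) := by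
  obtain ⟨j, b⟩ := c
  cases b with
  | true =>
    have e : FreeGroup.mk [(j, true)] = FreeGroup.of j := rfl
    rw [e, FreeGroup.lift_apply_of]
  | false =>
    have e : FreeGroup.mk [(j, false)] = (FreeGroup.of j)⁻¹ := by
      rw [FreeGroup.of, FreeGroup.inv_mk]; rfl
    rw [e, map_inv, map_inv, FreeGroup.lift_apply_of]
    have h1 := Gf_mul φ T W hc hT A (s + μ) hA (F (FreeGroup.of j)) (F (FreeGroup.of j))⁻¹
      (Sup_inv _ s (hs j) _ (by have := hμ j; omega)) (by have := hμ j; omega)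
    rw [mul_inv_cancel, Gf_one] at h1
    exact (eq_inv_of_mul_eq_one_right h1.symm).symm

include hs hμ hc hT hA in
theorem word_hom (l : List (Fin n × Bool)) (hA2 : s + μ * (l.length + 2) ≤ A) :
    FreeGroup.lift (fun j => Gf φ T A (F (FreeGroup.of j))) (FreeGroup.mk l) =
      Gf φ T A (F (FreeGroup.mk l)) := by
  induction l with
  | nil =>
    have : (FreeGroup.mk [] : FreeGroup (Fin n)) = 1 := rfl
    rw [this, map_one, map_one, Gf_one]
  | cons c l ih =>
    rw [List.length_cons] at hA2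
    have e : FreeGroup.mk (c :: l) = FreeGroup.mk [c] * FreeGroup.mk l := by
      rw [FreeGroup.mul_mk]; rfl
    obtain ⟨h1, h2⟩ := letter F s μ hs hμ c
    rw [e, map_mul, map_mul, ih (by nlinarith), letter_hom F s μ hs hμ φ T W hc hT A hA (by nlinarith),
      Gf_mul φ T W hc hT A (s + μ * (l.length + 1)) hA _ _ (word_sup F s μ hs hμ l) (by nlinarith)]

end words

end Pool.Agent.H26.WZ
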