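import Mathlib
import Pool.Agent.H26.WZ6

set_option autoImplicit false
set_option linter.style.haveILetI false

namespace Pool.Agent.H26.WZ

open Subgroup

section rep
variable (N : Type) [Group N] (k : ℕ)

/-- the module -/
abbrev VV : Type := QG N ⧸ Fil N k

/-- the action on the module -/
noncomputable def rho : N →* Module.End ℚ (VV N k) where
  toFun g := (Fil N k).mapQ (Fil N k) (LinearMap.mulLeft ℚ (e g)) (fun y hy => mul_Fil k (e g) y hy)
  map_one' := by
    apply LinearMap.ext
    intro x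
    obtain ⟨x, rfl⟩ := Submodule.mkQ_surjective _ x
    show Submodule.Quotient.mk (e (1 : N) * x) = Submodule.Quotient.mk x
    rw [show e (1 : N) = 1 from map_one _, one_mul]
  map_mul' a b := by
    apply LinearMap.ext
    intro x
    obtain ⟨x, rfl⟩ := Submodule.mkQ_surjective _ x
    show Submodule.Quotient.mk (e (a * b) * x) = Submodule.Quotient.mk (e a * (e b * x))
    rw [show e (a * b) = e a * e b from map_mul _ _ _, mul_assoc]

theorem rho_apply (g : N) (x : QG N) : rho N k g (Submodule.Quotient.mk x) = Submodule.Quotient.mk (e g * x) := rfl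

/-- filtration on the module -/
noncomputable def VF (j : ℕ) : Submodule ℚ (VV N k) := (Fil N j).map (Fil N k).mkQ

theorem VF_anti : Antitone (VF N k) := by
  apply antitone_nat_of_succ_le
  intro j
  exact Submodule.map_mono (Fil_anti j)

theorem VF_zero : VF N k 0 = ⊤ := by
  rw [VF, Fil, Submodule.map_top, Submodule.range_mkQ]

theorem VF_top : VF N k k = ⊥ := by
  rw [VF, Submodule.mkQ_map_self]

theorem VF_rho (g : N) (n : ℕ) : ∀ y ∈ VF N k n, rho N k g y - y ∈ VF N k (n + 1) := by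
  rintro _ ⟨x, hx, rfl⟩
  refine ⟨(e g - 1) * x, ?_, ?_⟩
  · rw [Fil]; exact Submodule.mul_mem_mul (mem_Aug g) hx
  · rw [Submodule.mkQ_apply, Submodule.mkQ_apply, rho_apply, sub_mul, one_mul]
    rfl

end rep

section final
variable {N : Type} [Group N] (k d : ℕ) (v : ℤ → ℚ) (hv : (Df ℚ ^ (d + 1)) v = 0) (hv0 : v 0 = 1)

/-- unit valued local homs -/
noncomputable def phU (i : ℤ) : N →* (Module.End ℚ (EE (VV N k) d))ˣ :=
  (phH d (rho N k) v hv hv0 i).toHomUnits

/-- unit valued shift -/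
noncomputable def TU (N : Type) [Group N] (k d : ℕ) : (Module.End ℚ (EE (VV N k) d))ˣ :=
  (shH (VV N k) d).toHomUnits (Multiplicative.ofAdd 1)

theorem evalP (W : ℕ) (hW : ∀ i : ℤ, i ≠ 0 → |i| ≤ W → v i = 0) (y : ℤ → N) (i0 a : ℤ) (n : ℕ)
    (F : EE (VV N k) d) (hj : ∀ j, a ≤ j → j < a + n → |i0 - j| ≤ W) :
    (((Pw (phU k d v hv hv0) a n y : (Module.End ℚ (EE (VV N k) d))ˣ) : Module.End ℚ (EE (VV N k) d)) F).1 i0 =
      if a ≤ i0 ∧ i0 < a + n then rho N k (y i0) (F.1 i0) else F.1 i0 := by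
  induction n generalizing F with
  | zero =>
    rw [Pw_zero, if_neg (by push_cast; omega)]; rfl
  | succ n ih =>
    rw [Pw_succ, Units.val_mul, Module.End.mul_apply, ih _ (fun j h1 h2 => hj j h1 (by push_cast; omega))]
    have e1 : ((phU k d v hv hv0 (a + n) (y (a + n)) : (Module.End ℚ (EE (VV N k) d))ˣ) :
      Module.End ℚ (EE (VV N k) d)) = phH d (rho N k) v hv hv0 (a + n) (y (a + n)) := rfl
    rw [e1, phH_apply]
    by_cases h : i0 = a + n
    · rw [if_neg (by omega), if_pos (by push_cast; omega), ← h, sub_self, hv0, one_smul, add_sub_cancel]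
    · have h1 : v (i0 - (a + n)) = 0 := hW _ (by omega) (hj _ (by omega) (by push_cast; omega))
      rw [h1, zero_smul, add_zero]
      by_cases h2 : a ≤ i0 ∧ i0 < a + n
      · rw [if_pos h2, if_pos (by push_cast; omega)]
      · rw [if_neg h2, if_neg (by push_cast; omega)]

end final

theorem part3 {N : Type} [Group N] (k n : ℕ) (F : FreeGroup (Fin n) →* SW N) (s μ : ℕ)
    (hs : ∀ j, Sup (F (FreeGroup.of j)).left s)
    (hμ : ∀ j, (Multiplicative.toAdd (F (FreeGroup.of j)).right).natAbs ≤ μ) (L : ℕ) :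
    ∃ (Γ : Type) (_ : Group Γ) (f : FreeGroup (Fin n) →* Γ), Group.IsNilpotent Γ ∧ TF Γ ∧
      (∀ p : FreeGroup (Fin n), p.toWord.length ≤ L → F p = 1 → f p = 1) ∧
      (∀ p : FreeGroup (Fin n), p.toWord.length ≤ L → (F p).right = 1 →
        (∃ i, e ((F p).left i) - 1 ∉ Fil N k) → f p ≠ 1) := by
  set A := s + μ * (L + 2) with hA
  obtain ⟨v, hv, hv0, hvW⟩ := exists_v (2 * A)
  set d := 2 * (2 * A) with hd
  set V := VV N k with hV
  set U := UU (VF N k) d with hU
  have hUa : Antitone U := UU_anti _ d (VF_anti N k)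
  have hUt : U (k * (d + 1)) = ⊥ := UU_top _ d k (VF_top N k)
  have hU0 : U 0 = ⊤ := UU_zero _ d (VF_zero N k)
  set φ := phU (N := N) k d v hv hv0 with hφ
  set T := TU N k d with hT
  have hc : ∀ i j : ℤ, i ≠ j → |i - j| ≤ ((2 * A : ℕ) : ℤ) → ∀ g h, Commute (φ i g) (φ j h) := by
    intro i j hij habs g h
    have h1 : v (i - j) = 0 := hvW _ (sub_ne_zero.mpr hij) habs
    have h2 : v (j - i) = 0 := hvW _ (sub_ne_zero.mpr hij.symm) (by rwa [abs_sub_comm])
    apply Units.ext
    exact (ph_comm d (rho N k) v hv hv0 i j g h h1 h2)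
  have hTT : ∀ (i : ℤ) (g : N), T * φ i g = φ (i - 1) g * T := by
    intro i g
    apply Units.ext
    exact ph_shift d (rho N k) v hv hv0 i g
  have hmemφ : ∀ i g, φ i g ∈ HH U hUa _ hUt 0 := by
    intro i g m x hx
    exact ph_unip (VF N k) d (rho N k) v hv hv0 (VF_anti N k) (VF_rho N k) i g m x hx
  have hmemT : T ∈ HH U hUa _ hUt 0 := by
    intro m x hx
    exact sh_unip (VF N k) d m x hx
  have hmemG : ∀ p : SW N, Gf φ T A p ∈ HH U hUa _ hUt 0 := by
    intro p
    apply mul_mem _ (zpow_mem hmemT _)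
    apply Subgroup.list_prod_mem
    intro z hz
    rw [List.mem_map] at hz
    obtain ⟨j, -, rfl⟩ := hz
    exact hmemφ _ _
  let f : FreeGroup (Fin n) →* HH U hUa _ hUt 0 :=
    FreeGroup.lift (fun j => ⟨Gf φ T A (F (FreeGroup.of j)), hmemG _⟩)
  have hf : ∀ p, ((f p : HH U hUa _ hUt 0) : (Module.End ℚ (EE (VV N k) d))ˣ) =
      FreeGroup.lift (fun j => Gf φ T A (F (FreeGroup.of j))) p := by
    intro p
    have : (Subgroup.subtype _).comp f = FreeGroup.lift (fun j => Gf φ T A (F (FreeGroup.of j))) := by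
      ext j
      simp [f]
    exact DFunLike.congr_fun this p
  have hf2 : ∀ p : FreeGroup (Fin n), p.toWord.length ≤ L →
      ((f p : HH U hUa _ hUt 0) : (Module.End ℚ (EE (VV N k) d))ˣ) = Gf φ T A (F p) := by
    intro p hp
    rw [hf]
    have h1 := word_hom F s μ hs hμ φ T (2 * A) hc hTT A le_rfl p.toWord (by rw [hA]; gcongr)
    rwa [FreeGroup.mk_toWord] at h1
  refine ⟨HH U hUa _ hUt 0, inferInstance, f, HH_nil U hUa _ hUt hU0, HH_tf U hUa _ hUt hU0, ?_, ?_⟩
  · intro p hp hFp
    apply Subtype.ext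
    rw [hf2 p hp, hFp, Gf_one]
    rfl
  · rintro p hp hr ⟨i0, hi0⟩ hone
    have h1 := hf2 p hp
    rw [hone] at h1
    unfold Gf at h1
    rw [hr, toAdd_one, zpow_zero, mul_one] at h1
    have hi0ne : (F p).left i0 ≠ 1 := by
      intro h2
      apply hi0
      rw [h2, show e (1 : N) = 1 from map_one _, sub_self]
      exact zero_mem _
    have hsup := word_sup F s μ hs hμ p.toWord
    rw [FreeGroup.mk_toWord] at hsup
    have habs : |i0| ≤ (A : ℤ) := by
      by_contra hcon
      push Not at hcon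
      apply hi0ne
      apply hsup
      refine lt_of_le_of_lt ?_ hcon
      have : s + μ * (p.toWord.length + 1) ≤ A := by rw [hA]; gcongr; omega
      exact_mod_cast this
    rw [abs_le] at habs
    let c : EE (VV N k) d := ⟨fun _ => Submodule.Quotient.mk 1, by
      rw [mem_EE, pow_succ, Module.End.mul_apply]
      have : Df (VV N k) (fun _ => Submodule.Quotient.mk 1) = 0 := by
        funext x; rw [Df_apply]; simp
      rw [this, map_zero]⟩
    have h2 := evalP k d v hv hv0 (2 * A) hvW (F p).left i0 (-(A : ℤ)) (2 * A + 1) c (by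
      intro j hj1 hj2
      rw [abs_le]
      push_cast at hj2 ⊢
      constructor <;> omega)
    rw [if_pos (by push_cast; omega)] at h2
    have h3 : (((Pw φ (-(A : ℤ)) (2 * A + 1) (F p).left : (Module.End ℚ (EE (VV N k) d))ˣ) :
        Module.End ℚ (EE (VV N k) d)) c).1 i0 = Submodule.Quotient.mk 1 := by
      rw [← h1]; rfl
    rw [h3] at h2
    have h4 : (Submodule.Quotient.mk 1 : VV N k) = Submodule.Quotient.mk (e ((F p).left i0) * 1) := h2
    rw [mul_one] at h4
    have h5 := (Submodule.Quotient.eq _).mp h4.symm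
    exact hi0 h5

end Pool.Agent.H26.WZ
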