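import Mathlib
import Pool.Agent.H26.WZ7

set_option autoImplicit false
set_option linter.style.haveILetI false

namespace Pool.Agent.H26.WZ

open Subgroup

/-- functoriality -/
def SWmap {X Y : Type} [Group X] [Group Y] (h : X →* Y) : SW X →* SW Y where
  toFun p := ⟨fun i => h (p.left i), p.right⟩
  map_one' := by
    ext
    · simp
    · rfl
  map_mul' p q := by
    apply SemidirectProduct.ext
    · funext i
      show h ((p * q).left i) = _
      rw [SemidirectProduct.mul_left, SemidirectProduct.mul_left, Pi.mul_apply, Pi.mul_apply, act_apply,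
        act_apply, map_mul]
    · rfl

theorem SWmap_left {X Y : Type} [Group X] [Group Y] (h : X →* Y) (p : SW X) (i : ℤ) :
    (SWmap h p).left i = h (p.left i) := rfl
theorem SWmap_right {X Y : Type} [Group X] [Group Y] (h : X →* Y) (p : SW X) :
    (SWmap h p).right = p.right := rfl

theorem zTF : TF (Multiplicative ℤ) := by
  intro g hg k hk h
  apply hg
  have h1 : Multiplicative.toAdd (g ^ k) = 0 := by rw [h]; rfl
  rw [toAdd_pow, smul_eq_zero] at h1
  rcases h1 with h1 | h1
  · omega
  · exact h1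

theorem main (G : Type) [Group G]
    (hG : ∀ (n : ℕ) (ps : List (FreeGroup (Fin n))) (w : FreeGroup (Fin n)),
        (∀ (N : Type) [Group N], Group.IsNilpotent N →
          (∀ g : N, g ≠ 1 → ∀ k : ℕ, 0 < k → g ^ k ≠ 1) →
          ∀ f : FreeGroup (Fin n) →* N, (∀ p ∈ ps, f p = 1) → f w = 1) →
        ∀ f : FreeGroup (Fin n) →* G, (∀ p ∈ ps, f p = 1) → f w = 1)
    (n : ℕ) (ps : List (FreeGroup (Fin n))) (w : FreeGroup (Fin n))
    (hq : ∀ (N : Type) [Group N], Group.IsNilpotent N →
          (∀ g : N, g ≠ 1 → ∀ k : ℕ, 0 < k → g ^ k ≠ 1) →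
          ∀ f : FreeGroup (Fin n) →* N, (∀ p ∈ ps, f p = 1) → f w = 1)
    (f0 : FreeGroup (Fin n) →* SW G) (hfin : ∀ j, ∃ B, Sup (f0 (FreeGroup.of j)).left B)
    (hps : ∀ p ∈ ps, f0 p = 1) : f0 w = 1 := by
  classical
  by_contra hw
  have hr : (f0 w).right = 1 := by
    have := hq (Multiplicative ℤ) inferInstance zTF (SemidirectProduct.rightHom.comp f0) (by
      intro p hp
      rw [MonoidHom.comp_apply, hps p hp, map_one])
    exact this
  have hl : ∃ i0, (f0 w).left i0 ≠ 1 := by
    by_contra hcon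
    push Not at hcon
    apply hw
    apply SemidirectProduct.ext
    · funext i; exact hcon i
    · exact hr
  obtain ⟨i0, hi0⟩ := hl
  choose B hB using hfin
  set s := Finset.univ.sup B with hs
  set μ := Finset.univ.sup (fun j => (Multiplicative.toAdd (f0 (FreeGroup.of j)).right).natAbs) with hμ
  have hsj : ∀ j, B j ≤ s := fun j => Finset.le_sup (Finset.mem_univ j)
  have hμj : ∀ j, (Multiplicative.toAdd (f0 (FreeGroup.of j)).right).natAbs ≤ μ :=
    fun j => Finset.le_sup (f := fun j => (Multiplicative.toAdd (f0 (FreeGroup.of j)).right).natAbs)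
      (Finset.mem_univ j)
  have hsup0 : ∀ j, Sup (f0 (FreeGroup.of j)).left s := by
    intro j i hi
    exact hB j i (by have := hsj j; omega)
  let ε : Fin n × Fin (2 * s + 1) ≃ Fin (n * (2 * s + 1)) := finProdFinEquiv
  let bh : Fin n → ℤ → FreeGroup (Fin (n * (2 * s + 1))) := fun j i =>
    if h : |i| ≤ s then FreeGroup.of (ε (j, ⟨(i + s).toNat, by rw [abs_le] at h; omega⟩)) else 1
  let ev : FreeGroup (Fin (n * (2 * s + 1))) →* G :=
    FreeGroup.lift (fun t => (f0 (FreeGroup.of (ε.symm t).1)).left (((ε.symm t).2 : ℕ) - (s : ℤ)))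
  let Fh : FreeGroup (Fin n) →* SW (FreeGroup (Fin (n * (2 * s + 1)))) :=
    FreeGroup.lift (fun j => ⟨bh j, (f0 (FreeGroup.of j)).right⟩)
  have hFh : ∀ j, Fh (FreeGroup.of j) = ⟨bh j, (f0 (FreeGroup.of j)).right⟩ := fun j => by
    simp only [Fh, FreeGroup.lift_apply_of]
  have hev : ∀ p, SWmap ev (Fh p) = f0 p := by
    have : (SWmap ev).comp Fh = f0 := by
      apply FreeGroup.ext_hom
      intro j
      rw [MonoidHom.comp_apply, hFh]
      apply SemidirectProduct.ext
      · funext i
        rw [SWmap_left]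
        simp only [bh]
        split_ifs with h
        · simp only [ev, FreeGroup.lift_apply_of, Equiv.symm_apply_apply]
          rw [abs_le] at h
          have e9 : (((i + s).toNat : ℕ) : ℤ) - (s : ℤ) = i := by omega
          exact congrArg _ e9
        · rw [map_one]
          exact (hsup0 j i (by omega)).symm
      · rfl
    intro p
    exact DFunLike.congr_fun this p
  have hsupF : ∀ j, Sup (Fh (FreeGroup.of j)).left s := by
    intro j i hi
    rw [hFh]
    simp only [bh]
    rw [dif_neg (by omega)]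
  have hμF : ∀ j, (Multiplicative.toAdd (Fh (FreeGroup.of j)).right).natAbs ≤ μ := by
    intro j
    rw [hFh]; exact hμj j
  set L := ((w :: ps).map (fun p => p.toWord.length)).sum with hL
  have hLp : ∀ p ∈ w :: ps, p.toWord.length ≤ L := by
    intro p hp
    exact List.single_le_sum (by simp) _ (List.mem_map_of_mem hp)
  set D := s + μ * (L + 1) with hD
  have hsupD : ∀ p ∈ w :: ps, Sup (Fh p).left D := by
    intro p hp i hi
    have h1 := word_sup Fh s μ hsupF hμF p.toWord
    rw [FreeGroup.mk_toWord] at h1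
    apply h1
    refine lt_of_le_of_lt ?_ hi
    have : s + μ * (p.toWord.length + 1) ≤ D := by rw [hD]; gcongr; exact hLp p hp
    exact_mod_cast this
  let ps' : List (FreeGroup (Fin (n * (2 * s + 1)))) :=
    ps.flatMap (fun p => (List.range (2 * D + 1)).map (fun r : ℕ => (Fh p).left ((r : ℤ) - D)))
  have hnot : ¬ (∀ (N : Type) [Group N], Group.IsNilpotent N →
          (∀ g : N, g ≠ 1 → ∀ k : ℕ, 0 < k → g ^ k ≠ 1) →
          ∀ f : FreeGroup (Fin (n * (2 * s + 1))) →* N, (∀ p ∈ ps', f p = 1) → f ((Fh w).left i0) = 1) := by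
    intro hall
    have h1 := hG _ ps' ((Fh w).left i0) hall ev (by
      intro x hx
      rw [List.mem_flatMap] at hx
      obtain ⟨p, hp, hx⟩ := hx
      rw [List.mem_map] at hx
      obtain ⟨r, -, rfl⟩ := hx
      rw [← SWmap_left, hev, hps p hp]
      rfl)
    rw [← SWmap_left, hev] at h1
    exact hi0 h1
  push Not at hnot
  obtain ⟨N, hN, hnil, htf, f', hf1, hf2⟩ := hnot
  haveI := hnil
  let R := f'.range
  have hRfg : Group.FG R := Group.fg_of_surjective (f := f'.rangeRestrict) f'.rangeRestrict_surjective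
  have hRtf : TF R := TF.of_inj htf R.subtype Subtype.val_injective
  have hRN : RN R := RN_fg R hRfg hRtf
  obtain ⟨k, hk⟩ := hRN (f'.rangeRestrict ((Fh w).left i0)) (fun h => hf2 (congrArg Subtype.val h))
  let F2 : FreeGroup (Fin n) →* SW R := (SWmap f'.rangeRestrict).comp Fh
  obtain ⟨Γ, hΓ, f3, hΓn, hΓt, h3, h4⟩ := part3 k n F2 s μ
    (by
      intro j i hi
      show f'.rangeRestrict ((Fh (FreeGroup.of j)).left i) = 1
      rw [hsupF j i hi, map_one])
    (fun j => hμF j) L
  have hfin1 := hq Γ hΓn hΓt f3 (by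
    intro p hp
    apply h3 p (hLp p (List.mem_cons_of_mem _ hp))
    apply SemidirectProduct.ext
    · funext i
      show f'.rangeRestrict ((Fh p).left i) = 1
      by_cases hi : (D : ℤ) < |i|
      · rw [hsupD p (List.mem_cons_of_mem _ hp) i hi, map_one]
      · apply Subtype.ext
        show f' ((Fh p).left i) = 1
        apply hf1
        rw [List.mem_flatMap]
        refine ⟨p, hp, ?_⟩
        rw [List.mem_map]
        have hi' : |i| ≤ (D : ℤ) := by omega
        rw [abs_le] at hi'
        refine ⟨(i + D).toNat, by rw [List.mem_range]; omega, ?_⟩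
        have e9 : (((i + D).toNat : ℕ) : ℤ) - (D : ℤ) = i := by omega
        exact congrArg _ e9
    · show (Fh p).right = 1
      rw [← SWmap_right ev, hev, hps p hp]
      rfl)
  refine h4 w (hLp w List.mem_cons_self) ?_ ⟨i0, hk⟩ hfin1
  show (Fh w).right = 1
  rw [← SWmap_right ev, hev]
  exact hr

theorem closure_sup (G : Type) [Group G] (x : SW G)
    (hx : x ∈ Subgroup.closure
              ((Set.range (fun g : G => SemidirectProduct.inl (Pi.mulSingle (0 : ℤ) g)) ∪
                {SemidirectProduct.inr (Multiplicative.ofAdd (1 : ℤ))} : Set (SW G)))) :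
    ∃ B, Sup x.left B := by
  induction hx using Subgroup.closure_induction with
  | mem x hx =>
    rcases hx with ⟨g, rfl⟩ | hx
    · refine ⟨0, fun i hi => ?_⟩
      have : i ≠ 0 := by rintro rfl; simp at hi
      rw [SemidirectProduct.left_inl, Pi.mulSingle_eq_of_ne this]
    · rw [Set.mem_singleton_iff] at hx
      subst hx
      exact ⟨0, fun i _ => by rw [SemidirectProduct.left_inr]; rfl⟩
  | one => exact ⟨0, fun i _ => rfl⟩
  | mul p q _ _ hp hq =>
    obtain ⟨a, ha⟩ := hp
    obtain ⟨b, hb⟩ := hq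
    exact ⟨max a (b + (Multiplicative.toAdd p.right).natAbs), Sup_mul p q a b ha hb _ (le_max_left _ _) (le_max_right _ _)⟩
  | inv p _ hp =>
    obtain ⟨a, ha⟩ := hp
    exact ⟨_, Sup_inv p a ha _ le_rfl⟩

end Pool.Agent.H26.WZ
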