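import Mathlib
import Pool.Agent.H26.WordAlg

set_option autoImplicit false
set_option linter.style.haveILetI false

namespace Pool.Agent.H26.WordMat

open Pool.Agent.H26.WordAlg
open Pool.Agent.H26.TM (x no_circ)

abbrev Mat (N : ℕ) := Matrix (Fin (N + 1)) (Fin (N + 1)) (ZMod 2)

/-- letters -/
def A (N : ℕ) (a : ZMod 13) : Mat N := fun i j => if (j : ℕ) = i + 1 ∧ x i = a then 1 else 0

/-- `l` occurs at position `i` -/
def Occ (l : List (ZMod 13)) (i : ℕ) : Prop := ∀ k (h : k < l.length), x (i + k) = l[k]

theorem Occ_cons (a : ZMod 13) (l : List (ZMod 13)) (i : ℕ) :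
    Occ (a :: l) i ↔ x i = a ∧ Occ l (i + 1) := by
  constructor
  · intro h
    refine ⟨h 0 (by simp), fun k hk => ?_⟩
    have := h (k + 1) (by simpa using hk)
    simpa [add_assoc, add_comm 1 k] using this
  · rintro ⟨h1, h2⟩ k hk
    cases k with
    | zero => simpa using h1
    | succ k =>
      have := h2 k (by simpa using hk)
      simpa [add_assoc, add_comm 1 k] using this

open Classical in
theorem entry (N : ℕ) (l : List (ZMod 13)) : ∀ i j : Fin (N + 1),
    W (A N) l i j = if (j : ℕ) = i + l.length ∧ Occ l i then 1 else 0 := by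
  induction l with
  | nil =>
    intro i j
    have : Occ [] i := fun k hk => absurd hk (by simp)
    simp only [W, List.map_nil, List.prod_nil, List.length_nil, add_zero, this, and_true,
      Matrix.one_apply]
    by_cases h : i = j
    · subst h; simp
    · have : ¬ (j : ℕ) = i := fun h' => h (Fin.ext h'.symm)
      simp [h, this]
  | cons a l ih =>
    intro i j
    have hW : W (A N) (a :: l) = A N a * W (A N) l := by simp [W]
    rw [hW, Matrix.mul_apply]
    by_cases hi : (i : ℕ) + 1 < N + 1
    · rw [Finset.sum_eq_single ⟨(i : ℕ) + 1, hi⟩]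
      · rw [ih]
        simp only [A, Occ_cons, List.length_cons]
        by_cases h1 : x i = a
        · simp only [h1, true_and, and_true, if_true, one_mul]
          congr 1
          have : (i : ℕ) + 1 + l.length = i + (l.length + 1) := by ring
          rw [this]
        · simp [h1]
      · intro b _ hb
        have : ¬ ((b : ℕ) = i + 1) := fun h => hb (Fin.ext h)
        simp [A, this]
      · intro h; exact absurd (Finset.mem_univ _) h
    · have h0 : ¬ ((j : ℕ) = i + (a :: l).length ∧ Occ (a :: l) i) := by
        rintro ⟨h, -⟩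
        have := j.2
        simp only [List.length_cons] at h
        omega
      rw [if_neg h0]
      apply Finset.sum_eq_zero
      intro b _
      have : ¬ ((b : ℕ) = i + 1) := by have := b.2; omega
      simp [A, this]

theorem W_zero_of_long (N : ℕ) (l : List (ZMod 13)) (h : N < l.length) : W (A N) l = 0 := by
  classical
  ext i j
  rw [entry, if_neg]
  · rfl
  · rintro ⟨h1, -⟩
    have := j.2
    omega

theorem occ_of_ne (N : ℕ) (l : List (ZMod 13)) (h : W (A N) l ≠ 0) : ∃ i, Occ l i := by
  classical
  by_contra hcon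
  push Not at hcon
  apply h
  ext i j
  rw [entry, if_neg]
  · rfl
  · rintro ⟨-, h1⟩
    exact hcon i h1

theorem split (N : ℕ) (l : List (ZMod 13)) (hl : 2 ≤ l.length) (hW : W (A N) l ≠ 0) :
    ∃ u v : List (ZMod 13), l = u ++ v ∧ u ≠ [] ∧ v ≠ [] ∧ W (A N) (v ++ u) = 0 := by
  by_contra hcon
  push Not at hcon
  set n := l.length with hn
  have hn0 : 0 < n := by omega
  have hrot : ∀ m, m < n → ∃ a, Occ (l.rotate m) a := by
    intro m hm
    rcases Nat.eq_zero_or_pos m with h0 | h0
    · subst h0; rw [List.rotate_zero]; exact occ_of_ne N l hW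
    · have h1 := hcon (l.take m) (l.drop m) (List.take_append_drop m l).symm
        (by
          intro h
          have := congrArg List.length h
          rw [List.length_take] at this
          simp only [List.length_nil] at this
          omega)
        (by
          intro h
          have := congrArg List.length h
          rw [List.length_drop] at this
          simp only [List.length_nil] at this
          omega)
      rw [List.rotate_eq_drop_append_take hm.le]
      exact occ_of_ne N _ h1
  let w : ℕ → ZMod 13 := fun i => l[i % n]'(Nat.mod_lt _ hn0)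
  apply no_circ n hl w
  · intro i
    simp only [w, Nat.add_mod_right]
  · intro j
    obtain ⟨a, ha⟩ := hrot (j % n) (Nat.mod_lt _ hn0)
    refine ⟨a, fun i hi => ?_⟩
    have h1 := ha i (by rw [List.length_rotate]; exact hi)
    rw [h1, List.getElem_rotate]
    simp only [w]
    congr 1
    rw [← hn, add_comm j i]
    simp

/-- the algebra -/
def Ralg (N : ℕ) : NonUnitalSubalgebra (ZMod 2) (Mat N) where
  carrier := D (A N) 1
  add_mem' := fun ha hb => add_mem ha hb
  zero_mem' := zero_mem _
  mul_mem' := fun ha hb => D_anti _ (by omega) (D_mul _ ha hb)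
  smul_mem' := by
    intro c y hy
    have hc : c = 0 ∨ c = 1 := by revert c; decide
    rcases hc with rfl | rfl
    · rw [zero_smul]; exact zero_mem _
    · rw [one_smul]; exact hy

theorem A_mem (N : ℕ) (a : ZMod 13) : A N a ∈ Ralg N := by
  have : W (A N) [a] = A N a := by simp [W]
  rw [← this]
  exact W_mem _ _ _ (by simp)

theorem W_mem' (N : ℕ) (l : List (ZMod 13)) (h : l ≠ []) : W (A N) l ∈ Ralg N :=
  W_mem _ _ _ (List.length_pos_of_ne_nil h)

abbrev UU (N : ℕ) := Unitization (ZMod 2) (Ralg N)

/-- letters in the unitization -/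
def aU (N : ℕ) (a : ZMod 13) : UU N := Unitization.inr ⟨A N a, A_mem N a⟩

theorem W_aU (N : ℕ) (l : List (ZMod 13)) (h : l ≠ []) :
    W (aU N) l = Unitization.inr ⟨W (A N) l, W_mem' N l h⟩ := by
  induction l with
  | nil => exact absurd rfl h
  | cons a l ih =>
    by_cases hl : l = []
    · subst hl
      simp [W, aU]
    · have e1 : W (aU N) (a :: l) = aU N a * W (aU N) l := by simp [W]
      rw [e1, ih hl, aU, ← Unitization.inr_mul]
      rfl

theorem inr_mem (N : ℕ) (r : Ralg N) : (Unitization.inr r : UU N) ∈ D (aU N) 1 := by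
  obtain ⟨y, hy0⟩ := r
  have hy' : y ∈ D (A N) 1 := hy0
  unfold D at hy'
  suffices h : ∀ (hy : y ∈ Ralg N), (Unitization.inr (⟨y, hy⟩ : Ralg N) : UU N) ∈ D (aU N) 1 from h hy0
  clear hy0
  induction hy' using AddSubgroup.closure_induction with
  | mem y h =>
    obtain ⟨l, hl, rfl⟩ := h
    intro hy
    have hne : l ≠ [] := by rintro rfl; simp at hl
    rw [← W_aU N l hne]
    exact W_mem _ _ _ hl
  | zero =>
    intro hy
    have : (⟨0, hy⟩ : Ralg N) = 0 := rfl
    rw [this, Unitization.inr_zero]; exact zero_mem _
  | add y z hy' hz' h1 h2 =>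
    intro hy
    have : (⟨y + z, hy⟩ : Ralg N) = ⟨y, hy'⟩ + ⟨z, hz'⟩ := rfl
    rw [this, Unitization.inr_add]
    exact add_mem (h1 hy') (h2 hz')
  | neg y hy' h1 =>
    intro hy
    have : (⟨-y, hy⟩ : Ralg N) = -⟨y, hy'⟩ := rfl
    rw [this, Unitization.inr_neg]
    exact neg_mem (h1 hy')

end Pool.Agent.H26.WordMat
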